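import Pool.Agent.MP_3d8edd_pr.H69.Core2

/-!
The set of times with a bigeodesic has Hausdorff dimension zero.
-/

open MeasureTheory ProbabilityTheory Set Filter
open scoped NNReal ENNReal Topology

namespace Pool.Agent.MP_3d8edd_pr.H69

namespace Core1A

open Core2A

/-- Markov and Borel-Cantelli for the number of events that occur. -/
theorem count_le {Ω : Type*} [MeasurableSpace Ω] (P : Measure Ω) (A : ℕ → ℕ → Set Ω) (M : ℕ → ℕ)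
    (b : ℕ → ℝ≥0∞) (hb : ∑' ℓ, b ℓ ≠ ∞)
    (h : ∀ ℓ, ∑ p ∈ Finset.range (M ℓ), P (A ℓ p) ≤ 8 ^ ℓ * b ℓ) :
    ∀ᵐ ω ∂P, ∀ᶠ ℓ : ℕ in atTop, ∃ F : Finset ℕ, F.card ≤ 8 ^ ℓ ∧
      ∀ p ∈ Finset.range (M ℓ), ω ∈ A ℓ p → p ∈ F := by
  classical
  let X : ℕ → Ω → ℝ≥0∞ := fun ℓ ω =>
    ∑ p ∈ Finset.range (M ℓ), (toMeasurable P (A ℓ p)).indicator 1 ω
  have hX : ∀ ℓ, Measurable (X ℓ) := fun ℓ => Finset.measurable_sum _ fun p _ =>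
    measurable_one.indicator (measurableSet_toMeasurable _ _)
  have hI : ∀ ℓ, ∫⁻ ω, X ℓ ω ∂P = ∑ p ∈ Finset.range (M ℓ), P (A ℓ p) := by
    intro ℓ
    rw [lintegral_finsetSum _ fun p _ => measurable_one.indicator (measurableSet_toMeasurable _ _)]
    refine Finset.sum_congr rfl fun p _ => ?_
    rw [lintegral_indicator_one (measurableSet_toMeasurable _ _), measure_toMeasurable]
  have hP : ∀ ℓ, P {ω | (8 : ℝ≥0∞) ^ ℓ ≤ X ℓ ω} ≤ b ℓ := by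
    intro ℓ
    have h8 : (8 : ℝ≥0∞) ^ ℓ ≠ 0 := pow_ne_zero _ (by norm_num)
    have h8' : (8 : ℝ≥0∞) ^ ℓ ≠ ∞ := ENNReal.pow_ne_top (by norm_num)
    have := mul_meas_ge_le_lintegral₀ (μ := P) (hX ℓ).aemeasurable ((8 : ℝ≥0∞) ^ ℓ)
    rw [hI] at this
    exact (ENNReal.mul_le_mul_iff_right h8 h8').mp (this.trans (h ℓ))
  filter_upwards [ae_eventually_notMem (μ := P) (s := fun ℓ => {ω | (8 : ℝ≥0∞) ^ ℓ ≤ X ℓ ω})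
    (ne_top_of_le_ne_top hb (ENNReal.tsum_le_tsum hP))] with ω hω
  filter_upwards [hω] with ℓ hl
  refine ⟨(Finset.range (M ℓ)).filter fun p => ω ∈ toMeasurable P (A ℓ p), ?_,
    fun p hp hA => Finset.mem_filter.mpr ⟨hp, subset_toMeasurable _ _ hA⟩⟩
  have e : X ℓ ω = (((Finset.range (M ℓ)).filter fun p => ω ∈ toMeasurable P (A ℓ p)).card : ℕ) := by
    simp only [X, Set.indicator_apply, Pi.one_apply, Finset.sum_boole]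
  have hl' : X ℓ ω < 8 ^ ℓ := not_le.mp hl
  rw [e] at hl'
  exact_mod_cast hl'.le

/-- Covering bound for the Hausdorff dimension. -/
theorem dim_le (k : ℕ) (a : ℝ) (G : ℕ → ℕ → Prop) (M : ℕ → ℕ)
    (h : ∀ᶠ ℓ : ℕ in atTop, ∃ F : Finset ℕ, F.card ≤ 8 ^ ℓ ∧
      ∀ p ∈ Finset.range (M ℓ), G ℓ p → p ∈ F) :
    dimH {t : ℝ | ∀ᶠ ℓ : ℕ in atTop, ∃ p ∈ Finset.range (M ℓ), G ℓ p ∧
      t ∈ Icc (a + p * ((2 : ℝ) ^ (ℓ * (k + 2)))⁻¹)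
        (a + p * ((2 : ℝ) ^ (ℓ * (k + 2)))⁻¹ + ((2 : ℝ) ^ (ℓ * (k + 2)))⁻¹)} ≤
      ((3 / (k + 2) : ℝ≥0) : ℝ≥0∞) := by
  classical
  have hF : ∀ ℓ : ℕ, ∃ F : Finset ℕ, F.card ≤ 8 ^ ℓ ∧ ((∃ F : Finset ℕ, F.card ≤ 8 ^ ℓ ∧
      ∀ p ∈ Finset.range (M ℓ), G ℓ p → p ∈ F) → ∀ p ∈ Finset.range (M ℓ), G ℓ p → p ∈ F) := by
    intro ℓ
    by_cases hh : ∃ F : Finset ℕ, F.card ≤ 8 ^ ℓ ∧ ∀ p ∈ Finset.range (M ℓ), G ℓ p → p ∈ F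
    · obtain ⟨F, h1, h2⟩ := hh
      exact ⟨F, h1, fun _ => h2⟩
    · exact ⟨∅, by simp, fun h => absurd h hh⟩
  choose F hF1 hF2 using hF
  simp only [eventually_atTop, ofPred_exists]
  rw [dimH_iUnion]
  refine iSup_le fun ℓ0 => dimH_le_of_hausdorffMeasure_ne_top ?_
  have hr : Tendsto (fun ℓ : ℕ => ENNReal.ofReal ((2 : ℝ) ^ (ℓ * (k + 2)))⁻¹) atTop (𝓝 0) := by
    rw [← ENNReal.ofReal_zero]
    refine ENNReal.tendsto_ofReal (tendsto_inv_atTop_zero.comp ?_)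
    simp only [mul_comm _ (k + 2), pow_mul]
    exact tendsto_pow_atTop_atTop_of_one_lt (one_lt_pow₀ (by norm_num) (by omega))
  have hd : ∀ (ℓ : ℕ) (p : ℕ), Metric.ediam (Icc (a + p * ((2 : ℝ) ^ (ℓ * (k + 2)))⁻¹)
      (a + p * ((2 : ℝ) ^ (ℓ * (k + 2)))⁻¹ + ((2 : ℝ) ^ (ℓ * (k + 2)))⁻¹)) =
      ENNReal.ofReal ((2 : ℝ) ^ (ℓ * (k + 2)))⁻¹ := by
    intro ℓ p
    rw [Real.ediam_Icc, add_sub_cancel_left]
  refine ne_top_of_le_ne_top ENNReal.one_ne_top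
    ((Measure.hausdorffMeasure_le_liminf_sum (ι := fun ℓ => F ℓ) _ _ _ hr
      (fun ℓ p => Icc (a + (p : ℕ) * ((2 : ℝ) ^ (ℓ * (k + 2)))⁻¹)
        (a + (p : ℕ) * ((2 : ℝ) ^ (ℓ * (k + 2)))⁻¹ + ((2 : ℝ) ^ (ℓ * (k + 2)))⁻¹))
      (Eventually.of_forall fun ℓ p => (hd ℓ p).le) ?_).trans ?_)
  · filter_upwards [h, eventually_ge_atTop ℓ0] with ℓ h1 h2 t ht
    obtain ⟨p, hp, hG, htp⟩ := ht ℓ h2
    exact mem_iUnion.mpr ⟨⟨p, hF2 ℓ h1 p hp hG⟩, htp⟩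
  · refine liminf_le_of_frequently_le' (Frequently.of_forall fun ℓ => ?_)
    simp only [hd, Finset.sum_const, Finset.card_univ, Fintype.card_coe, nsmul_eq_mul]
    have e : (((2 : ℝ) ^ (ℓ * (k + 2)))⁻¹) ^ (((3 / (k + 2) : ℝ≥0) : ℝ)) = (8 ^ ℓ)⁻¹ := by
      rw [Real.inv_rpow (by positivity), ← Real.rpow_natCast, ← Real.rpow_mul (by norm_num)]
      have : ((ℓ * (k + 2) : ℕ) : ℝ) * ((3 / (k + 2) : ℝ≥0) : ℝ) = ((3 * ℓ : ℕ) : ℝ) := by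
        push_cast; field_simp
      rw [this, Real.rpow_natCast, pow_mul]
      norm_num
    rw [ENNReal.ofReal_rpow_of_nonneg (by positivity) (NNReal.coe_nonneg _), e,
      ← ENNReal.ofReal_natCast, ← ENNReal.ofReal_mul (Nat.cast_nonneg _), ← ENNReal.ofReal_one]
    refine ENNReal.ofReal_le_ofReal ?_
    rw [← div_eq_mul_inv, div_le_one (by positivity)]
    exact_mod_cast hF1 ℓ

theorem eq_zero_of_le {d : ℝ≥0∞} (h : ∀ k : ℕ, d ≤ ((3 / ((k + 1 : ℕ) + 2) : ℝ≥0) : ℝ≥0∞)) :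
    d = 0 := by
  have ht : Tendsto (fun k : ℕ => ((3 / ((k + 1 : ℕ) + 2) : ℝ≥0) : ℝ≥0∞)) atTop (𝓝 0) := by
    rw [← ENNReal.coe_zero, ENNReal.tendsto_coe, ← NNReal.tendsto_coe]
    have := (tendsto_const_div_atTop_nhds_zero_nat (3 : ℝ)).comp (tendsto_add_atTop_nat 3)
    refine this.congr fun k => ?_
    simp only [Function.comp]
    push_cast
    ring
  exact le_antisymm (ge_of_tendsto' ht h) bot_le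

/-- The grid of directions. -/
theorem grid {q : ℕ} {θ : ℝ} (hθ : θ ∈ Icc ((q + 1 : ℝ))⁻¹ ((q + 1 : ℝ))⁻¹⁻¹) (e : ℕ) :
    ∃ c ∈ Finset.range ((q + 1) * 2 ^ e),
      ((q + 1 : ℝ))⁻¹ + c * ((2 : ℝ) ^ e)⁻¹ ≤ ((q + 1 : ℝ))⁻¹⁻¹ ∧
      |θ - (((q + 1 : ℝ))⁻¹ + c * ((2 : ℝ) ^ e)⁻¹)| ≤ ((2 : ℝ) ^ e)⁻¹ := by
  have h2 : (0 : ℝ) < 2 ^ e := by positivity
  have hq : (0 : ℝ) < ((q + 1 : ℝ))⁻¹ := by positivity
  obtain ⟨h0, h1⟩ := hθ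
  set κ : ℝ := ((q + 1 : ℝ))⁻¹ with hκ
  have h1' : θ ≤ q + 1 := by rw [hκ, inv_inv] at h1; exact h1
  have h3 : 0 ≤ (θ - κ) * 2 ^ e := mul_nonneg (by linarith) h2.le
  have h4 : (⌊(θ - κ) * 2 ^ e⌋₊ : ℝ) * ((2 : ℝ) ^ e)⁻¹ ≤ θ - κ := by
    rw [← div_eq_mul_inv, div_le_iff₀ h2]; exact Nat.floor_le h3
  have h5 : θ - κ ≤ (⌊(θ - κ) * 2 ^ e⌋₊ : ℝ) * ((2 : ℝ) ^ e)⁻¹ + ((2 : ℝ) ^ e)⁻¹ := by
    have h6 : θ - κ ≤ ((⌊(θ - κ) * 2 ^ e⌋₊ : ℝ) + 1) / 2 ^ e := by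
      rw [le_div_iff₀ h2]; exact (Nat.lt_floor_add_one _).le
    rwa [add_div, div_eq_mul_inv, one_div] at h6
  refine ⟨⌊(θ - κ) * 2 ^ e⌋₊, Finset.mem_range.mpr ?_, by linarith, ?_⟩
  · rw [Nat.floor_lt h3]
    push_cast
    nlinarith
  · rw [abs_le]
    have : (0 : ℝ) < ((2 : ℝ) ^ e)⁻¹ := by positivity
    constructor <;> linarith

universe u

theorem window (mu : MultiStmt.{u}) {Ω : Type u} [MeasurableSpace Ω] {P : Measure Ω}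
    {μ : Measure CP} {W : ℝ → Ω → Env} (hD : Dyn P μ W) (k : ℕ) (hk : 1 ≤ k) (q : ℕ) (n : ℤ) :
    ∀ᵐ ω ∂P, dimH {t : ℝ | t ∈ Ico (n : ℝ) (n + 1) ∧ ∃ x, IsBi (W t ω) x ∧ |x 0| ≤ 1 ∧
      ∃ θ ∈ Icc ((q + 1 : ℝ))⁻¹ ((q + 1 : ℝ))⁻¹⁻¹, Straight x θ} ≤
      ((3 / (k + 2) : ℝ≥0) : ℝ≥0∞) := by
  have hq : (0 : ℝ) < ((q + 1 : ℝ))⁻¹ := by positivity
  have hq1 : ((q + 1 : ℝ))⁻¹ ≤ 1 := inv_le_one_of_one_le₀ (by linarith [Nat.cast_nonneg (α := ℝ) q])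
  obtain ⟨C, ℓ0, hC, hM⟩ := mu ((q + 1 : ℝ))⁻¹ k hq hq1 hk
  let B : ℕ → ℕ → ℕ → Set Ω := fun ℓ p c => {ω | ℓ0 ≤ ℓ ∧
    ((q + 1 : ℝ))⁻¹ + c * ((2 : ℝ) ^ (ℓ * k))⁻¹ ≤ ((q + 1 : ℝ))⁻¹⁻¹ ∧
    ∃ t ∈ Icc ((n : ℝ) + p * ((2 : ℝ) ^ (ℓ * (k + 2)))⁻¹)
      ((n : ℝ) + p * ((2 : ℝ) ^ (ℓ * (k + 2)))⁻¹ + ((2 : ℝ) ^ (ℓ * (k + 2)))⁻¹),
      Tube (W t ω) (((q + 1 : ℝ))⁻¹ + c * ((2 : ℝ) ^ (ℓ * k))⁻¹) ℓ k}
  have hB : ∀ ℓ p c, P (B ℓ p c) ≤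
      ENNReal.ofReal (C * (ℓ : ℝ) ^ (20 * k) / 2 ^ (2 * (ℓ * k))) := by
    intro ℓ p c
    by_cases h1 : ℓ0 ≤ ℓ
    · by_cases h2 : ((q + 1 : ℝ))⁻¹ + c * ((2 : ℝ) ^ (ℓ * k))⁻¹ ≤ ((q + 1 : ℝ))⁻¹⁻¹
      · refine (measure_mono fun ω hω => hω.2.2).trans (hM Ω P μ W hD ℓ h1 _ ⟨?_, h2⟩ _)
        exact le_add_of_nonneg_right (by positivity)
      · have : B ℓ p c = ∅ := eq_empty_of_forall_notMem fun ω hω => h2 hω.2.1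
        simp [this]
    · have : B ℓ p c = ∅ := eq_empty_of_forall_notMem fun ω hω => h1 hω.1
      simp [this]
  have hc := count_le P (fun ℓ p => ⋃ c ∈ Finset.range ((q + 1) * 2 ^ (ℓ * k)), B ℓ p c)
    (fun ℓ => 2 ^ (ℓ * (k + 2))) _ (tsum_ne_top ((q + 1) * C) (20 * k)) (fun ℓ => by
      refine (sum_le fun p _ => (measure_biUnion_finset_le _ _).trans
        (sum_le fun c _ => hB ℓ p c)).trans (le_of_eq ?_)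
      have e8 : (8 : ℝ≥0∞) ^ ℓ = ENNReal.ofReal (8 ^ ℓ) := by
        rw [ENNReal.ofReal_pow (by norm_num)]; norm_num
      rw [e8, ← ENNReal.ofReal_mul (by positivity), Finset.card_range, Finset.card_range]
      congr 1
      have e1 : (2 : ℝ) ^ (2 * (ℓ * k)) = 2 ^ (ℓ * k) * 2 ^ (ℓ * k) := by
        rw [← pow_add]; congr 1; ring
      have e2 : (2 : ℝ) ^ (ℓ * (k + 2)) = 2 ^ (ℓ * k) * (2 ^ ℓ * 2 ^ ℓ) := by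
        rw [← pow_add, ← pow_add]; congr 1; ring
      have e3 : (8 : ℝ) ^ ℓ = 2 ^ ℓ * (2 ^ ℓ * 2 ^ ℓ) := by
        rw [← mul_pow, ← mul_pow]; norm_num
      push_cast
      rw [e1, e2, e3]
      field_simp)
  filter_upwards [hc] with ω hω
  refine le_trans (dimH_mono ?_) (dim_le k n _ _ hω)
  rintro t ⟨ht, x, hx, h0, θ, hθ, hS⟩
  filter_upwards [tube_loc hS h0 k, eventually_ge_atTop ℓ0] with ℓ h1 h2
  obtain ⟨p, hp, htp⟩ := cover ht (ℓ * (k + 2))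
  obtain ⟨c, hc1, hc2, hc3⟩ := grid hθ (ℓ * k)
  exact ⟨p, hp, mem_iUnion₂.mpr ⟨c, hc1, h2, hc2, t, htp, x, hx, h1 _ hc3⟩, htp⟩

end Core1A

open Core1A

universe u

theorem core1 (gr : GrowthStmt.{u}) (lc : LocalStmt.{u}) (mu : MultiStmt.{u}) :
    Core1Stmt.{u} := by
  intro Ω _ P μ W hD
  have key := ae_all_iff.mpr fun k : ℕ => ae_all_iff.mpr fun q : ℕ => ae_all_iff.mpr fun n : ℤ =>
    window mu hD (k + 1) (Nat.le_add_left 1 k) q n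
  filter_upwards [key, gr Ω P μ W hD, lc Ω P μ W hD] with ω h1 h2 h3
  refine eq_zero_of_le fun k => ?_
  refine le_trans (dimH_mono (t := ⋃ q : ℕ, ⋃ n : ℤ, {t : ℝ | t ∈ Ico (n : ℝ) (n + 1) ∧
    ∃ x, IsBi (W t ω) x ∧ |x 0| ≤ 1 ∧
      ∃ θ ∈ Icc ((q + 1 : ℝ))⁻¹ ((q + 1 : ℝ))⁻¹⁻¹, Straight x θ}) ?_) ?_
  · rintro t ⟨x, hx, h01, h0⟩
    obtain ⟨θ, hθ, hS⟩ := h3 t x hx h01 (h2 t x hx h01)
    obtain ⟨q, hq⟩ := exists_nat_ge (max θ θ⁻¹)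
    refine mem_iUnion.mpr ⟨q, mem_iUnion.mpr ⟨⌊t⌋, ⟨Int.floor_le t, Int.lt_floor_add_one t⟩,
      x, hx, h0, θ, ⟨?_, ?_⟩, hS⟩⟩
    · rw [inv_le_comm₀ (by positivity) hθ]
      linarith [le_max_right θ θ⁻¹]
    · rw [inv_inv]
      linarith [le_max_left θ θ⁻¹]
  · rw [dimH_iUnion]
    refine iSup_le fun q => ?_
    rw [dimH_iUnion]
    exact iSup_le fun n => h1 k q n

end Pool.Agent.MP_3d8edd_pr.H69
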