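import Pool.Agent.MP_3d8edd_pr.H69.Basic

/-!
Row CRUDE: very flat geodesics.
-/

open MeasureTheory ProbabilityTheory Set Filter
open scoped NNReal ENNReal Topology

namespace Pool.Agent.MP_3d8edd_pr.H69

namespace CrudeA

/-- Lower tail of the vertical increment of the stationary process started on the line `l`. -/
theorem markov (st : Stat) {μ ν : Measure CP} {a : ℝ} (hμ : IsBM μ 0) (hν : IsBM ν a)
    (ha : 0 < a) (l : ℤ) (n : ℕ) (y L η : ℝ) (hη : 0 < η) :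
    (ν.prod (PP μ)) {p | GG p.1 p.2 l n y - p.1 y ≤ L} ≤
      ENNReal.ofReal (Real.exp (L / η) * (a * η) ^ n) := by
  have hβ : -η⁻¹ < a := by have := inv_pos.2 hη; linarith
  have hm := st.mgf μ ν a l n (-η⁻¹) y hμ hν ha hβ
  have hmeas : Measurable fun p : CP × Env =>
      ENNReal.ofReal (Real.exp (-η⁻¹ * (GG p.1 p.2 l n y - p.1 y))) := by
    refine ENNReal.measurable_ofReal.comp (Real.measurable_exp.comp ?_)
    refine Measurable.const_mul (Measurable.sub ?_ ?_) _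
    · exact Measurable.ev (Measurable.GG measurable_fst measurable_snd l n) y
    · exact Measurable.ev measurable_fst y
  have h1 := mul_meas_ge_le_lintegral₀ (μ := ν.prod (PP μ)) hmeas.aemeasurable
    (ENNReal.ofReal (Real.exp (-(L / η))))
  rw [hm] at h1
  have hsub : {p : CP × Env | GG p.1 p.2 l n y - p.1 y ≤ L} ⊆
      {p | ENNReal.ofReal (Real.exp (-(L / η))) ≤
        ENNReal.ofReal (Real.exp (-η⁻¹ * (GG p.1 p.2 l n y - p.1 y)))} := by
    intro p hp
    refine ENNReal.ofReal_le_ofReal (Real.exp_le_exp.2 ?_)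
    have hp' : GG p.1 p.2 l n y - p.1 y ≤ L := hp
    have := mul_le_mul_of_nonneg_left hp' (inv_pos.2 hη).le
    rw [div_eq_mul_inv]
    linarith
  refine (measure_mono hsub).trans ?_
  have h2 : (a / (a - -η⁻¹)) ^ n ≤ (a * η) ^ n := by
    have hi := inv_pos.2 hη
    refine pow_le_pow_left₀ (div_nonneg ha.le (by linarith)) ?_ n
    rw [div_le_iff₀ (by linarith)]
    have e : a * η * (a - -η⁻¹) = a * η * a + a := by field_simp; ring
    rw [e]
    have : 0 ≤ a * η * a := by positivity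
    linarith
  have h3 := h1.trans (ENNReal.ofReal_le_ofReal h2)
  have e1 : ENNReal.ofReal (Real.exp (L / η)) * ENNReal.ofReal (Real.exp (-(L / η))) = 1 := by
    rw [← ENNReal.ofReal_mul (Real.exp_pos _).le, ← Real.exp_add]; simp
  calc _ = ENNReal.ofReal (Real.exp (L / η)) * (ENNReal.ofReal (Real.exp (-(L / η))) * _) := by
        rw [← mul_assoc, e1, one_mul]
    _ ≤ ENNReal.ofReal (Real.exp (L / η)) * ENNReal.ofReal ((a * η) ^ n) := by gcongr
    _ = _ := by rw [← ENNReal.ofReal_mul (Real.exp_pos _).le]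

theorem dep (h : CP) (ω ω' : Env) (l : ℤ) (H : ∀ j : ℤ, l < j → ω j = ω' j) (i : ℕ) :
    GG h ω l i = GG h ω' l i := by
  induction i with
  | zero => rfl
  | succ i ih => rw [GG_succ, GG_succ, ih, H _ (by omega)]

/-- Lower tail of the increment between the heights `n` and `n + n'`. -/
theorem upper (d2 : Det2) (st : Stat) {μ ν : Measure CP} {a : ℝ} (hμ : IsBM μ 0)
    (hν : IsBM ν a) (ha : 0 < a) (l : ℤ) (n n' : ℕ) (y L η : ℝ) (hη : 0 < η) :
    (ν.prod (PP μ)) {p | GG p.1 p.2 l (n + n') y - GG p.1 p.2 l n y ≤ L} ≤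
      ENNReal.ofReal (Real.exp (L / η) * (a * η) ^ n') := by
  set E : Set (CP × Env) := {p | ¬ AllBdd p.1 p.2 (l + n) n'} ∪
    {p | GG p.1 p.2 (l + n) n' y - p.1 y ≤ L} with hE
  have hdep : ∀ h ω ω', (∀ j : ℤ, l + n < j → ω j = ω' j) → (h, ω) ∈ E → (h, ω') ∈ E := by
    intro h ω ω' hj hp
    have hG : ∀ i : ℕ, GG h ω (l + n) i = GG h ω' (l + n) i := dep h ω ω' (l + n) hj
    rcases hp with hp | hp
    · refine Or.inl fun hb => hp fun i hi => ?_
      have := hb i hi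
      change Bdd (GG h ω' (l + n) i) (ω' (l + n + i + 1)) at this
      change Bdd (GG h ω (l + n) i) (ω (l + n + i + 1))
      rw [hG i, hj _ (by omega)]
      exact this
    · refine Or.inr ?_
      change GG h ω' (l + n) n' y - h y ≤ L
      rw [← hG]
      exact hp
  have hup := st.up μ ν a l n E hμ hν ha hdep
  have hsub : {p : CP × Env | GG p.1 p.2 l (n + n') y - GG p.1 p.2 l n y ≤ L} ⊆
      {p | (shift 0 (GG p.1 p.2 l n), p.2) ∈ E} := by
    intro p hp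
    by_cases hb : AllBdd (shift 0 (GG p.1 p.2 l n)) p.2 (l + n) n'
    · refine Or.inr ?_
      change GG (shift 0 (GG p.1 p.2 l n)) p.2 (l + n) n' y - shift 0 (GG p.1 p.2 l n) y ≤ L
      have hp' : GG p.1 p.2 l (n + n') y - GG p.1 p.2 l n y ≤ L := hp
      have e : GG p.1 p.2 l n = shift 0 (GG p.1 p.2 l n) + cst (GG p.1 p.2 l n 0) := by
        ext x; simp
      have e2 := d2.add_cst _ p.2 (l + n) n' (GG p.1 p.2 l n 0) hb
      rw [← e, ← d2.comp] at e2
      have e3 := congrArg (fun f : CP => f y) e2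
      simp only [ContinuousMap.add_apply, cst_apply] at e3
      simp only [shift_apply, zero_add]
      linarith
    · exact Or.inl hb
  refine (measure_mono hsub).trans (hup.trans ((measure_union_le _ _).trans ?_))
  have h0 : (ν.prod (PP μ)) {p | ¬ AllBdd p.1 p.2 (l + n) n'} = 0 :=
    ae_iff.1 (st.bdd μ ν a (l + n) n' hμ hν ha)
  rw [h0, zero_add]
  exact markov st hμ hν ha (l + n) n' y L η hη

/-- Lower tail of the difference of two point to point passage times. -/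
theorem diff (d2 : Det2) (b1 : Bm1) (st : Stat) (ex : Exit) {μ : Measure CP} (hμ : IsBM μ 0)
    {a : ℝ} (ha : 0 < a) (l : ℤ) (n : ℕ) (hn : 1 ≤ n) (x y L η : ℝ) (hxy : x ≤ y) (hη : 0 < η) :
    PP μ {ω | T ω l (l + (n + n : ℕ)) x y - T ω l (l + n) x y ≤ L} ≤
      ENNReal.ofReal (Real.exp ((n : ℝ) / 3 - a ^ 2 * (y - x) / 8)) +
        ENNReal.ofReal (Real.exp (L / η) * (3 / 2 * a * η) ^ n) := by
  have := hμ.prob
  have hν : IsBM (μ.map fun f => f + lin (a * (1 + 1 / 2))) (a * (1 + 1 / 2)) := by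
    have := b1.add_lin μ 0 (a * (1 + 1 / 2)) hμ
    rwa [zero_add] at this
  set ν := μ.map fun f => f + lin (a * (1 + 1 / 2)) with hνdef
  have := hν.prob
  have ha' : 0 < a * (1 + 1 / 2) := by positivity
  rw [← prod_snd_preimage ν (PP μ)]
  have hsub : {p : CP × Env | p.2 ∈
      {ω | T ω l (l + (n + n : ℕ)) x y - T ω l (l + n) x y ≤ L}} ⊆
      ({p | ¬ AllBdd p.1 p.2 l (n + n)} ∪ {p | ¬ GoodR p.1 p.2 l (l + (n + n : ℕ)) x y}) ∪
        {p | GG p.1 p.2 l (n + n) y - GG p.1 p.2 l n y ≤ L} := by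
    intro p hp
    by_cases h1 : AllBdd p.1 p.2 l (n + n)
    · by_cases h2 : GoodR p.1 p.2 l (l + (n + n : ℕ)) x y
      · exact Or.inr ((d2.cmpV p.1 p.2 l n n x y hn h1 h2).trans hp)
      · exact Or.inl (Or.inr h2)
    · exact Or.inl (Or.inl h1)
  refine (measure_mono hsub).trans ((measure_union_le _ _).trans (add_le_add ?_ ?_))
  · refine (measure_union_le _ _).trans ?_
    have h0 : (ν.prod (PP μ)) {p | ¬ AllBdd p.1 p.2 l (n + n)} = 0 :=
      ae_iff.1 (st.bdd μ ν _ l (n + n) hμ hν ha')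
    rw [h0, zero_add]
    refine (ex.right μ ν a (1 / 2) l (n + n) x y hμ hν ha (by norm_num) (by norm_num)
      (by omega) hxy).trans (le_of_eq ?_)
    congr 2
    push_cast
    ring
  · refine (upper d2 st hμ hν ha' l n n y L η hη).trans (le_of_eq ?_)
    congr 3
    ring

/-- The bound with free parameters. -/
theorem main (d1 : Det1) (d2 : Det2) (b1 : Bm1) (rf : Ref) (e : EnvA) (st : Stat) (ex : Exit)
    {μ : Measure CP} (hμ : IsBM μ 0) (m : ℕ) (hm : 1 ≤ m) (x D D' s a : ℝ) (hD : 0 < D)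
    (hD' : 0 ≤ D') (hs : 0 < s) (ha : 0 < a) :
    PP μ {ω | ∃ z ≤ x + D, IsOpt ω 0 m (2 * m) x (x + D') z} ≤
      ENNReal.ofReal ((m + 1) * (4 * Real.exp (-s ^ 2 / (2 * D)))) +
      (ENNReal.ofReal (Real.exp ((m : ℝ) / 3 - a ^ 2 * D' / 8)) +
        ENNReal.ofReal (Real.exp (2 * (m + 1)) * (3 / 2 * a * s) ^ m)) := by
  set O : Set CP := {f | ∃ u ∈ Icc x (x + D), s + |(0 : ℝ)| * D < |f u - f x|} with hO
  set A : Set Env := {ω | T ω (-(2 * m)) (-(2 * m) + (m + m : ℕ)) (-(x + D')) (-x) -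
    T ω (-(2 * m)) (-(2 * m) + m) (-(x + D')) (-x) ≤ (m + 1) * (2 * s)} with hA
  have hsub : {ω | ∃ z ≤ x + D, IsOpt ω 0 m (2 * m) x (x + D') z} ⊆
      (⋃ j ∈ Finset.Icc (1 : ℤ) (m + 1), (fun ω : Env => ω j) ⁻¹' O) ∪ rotE ⁻¹' A := by
    rintro ω ⟨z, hz, h1, h2, h3⟩
    by_cases hb : ω ∈ ⋃ j ∈ Finset.Icc (1 : ℤ) (m + 1), (fun ω : Env => ω j) ⁻¹' O
    · exact Or.inl hb
    refine Or.inr ?_
    have hosc : ∀ j : ℤ, 1 ≤ j → j ≤ m + 1 → ∀ u ∈ Icc x (x + D), |ω j u - ω j x| ≤ s := by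
      intro j j1 j2 u hu
      by_contra hc
      refine hb (mem_iUnion₂.2 ⟨j, Finset.mem_Icc.2 ⟨j1, j2⟩, u, hu, ?_⟩)
      simpa using hc
    have hm' : (0 : ℤ) < m := by exact_mod_cast hm
    have c1 := d1.crude ω 0 m x z (2 * s) hm'.le ⟨hm'.le, h1, fun h => absurd h hm'.ne⟩ (by
      intro j j1 j2 u hu v hv
      have a1 := abs_le.1 (hosc j (by omega) (by omega) u ⟨hu.1, hu.2.trans hz⟩)
      have a2 := abs_le.1 (hosc j (by omega) (by omega) v ⟨hv.1, hv.2.trans hz⟩)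
      linarith [a1.1, a2.2])
    have c2 := d1.left ω m (2 * m) x z (x + D') (by omega) h1 h2
    have c3 := abs_le.1 (hosc (m + 1) (by omega) le_rfl z ⟨h1, hz⟩)
    change T (rotE ω) _ _ _ _ - T (rotE ω) _ _ _ _ ≤ _
    rw [d1.rotE, d1.rotE]
    have i1 : -(-(2 * (m : ℤ)) + ((m + m : ℕ) : ℤ)) = 0 := by push_cast; ring
    have i2 : -(-(2 * (m : ℤ)) + (m : ℤ)) = m := by ring
    rw [i1, i2, neg_neg, neg_neg, neg_neg]
    push_cast at c1
    nlinarith [c3.1]
  refine (measure_mono hsub).trans ((measure_union_le _ _).trans (add_le_add ?_ ?_))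
  · refine (measure_biUnion_finset_le _ _).trans ?_
    have hj : ∀ j ∈ Finset.Icc (1 : ℤ) (m + 1), PP μ ((fun ω : Env => ω j) ⁻¹' O) ≤
        ENNReal.ofReal (4 * Real.exp (-s ^ 2 / (2 * D))) := fun j _ =>
      (preimage_le (e.eval μ j hμ) O).trans (rf.osc μ 0 x D s hμ hD hs.le)
    refine (Finset.sum_le_card_nsmul _ _ _ hj).trans (le_of_eq ?_)
    have hc : (Finset.Icc (1 : ℤ) (m + 1)).card = m + 1 := by
      rw [Int.card_Icc]; omega
    rw [hc, nsmul_eq_mul, ENNReal.ofReal_mul (by positivity : (0 : ℝ) ≤ (m : ℝ) + 1)]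
    congr 1
    rw [← ENNReal.ofReal_natCast]
    push_cast
    rfl
  · refine (preimage_le (e.rotE μ hμ) A).trans ?_
    refine (diff d2 b1 st ex hμ ha (-(2 * m)) m hm (-(x + D')) (-x) ((m + 1) * (2 * s)) s
      (by linarith) hs).trans (le_of_eq ?_)
    congr 4
    · ring
    · field_simp

/-- The numerical estimates. -/
theorem num (m : ℕ) (t : ℝ) (hm : 160 ≤ m) (ht : 10 ^ 6 ≤ t) (hmt : (m : ℝ) ≤ (160 * t) ^ 4) :
    (m + 1) * (4 * Real.exp (-(t ^ 81) ^ 2 / (2 * t ^ 160))) +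
      (Real.exp ((m : ℝ) / 3 - (t ^ 3 / t ^ 90) ^ 2 * t ^ 180 / 8) +
        Real.exp (2 * (m + 1)) * (3 / 2 * (t ^ 3 / t ^ 90) * t ^ 81) ^ m) ≤
      (10 ^ 10 * (Nat.factorial 804 : ℝ) + 1) / (t ^ 160) ^ 5 := by
  have t0 : 0 < t := by linarith
  have t1 : 1 ≤ t := by linarith
  have hF := Real.pow_div_factorial_le_exp t t0.le 804
  have hF0 : (0 : ℝ) < Nat.factorial 804 := by exact_mod_cast Nat.factorial_pos 804
  generalize (Nat.factorial 804 : ℝ) = F at hF hF0 ⊢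
  have hexp : Real.exp (-t) ≤ F / t ^ 804 := by
    rw [Real.exp_neg, inv_le_comm₀ (Real.exp_pos t) (by positivity), inv_div]
    exact hF
  have t4 : 1 ≤ t ^ 4 := one_le_pow₀ t1
  have e800 : (t ^ 160) ^ 5 = t ^ 800 := by ring
  have e804 : t ^ 804 = t ^ 800 * t ^ 4 := by ring
  have p800 : 0 < t ^ 800 := by positivity
  have hm4 : (m : ℝ) ≤ 160 ^ 4 * t ^ 4 := by rw [← mul_pow]; exact hmt
  have a1 : (m + 1) * (4 * Real.exp (-(t ^ 81) ^ 2 / (2 * t ^ 160))) ≤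
      (10 ^ 10 - 1) * F / t ^ 800 := by
    have e1 : -(t ^ 81) ^ 2 / (2 * t ^ 160) = -(t ^ 2 / 2) := by field_simp
    have h1 : Real.exp (-(t ^ 2 / 2)) ≤ F / t ^ 804 :=
      (Real.exp_le_exp.2 (by nlinarith)).trans hexp
    rw [e1]
    calc ((m : ℝ) + 1) * (4 * Real.exp (-(t ^ 2 / 2)))
        ≤ ((160 ^ 4 + 1) * t ^ 4) * (4 * (F / t ^ 804)) := by
          refine mul_le_mul (by linarith) (by linarith) (by positivity) (by positivity)
      _ = (160 ^ 4 + 1) * 4 * F / t ^ 800 := by rw [e804]; field_simp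
      _ ≤ _ := by gcongr; norm_num
  have a2 : Real.exp ((m : ℝ) / 3 - (t ^ 3 / t ^ 90) ^ 2 * t ^ 180 / 8) ≤ F / t ^ 800 := by
    have e1 : (t ^ 3 / t ^ 90) ^ 2 * t ^ 180 = t ^ 4 * t ^ 2 := by field_simp
    have h2 : (10 : ℝ) ^ 12 ≤ t ^ 2 := by nlinarith
    have h3 : t ≤ t ^ 4 := by
      calc t = t ^ 1 := (pow_one t).symm
        _ ≤ t ^ 4 := pow_le_pow_right₀ t1 (by norm_num)
    have h4 : t ^ 4 * 10 ^ 12 ≤ t ^ 4 * t ^ 2 := by gcongr
    rw [e1]
    refine (Real.exp_le_exp.2 (by linarith : _ ≤ -t)).trans (hexp.trans ?_)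
    gcongr
    norm_num
  have a3 : Real.exp (2 * (m + 1)) * (3 / 2 * (t ^ 3 / t ^ 90) * t ^ 81) ^ m ≤ 1 / t ^ 800 := by
    have e1 : 3 / 2 * (t ^ 3 / t ^ 90) * t ^ 81 = 3 / 2 / t * (1 / t ^ 5) := by field_simp
    have hm1 : (1 : ℝ) ≤ m := by exact_mod_cast (by omega : 1 ≤ m)
    have h1 : Real.exp (2 * (m + 1)) ≤ (81 : ℝ) ^ m := by
      have h3 : Real.exp 4 ≤ 81 := by
        have := Real.exp_one_lt_three
        have e4 : Real.exp 4 = Real.exp 1 ^ 4 := by rw [← Real.exp_nat_mul]; norm_num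
        rw [e4]
        calc Real.exp 1 ^ 4 ≤ 3 ^ 4 := by gcongr
          _ = 81 := by norm_num
      calc Real.exp (2 * (m + 1)) ≤ Real.exp (m * 4) := Real.exp_le_exp.2 (by linarith)
        _ = Real.exp 4 ^ m := Real.exp_nat_mul 4 m
        _ ≤ 81 ^ m := by gcongr
    have h5 : 1 / t ^ 5 ≤ 1 := by
      rw [div_le_one (by positivity)]; exact one_le_pow₀ t1
    rw [e1]
    calc Real.exp (2 * (m + 1)) * (3 / 2 / t * (1 / t ^ 5)) ^ m
        ≤ 81 ^ m * (3 / 2 / t * (1 / t ^ 5)) ^ m := by gcongr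
      _ = (81 * (3 / 2) / t * (1 / t ^ 5)) ^ m := by rw [← mul_pow]; congr 1; ring
      _ ≤ (1 * (1 / t ^ 5)) ^ m := by
          gcongr
          rw [div_le_one t0]; linarith
      _ ≤ (1 / t ^ 5) ^ 160 := by
          rw [one_mul]; exact pow_le_pow_of_le_one (by positivity) h5 hm
      _ = 1 / t ^ 800 := by rw [div_pow, one_pow, ← pow_mul]
  rw [e800]
  have : (10 ^ 10 * F + 1) / t ^ 800 = (10 ^ 10 - 1) * F / t ^ 800 + (F / t ^ 800 + 1 / t ^ 800) := by
    ring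
  rw [this]
  linarith

end CrudeA

theorem crudeS (d1 : Det1) (d2 : Det2) (b1 : Bm1) (rf : Ref) (e : EnvA) (st : Stat) (ex : Exit) :
    CrudeStmt := by
  refine ⟨(160 * 10 ^ 6) ^ 4, 10 ^ 10 * (Nat.factorial 804 : ℝ) + 1, by positivity, ?_⟩
  intro μ m x D hμ hm hD
  have D0 : 0 < D := (Real.exp_pos _).trans_le hD
  set t : ℝ := D ^ (1 / 160 : ℝ) with ht
  have t0 : 0 < t := Real.rpow_pos_of_pos D0 _
  have eD : t ^ 160 = D := by
    rw [ht, ← Real.rpow_natCast, ← Real.rpow_mul D0.le]; norm_num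
  have eD' : t ^ 180 = D ^ (9 / 8 : ℝ) := by
    rw [ht, ← Real.rpow_natCast, ← Real.rpow_mul D0.le]; norm_num
  have hmt : (m : ℝ) ≤ (160 * t) ^ 4 := by
    have h1 : (m : ℝ) ^ (1 / 4 : ℝ) ≤ Real.log D := (Real.le_log_iff_exp_le D0).2 hD
    have h2 : Real.log D ≤ 160 * t := by
      rw [← eD, Real.log_pow]
      have := Real.log_le_sub_one_of_pos t0
      push_cast
      linarith
    have h3 : ((m : ℝ) ^ (1 / 4 : ℝ)) ^ 4 = m := by
      rw [← Real.rpow_natCast, ← Real.rpow_mul (Nat.cast_nonneg m)]; norm_num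
    rw [← h3]
    exact pow_le_pow_left₀ (by positivity) (h1.trans h2) 4
  have ht6 : (10 : ℝ) ^ 6 ≤ t := by
    have h1 : ((160 * 10 ^ 6 : ℝ)) ^ 4 ≤ (160 * t) ^ 4 := by
      refine le_trans ?_ hmt
      exact_mod_cast hm
    have h2 := le_of_pow_le_pow_left₀ (by norm_num) (by positivity) h1
    linarith
  have hm160 : 160 ≤ m := le_trans (by norm_num) hm
  have h := CrudeA.main d1 d2 b1 rf e st ex hμ m (by omega) x (t ^ 160) (t ^ 180) (t ^ 81)
    (t ^ 3 / t ^ 90) (by positivity) (by positivity) (by positivity) (by positivity)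
  have hn := CrudeA.num m t hm160 ht6 hmt
  rw [← ENNReal.ofReal_add (by positivity) (by positivity),
    ← ENNReal.ofReal_add (by positivity) (by positivity)] at h
  have h' := h.trans (ENNReal.ofReal_le_ofReal hn)
  rw [eD, eD'] at h'
  exact h'

end Pool.Agent.MP_3d8edd_pr.H69
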