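import Pool.Agent.MP_3d8edd_pr.H69.Basic

/-!
Row GROWTH: every bigeodesic grows linearly, at all times.
-/

open MeasureTheory ProbabilityTheory Set Filter
open scoped NNReal ENNReal Topology

namespace Pool.Agent.MP_3d8edd_pr.H69

namespace GrowthA

theorem isOpt_agree (d1 : Det1) {ω ω' : Env} {m l k : ℤ} {x y z : ℝ} (hml : m ≤ l) (hlk : l ≤ k)
    (ha : Agree ω ω' m k x y) (h : IsOpt ω m l k x y z) : IsOpt ω' m l k x y z := by
  obtain ⟨h1, h2, h3⟩ := h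
  refine ⟨h1, h2, ?_⟩
  rw [← d1.agree ω ω' m k x y ha, ← d1.agree ω ω' m l x z (ha.mono le_rfl hlk le_rfl h2),
    ← d1.agree ω ω' l k z y (ha.mono hml le_rfl h1 le_rfl)]
  exact h3

theorem loc_dev (d1 : Det1) (m : ℕ) (x y α : ℝ) : Loc (Dev 0 m x y α) 0 (2 * m) x y := by
  rintro ω ω' ha ⟨z, hz, ho⟩
  refine ⟨z, hz, isOpt_agree d1 (by omega) (by omega) ?_ ho⟩
  simpa using ha

theorem loc_crude (d1 : Det1) (m : ℕ) (x D : ℝ) :
    Loc (Crude m x D) 0 (2 * m) x (x + D ^ (9 / 8 : ℝ)) := by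
  rintro ω ω' ha ⟨z, hz, ho⟩
  exact ⟨z, hz, isOpt_agree d1 (by omega) (by omega) ha ho⟩

/-! ### Deterministic part -/

theorem opt_mid (d1 : Det1) {ω : Env} {x : ℤ → ℝ} {y0 : ℝ} {m : ℕ} (hm : 1 ≤ m) (hb : IsBi ω x)
    (h0 : x 0 ≤ y0) (h1 : y0 ≤ x 1) : IsOpt ω 0 m (2 * m) y0 (x (2 * m)) (x m) :=
  d1.bi_opt' ω x 0 m (2 * m) y0 hb (by omega) (by omega) h0 (by simpa using h1)

theorem step_lo (d1 : Det1) {ω : Env} {x : ℤ → ℝ} {y0 α L : ℝ} {m : ℕ} (hm : 1 ≤ m)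
    (hb : IsBi ω x) (h0 : x 0 ≤ y0) (h1 : y0 ≤ x 1) (hL : x (2 * m) ≤ y0 + L) (hL0 : 0 ≤ L)
    (hn : ω ∉ Dev 0 m y0 (y0 + L) α) : x m - y0 < (1 + α) * L / 2 := by
  obtain ⟨z, hz, ho⟩ := d1.ord_up ω 0 m (2 * m) y0 (x (2 * m)) (x m) y0 (y0 + L) (by omega)
    (by omega) (opt_mid d1 hm hb h0 h1) le_rfl hL (by linarith)
  by_contra hc
  apply hn
  refine ⟨z, ?_, by simpa using ho⟩
  refine le_trans ?_ (le_abs_self _)
  linarith

theorem step_hi (d1 : Det1) {ω : Env} {x : ℤ → ℝ} {y0 α L : ℝ} {m : ℕ} (hm : 1 ≤ m)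
    (hb : IsBi ω x) (h0 : x 0 ≤ y0) (h1 : y0 ≤ x 1) (hL : y0 + L ≤ x (2 * m)) (hL0 : 0 ≤ L)
    (hn : ω ∉ Dev 0 m y0 (y0 + L) α) : (1 - α) * L / 2 < x m - y0 := by
  obtain ⟨z, hz, ho⟩ := d1.ord_down ω 0 m (2 * m) y0 (x (2 * m)) (x m) y0 (y0 + L) (by omega)
    (by omega) (opt_mid d1 hm hb h0 h1) le_rfl hL (by linarith)
  by_contra hc
  apply hn
  refine ⟨z, ?_, by simpa using ho⟩
  refine le_trans ?_ (neg_le_abs _)
  linarith

theorem step_crude (d1 : Det1) {ω : Env} {x : ℤ → ℝ} {y0 D : ℝ} {m : ℕ} (hm : 1 ≤ m)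
    (hb : IsBi ω x) (h0 : x 0 ≤ y0) (h1 : y0 ≤ x 1) (hD : x m ≤ y0 + D) (hD0 : 0 ≤ D)
    (hn : ω ∉ Crude m y0 D) : x (2 * m) < y0 + D ^ (9 / 8 : ℝ) := by
  by_contra hc
  obtain ⟨z, hz, ho⟩ := d1.ord_down ω 0 m (2 * m) y0 (x (2 * m)) (x m) y0 (y0 + D ^ (9 / 8 : ℝ))
    (by omega) (by omega) (opt_mid d1 hm hb h0 h1) le_rfl (not_lt.1 hc)
    (by linarith [Real.rpow_nonneg hD0 (9 / 8 : ℝ)])
  exact hn ⟨z, hz.trans hD, ho⟩

theorem bdd_of_mul {a ε : ℕ → ℝ} (i0 : ℕ) (ha : ∀ i, 0 ≤ a i) (hε : ∀ i, 0 ≤ ε i)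
    (hs : Summable ε) (h : ∀ i ≥ i0, a (i + 1) ≤ a i * (1 + ε i)) :
    ∃ C, ∀ i ≥ i0, a i ≤ C := by
  refine ⟨a i0 * Real.exp (∑' j, ε j), fun i hi => ?_⟩
  have key : a i ≤ a i0 * Real.exp (∑ j ∈ Finset.range i, ε j) := by
    induction i, hi using Nat.le_induction with
    | base =>
      exact le_mul_of_one_le_right (ha _)
        (Real.one_le_exp (Finset.sum_nonneg fun j _ => hε j))
    | succ n hn ih =>
      rw [Finset.sum_range_succ, Real.exp_add, ← mul_assoc]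
      refine (h n hn).trans (mul_le_mul ih ?_ (by linarith [hε n]) ((ha n).trans ih))
      linarith [Real.add_one_le_exp (ε n)]
  refine key.trans (mul_le_mul_of_nonneg_left (Real.exp_le_exp.2 ?_) (ha _))
  exact hs.sum_le_tsum _ fun j _ => hε j

/-- The good event at the scale `2 ^ i`. -/
def Good (ω : Env) (y0 : ℝ) (i : ℕ) : Prop :=
  (∀ p : ℕ, 1 ≤ p → (p : ℝ) ≤ 6 * 2 ^ i * Real.exp ((6 / 5) ^ i) →
    ω ∉ Dev 0 (2 ^ i) y0 (y0 + p / 2 ^ i) ((7 / 8) ^ i)) ∧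
  ∀ D : ℕ, Real.exp ((6 / 5) ^ i) ≤ D → ω ∉ Crude (2 ^ i) y0 D

theorem alpha_le {i : ℕ} (hi : 6 ≤ i) : ((7 : ℝ) / 8) ^ i ≤ 1 / 2 :=
  (pow_le_pow_of_le_one (by norm_num) (by norm_num) hi).trans (by norm_num)

theorem cast_succ (i : ℕ) : 2 * ((2 ^ i : ℕ) : ℤ) = ((2 ^ (i + 1) : ℕ) : ℤ) := by
  push_cast; ring

section
variable (d1 : Det1) {ω : Env} {x : ℤ → ℝ} {y0 : ℝ} (hb : IsBi ω x) (h0 : x 0 ≤ y0)
  (h1 : y0 < x 1)
include d1 hb h0 h1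

omit d1 h0 in
theorem pos_D (i : ℕ) : x 1 - y0 ≤ x ((2 ^ i : ℕ) : ℤ) - y0 := by
  have : (1 : ℤ) ≤ ((2 ^ i : ℕ) : ℤ) := by exact_mod_cast Nat.one_le_two_pow
  linarith [hb.1 this]

/-- Upper step in the moderate regime. -/
theorem up_mod {i : ℕ} (hi : 6 ≤ i) (hg : Good ω y0 i)
    (hD : x ((2 ^ i : ℕ) : ℤ) - y0 ≤ Real.exp ((6 / 5) ^ i)) :
    x ((2 ^ (i + 1) : ℕ) : ℤ) - y0 ≤
      2 * (x ((2 ^ i : ℕ) : ℤ) - y0) * (1 + 2 * (7 / 8) ^ i) + 1 / 2 ^ i := by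
  set D := x ((2 ^ i : ℕ) : ℤ) - y0 with hDdef
  set α : ℝ := (7 / 8) ^ i with hα
  have hα0 : 0 < α := by positivity
  have hα1 : α ≤ 1 / 2 := alpha_le hi
  have hDpos : 0 < D := by have := pos_D hb h1 i; linarith
  have hm : (1 : ℝ) ≤ 2 ^ i := one_le_pow₀ (by norm_num)
  have hE : 1 ≤ Real.exp ((6 / 5 : ℝ) ^ i) := Real.one_le_exp (by positivity)
  set s : ℝ := 2 * D * (1 + 2 * α) * 2 ^ i with hs
  have hs0 : 0 < s := by positivity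
  have hp1 : s ≤ (⌈s⌉₊ : ℝ) := Nat.le_ceil s
  have hp2 : (⌈s⌉₊ : ℝ) < s + 1 := Nat.ceil_lt_add_one hs0.le
  have hsle : s ≤ 4 * Real.exp ((6 / 5) ^ i) * 2 ^ i := by
    rw [hs]
    have : 2 * D * (1 + 2 * α) ≤ 4 * Real.exp ((6 / 5) ^ i) := by nlinarith
    gcongr
  have hn := hg.1 ⌈s⌉₊ (Nat.ceil_pos.2 hs0) (by nlinarith)
  by_contra hc
  have hL : y0 + (⌈s⌉₊ : ℝ) / 2 ^ i ≤ x (2 * ((2 ^ i : ℕ) : ℤ)) := by
    rw [cast_succ]
    have : (⌈s⌉₊ : ℝ) / 2 ^ i ≤ 2 * D * (1 + 2 * α) + 1 / 2 ^ i := by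
      rw [div_le_iff₀ (by positivity), add_mul, one_div, inv_mul_cancel₀ (by positivity)]
      linarith
    linarith [not_le.1 hc]
  have := step_hi d1 Nat.one_le_two_pow hb h0 h1.le hL (by positivity) hn
  have h3 : 2 * D * (1 + 2 * α) ≤ (⌈s⌉₊ : ℝ) / 2 ^ i := by
    rw [le_div_iff₀ (by positivity)]; linarith
  have h4 : (1 - α) * (2 * D * (1 + 2 * α)) ≤ (1 - α) * ((⌈s⌉₊ : ℝ) / 2 ^ i) :=
    mul_le_mul_of_nonneg_left h3 (by linarith)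
  have h5 : 0 ≤ D * (α * (1 - 2 * α)) := by
    have : 0 ≤ 1 - 2 * α := by linarith
    positivity
  nlinarith

/-- Lower step in the moderate regime. -/
theorem lo_mod {i : ℕ} (hg : Good ω y0 i)
    (hD : x ((2 ^ (i + 1) : ℕ) : ℤ) - y0 ≤ 5 * Real.exp ((6 / 5) ^ i)) :
    x ((2 ^ i : ℕ) : ℤ) - y0 ≤
      (1 + (7 / 8) ^ i) * (x ((2 ^ (i + 1) : ℕ) : ℤ) - y0 + 1 / 2 ^ i) / 2 := by
  set D := x ((2 ^ (i + 1) : ℕ) : ℤ) - y0 with hDdef
  set α : ℝ := (7 / 8) ^ i with hα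
  have hα0 : 0 < α := by positivity
  have hDpos : 0 < D := by have := pos_D hb h1 (i + 1); linarith
  have hm : (1 : ℝ) ≤ 2 ^ i := one_le_pow₀ (by norm_num)
  have hE : 1 ≤ Real.exp ((6 / 5 : ℝ) ^ i) := Real.one_le_exp (by positivity)
  set s : ℝ := D * 2 ^ i with hs
  have hs0 : 0 < s := by positivity
  have hp1 : s ≤ (⌈s⌉₊ : ℝ) := Nat.le_ceil s
  have hp2 : (⌈s⌉₊ : ℝ) < s + 1 := Nat.ceil_lt_add_one hs0.le
  have hsle : s ≤ 5 * Real.exp ((6 / 5) ^ i) * 2 ^ i := by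
    rw [hs]; gcongr
  have hn := hg.1 ⌈s⌉₊ (Nat.ceil_pos.2 hs0) (by nlinarith)
  have hL : x (2 * ((2 ^ i : ℕ) : ℤ)) ≤ y0 + (⌈s⌉₊ : ℝ) / 2 ^ i := by
    rw [cast_succ]
    have : D ≤ (⌈s⌉₊ : ℝ) / 2 ^ i := by
      rw [le_div_iff₀ (by positivity)]; linarith
    linarith
  have := step_lo d1 Nat.one_le_two_pow hb h0 h1.le hL (by positivity) hn
  have h3 : (⌈s⌉₊ : ℝ) / 2 ^ i ≤ D + 1 / 2 ^ i := by
    rw [div_le_iff₀ (by positivity), add_mul, one_div, inv_mul_cancel₀ (by positivity)]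
    linarith
  have h4 : (1 + α) * ((⌈s⌉₊ : ℝ) / 2 ^ i) ≤ (1 + α) * (D + 1 / 2 ^ i) :=
    mul_le_mul_of_nonneg_left h3 (by linarith)
  linarith

/-- The logarithm grows at most geometrically with ratio `9 / 8`. -/
theorem log_step {i : ℕ} (hi : 6 ≤ i) (hg : Good ω y0 i) :
    Real.log (x ((2 ^ (i + 1) : ℕ) : ℤ) - y0 + 1) ≤
      9 / 8 * Real.log (x ((2 ^ i : ℕ) : ℤ) - y0 + 1) + 3 := by
  have hDpos : 0 < x ((2 ^ i : ℕ) : ℤ) - y0 := by have := pos_D hb h1 i; linarith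
  have hDpos' : 0 < x ((2 ^ (i + 1) : ℕ) : ℤ) - y0 := by have := pos_D hb h1 (i + 1); linarith
  have hlog0 : 0 ≤ Real.log (x ((2 ^ i : ℕ) : ℤ) - y0 + 1) := Real.log_nonneg (by linarith)
  have hl4 : Real.log 4 ≤ 3 := by
    have := Real.log_le_sub_one_of_pos (show (0 : ℝ) < 4 by norm_num); linarith
  rcases le_total (x ((2 ^ i : ℕ) : ℤ) - y0) (Real.exp ((6 / 5) ^ i)) with hD | hD
  · have h2 := up_mod d1 hb h0 h1 hi hg hD
    have hα1 : ((7 : ℝ) / 8) ^ i ≤ 1 / 2 := alpha_le hi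
    have hm : (1 : ℝ) / 2 ^ i ≤ 1 := by
      rw [div_le_one (by positivity)]; exact one_le_pow₀ (by norm_num)
    have h3 : x ((2 ^ (i + 1) : ℕ) : ℤ) - y0 + 1 ≤ 4 * (x ((2 ^ i : ℕ) : ℤ) - y0 + 1) := by
      nlinarith
    have h4 := Real.log_le_log (by linarith) h3
    rw [Real.log_mul (by norm_num) (by linarith)] at h4
    linarith
  · set D := x ((2 ^ i : ℕ) : ℤ) - y0 with hDdef
    have hp1 : D ≤ (⌈D⌉₊ : ℝ) := Nat.le_ceil D
    have hp2 : (⌈D⌉₊ : ℝ) < D + 1 := Nat.ceil_lt_add_one hDpos.le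
    have hn := hg.2 ⌈D⌉₊ (hD.trans hp1)
    have h2 := step_crude d1 Nat.one_le_two_pow hb h0 h1.le (by linarith) (by positivity) hn
    rw [cast_succ] at h2
    have h3 : (⌈D⌉₊ : ℝ) ^ (9 / 8 : ℝ) ≤ (D + 1) ^ (9 / 8 : ℝ) :=
      Real.rpow_le_rpow (by positivity) hp2.le (by norm_num)
    have h4 : 1 ≤ (D + 1) ^ (9 / 8 : ℝ) := Real.one_le_rpow (by linarith) (by norm_num)
    have h5 : x ((2 ^ (i + 1) : ℕ) : ℤ) - y0 + 1 ≤ 4 * (D + 1) ^ (9 / 8 : ℝ) := by linarith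
    have h6 := Real.log_le_log (by linarith) h5
    rw [Real.log_mul (by norm_num) (by linarith), Real.log_rpow (by linarith)] at h6
    linarith

theorem eventually_mod (hg : ∀ᶠ i in atTop, Good ω y0 i) :
    ∀ᶠ i : ℕ in atTop, x ((2 ^ i : ℕ) : ℤ) - y0 ≤ Real.exp ((6 / 5) ^ i) := by
  obtain ⟨i0, hi0⟩ := eventually_atTop.1 (hg.and (eventually_ge_atTop 6))
  set u : ℕ → ℝ := fun i => Real.log (x ((2 ^ i : ℕ) : ℤ) - y0 + 1) with hu
  have hu0 : ∀ i, 0 ≤ u i := fun i =>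
    Real.log_nonneg (by have := pos_D hb h1 i; linarith)
  have key : ∀ i ≥ i0, u i + 24 ≤ (u i0 + 24) * (9 / 8) ^ i := by
    intro i hi
    induction i, hi using Nat.le_induction with
    | base =>
      exact le_mul_of_one_le_right (by linarith [hu0 i0]) (one_le_pow₀ (by norm_num))
    | succ n hn ih =>
      have := log_step d1 hb h0 h1 (hi0 n hn).2 (hi0 n hn).1
      have h2 : u (n + 1) ≤ 9 / 8 * u n + 3 := this
      rw [pow_succ, ← mul_assoc]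
      linarith
  have ht : Tendsto (fun i : ℕ => ((16 : ℝ) / 15) ^ i) atTop atTop :=
    tendsto_pow_atTop_atTop_of_one_lt (by norm_num)
  filter_upwards [eventually_ge_atTop i0, ht.eventually_ge_atTop (u i0 + 24)] with i hi h2
  have h3 : (u i0 + 24) * (9 / 8) ^ i ≤ (6 / 5) ^ i := by
    have : ((6 : ℝ) / 5) ^ i = (16 / 15) ^ i * (9 / 8) ^ i := by
      rw [← mul_pow]; norm_num
    rw [this]; gcongr
  have h4 : u i ≤ (6 / 5) ^ i := by linarith [key i hi]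
  have h5 : 0 < x ((2 ^ i : ℕ) : ℤ) - y0 + 1 := by have := pos_D hb h1 i; linarith
  have h6 := (Real.log_le_iff_le_exp h5).1 h4
  linarith

theorem linear_of_good (hg : ∀ᶠ i in atTop, Good ω y0 i) : Linear x := by
  obtain ⟨i0, hi0⟩ := eventually_atTop.1
    ((hg.and (eventually_ge_atTop 6)).and (eventually_mod d1 hb h0 h1 hg))
  set η := x 1 - y0 with hη
  have hη0 : 0 < η := by linarith
  set D : ℕ → ℝ := fun i => x ((2 ^ i : ℕ) : ℤ) - y0 with hDdef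
  have hD : ∀ i, η ≤ D i := fun i => pos_D hb h1 i
  have hD0 : ∀ i, 0 < D i := fun i => hη0.trans_le (hD i)
  set ε : ℕ → ℝ := fun i => 2 * (7 / 8) ^ i + 2 / η * (1 / 2) ^ i with hε
  have hε0 : ∀ i, 0 ≤ ε i := fun i => by positivity
  have hεs : Summable ε :=
    ((summable_geometric_of_lt_one (by norm_num) (by norm_num)).mul_left _).add
      ((summable_geometric_of_lt_one (by norm_num) (by norm_num)).mul_left _)
  have hup : ∀ i ≥ i0, D (i + 1) ≤ 2 * D i * (1 + 2 * (7 / 8) ^ i) + 1 / 2 ^ i := fun i hi =>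
    up_mod d1 hb h0 h1 (hi0 i hi).1.2 (hi0 i hi).1.1 (hi0 i hi).2
  have hinv : ∀ i j : ℕ, (1 : ℝ) / 2 ^ i ≤ D j * (1 / η * (1 / 2) ^ i) := by
    intro i j
    have : (1 : ℝ) / 2 ^ i = η * (1 / η * (1 / 2) ^ i) := by
      rw [one_div_pow]; field_simp
    rw [this]
    exact mul_le_mul_of_nonneg_right (hD j) (by positivity)
  obtain ⟨C1, hC1⟩ := bdd_of_mul (a := fun i => D i / 2 ^ i) i0
    (fun i => (div_pos (hD0 i) (by positivity)).le) hε0 hεs (by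
      intro i hi
      have h2 := hup i hi
      have h3 := hinv i i
      have h4 : 0 ≤ D i * (1 / η * (1 / 2) ^ i) := by have := hD0 i; positivity
      rw [div_mul_eq_mul_div, div_le_div_iff₀ (by positivity) (by positivity), pow_succ]
      have h5 : D (i + 1) ≤ D i * (1 + ε i) * 2 := by
        have : D i * (1 + ε i) * 2 =
          2 * D i * (1 + 2 * (7 / 8) ^ i) + 4 * (D i * (1 / η * (1 / 2) ^ i)) := by
          simp only [hε]; ring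
        linarith
      calc D (i + 1) * 2 ^ i ≤ D i * (1 + ε i) * 2 * 2 ^ i := by gcongr
        _ = _ := by ring)
  obtain ⟨C2, hC2⟩ := bdd_of_mul (a := fun i => 2 ^ i / D i) i0
    (fun i => (div_pos (by positivity) (hD0 i)).le) hε0 hεs (by
      intro i hi
      have h2 := hup i hi
      have hα1 : ((7 : ℝ) / 8) ^ i ≤ 1 / 2 := alpha_le (hi0 i hi).1.2
      have hα0 : 0 < ((7 : ℝ) / 8) ^ i := by positivity
      have hm : (1 : ℝ) / 2 ^ i ≤ 1 := by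
        rw [div_le_one (by positivity)]; exact one_le_pow₀ (by norm_num)
      have hE : 1 ≤ Real.exp ((6 / 5 : ℝ) ^ i) := Real.one_le_exp (by positivity)
      have h3 : D i ≤ Real.exp ((6 / 5 : ℝ) ^ i) := (hi0 i hi).2
      have h4 : D (i + 1) ≤ 5 * Real.exp ((6 / 5 : ℝ) ^ i) := by
        have := hD0 i
        nlinarith
      have h5 : D i ≤ (1 + (7 / 8) ^ i) * (D (i + 1) + 1 / 2 ^ i) / 2 :=
        lo_mod d1 hb h0 h1 (hi0 i hi).1.1 h4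
      have h6 := hinv i (i + 1)
      have h7 : 0 ≤ D (i + 1) * (1 / η * (1 / 2) ^ i) := by have := hD0 (i + 1); positivity
      have h8 : 2 * D i ≤ D (i + 1) * (1 + ε i) := by
        have : D (i + 1) * (1 + ε i) =
          D (i + 1) * (1 + 2 * (7 / 8) ^ i) + 2 * (D (i + 1) * (1 / η * (1 / 2) ^ i)) := by
          simp only [hε]; ring
        have h9 : 0 ≤ D (i + 1) * (7 / 8) ^ i := by have := hD0 (i + 1); positivity
        have h10 : (0 : ℝ) < 1 / 2 ^ i := by positivity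
        nlinarith
      rw [div_mul_eq_mul_div, div_le_div_iff₀ (hD0 _) (hD0 _), pow_succ]
      calc (2 : ℝ) ^ i * 2 * D i = 2 ^ i * (2 * D i) := by ring
        _ ≤ 2 ^ i * (D (i + 1) * (1 + ε i)) := by gcongr
        _ = _ := by ring)
  have hC2pos : 0 < C2 := (div_pos (by positivity) (hD0 i0)).trans_le (hC2 i0 le_rfl)
  refine ⟨1 / (2 * C2), by positivity, C1 + |y0|, ?_⟩
  have ht : Tendsto (fun i : ℕ => (2 : ℝ) ^ i) atTop atTop :=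
    tendsto_pow_atTop_atTop_of_one_lt (by norm_num)
  filter_upwards [eventually_ge_atTop i0, ht.eventually_ge_atTop (2 * C2 * |y0|)] with i hi h2
  have hx : x ((2 ^ i : ℕ) : ℤ) = y0 + D i := by simp only [hDdef]; ring
  have hm : (1 : ℝ) ≤ 2 ^ i := one_le_pow₀ (by norm_num)
  have a1 := hC1 i hi
  have a2 := hC2 i hi
  rw [div_le_iff₀ (by positivity)] at a1
  rw [div_le_iff₀ (hD0 i)] at a2
  rw [hx]
  constructor
  · rw [div_mul_eq_mul_div, one_mul, div_le_iff₀ (by positivity)]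
    have := neg_abs_le y0
    nlinarith
  · have := le_abs_self y0
    have := abs_nonneg y0
    nlinarith

end

/-! ### Probabilistic part -/

universe u

section
variable {Ω : Type u} [MeasurableSpace Ω] {P : Measure Ω} {μ : Measure CP} {W : ℝ → Ω → Env}

theorem window (hd : Dyn P μ W) {E : Set Env} {m : ℕ} {x L : ℝ} (hL : 0 ≤ L)
    (hE : Loc E 0 (2 * m) x (x + L)) (t0 : ℝ) :
    P {ω | ∃ t ∈ Icc t0 (t0 + 1), W t ω ∈ E} ≤ ENNReal.ofReal (1 + 2 * m * (L + 2)) * PP μ E := by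
  have a1 := Int.floor_le x
  have a2 := Int.le_ceil (x + L)
  have a3 := Int.lt_floor_add_one x
  have a4 := Int.ceil_lt_add_one (x + L)
  have h := hd.union E 0 (2 * m) ⌊x⌋ ⌈x + L⌉ t0 1 (by omega)
    (by have : (⌊x⌋ : ℝ) ≤ ⌈x + L⌉ := by linarith
        exact_mod_cast this) zero_le_one (hE.mono le_rfl le_rfl a1 a2)
  refine h.trans (mul_le_mul' (ENNReal.ofReal_le_ofReal ?_) le_rfl)
  push_cast
  have : (0 : ℝ) ≤ m := Nat.cast_nonneg m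
  nlinarith

theorem bc {s : ℕ → Set Ω} {K : ℝ}
    (h : ∀ᶠ i in atTop, P (s i) ≤ ENNReal.ofReal (K * (1 / 2) ^ i)) :
    ∀ᵐ ω ∂P, ∀ᶠ i in atTop, ω ∉ s i := by
  obtain ⟨i0, hi0⟩ := eventually_atTop.1 h
  have hs : Summable fun i : ℕ => K * (1 / 2 : ℝ) ^ (i + i0) :=
    (summable_nat_add_iff i0).2 (summable_geometric_two.mul_left K)
  have h2 : ∑' i, P (s (i + i0)) ≠ ∞ :=
    ne_top_of_le_ne_top hs.tsum_ofReal_ne_top
      (ENNReal.tsum_le_tsum fun i => hi0 _ (Nat.le_add_left _ _))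
  filter_upwards [ae_eventually_notMem h2] with ω hω
  obtain ⟨j, hj⟩ := eventually_atTop.1 hω
  refine eventually_atTop.2 ⟨j + i0, fun i hi => ?_⟩
  have := hj (i - i0) (by omega)
  rwa [Nat.sub_add_cancel (by omega)] at this

theorem two_pow_le_exp (n : ℕ) : (2 : ℝ) ^ n ≤ Real.exp n := by
  rw [← Real.exp_one_pow]
  gcongr
  linarith [Real.add_one_le_exp (1 : ℝ)]

theorem dev_ae (d1 : Det1) (md : MidStmt) (hd : Dyn P μ W) (y0 t0 : ℝ) :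
    ∀ᵐ ω ∂P, ∀ᶠ i : ℕ in atTop, ω ∉ {ω | ∃ t ∈ Icc t0 (t0 + 1), ∃ p : ℕ, 1 ≤ p ∧
      (p : ℝ) ≤ 6 * 2 ^ i * Real.exp ((6 / 5) ^ i) ∧
      W t ω ∈ Dev 0 (2 ^ i) y0 (y0 + p / 2 ^ i) ((7 / 8) ^ i)} := by
  obtain ⟨C, hC, hmd⟩ := md
  refine bc (K := 408) ?_
  have ht : Tendsto (fun i : ℕ => ((1715 : ℝ) / 1536) ^ i) atTop atTop :=
    tendsto_pow_atTop_atTop_of_one_lt (by norm_num)
  filter_upwards [eventually_ge_atTop 6, ht.eventually_ge_atTop (17 * C)] with i hi hbig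
  set E : ℝ := Real.exp ((6 / 5) ^ i) with hE
  have hE1 : 1 ≤ E := Real.one_le_exp (by positivity)
  have hm : (1 : ℝ) ≤ 2 ^ i := one_le_pow₀ (by norm_num)
  set b : ℝ := 4 * Real.exp (-(((7 / 8) ^ i) ^ 3 * ((2 ^ i : ℕ) : ℝ) / C)) with hb
  have hb0 : 0 ≤ b := by positivity
  have hsub : {ω | ∃ t ∈ Icc t0 (t0 + 1), ∃ p : ℕ, 1 ≤ p ∧ (p : ℝ) ≤ 6 * 2 ^ i * E ∧
      W t ω ∈ Dev 0 (2 ^ i) y0 (y0 + p / 2 ^ i) ((7 / 8) ^ i)} ⊆
      ⋃ p ∈ Finset.Icc 1 ⌊6 * 2 ^ i * E⌋₊, {ω | ∃ t ∈ Icc t0 (t0 + 1),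
        W t ω ∈ Dev 0 (2 ^ i) y0 (y0 + (p : ℝ) / 2 ^ i) ((7 / 8) ^ i)} := by
    rintro ω ⟨t, ht, p, h1, h2, h3⟩
    simp only [mem_iUnion]
    exact ⟨p, Finset.mem_Icc.2 ⟨h1, Nat.le_floor h2⟩, t, ht, h3⟩
  refine (measure_mono hsub).trans ((measure_biUnion_finset_le _ _).trans ?_)
  have hone : ∀ p ∈ Finset.Icc 1 ⌊6 * 2 ^ i * E⌋₊, P {ω | ∃ t ∈ Icc t0 (t0 + 1),
        W t ω ∈ Dev 0 (2 ^ i) y0 (y0 + (p : ℝ) / 2 ^ i) ((7 / 8) ^ i)} ≤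
      ENNReal.ofReal (17 * 2 ^ i * E * b) := by
    intro p hp
    obtain ⟨h1, h2⟩ := Finset.mem_Icc.1 hp
    have h1' : (1 : ℝ) ≤ p := by exact_mod_cast h1
    have h2' : (p : ℝ) ≤ 6 * 2 ^ i * E := (Nat.le_floor_iff (by positivity)).1 h2
    have hL : (0 : ℝ) < p / 2 ^ i := by positivity
    refine (window hd hL.le (loc_dev d1 _ _ _ _) t0).trans ?_
    rw [ENNReal.ofReal_mul (by positivity)]
    refine mul_le_mul' (ENNReal.ofReal_le_ofReal ?_)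
      (hmd μ 0 (2 ^ i) y0 _ _ hd.bm Nat.one_le_two_pow (by linarith) (by positivity) (alpha_le hi))
    have h3 : (p : ℝ) / 2 ^ i ≤ 6 * E := by
      rw [div_le_iff₀ (by positivity)]; linarith
    push_cast
    nlinarith
  refine (Finset.sum_le_card_nsmul _ _ _ hone).trans ?_
  rw [nsmul_eq_mul, ← ENNReal.ofReal_natCast, ← ENNReal.ofReal_mul (by positivity)]
  refine ENNReal.ofReal_le_ofReal ?_
  have hcard : ((Finset.Icc 1 ⌊6 * 2 ^ i * E⌋₊).card : ℝ) ≤ 6 * 2 ^ i * E := by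
    rw [Nat.card_Icc, Nat.add_sub_cancel]
    exact Nat.floor_le (by positivity)
  have hexp : 17 * (6 / 5 : ℝ) ^ i ≤ ((7 / 8) ^ i) ^ 3 * ((2 ^ i : ℕ) : ℝ) / C := by
    have e : (((7 : ℝ) / 8) ^ i) ^ 3 * ((2 ^ i : ℕ) : ℝ) = (1715 / 1536) ^ i * (6 / 5) ^ i := by
      push_cast
      rw [← pow_mul, mul_comm i 3, pow_mul, ← mul_pow, ← mul_pow]; norm_num
    rw [e, le_div_iff₀ (by linarith)]
    have : (0 : ℝ) < (6 / 5) ^ i := by positivity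
    nlinarith
  have hlin : (i : ℝ) ≤ 5 * (6 / 5) ^ i := by
    have := one_add_mul_le_pow (show (-2 : ℝ) ≤ 1 / 5 by norm_num) i
    norm_num at this ⊢
    linarith
  have h8 : (2 : ℝ) ^ i * 2 ^ i * 2 ^ i * (E * E) *
      Real.exp (-(((7 / 8) ^ i) ^ 3 * ((2 ^ i : ℕ) : ℝ) / C)) ≤ 1 := by
    have := two_pow_le_exp i
    calc _ ≤ Real.exp i * Real.exp i * Real.exp i * (E * E) *
          Real.exp (-(((7 / 8) ^ i) ^ 3 * ((2 ^ i : ℕ) : ℝ) / C)) := by gcongr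
      _ ≤ 1 := by
        rw [hE]
        simp only [← Real.exp_add]
        rw [Real.exp_le_one_iff]
        linarith
  calc _ ≤ 6 * 2 ^ i * E * (17 * 2 ^ i * E * b) := by gcongr
    _ = 408 * (1 / 2) ^ i * ((2 : ℝ) ^ i * 2 ^ i * 2 ^ i * (E * E) *
      Real.exp (-(((7 / 8) ^ i) ^ 3 * ((2 ^ i : ℕ) : ℝ) / C))) := by
      rw [hb, one_div_pow]; field_simp; ring
    _ ≤ _ := mul_le_of_le_one_right (by positivity) h8

theorem crude_ae (d1 : Det1) (cr : CrudeStmt) (hd : Dyn P μ W) (y0 t0 : ℝ) :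
    ∀ᵐ ω ∂P, ∀ᶠ i : ℕ in atTop, ω ∉ {ω | ∃ t ∈ Icc t0 (t0 + 1), ∃ D : ℕ,
      Real.exp ((6 / 5) ^ i) ≤ D ∧ W t ω ∈ Crude (2 ^ i) y0 D} := by
  obtain ⟨m0, C, hC, hcr⟩ := cr
  have hS : Summable fun D : ℕ => 1 / (D : ℝ) ^ 2 := Real.summable_one_div_nat_pow.2 (by norm_num)
  refine bc (K := 7 * C * ∑' D : ℕ, 1 / (D : ℝ) ^ 2) ?_
  have ht := tendsto_pow_const_div_const_pow_of_one_lt 1 (show (1 : ℝ) < 6 / 5 by norm_num)
  filter_upwards [eventually_ge_atTop m0,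
    ht.eventually_le_const (show (0 : ℝ) < 1 / 2 by norm_num)] with i hi hbig
  set E : ℝ := Real.exp ((6 / 5) ^ i) with hE
  have hE1 : 1 ≤ E := Real.one_le_exp (by positivity)
  have hm : (1 : ℝ) ≤ 2 ^ i := one_le_pow₀ (by norm_num)
  have hE4 : (2 : ℝ) ^ i * 2 ^ i ≤ E := by
    have := two_pow_le_exp i
    rw [pow_one, div_le_iff₀ (by positivity)] at hbig
    calc (2 : ℝ) ^ i * 2 ^ i ≤ Real.exp i * Real.exp i := by gcongr
      _ ≤ E := by rw [← Real.exp_add]; exact Real.exp_le_exp.2 (by linarith)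
  have hroot : ((2 ^ i : ℕ) : ℝ) ^ (1 / 4 : ℝ) ≤ (6 / 5) ^ i := by
    have h1 : ((2 ^ i : ℕ) : ℝ) ≤ ((6 / 5 : ℝ) ^ i) ^ 4 := by
      push_cast
      rw [← pow_mul, mul_comm, pow_mul]
      gcongr
      norm_num
    calc _ ≤ (((6 / 5 : ℝ) ^ i) ^ 4) ^ (1 / 4 : ℝ) :=
          Real.rpow_le_rpow (by positivity) h1 (by norm_num)
      _ = _ := by
        rw [← Real.rpow_natCast _ 4, ← Real.rpow_mul (by positivity)]; norm_num
  have hsub : {ω | ∃ t ∈ Icc t0 (t0 + 1), ∃ D : ℕ, E ≤ D ∧ W t ω ∈ Crude (2 ^ i) y0 D} ⊆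
      ⋃ D : ℕ, {ω | E ≤ D ∧ ∃ t ∈ Icc t0 (t0 + 1), W t ω ∈ Crude (2 ^ i) y0 D} := by
    rintro ω ⟨t, ht, D, h1, h2⟩
    exact mem_iUnion.2 ⟨D, h1, t, ht, h2⟩
  refine (measure_mono hsub).trans ((measure_iUnion_le _).trans ?_)
  have hone : ∀ D : ℕ, P {ω | E ≤ D ∧ ∃ t ∈ Icc t0 (t0 + 1), W t ω ∈ Crude (2 ^ i) y0 D} ≤
      ENNReal.ofReal (7 * C * (1 / 2) ^ i * (1 / (D : ℝ) ^ 2)) := by
    intro D
    by_cases hD : E ≤ D
    · simp only [hD, true_and]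
      have hD1 : (1 : ℝ) ≤ D := hE1.trans hD
      have hL : (0 : ℝ) ≤ (D : ℝ) ^ (9 / 8 : ℝ) := by positivity
      refine (window hd hL (loc_crude d1 _ _ _) t0).trans ?_
      have hp := hcr μ (2 ^ i) y0 D hd.bm (hi.trans Nat.lt_two_pow_self.le)
        ((Real.exp_le_exp.2 hroot).trans hD)
      refine (mul_le_mul' le_rfl hp).trans ?_
      rw [← ENNReal.ofReal_mul (by positivity)]
      refine ENNReal.ofReal_le_ofReal ?_
      have h2 : (D : ℝ) ^ (9 / 8 : ℝ) ≤ (D : ℝ) ^ 2 := by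
        rw [← Real.rpow_natCast _ 2]
        exact Real.rpow_le_rpow_of_exponent_le hD1 (by norm_num)
      have h3 : (1 : ℝ) ≤ (D : ℝ) ^ 2 := one_le_pow₀ hD1
      have h4 : 1 + 2 * ((2 ^ i : ℕ) : ℝ) * ((D : ℝ) ^ (9 / 8 : ℝ) + 2) ≤ 7 * 2 ^ i * D ^ 2 := by
        push_cast
        nlinarith
      have h5 : (2 : ℝ) ^ i * 2 ^ i / D ≤ 1 := by
        rw [div_le_one (by linarith)]; linarith
      calc _ ≤ 7 * 2 ^ i * (D : ℝ) ^ 2 * (C / D ^ 5) := by gcongr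
        _ = 7 * C * (1 / 2) ^ i * (1 / (D : ℝ) ^ 2) * ((2 : ℝ) ^ i * 2 ^ i / D) := by
          rw [one_div_pow]; field_simp
        _ ≤ _ := mul_le_of_le_one_right (by positivity) h5
    · simp [hD]
  refine (ENNReal.tsum_le_tsum hone).trans ?_
  rw [← ENNReal.ofReal_tsum_of_nonneg (fun D => by positivity) (hS.mul_left _), tsum_mul_left]
  exact ENNReal.ofReal_le_ofReal (le_of_eq (by ring))

end

end GrowthA

universe u

theorem growthS (d1 : Det1) (md : MidStmt) (cr : CrudeStmt) : GrowthStmt.{u} := by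
  intro Ω _ P μ W hd
  have h : ∀ᵐ ω ∂P, ∀ (q : ℤ) (y0 : ℚ), ∀ᶠ i : ℕ in atTop, ∀ t ∈ Icc (q : ℝ) (q + 1),
      GrowthA.Good (W t ω) y0 i := by
    refine ae_all_iff.2 fun q => ae_all_iff.2 fun y0 => ?_
    filter_upwards [GrowthA.dev_ae d1 md hd y0 q, GrowthA.crude_ae d1 cr hd y0 q] with ω h1 h2
    filter_upwards [h1, h2] with i a1 a2 t ht
    exact ⟨fun p b1 b2 b3 => a1 ⟨t, ht, p, b1, b2, b3⟩, fun D b1 b2 => a2 ⟨t, ht, D, b1, b2⟩⟩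
  filter_upwards [h] with ω hω t x hb hx
  obtain ⟨y0, h0, h1⟩ := exists_rat_btwn hx
  refine GrowthA.linear_of_good d1 hb h0.le h1 ?_
  filter_upwards [hω ⌊t⌋ y0] with i hi
  exact hi t ⟨Int.floor_le t, (Int.lt_floor_add_one t).le⟩

end Pool.Agent.MP_3d8edd_pr.H69
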