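import Pool.Agent.MP_3d8edd_pr.H69.All2
import Pool.Agent.MP_3d8edd_pr.H69.Crude
import Pool.Agent.MP_3d8edd_pr.H69.Growth
import Pool.Agent.MP_3d8edd_pr.H69.Core1

/-!
All the steps put together: the Hausdorff dimension.
-/

open MeasureTheory ProbabilityTheory
open scoped NNReal

namespace Pool.Agent.MP_3d8edd_pr.H69

universe u

open AllA

theorem all1 {Ω : Type u} [MeasurableSpace Ω] (P : Measure Ω) (X : ℤ × ℤ → ℤ → ℝ≥0 → Ω → ℝ)
    (N : ℤ × ℤ → ℝ → Ω → ℤ) (h : IsModel P X N) :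
    ∀ᵐ ω ∂P, dimH {t : ℝ | ∃ Γ, IsBigeodesic (envAt X N t ω) Γ ∧ IsNontrivial Γ} = 0 :=
  final1 det1 e ct (reduceS bm1) unionS mv ry structS
    (core1 (growthS det1 md (crudeS det1 d2 bm1 rf e st ex)) lc mu) P X N h

end Pool.Agent.MP_3d8edd_pr.H69
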