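import Pool.Agent.MP_3d8edd_pr.H69.Basic

/-!
Two-sided Brownian motion on the space of continuous functions: uniqueness, symmetries and the
Markov property.
-/

open MeasureTheory ProbabilityTheory Set Filter
open scoped NNReal ENNReal Topology

namespace Pool.Agent.MP_3d8edd_pr.H69

namespace Bm1A

theorem meas_sum {n : ℕ} (c x : Fin n → ℝ) : Measurable fun f : CP => ∑ i, c i * f (x i) :=
  Finset.measurable_sum _ fun i _ => (measurable_ev (x i)).const_mul _

theorem meas_restrict (I : Finset ℝ) : Measurable fun f : CP => I.restrict fun x => f x :=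
  (Finset.measurable_restrict I).comp measurable_coe

theorem ext_lin (μ ν : Measure CP) [IsProbabilityMeasure μ] [IsProbabilityMeasure ν]
    (h : ∀ (n : ℕ) (c x : Fin n → ℝ), μ.map (fun f => ∑ i, c i * f (x i)) =
      ν.map fun f => ∑ i, c i * f (x i)) : μ = ν := by
  classical
  have h1 : ∀ I : Finset ℝ, μ.map (fun f : CP => I.restrict fun x => f x) =
      ν.map fun f : CP => I.restrict fun x => f x := by
    intro I
    refine Measure.ext_of_charFunDual (funext fun L => ?_)
    rw [charFunDual_eq_charFun_map_one, charFunDual_eq_charFun_map_one,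
      Measure.map_map L.continuous.measurable (meas_restrict I),
      Measure.map_map L.continuous.measurable (meas_restrict I)]
    have e : (L ∘ fun f : CP => I.restrict fun x => f x) = fun f : CP =>
        ∑ i : Fin I.card, L (fun j => if I.equivFin.symm i = j then 1 else 0) *
          f (I.equivFin.symm i) := by
      funext f
      rw [Function.comp_apply]
      refine (LinearMap.pi_apply_eq_sum_univ (L : (I → ℝ) →ₗ[ℝ] ℝ) _).trans ?_
      rw [← Equiv.sum_comp I.equivFin.symm]
      exact Finset.sum_congr rfl fun i _ => mul_comm _ _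
    rw [e, h]
  have h2 : μ.map (fun (f : CP) (x : ℝ) => f x) = ν.map fun (f : CP) (x : ℝ) => f x := by
    have a1 := isProjectiveLimit_map (P := μ) (X := fun (x : ℝ) (f : CP) => f x)
      measurable_coe.aemeasurable
    have a2 := isProjectiveLimit_map (P := ν) (X := fun (x : ℝ) (f : CP) => f x)
      measurable_coe.aemeasurable
    simp only [h1] at a1
    exact a1.unique a2
  ext s ⟨t, ht, rfl⟩
  rw [← Measure.map_apply measurable_coe ht, ← Measure.map_apply measurable_coe ht, h2]

variable {μ ν : Measure CP}

/-- The coordinate process is Gaussian. -/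
abbrev GP (μ : Measure CP) : Prop := IsGaussianProcess (fun (x : ℝ) (f : CP) => f x) μ

theorem GP.l2 (h : GP μ) (x : ℝ) : MemLp (fun f : CP => f x) 2 μ :=
  (h.hasGaussianLaw_eval x).memLp_two

theorem GP.int (h : GP μ) (x : ℝ) : Integrable (fun f : CP => f x) μ :=
  (h.hasGaussianLaw_eval x).integrable

theorem GP.law_sum (h : GP μ) {n : ℕ} (c x : Fin n → ℝ) :
    μ.map (fun f => ∑ i, c i * f (x i)) = gaussianReal (∑ i, c i * ∫ f, f (x i) ∂μ)
      (∑ i, ∑ j, c j * (c i * cov[fun f : CP => f (x i), fun f : CP => f (x j); μ])).toNNReal := by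
  have := h.isProbabilityMeasure
  have h1 : HasGaussianLaw (fun f : CP => ∑ i, c i * f (x i)) μ :=
    ((h.comp_right x).smul c).hasGaussianLaw_fun_sum (I := Finset.univ)
  rw [h1.map_eq_gaussianReal, integral_finsetSum _ fun i _ => (h.int (x i)).const_mul _,
    ← covariance_self h1.aemeasurable,
    covariance_fun_sum_fun_sum (fun i => (h.l2 (x i)).const_mul _)
      (fun i => (h.l2 (x i)).const_mul _)]
  simp only [integral_const_mul, covariance_const_mul_left, covariance_const_mul_right]

theorem GP.ext (h : GP μ) (h' : GP ν) (hm : ∀ x, ∫ f, f x ∂μ = ∫ f, f x ∂ν)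
    (hc : ∀ x y, cov[fun f : CP => f x, fun f : CP => f y; μ] =
      cov[fun f : CP => f x, fun f : CP => f y; ν]) : μ = ν := by
  have := h.isProbabilityMeasure
  have := h'.isProbabilityMeasure
  refine ext_lin μ ν fun n c x => ?_
  simp only [h.law_sum, h'.law_sum, hm, hc]

theorem GP.two {S : Type} (h : GP μ) (α β u v : S → ℝ) :
    IsGaussianProcess (fun (s : S) (f : CP) => α s * f (u s) + β s * f (v s)) μ := by
  classical
  exact h.of_isGaussianProcess fun s => ⟨{u s, v s},
    { toFun := fun x => α s * x ⟨u s, by simp⟩ + β s * x ⟨v s, by simp⟩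
      map_add' := fun x y => by simp only [Pi.add_apply]; ring
      map_smul' := fun c x => by simp only [Pi.smul_apply, smul_eq_mul, RingHom.id_apply]; ring },
    fun _ => rfl⟩

theorem gp_add {S : Type} {X : S → CP → ℝ} (h : IsGaussianProcess X μ) (d : S → ℝ) :
    IsGaussianProcess (fun s f => X s f + d s) μ := by
  refine ⟨fun I => ⟨?_⟩⟩
  have h1 := h.hasGaussianLaw I
  have := h1.isGaussian_map
  have e : (fun ω => I.restrict fun s => X s ω + d s) =
      (fun z => z + I.restrict d) ∘ fun ω => I.restrict fun s => X s ω := rfl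
  rw [e, ← AEMeasurable.map_map_of_aemeasurable (by fun_prop) h1.aemeasurable]
  infer_instance

theorem mean2 {a : ℝ} (h : IsBM μ a) (α β u v : ℝ) :
    ∫ f, (α * f u + β * f v) ∂μ = α * (a * u) + β * (a * v) := by
  rw [integral_add ((GP.int h.gauss u).const_mul _) ((GP.int h.gauss v).const_mul _),
    integral_const_mul, integral_const_mul, h.mean, h.mean]

theorem cov2 {a : ℝ} (h : IsBM μ a) (α β u v α' β' u' v' : ℝ) :
    cov[fun f : CP => α * f u + β * f v, fun f : CP => α' * f u' + β' * f v'; μ] =
      α * α' * kk u u' + α * β' * kk u v' + β * α' * kk v u' + β * β' * kk v v' := by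
  have := h.prob
  have l := fun c x => (GP.l2 h.gauss x).const_mul c
  have e1 := covariance_add_left (l α u) (l β v) ((l α' u').add (l β' v'))
  rw [covariance_add_right (l α u) (l α' u') (l β' v'),
    covariance_add_right (l β v) (l α' u') (l β' v')] at e1
  simp only [covariance_const_mul_left, covariance_const_mul_right, h.cov] at e1
  refine Eq.trans e1 ?_
  ring

theorem isBM_map {a a' : ℝ} (h : IsBM μ a) {F : CP → CP} (hF : Measurable F) (α β v : ℝ)
    (u d : ℝ → ℝ) (e : ∀ f x, F f x = α * f (u x) + β * f v + d x)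
    (hm : ∀ x, α * (a * u x) + β * (a * v) + d x = a' * x)
    (hc : ∀ x y, α * α * kk (u x) (u y) + α * β * kk (u x) v + β * α * kk v (u y) +
      β * β * kk v v = kk x y) : IsBM (μ.map F) a' := by
  have := h.prob
  have i2 : ∀ x, Integrable (fun f : CP => α * f (u x) + β * f v) μ := fun x =>
    ((GP.int h.gauss _).const_mul _).add ((GP.int h.gauss _).const_mul _)
  refine ⟨⟨fun I => ⟨?_⟩⟩, fun x => ?_, fun x y => ?_⟩
  · rw [Measure.map_map (meas_restrict I) hF]
    have := ((gp_add (GP.two h.gauss (fun _ => α) (fun _ => β) u fun _ => v) d).hasGaussianLaw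
      I).isGaussian_map
    simp only [← e] at this
    exact this
  · rw [integral_map hF.aemeasurable (measurable_ev x).aestronglyMeasurable]
    simp only [e]
    rw [integral_add (i2 x) (integrable_const _), mean2 h, integral_const, probReal_univ,
      one_smul, hm]
  · rw [covariance_map_fun (measurable_ev x).aestronglyMeasurable
      (measurable_ev y).aestronglyMeasurable hF.aemeasurable]
    simp only [e]
    rw [covariance_add_const_left (i2 x), covariance_add_const_right (i2 y), cov2 h, hc]

theorem law2 {a : ℝ} (h : IsBM μ a) (α β u v : ℝ) :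
    μ.map (fun f => α * f u + β * f v) = gaussianReal (α * (a * u) + β * (a * v))
      (α * α * kk u u + α * β * kk u v + β * α * kk v u + β * β * kk v v).toNNReal := by
  have h1 : HasGaussianLaw (fun f : CP => α * f u + β * f v) μ :=
    (GP.two (S := Unit) h.gauss (fun _ => α) (fun _ => β) (fun _ => u)
      fun _ => v).hasGaussianLaw_eval ()
  rw [h1.map_eq_gaussianReal, mean2 h, ← covariance_self h1.aemeasurable, cov2 h]

theorem indep {a : ℝ} (h : IsBM μ a) {F G : CP → CP} (u u' : ℝ → ℝ) (β v : ℝ)
    (eF : ∀ f x, F f x = 1 * f (u x) + 0 * f 0) (eG : ∀ f x, G f x = 1 * f (u' x) + β * f v)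
    (hc : ∀ x y, kk (u x) (u' y) + β * kk (u x) v = 0) : IndepFun F G μ := by
  have h1 : IndepFun (fun (f : CP) (x : ℝ) => 1 * f (u x) + 0 * f 0)
      (fun (f : CP) (x : ℝ) => 1 * f (u' x) + β * f v) μ := by
    refine IsGaussianProcess.indepFun_of_covariance_eq_zero
      (X := fun (x : ℝ) (f : CP) => 1 * f (u x) + 0 * f 0)
      (Y := fun (x : ℝ) (f : CP) => 1 * f (u' x) + β * f v) ?_ (fun x => ?_) (fun x => ?_)
      fun x y => ?_
    · have := GP.two (S := ℝ ⊕ ℝ) h.gauss (fun _ => 1) (Sum.elim (fun _ => 0) fun _ => β)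
        (Sum.elim u u') (Sum.elim (fun _ => 0) fun _ => v)
      convert this using 1
      funext s
      cases s <;> rfl
    · exact (((measurable_ev _).const_mul _).add ((measurable_ev _).const_mul _)).aemeasurable
    · exact (((measurable_ev _).const_mul _).add ((measurable_ev _).const_mul _)).aemeasurable
    · rw [cov2 h]
      linear_combination hc x y
  simp only [← eF, ← eG] at h1
  rw [indepFun_iff_measure_inter_preimage_eq_mul] at h1 ⊢
  rintro _ _ ⟨s, hs, rfl⟩ ⟨t, ht, rfl⟩
  exact h1 s t hs ht

theorem kk_shift (c x y : ℝ) :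
    1 * 1 * kk (c + x) (c + y) + 1 * -1 * kk (c + x) c + -1 * 1 * kk c (c + y) +
      -1 * -1 * kk c c = kk x y := by
  unfold kk
  have e1 : min (c + x) c = c + min x 0 := by rw [← min_add_add_left, add_zero]
  have e2 : min c (c + y) = c + min y 0 := by rw [min_comm, ← min_add_add_left, add_zero]
  rw [min_add_add_left, e1, e2, min_self]
  ring

theorem kk_neg (x y : ℝ) : kk (-x) (-y) = kk x y := by
  unfold kk
  simp only [min_def]
  split_ifs <;> linarith

theorem kk_mul {θ : ℝ} (hθ : 0 ≤ θ) (x y : ℝ) : kk (θ * x) (θ * y) = θ * kk x y := by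
  unfold kk
  have e : ∀ z, min (θ * z) 0 = θ * min z 0 := fun z => by rw [mul_min_of_nonneg _ _ hθ, mul_zero]
  rw [e, e, ← mul_min_of_nonneg _ _ hθ]
  ring

end Bm1A

open Bm1A in
theorem bm1 : Bm1 where
  ext_lin := ext_lin
  unique μ ν a h h' := GP.ext h.gauss h'.gauss (fun x => by rw [h.mean, h'.mean])
    fun x y => by rw [h.cov, h'.cov]
  unique_piece μ ν h h' := GP.ext h.gauss h'.gauss (fun x => by rw [h.mean, h'.mean])
    fun x y => by rw [h.cov, h'.cov]
  zero μ a h := by
    have h1 := law2 h 1 0 0 0
    simp only [kk, min_self, sub_self, mul_zero, zero_mul, add_zero, one_mul, Real.toNNReal_zero,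
      gaussianReal_zero_var] at h1
    refine ae_of_ae_map (f := fun f : CP => f 0) (p := fun z => z = 0)
      (measurable_ev 0).aemeasurable ?_
    rw [h1]
    simp
  law_sub μ a x y h hxy := by
    have h1 := law2 h 1 (-1) y x
    have e1 : (fun f : CP => 1 * f y + -1 * f x) = fun f => f y - f x := by
      funext f; ring
    have e2 : 1 * 1 * kk y y + 1 * -1 * kk y x + -1 * 1 * kk x y + -1 * -1 * kk x x = y - x := by
      unfold kk
      rw [min_self, min_self, min_eq_left hxy, min_eq_right hxy]
      ring
    rw [e1, e2] at h1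
    rw [h1]
    congr 1
    ring
  add_lin μ a b h := isBM_map h (by fun_prop) 1 0 0 id (fun x => b * x)
    (fun f x => by simp) (fun x => by simp only [id]; ring) fun x y => by simp
  shift μ a c h := isBM_map h (measurable_shift c) 1 (-1) c (fun x => c + x) (fun _ => 0)
    (fun f x => by rw [shift_apply]; ring) (fun x => by ring) (kk_shift c)
  rot μ a h := isBM_map h measurable_rot (-1) 0 0 (fun x => -x) (fun _ => 0)
    (fun f x => by simp) (fun x => by ring) fun x y => by rw [kk_neg]; ring
  neg μ a h := isBM_map h measurable_neg (-1) 0 0 id (fun _ => 0)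
    (fun f x => by simp) (fun x => by simp only [id]; ring) fun x y => by simp
  scale μ a θ hθ h := by
    have h0 : √θ ≠ 0 := (Real.sqrt_pos.2 hθ).ne'
    have h1 : √θ * √θ = θ := Real.mul_self_sqrt hθ.le
    refine isBM_map h (measurable_scale θ) (√θ)⁻¹ 0 0 (fun x => θ * x) (fun _ => 0)
      (fun f x => by rw [scale_apply]; ring) (fun x => ?_) fun x y => ?_
    · field_simp
      linear_combination (-(a * x)) * h1
    · rw [kk_mul hθ.le]
      field_simp
      linear_combination (-kk x y) * h1
  markov μ a c h hc := by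
    refine indep h (fun x => min x c) (fun x => c + max x 0) (-1) c (fun f x => by simp)
      (fun f x => by rw [fut_apply, shift_apply]; ring) fun x y => ?_
    have h1 : min x c ≤ c := min_le_right _ _
    have h2 : c ≤ c + max y 0 := le_add_of_nonneg_right (le_max_right _ _)
    unfold kk
    rw [min_eq_left (h1.trans h2), min_eq_left h1, min_eq_right (hc.trans h2), min_eq_right hc]
    ring
  past_fut μ a h := by
    have := h.prob
    refine (indepFun_iff_map_prod_eq_prod_map_map measurable_past.aemeasurable
      measurable_fut.aemeasurable).1 ?_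
    refine indep h (fun x => min x 0) (fun x => max x 0) 0 0 (fun f x => by simp)
      (fun f x => by simp) fun x y => ?_
    have h1 : min x 0 ≤ 0 := min_le_right _ _
    have h2 : 0 ≤ max y 0 := le_max_right _ _
    unfold kk
    rw [min_eq_left (h1.trans h2), min_eq_left h1, min_eq_right h2]
    ring

end Pool.Agent.MP_3d8edd_pr.H69
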