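import Pool.Agent.MP_3d8edd_pr.H69.Basic

/-!
Row BM2: increments of two-sided Brownian motion, the characterisation by increments, and the
rotation of an independent pair.
-/

open MeasureTheory ProbabilityTheory Set Filter
open scoped NNReal ENNReal Topology

namespace Pool.Agent.MP_3d8edd_pr.H69

namespace Bm2A

theorem memLp_ev {μ : Measure CP} {a : ℝ} (h : IsBM μ a) (x : ℝ) :
    MemLp (fun f : CP => f x) 2 μ := (h.gauss.hasGaussianLaw_eval x).memLp_two

theorem cov_incr {μ : Measure CP} {a : ℝ} (h : IsBM μ a) {u v w z : ℝ} (h1 : u ≤ v) (h2 : v ≤ w)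
    (h3 : w ≤ z) : cov[fun f : CP => f v - f u, fun f : CP => f z - f w; μ] = 0 := by
  have := h.prob
  rw [covariance_fun_sub_fun_sub (memLp_ev h v) (memLp_ev h u) (memLp_ev h z) (memLp_ev h w),
    h.cov, h.cov, h.cov, h.cov]
  unfold kk
  rw [min_eq_left (h2.trans h3), min_eq_left h2, min_eq_left (h1.trans (h2.trans h3)),
    min_eq_left (h1.trans h2)]
  ring

theorem incr (b1 : Bm1) (μ : Measure CP) (a : ℝ) (n : ℕ) (x : Fin (n + 1) → ℝ) (h : IsBM μ a)
    (hx : Monotone x) :
    μ.map (fun f (i : Fin n) => f (x i.succ) - f (x i.castSucc)) =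
      Measure.pi fun i : Fin n => gaussianReal (a * (x i.succ - x i.castSucc))
        (x i.succ - x i.castSucc).toNNReal := by
  have := h.prob
  have hG : HasGaussianLaw (fun (f : CP) (i : Fin n) => f (x i.succ) - f (x i.castSucc)) μ :=
    h.gauss.hasGaussianLaw_increments (t := x)
  have key : ∀ i j : Fin n, i < j →
      cov[fun f : CP => f (x i.succ) - f (x i.castSucc),
        fun f : CP => f (x j.succ) - f (x j.castSucc); μ] = 0 := by
    intro i j hij
    refine cov_incr h (hx (Fin.castSucc_lt_succ (i := i)).le) (hx ?_)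
      (hx (Fin.castSucc_lt_succ (i := j)).le)
    exact Fin.succ_le_castSucc_iff.2 (Fin.castSucc_lt_castSucc_iff.2 hij)
  have hI : iIndepFun (fun (i : Fin n) (f : CP) => f (x i.succ) - f (x i.castSucc)) μ := by
    refine HasGaussianLaw.iIndepFun_of_covariance_eq_zero hG fun i j hij => ?_
    rcases lt_or_gt_of_ne hij with h1 | h1
    · exact key i j h1
    · rw [covariance_comm]; exact key j i h1
  have hm : ∀ i : Fin n, AEMeasurable (fun f : CP => f (x i.succ) - f (x i.castSucc)) μ :=
    fun i => ((measurable_ev _).sub (measurable_ev _)).aemeasurable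
  have e := (iIndepFun_iff_map_fun_eq_pi_map hm).1 hI
  refine e.trans ?_
  congr 1
  funext i
  exact b1.law_sub μ a _ _ h (hx (Fin.castSucc_lt_succ (i := i)).le)

theorem measurable_ps {m : ℕ} (k : Fin (m + 1)) :
    Measurable fun d : Fin m → ℝ => Fin.partialSum d k := by
  induction k using Fin.induction with
  | zero => simp
  | succ k ih =>
    simp_rw [Fin.partialSum_succ]
    exact ih.add (measurable_pi_apply k)

theorem ps_incr {m : ℕ} (g : Fin (m + 1) → ℝ) (k : Fin (m + 1)) :
    Fin.partialSum (fun i : Fin m => g i.succ - g i.castSucc) k = g k - g 0 := by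
  induction k using Fin.induction with
  | zero => simp
  | succ k ih => rw [Fin.partialSum_succ, ih]; ring

theorem exists_sort {n : ℕ} (x : Fin n → ℝ) :
    ∃ (m : ℕ) (y : Fin (m + 1) → ℝ) (k0 : Fin (m + 1)) (k : Fin n → Fin (m + 1)),
      Monotone y ∧ y k0 = 0 ∧ ∀ i, y (k i) = x i := by
  classical
  let s : Finset ℝ := insert 0 (Finset.univ.image x)
  have hs : s.Nonempty := Finset.insert_nonempty _ _
  obtain ⟨m, hm⟩ : ∃ m, s.card = m + 1 := Nat.exists_eq_succ_of_ne_zero hs.card_pos.ne'
  have hr : ∀ p ∈ s, ∃ k, s.orderEmbOfFin hm k = p := by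
    intro p hp
    have : p ∈ range (s.orderEmbOfFin hm) := by
      rw [Finset.range_orderEmbOfFin]; exact hp
    exact this
  obtain ⟨k0, hk0⟩ := hr 0 (Finset.mem_insert_self _ _)
  have hr' : ∀ i, ∃ k, s.orderEmbOfFin hm k = x i := fun i =>
    hr _ (Finset.mem_insert_of_mem (Finset.mem_image_of_mem _ (Finset.mem_univ i)))
  choose k hk using hr'
  exact ⟨m, s.orderEmbOfFin hm, k0, k, (s.orderEmbOfFin hm).monotone, hk0, hk⟩

theorem of_incr (b1 : Bm1) (μ ν : Measure CP) [IsProbabilityMeasure ν] (a : ℝ) (h : IsBM μ a)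
    (h0 : ∀ᵐ f ∂ν, f 0 = 0)
    (hν : ∀ (n : ℕ) (x : Fin (n + 1) → ℝ), Monotone x →
      ν.map (fun f (i : Fin n) => f (x i.succ) - f (x i.castSucc)) =
        Measure.pi fun i : Fin n => gaussianReal (a * (x i.succ - x i.castSucc))
          (x i.succ - x i.castSucc).toNNReal) : ν = μ := by
  have := h.prob
  refine b1.ext_lin ν μ fun n c x => ?_
  obtain ⟨m, y, k0, k, hy, hk0, hk⟩ := exists_sort x
  let Φ : (Fin m → ℝ) → ℝ := fun d => ∑ i, c i * (Fin.partialSum d (k i) - Fin.partialSum d k0)
  have hΦ : Measurable Φ :=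
    Finset.measurable_sum _ fun i _ => ((measurable_ps _).sub (measurable_ps _)).const_mul _
  let D : CP → Fin m → ℝ := fun f i => f (y i.succ) - f (y i.castSucc)
  have hD : Measurable D :=
    measurable_pi_lambda _ fun i => (measurable_ev _).sub (measurable_ev _)
  have key : ∀ f : CP, f 0 = 0 → ∑ i, c i * f (x i) = (Φ ∘ D) f := by
    intro f hf
    refine Finset.sum_congr rfl fun i _ => ?_
    have e1 := ps_incr (fun j => f (y j)) (k i)
    have e2 := ps_incr (fun j => f (y j)) k0
    change _ = c i * (Fin.partialSum (fun i : Fin m => f (y i.succ) - f (y i.castSucc)) (k i) -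
      Fin.partialSum (fun i : Fin m => f (y i.succ) - f (y i.castSucc)) k0)
    rw [e1, e2, hk, hk0, hf]
    ring
  have e1 : ν.map (fun f => ∑ i, c i * f (x i)) = (ν.map D).map Φ := by
    rw [Measure.map_map hΦ hD]
    exact Measure.map_congr (h0.mono key)
  have e2 : μ.map (fun f => ∑ i, c i * f (x i)) = (μ.map D).map Φ := by
    rw [Measure.map_map hΦ hD]
    exact Measure.map_congr ((b1.zero μ a h).mono key)
  rw [e1, e2]
  congr 1
  exact (hν m y hy).trans (incr b1 μ a m y h hy).symm

/-- The law of a continuous Gaussian process with the right mean and covariance. -/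
theorem isBM_map {Ω : Type*} [MeasurableSpace Ω] {P : Measure Ω} {F : Ω → CP} (hF : Measurable F)
    {a : ℝ} (hG : IsGaussianProcess (fun (x : ℝ) (ω : Ω) => F ω x) P)
    (hm : ∀ x, ∫ ω, F ω x ∂P = a * x)
    (hc : ∀ x y, cov[fun ω => F ω x, fun ω => F ω y; P] = kk x y) : IsBM (P.map F) a where
  gauss := ⟨fun I => ⟨by
    have hI : Measurable fun f : CP => I.restrict fun x => f x :=
      measurable_pi_lambda _ fun x => measurable_ev _
    rw [Measure.map_map hI hF]
    exact (hG.hasGaussianLaw I).isGaussian_map⟩⟩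
  mean x := by
    rw [integral_map hF.aemeasurable (measurable_ev x).aestronglyMeasurable, hm]
  cov x y := by
    rw [covariance_map_fun (measurable_ev x).aestronglyMeasurable
      (measurable_ev y).aestronglyMeasurable hF.aemeasurable, hc]

section Pair

variable {μ ν : Measure CP} {a b : ℝ}

theorem gauss_pair (hμ : IsBM μ a) (hν : IsBM ν b) {S : Type*} (α β t : S → ℝ) :
    IsGaussianProcess (fun (s : S) (p : CP × CP) => α s * p.1 (t s) + β s * p.2 (t s))
      (μ.prod ν) := by
  classical
  have := hμ.prob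
  have := hν.prob
  refine ⟨fun I => ?_⟩
  let J : Finset ℝ := I.image t
  have hJ : Measurable fun f : CP => J.restrict fun x => f x :=
    measurable_pi_lambda _ fun x => measurable_ev _
  have hA : HasGaussianLaw (fun p : CP × CP => J.restrict fun x => p.1 x) (μ.prod ν) := ⟨by
    have e : (μ.prod ν).map (fun p : CP × CP => J.restrict fun x => p.1 x) =
        μ.map fun f : CP => J.restrict fun x => f x := by
      conv_rhs => rw [← (measurePreserving_fst (μ := μ) (ν := ν)).map_eq]
      rw [Measure.map_map hJ measurable_fst]; rfl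
    rw [e]
    exact (hμ.gauss.hasGaussianLaw J).isGaussian_map⟩
  have hB : HasGaussianLaw (fun p : CP × CP => J.restrict fun x => p.2 x) (μ.prod ν) := ⟨by
    have e : (μ.prod ν).map (fun p : CP × CP => J.restrict fun x => p.2 x) =
        ν.map fun f : CP => J.restrict fun x => f x := by
      conv_rhs => rw [← (measurePreserving_snd (μ := μ) (ν := ν)).map_eq]
      rw [Measure.map_map hJ measurable_snd]; rfl
    rw [e]
    exact (hν.gauss.hasGaussianLaw J).isGaussian_map⟩
  have hAB : IndepFun (fun p : CP × CP => J.restrict fun x => p.1 x)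
      (fun p : CP × CP => J.restrict fun x => p.2 x) (μ.prod ν) :=
    indepFun_prod hJ hJ
  have hG := hAB.hasGaussianLaw hA hB
  let L : ((J → ℝ) × (J → ℝ)) →L[ℝ] (I → ℝ) :=
    { toFun := fun u s => α s * u.1 ⟨t s, Finset.mem_image_of_mem _ s.2⟩ +
        β s * u.2 ⟨t s, Finset.mem_image_of_mem _ s.2⟩
      map_add' := fun u v => by ext s; simp; ring
      map_smul' := fun c u => by ext s; simp; ring }
  exact hG.map L

theorem mean_pair (hμ : IsBM μ a) (hν : IsBM ν b) (α β x : ℝ) :
    ∫ p : CP × CP, (α * p.1 x + β * p.2 x) ∂(μ.prod ν) = (α * a + β * b) * x := by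
  have := hμ.prob
  have := hν.prob
  have i1 : Integrable (fun p : CP × CP => p.1 x) (μ.prod ν) :=
    ((memLp_ev hμ x).comp_fst ν).integrable (by norm_num)
  have i2 : Integrable (fun p : CP × CP => p.2 x) (μ.prod ν) :=
    ((memLp_ev hν x).comp_snd μ).integrable (by norm_num)
  have e1 : ∫ p : CP × CP, p.1 x ∂(μ.prod ν) = a * x := by
    rw [← hμ.mean x, integral_fun_fst (fun f : CP => f x)]; simp
  have e2 : ∫ p : CP × CP, p.2 x ∂(μ.prod ν) = b * x := by
    rw [← hν.mean x, integral_fun_snd (fun f : CP => f x)]; simp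
  rw [integral_add (i1.const_mul α) (i2.const_mul β), integral_const_mul, integral_const_mul,
    e1, e2]
  ring

theorem cov_pair (hμ : IsBM μ a) (hν : IsBM ν b) (α β γ δ x y : ℝ) :
    cov[fun p : CP × CP => α * p.1 x + β * p.2 x, fun p : CP × CP => γ * p.1 y + δ * p.2 y;
      μ.prod ν] = (α * γ + β * δ) * kk x y := by
  have := hμ.prob
  have := hν.prob
  have m1 : ∀ z, MemLp (fun p : CP × CP => p.1 z) 2 (μ.prod ν) := fun z =>
    (memLp_ev hμ z).comp_fst ν
  have m2 : ∀ z, MemLp (fun p : CP × CP => p.2 z) 2 (μ.prod ν) := fun z =>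
    (memLp_ev hν z).comp_snd μ
  have c11 : cov[fun p : CP × CP => p.1 x, fun p : CP × CP => p.1 y; μ.prod ν] = kk x y := by
    rw [← hμ.cov x y]
    conv_rhs => rw [← (measurePreserving_fst (μ := μ) (ν := ν)).map_eq]
    rw [covariance_map_fun (measurable_ev x).aestronglyMeasurable
      (measurable_ev y).aestronglyMeasurable measurable_fst.aemeasurable]
  have c22 : cov[fun p : CP × CP => p.2 x, fun p : CP × CP => p.2 y; μ.prod ν] = kk x y := by
    rw [← hν.cov x y]
    conv_rhs => rw [← (measurePreserving_snd (μ := μ) (ν := ν)).map_eq]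
    rw [covariance_map_fun (measurable_ev x).aestronglyMeasurable
      (measurable_ev y).aestronglyMeasurable measurable_snd.aemeasurable]
  have c12 : cov[fun p : CP × CP => p.1 x, fun p : CP × CP => p.2 y; μ.prod ν] = 0 :=
    covariance_fst_snd_prod (memLp_ev hμ x) (memLp_ev hν y)
  have c21 : cov[fun p : CP × CP => p.2 x, fun p : CP × CP => p.1 y; μ.prod ν] = 0 := by
    rw [covariance_comm]
    exact covariance_fst_snd_prod (memLp_ev hμ y) (memLp_ev hν x)
  have e1 := covariance_add_left ((m1 x).const_mul α) ((m2 x).const_mul β)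
    (((m1 y).const_mul γ).add ((m2 y).const_mul δ))
  rw [covariance_add_right ((m1 x).const_mul α) ((m1 y).const_mul γ) ((m2 y).const_mul δ),
    covariance_add_right ((m2 x).const_mul β) ((m1 y).const_mul γ) ((m2 y).const_mul δ)] at e1
  simp only [covariance_const_mul_left, covariance_const_mul_right, c11, c22, c12, c21] at e1
  refine Eq.trans e1 ?_
  ring

theorem pair (hμ : IsBM μ a) (hν : IsBM ν b) : ∃ μ' ν', IsBM μ' ((a - b) / √2) ∧
    IsBM ν' ((a + b) / √2) ∧
    (μ.prod ν).map (fun p => ((√2)⁻¹ • (p.1 - p.2), (√2)⁻¹ • (p.1 + p.2))) = μ'.prod ν' := by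
  have := hμ.prob
  have := hν.prob
  set c : ℝ := (√2)⁻¹ with hc
  have hcc : c * c + c * c = 1 := by
    rw [hc, ← mul_inv, Real.mul_self_sqrt (by norm_num)]; norm_num
  let U : CP × CP → CP := fun p => c • (p.1 - p.2)
  let V : CP × CP → CP := fun p => c • (p.1 + p.2)
  have hU : Measurable U := by unfold U; fun_prop
  have hV : Measurable V := by unfold V; fun_prop
  have eU : ∀ p x, U p x = c * p.1 x + (-c) * p.2 x := fun p x => by
    change c * (p.1 x - p.2 x) = _; ring
  have eV : ∀ p x, V p x = c * p.1 x + c * p.2 x := fun p x => by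
    change c * (p.1 x + p.2 x) = _; ring
  refine ⟨(μ.prod ν).map U, (μ.prod ν).map V, ?_, ?_, ?_⟩
  · refine isBM_map hU ?_ (fun x => ?_) fun x y => ?_
    · simp_rw [eU]
      exact gauss_pair hμ hν (fun _ => c) (fun _ => -c) id
    · simp_rw [eU]
      rw [mean_pair hμ hν, div_eq_mul_inv, ← hc]; ring
    · simp_rw [eU]
      rw [cov_pair hμ hν, neg_mul_neg, hcc, one_mul]
  · refine isBM_map hV ?_ (fun x => ?_) fun x y => ?_
    · simp_rw [eV]
      exact gauss_pair hμ hν (fun _ => c) (fun _ => c) id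
    · simp_rw [eV]
      rw [mean_pair hμ hν, div_eq_mul_inv, ← hc]; ring
    · simp_rw [eV]
      rw [cov_pair hμ hν, hcc, one_mul]
  · have hG : IsGaussianProcess
        (Sum.elim (fun (x : ℝ) (p : CP × CP) => U p x) (fun (x : ℝ) (p : CP × CP) => V p x))
        (μ.prod ν) := by
      have := gauss_pair hμ hν (S := ℝ ⊕ ℝ) (fun _ => c) (Sum.elim (fun _ => -c) fun _ => c)
        (Sum.elim id id)
      refine this.congr fun s => Eventually.of_forall fun p => ?_
      rcases s with x | x
      · exact (eU p x).symm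
      · exact (eV p x).symm
    have hI : IndepFun (fun (p : CP × CP) (x : ℝ) => U p x) (fun (p : CP × CP) (x : ℝ) => V p x)
        (μ.prod ν) := by
      refine hG.indepFun_of_covariance_eq_zero (fun x => (Measurable.ev hU x).aemeasurable)
        (fun x => (Measurable.ev hV x).aemeasurable) fun x y => ?_
      simp_rw [eU, eV]
      rw [cov_pair hμ hν]; ring
    have hI' : IndepFun U V (μ.prod ν) := by
      rw [IndepFun_iff_Indep] at hI ⊢
      unfold pathMS
      rw [MeasurableSpace.comap_comp, MeasurableSpace.comap_comp]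
      exact hI
    exact (indepFun_iff_map_prod_eq_prod_map_map hU.aemeasurable hV.aemeasurable).1 hI'

end Pair

end Bm2A

theorem bm2 (b1 : Bm1) : Bm2 where
  incr μ a n x h hx := Bm2A.incr b1 μ a n x h hx
  of_incr μ ν _ a h h0 hν := Bm2A.of_incr b1 μ ν a h h0 hν
  pair _ _ _ _ hμ hν := Bm2A.pair hμ hν

end Pool.Agent.MP_3d8edd_pr.H69
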