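import Pool.Agent.MP_3d8edd_pr.H69.Basic

/-!
Row BURKE: the Brownian Burke theorem from the two-sided Pitman theorem.
-/

open MeasureTheory ProbabilityTheory Set Filter
open scoped NNReal ENNReal Topology Pointwise

namespace Pool.Agent.MP_3d8edd_pr.H69

namespace BurkeA

/-- The rotation of a pair of paths. -/
noncomputable def Ro (p : CP × CP) : CP × CP := ((√2)⁻¹ • (p.1 - p.2), (√2)⁻¹ • (p.1 + p.2))

/-- The inverse rotation. -/
noncomputable def Ri (p : CP × CP) : CP × CP := ((√2)⁻¹ • (p.1 + p.2), (√2)⁻¹ • (p.2 - p.1))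

theorem measurable_Ro : Measurable Ro := by unfold Ro; fun_prop

theorem measurable_Ri : Measurable Ri := by unfold Ri; fun_prop

theorem cc : (√2)⁻¹ * (√2)⁻¹ = (2 : ℝ)⁻¹ := by
  rw [← mul_inv, Real.mul_self_sqrt (by norm_num)]

theorem c2 : (√2 : ℝ) = 2 * (√2)⁻¹ := by
  have h : (√2 : ℝ) ≠ 0 := by positivity
  field_simp
  rw [Real.sq_sqrt (by norm_num)]

theorem Ri_Ro (p : CP × CP) : Ri (Ro p) = p := by
  refine Prod.ext ?_ ?_
  · ext x
    simp only [Ri, Ro, ContinuousMap.smul_apply, ContinuousMap.add_apply,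
      ContinuousMap.sub_apply, smul_eq_mul]
    linear_combination (2 * p.1 x) * cc
  · ext x
    simp only [Ri, Ro, ContinuousMap.smul_apply, ContinuousMap.add_apply,
      ContinuousMap.sub_apply, smul_eq_mul]
    linear_combination (2 * p.2 x) * cc

theorem image_smul (c : ℝ) (g : CP) (s : Set ℝ) : (c • g : CP) '' s = c • (g '' s) := by
  rw [← Set.image_smul, Set.image_image]
  rfl

theorem rmax_smul {c : ℝ} (hc : 0 ≤ c) (g : CP) (x : ℝ) : rmax (c • g) x = c * rmax g x := by
  rw [rmax_eq, rmax_eq, image_smul, Real.sSup_smul_of_nonneg hc, smul_eq_mul]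

theorem rmax_sub (p : CP × CP) (x : ℝ) : rmax (p.1 - p.2) x = √2 * rmax (Ro p).1 x := by
  have h : (√2 : ℝ) ≠ 0 := by positivity
  change _ = √2 * rmax ((√2)⁻¹ • (p.1 - p.2)) x
  rw [rmax_smul (by positivity), ← mul_assoc, mul_inv_cancel₀ h, one_mul]

theorem qD_eq (p : CP × CP) : qD p.1 p.2 = (√2)⁻¹ • (pit (Ro p).1 + (Ro p).2) := by
  ext x
  rw [qD_apply, rmax_sub, rmax_sub]
  simp only [ContinuousMap.smul_apply, ContinuousMap.add_apply, pit_apply, smul_eq_mul]
  generalize rmax (Ro p).1 x = A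
  generalize rmax (Ro p).1 0 = B
  simp only [Ro, ContinuousMap.smul_apply, ContinuousMap.add_apply,
    ContinuousMap.sub_apply, smul_eq_mul]
  linear_combination (A - B) * c2 - (2 * p.2 x) * cc

theorem qR_eq (p : CP × CP) : qR p.1 p.2 = (√2)⁻¹ • ((Ro p).2 - pit (Ro p).1) := by
  ext x
  rw [qR_apply, rmax_sub, rmax_sub]
  simp only [ContinuousMap.smul_apply, ContinuousMap.sub_apply, pit_apply, smul_eq_mul]
  generalize rmax (Ro p).1 x = A
  generalize rmax (Ro p).1 0 = B
  simp only [Ro, ContinuousMap.smul_apply, ContinuousMap.add_apply,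
    ContinuousMap.sub_apply, smul_eq_mul]
  linear_combination (B - A) * c2 - (2 * p.1 x) * cc

theorem exp_scale {r c : ℝ} (hr : 0 < r) (hc : 0 < c) :
    (expMeasure (c * r)).map (fun x => c * x) = expMeasure r := by
  have hcr : 0 < c * r := mul_pos hc hr
  have := isProbabilityMeasure_expMeasure hr
  have := isProbabilityMeasure_expMeasure hcr
  have hm : Measurable fun x : ℝ => c * x := by fun_prop
  have := Measure.isProbabilityMeasure_map (μ := expMeasure (c * r)) hm.aemeasurable
  refine Measure.ext_of_Iic _ _ fun x => ?_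
  have e : (fun y : ℝ => c * y) ⁻¹' Iic x = Iic (x / c) := by
    ext y
    simp only [mem_preimage, mem_Iic]
    rw [le_div_iff₀ hc, mul_comm]
  rw [Measure.map_apply hm measurableSet_Iic, e, ← ofReal_cdf, ← ofReal_cdf,
    cdf_expMeasure_eq hr, cdf_expMeasure_eq hcr]
  have e1 : c * r * (x / c) = r * x := by field_simp
  have e2 : 0 ≤ x / c ↔ 0 ≤ x := by
    rw [le_div_iff₀ hc, zero_mul]
  simp only [e1, e2]

end BurkeA

open BurkeA in
theorem burke (b2 : Bm2) (s : SupStmt) (p : PitStmt) : BurkeStmt := by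
  intro μ ν a b hμ hν hab
  obtain ⟨μ', ν', hμ', hν', hmap⟩ := b2.pair μ ν a b hμ hν
  have := hμ.prob
  have := hν.prob
  have := hμ'.prob
  have := hν'.prob
  have hs2 : (0 : ℝ) < √2 := by positivity
  have ha' : 0 < (a - b) / √2 := div_pos (sub_pos.2 hab) hs2
  have hRo : MeasurePreserving Ro (μ.prod ν) (μ'.prod ν') := ⟨measurable_Ro, hmap⟩
  have hRi : MeasurePreserving Ri (μ'.prod ν') (μ.prod ν) := by
    refine ⟨measurable_Ri, ?_⟩
    rw [← hRo.map_eq, Measure.map_map measurable_Ri measurable_Ro]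
    have : Ri ∘ Ro = id := funext Ri_Ro
    rw [this, Measure.map_id]
  obtain ⟨hp1, hp2⟩ := p μ' _ hμ' ha'
  refine ⟨?_, ?_, ?_⟩
  · have h1 := (s μ' _ hμ' ha').1
    have h2 : MeasurePreserving (fun q : CP × CP => (Ro q).1) (μ.prod ν) μ' :=
      (measurePreserving_fst (μ := μ') (ν := ν')).comp hRo
    filter_upwards [h2.quasiMeasurePreserving.ae h1] with q hq
    obtain ⟨M, hM⟩ := hq
    refine ⟨√2 * M, ?_⟩
    rintro _ ⟨z, hz, rfl⟩
    have h3 : (√2)⁻¹ * (q.1 - q.2) z ≤ M := hM ⟨z, hz, rfl⟩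
    rwa [inv_mul_le_iff₀ hs2] at h3
  · have h1 : MeasurePreserving (Prod.map pit id) (μ'.prod ν') (μ'.prod ν') :=
      MeasurePreserving.prod ⟨measurable_pit, hp1⟩ (MeasurePreserving.id ν')
    have h2 := (hRi.comp (h1.comp hRo)).map_eq
    rw [← h2]
    congr 1
    funext q
    exact Prod.ext (qD_eq q) (qR_eq q)
  · have hE := isProbabilityMeasure_expMeasure (mul_pos two_pos ha')
    have hpa : MeasurePreserving past μ' (μ'.map past) := ⟨measurable_past, rfl⟩
    have hpb : MeasurePreserving past ν' (ν'.map past) := ⟨measurable_past, rfl⟩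
    have h1 : MeasurePreserving (Prod.map (fun g : CP => (rmax g 0, past (pit g))) past)
        (μ'.prod ν') (((expMeasure (2 * ((a - b) / √2))).prod (μ'.map past)).prod (ν'.map past)) :=
      MeasurePreserving.prod ⟨by fun_prop, hp2⟩ hpb
    have h2 : MeasurePreserving MeasurableEquiv.prodAssoc
        (((expMeasure (2 * ((a - b) / √2))).prod (μ'.map past)).prod (ν'.map past))
        ((expMeasure (2 * ((a - b) / √2))).prod ((μ'.map past).prod (ν'.map past))) :=
      ⟨MeasurableEquiv.prodAssoc.measurable, Measure.prodAssoc_prod⟩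
    have h3 : MeasurePreserving (fun x : ℝ => √2 * x) (expMeasure (2 * ((a - b) / √2)))
        (expMeasure (a - b)) := by
      refine ⟨by fun_prop, ?_⟩
      have e : 2 * ((a - b) / √2) = √2 * (a - b) := by
        rw [div_eq_mul_inv]
        linear_combination (b - a) * c2
      rw [e]
      exact exp_scale (sub_pos.2 hab) hs2
    have hm : Measurable fun q : CP × CP => (Ri q).1 := measurable_Ri.fst
    have h4 : MeasurePreserving (fun q : CP × CP => (Ri q).1) ((μ'.map past).prod (ν'.map past))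
        (μ.map past) := by
      refine ⟨hm, ?_⟩
      have h5 : MeasurePreserving (fun q : CP × CP => past (Ri q).1) (μ'.prod ν') (μ.map past) :=
        (⟨measurable_past, rfl⟩ : MeasurePreserving past μ (μ.map past)).comp
          ((measurePreserving_fst (μ := μ) (ν := ν)).comp hRi)
      rw [← (hpa.prod hpb).map_eq, Measure.map_map hm (measurable_past.prodMap measurable_past),
        ← h5.map_eq]
      rfl
    have h6 := ((h3.prod h4).comp (h2.comp (h1.comp hRo))).map_eq
    rw [← h6]
    congr 1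
    funext q
    refine Prod.ext (rmax_sub q 0) ?_
    change past (qD q.1 q.2) = _
    rw [qD_eq]
    rfl

end Pool.Agent.MP_3d8edd_pr.H69
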