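import Pool.Agent.MP_3d8edd_pr.H69.Basic

/-!
The Cameron-Martin formula for a drift on `[0, y]`.
-/

open MeasureTheory ProbabilityTheory Set Filter
open scoped NNReal ENNReal Topology

namespace Pool.Agent.MP_3d8edd_pr.H69

namespace CMA

/-- A law with a Gaussian moment generating function is Gaussian. -/
lemma eq_of_mgf {Ω Ω' : Type*} [MeasurableSpace Ω] [MeasurableSpace Ω'] (P : Measure Ω)
    (Q : Measure Ω') [IsProbabilityMeasure P] [IsProbabilityMeasure Q] (X : Ω → ℝ) (Y : Ω' → ℝ)
    (hX : Measurable X) (hY : Measurable Y) (hint : ∀ t, Integrable (fun ω => Real.exp (t * X ω)) P)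
    (h : mgf X P = mgf Y Q) : P.map X = Q.map Y := by
  refine Measure.ext_of_complexMGF_eq hX.aemeasurable hY.aemeasurable ?_
  have h1 := eqOn_complexMGF_of_mgf h
  have h2 : integrableExpSet X P = univ := eq_univ_of_forall hint
  funext z
  exact h1 (by simp [h2])

lemma gauss_exp {Ω : Type*} [MeasurableSpace Ω] {P : Measure Ω} {X : Ω → ℝ}
    (h : HasGaussianLaw X P) :
    Integrable (fun ω => Real.exp (X ω)) P ∧
      ∫ ω, Real.exp (X ω) ∂P = Real.exp (∫ ω, X ω ∂P + Var[X; P] / 2) := by
  have := h.isProbabilityMeasure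
  have h1 := mgf_gaussianReal h.map_eq_gaussianReal 1
  have h2 : mgf X P 1 = ∫ ω, Real.exp (X ω) ∂P := by simp [mgf]
  rw [h2, Real.coe_toNNReal _ (variance_nonneg _ _)] at h1
  refine ⟨?_, by simpa using h1⟩
  by_contra hc
  rw [integral_undef hc] at h1
  exact (Real.exp_pos _).ne h1

lemma gauss_lin {μ : Measure CP} {a : ℝ} (h : IsBM μ a) {ι : Type} [Fintype ι] (c x : ι → ℝ) :
    HasGaussianLaw (fun f : CP => ∑ i, c i * f (x i)) μ := by
  have h1 := ((h.gauss.comp_right x).smul c).hasGaussianLaw_fun_sum (I := Finset.univ)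
  simpa using h1

lemma kk_clamp (x y : ℝ) (hy : 0 ≤ y) : kk x y = clamp y x := by
  unfold kk
  rw [clamp_apply, min_eq_right hy]
  rcases le_total x 0 with h | h
  · rw [min_eq_left h, min_eq_left (h.trans hy), max_eq_left h]; ring
  · rw [min_eq_right h, max_eq_right (le_min h hy)]; ring

lemma key {μ : Measure CP} {a : ℝ} (h : IsBM μ a) {y : ℝ} (hy : 0 ≤ y) (c : ℝ) {n : ℕ}
    (e x : Fin n → ℝ) :
    Integrable (fun f : CP => Real.exp (c * (f y - a * y) - c ^ 2 * y / 2) *
      Real.exp (∑ i, e i * f (x i))) μ ∧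
    ∫ f : CP, Real.exp (c * (f y - a * y) - c ^ 2 * y / 2) * Real.exp (∑ i, e i * f (x i)) ∂μ =
      ∫ f : CP, Real.exp (∑ i, e i * (f (x i) + c * clamp y (x i))) ∂μ := by
  have := h.prob
  set L : CP → ℝ := fun f => ∑ i, e i * f (x i) with hL
  have gL : HasGaussianLaw L μ := gauss_lin h e x
  have gY : HasGaussianLaw (fun f : CP => f y) μ := h.gauss.hasGaussianLaw_eval y
  have gS : HasGaussianLaw (fun f : CP => L f + c * f y) μ := by
    have := gauss_lin h (ι := Option (Fin n)) (fun o => o.elim c e) (fun o => o.elim y x)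
    simpa [Fintype.sum_option, add_comm] using this
  obtain ⟨i1, e1⟩ := gauss_exp gS
  obtain ⟨-, e2⟩ := gauss_exp gL
  have hm : ∫ f : CP, (L f + c * f y) ∂μ = ∫ f, L f ∂μ + c * (a * y) := by
    rw [integral_add gL.integrable (gY.integrable.const_mul c), integral_const_mul, h.mean]
  have hcov : cov[L, fun f : CP => f y; μ] = ∑ i, e i * clamp y (x i) := by
    rw [hL, covariance_fun_sum_left' (fun i _ =>
      (h.gauss.hasGaussianLaw_eval (x i)).memLp_two.const_mul (e i)) gY.memLp_two]
    refine Finset.sum_congr rfl fun i _ => ?_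
    rw [covariance_const_mul_left, h.cov, kk_clamp _ _ hy]
  have hvy : Var[fun f : CP => f y; μ] = y := by
    rw [← covariance_self gY.aemeasurable, h.cov, kk_clamp _ _ hy, clamp_apply, min_self,
      max_eq_right hy]
  have hv : Var[fun f : CP => L f + c * f y; μ] =
      Var[L; μ] + 2 * (c * ∑ i, e i * clamp y (x i)) + c ^ 2 * y := by
    rw [variance_fun_add gL.memLp_two (gY.memLp_two.const_mul c), covariance_const_mul_right,
      variance_const_mul, hvy]
    rw [← hcov]
  have e3 : ∀ f : CP, Real.exp (c * (f y - a * y) - c ^ 2 * y / 2) * Real.exp (L f) =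
      Real.exp (-(c * (a * y)) - c ^ 2 * y / 2) * Real.exp (L f + c * f y) := by
    intro f
    rw [← Real.exp_add, ← Real.exp_add]; congr 1; ring
  have e4 : ∀ f : CP, Real.exp (∑ i, e i * (f (x i) + c * clamp y (x i))) =
      Real.exp (c * ∑ i, e i * clamp y (x i)) * Real.exp (L f) := by
    intro f
    rw [← Real.exp_add, hL]; congr 1
    simp only [mul_add, Finset.sum_add_distrib, Finset.mul_sum]
    rw [add_comm]; congr 1
    exact Finset.sum_congr rfl fun i _ => by ring
  refine ⟨?_, ?_⟩
  · exact (i1.const_mul _).congr (ae_of_all _ fun f => (e3 f).symm)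
  · rw [integral_congr_ae (ae_of_all _ e3), integral_congr_ae (ae_of_all _ e4),
      integral_const_mul, integral_const_mul, e1, e2, hm, hv, ← Real.exp_add, ← Real.exp_add]
    congr 1; ring

end CMA

open CMA in
theorem cm (b1 : Bm1) : CMStmt := by
  intro μ a c y h hy
  have := h.prob
  have mT : Measurable fun f : CP => f + c • clamp y := by fun_prop
  have mD : Measurable fun f : CP => Real.exp (c * (f y - a * y) - c ^ 2 * y / 2) := by fun_prop
  have mD' : Measurable fun f : CP =>
      ENNReal.ofReal (Real.exp (c * (f y - a * y) - c ^ 2 * y / 2)) := mD.ennreal_ofReal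
  have p1 : IsProbabilityMeasure (μ.map fun f => f + c • clamp y) :=
    Measure.isProbabilityMeasure_map mT.aemeasurable
  have p2 : IsProbabilityMeasure (μ.withDensity fun f =>
      ENNReal.ofReal (Real.exp (c * (f y - a * y) - c ^ 2 * y / 2))) := by
    constructor
    obtain ⟨i0, e0⟩ := key h hy c (n := 0) (fun _ => 0) (fun _ => 0)
    simp only [Finset.univ_eq_empty, Finset.sum_empty, Real.exp_zero, mul_one] at i0 e0
    rw [withDensity_apply _ MeasurableSet.univ, Measure.restrict_univ,
      ← ofReal_integral_eq_lintegral_ofReal i0 (ae_of_all _ fun f => (Real.exp_pos _).le), e0]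
    simp
  refine b1.ext_lin _ _ fun n e x => ?_
  have mL : Measurable fun f : CP => ∑ i, e i * f (x i) := by fun_prop
  symm
  refine eq_of_mgf _ _ _ _ mL mL (fun t => ?_) ?_
  · rw [integrable_withDensity_iff_integrable_smul' mD' (ae_of_all _ fun f => ENNReal.ofReal_lt_top)]
    have := (key h hy c (fun i => t * e i) x).1
    refine this.congr (ae_of_all _ fun f => ?_)
    simp only [ENNReal.toReal_ofReal (Real.exp_pos _).le, smul_eq_mul, Finset.mul_sum, mul_assoc]
  · funext t
    unfold mgf
    rw [integral_withDensity_eq_integral_toReal_smul mD'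
      (ae_of_all _ fun f => ENNReal.ofReal_lt_top), integral_map mT.aemeasurable
        (mL.const_mul t).exp.aestronglyMeasurable]
    have := (key h hy c (fun i => t * e i) x).2
    simp only [ENNReal.toReal_ofReal (Real.exp_pos _).le, smul_eq_mul, Finset.mul_sum,
      ContinuousMap.add_apply, ContinuousMap.smul_apply, ← mul_assoc] at this ⊢
    exact this

end Pool.Agent.MP_3d8edd_pr.H69
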