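import Pool.Agent.MP_3d8edd_pr.H69.Basic

/-! Concatenation of independent unit pieces gives two-sided Brownian motion. -/

open MeasureTheory ProbabilityTheory Set Filter
open scoped NNReal ENNReal Topology

namespace Pool.Agent.MP_3d8edd_pr.H69

namespace CatA

theorem cl_of_le {v : ℝ} (h : v ≤ 0) : cl v = 0 := max_eq_left (min_le_of_left_le h)

theorem cl_of_ge {v : ℝ} (h : 1 ≤ v) : cl v = 1 := by
  rw [cl, min_eq_right h, max_eq_right zero_le_one]

theorem cl_of_mem {v : ℝ} (h0 : 0 ≤ v) (h1 : v ≤ 1) : cl v = v := by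
  rw [cl, min_eq_left h1, max_eq_right h0]

theorem cl_nonneg (v : ℝ) : 0 ≤ cl v := le_max_left _ _

theorem cl_mono : Monotone cl := fun _ _ h => max_le_max le_rfl (min_le_min h le_rfl)

theorem supp (g : ℤ → CP) {a b : ℤ} {x y : ℝ} (hx : x ∈ Icc (a : ℝ) b) (hy : y ∈ Icc (a : ℝ) b) :
    (Function.support fun i : ℤ => g i (cl (y - i)) - g i (cl (x - i))) ⊆ Finset.Ico a b := by
  intro i hi
  by_contra h
  apply hi
  rw [Finset.coe_Ico, mem_Ico, not_and_or, not_le, not_lt] at h
  have : cl (y - i) = cl (x - i) := by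
    rcases h with h | h
    · have : (i : ℝ) + 1 ≤ a := by exact_mod_cast h
      rw [cl_of_ge (by linarith [hy.1]), cl_of_ge (by linarith [hx.1])]
    · have : (b : ℝ) ≤ i := by exact_mod_cast h
      rw [cl_of_le (by linarith [hy.2]), cl_of_le (by linarith [hx.2])]
  simp only [this, sub_self]

theorem exists_box (I : Finset ℝ) :
    ∃ a b : ℤ, (0 : ℝ) ∈ Icc (a : ℝ) b ∧ ∀ x ∈ I, x ∈ Icc (a : ℝ) b := by
  obtain ⟨n, hn⟩ := exists_nat_ge (∑ x ∈ I, |x|)
  refine ⟨-n, n, ⟨by simp, by simp⟩, fun x hx => ?_⟩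
  have := (Finset.single_le_sum (f := fun x : ℝ => |x|) (fun _ _ => abs_nonneg _) hx).trans hn
  simpa using abs_le.1 this

theorem cat_eq (g : ℤ → CP) {a b : ℤ} {x : ℝ} (h0 : (0 : ℝ) ∈ Icc (a : ℝ) b)
    (hx : x ∈ Icc (a : ℝ) b) :
    cat g x = ∑ i ∈ Finset.Ico a b, (g i (cl (x - i)) - g i (cl (-i))) := by
  rw [cat_apply]
  exact finsum_eq_sum_of_support_subset _ (by simpa only [zero_sub] using supp g h0 hx)

theorem cat_sub (g : ℤ → CP) {a b : ℤ} {x y : ℝ} (hx : x ∈ Icc (a : ℝ) b)
    (hy : y ∈ Icc (a : ℝ) b) :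
    cat g y - cat g x = ∑ i ∈ Finset.Ico a b, (g i (cl (y - i)) - g i (cl (x - i))) := by
  obtain ⟨a', b', h0, h⟩ := exists_box {x, y}
  rw [cat_eq g h0 (h x (by simp)), cat_eq g h0 (h y (by simp)), ← Finset.sum_sub_distrib,
    ← finsum_eq_sum_of_support_subset _ (supp g hx hy),
    finsum_eq_sum_of_support_subset _ (supp g (h x (by simp)) (h y (by simp)))]
  exact Finset.sum_congr rfl fun i _ => by ring

theorem incr (g : ℤ → CP) (i : ℤ) (s : ℝ) (h0 : 0 ≤ s) (h1 : s ≤ 1) :
    cat g (i + s) - cat g i = g i s - g i 0 := by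
  rw [cat_sub g (a := i) (b := i + 1) ⟨le_rfl, by simp⟩ ⟨by linarith, by push_cast; linarith⟩,
    show Finset.Ico i (i + 1) = {i} by ext; simp; omega, Finset.sum_singleton, add_sub_cancel_left, sub_self,
    cl_of_mem h0 h1, cl_of_le le_rfl]

theorem cat_int (g : ℤ → CP) (n : ℤ) : cat g n = ∑ i ∈ Finset.Ico 0 n, (g i 1 - g i 0) -
    ∑ i ∈ Finset.Ico n 0, (g i 1 - g i 0) := by
  rcases le_total 0 n with h | h
  · have h' : (0 : ℝ) ≤ n := by exact_mod_cast h
    rw [cat_eq g (a := 0) (b := n) ⟨by simp, h'⟩ ⟨by simpa using h, le_rfl⟩,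
      Finset.Ico_eq_empty_of_le h, Finset.sum_empty, sub_zero]
    refine Finset.sum_congr rfl fun i hi => ?_
    obtain ⟨h1, h2⟩ := Finset.mem_Ico.1 hi
    have h3 : (0 : ℝ) ≤ i := by exact_mod_cast h1
    have h4 : (i : ℝ) + 1 ≤ n := by exact_mod_cast h2
    rw [cl_of_ge (by linarith), cl_of_le (by linarith)]
  · have h' : (n : ℝ) ≤ 0 := by exact_mod_cast h
    rw [cat_eq g (a := n) (b := 0) ⟨h', by simp⟩ ⟨le_rfl, by simpa using h⟩,
      Finset.Ico_eq_empty_of_le h, Finset.sum_empty, zero_sub, ← Finset.sum_neg_distrib]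
    refine Finset.sum_congr rfl fun i hi => ?_
    obtain ⟨h1, h2⟩ := Finset.mem_Ico.1 hi
    have h3 : (n : ℝ) ≤ i := by exact_mod_cast h1
    have h4 : (i : ℝ) + 1 ≤ 0 := by exact_mod_cast h2
    rw [cl_of_le (by linarith), cl_of_ge (by linarith), neg_sub]

theorem cat_floor (g : ℤ → CP) (x : ℝ) :
    cat g x = cat g ⌊x⌋ + (g ⌊x⌋ (Int.fract x) - g ⌊x⌋ 0) := by
  rw [← incr g _ _ (Int.fract_nonneg x) (Int.fract_lt_one x).le, Int.floor_add_fract]
  ring

theorem cat_lin (x : ℝ) : cat (fun _ => lin 1) x = x := by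
  rw [cat_floor, cat_int]
  simp only [lin_apply, mul_one, mul_zero, sub_zero, Finset.sum_const, Int.card_Ico, nsmul_eq_mul,
    one_mul, zero_sub]
  have h := congrArg (fun z : ℤ => (z : ℝ)) (Int.toNat_sub_toNat_neg ⌊x⌋)
  push_cast at h
  rw [h, Int.floor_add_fract]

theorem sum_cl {a b : ℤ} {x : ℝ} (h0 : (0 : ℝ) ∈ Icc (a : ℝ) b) (hx : x ∈ Icc (a : ℝ) b) :
    ∑ i ∈ Finset.Ico a b, (cl (x - i) - cl (-i)) = x := by
  simpa using (cat_eq (fun _ => lin 1) h0 hx).symm.trans (cat_lin x)

theorem measurable_cat : Measurable cat := measurable_of_ev fun x => by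
  obtain ⟨a, b, h0, h⟩ := exists_box {x}
  simp_rw [fun g => cat_eq g h0 (h x (by simp))]
  fun_prop

variable {π : Measure CP}

theorem gauss_piece (h : IsPiece π) (i : ℤ) :
    IsGaussianProcess (fun (x : ℝ) (f : CP) => f (cl (x - i)) - f (cl (-i))) π := by
  classical
  exact h.gauss.of_isGaussianProcess fun t => ⟨{cl (t - i), cl (-i)},
    { toFun x := x ⟨cl (t - i), by simp⟩ - x ⟨cl (-i), by simp⟩
      map_add' x y := by simp; abel
      map_smul' c x := by simp [mul_sub] }, by simp⟩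

theorem gauss_comp {α β E : Type} [MeasurableSpace α] [MeasurableSpace β] [NormedAddCommGroup E]
    [NormedSpace ℝ E] [MeasurableSpace E] {P : Measure α} {φ : α → β} {F : β → E}
    (hφ : Measurable φ) (hF : Measurable F) :
    HasGaussianLaw F (P.map φ) ↔ HasGaussianLaw (fun a => F (φ a)) P :=
  ⟨fun h => ⟨by have := h.isGaussian_map; rwa [Measure.map_map hF hφ] at this⟩,
    fun h => ⟨by rw [Measure.map_map hF hφ]; exact h.isGaussian_map⟩⟩

theorem isBM (h : IsPiece π) : IsBM ((Measure.infinitePi fun _ : ℤ => π).map cat) 0 := by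
  have := h.prob
  set P := Measure.infinitePi fun _ : ℤ => π
  have hev : ∀ i : ℤ, P.map (fun g => g i) = π := fun i => Measure.infinitePi_map_eval _ i
  have hL : ∀ (i : ℤ) (x : ℝ), MemLp (fun g : ℤ → CP => g i (cl (x - i)) - g i (cl (-i))) 2 P :=
    fun i x => ((gauss_comp (P := P) (φ := fun g => g i)
      (F := fun f : CP => f (cl (x - i)) - f (cl (-i))) (measurable_pi_apply i) (by fun_prop)).1
      ((hev i).symm ▸ (gauss_piece h i).hasGaussianLaw_eval x)).memLp_two
  have hL0 : ∀ x : ℝ, MemLp (fun f : CP => f x) 2 π := fun x =>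
    (h.gauss.hasGaussianLaw_eval x).memLp_two
  refine ⟨⟨fun I => ?_⟩, fun x => ?_, fun x y => ?_⟩
  · obtain ⟨a, b, h0, hI⟩ := exists_box I
    rw [gauss_comp measurable_cat (by fun_prop)]
    let Φ : ℤ → CP → I → ℝ := fun i f => I.restrict fun x => f (cl (x - i)) - f (cl (-i))
    have hΦ : ∀ i, Measurable (Φ i) := fun i => measurable_pi_lambda _ fun x => by
      simp only [Φ, Finset.restrict]; fun_prop
    have e : (fun g : ℤ → CP => I.restrict fun x => cat g x) =
        fun g => ∑ i : Finset.Ico a b, Φ i (g i) := by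
      ext g x
      rw [Finset.sum_coe_sort _ fun i => Φ i (g i), Finset.sum_apply]
      exact cat_eq g h0 (hI x x.2)
    rw [e]
    refine iIndepFun.hasGaussianLaw_fun_sum (fun i => ?_)
      ((iIndepFun_infinitePi hΦ).precomp (g := ((↑) : Finset.Ico a b → ℤ)) Subtype.val_injective)
    exact (gauss_comp (P := P) (φ := fun g => g i) (measurable_pi_apply i.1) (hΦ i)).1
      ((hev i).symm ▸ (gauss_piece h i).hasGaussianLaw I)
  · obtain ⟨a, b, h0, hI⟩ := exists_box {x}
    rw [integral_map measurable_cat.aemeasurable (measurable_ev x).aestronglyMeasurable, zero_mul]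
    simp_rw [fun g => cat_eq g h0 (hI x (by simp))]
    rw [integral_finsetSum _ fun i _ => (hL i x).integrable one_le_two]
    refine Finset.sum_eq_zero fun i _ => ?_
    rw [← integral_map (φ := fun g : ℤ → CP => g i) (f := fun f : CP => f (cl (x - i)) - f (cl (-i)))
      (measurable_pi_apply i).aemeasurable (Measurable.aestronglyMeasurable (by fun_prop)), hev,
      integral_sub ((hL0 _).integrable one_le_two) ((hL0 _).integrable one_le_two), h.mean, h.mean,
      sub_zero]
  · obtain ⟨a, b, h0, hI⟩ := exists_box {x, y}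
    have hx := hI x (by simp)
    have hy := hI y (by simp)
    rw [covariance_map_fun (measurable_ev x).aestronglyMeasurable
      (measurable_ev y).aestronglyMeasurable measurable_cat.aemeasurable]
    simp_rw [fun g => cat_eq g h0 hx, fun g => cat_eq g h0 hy]
    rw [covariance_fun_sum_fun_sum' (fun i _ => hL i x) fun i _ => hL i y, kk,
      ← sum_cl h0 (x := min x y) ⟨le_min hx.1 hy.1, min_le_of_left_le hx.2⟩,
      ← sum_cl h0 (x := min x 0) ⟨le_min hx.1 h0.1, min_le_of_left_le hx.2⟩,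
      ← sum_cl h0 (x := min y 0) ⟨le_min hy.1 h0.1, min_le_of_left_le hy.2⟩,
      ← Finset.sum_sub_distrib, ← Finset.sum_sub_distrib]
    refine Finset.sum_congr rfl fun i hi => ?_
    rw [Finset.sum_eq_single_of_mem i hi fun j _ hj => ?_]
    · rw [← covariance_map_fun (Z := fun g : ℤ → CP => g i)
        (X := fun f : CP => f (cl (x - i)) - f (cl (-i)))
        (Y := fun f : CP => f (cl (y - i)) - f (cl (-i)))
        (Measurable.aestronglyMeasurable (by fun_prop))
        (Measurable.aestronglyMeasurable (by fun_prop)) (measurable_pi_apply i).aemeasurable, hev,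
        covariance_fun_sub_fun_sub (hL0 _) (hL0 _) (hL0 _) (hL0 _)]
      simp only [h.cov, max_eq_left (cl_nonneg _), ← cl_mono.map_min, ← min_sub_sub_right, zero_sub,
        min_self, min_comm (-(i : ℝ))]
      ring
    · refine IndepFun.covariance_eq_zero ?_ (hL i x) (hL j y)
      exact ((iIndepFun_infinitePi (P := fun _ : ℤ => π) (X := fun _ f => f)
        fun _ => measurable_id).indepFun hj.symm).comp
        (φ := fun f : CP => f (cl (x - i)) - f (cl (-i)))
        (ψ := fun f : CP => f (cl (y - j)) - f (cl (-j))) (by fun_prop) (by fun_prop)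

end CatA

theorem catS (_b1 : Bm1) : Cat := by
  refine ⟨CatA.incr, ?_, fun π h => ⟨_, CatA.isBM h, ?_⟩, ?_, ?_⟩
  · exact measurable_pi_lambda _ fun n => CatA.measurable_cat.comp (by fun_prop)
  · have := h.prob
    have h1 := Measure.map_infinitePi_infinitePi_of_inj (P := fun _ : ℤ × ℤ => π)
      (f := Prod.swap) Prod.swap_injective
    have h2 := Measure.infinitePi_map_curry fun _ _ : ℤ => π
    have h3 := Measure.infinitePi_map_pi (fun _ : ℤ => Measure.infinitePi fun _ : ℤ => π)
      (f := fun _ => cat) fun _ => CatA.measurable_cat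
    have hc : Measurable fun (x : ℤ → ℤ → CP) i => cat (x i) :=
      measurable_pi_lambda _ fun n => CatA.measurable_cat.comp (measurable_pi_apply n)
    rw [PP, ← h3, ← h2, ← h1, Measure.map_map hc (MeasurableEquiv.measurable _),
      Measure.map_map (hc.comp (MeasurableEquiv.measurable _)) (by fun_prop)]
    rfl
  · intro ξ ξ' m k i0 i1 h j h1 h2 u hu v hv
    simp only [envOf]
    rw [CatA.cat_sub _ hu hv, CatA.cat_sub _ hu hv]
    refine Finset.sum_congr rfl fun i hi => ?_
    rw [h (i, j) (Finset.mem_product.2 ⟨hi, Finset.mem_Ioc.2 ⟨h1, h2⟩⟩)]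
  · intro X g h0 h x
    rw [CatA.cat_floor, CatA.cat_int, line]
    simp [h, h0]

end Pool.Agent.MP_3d8edd_pr.H69
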