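import Pool.Agent.MP_3d8edd_pr.H69.Basic

/-!
No bigeodesic in a fixed direction at any time.
-/

open MeasureTheory ProbabilityTheory Set Filter
open scoped NNReal ENNReal Topology

namespace Pool.Agent.MP_3d8edd_pr.H69

namespace Core2A

theorem rpow_scale (m : ℕ) : (2 : ℝ) ^ (2 * ((3 * m : ℕ) : ℝ) / 3) = (2 ^ m) ^ 2 := by
  have : 2 * ((3 * m : ℕ) : ℝ) / 3 = ((m * 2 : ℕ) : ℝ) := by push_cast; ring
  rw [this, Real.rpow_natCast, pow_mul]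

theorem loc_near {x : ℤ → ℝ} {θ θ' A B : ℝ} {N : ℕ} (h : LocAt x θ A N)
    (hB : A + |θ - θ'| * N ≤ B) : LocAt x θ' B N := by
  obtain ⟨h1, h2⟩ := h
  have hN : (0 : ℝ) ≤ N := Nat.cast_nonneg N
  have e : |(θ - θ') * N| = |θ - θ'| * N := by rw [abs_mul, abs_of_nonneg hN]
  constructor
  · have : x N - θ' * N = (x N - θ * N) + (θ - θ') * N := by ring
    rw [this]
    exact (abs_add_le _ _).trans (by rw [e]; linarith)
  · have : x (-(N : ℤ)) + θ' * N = (x (-(N : ℤ)) + θ * N) - (θ - θ') * N := by ring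
    rw [this]
    exact (abs_sub _ _).trans (by rw [e]; linarith)

/-- A straight path lies in the tubes of all large scales, for all nearby directions. -/
theorem tube_loc {x : ℤ → ℝ} {θ : ℝ} (h : Straight x θ) (h0 : |x 0| ≤ 1) (k : ℕ) :
    ∀ᶠ ℓ : ℕ in atTop, ∀ θ' : ℝ, |θ - θ'| ≤ ((2 : ℝ) ^ (ℓ * k))⁻¹ → ∀ j ≤ k,
      LocAt x θ' ((ℓ : ℝ) ^ 2 * nu ℓ k j ^ 2) (lev ℓ k j) := by
  obtain ⟨C, hC⟩ := h
  obtain ⟨i0, hi0⟩ := eventually_atTop.mp hC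
  filter_upwards [eventually_ge_atTop i0, eventually_ge_atTop 1,
    eventually_ge_atTop ⌈3 * |C| * k + 1⌉₊] with ℓ h1 h2 h3 θ' hθ j hj
  have hl1 : (1 : ℝ) ≤ ℓ := by exact_mod_cast h2
  have hl3 : 3 * |C| * k + 1 ≤ ℓ := Nat.ceil_le.mp h3
  rcases Nat.lt_or_ge j k with hjk | hjk
  · have hm : 1 ≤ k - j := by omega
    have hi : i0 ≤ 3 * (ℓ * (k - j)) := by nlinarith
    have hL := hi0 _ hi
    rw [rpow_scale] at hL
    have hlev : lev ℓ k j = 2 ^ (3 * (ℓ * (k - j))) := by simp [lev, hjk]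
    rw [hlev]
    refine loc_near hL ?_
    unfold nu
    set v : ℝ := 2 ^ (ℓ * (k - j)) with hv
    have hv0 : 0 < v := by positivity
    have hvk : v ≤ 2 ^ (ℓ * k) :=
      pow_le_pow_right₀ (by norm_num) (Nat.mul_le_mul_left _ (Nat.sub_le _ _))
    have hN : (((2 : ℕ) ^ (3 * (ℓ * (k - j))) : ℕ) : ℝ) = v ^ 3 := by
      rw [hv, ← pow_mul, mul_comm]; push_cast; ring
    rw [hN]
    have a1 : |θ - θ'| * v ≤ 1 := by
      have h2k : (0 : ℝ) < 2 ^ (ℓ * k) := by positivity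
      calc |θ - θ'| * v ≤ ((2 : ℝ) ^ (ℓ * k))⁻¹ * 2 ^ (ℓ * k) := by gcongr
        _ = 1 := inv_mul_cancel₀ h2k.ne'
    have a2 : ((3 * (ℓ * (k - j)) : ℕ) : ℝ) ≤ 3 * (ℓ * k) := by
      have : 3 * (ℓ * (k - j)) ≤ 3 * (ℓ * k) :=
        Nat.mul_le_mul_left _ (Nat.mul_le_mul_left _ (Nat.sub_le _ _))
      exact_mod_cast this
    have a3 : C * ((3 * (ℓ * (k - j)) : ℕ) : ℝ) ≤ |C| * (3 * (ℓ * k)) :=
      (mul_le_mul_of_nonneg_right (le_abs_self C) (Nat.cast_nonneg _)).trans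
        (mul_le_mul_of_nonneg_left a2 (abs_nonneg C))
    have a4 : |C| * (3 * (ℓ * k)) + 1 ≤ (ℓ : ℝ) ^ 2 := by nlinarith
    have hv2 : 0 < v ^ 2 := by positivity
    calc C * ((3 * (ℓ * (k - j)) : ℕ) : ℝ) * v ^ 2 + |θ - θ'| * v ^ 3
        = (C * ((3 * (ℓ * (k - j)) : ℕ) : ℝ) + |θ - θ'| * v) * v ^ 2 := by ring
      _ ≤ (ℓ : ℝ) ^ 2 * v ^ 2 := mul_le_mul_of_nonneg_right (by linarith) hv2.le
  · have hjk' : j = k := le_antisymm hj hjk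
    subst hjk'
    have hA : (1 : ℝ) ≤ (ℓ : ℝ) ^ 2 * nu ℓ j j ^ 2 := by
      simp only [nu, Nat.sub_self, mul_zero, pow_zero, one_pow, mul_one]
      nlinarith
    constructor <;> simp only [lev, lt_irrefl, if_false, Nat.cast_zero, mul_zero, sub_zero,
      neg_zero, add_zero] <;> linarith

theorem straight_tendsto {x : ℤ → ℝ} {θ : ℝ} (h : Straight x θ) :
    Tendsto (fun i : ℕ => x ((2 ^ i : ℕ) : ℤ) / 2 ^ i) atTop (𝓝 θ) := by
  obtain ⟨C, hC⟩ := h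
  set r : ℝ := (2 : ℝ) ^ (-(1 : ℝ) / 3) with hr
  have hr0 : 0 < r := by positivity
  have hr1 : r < 1 := Real.rpow_lt_one_of_one_lt_of_neg (by norm_num) (by norm_num)
  have ht : Tendsto (fun i : ℕ => C * ((i : ℝ) * r ^ i)) atTop (𝓝 0) := by
    have := (tendsto_self_mul_const_pow_of_lt_one hr0.le hr1).const_mul C
    simpa using this
  rw [tendsto_iff_norm_sub_tendsto_zero]
  refine squeeze_zero' (Eventually.of_forall fun _ => norm_nonneg _) ?_ ht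
  filter_upwards [hC] with i hi
  have h1 := hi.1
  have h2 : (0 : ℝ) < 2 ^ i := by positivity
  have e1 : (2 : ℝ) ^ (2 * (i : ℝ) / 3) = r ^ i * 2 ^ i := by
    rw [hr, ← Real.rpow_natCast, ← Real.rpow_natCast, ← Real.rpow_mul (by norm_num),
      ← Real.rpow_add (by norm_num)]
    congr 1; ring
  rw [e1] at h1
  have e2 : x ((2 ^ i : ℕ) : ℤ) / 2 ^ i - θ =
      (x ((2 ^ i : ℕ) : ℤ) - θ * ((2 ^ i : ℕ) : ℝ)) / 2 ^ i := by
    push_cast; field_simp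
  rw [Real.norm_eq_abs, e2, abs_div, abs_of_pos h2, div_le_iff₀ h2]
  calc _ ≤ _ := h1
    _ = _ := by ring

/-- Subdivision of a unit interval. -/
theorem cover {a t : ℝ} (ht : t ∈ Ico a (a + 1)) (e : ℕ) : ∃ p ∈ Finset.range (2 ^ e),
    t ∈ Icc (a + p * ((2 : ℝ) ^ e)⁻¹) (a + p * ((2 : ℝ) ^ e)⁻¹ + ((2 : ℝ) ^ e)⁻¹) := by
  have h2 : (0 : ℝ) < 2 ^ e := by positivity
  have h0 : 0 ≤ (t - a) * 2 ^ e := mul_nonneg (by linarith [ht.1]) h2.le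
  refine ⟨⌊(t - a) * 2 ^ e⌋₊, Finset.mem_range.mpr ?_, ?_, ?_⟩
  · rw [Nat.floor_lt h0]
    push_cast
    nlinarith [ht.2]
  · have := Nat.floor_le h0
    rw [← div_eq_mul_inv, ← le_sub_iff_add_le', div_le_iff₀ h2]
    exact this
  · have := (Nat.lt_floor_add_one ((t - a) * 2 ^ e)).le
    have h3 : t - a ≤ ((⌊(t - a) * 2 ^ e⌋₊ : ℝ) + 1) / 2 ^ e := by
      rw [le_div_iff₀ h2]; exact this
    rw [add_div, div_eq_mul_inv, one_div] at h3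
    linarith

theorem tsum_ne_top (C : ℝ) (a : ℕ) :
    ∑' ℓ : ℕ, ENNReal.ofReal (C * (ℓ : ℝ) ^ a / 2 ^ ℓ) ≠ ∞ := by
  have : Summable fun ℓ : ℕ => C * ((ℓ : ℝ) ^ a * (1 / 2) ^ ℓ) :=
    (summable_pow_mul_geometric_of_norm_lt_one a (r := (1 / 2 : ℝ)) (by norm_num)).mul_left C
  refine Summable.tsum_ofReal_ne_top (this.congr fun ℓ => ?_)
  rw [one_div, inv_pow]; ring

theorem sum_le {ι : Type*} {s : Finset ι} {f : ι → ℝ≥0∞} {b : ℝ} (h : ∀ i ∈ s, f i ≤ ENNReal.ofReal b) :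
    ∑ i ∈ s, f i ≤ ENNReal.ofReal (s.card * b) := by
  refine (Finset.sum_le_card_nsmul s f _ h).trans ?_
  rw [nsmul_eq_mul, ENNReal.ofReal_mul (Nat.cast_nonneg _), ENNReal.ofReal_natCast]

end Core2A

open Core2A

universe u

theorem core2 (lc : LocalStmt.{u}) (mu : MultiStmt.{u}) : Core2Stmt.{u} := by
  intro Ω _ P μ W hD θ hθ
  have hκ0 : 0 < min θ θ⁻¹ := lt_min hθ (inv_pos.mpr hθ)
  have hκ1 : min θ θ⁻¹ ≤ 1 := by
    rcases le_total θ 1 with h | h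
    · exact (min_le_left _ _).trans h
    · exact (min_le_right _ _).trans (inv_le_one_of_one_le₀ h)
  have hmem : θ ∈ Icc (min θ θ⁻¹) (min θ θ⁻¹)⁻¹ :=
    ⟨min_le_left _ _, by rw [le_inv_comm₀ hθ hκ0]; exact min_le_right _ _⟩
  obtain ⟨C, ℓ0, hC, hM⟩ := mu (min θ θ⁻¹) 3 hκ0 hκ1 (by norm_num)
  have key : ∀ n : ℤ, ∀ᵐ ω ∂P, ∀ᶠ ℓ : ℕ in atTop,
      ω ∉ {ω | ℓ0 ≤ ℓ ∧ ∃ t ∈ Ico (n : ℝ) (n + 1), Tube (W t ω) θ ℓ 3} := by
    intro n
    refine ae_eventually_notMem (ne_top_of_le_ne_top (tsum_ne_top C 60)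
      (ENNReal.tsum_le_tsum fun ℓ => ?_))
    by_cases hl : ℓ0 ≤ ℓ
    · have hsub : {ω | ℓ0 ≤ ℓ ∧ ∃ t ∈ Ico (n : ℝ) (n + 1), Tube (W t ω) θ ℓ 3} ⊆
          ⋃ p ∈ Finset.range (2 ^ (ℓ * (3 + 2))), {ω | ∃ t ∈ Icc
            ((n : ℝ) + p * ((2 : ℝ) ^ (ℓ * (3 + 2)))⁻¹)
            ((n : ℝ) + p * ((2 : ℝ) ^ (ℓ * (3 + 2)))⁻¹ + ((2 : ℝ) ^ (ℓ * (3 + 2)))⁻¹),
            Tube (W t ω) θ ℓ 3} := by
        rintro ω ⟨-, t, ht, hT⟩
        obtain ⟨p, hp, htp⟩ := cover ht (ℓ * (3 + 2))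
        exact mem_iUnion₂.mpr ⟨p, hp, t, htp, hT⟩
      refine (measure_mono hsub).trans ((measure_biUnion_finset_le _ _).trans ?_)
      refine (sum_le fun p _ => hM Ω P μ W hD ℓ hl θ hmem _).trans (le_of_eq ?_)
      congr 1
      rw [Finset.card_range]
      have : (2 : ℝ) ^ (2 * (ℓ * 3)) = 2 ^ (ℓ * (3 + 2)) * 2 ^ ℓ := by
        rw [← pow_add]; congr 1; ring
      rw [this]
      push_cast
      field_simp
    · simp [hl]
  filter_upwards [ae_all_iff.mpr key, lc Ω P μ W hD] with ω h1 h2 t x hx h01 h0 hT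
  have hlin : Linear x := by
    refine ⟨θ / 2, by positivity, 2 * θ, ?_⟩
    filter_upwards [hT.eventually (Icc_mem_nhds (half_lt_self hθ) (by linarith : θ < 2 * θ))]
      with i hi
    have hp : (0 : ℝ) < 2 ^ i := by positivity
    exact ⟨(le_div_iff₀ hp).mp hi.1, (div_le_iff₀ hp).mp hi.2⟩
  obtain ⟨θ', -, hS⟩ := h2 t x hx h01 hlin
  have : θ' = θ := tendsto_nhds_unique (straight_tendsto hS) hT
  subst this
  obtain ⟨ℓ, ⟨a1, a2⟩, a3⟩ :=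
    (((h1 ⌊t⌋).and (tube_loc hS h0 3)).and (eventually_ge_atTop ℓ0)).exists
  exact a1 ⟨a3, t, ⟨Int.floor_le t, Int.lt_floor_add_one t⟩, x, hx,
    a2 θ' (by simp)⟩

end Pool.Agent.MP_3d8edd_pr.H69
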