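import Pool.Agent.MP_3d8edd_pr.H69.Basic

/-!
The variational formula, the comparison lemmas and the two-line identity.
-/

open Set

namespace Pool.Agent.MP_3d8edd_pr.H69

namespace Det2A

variable {f f' w w' h h' : CP} {ω ω' : Env} {m : ℤ} {n n' : ℕ}

theorem le_qG (hb : Bdd f w) {z y : ℝ} (hz : z ≤ y) : f z - w z + w y ≤ qG f w y := by
  have := le_rmax hb hz
  rw [ContinuousMap.sub_apply] at this
  rw [qG_apply]
  linarith

theorem qG_le (hb : Bdd f w) {y c : ℝ} (hc : ∀ z ≤ y, f z - w z + w y ≤ c) : qG f w y ≤ c := by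
  have := rmax_le hb (x := y) (c := c - w y) fun z hz => by
    have := hc z hz
    rw [ContinuousMap.sub_apply]
    linarith
  rw [qG_apply]
  linarith

theorem bdd_of {c : ℝ} (x : ℝ) (hc : ∀ z ≤ x, f z - w z ≤ c) : Bdd f w :=
  (bddAbove_Iic_iff (f - w) x).1 ⟨c, by rintro _ ⟨z, hz, rfl⟩; exact hc z hz⟩

theorem all_mono (hb : AllBdd h ω m n) (hn : n' ≤ n) : AllBdd h ω m n' :=
  fun i hi => hb i (hi.trans_le hn)

theorem all_succ (hb : AllBdd h ω m n) (hn : Bdd (GG h ω m n) (ω (m + n + 1))) :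
    AllBdd h ω m (n + 1) := fun i hi => by
  rcases Nat.lt_succ_iff_lt_or_eq.1 hi with hi | rfl
  exacts [hb i hi, hn]

theorem lub (d1 : Det1) (hn : 1 ≤ n) : AllBdd h ω m n → ∀ y,
    IsLUB ((fun z => h z + T ω m (m + n) z y) '' Iic y) (GG h ω m n y) := by
  induction n, hn using Nat.le_induction with
  | base =>
    intro hb y
    have h0 : Bdd h (ω (m + 1)) := by simpa using hb 0 one_pos
    have e : GG h ω m 1 = qG h (ω (m + 1)) := by simp [GG_succ]
    rw [e, Nat.cast_one]
    refine ⟨?_, fun c hc => qG_le h0 fun z hz => ?_⟩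
    · rintro _ ⟨z, hz, rfl⟩
      have := le_qG h0 (z := z) hz
      simp only [d1.single ω m z y hz]
      linarith
    · have := hc ⟨z, hz, rfl⟩
      simp only [d1.single ω m z y hz] at this
      linarith
  | succ n hn ih =>
    intro hb y
    have ih := ih (all_mono hb n.le_succ)
    have h0 := hb n n.lt_succ_self
    have hmn : m < m + n := by omega
    rw [GG_succ, Nat.cast_succ, ← add_assoc]
    refine ⟨?_, fun c hc => qG_le h0 fun u hu => ?_⟩
    · rintro _ ⟨z, hz, rfl⟩
      obtain ⟨u, h1, h2, h3⟩ := d1.exists_opt ω m (m + n) (m + n + 1) z y hmn (by omega) hz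
      have h4 := (ih u).1 ⟨z, h1, rfl⟩
      have h5 := le_qG h0 h2
      rw [d1.single ω _ u y h2] at h3
      simp only at h4 ⊢
      linarith
    · have : GG h ω m n u ≤ c + ω (m + n + 1) u - ω (m + n + 1) y := (ih u).2 (by
        rintro _ ⟨z, hz, rfl⟩
        have h1 := d1.concat ω m (m + n) (m + n + 1) z u y ⟨hmn.le, hz, fun e => absurd e hmn.ne⟩
          ⟨by omega, hu, fun e => by omega⟩
        have h2 := hc ⟨z, le_trans hz hu, rfl⟩
        rw [d1.single ω _ u y hu] at h1
        simp only at h2 ⊢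
        linarith)
      linarith

theorem le_GG (d1 : Det1) (hn : 1 ≤ n) (hb : AllBdd h ω m n) {z y : ℝ} (hz : z ≤ y) :
    h z + T ω m (m + n) z y ≤ GG h ω m n y := (lub d1 hn hb y).1 ⟨z, hz, rfl⟩

theorem GG_le (d1 : Det1) (hn : 1 ≤ n) (hb : AllBdd h ω m n) {y c : ℝ}
    (hc : ∀ z ≤ y, h z + T ω m (m + n) z y ≤ c) : GG h ω m n y ≤ c :=
  (lub d1 hn hb y).2 (by rintro _ ⟨z, hz, rfl⟩; exact hc z hz)

theorem pert1 {K : ℝ} (hK : ∀ z, |f z - f' z| ≤ K) (hb : Bdd f w) :
    Bdd f' w ∧ ∀ z, |qG f w z - qG f' w z| ≤ K := by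
  have hb' : Bdd f' w := bdd_of (c := qG f w 0 - w 0 + K) 0 fun z hz => by
    have := le_qG hb hz
    have := abs_le.1 (hK z)
    linarith
  refine ⟨hb', fun y => abs_le.2 ⟨?_, ?_⟩⟩
  · have := qG_le hb' (y := y) (c := qG f w y + K) fun z hz => by
      have := le_qG hb hz
      have := abs_le.1 (hK z)
      linarith
    linarith
  · have := qG_le hb (y := y) (c := qG f' w y + K) fun z hz => by
      have := le_qG hb' hz
      have := abs_le.1 (hK z)
      linarith
    linarith

theorem perturb {K : ℝ} (hK : ∀ z, |h z - h' z| ≤ K) : AllBdd h ω m n →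
    AllBdd h' ω m n ∧ ∀ z, |GG h ω m n z - GG h' ω m n z| ≤ K := by
  induction n with
  | zero => exact fun _ => ⟨fun i hi => absurd hi (Nat.not_lt_zero i), hK⟩
  | succ n ih =>
    intro hb
    obtain ⟨h1, h2⟩ := ih (all_mono hb n.le_succ)
    obtain ⟨h3, h4⟩ := pert1 h2 (hb n n.lt_succ_self)
    exact ⟨all_succ h1 h3, h4⟩

theorem shift1 {c d e : ℝ} (hf : ∀ x, f' x = f (c + x) - d) (hw : ∀ x, w' x = w (c + x) - e)
    (hb : Bdd f w) : Bdd f' w' ∧ ∀ x, qG f' w' x = qG f w (c + x) - d := by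
  have hb' : Bdd f' w' := bdd_of (c := qG f w c - w c - d + e) 0 fun z hz => by
    have := le_qG hb (z := c + z) (y := c) (by linarith)
    rw [hf, hw]
    linarith
  refine ⟨hb', fun x => le_antisymm (qG_le hb' fun z hz => ?_) ?_⟩
  · have := le_qG hb (z := c + z) (y := c + x) (by linarith)
    rw [hf, hw, hw]
    linarith
  · have := qG_le hb (y := c + x) (c := qG f' w' x + d) fun z hz => by
      have := le_qG hb' (z := z - c) (y := x) (by linarith)
      rw [hf, hw, hw, add_sub_cancel] at this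
      linarith
    linarith

theorem shiftG {c d : ℝ} {e : ℤ → ℝ} (hf : ∀ x, h' x = h (c + x) - d)
    (hw : ∀ j x, ω' j x = ω j (c + x) - e j) : AllBdd h ω m n →
    AllBdd h' ω' m n ∧ ∀ x, GG h' ω' m n x = GG h ω m n (c + x) - d := by
  induction n with
  | zero => exact fun _ => ⟨fun i hi => absurd hi (Nat.not_lt_zero i), hf⟩
  | succ n ih =>
    intro hb
    obtain ⟨h1, h2⟩ := ih (all_mono hb n.le_succ)
    obtain ⟨h3, h4⟩ := shift1 h2 (hw _) (hb n n.lt_succ_self)
    exact ⟨all_succ h1 h3, h4⟩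

theorem comp (h : CP) (ω : Env) (m : ℤ) (n n' : ℕ) :
    GG h ω m (n + n') = GG (GG h ω m n) ω (m + n) n' := by
  induction n' with
  | zero => rfl
  | succ n' ih => rw [← add_assoc, GG_succ, GG_succ, ih, Nat.cast_add, ← add_assoc]

theorem all_comp (hb : AllBdd h ω m (n + n')) : AllBdd (GG h ω m n) ω (m + n) n' := fun i hi => by
  have := hb (n + i) (by omega)
  rwa [comp, Nat.cast_add, ← add_assoc] at this

theorem img (hf : ∀ z ≤ (0 : ℝ), f z = f' z) (w : CP) {x : ℝ} (hx : x ≤ 0) :
    (f - w : CP) '' Iic x = (f' - w : CP) '' Iic x :=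
  image_congr fun z hz => by
    rw [ContinuousMap.sub_apply, ContinuousMap.sub_apply, hf z (le_trans hz hx)]

theorem pastG (hf : ∀ z ≤ (0 : ℝ), h z = h' z) (n : ℕ) :
    ∀ z ≤ (0 : ℝ), GG h ω m n z = GG h' ω m n z := by
  induction n with
  | zero => exact hf
  | succ n ih =>
    intro z hz
    rw [GG_succ, GG_succ, qG_apply, qG_apply, rmax_eq, rmax_eq, img ih _ hz]

theorem dep : (∀ j, m < j → j ≤ m + n → ω j = ω' j) → GG h ω m n = GG h ω' m n := by
  induction n with
  | zero => exact fun _ => rfl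
  | succ n ih =>
    intro he
    rw [GG_succ, GG_succ, ih fun j h1 h2 => he j h1 (by omega), he _ (by omega) (by omega)]

theorem two1 {g : CP} (hb : BddAbove (g '' Iic 0)) {z u x : ℝ} (hz : z ≤ u) (hx : u ≤ x) :
    ∃ v ∈ Icc z x, g u ≤ g v - 2 * rmax g v + rmax g z + rmax g x := by
  have m1 := rmax_mono hb hz
  have m2 := rmax_mono hb hx
  by_cases h1 : rmax g x ≤ rmax g z
  · exact ⟨u, ⟨hz, hx⟩, by linarith⟩
  obtain ⟨t, ht, h4⟩ : ∃ t ≤ x, rmax g z < g t := by
    by_contra! h5
    exact h1 (rmax_le hb h5)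
  have hzt : z ≤ t := by
    by_contra! h5
    exact absurd (le_rmax hb h5.le) (not_le.2 h4)
  have hc : IsCompact (Icc z x ∩ {t | rmax g z ≤ g t}) :=
    isCompact_Icc.inter_right (isClosed_le continuous_const g.continuous)
  obtain ⟨v, ⟨hv, hv'⟩, hl⟩ := hc.exists_isLeast ⟨t, ⟨hzt, ht⟩, h4.le⟩
  obtain ⟨s, hs, e⟩ := intermediate_value_Icc hv.1 g.continuous.continuousOn
    (show rmax g z ∈ Icc (g z) (g v) from ⟨le_rmax hb le_rfl, hv'⟩)
  obtain rfl : s = v := le_antisymm hs.2 (hl ⟨⟨hs.1, hs.2.trans hv.2⟩, e.ge⟩)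
  have h6 : rmax g s ≤ rmax g z := rmax_le hb fun r hr => by
    rcases le_total r z with h7 | h7
    · exact le_rmax hb h7
    · by_contra! h8
      obtain rfl : r = s := le_antisymm hr (hl ⟨⟨h7, hr.trans hv.2⟩, h8.le⟩)
      exact absurd e h8.ne'
  have := le_rmax hb hx
  exact ⟨s, hv, by linarith⟩

theorem two2 {g : CP} (hb : BddAbove (g '' Iic 0)) {z u x : ℝ} (hz : z ≤ u) (hx : u ≤ x) :
    ∃ v ∈ Icc z x, g u - 2 * rmax g u + rmax g z + rmax g x ≤ g v := by
  have m1 := rmax_mono hb hz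
  have m2 := rmax_mono hb hx
  by_cases h1 : rmax g x ≤ rmax g z
  · exact ⟨u, ⟨hz, hx⟩, by linarith⟩
  · obtain ⟨v, hv, hm⟩ := isCompact_Icc.exists_isMaxOn (nonempty_Icc.2 (hz.trans hx))
      g.continuous.continuousOn
    have h2 : rmax g x ≤ max (rmax g z) (g v) := rmax_le hb fun r hr => by
      rcases le_total r z with h7 | h7
      · exact (le_rmax hb h7).trans (le_max_left _ _)
      · exact (hm ⟨h7, hr⟩).trans (le_max_right _ _)
    have h3 := (le_max_iff.1 h2).resolve_left h1
    have := le_rmax hb (le_refl u)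
    exact ⟨v, hv, by linarith⟩

theorem swap (f₁ f₂ w : CP) (b1 : Bdd f₂ f₁) (b2 : Bdd f₁ w) (b3 : Bdd f₂ (qR f₁ w))
    (b4 : Bdd (qG f₂ f₁) w) (b5 : Bdd (qG f₂ (qR f₁ w)) (qD f₁ w)) :
    qG (qG f₂ f₁) w = qG (qG f₂ (qR f₁ w)) (qD f₁ w) := by
  ext x
  refine le_antisymm (qG_le b4 fun u hu => ?_) (qG_le b5 fun u hu => ?_)
  · have := qG_le b1 (y := u) (c := qG (qG f₂ (qR f₁ w)) (qD f₁ w) x + w u - w x) fun z hz => by
      obtain ⟨v, hv, h1⟩ := two1 b2 hz hu
      have h2 := le_qG b3 hv.1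
      have h3 := le_qG b5 hv.2
      rw [qR_apply, qR_apply] at h2
      rw [qD_apply, qD_apply] at h3
      rw [ContinuousMap.sub_apply, ContinuousMap.sub_apply] at h1
      linarith
    linarith
  · have := qG_le b3 (y := u) (c := qG (qG f₂ f₁) w x + qD f₁ w u - qD f₁ w x) fun z hz => by
      obtain ⟨v, hv, h1⟩ := two2 b2 hz hu
      have h2 := le_qG b1 hv.1
      have h3 := le_qG b4 hv.2
      rw [qR_apply, qR_apply, qD_apply, qD_apply]
      rw [ContinuousMap.sub_apply, ContinuousMap.sub_apply] at h1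
      linarith
    linarith

end Det2A

open Det2A in
theorem det2 (d1 : Det1) : Det2 where
  lub h ω m n y hn hb := lub d1 hn hb y
  perturb h h' ω m n K hK hb := (perturb hK hb).1
  add_cst h ω m n c hb := by
    ext x
    have := (shiftG (h' := h + cst c) (ω' := ω) (c := 0) (d := -c) (e := 0) (by simp) (by simp)
      hb).2 x
    simpa using this
  comp := comp
  shift h ω m n c hb :=
    shiftG (e := fun j => ω j c) (fun _ => rfl) (fun j x => by simp [shiftE]) hb
  past h ω m n := by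
    have e : ∀ z ≤ (0 : ℝ), past h z = h z := fun z hz => by rw [past_apply, min_eq_left hz]
    refine ⟨forall₂_congr fun i _ => ?_, pastG e n 0 le_rfl⟩
    unfold Bdd
    rw [img (pastG e i) _ le_rfl]
  dep h ω ω' m n he := dep fun j h1 h2 => by
    first
      | exact he j h1 h2
      | (lift j to ℕ using (by omega)
         exact he j (by omega) (by omega))
  cmpL h ω m n a w x x' hn hb hg h1 h2 h3 := by
    obtain ⟨z, hz, c, hc, hc'⟩ := hg
    have hm : m < m + n := by omega
    have k : ∀ u ≤ a, h u + T ω m (m + n) u x' ≤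
        GG h ω m n x + T ω m (m + n) a x' - T ω m (m + n) a x := fun u hu => by
      have := d1.quad ω m _ u a x x' hm hu h1 h2
      have := le_GG d1 hn hb (hu.trans h1)
      linarith
    have := GG_le d1 hn hb (y := x')
      (c := GG h ω m n x + T ω m (m + n) a x' - T ω m (m + n) a x) fun u hu => by
      rcases le_total u a with h4 | h4
      · exact k u h4
      · have := d1.quad ω m _ z u x' w hm (hz.trans h4) hu h3
        have := hc u ⟨h4, hu.trans h3⟩
        have := k z hz
        linarith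
    linarith
  cmpR h ω m n a w x x' hn hb hg h1 h2 := by
    obtain ⟨z, hz, c, hc, hc'⟩ := hg
    have hm : m < m + n := by omega
    have k : ∀ u, a ≤ u → u ≤ x → h u + T ω m (m + n) u x ≤
        GG h ω m n x' - T ω m (m + n) a x' + T ω m (m + n) a x := fun u hu hu' => by
      have := d1.quad ω m _ a u x x' hm hu hu' h2
      have := le_GG d1 hn hb (hu'.trans h2)
      linarith
    have := GG_le d1 hn hb (y := x)
      (c := GG h ω m n x' - T ω m (m + n) a x' + T ω m (m + n) a x) fun u hu => by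
      rcases le_total a u with h4 | h4
      · exact k u h4 hu
      · have := d1.quad ω m _ u z w x hm (h4.trans hz.1) hz.2 h1
        have := hc u h4
        have := k z hz.1 (hz.2.trans h1)
        linarith
    linarith
  cmpV h ω m n n' a y hn hb hg := by
    obtain ⟨z, hz, c, hc, hc'⟩ := hg
    have k : ∀ u, a ≤ u → u ≤ y → h u + T ω m (m + (n + n' : ℕ)) u y ≤
        GG h ω m n y + T ω m (m + (n + n' : ℕ)) a y - T ω m (m + n) a y := fun u hu hu' => by
      have := d1.vquad ω m (m + n) (m + (n + n' : ℕ)) a u y (by omega) (by omega) hu hu'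
      have := le_GG d1 hn (all_mono hb (Nat.le_add_right n n')) hu'
      linarith
    have := GG_le d1 (by omega) hb (y := y)
      (c := GG h ω m n y + T ω m (m + (n + n' : ℕ)) a y - T ω m (m + n) a y) fun u hu => by
      rcases le_total a u with h4 | h4
      · exact k u h4 hu
      · have := hc u h4
        have := k z hz.1 hz.2
        linarith
    linarith
  mid h ω m n n' x y z0 z hn hn' hb hr hl ho := by
    obtain ⟨e0, he0, c, hc, hc'⟩ := hr
    obtain ⟨z1, hz1, d, hd, hd'⟩ := hl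
    by_contra! h0
    have h1 := le_GG d1 hn' (all_comp hb) (hz1.trans (h0.trans ho.2.1))
    rw [← comp, add_assoc, ← Nat.cast_add] at h1
    have k : ∀ e, x ≤ e → e ≤ y → h e + T ω m (m + (n + n' : ℕ)) e y ≤ d := fun e he he' => by
      obtain ⟨z', h2, h3, h4, h5⟩ := d1.ord_up ω m (m + n) (m + (n + n' : ℕ)) x y z e y (by omega)
        (by omega) ho he le_rfl he'
      have := le_GG d1 hn (all_mono hb (Nat.le_add_right n n')) h3
      have := hd z' ⟨h0.trans h2, h4⟩
      linarith
    have := GG_le d1 (by omega) hb (y := y) (c := d) fun u hu => by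
      rcases le_total x u with h4 | h4
      · exact k u h4 hu
      · have := hc u h4
        have := k e0 he0.1 he0.2
        linarith
    linarith
  swap := swap

end Pool.Agent.MP_3d8edd_pr.H69
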