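import Pool.Agent.MP_3d8edd_pr.H69.Basic

/-!
Symmetries and gluing for the product measure.
-/

open MeasureTheory ProbabilityTheory Set Filter
open scoped NNReal ENNReal Topology

namespace Pool.Agent.MP_3d8edd_pr.H69

namespace EnvAA

variable {μ : Measure CP} [IsProbabilityMeasure μ]

theorem reindex {F : CP → CP} (hF : Measurable F) (h : μ.map F = μ) {e : ℤ → ℤ}
    (he : Function.Injective e) :
    MeasurePreserving (fun (ω : Env) j => F (ω (e j))) (PP μ) (PP μ) := by
  have h1 : MeasurePreserving (fun (ω : Env) j => ω (e j)) (PP μ) (PP μ) :=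
    ⟨by fun_prop, Measure.map_infinitePi_infinitePi_of_inj (P := fun _ : ℤ => μ) he⟩
  have h2 : MeasurePreserving (fun (ω : Env) j => F (ω j)) (PP μ) (PP μ) :=
    ⟨by fun_prop, by
      unfold PP
      rw [Measure.infinitePi_map_pi (fun _ : ℤ => μ) (f := fun _ => F) fun _ => hF]
      simp only [h]⟩
  exact h2.comp h1

theorem glue (S : Set ℤ) [DecidablePred (· ∈ S)] :
    MeasurePreserving (fun (p : Env × Env) j => if j ∈ S then p.1 j else p.2 j)
      ((PP μ).prod (PP μ)) (PP μ) := by
  have hm : Measurable fun (p : Env × Env) j => if j ∈ S then p.1 j else p.2 j :=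
    measurable_pi_lambda _ fun j => by split_ifs <;> fun_prop
  refine ⟨hm, Measure.eq_infinitePi _ fun s t ht => ?_⟩
  rw [Measure.map_apply hm (.pi s.countable_toSet fun _ _ => ht _)]
  have : (fun (p : Env × Env) j => if j ∈ S then p.1 j else p.2 j) ⁻¹' ((s : Set ℤ).pi t) =
      ((s.filter (· ∈ S) : Finset ℤ) : Set ℤ).pi t ×ˢ
        ((s.filter (¬ · ∈ S) : Finset ℤ) : Set ℤ).pi t := by
    ext p
    simp only [mem_preimage, Set.mem_pi, Finset.mem_coe, mem_prod, Finset.mem_filter]
    refine ⟨fun h => ⟨fun j hj => ?_, fun j hj => ?_⟩, fun h j hj => ?_⟩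
    · simpa only [if_pos hj.2] using h j hj.1
    · simpa only [if_neg hj.2] using h j hj.1
    · split_ifs with hS
      · exact h.1 j ⟨hj, hS⟩
      · exact h.2 j ⟨hj, hS⟩
  rw [this, Measure.prod_prod]
  unfold PP
  rw [Measure.infinitePi_pi _ fun i _ => ht i, Measure.infinitePi_pi _ fun i _ => ht i,
    Finset.prod_filter_mul_prod_filter_not]

theorem eval (j : ℤ) : MeasurePreserving (fun ω : Env => ω j) (PP μ) μ :=
  measurePreserving_eval_infinitePi (fun _ : ℤ => μ) j

theorem update (j : ℤ) :
    MeasurePreserving (fun p : Env × CP => Function.update p.1 j p.2) ((PP μ).prod μ) (PP μ) := by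
  have hm : Measurable fun p : Env × CP => Function.update p.1 j p.2 := measurable_update'
  have h1 := (MeasurePreserving.id (PP μ)).prod (eval (μ := μ) j)
  refine ⟨hm, ?_⟩
  rw [← h1.map_eq, Measure.map_map hm h1.measurable]
  refine Eq.trans ?_ (glue (μ := μ) {i | i ≠ j}).map_eq
  congr 1
  funext p i
  by_cases h : i = j
  · subst h; simp
  · simp [h]

theorem inter (A B : Set Env) (S : Set ℤ) (hA : MeasurableSet A) (hB : MeasurableSet B)
    (dA : Dep A S) (dB : Dep B Sᶜ) : PP μ (A ∩ B) = PP μ A * PP μ B := by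
  classical
  rw [← (glue (μ := μ) S).measure_preimage (hA.inter hB).nullMeasurableSet, ← Measure.prod_prod]
  congr 1
  ext p
  simp only [mem_preimage, mem_inter_iff, mem_prod]
  exact and_congr ⟨dA _ _ fun j hj => if_pos hj, dA _ _ fun j hj => (if_pos hj).symm⟩
    ⟨dB _ _ fun j hj => if_neg hj, dB _ _ fun j hj => (if_neg hj).symm⟩

end EnvAA

theorem envA (b1 : Bm1) : EnvA where
  shiftE μ c l h := by
    have := h.prob
    exact EnvAA.reindex (measurable_shift c) (b1.unique _ _ 0 (b1.shift μ 0 c h) h)
      (add_left_injective l)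
  rotE μ h := by
    have := h.prob
    exact EnvAA.reindex measurable_rot (b1.unique _ _ 0 (b1.rot μ 0 h) h) sub_right_injective
  scaleE μ θ h hθ := by
    have := h.prob
    exact EnvAA.reindex (measurable_scale θ)
      (b1.unique _ _ 0 (by simpa using b1.scale μ 0 θ hθ h) h) Function.injective_id
  eval μ j h := by
    have := h.prob
    exact EnvAA.eval j
  eval2 μ i j h hij := by
    have := h.prob
    exact ⟨by fun_prop, Measure.infinitePi_map_eval_prod (P := fun _ : ℤ => μ) hij⟩
  glue μ S _ h := by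
    have := h.prob
    exact EnvAA.glue S
  update μ j h := by
    have := h.prob
    exact EnvAA.update j
  inter μ A B S h hA hB dA dB := by
    have := h.prob
    exact EnvAA.inter A B S hA hB dA dB

end Pool.Agent.MP_3d8edd_pr.H69
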