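import Pool.Agent.MP_3d8edd_pr.H69.Basic

/-!
The moment generating function identity, exit point bounds and the right tail.
-/

open MeasureTheory ProbabilityTheory Set Filter
open scoped NNReal ENNReal Topology

namespace Pool.Agent.MP_3d8edd_pr.H69

namespace ExitA

section Markov

variable {Ω : Type*} [MeasurableSpace Ω] {P : Measure Ω} {E : Set Ω}

theorem markov0 {g : Ω → ℝ≥0∞} (hg : Measurable g) (hE : ∀ᵐ ω ∂P, ω ∈ E → 1 ≤ g ω) :
    P E ≤ ∫⁻ ω, g ω ∂P := by
  have h := mul_meas_ge_le_lintegral₀ (μ := P) hg.aemeasurable 1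
  rw [one_mul] at h
  exact (measure_mono_ae hE).trans h

theorem markov1 {X : Ω → ℝ} (hX : Measurable X) {t α : ℝ} (hE : ∀ᵐ ω ∂P, ω ∈ E → t ≤ X ω)
    (hA : ∫⁻ ω, ENNReal.ofReal (Real.exp (X ω)) ∂P = ENNReal.ofReal (Real.exp α)) :
    P E ≤ ENNReal.ofReal (Real.exp (α - t)) := by
  refine (markov0 (g := fun ω => ENNReal.ofReal (Real.exp (-t)) * ENNReal.ofReal (Real.exp (X ω)))
    (by fun_prop) ?_).trans (le_of_eq ?_)
  · filter_upwards [hE] with ω h hω
    rw [← ENNReal.ofReal_mul (Real.exp_pos _).le, ← Real.exp_add, ENNReal.one_le_ofReal]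
    exact Real.one_le_exp (by linarith [h hω])
  · rw [lintegral_const_mul _ (by fun_prop), hA, ← ENNReal.ofReal_mul (Real.exp_pos _).le,
      ← Real.exp_add, neg_add_eq_sub]

theorem markov2 {X Y : Ω → ℝ} (hX : Measurable X) (hY : Measurable Y) {α β : ℝ}
    (hE : ∀ᵐ ω ∂P, ω ∈ E → 0 ≤ X ω + Y ω)
    (hA : ∫⁻ ω, ENNReal.ofReal (Real.exp (X ω)) ∂P = ENNReal.ofReal (Real.exp α))
    (hB : ∫⁻ ω, ENNReal.ofReal (Real.exp (Y ω)) ∂P = ENNReal.ofReal (Real.exp β)) :
    P E ≤ ENNReal.ofReal (Real.exp ((α + β) / 2)) := by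
  refine (markov0 (g := fun ω =>
    ENNReal.ofReal (Real.exp ((β - α) / 2) / 2) * ENNReal.ofReal (Real.exp (X ω)) +
    ENNReal.ofReal (Real.exp ((α - β) / 2) / 2) * ENNReal.ofReal (Real.exp (Y ω)))
    (by fun_prop) ?_).trans (le_of_eq ?_)
  · filter_upwards [hE] with ω h hω
    rw [← ENNReal.ofReal_mul (by positivity), ← ENNReal.ofReal_mul (by positivity),
      ← ENNReal.ofReal_add (by positivity) (by positivity), ENNReal.one_le_ofReal,
      div_mul_eq_mul_div, div_mul_eq_mul_div, ← Real.exp_add, ← Real.exp_add]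
    linarith [h hω, Real.add_one_le_exp ((β - α) / 2 + X ω),
      Real.add_one_le_exp ((α - β) / 2 + Y ω)]
  · rw [lintegral_add_left (by fun_prop), lintegral_const_mul _ (by fun_prop),
      lintegral_const_mul _ (by fun_prop), hA, hB, ← ENNReal.ofReal_mul (by positivity),
      ← ENNReal.ofReal_mul (by positivity), ← ENNReal.ofReal_add (by positivity) (by positivity),
      div_mul_eq_mul_div, div_mul_eq_mul_div, ← Real.exp_add, ← Real.exp_add,
      show (β - α) / 2 + α = (α + β) / 2 by ring, show (α - β) / 2 + β = (α + β) / 2 by ring,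
      add_halves]

end Markov

theorem pow_mul_exp {r : ℝ} (hr : 0 < r) (n : ℕ) (c : ℝ) :
    r ^ n * Real.exp c = Real.exp (n * Real.log r + c) := by
  rw [Real.exp_add, Real.exp_nat_mul, Real.exp_log hr]

theorem bm_lin (b1 : Bm1) {μ : Measure CP} (hμ : IsBM μ 0) (a : ℝ) :
    IsBM (μ.map fun f => f + lin a) a := by
  simpa using b1.add_lin μ 0 a hμ

theorem hab_left (a b : ℝ) {y z : ℝ} (f : CP) (hz : z ≤ 0) : hab a b y f z = f z + a * z := by
  rw [hab_apply, max_eq_left (min_le_of_left_le hz), mul_zero, add_zero]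

theorem hab_right (a b : ℝ) {y z : ℝ} (f : CP) (h0 : 0 ≤ z) (hz : z ≤ y) :
    hab a b y f z = f z + b * z := by
  rw [hab_apply, min_eq_left hz, max_eq_right h0]
  ring

theorem bdd_hab (d2 : Det2) (b1 : Bm1) (st : Stat) {μ : Measure CP} (hμ : IsBM μ 0) {a : ℝ}
    (ha : 0 < a) (b : ℝ) {y : ℝ} (hy : 0 ≤ y) (m : ℤ) (n : ℕ) :
    ∀ᵐ p ∂μ.prod (PP μ), AllBdd (hab a b y p.1) p.2 m n := by
  have := hμ.prob
  have h1 : MeasurePreserving (fun f : CP => f + lin a) μ (μ.map fun f => f + lin a) :=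
    ⟨by fun_prop, rfl⟩
  have h2 := (h1.prod (MeasurePreserving.id (PP μ))).quasiMeasurePreserving.ae
    (st.bdd μ _ a m n hμ (bm_lin b1 hμ a) ha)
  filter_upwards [h2] with p hp
  refine d2.perturb (p.1 + lin a) _ p.2 m n (|b - a| * y) (fun z => ?_) hp
  have e : (p.1 + lin a) z - hab a b y p.1 z = -((b - a) * max 0 (min z y)) := by
    rw [hab_apply, ContinuousMap.add_apply, lin_apply]
    ring
  rw [e, abs_neg, abs_mul, abs_of_nonneg (le_max_left 0 (min z y))]
  exact mul_le_mul_of_nonneg_left (max_le hy (min_le_right _ _)) (abs_nonneg _)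

/-- Recentering at `z0` and removal of the drift. -/
theorem mp_norm (b1 : Bm1) (e : EnvA) {μ ν : Measure CP} {ρ : ℝ} (hμ : IsBM μ 0) (hν : IsBM ν ρ)
    (z0 : ℝ) : MeasurePreserving
      (Prod.map (fun h : CP => shift z0 h + lin (-ρ)) (shiftE z0 0)) (ν.prod (PP μ))
      (μ.prod (PP μ)) := by
  have := hμ.prob
  have := hν.prob
  refine MeasurePreserving.prod ⟨by fun_prop, ?_⟩ (e.shiftE μ z0 0 hμ)
  have h := b1.add_lin _ ρ (-ρ) (b1.shift ν ρ z0 hν)
  rw [Measure.map_map (by fun_prop) (by fun_prop), add_neg_cancel] at h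
  exact b1.unique _ _ 0 h hμ

theorem T_shift (d1 : Det1) (ω : Env) (m k : ℤ) (z0 z y : ℝ) :
    T (shiftE z0 0 ω) m k z (y - z0) = T ω m k (z0 + z) y := by
  rw [d1.shiftE, add_zero, add_zero, add_sub_cancel]

end ExitA

open ExitA

theorem ejs (b1 : Bm1) (c : CMStmt) (st : Stat) : EjsStmt := by
  intro μ a b y m n hμ ha hb hy
  have := hμ.prob
  have hν := bm_lin b1 hμ a
  have := hν.prob
  have hm := c _ a (b - a) y hν hy
  rw [Measure.map_map (by fun_prop) (by fun_prop)] at hm
  replace hm : μ.map (hab a b y) = _ := hm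
  have hΦ : Measurable fun p : CP × Env =>
      ENNReal.ofReal (Real.exp ((a - b) * GG p.1 p.2 m n y)) := by fun_prop
  have h1 : MeasurePreserving (hab a b y) μ (μ.map (hab a b y)) := ⟨by fun_prop, rfl⟩
  have h2 := (h1.prod (MeasurePreserving.id (PP μ))).lintegral_comp hΦ
  refine h2.trans ?_
  rw [hm, prod_withDensity_left (by fun_prop),
    lintegral_withDensity_eq_lintegral_mul _ (by fun_prop) hΦ]
  have h3 := st.mgf μ _ a m n (a - b) y hμ hν ha (by linarith)
  rw [sub_sub_cancel] at h3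
  rw [mul_comm ((a / b) ^ n), ENNReal.ofReal_mul (Real.exp_pos _).le, ← h3,
    ← lintegral_const_mul _ (by fun_prop)]
  refine lintegral_congr fun p => ?_
  rw [Pi.mul_apply, ← ENNReal.ofReal_mul (Real.exp_pos _).le,
    ← ENNReal.ofReal_mul (Real.exp_pos _).le, ← Real.exp_add, ← Real.exp_add]
  congr 2
  ring

theorem exitS (d1 : Det1) (d2 : Det2) (b1 : Bm1) (e : EnvA) (st : Stat) (j : EjsStmt) : Exit := by
  refine ⟨?_, ?_, ?_⟩
  · intro μ ν b u m n z0 y hμ hν hb hu hu1 hn hy
    have hY : 0 ≤ y - z0 := sub_nonneg.2 hy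
    have hρ : 0 < b * (1 - u) := mul_pos hb (by linarith)
    have ha : 0 < b * (1 + u) := mul_pos hb (by linarith)
    refine le_trans (measure_mono ?_) ((preimage_le (mp_norm b1 e hμ hν z0)
      {p | ¬ GoodL (p.1 + lin (b * (1 - u))) p.2 m (m + n) 0 (y - z0)}).trans ?_)
    · rintro ⟨h, ω⟩ hp ⟨z, hz, c, h1, h2⟩
      refine hp ⟨z0 + z, by linarith, c + h z0, fun z' hz' => ?_, ?_⟩
      · have := h1 (z' - z0) ⟨by linarith [hz'.1], by linarith [hz'.2]⟩
        simp only [Prod.map_fst, Prod.map_snd, T_shift d1, add_sub_cancel, ContinuousMap.add_apply,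
          shift_apply, lin_apply] at this
        linarith
      · simp only [Prod.map_fst, Prod.map_snd, T_shift d1, ContinuousMap.add_apply,
          shift_apply, lin_apply] at h2
        linarith
    · have hA := j μ (b * (1 + u)) b (y - z0) m n hμ ha hb hY
      have hB := j μ (b * (1 - u)) b (y - z0) m n hμ hρ hb hY
      rw [mul_div_cancel_left₀ _ hb.ne', pow_mul_exp (by linarith)] at hA hB
      refine (markov2 (by fun_prop) (by fun_prop) ?_ hA hB).trans
        (ENNReal.ofReal_le_ofReal (Real.exp_le_exp.2 ?_))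
      · filter_upwards [bdd_hab d2 b1 st hμ ha b hY m n, bdd_hab d2 b1 st hμ hρ b hY m n]
          with p p1 p2 hp
        have l1 := d2.lub _ _ m n (y - z0) hn p1
        have key : GG (hab (b * (1 - u)) b (y - z0) p.1) p.2 m n (y - z0) ≤
            GG (hab (b * (1 + u)) b (y - z0) p.1) p.2 m n (y - z0) := by
          refine (d2.lub _ _ m n (y - z0) hn p2).2 ?_
          rintro _ ⟨z, hz, rfl⟩
          rcases le_total z 0 with h0 | h0
          · by_contra hc
            refine hp ⟨z, h0, GG (hab (b * (1 + u)) b (y - z0) p.1) p.2 m n (y - z0),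
              fun z' hz' => ?_, ?_⟩
            · have := l1.1 ⟨z', hz'.2, rfl⟩
              simp only [hab_right _ _ _ hz'.1 hz'.2] at this
              simp only [ContinuousMap.add_apply, lin_apply]
              nlinarith [mul_nonneg (mul_pos hb hu).le hz'.1]
            · simpa only [hab_left _ _ _ h0, ContinuousMap.add_apply, lin_apply, not_le] using hc
          · have := l1.1 ⟨z, hz, rfl⟩
            simpa only [hab_right _ _ _ h0 hz] using this
        nlinarith [mul_nonneg (mul_pos hb hu).le (sub_nonneg.2 key)]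
      · have h1 : Real.log (1 + u) + Real.log (1 - u) ≤ -u ^ 2 := by
          rw [← Real.log_mul (by linarith) (by linarith)]
          have := Real.log_le_sub_one_of_pos (mul_pos (by linarith : 0 < 1 + u) (sub_pos.2 hu1))
          linarith
        nlinarith [mul_le_mul_of_nonneg_left h1 (Nat.cast_nonneg (α := ℝ) n)]
  · intro μ ν a u m n z0 y hμ hν ha hu hu1 hn hy
    have hY : 0 ≤ y - z0 := sub_nonneg.2 hy
    have hb1 : 0 < a * (1 + u) := mul_pos ha (by linarith)
    have hb2 : 0 < a * (1 - u) := mul_pos ha (by linarith)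
    refine le_trans (measure_mono ?_) ((preimage_le (mp_norm b1 e hμ hν z0)
      {p | ¬ GoodR (p.1 + lin (a * (1 + u))) p.2 m (m + n) 0 (y - z0)}).trans ?_)
    · rintro ⟨h, ω⟩ hp ⟨z, hz, c, h1, h2⟩
      refine hp ⟨z0 + z, ⟨by linarith [hz.1], by linarith [hz.2]⟩, c + h z0, fun z' hz' => ?_, ?_⟩
      · have := h1 (z' - z0) (by linarith)
        simp only [Prod.map_fst, Prod.map_snd, T_shift d1, add_sub_cancel, ContinuousMap.add_apply,
          shift_apply, lin_apply] at this
        linarith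
      · simp only [Prod.map_fst, Prod.map_snd, T_shift d1, ContinuousMap.add_apply,
          shift_apply, lin_apply] at h2
        linarith
    · have hA := j μ a (a * (1 - u)) (y - z0) m n hμ ha hb2 hY
      have hB := j μ a (a * (1 + u)) (y - z0) m n hμ ha hb1 hY
      rw [div_mul_cancel_left₀ ha.ne', pow_mul_exp (inv_pos.2 (by linarith))] at hA hB
      refine (markov2 (by fun_prop) (by fun_prop) ?_ hA hB).trans
        (ENNReal.ofReal_le_ofReal (Real.exp_le_exp.2 ?_))
      · filter_upwards [bdd_hab d2 b1 st hμ ha (a * (1 - u)) hY m n,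
          bdd_hab d2 b1 st hμ ha (a * (1 + u)) hY m n] with p p1 p2 hp
        have l1 := d2.lub _ _ m n (y - z0) hn p1
        have key : GG (hab a (a * (1 + u)) (y - z0) p.1) p.2 m n (y - z0) ≤
            GG (hab a (a * (1 - u)) (y - z0) p.1) p.2 m n (y - z0) := by
          refine (d2.lub _ _ m n (y - z0) hn p2).2 ?_
          rintro _ ⟨z, hz, rfl⟩
          rcases le_total z 0 with h0 | h0
          · have := l1.1 ⟨z, hz, rfl⟩
            simpa only [hab_left _ _ _ h0] using this
          · by_contra hc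
            refine hp ⟨z, ⟨h0, hz⟩, GG (hab a (a * (1 - u)) (y - z0) p.1) p.2 m n (y - z0),
              fun z' hz' => ?_, ?_⟩
            · have := l1.1 ⟨z', hz'.trans hY, rfl⟩
              simp only [hab_left _ _ _ hz'] at this
              simp only [ContinuousMap.add_apply, lin_apply]
              nlinarith [mul_nonneg (mul_pos ha hu).le (neg_nonneg.2 hz')]
            · simpa only [hab_right _ _ _ h0 hz, ContinuousMap.add_apply, lin_apply, not_le]
                using hc
        nlinarith [mul_nonneg (mul_pos ha hu).le (sub_nonneg.2 key)]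
      · have h0 : 0 < 1 - u ^ 2 := by nlinarith
        have h1 : Real.log (1 - u)⁻¹ + Real.log (1 + u)⁻¹ ≤ u ^ 2 / (1 - u ^ 2) := by
          rw [← Real.log_mul (inv_ne_zero (by linarith)) (inv_ne_zero (by linarith)), ← mul_inv,
            show (1 - u) * (1 + u) = 1 - u ^ 2 by ring]
          refine (Real.log_le_sub_one_of_pos (inv_pos.2 h0)).trans (le_of_eq ?_)
          field_simp
          ring
        have h2 := mul_le_mul_of_nonneg_left h1 (Nat.cast_nonneg (α := ℝ) n)
        have h3 : u ^ 2 * (n / (1 - u ^ 2)) = n * (u ^ 2 / (1 - u ^ 2)) := by ring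
        nlinarith
  · intro μ m n x y δ r hμ hn hy hδ hδ1
    have := hμ.prob
    have hY : 0 ≤ y - x := sub_nonneg.2 hy
    have ha : 0 < 1 + δ := by linarith
    have hb : 0 < 1 - δ := by linarith
    refine le_trans (measure_mono ?_) ((preimage_le (e.shiftE μ x 0 hμ)
      {ω | (y - x) + n + r ≤ T ω m (m + n) 0 (y - x)}).trans ?_)
    · intro ω hω
      simpa only [mem_preimage, mem_ofPred_eq, T_shift d1, add_zero] using hω
    · have hA := j μ (1 + δ) (1 - δ) (y - x) m n hμ ha hb hY
      rw [pow_mul_exp (div_pos ha hb)] at hA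
      rw [← prod_snd_preimage μ]
      refine (markov1 (t := 2 * δ * ((y - x) + n + r)) (by fun_prop) ?_ hA).trans
        (ENNReal.ofReal_le_ofReal (Real.exp_le_exp.2 ?_))
      · have hz : ∀ᵐ p ∂μ.prod (PP μ), p.1 0 = 0 :=
          Measure.quasiMeasurePreserving_fst.ae (b1.zero μ 0 hμ)
        filter_upwards [bdd_hab d2 b1 st hμ ha (1 - δ) hY m n, hz] with p p1 p2 hp
        have h1 := (d2.lub _ _ m n (y - x) hn p1).1 ⟨0, hY, rfl⟩
        simp only [hab_left _ _ _ le_rfl, p2] at h1
        have h2 : (y - x) + n + r ≤ T p.2 m (m + n) 0 (y - x) := hp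
        nlinarith
      · have h1 := Real.log_div_le_sum_range_add hδ.le (by linarith) 3
        have h2 : δ ^ 2 ≤ 1 / 4 := by nlinarith
        have h3 : δ ^ (2 * 3 + 1) / (1 - δ ^ 2) ≤ δ ^ 3 / 12 := by
          rw [div_le_iff₀ (by linarith)]
          have h4 : δ ^ 4 ≤ 1 / 16 := by nlinarith
          nlinarith [mul_le_mul_of_nonneg_left h4 (pow_pos hδ 3).le,
            mul_le_mul_of_nonneg_left h2 (pow_pos hδ 3).le]
        have h5 : Real.log ((1 + δ) / (1 - δ)) ≤ 2 * δ + δ ^ 3 := by
          simp only [Finset.sum_range_succ, Finset.sum_range_zero] at h1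
          norm_num at h1 h3
          nlinarith [mul_le_mul_of_nonneg_left h2 (pow_pos hδ 3).le, pow_pos hδ 3]
        nlinarith [mul_le_mul_of_nonneg_left h5 (Nat.cast_nonneg (α := ℝ) n)]

end Pool.Agent.MP_3d8edd_pr.H69
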