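import Pool.Agent.MP_3d8edd_pr.H69.Basic

/-!
The assembly of the two answers from the statements of the steps.
-/

open MeasureTheory ProbabilityTheory Set Filter
open scoped NNReal ENNReal Topology

namespace Pool.Agent.MP_3d8edd_pr.H69

universe u

namespace FinalA

variable {Ω : Type u} [MeasurableSpace Ω] {P : Measure Ω}

theorem card_box {m k i0 i1 : ℤ} (h1 : m ≤ k) (h2 : i0 ≤ i1) :
    ((box m k i0 i1).card : ℝ) = (k - m) * (i1 - i0) := by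
  unfold box
  rw [Finset.card_product, Int.card_Ico, Int.card_Ioc]
  have a1 : (((i1 - i0).toNat : ℤ) : ℝ) = ((i1 - i0 : ℤ) : ℝ) := by
    rw [Int.toNat_of_nonneg (by omega)]
  have a2 : (((k - m).toNat : ℤ) : ℝ) = ((k - m : ℤ) : ℝ) := by
    rw [Int.toNat_of_nonneg (by omega)]
  push_cast at a1 a2 ⊢
  rw [a1, a2]; ring

theorem dyn_of_work (ct : Cat) (un : UnionStmt.{u}) (mv : MoveStmt.{u}) {π : Measure CP}
    {Y : (ℤ × ℤ) × ℤ → Ω → CP} {N : ℤ × ℤ → ℝ → Ω → ℤ} (h : Work P π Y N) :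
    ∃ μ, Dyn P μ (fun t ω => envOf fun c => Y (c, N c t ω) ω) := by
  obtain ⟨μ, hμ, hl⟩ := ct.law π h.piece
  refine ⟨μ, hμ, fun E m k i0 i1 t0 s hmk hi hs hE => ?_,
    fun m k i0 i1 t0 s r hmk hi hs hs1 hr => mv Ω P π Y N h m k i0 i1 t0 s r hmk hi hs hs1 hr⟩
  have := un Ω P π Y N h (envOf ⁻¹' E) (box m k i0 i1) t0 s hs
    (fun ξ ξ' hξ h' => hE _ _ (ct.agree ξ ξ' m k i0 i1 hξ) h')
  rw [card_box hmk hi] at this
  refine this.trans ?_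
  gcongr
  exact preimage_le ⟨ct.meas, hl⟩ E

theorem dyn_shift (d1 : Det1) (e : EnvA) {μ : Measure CP} {W : ℝ → Ω → Env} (h : Dyn P μ W)
    (c l : ℤ) : Dyn P μ (fun t ω => shiftE c l (W t ω)) := by
  refine ⟨h.bm, fun E m k i0 i1 t0 s hmk hi hs hE => ?_,
    fun m k i0 i1 t0 s r hmk hi hs hs1 hr => ?_⟩
  · have hL : Loc (shiftE c l ⁻¹' E) (m + l) (k + l) ((c + i0 : ℤ) : ℝ) ((c + i1 : ℤ) : ℝ) := by
      intro ω ω' ha hω
      refine hE _ _ (fun j a b u hu v hv => ?_) hω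
      have := ha (j + l) (by omega) (by omega) (c + u)
        ⟨by push_cast; linarith [hu.1], by push_cast; linarith [hu.2]⟩ (c + v)
        ⟨by push_cast; linarith [hv.1], by push_cast; linarith [hv.2]⟩
      simp only [shiftE, shift_apply]
      linarith
    have := h.union _ (m + l) (k + l) (c + i0) (c + i1) t0 s (by omega) (by omega) hs hL
    have e1 : (1 + (((k + l : ℤ) : ℝ) - ((m + l : ℤ) : ℝ)) *
        (((c + i1 : ℤ) : ℝ) - ((c + i0 : ℤ) : ℝ)) * s) = 1 + ((k : ℝ) - m) * (i1 - i0) * s := by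
      push_cast; ring
    rw [e1] at this
    exact this.trans (mul_le_mul_right (preimage_le (e.shiftE μ c l h.bm) E) _)
  · have := h.move (m + l) (k + l) (c + i0) (c + i1) t0 s r (by omega) (by omega) hs hs1 hr
    have e1 : (((k + l : ℤ) : ℝ) - ((m + l : ℤ) : ℝ)) = (k : ℝ) - m := by push_cast; ring
    have e2 : (((c + i1 : ℤ) : ℝ) - ((c + i0 : ℤ) : ℝ)) = (i1 : ℝ) - i0 := by push_cast; ring
    rw [e1, e2] at this
    simpa only [d1.shiftE, Int.cast_add] using this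

/-- The environment of the model is almost surely the working environment at all times. -/
theorem model (ct : Cat) (rd : ReduceStmt.{u}) (un : UnionStmt.{u}) (mv : MoveStmt.{u})
    {X : ℤ × ℤ → ℤ → ℝ≥0 → Ω → ℝ} {N : ℤ × ℤ → ℝ → Ω → ℤ} (h : IsModel P X N) :
    ∃ (μ : Measure CP) (W : ℝ → Ω → Env), Dyn P μ W ∧
      ∀ᵐ ω ∂P, ∀ t, envAt X N t ω = fun n x => W t ω n x := by
  obtain ⟨π, Y, hw, hae⟩ := rd Ω P X N h
  obtain ⟨μ, hd⟩ := dyn_of_work ct un mv hw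
  refine ⟨μ, _, hd, hae.mono fun ω hω t => ?_⟩
  funext n x
  exact ct.line (fun i s => X (i, n) (N (i, n) t ω) s ω) (fun i => Y ((i, n), N (i, n) t ω) ω)
    (fun i => hω.1 _ _) (fun i s => hω.2 _ _ s) x

/-- A nontrivial bigeodesic, moved to the origin. -/
theorem normalise (d1 : Det1) (sr : StructStmt) {ω : Env} {Γ : Set (ℝ × ℤ)}
    (h1 : IsBigeodesic (fun n x => ω n x) Γ) (h2 : IsNontrivial Γ) (h3 : NoRay ω) :
    ∃ (c l : ℤ) (x : ℤ → ℝ), IsBi (shiftE c l ω) x ∧ x 0 < x 1 ∧ |x 0| ≤ 1 ∧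
      ∀ j, (x j + c, j + l) ∈ Γ := by
  obtain ⟨x, hx, ⟨k, hk⟩, hΓ⟩ := sr ω Γ h1 h2 h3
  refine ⟨⌊x k⌋, k, fun j => x (j + k) - (⌊x k⌋ : ℤ), d1.bi_shift ω _ k x hx, ?_, ?_, fun j => ?_⟩
  · simp only [zero_add, add_comm 1 k]; linarith
  · simp only [zero_add]
    rw [abs_le]
    constructor <;> linarith [Int.floor_le (x k), Int.lt_floor_add_one (x k)]
  · simpa using hΓ (j + k)

theorem tendsto_dir {θ : ℝ} {Γ : Set (ℝ × ℤ)} (hd : IsDirected θ Γ) {c l : ℤ} {x : ℤ → ℝ}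
    (hx : ∀ j, (x j + c, j + l) ∈ Γ) :
    Tendsto (fun i : ℕ => x ((2 ^ i : ℕ) : ℤ) / 2 ^ i) atTop (𝓝 θ) := by
  have h2 : Tendsto (fun i : ℕ => (2 : ℝ) ^ i) atTop atTop :=
    tendsto_pow_atTop_atTop_of_one_lt one_lt_two
  have h2' : Tendsto (fun i : ℕ => ((2 ^ i : ℕ) : ℤ) + l) atTop atTop := by
    refine tendsto_atTop_add_const_right _ _ (tendsto_natCast_atTop_atTop.comp ?_)
    exact tendsto_pow_atTop_atTop_of_one_lt one_lt_two
  have h3 := hd (fun i => (x ((2 ^ i : ℕ) : ℤ) + c, ((2 ^ i : ℕ) : ℤ) + l)) (fun i => hx _)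
    (tendsto_abs_atTop_atTop.comp h2')
  have h4 : Tendsto (fun i : ℕ => 1 + (l : ℝ) / 2 ^ i) atTop (𝓝 (1 + 0)) :=
    tendsto_const_nhds.add (tendsto_const_nhds.div_atTop h2)
  have h5 : Tendsto (fun i : ℕ => (c : ℝ) / 2 ^ i) atTop (𝓝 0) := tendsto_const_nhds.div_atTop h2
  have h6 := (h3.mul h4).sub h5
  simp only [add_zero, mul_one, sub_zero] at h6
  refine h6.congr' ?_
  filter_upwards [h2'.eventually_gt_atTop 0] with i hi
  have hi' : (0 : ℝ) < (2 : ℝ) ^ i + l := by exact_mod_cast hi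
  push_cast
  field_simp
  ring

end FinalA

open FinalA

theorem final2 (d1 : Det1) (e : EnvA) (ct : Cat) (rd : ReduceStmt.{u}) (un : UnionStmt.{u})
    (mv : MoveStmt.{u}) (ry : RayStmt.{u}) (sr : StructStmt) (c2 : Core2Stmt.{u})
    {Ω : Type u} [MeasurableSpace Ω] (P : Measure Ω) (X : ℤ × ℤ → ℤ → ℝ≥0 → Ω → ℝ)
    (N : ℤ × ℤ → ℝ → Ω → ℤ) (h : IsModel P X N) (θ : ℝ) (hθ : 0 < θ) :
    ∀ᵐ ω ∂P, {t : ℝ | ∃ Γ, IsBigeodesic (envAt X N t ω) Γ ∧ IsNontrivial Γ ∧ IsDirected θ Γ} = ∅ := by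
  obtain ⟨μ, W, hd, hae⟩ := model ct rd un mv h
  have h1 := ry Ω P μ W hd
  have h2 := ae_all_iff.2 fun p : ℤ × ℤ => c2 Ω P μ _ (dyn_shift d1 e hd p.1 p.2) θ hθ
  filter_upwards [hae, h1, h2] with ω a1 a2 a3
  refine eq_empty_of_forall_notMem ?_
  rintro t ⟨Γ, b1, b2, b3⟩
  rw [a1 t] at b1
  obtain ⟨c, l, x, x1, x2, x3, x4⟩ := normalise d1 sr b1 b2 (a2 t)
  exact a3 (c, l) t x x1 x2 x3 (tendsto_dir b3 x4)

theorem final1 (d1 : Det1) (e : EnvA) (ct : Cat) (rd : ReduceStmt.{u}) (un : UnionStmt.{u})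
    (mv : MoveStmt.{u}) (ry : RayStmt.{u}) (sr : StructStmt) (c1 : Core1Stmt.{u})
    {Ω : Type u} [MeasurableSpace Ω] (P : Measure Ω) (X : ℤ × ℤ → ℤ → ℝ≥0 → Ω → ℝ)
    (N : ℤ × ℤ → ℝ → Ω → ℤ) (h : IsModel P X N) :
    ∀ᵐ ω ∂P, dimH {t : ℝ | ∃ Γ, IsBigeodesic (envAt X N t ω) Γ ∧ IsNontrivial Γ} = 0 := by
  obtain ⟨μ, W, hd, hae⟩ := model ct rd un mv h
  have h1 := ry Ω P μ W hd
  have h2 := ae_all_iff.2 fun p : ℤ × ℤ => c1 Ω P μ _ (dyn_shift d1 e hd p.1 p.2)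
  filter_upwards [hae, h1, h2] with ω a1 a2 a3
  refine le_antisymm ?_ (zero_le)
  calc dimH {t : ℝ | ∃ Γ, IsBigeodesic (envAt X N t ω) Γ ∧ IsNontrivial Γ}
      ≤ dimH (⋃ p : ℤ × ℤ,
          {t | ∃ x, IsBi (shiftE p.1 p.2 (W t ω)) x ∧ x 0 < x 1 ∧ |x 0| ≤ 1}) := by
        refine dimH_mono ?_
        rintro t ⟨Γ, b1, b2⟩
        rw [a1 t] at b1
        obtain ⟨c, l, x, x1, x2, x3, -⟩ := normalise d1 sr b1 b2 (a2 t)
        exact mem_iUnion.2 ⟨(c, l), x, x1, x2, x3⟩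
    _ = 0 := by
        rw [dimH_iUnion]
        simp [a3]

end Pool.Agent.MP_3d8edd_pr.H69
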