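import Pool.Agent.MP_3d8edd_pr.H69.Basic

/-!
Row JOINT: two stationary processes in the same environment.
-/

open MeasureTheory ProbabilityTheory Set Filter
open scoped NNReal ENNReal Topology

namespace Pool.Agent.MP_3d8edd_pr.H69

namespace JointA

theorem bdd_add_cst {f w : CP} (h : Bdd f w) (c : ℝ) : Bdd (f + cst c) w := by
  obtain ⟨K, hK⟩ := h
  refine ⟨K + c, ?_⟩
  rintro _ ⟨z, hz, rfl⟩
  have := hK ⟨z, hz, rfl⟩
  simp only [ContinuousMap.sub_apply, ContinuousMap.add_apply, cst_apply] at this ⊢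
  linarith

theorem qG_eq (f w : CP) : qG f w = qD f w + cst (qJ f w) := by
  unfold qD; abel

theorem qG_add_cst (d2 : Det2) {f w : CP} (h : Bdd f w) (c : ℝ) :
    qG (f + cst c) w = qG f w + cst c := by
  have := d2.add_cst f (fun _ => w) 0 1 c (fun i hi => by
    obtain rfl : i = 0 := by omega
    exact h)
  exact this

theorem shift_add_cst (g : CP) (c : ℝ) : shift 0 (g + cst c) = shift 0 g := by
  ext x
  simp

theorem cst_add (a b : ℝ) : cst (a + b) = cst a + cst b := by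
  ext x
  simp

theorem shift_zero {g : CP} (h : g 0 = 0) : shift 0 g = g := by
  ext x
  simp [h]

theorem rmax_congr {g g' : CP} {x : ℝ} (h : ∀ z ≤ x, g z = g' z) : rmax g x = rmax g' x := by
  have e : g '' Iic x = g' '' Iic x := image_congr fun z hz => h z hz
  rw [rmax_eq, rmax_eq, e]

theorem past_qD (f w : CP) : past (qD f w) = past (qD f (past w)) := by
  ext x
  have e : ∀ y ≤ (0 : ℝ), rmax (f - w) y = rmax (f - past w) y := fun y hy =>
    rmax_congr fun z hz => by simp [min_eq_left (hz.trans hy)]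
  simp only [past_apply, qD_apply, e _ (min_le_right x 0), e 0 le_rfl, min_assoc, min_self]

theorem GG_dep (h : CP) (ω ω' : Env) (m : ℤ) (n : ℕ)
    (H : ∀ j, m < j → j ≤ m + n → ω j = ω' j) : GG h ω m n = GG h ω' m n := by
  induction n with
  | zero => rfl
  | succ n ih =>
    rw [GG_succ, GG_succ, ih fun j a b => H j a (by push_cast; omega),
      H _ (by omega) (by push_cast; omega)]

/-- The pair of processes. -/
noncomputable def Phi (m : ℤ) (n : ℕ) (p : (CP × CP) × Env) : CP × CP :=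
  (fut (shift 0 (GG p.1.1 p.2 m n)), past (shift 0 (GG (qD p.1.2 p.1.1) p.2 m n)))

theorem measurable_Phi (m : ℤ) (n : ℕ) : Measurable (Phi m n) := by
  unfold Phi; fun_prop

/-- The deterministic step. -/
theorem Phi_succ (d2 : Det2) (f₁ f₂ w : CP) (ω : Env) (m : ℤ) (n : ℕ) (h1 : Bdd f₂ f₁)
    (h2 : Bdd f₁ w) (h3 : Bdd f₂ (qR f₁ w)) (h4 : Bdd (qD f₂ f₁) w)
    (h5 : Bdd (qD f₂ (qR f₁ w)) (qD f₁ w)) (h6 : AllBdd (qD f₁ w) ω (m + 1) n)
    (h7 : AllBdd (qD (qD f₂ (qR f₁ w)) (qD f₁ w)) ω (m + 1) n) :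
    Phi m (n + 1) ((f₁, f₂), Function.update ω (m + 1) w) =
      Phi (m + 1) n ((qD f₁ w, qD f₂ (qR f₁ w)), ω) := by
  have key : ∀ h : CP, GG h (Function.update ω (m + 1) w) m (n + 1) = GG (qG h w) ω (m + 1) n := by
    intro h
    rw [add_comm n 1, d2.comp]
    have e1 : GG h (Function.update ω (m + 1) w) m 1 = qG h w := by
      rw [GG_succ]; simp
    rw [e1, Nat.cast_one]
    exact GG_dep _ _ _ _ _ fun j hj _ => Function.update_of_ne hj.ne' _ _
  have h4' : Bdd (qG f₂ f₁) w := by rw [qG_eq]; exact bdd_add_cst h4 _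
  have h5' : Bdd (qG f₂ (qR f₁ w)) (qD f₁ w) := by rw [qG_eq]; exact bdd_add_cst h5 _
  have sw := d2.swap f₁ f₂ w h1 h2 h3 h4' h5'
  rw [qG_eq f₂ f₁, qG_add_cst d2 h4, qG_eq f₂ (qR f₁ w), qG_add_cst d2 h5,
    qG_eq (qD f₂ (qR f₁ w))] at sw
  have e2 : qG (qD f₂ f₁) w = qD (qD f₂ (qR f₁ w)) (qD f₁ w) +
      cst (qJ (qD f₂ (qR f₁ w)) (qD f₁ w) + qJ f₂ (qR f₁ w) - qJ f₂ f₁) := by
    ext x
    have := congrArg (fun g : CP => g x) sw
    simp only [ContinuousMap.add_apply, cst_apply] at this ⊢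
    linarith
  unfold Phi
  simp only [key]
  rw [e2, d2.add_cst _ _ _ _ _ h7, shift_add_cst, qG_eq f₁ w, d2.add_cst _ _ _ _ _ h6,
    shift_add_cst]

section
variable {α β γ δ : Type*} [MeasurableSpace α] [MeasurableSpace β] [MeasurableSpace γ]
  [MeasurableSpace δ] (a : Measure α) (b : Measure β) (c : Measure γ) (d : Measure δ)
  [SFinite a] [SFinite b] [SFinite c] [SFinite d]

omit [SFinite a] in
theorem mp_assoc : MeasurePreserving (fun p : (α × β) × γ => (p.1.1, (p.1.2, p.2)))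
    ((a.prod b).prod c) (a.prod (b.prod c)) := measurePreserving_prodAssoc a b c

omit [SFinite a] in
theorem mp_assoc' : MeasurePreserving (fun p : α × (β × γ) => ((p.1, p.2.1), p.2.2))
    (a.prod (b.prod c)) ((a.prod b).prod c) := (measurePreserving_prodAssoc a b c).symm

theorem mp_swap : MeasurePreserving (fun p : α × β => (p.2, p.1)) (a.prod b) (b.prod a) :=
  Measure.measurePreserving_swap

theorem mp_B : MeasurePreserving (fun p : (α × β) × γ => (p.1.1, (p.2, p.1.2)))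
    ((a.prod b).prod c) (a.prod (c.prod b)) :=
  ((MeasurePreserving.id a).prod (mp_swap b c)).comp (mp_assoc a b c)

theorem mp_four : MeasurePreserving
    (fun p : ((α × β) × γ) × δ => ((p.1.1.1, p.1.2), (p.2, p.1.1.2)))
    (((a.prod b).prod c).prod d) ((a.prod c).prod (d.prod b)) :=
  (mp_B (a.prod c) b d).comp
    (((mp_assoc' a c b).comp (mp_B a b c)).prod (MeasurePreserving.id d))

end

theorem mp_DR (bu : BurkeStmt) {μ ν : Measure CP} {a b : ℝ} (hμ : IsBM μ a) (hν : IsBM ν b)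
    (h : b < a) : MeasurePreserving (fun p : CP × CP => (qD p.1 p.2, qR p.1 p.2))
      (μ.prod ν) (μ.prod ν) :=
  ⟨by fun_prop, (bu μ ν a b hμ hν h).2.1⟩

theorem mp_D (bu : BurkeStmt) {μ ν : Measure CP} {a b : ℝ} (hμ : IsBM μ a) (hν : IsBM ν b)
    (h : b < a) : MeasurePreserving (fun p : CP × CP => qD p.1 p.2) (μ.prod ν) μ := by
  have := hμ.prob
  have := hν.prob
  exact measurePreserving_fst.comp (mp_DR bu hμ hν h)

theorem base (b1 : Bm1) (bu : BurkeStmt) {ν₁ ν₂ : Measure CP} {a₁ a₂ : ℝ} (h1 : IsBM ν₁ a₁)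
    (h2 : IsBM ν₂ a₂) (h : a₁ < a₂) :
    MeasurePreserving (fun p : CP × CP => (fut p.1, past (qD p.2 p.1))) (ν₁.prod ν₂)
      ((ν₁.map fut).prod (ν₂.map past)) := by
  have := h1.prob
  have := h2.prob
  have : IsProbabilityMeasure (ν₁.map fut) :=
    Measure.isProbabilityMeasure_map measurable_fut.aemeasurable
  have : IsProbabilityMeasure (ν₁.map past) :=
    Measure.isProbabilityMeasure_map measurable_past.aemeasurable
  have m1 : MeasurePreserving (fun f : CP => (past f, fut f)) ν₁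
      ((ν₁.map past).prod (ν₁.map fut)) := ⟨by fun_prop, b1.past_fut ν₁ a₁ h1⟩
  have m2 : MeasurePreserving (fun p : CP × CP => (fut p.1, (past p.1, p.2))) (ν₁.prod ν₂)
      ((ν₁.map fut).prod ((ν₁.map past).prod ν₂)) :=
    (mp_assoc _ _ _).comp (((mp_swap _ _).comp m1).prod (MeasurePreserving.id ν₂))
  have m3 : MeasurePreserving (fun p : CP × CP => past (qD p.2 p.1)) (ν₁.prod ν₂)
      (ν₂.map past) := by
    have := (measurable_past.measurePreserving ν₂).comp ((mp_D bu h2 h1 h).comp (mp_swap ν₁ ν₂))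
    simpa only [Function.comp_def] using this
  have m4 : MeasurePreserving (fun p : CP × CP => (past p.1, p.2)) (ν₁.prod ν₂)
      ((ν₁.map past).prod ν₂) :=
    (measurable_past.measurePreserving ν₁).prod (MeasurePreserving.id ν₂)
  have m5 : MeasurePreserving (fun p : CP × CP => past (qD p.2 p.1)) ((ν₁.map past).prod ν₂)
      (ν₂.map past) := by
    have hm : Measurable fun p : CP × CP => past (qD p.2 p.1) := by fun_prop
    refine ⟨hm, ?_⟩
    rw [← m4.map_eq, Measure.map_map hm m4.measurable, ← m3.map_eq]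
    congr 1
    funext p
    exact (past_qD p.2 p.1).symm
  have m6 := ((MeasurePreserving.id (ν₁.map fut)).prod m5).comp m2
  have e : (fun p : CP × CP => (fut p.1, past (qD p.2 p.1))) =
      (Prod.map id fun p : CP × CP => past (qD p.2 p.1)) ∘
        fun p : CP × CP => (fut p.1, (past p.1, p.2)) := by
    funext p
    exact Prod.ext rfl (past_qD p.2 p.1)
  rw [e]
  exact m6

end JointA

open JointA in
theorem joint (d2 : Det2) (b1 : Bm1) (e : EnvA) (bu : BurkeStmt) (st : Stat) : JointStmt := by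
  intro μ ν₁ ν₂ a₁ a₂ m n hμ h1 h2 ha h12
  have := hμ.prob
  have := h1.prob
  have := h2.prob
  have ha2 : 0 < a₂ := ha.trans h12
  change ((ν₁.prod ν₂).prod (PP μ)).map (Phi m n) = _
  induction n generalizing m with
  | zero =>
    have mf : MeasurePreserving (Prod.fst : (CP × CP) × Env → CP × CP)
        ((ν₁.prod ν₂).prod (PP μ)) (ν₁.prod ν₂) := measurePreserving_fst
    rw [← ((base b1 bu h1 h2 h12).comp mf).map_eq]
    apply Measure.map_congr
    have z := (measurePreserving_fst.comp mf).quasiMeasurePreserving.ae (b1.zero ν₁ a₁ h1)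
    filter_upwards [z] with p hp
    have hp' : p.1.1 0 = 0 := hp
    have hq : qD p.1.2 p.1.1 0 = 0 := by rw [qD_apply, hp']; ring
    simp only [Phi, GG_zero, shift_zero hp', shift_zero hq, Function.comp]
  | succ n ih =>
    have mU : MeasurePreserving
        (fun p : ((CP × CP) × CP) × Env =>
          ((p.1.1.1, p.1.2), Function.update p.2 (m + 1) p.1.1.2))
        (((ν₁.prod μ).prod ν₂).prod (PP μ)) ((ν₁.prod ν₂).prod (PP μ)) :=
      ((MeasurePreserving.id (ν₁.prod ν₂)).prod (e.update μ (m + 1) hμ)).comp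
        (mp_four ν₁ μ ν₂ (PP μ))
    have mA : MeasurePreserving
        (fun p : (CP × CP) × CP => (qD p.1.1 p.1.2, (p.2, qR p.1.1 p.1.2)))
        ((ν₁.prod μ).prod ν₂) (ν₁.prod (ν₂.prod μ)) :=
      (mp_B ν₁ μ ν₂).comp ((mp_DR bu h1 hμ ha).prod (MeasurePreserving.id ν₂))
    have mT : MeasurePreserving
        (fun p : (CP × CP) × CP => (qD p.1.1 p.1.2, qD p.2 (qR p.1.1 p.1.2)))
        ((ν₁.prod μ).prod ν₂) (ν₁.prod ν₂) :=
      ((MeasurePreserving.id ν₁).prod (mp_D bu h2 hμ ha2)).comp mA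
    have mP : MeasurePreserving
        (fun p : ((CP × CP) × CP) × Env =>
          ((qD p.1.1.1 p.1.1.2, qD p.1.2 (qR p.1.1.1 p.1.1.2)), p.2))
        (((ν₁.prod μ).prod ν₂).prod (PP μ)) ((ν₁.prod ν₂).prod (PP μ)) :=
      mT.prod (MeasurePreserving.id (PP μ))
    have mf : MeasurePreserving (Prod.fst : ((CP × CP) × CP) × Env → (CP × CP) × CP)
        (((ν₁.prod μ).prod ν₂).prod (PP μ)) ((ν₁.prod μ).prod ν₂) := measurePreserving_fst
    have k1 : MeasurePreserving (fun p : (CP × CP) × CP => (p.2, p.1.1))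
        ((ν₁.prod μ).prod ν₂) (ν₂.prod ν₁) :=
      (mp_swap ν₁ ν₂).comp ((measurePreserving_fst (μ := ν₁) (ν := μ)).prod
        (MeasurePreserving.id ν₂))
    have k2 : MeasurePreserving (fun p : (CP × CP) × CP => p.1)
        ((ν₁.prod μ).prod ν₂) (ν₁.prod μ) := measurePreserving_fst
    have k3 : MeasurePreserving (fun p : (CP × CP) × CP => (p.2, qR p.1.1 p.1.2))
        ((ν₁.prod μ).prod ν₂) (ν₂.prod μ) := measurePreserving_snd.comp mA
    have k4 : MeasurePreserving (fun p : (CP × CP) × CP => (qD p.2 p.1.1, p.1.2))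
        ((ν₁.prod μ).prod ν₂) (ν₂.prod μ) := by
      have := ((mp_D bu h2 h1 h12).prod (MeasurePreserving.id μ)).comp
        ((mp_assoc' ν₂ ν₁ μ).comp (mp_swap (ν₁.prod μ) ν₂))
      simpa only [Function.comp_def, Prod.map, id] using this
    have k5 : MeasurePreserving
        (fun p : (CP × CP) × CP => (qD p.2 (qR p.1.1 p.1.2), qD p.1.1 p.1.2))
        ((ν₁.prod μ).prod ν₂) (ν₂.prod ν₁) := (mp_swap ν₁ ν₂).comp mT
    have k5' : MeasurePreserving
        (fun p : (CP × CP) × CP => qD (qD p.2 (qR p.1.1 p.1.2)) (qD p.1.1 p.1.2))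
        ((ν₁.prod μ).prod ν₂) ν₂ := by
      have := (mp_D bu h2 h1 h12).comp k5
      simpa only [Function.comp_def] using this
    have k6 : MeasurePreserving
        (fun p : ((CP × CP) × CP) × Env => (qD p.1.1.1 p.1.1.2, p.2))
        (((ν₁.prod μ).prod ν₂).prod (PP μ)) (ν₁.prod (PP μ)) :=
      ((mp_D bu h1 hμ ha).comp k2).prod (MeasurePreserving.id (PP μ))
    have k7 : MeasurePreserving
        (fun p : ((CP × CP) × CP) × Env =>
          (qD (qD p.1.2 (qR p.1.1.1 p.1.1.2)) (qD p.1.1.1 p.1.1.2), p.2))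
        (((ν₁.prod μ).prod ν₂).prod (PP μ)) (ν₂.prod (PP μ)) :=
      k5'.prod (MeasurePreserving.id (PP μ))
    have a1 := (k1.comp mf).quasiMeasurePreserving.ae (bu ν₂ ν₁ a₂ a₁ h2 h1 h12).1
    have a2 := (k2.comp mf).quasiMeasurePreserving.ae (bu ν₁ μ a₁ 0 h1 hμ ha).1
    have a3 := (k3.comp mf).quasiMeasurePreserving.ae (bu ν₂ μ a₂ 0 h2 hμ ha2).1
    have a4 := (k4.comp mf).quasiMeasurePreserving.ae (bu ν₂ μ a₂ 0 h2 hμ ha2).1
    have a5 := (k5.comp mf).quasiMeasurePreserving.ae (bu ν₂ ν₁ a₂ a₁ h2 h1 h12).1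
    have a6 := k6.quasiMeasurePreserving.ae (st.bdd μ ν₁ a₁ (m + 1) n hμ h1 ha)
    have a7 := k7.quasiMeasurePreserving.ae (st.bdd μ ν₂ a₂ (m + 1) n hμ h2 ha2)
    rw [← ih (m + 1)]
    conv_lhs => rw [← mU.map_eq, Measure.map_map (measurable_Phi _ _) mU.measurable]
    conv_rhs => rw [← mP.map_eq, Measure.map_map (measurable_Phi _ _) mP.measurable]
    apply Measure.map_congr
    filter_upwards [a1, a2, a3, a4, a5, a6, a7] with p p1 p2 p3 p4 p5 p6 p7
    exact Phi_succ d2 _ _ _ _ m n p1 p2 p3 p4 p5 p6 p7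

end Pool.Agent.MP_3d8edd_pr.H69
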