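import Pool.Agent.MP_3d8edd_pr.H69.Basic

/-!
The left tail of the point to point passage time.
-/

open MeasureTheory ProbabilityTheory Set Filter
open scoped NNReal ENNReal Topology

namespace Pool.Agent.MP_3d8edd_pr.H69

namespace LeftA

/-- One sided oscillation bound around the drift. -/
theorem oscL (b1 : Bm1) (rf : Ref) {ν : Measure CP} {ρ w m : ℝ} (hν : IsBM ν ρ) (hw : 0 < w)
    (hm : 0 ≤ m) :
    ν {g : CP | ∃ x ∈ Icc (-w) w, 2 * m < g x - g 0 - ρ * x} ≤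
      ENNReal.ofReal (4 * Real.exp (-m ^ 2 / (2 * (2 * w)))) := by
  have h0 : IsBM (ν.map fun f => f + lin (-ρ)) 0 := by
    have := b1.add_lin ν ρ (-ρ) hν
    rwa [add_neg_cancel] at this
  have hmp : MeasurePreserving (fun f : CP => f + lin (-ρ)) ν (ν.map fun f => f + lin (-ρ)) :=
    ⟨by fun_prop, rfl⟩
  refine le_trans ?_ (rf.osc _ 0 (-w) (2 * w) m h0 (by linarith) hm)
  refine le_trans (measure_mono ?_) (preimage_le hmp _)
  rintro g ⟨x, hx, hg⟩
  by_contra hc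
  simp only [mem_preimage, mem_ofPred_eq, not_exists, not_and, not_lt] at hc
  have h1 := hc x ⟨hx.1, by linarith [hx.2]⟩
  have h2 := hc 0 ⟨by linarith, by linarith⟩
  simp only [ContinuousMap.add_apply, lin_apply, abs_zero, zero_mul, add_zero, mul_zero] at h1 h2
  rw [abs_le] at h1 h2
  linarith [h1.2, h2.1]

/-- Adding a drift to the boundary and moving the environment. -/
theorem mp_drift {μ : Measure CP} (hμ : IsBM μ 0) (ρ : ℝ) {Φ : Env → Env}
    (hΦ : MeasurePreserving Φ (PP μ) (PP μ)) :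
    MeasurePreserving (fun p : CP × Env => (p.1 + lin ρ, Φ p.2)) (μ.prod (PP μ))
      ((μ.map fun f => f + lin ρ).prod (PP μ)) := by
  have := hμ.prob
  have hmp : MeasurePreserving (fun f : CP => f + lin ρ) μ (μ.map fun f => f + lin ρ) :=
    ⟨by fun_prop, rfl⟩
  exact hmp.prod hΦ

theorem bm_drift (b1 : Bm1) {μ : Measure CP} (hμ : IsBM μ 0) (ρ : ℝ) :
    IsBM (μ.map fun f => f + lin ρ) ρ := by
  have := b1.add_lin μ 0 ρ hμ
  rwa [zero_add] at this

/-- Localisation of the exit point for the mixed boundary. -/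
theorem localise (d2 : Det2) {f : CP} {ω : Env} {n : ℕ} {a b w M : ℝ} (hn : 1 ≤ n) (hab' : a ≤ b)
    (hw : 0 ≤ w) (hwn : w ≤ n) (hA : AllBdd (f + lin a) ω 0 n)
    (hR : GoodR (f + lin a) ω 0 (0 + n) (-w) n) (hL : GoodL (f + lin b) ω 0 (0 + n) w n)
    (hM : ∀ z ∈ Icc (-w) w, hab a b n f z + T ω 0 (0 + n) z n ≤ M) :
    GG (hab a b n f) ω 0 n n ≤ M := by
  have hn0 : (0 : ℝ) ≤ n := Nat.cast_nonneg n
  have hB : AllBdd (hab a b n f) ω 0 n := by
    refine d2.perturb _ _ ω 0 n ((b - a) * n) (fun z => ?_) hA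
    have h1 : 0 ≤ max 0 (min z n) := le_max_left _ _
    have h2 : max 0 (min z n) ≤ n := max_le hn0 (min_le_right _ _)
    rw [hab_apply, ContinuousMap.add_apply, lin_apply, abs_le]
    constructor <;> nlinarith [mul_nonneg (sub_nonneg.2 hab') h1,
      mul_le_mul_of_nonneg_left h2 (sub_nonneg.2 hab')]
  have ea : ∀ z, (f + lin a) z ≤ hab a b n f z := fun z => by
    rw [hab_apply, ContinuousMap.add_apply, lin_apply]
    nlinarith [mul_nonneg (sub_nonneg.2 hab') (le_max_left 0 (min z n))]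
  have ea' : ∀ z ≤ 0, hab a b n f z = (f + lin a) z := fun z hz => by
    rw [hab_apply, ContinuousMap.add_apply, lin_apply,
      max_eq_left (min_le_of_left_le hz)]
    ring
  have eb' : ∀ z : ℝ, 0 ≤ z → z ≤ n → hab a b n f z = (f + lin b) z := fun z hz hz' => by
    rw [hab_apply, ContinuousMap.add_apply, lin_apply, min_eq_left hz', max_eq_right hz]
    ring
  have eb : ∀ z ≤ (n : ℝ), (f + lin b) z ≤ hab a b n f z := fun z hz => by
    rcases le_total 0 z with h | h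
    · exact (eb' z h hz).ge
    · rw [ea' z h, ContinuousMap.add_apply, lin_apply, ContinuousMap.add_apply, lin_apply]
      nlinarith [mul_nonneg (sub_nonneg.2 hab') (neg_nonneg.2 h)]
  obtain ⟨z1, hz1, c1, hc1, hc1'⟩ := hR
  obtain ⟨z2, hz2, c2, hc2, hc2'⟩ := hL
  have l1 : ∀ z ≤ -w, hab a b n f z + T ω 0 (0 + n) z n ≤ c1 := fun z hz => by
    rw [ea' z (by linarith)]; exact hc1 z hz
  have l2 : ∀ z ∈ Icc w n, hab a b n f z + T ω 0 (0 + n) z n ≤ c2 := fun z hz => by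
    rw [eb' z (hw.trans hz.1) hz.2]; exact hc2 z hz
  have k1 : c1 < hab a b n f z1 + T ω 0 (0 + n) z1 n := by linarith [ea z1]
  have k2 : c2 < hab a b n f z2 + T ω 0 (0 + n) z2 n := by linarith [eb z2 (hz2.trans hwn)]
  have hc : c1 ≤ M ∧ c2 ≤ M := by
    rcases le_total z1 w with h1 | h1
    · have m1 := hM z1 ⟨hz1.1, h1⟩
      rcases le_total z2 (-w) with h2 | h2
      · have := l1 z2 h2
        constructor <;> linarith
      · have := hM z2 ⟨h2, hz2⟩
        constructor <;> linarith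
    · have m1 := l2 z1 ⟨h1, hz1.2⟩
      rcases le_total z2 (-w) with h2 | h2
      · have := l1 z2 h2
        linarith
      · have := hM z2 ⟨h2, hz2⟩
        constructor <;> linarith
  refine (d2.lub _ ω 0 n n hn hB).2 ?_
  rintro _ ⟨z, hz, rfl⟩
  rcases le_total z (-w) with h1 | h1
  · exact (l1 z h1).trans hc.1
  rcases le_total z w with h2 | h2
  · exact hM z ⟨h1, h2⟩
  · exact (l2 z ⟨h2, hz⟩).trans hc.2

/-- Moving the starting point. -/
theorem move_start (d1 : Det1) (d2 : Det2) {gp gm : CP} {ω : Env} {n : ℕ} {w δ o ρp ρm : ℝ}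
    (hn : 1 ≤ n) (hwn : w ≤ n) (hδ : 0 ≤ δ) (hp : ρp ≤ 1 + δ) (hm : 1 - δ ≤ ρm)
    (Ap : AllBdd gp (rotE ω) (-n) n) (Am : AllBdd gm (rotE ω) (-n) n)
    (hR : GoodR gp (rotE ω) (-n) (-n + n) (-n) 0) (hL : GoodL gm (rotE ω) (-n) (-n + n) (-n) 0)
    (op : ∀ x ∈ Icc (-w) w, shift 0 (GG gp (rotE ω) (-n) n) x -
      shift 0 (GG gp (rotE ω) (-n) n) 0 - ρp * x ≤ o)
    (om : ∀ x ∈ Icc (-w) w, shift 0 (GG gm (rotE ω) (-n) n) x -
      shift 0 (GG gm (rotE ω) (-n) n) 0 - ρm * x ≤ o)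
    (z : ℝ) (hz : z ∈ Icc (-w) w) :
    T ω 0 (0 + n) z n ≤ T ω 0 (0 + n) 0 n - z + δ * w + o := by
  have e : ∀ y : ℝ, T (rotE ω) (-n) (-n + n) (-n) (-y) = T ω 0 (0 + n) y n := fun y => by
    rw [d1.rotE]; simp
  have e0 := e 0
  rw [neg_zero] at e0
  have hz' : -z ∈ Icc (-w) w := ⟨by linarith [hz.2], by linarith [hz.1]⟩
  rcases le_total z 0 with h | h
  · have := d2.cmpR gp (rotE ω) (-n) n (-n) 0 0 (-z) hn Ap hR le_rfl (by linarith)
    have h2 := op (-z) hz'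
    simp only [shift_apply, zero_add, sub_self] at h2
    rw [e, e0] at this
    nlinarith [mul_le_mul_of_nonneg_right hp (neg_nonneg.2 h),
      mul_le_mul_of_nonneg_left hz'.2 hδ]
  · have := d2.cmpL gm (rotE ω) (-n) n (-n) 0 (-z) 0 hn Am hL (by linarith [hz.2]) (by linarith)
      le_rfl
    have h2 := om (-z) hz'
    simp only [shift_apply, zero_add, sub_self] at h2
    rw [e, e0] at this
    nlinarith [mul_le_mul_of_nonneg_right hm h, mul_le_mul_of_nonneg_left hz.2 hδ]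

/-- The lower tail of the stationary passage time with the mixed boundary. -/
theorem lowG (j : EjsStmt) {μ : Measure CP} (hμ : IsBM μ 0) (n : ℕ) {ε l : ℝ} (hε : 0 < ε)
    (hε1 : ε < 1) :
    (μ.prod (PP μ)) {p | GG (hab (1 - ε) (1 + ε) n p.1) p.2 0 n n ≤ 2 * n - l} ≤
      ENNReal.ofReal (Real.exp (-(2 * ε * l))) := by
  have hn0 : (0 : ℝ) ≤ n := Nat.cast_nonneg n
  have hj := j μ (1 - ε) (1 + ε) n 0 n hμ (by linarith) (by linarith) hn0
  have hF : Measurable fun p : CP × Env => ENNReal.ofReal (Real.exp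
      ((1 - ε - (1 + ε)) * GG (hab (1 - ε) (1 + ε) n p.1) p.2 0 n n)) := by fun_prop
  have hc : 0 < Real.exp ((1 - ε - (1 + ε)) * (2 * n - l)) := Real.exp_pos _
  have hM := meas_ge_le_lintegral_div (μ := μ.prod (PP μ)) hF.aemeasurable
    (ε := ENNReal.ofReal (Real.exp ((1 - ε - (1 + ε)) * (2 * n - l))))
    (by simpa using hc) ENNReal.ofReal_ne_top
  refine le_trans (measure_mono ?_) (hM.trans ?_)
  · intro p hp
    refine ENNReal.ofReal_le_ofReal (Real.exp_le_exp.2 ?_)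
    have hp' : GG (hab (1 - ε) (1 + ε) n p.1) p.2 0 n n ≤ 2 * n - l := hp
    nlinarith
  · rw [hj, ← ENNReal.ofReal_div_of_pos hc]
    refine ENNReal.ofReal_le_ofReal ?_
    rw [div_le_iff₀ hc, ← Real.exp_add]
    have h1 : (1 - ε) / (1 + ε) ≤ Real.exp (-(2 * ε)) := by
      have h2 := Real.exp_le_two_add_div_two_sub (x := 2 * ε) (by linarith) (by linarith)
      rw [le_div_iff₀ (by linarith)] at h2
      rw [Real.exp_neg, div_le_iff₀ (by linarith), inv_mul_eq_div,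
        le_div_iff₀ (Real.exp_pos _)]
      nlinarith
    have h3 : ((1 - ε) / (1 + ε)) ^ n ≤ Real.exp (n * (-(2 * ε))) := by
      rw [Real.exp_nat_mul]
      exact pow_le_pow_left₀ (div_nonneg (by linarith) (by linarith)) h1 n
    refine (mul_le_mul_of_nonneg_right h3 (Real.exp_pos _).le).trans ?_
    rw [← Real.exp_add]
    exact Real.exp_le_exp.2 (le_of_eq (by ring))

theorem num1 {u ε n w : ℝ} (hu : 0 < u) (hu1 : u ≤ 1 / 8) (hε : ε ≤ u) (hn : 0 ≤ n) (hw : 0 ≤ w) :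
    n / (1 - u ^ 2) - ((1 - ε) / (1 + u)) ^ 2 * (n - -w) ≤ 5 * (u * n) - w / 2 := by
  have h1 : n / (1 - u ^ 2) ≤ n * (1 + u) := by
    rw [div_le_iff₀ (by nlinarith)]
    have : 0 ≤ u * (1 - u - u ^ 2) := mul_nonneg hu.le (by nlinarith)
    nlinarith [mul_nonneg hn this]
  have h2 : 1 - 2 * u ≤ (1 - ε) / (1 + u) := by
    rw [le_div_iff₀ (by linarith)]; nlinarith
  have h3 : 1 - 4 * u ≤ ((1 - ε) / (1 + u)) ^ 2 := by
    have := pow_le_pow_left₀ (by linarith) h2 2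
    nlinarith
  have h4 := mul_le_mul_of_nonneg_right h3 (show 0 ≤ n - -w by linarith)
  nlinarith [mul_nonneg hw (show 0 ≤ 1 / 8 - u by linarith)]

theorem num2 {u ε n w : ℝ} (hu : 0 < u) (hu1 : u ≤ 1 / 8) (hε0 : 0 ≤ ε) (hε : ε ≤ u) (hw : 0 ≤ w)
    (hwn : w ≤ n) : ((1 + ε) / (1 - u)) ^ 2 * (n - w) - n ≤ 8 * (u * n) - w := by
  have h2 : (1 + ε) / (1 - u) ≤ 1 + 3 * u := by
    rw [div_le_iff₀ (by linarith)]; nlinarith
  have h3 : ((1 + ε) / (1 - u)) ^ 2 ≤ 1 + 8 * u := by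
    have := pow_le_pow_left₀ (div_nonneg (by linarith) (by linarith)) h2 2
    nlinarith
  have h4 := mul_le_mul_of_nonneg_right h3 (show 0 ≤ n - w by linarith)
  nlinarith [mul_nonneg hw hu.le]

theorem num3 {u n : ℝ} (hu : 0 < u) (hu1 : u ≤ 1 / 8) (hn : 0 ≤ n) :
    n / (1 - u ^ 2) - (1 + 2 * u) ^ 2 * (0 - -n) ≤ -(3 * (u * n)) := by
  have h1 : n / (1 - u ^ 2) ≤ n * (1 + u) := by
    rw [div_le_iff₀ (by nlinarith)]
    have : 0 ≤ u * (1 - u - u ^ 2) := mul_nonneg hu.le (by nlinarith)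
    nlinarith [mul_nonneg hn this]
  nlinarith [mul_nonneg hn (sq_nonneg u)]

theorem num4 {u n : ℝ} (hu : 0 < u) (hu1 : u ≤ 1 / 8) (hn : 0 ≤ n) :
    (1 - 2 * u) ^ 2 * (0 - -n) - n ≤ -(3 * (u * n)) := by
  nlinarith [mul_nonneg hn (mul_nonneg hu.le (show 0 ≤ 1 / 8 - u by linarith))]

/-- The bound in normal position. -/
theorem main0 (d1 : Det1) (d2 : Det2) (b1 : Bm1) (rf : Ref) (e : EnvA) (st : Stat) (j : EjsStmt)
    (ex : Exit) {μ : Measure CP} (hμ : IsBM μ 0) (n : ℕ) {ν r : ℝ} (hν : 0 < ν)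
    (h1 : n ≤ ν ^ 3) (h2 : ν ^ 3 ≤ 8 * n) (hr : 1 ≤ r) (hC : 240 * r ≤ ν) :
    PP μ {ω | T ω 0 (0 + n) 0 n ≤ 2 * n - 240 * r ^ 2 * ν} ≤
      ENNReal.ofReal (240 * Real.exp (-r)) := by
  have := hμ.prob
  have hn0 : (0 : ℝ) ≤ n := Nat.cast_nonneg n
  have hν1 : 240 ≤ ν := by linarith
  have hn : 1 ≤ n := by
    have : (0 : ℝ) < n := by linarith [pow_pos hν 3]
    exact_mod_cast this
  obtain ⟨ε, hε⟩ : ∃ ε : ℝ, ε = 1 / ν := ⟨_, rfl⟩
  have hεν : ε * ν = 1 := by rw [hε]; field_simp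
  have hε0 : 0 < ε := by rw [hε]; positivity
  obtain ⟨u, hu⟩ : ∃ u : ℝ, u = 2 * r * ε := ⟨_, rfl⟩
  have huν : u * ν = 2 * r := by rw [hu, mul_assoc, hεν, mul_one]
  have hu0 : 0 < u := by rw [hu]; positivity
  have hu1 : u ≤ 1 / 8 := by nlinarith only [huν, hC, hν1, hu0]
  have hεu : ε ≤ u := by rw [hu]; nlinarith only [hr, hε0]
  obtain ⟨w, hw⟩ : ∃ w : ℝ, w = 22 * r * ν ^ 2 := ⟨_, rfl⟩
  have hw0 : 0 < w := by rw [hw]; positivity
  have hwn : w ≤ n := by rw [hw]; nlinarith only [sq_nonneg ν, hC, h2]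
  obtain ⟨o, ho⟩ : ∃ o : ℝ, o = 10 * r ^ 2 * ν := ⟨_, rfl⟩
  have ho0 : 0 ≤ o := by rw [ho]; positivity
  have hr3 : r ≤ r ^ 3 := by nlinarith only [hr, mul_nonneg (sub_nonneg.2 hr) (show 0 ≤ r by linarith)]
  have hun : u * n ≤ 2 * r * ν ^ 2 := by
    have := mul_le_mul_of_nonneg_left h1 hu0.le
    calc u * n ≤ u * ν ^ 3 := this
      _ = u * ν * ν ^ 2 := by ring
      _ = _ := by rw [huν]
  have hu2 : u ^ 2 * (r * ν ^ 2) = 4 * r ^ 3 := by
    calc u ^ 2 * (r * ν ^ 2) = (u * ν) ^ 2 * r := by ring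
      _ = _ := by rw [huν]; ring
  have hu3 : r ^ 3 ≤ u ^ 2 * (u * n) := by
    have := mul_le_mul_of_nonneg_left h2 (pow_pos hu0 3).le
    have e3 : u ^ 3 * ν ^ 3 = 8 * r ^ 3 := by rw [← mul_pow, huν]; ring
    linarith
  have hE : ∀ {s : ℝ}, s ≤ -r → ENNReal.ofReal (Real.exp s) ≤ ENNReal.ofReal (Real.exp (-r)) :=
    fun h => ENNReal.ofReal_le_ofReal (Real.exp_le_exp.2 h)
  have hosc : ENNReal.ofReal (4 * Real.exp (-o ^ 2 / (2 * (2 * w)))) ≤
      ENNReal.ofReal (4 * Real.exp (-r)) := by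
    refine ENNReal.ofReal_le_ofReal (mul_le_mul_of_nonneg_left (Real.exp_le_exp.2 ?_) (by norm_num))
    rw [div_le_iff₀ (by positivity), ho, hw]
    have : 0 ≤ r * ν ^ 2 := by positivity
    nlinarith only [this, mul_le_mul_of_nonneg_left hr3 this]
  -- drifts
  obtain ⟨ρp, hρp⟩ : ∃ ρ : ℝ, ρ = (1 + 2 * u) * (1 + u) := ⟨_, rfl⟩
  obtain ⟨ρm, hρm⟩ : ∃ ρ : ℝ, ρ = (1 - 2 * u) * (1 - u) := ⟨_, rfl⟩
  have hρp0 : 0 < ρp := by rw [hρp]; positivity
  have hρm0 : 0 < ρm := by rw [hρm]; exact mul_pos (by linarith) (by linarith)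
  have mid : MeasurePreserving (fun ω : Env => ω) (PP μ) (PP μ) := MeasurePreserving.id _
  have ma := mp_drift hμ (1 - ε) mid
  have mb := mp_drift hμ (1 + ε) mid
  have mp := mp_drift hμ ρp (e.rotE μ hμ)
  have mm := mp_drift hμ ρm (e.rotE μ hμ)
  have ba := bm_drift b1 hμ (1 - ε)
  have bb := bm_drift b1 hμ (1 + ε)
  have bp := bm_drift b1 hμ ρp
  have bm := bm_drift b1 hμ ρm
  -- bad events
  have B0 := lowG j hμ n (l := r * ν) hε0 (by linarith)
  have B0' := B0.trans (hE (s := -(2 * ε * (r * ν))) (by nlinarith only [hεν, hr]))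
  have B1 := (preimage_le ma _).trans ((ex.right μ _ ((1 - ε) / (1 + u)) u 0 n (-w) n hμ
    (by rwa [div_mul_cancel₀ _ (by linarith)]) (div_pos (by linarith) (by linarith)) hu0
    (by linarith) hn (by linarith)).trans (hE (by
      have := mul_le_mul_of_nonneg_left (num1 hu0 hu1 hεu hn0 hw0.le) (sq_nonneg u)
      have h5 := mul_le_mul_of_nonneg_left hun (sq_nonneg u)
      rw [hw] at this ⊢
      linarith)))
  have B2 := (preimage_le mb _).trans ((ex.left μ _ ((1 + ε) / (1 - u)) u 0 n w n hμ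
    (by rwa [div_mul_cancel₀ _ (by linarith)]) (div_pos (by linarith) (by linarith)) hu0
    (by linarith) hn hwn).trans (hE (by
      have := mul_le_mul_of_nonneg_left (num2 hu0 hu1 hε0.le hεu hw0.le hwn) (sq_nonneg u)
      have h5 := mul_le_mul_of_nonneg_left hun (sq_nonneg u)
      rw [hw] at this ⊢
      linarith)))
  have B3 := (prod_fst_preimage μ (PP μ) _).le.trans ((oscL b1 rf hμ hw0 ho0).trans hosc)
  have B4 := (preimage_le mp _).trans ((ex.right μ _ (1 + 2 * u) u (-n) n (-n) 0 hμ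
    (by rwa [← hρp]) (by linarith) hu0 (by linarith) hn (by linarith)).trans (hE (by
      have := mul_le_mul_of_nonneg_left (num3 hu0 hu1 hn0) (sq_nonneg u)
      linarith)))
  have B5 := (preimage_le mm _).trans ((ex.left μ _ (1 - 2 * u) u (-n) n (-n) 0 hμ
    (by rwa [← hρm]) (by linarith) hu0 (by linarith) hn (by linarith)).trans (hE (by
      have := mul_le_mul_of_nonneg_left (num4 hu0 hu1 hn0) (sq_nonneg u)
      linarith)))
  have lp : MeasurePreserving (fun p : CP × Env => shift 0 (GG p.1 p.2 (-n) n)) _ _ :=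
    ⟨by fun_prop, st.law μ _ ρp (-n) n hμ bp hρp0⟩
  have lm : MeasurePreserving (fun p : CP × Env => shift 0 (GG p.1 p.2 (-n) n)) _ _ :=
    ⟨by fun_prop, st.law μ _ ρm (-n) n hμ bm hρm0⟩
  have B6 := (preimage_le (lp.comp mp) _).trans ((oscL b1 rf bp hw0 ho0).trans hosc)
  have B7 := (preimage_le (lm.comp mm) _).trans ((oscL b1 rf bm hw0 ho0).trans hosc)
  -- null events
  have N1 := ma.quasiMeasurePreserving.ae (st.bdd μ _ (1 - ε) 0 n hμ ba (by linarith))
  have N2 := mp.quasiMeasurePreserving.ae (st.bdd μ _ ρp (-n) n hμ bp hρp0)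
  have N3 := mm.quasiMeasurePreserving.ae (st.bdd μ _ ρm (-n) n hμ bm hρm0)
  have N4 : ∀ᵐ p ∂μ.prod (PP μ), p.1 0 = 0 :=
    (measurePreserving_fst (μ := μ) (ν := PP μ)).quasiMeasurePreserving.ae (b1.zero μ 0 hμ)
  rw [← prod_snd_preimage μ (PP μ)]
  have hsum := (measure_union_le _ _).trans (add_le_add ((measure_union_le _ _).trans
    (add_le_add ((measure_union_le _ _).trans (add_le_add B0' B1))
      ((measure_union_le _ _).trans (add_le_add B2 B3))))
    ((measure_union_le _ _).trans (add_le_add ((measure_union_le _ _).trans (add_le_add B4 B5))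
      ((measure_union_le _ _).trans (add_le_add B6 B7)))))
  refine le_trans (measure_mono_ae ?_) (hsum.trans ?_)
  · filter_upwards [N1, N2, N3, N4] with p n1 n2 n3 n4 hp
    by_contra hc
    have hp' : T p.2 0 (0 + n) 0 n ≤ 2 * n - 240 * r ^ 2 * ν := hp
    change ¬ (p ∈ (_ : Set (CP × Env))) at hc
    simp only [mem_union, mem_preimage, mem_ofPred_eq, not_or, not_not, not_le, not_exists,
      not_and, not_lt, Function.comp_apply] at hc
    obtain ⟨⟨⟨g0, g1⟩, g2, g3⟩, ⟨g4, g5⟩, g6, g7⟩ := hc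
    have hms := move_start d1 d2 (δ := 4 * u) hn hwn (by linarith) (ρp := ρp) (ρm := ρm)
      (by rw [hρp]; nlinarith only [hu0, hu1]) (by rw [hρm]; nlinarith only [hu0, hu1])
      n2 n3 g4 g5 g6 g7
    have hG := localise d2 (M := T p.2 0 (0 + n) 0 n + ε * w + 4 * u * w + 4 * o) hn
      (show 1 - ε ≤ 1 + ε by linarith) hw0.le hwn n1 g1 g2 (fun z hz => by
        have a1 := hms z hz
        have a2 := g3 z hz
        rw [n4] at a2
        have a3 : (1 - ε) * z + (1 + ε - (1 - ε)) * max 0 (min z n) ≤ z + ε * w := by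
          rcases le_total 0 z with h | h
          · rw [min_eq_left (hz.2.trans hwn), max_eq_right h]
            nlinarith only [h, hε0, mul_le_mul_of_nonneg_left hz.2 hε0.le]
          · rw [max_eq_left (min_le_of_left_le h)]
            nlinarith only [h, hε0, mul_le_mul_of_nonneg_left hz.1 hε0.le]
        rw [hab_apply]
        linarith)
    have c1 : ε * w = 22 * r * ν := by
      rw [hw]
      calc ε * (22 * r * ν ^ 2) = ε * ν * (22 * r * ν) := by ring
        _ = _ := by rw [hεν, one_mul]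
    have c2 : u * w = 44 * r ^ 2 * ν := by
      rw [hw]
      calc u * (22 * r * ν ^ 2) = u * ν * (22 * r * ν) := by ring
        _ = _ := by rw [huν]; ring
    have c3 : r * ν ≤ r ^ 2 * ν := by
      nlinarith only [mul_nonneg (mul_nonneg (sub_nonneg.2 hr) (show 0 ≤ r by linarith)) hν.le]
    have c4 : 0 < r * ν := by positivity
    linarith
  · have hx := (Real.exp_pos (-r)).le
    repeat rw [← ENNReal.ofReal_add (by positivity) (by positivity)]
    exact ENNReal.ofReal_le_ofReal (by linarith)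

end LeftA

theorem leftS (d1 : Det1) (d2 : Det2) (b1 : Bm1) (rf : Ref) (e : EnvA) (st : Stat) (j : EjsStmt)
    (ex : Exit) : LeftStmt := by
  refine ⟨240, by norm_num, fun μ m n x ν r hμ hν h1 h2 hr hC => ?_⟩
  refine le_trans ?_ (LeftA.main0 d1 d2 b1 rf e st j ex hμ n hν h1 h2 hr hC)
  refine le_trans (measure_mono ?_) (preimage_le (e.shiftE μ x m hμ) _)
  intro ω hω
  have h' : T ω m (m + n) x (x + n) ≤ 2 * n - 240 * r ^ 2 * ν := hω
  change T (shiftE x m ω) 0 (0 + n) 0 n ≤ _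
  rw [d1.shiftE]
  simpa [add_comm] using h'

end Pool.Agent.MP_3d8edd_pr.H69
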