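import Pool.Agent.MP_3d8edd_pr.H69.Basic

/-!
One step of the stationary reflected Brownian motion.

With `x = f t` and `z = 2 * smax f t - f t`, the triple `(q, x, z)` has a density on
`{0 ≤ q, |x| ≤ z}` which is a function of `2 q - x` and `z`. The step map is piecewise a linear
involution of this region which preserves `2 q - x` and `z`.
-/

open MeasureTheory ProbabilityTheory Set Filter
open scoped NNReal ENNReal Topology

namespace Pool.Agent.MP_3d8edd_pr.H69

namespace LocSA

theorem map_withDensity {α β : Type*} [MeasurableSpace α] [MeasurableSpace β] (μ : Measure α)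
    {F : α → β} (hF : Measurable F) {h : β → ℝ≥0∞} (hh : Measurable h) :
    (μ.withDensity fun a => h (F a)).map F = (μ.map F).withDensity h := by
  ext s hs
  rw [Measure.map_apply hF hs, withDensity_apply _ (hF hs), withDensity_apply _ hs,
    setLIntegral_map hs hh hF]

/-- A linear involution preserves the volume. -/
theorem mp_invol (A : (ℝ × ℝ × ℝ) →ₗ[ℝ] (ℝ × ℝ × ℝ)) (h : ∀ p, A (A p) = p) :
    MeasurePreserving A volume volume := by
  have hA : A ∘ₗ A = LinearMap.id := LinearMap.ext h
  have hd : LinearMap.det A * LinearMap.det A = 1 := by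
    rw [← LinearMap.det_comp, hA, LinearMap.det_id]
  have h0 : LinearMap.det A ≠ 0 := by
    rintro h0; simp [h0] at hd
  have h1 : |LinearMap.det A| = 1 := by
    rcases mul_self_eq_one_iff.1 hd with h | h <;> simp [h]
  refine ⟨A.continuous_of_finiteDimensional.measurable, ?_⟩
  have i2 : (volume : Measure (ℝ × ℝ)).IsAddHaarMeasure := Measure.prod.instIsAddHaarMeasure _ _
  have i3 : (volume : Measure (ℝ × ℝ × ℝ)).IsAddHaarMeasure :=
    Measure.prod.instIsAddHaarMeasure _ _
  rw [Measure.map_linearMap_addHaar_eq_smul_addHaar _ h0, abs_inv, h1]; simp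

/-- The first piece. -/
def A1 : (ℝ × ℝ × ℝ) →ₗ[ℝ] (ℝ × ℝ × ℝ) where
  toFun p := (p.1 - p.2.1, -p.2.1, p.2.2)
  map_add' p q := by ext <;> simp <;> ring
  map_smul' c p := by ext <;> simp; ring

/-- The second piece. -/
noncomputable def A2 : (ℝ × ℝ × ℝ) →ₗ[ℝ] (ℝ × ℝ × ℝ) where
  toFun p := ((p.2.2 - p.2.1) / 2, p.2.2 - 2 * p.1, p.2.2)
  map_add' p q := by ext <;> simp <;> ring
  map_smul' c p := by ext <;> simp <;> ring

theorem A1_apply (p : ℝ × ℝ × ℝ) : A1 p = (p.1 - p.2.1, -p.2.1, p.2.2) := rfl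

theorem A2_apply (p : ℝ × ℝ × ℝ) :
    A2 p = ((p.2.2 - p.2.1) / 2, p.2.2 - 2 * p.1, p.2.2) := rfl

/-- The step map. -/
noncomputable def TT (p : ℝ × ℝ × ℝ) : ℝ × ℝ × ℝ :=
  (max p.1 ((p.2.2 + p.2.1) / 2) - p.2.1, 2 * (max p.1 ((p.2.2 + p.2.1) / 2) - p.1) - p.2.1, p.2.2)

theorem measurable_TT : Measurable TT := by
  unfold TT; fun_prop

/-- The region. -/
def DD : Set (ℝ × ℝ × ℝ) := {p | 0 ≤ p.1 ∧ |p.2.1| ≤ p.2.2}

/-- The part where the maximum is the first coordinate. -/
def D1 : Set (ℝ × ℝ × ℝ) := {p | (p.2.2 + p.2.1) / 2 ≤ p.1 ∧ |p.2.1| ≤ p.2.2}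

/-- The other part. -/
def D2 : Set (ℝ × ℝ × ℝ) := {p | 0 ≤ p.1 ∧ p.1 < (p.2.2 + p.2.1) / 2 ∧ p.2.1 ≤ p.2.2}

theorem measurableSet_DD : MeasurableSet DD := by
  refine MeasurableSet.inter (s₁ := {p : ℝ × ℝ × ℝ | 0 ≤ p.1})
    (s₂ := {p : ℝ × ℝ × ℝ | |p.2.1| ≤ p.2.2}) ?_ ?_
  · exact measurableSet_le (by fun_prop) (by fun_prop)
  · exact measurableSet_le (by fun_prop) (by fun_prop)

theorem measurableSet_D1 : MeasurableSet D1 := by
  refine MeasurableSet.inter (s₁ := {p : ℝ × ℝ × ℝ | (p.2.2 + p.2.1) / 2 ≤ p.1})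
    (s₂ := {p : ℝ × ℝ × ℝ | |p.2.1| ≤ p.2.2}) ?_ ?_
  · exact measurableSet_le (by fun_prop) (by fun_prop)
  · exact measurableSet_le (by fun_prop) (by fun_prop)

theorem measurableSet_D2 : MeasurableSet D2 := by
  refine MeasurableSet.inter (s₁ := {p : ℝ × ℝ × ℝ | 0 ≤ p.1})
    (s₂ := {p : ℝ × ℝ × ℝ | p.1 < (p.2.2 + p.2.1) / 2} ∩ {p : ℝ × ℝ × ℝ | p.2.1 ≤ p.2.2}) ?_
    (MeasurableSet.inter ?_ ?_)
  · exact measurableSet_le (by fun_prop) (by fun_prop)
  · exact measurableSet_lt (by fun_prop) (by fun_prop)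
  · exact measurableSet_le (by fun_prop) (by fun_prop)

theorem DD_eq : DD = D1 ∪ D2 := by
  ext ⟨q, x, z⟩
  simp only [DD, D1, D2, mem_ofPred_eq, mem_union, abs_le]
  constructor
  · rintro ⟨h1, h2, h3⟩
    rcases le_or_gt ((z + x) / 2) q with h | h
    · exact Or.inl ⟨h, h2, h3⟩
    · exact Or.inr ⟨h1, h, h3⟩
  · rintro (⟨h1, h2, h3⟩ | ⟨h1, h2, h3⟩)
    · exact ⟨by linarith, h2, h3⟩
    · exact ⟨h1, by linarith, h3⟩

theorem map_piece {A : (ℝ × ℝ × ℝ) →ₗ[ℝ] (ℝ × ℝ × ℝ)} (h : ∀ p, A (A p) = p)
    {D : Set (ℝ × ℝ × ℝ)} (hD : MeasurableSet D) (h1 : A ⁻¹' D = D) (h2 : ∀ p ∈ D, TT p = A p) :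
    (volume.restrict D).map TT = volume.restrict D := by
  have e : (volume.restrict D).map TT = (volume.restrict D).map A :=
    Measure.map_congr (ae_restrict_of_forall_mem hD h2)
  have := ((mp_invol A h).restrict_preimage hD).map_eq
  rw [h1] at this
  rw [e, this]

theorem map_TT : (volume.restrict DD).map TT = volume.restrict DD := by
  have hdis : Disjoint D1 D2 := by
    rw [Set.disjoint_left]
    rintro p ⟨h1, -⟩ ⟨-, h2, -⟩
    exact absurd h2 (not_lt.2 h1)
  rw [DD_eq, Measure.restrict_union hdis measurableSet_D2, Measure.map_add _ _ measurable_TT,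
    map_piece (A := A1) _ measurableSet_D1, map_piece (A := A2) _ measurableSet_D2]
  · ext ⟨q, x, z⟩
    simp only [D2, A2_apply, mem_preimage, mem_ofPred_eq]
    constructor <;> rintro ⟨h1, h2, h3⟩ <;> exact ⟨by linarith, by linarith, by linarith⟩
  · rintro ⟨q, x, z⟩ ⟨-, h2, -⟩
    simp only at h2
    simp only [TT, A2_apply, max_eq_right h2.le]
    ext <;> simp only <;> ring
  · rintro ⟨q, x, z⟩
    simp only [A2_apply]
    ext <;> simp only <;> ring
  · ext ⟨q, x, z⟩
    simp only [D1, A1_apply, mem_preimage, mem_ofPred_eq, abs_neg]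
    constructor <;> rintro ⟨h1, h2⟩ <;> exact ⟨by linarith, h2⟩
  · rintro ⟨q, x, z⟩ ⟨h1, -⟩
    simp only at h1
    simp only [TT, A1_apply, max_eq_left h1]
    ext <;> simp only <;> ring
  · rintro ⟨q, x, z⟩
    simp only [A1_apply]
    ext <;> simp only <;> ring

/-- Densities that depend on `2 q - x` and `z` only are preserved. -/
theorem map_TT_density {H : ℝ × ℝ → ℝ≥0∞} (hH : Measurable H) :
    ((volume.restrict DD).withDensity fun p => H (2 * p.1 - p.2.1, p.2.2)).map TT =
      (volume.restrict DD).withDensity fun p => H (2 * p.1 - p.2.1, p.2.2) := by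
  have hm : Measurable fun p : ℝ × ℝ × ℝ => H (2 * p.1 - p.2.1, p.2.2) := hH.comp (by fun_prop)
  have e := map_withDensity (volume.restrict DD) measurable_TT hm
  rw [map_TT] at e
  refine Eq.trans ?_ e
  congr 2
  funext p
  congr 2
  simp only [TT]
  ring

/-! ### The joint law of the end point and the maximum -/

/-- The density of `(x, z)` without drift. -/
noncomputable def rho (v : ℝ≥0) (p : ℝ × ℝ) : ℝ≥0∞ :=
  if |p.1| ≤ p.2 then ENNReal.ofReal (p.2 / v * gaussianPDFReal 0 v p.2) else 0

theorem measurable_rho (v : ℝ≥0) : Measurable (rho v) := by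
  refine Measurable.ite (measurableSet_le (by fun_prop) (by fun_prop)) ?_ measurable_const
  exact ((measurable_snd.div_const _).mul
    ((measurable_gaussianPDFReal 0 v).comp measurable_snd)).ennreal_ofReal

theorem tail {v : ℝ≥0} (hv : v ≠ 0) {c : ℝ} (hc : 0 ≤ c) :
    ∫⁻ z in Ioi c, ENNReal.ofReal (z / v * gaussianPDFReal 0 v z) = gaussianPDF 0 v c := by
  have hv' : (0 : ℝ) < v := by positivity
  have hder : ∀ z ∈ Ici c, HasDerivAt (fun z => -gaussianPDFReal 0 v z)
      (z / v * gaussianPDFReal 0 v z) z := by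
    intro z _
    have h1 : HasDerivAt (fun z : ℝ => -(z - 0) ^ 2 / (2 * v)) (-(z / v)) z := by
      have := (((hasDerivAt_id' z).sub_const 0).pow 2).neg.div_const (2 * (v : ℝ))
      refine this.congr_deriv ?_
      simp only [sub_zero, Nat.cast_ofNat, Nat.add_one_sub_one, pow_one, mul_one]
      field_simp
    have h2 := (h1.exp.const_mul (√(2 * Real.pi * v))⁻¹).neg
    refine h2.congr_deriv ?_
    simp only [gaussianPDFReal]
    ring
  have hpos : ∀ z ∈ Ioi c, 0 ≤ z / v * gaussianPDFReal 0 v z := fun z hz =>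
    mul_nonneg (div_nonneg (hc.trans (le_of_lt hz)) hv'.le) (gaussianPDFReal_nonneg _ _ _)
  have hlim : Tendsto (fun z => -gaussianPDFReal 0 v z) atTop (𝓝 0) := by
    have h1 : Tendsto (fun z : ℝ => -(z - 0) ^ 2 / (2 * v)) atTop atBot := by
      refine Tendsto.atBot_div_const (by positivity) ?_
      simp only [sub_zero]
      exact tendsto_neg_atTop_atBot.comp (tendsto_pow_atTop two_ne_zero)
    have h2 := ((Real.tendsto_exp_atBot.comp h1).const_mul (√(2 * Real.pi * v))⁻¹).neg
    simpa only [mul_zero, neg_zero, gaussianPDFReal, Function.comp_def] using h2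
  rw [← ofReal_integral_eq_lintegral_ofReal (integrableOn_Ioi_deriv_of_nonneg' hder hpos hlim)
    (ae_restrict_of_forall_mem measurableSet_Ioi hpos),
    integral_Ioi_of_hasDerivAt_of_nonneg' hder hpos hlim]
  simp [gaussianPDF]

theorem inner {v : ℝ≥0} (hv : v ≠ 0) (x c : ℝ) :
    ∫⁻ z in Ioi c, rho v (x, z) = gaussianPDF 0 v (max |x| c) := by
  have e : ∫⁻ z in Ioi c, rho v (x, z) =
      ∫⁻ z in Ici |x| ∩ Ioi c, ENNReal.ofReal (z / v * gaussianPDFReal 0 v z) := by
    rw [← Measure.restrict_restrict measurableSet_Ici, ← lintegral_indicator measurableSet_Ici]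
    refine lintegral_congr fun z => ?_
    simp only [rho, indicator, mem_Ici]
  rw [e]
  rcases le_or_gt |x| c with h | h
  · rw [max_eq_right h, inter_eq_right.2 ((Ioi_subset_Ici_self).trans (Ici_subset_Ici.2 h)),
      tail hv ((abs_nonneg x).trans h)]
  · rw [max_eq_left h.le, inter_eq_left.2 (Ici_subset_Ioi.2 h),
      ← setLIntegral_congr Ioi_ae_eq_Ici, tail hv (abs_nonneg x)]

theorem kap_apply {v : ℝ≥0} (hv : v ≠ 0) (m : ℝ) {B : Set ℝ} (hB : MeasurableSet B) :
    ((volume.withDensity (rho v)).map fun p : ℝ × ℝ => ((p.2 + p.1) / 2, p.1)) (Ioi m ×ˢ B) =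
      ∫⁻ x in B, gaussianPDF 0 v (max |x| (2 * m - x)) := by
  have hF : Measurable fun p : ℝ × ℝ => ((p.2 + p.1) / 2, p.1) := by fun_prop
  have hs := hF (measurableSet_Ioi.prod hB : MeasurableSet (Ioi m ×ˢ B))
  rw [Measure.map_apply hF (measurableSet_Ioi.prod hB), withDensity_apply _ hs,
    ← lintegral_indicator hs, Measure.volume_eq_prod,
    lintegral_prod _ ((measurable_rho v).indicator hs).aemeasurable, ← lintegral_indicator hB]
  refine lintegral_congr fun x => ?_
  by_cases hx : x ∈ B
  · rw [indicator_of_mem hx, ← inner hv, ← lintegral_indicator measurableSet_Ioi]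
    refine lintegral_congr fun z => ?_
    have : m < (z + x) / 2 ↔ 2 * m - x < z := by constructor <;> intro h <;> linarith
    simp only [indicator, mem_preimage, mem_prod, mem_Ioi, hx, and_true, this]
  · rw [indicator_of_notMem hx]
    simp only [indicator, mem_preimage, mem_prod, hx, and_false, if_false, lintegral_zero]

theorem gauss_abs (v : ℝ≥0) (x : ℝ) : gaussianPDF 0 v |x| = gaussianPDF 0 v x := by
  simp only [gaussianPDF, gaussianPDFReal, sub_zero, sq_abs]

theorem refl_apply {v : ℝ≥0} (hv : v ≠ 0) {m : ℝ} (hm : 0 ≤ m) {B : Set ℝ}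
    (hB : MeasurableSet B) :
    ((gaussianReal 0 v).restrict (Ioi m) +
        ((gaussianReal 0 v).restrict (Ioi m)).map fun x => 2 * m - x) B =
      ∫⁻ x in B, gaussianPDF 0 v (max |x| (2 * m - x)) := by
  have hF : Measurable fun x : ℝ => 2 * m - x := by fun_prop
  rw [Measure.add_apply, Measure.map_apply hF hB, Measure.restrict_apply hB,
    Measure.restrict_apply (hF hB), gaussianReal_apply _ hv, gaussianReal_apply _ hv,
    ← lintegral_inter_add_sdiff _ B (measurableSet_Ioi (a := m))]
  congr 1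
  · refine setLIntegral_congr_fun (hB.inter measurableSet_Ioi) fun x hx => ?_
    have h : m < x := hx.2
    rw [abs_of_nonneg (by linarith), max_eq_left (by linarith)]
  · have e1 : ∫⁻ x in B \ Ioi m, gaussianPDF 0 v (max |x| (2 * m - x)) =
        ∫⁻ x in B ∩ Iio m, gaussianPDF 0 v (2 * m - x) := by
      rw [sdiff_eq_compl_inter, compl_Ioi, inter_comm,
        ← setLIntegral_congr (ae_eq_set_inter (ae_eq_refl B) Iio_ae_eq_Iic)]
      refine setLIntegral_congr_fun (hB.inter measurableSet_Iio) fun x hx => ?_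
      have h : x < m := hx.2
      rw [max_eq_right (abs_le.2 ⟨by linarith, by linarith⟩)]
    have e2 := ((volume.measurePreserving_sub_left (2 * m)).setLIntegral_comp_preimage
      ((hF hB).inter (measurableSet_Ioi (a := m))) (measurable_gaussianPDF 0 v))
    rw [e1, ← e2]
    congr 2
    ext x
    simp only [mem_preimage, mem_inter_iff, mem_Ioi, mem_Iio, sub_sub_cancel]
    exact and_congr_right fun _ => by constructor <;> intro h <;> linarith

theorem law_end (b1 : Bm1) {μ : Measure CP} {a : ℝ} (h : IsBM μ a) {t : ℝ} (ht : 0 ≤ t) :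
    μ.map (fun f => f t) = gaussianReal (a * t) t.toNNReal := by
  have e := b1.law_sub μ a 0 t h ht
  simp only [sub_zero] at e
  rw [← e]
  refine Measure.map_congr ?_
  filter_upwards [b1.zero μ a h] with f hf
  rw [hf, sub_zero]

theorem law0 (b1 : Bm1) (rf : Ref) {μ : Measure CP} (h : IsBM μ 0) {t : ℝ} (ht : 0 < t) :
    μ.map (fun f => (f t, 2 * smax f t - f t)) = volume.withDensity (rho t.toNNReal) := by
  have := h.prob
  have hv : t.toNNReal ≠ 0 := by simpa using ht
  have hF : Measurable fun f : CP => (smax f t, f t) := by fun_prop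
  have hX : Measurable fun f : CP => f t := measurable_ev t
  have key : μ.map (fun f => (smax f t, f t)) =
      (volume.withDensity (rho t.toNNReal)).map fun p : ℝ × ℝ => ((p.2 + p.1) / 2, p.1) := by
    have hsp : ⋃ n : ℕ, Ioi (-(n : ℝ)) = univ := by
      refine eq_univ_of_forall fun x => ?_
      obtain ⟨n, hn⟩ := exists_nat_gt (-x)
      exact mem_iUnion.2 ⟨n, by simp only [mem_Ioi]; linarith⟩
    refine Measure.ext_of_generateFrom_of_iUnion
      (image2 (· ×ˢ ·) (range Ioi) {B : Set ℝ | MeasurableSet B})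
      (fun n => Ioi (-(n : ℝ)) ×ˢ univ) ?_
      (isPiSystem_Ioi.prod MeasurableSpace.isPiSystem_measurableSet) ?_
      (fun n => mem_image2_of_mem ⟨_, rfl⟩ (by simp)) (fun n => measure_ne_top _ _) ?_
    · refine (generateFrom_eq_prod ?_ MeasurableSpace.generateFrom_measurableSet ?_
        isCountablySpanning_measurableSet).symm
      · exact (BorelSpace.measurable_eq.trans (borel_eq_generateFrom_Ioi _)).symm
      · exact ⟨fun n => Ioi (-(n : ℝ)), fun n => ⟨_, rfl⟩, hsp⟩
    · rw [← iUnion_prod_const, hsp, univ_prod_univ]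
    · rintro _ ⟨_, ⟨m, rfl⟩, B, hB, rfl⟩
      have hB : MeasurableSet B := hB
      simp only
      rw [kap_apply hv m hB, Measure.map_apply hF (measurableSet_Ioi.prod hB)]
      rcases le_or_gt 0 m with hm | hm
      · rw [← refl_apply hv hm hB, ← rf.refl μ t m h ht hm, Measure.map_apply hX hB,
          Measure.restrict_apply (hX hB)]
        congr 1
        ext f
        simp only [mem_preimage, mem_prod, mem_Ioi, mem_inter_iff, mem_ofPred_eq]
        exact and_comm
      · have e : ∫⁻ x in B, gaussianPDF 0 t.toNNReal (max |x| (2 * m - x)) =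
            ∫⁻ x in B, gaussianPDF 0 t.toNNReal x := by
          refine lintegral_congr fun x => ?_
          rw [max_eq_left (by linarith [neg_abs_le x]), gauss_abs]
        have e2 := law_end b1 h ht.le
        rw [zero_mul] at e2
        rw [e, ← gaussianReal_apply _ hv, ← e2, Measure.map_apply hX hB]
        refine measure_congr ?_
        filter_upwards [b1.zero μ 0 h] with f hf
        have : m < smax f t := by
          have := le_smax f (left_mem_Icc.2 ht.le)
          linarith
        change (m < smax f t ∧ f t ∈ B) = (f t ∈ B)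
        simp only [this, true_and]
  have hG : Measurable fun p : ℝ × ℝ => (p.2, 2 * p.1 - p.2) := by fun_prop
  have e := congrArg (Measure.map fun p : ℝ × ℝ => (p.2, 2 * p.1 - p.2)) key
  rw [Measure.map_map hG hF, Measure.map_map hG (by fun_prop)] at e
  refine Eq.trans e ?_
  have : ((fun p : ℝ × ℝ => (p.2, 2 * p.1 - p.2)) ∘ fun p : ℝ × ℝ => ((p.2 + p.1) / 2, p.1)) =
      id := by
    funext p
    ext <;> simp only [Function.comp_apply, id] <;> ring
  rw [this, Measure.map_id]

theorem law (b1 : Bm1) (rf : Ref) (c : CMStmt) {μ : Measure CP} {a : ℝ} (h : IsBM μ a) {t : ℝ}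
    (ht : 0 < t) :
    μ.map (fun f => (f t, 2 * smax f t - f t)) = volume.withDensity fun p : ℝ × ℝ =>
      rho t.toNNReal p * ENNReal.ofReal (Real.exp (a * p.1 - a ^ 2 * t / 2)) := by
  have h0 : IsBM (μ.map fun f => f + lin (-a)) 0 := by
    simpa using b1.add_lin μ a (-a) h
  have hF : Measurable fun f : CP => (f t, 2 * smax f t - f t) := by fun_prop
  have hd : Measurable fun p : ℝ × ℝ => ENNReal.ofReal (Real.exp (a * p.1 - a ^ 2 * t / 2)) := by
    fun_prop
  have e1 := congrArg (Measure.map fun f : CP => (f t, 2 * smax f t - f t)) (c _ 0 a t h0 ht.le)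
  have e2 := map_withDensity (μ.map fun f => f + lin (-a)) hF hd
  simp only [zero_mul, sub_zero] at e1
  rw [e2, law0 b1 rf h0 ht, ← withDensity_mul _ (measurable_rho _) hd,
    Measure.map_map hF (by fun_prop), Measure.map_map (hF.comp (by fun_prop)) (by fun_prop)] at e1
  refine Eq.trans ?_ e1
  congr 1
  funext f
  have e3 : ∀ z ∈ Icc 0 t, (f + lin (-a) + a • clamp t : CP) z = f z := by
    intro z hz
    simp only [ContinuousMap.add_apply, ContinuousMap.smul_apply, lin_apply, clamp_apply,
      smul_eq_mul, min_eq_left hz.2, max_eq_right hz.1]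
    ring
  have e4 : smax (f + lin (-a) + a • clamp t) t = smax f t := by
    unfold smax
    rw [image_congr e3]
  simp only [Function.comp_apply, e4, e3 t (right_mem_Icc.2 ht.le)]

end LocSA

open LocSA in
theorem locS (b1 : Bm1) (rf : Ref) (c : CMStmt) : LocStmt := by
  intro μ a t h ha ht
  have := h.prob
  have := isProbabilityMeasure_expMeasure (show 0 < 2 * a by positivity)
  have hF : Measurable fun f : CP => (f t, 2 * smax f t - f t) := by fun_prop
  have hP : Measurable (Prod.map (id : ℝ → ℝ) fun f : CP => (f t, 2 * smax f t - f t)) :=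
    measurable_id.prodMap hF
  have hp : Measurable fun p : ℝ × ℝ × ℝ => (p.1, p.2.1) := by fun_prop
  have hH : Measurable fun p : ℝ × ℝ =>
      ENNReal.ofReal (2 * a * Real.exp (-(a * p.1) - a ^ 2 * t / 2)) *
      ENNReal.ofReal (p.2 / t.toNNReal * gaussianPDFReal 0 t.toNNReal p.2) :=
    Measurable.mul (by fun_prop) ((measurable_snd.div_const _).mul
      ((measurable_gaussianPDFReal 0 _).comp measurable_snd)).ennreal_ofReal
  have e1 : ((expMeasure (2 * a)).prod μ).map
      (Prod.map (id : ℝ → ℝ) fun f : CP => (f t, 2 * smax f t - f t)) =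
      (volume.restrict DD).withDensity fun p : ℝ × ℝ × ℝ =>
        ENNReal.ofReal (2 * a * Real.exp (-(a * (2 * p.1 - p.2.1)) - a ^ 2 * t / 2)) *
          ENNReal.ofReal (p.2.2 / t.toNNReal * gaussianPDFReal 0 t.toNNReal p.2.2) := by
    have e : expMeasure (2 * a) = volume.withDensity (exponentialPDF (2 * a)) := rfl
    have hE : Measurable (exponentialPDF (2 * a)) :=
      (measurable_exponentialPDFReal _).ennreal_ofReal
    have hR : Measurable fun p : ℝ × ℝ =>
        rho t.toNNReal p * ENNReal.ofReal (Real.exp (a * p.1 - a ^ 2 * t / 2)) :=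
      (measurable_rho _).mul (by fun_prop)
    rw [← Measure.map_prod_map _ _ measurable_id hF, Measure.map_id, law b1 rf c h ht, e,
      prod_withDensity hE hR, ← Measure.volume_eq_prod,
      ← withDensity_indicator measurableSet_DD]
    congr 1
    funext p
    by_cases h1 : 0 ≤ p.1
    · by_cases h2 : |p.2.1| ≤ p.2.2
      · rw [indicator_of_mem (show p ∈ DD from ⟨h1, h2⟩)]
        change exponentialPDF (2 * a) p.1 * (rho t.toNNReal p.2 * _) = _
        rw [exponentialPDF_of_nonneg h1, rho, if_pos h2, mul_comm (ENNReal.ofReal (p.2.2 / _ * _)),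
          ← mul_assoc, ← ENNReal.ofReal_mul (by positivity), mul_assoc (2 * a), ← Real.exp_add]
        congr 4
        ring
      · rw [indicator_of_notMem (show p ∉ DD from fun hp => h2 hp.2)]
        change exponentialPDF (2 * a) p.1 * (rho t.toNNReal p.2 * _) = _
        rw [rho, if_neg h2, zero_mul, mul_zero]
    · rw [indicator_of_notMem (show p ∉ DD from fun hp => h1 hp.1)]
      change exponentialPDF (2 * a) p.1 * _ = _
      rw [exponentialPDF_of_neg (not_le.1 h1), zero_mul]
  have e2 := map_TT_density hH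
  simp only at e2
  rw [← e1] at e2
  have e3 := congrArg (Measure.map fun p : ℝ × ℝ × ℝ => (p.1, p.2.1)) e2
  rw [Measure.map_map measurable_TT hP, Measure.map_map hp (measurable_TT.comp hP),
    Measure.map_map hp hP] at e3
  have e4 : ((expMeasure (2 * a)).prod μ).map (Prod.map (id : ℝ → ℝ) fun f : CP => f t) =
      (expMeasure (2 * a)).prod (gaussianReal (a * t) t.toNNReal) := by
    rw [← Measure.map_prod_map _ _ measurable_id (measurable_ev t), Measure.map_id,
      law_end b1 h ht.le]
  refine Eq.trans ?_ (e3.trans e4)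
  congr 1
  funext p
  have : (2 * smax p.2 t - p.2 t + p.2 t) / 2 = smax p.2 t := by ring
  simp only [Function.comp_apply, TT, Prod.map_fst, Prod.map_snd, id, this]

end Pool.Agent.MP_3d8edd_pr.H69
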