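import Pool.Agent.MP_3d8edd_pr.H69.Basic

/-!
Direction and deviations of a bigeodesic with linear growth, at all times.
-/

open MeasureTheory ProbabilityTheory Set Filter
open scoped NNReal ENNReal Topology

namespace Pool.Agent.MP_3d8edd_pr.H69

namespace LocalA

/-- The grid of end points. -/
noncomputable def pts (y0 : ℝ) (K : ℕ) : Finset ℝ :=
  insert y0 ((Finset.Icc (-(K : ℤ)) K).image Int.cast)

theorem card_pts (y0 : ℝ) (K : ℕ) : ((pts y0 K).card : ℝ) ≤ 2 * K + 2 := by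
  have h1 : (pts y0 K).card ≤ 2 * K + 2 := by
    refine (Finset.card_insert_le _ _).trans ?_
    have := Finset.card_image_le (s := Finset.Icc (-(K : ℤ)) K) (f := (Int.cast : ℤ → ℝ))
    rw [Int.card_Icc] at this
    omega
  exact_mod_cast h1

theorem int_mem (y0 : ℝ) {K : ℕ} {a : ℤ} (h1 : -(K : ℝ) ≤ a) (h2 : (a : ℝ) ≤ K) :
    (a : ℝ) ∈ pts y0 K :=
  Finset.mem_insert_of_mem (Finset.mem_image_of_mem _ (Finset.mem_Icc.2
    ⟨by exact_mod_cast h1, by exact_mod_cast h2⟩))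

/-- Some geodesic between grid points deviates. -/
def Ev (y0 : ℝ) (m K : ℕ) (α : ℝ) : Set Env :=
  ⋃ l ∈ ({0, -(m : ℤ)} : Finset ℤ), ⋃ u ∈ pts y0 K, ⋃ v ∈ pts y0 K,
    {ω | -(K : ℝ) ≤ u ∧ u < v ∧ v ≤ K ∧ ω ∈ Dev l m u v α}

theorem bU {β ι : Type*} [MeasurableSpace β] (μ : Measure β) (s : Finset ι) (f : ι → Set β)
    {n b : ℝ} (hb : 0 ≤ b) (hn : (s.card : ℝ) ≤ n) (h : ∀ i ∈ s, μ (f i) ≤ ENNReal.ofReal b) :
    μ (⋃ i ∈ s, f i) ≤ ENNReal.ofReal (n * b) := by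
  refine (measure_biUnion_finset_le s f).trans ((Finset.sum_le_card_nsmul s _ _ h).trans ?_)
  rw [nsmul_eq_mul, ← ENNReal.ofReal_natCast, ← ENNReal.ofReal_mul (Nat.cast_nonneg _)]
  exact ENNReal.ofReal_le_ofReal (mul_le_mul_of_nonneg_right hn hb)

theorem ev_le {μ : Measure CP} {y0 α b : ℝ} {m K : ℕ} (hb : 0 ≤ b)
    (h : ∀ l u v, u < v → PP μ (Dev l m u v α) ≤ ENNReal.ofReal b) :
    PP μ (Ev y0 m K α) ≤ ENNReal.ofReal (2 * ((2 * K + 2) * ((2 * K + 2) * b))) := by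
  refine bU _ _ _ (by positivity) (by exact_mod_cast Finset.card_le_two) fun l _ => ?_
  refine bU _ _ _ (by positivity) (card_pts _ _) fun u _ => ?_
  refine bU _ _ _ hb (card_pts _ _) fun v _ => ?_
  by_cases huv : u < v
  · exact (measure_mono fun ω hω => hω.2.2.2).trans (h l u v huv)
  · exact (measure_mono fun ω hω => (huv hω.2.1).elim).trans (measure_empty.trans_le bot_le)

theorem ev_loc (d1 : Det1) (y0 α : ℝ) (m K : ℕ) :
    Loc (Ev y0 m K α) (-(m : ℤ)) (2 * m) ((-(K : ℤ) : ℤ) : ℝ) ((K : ℤ) : ℝ) := by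
  intro ω ω' ha hω
  simp only [Ev, mem_iUnion, mem_ofPred_eq] at hω ⊢
  obtain ⟨l, hl, u, hu, v, hv, h1, h2, h3, z, h4, h5, h6, h7⟩ := hω
  refine ⟨l, hl, u, hu, v, hv, h1, h2, h3, z, h4, h5, h6, ?_⟩
  have hl' : -(m : ℤ) ≤ l ∧ l ≤ 0 := by
    simp only [Finset.mem_insert, Finset.mem_singleton] at hl
    omega
  have h1' : ((-(K : ℤ) : ℤ) : ℝ) ≤ u := by simpa using h1
  have h3' : v ≤ ((K : ℤ) : ℝ) := by simpa using h3
  rwa [← d1.agree ω ω' _ _ _ _ (ha.mono hl'.1 (by omega) h1' h3'),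
    ← d1.agree ω ω' _ _ _ _ (ha.mono hl'.1 (by omega) h1' (h6.trans h3')),
    ← d1.agree ω ω' _ _ _ _ (ha.mono (by omega) (by omega) (h1'.trans h5) h3')]

theorem of_not {ω : Env} {y0 α u v z : ℝ} {m K : ℕ} {l : ℤ} (h : ω ∉ Ev y0 m K α)
    (hl : l = 0 ∨ l = -(m : ℤ)) (hu : u ∈ pts y0 K) (hv : v ∈ pts y0 K) (h1 : -(K : ℝ) ≤ u)
    (h2 : u < v) (h3 : v ≤ K) (ho : IsOpt ω l (l + m) (l + 2 * m) u v z) :
    -(α * (v - u) / 2) < z - (u + v) / 2 ∧ z - (u + v) / 2 < α * (v - u) / 2 := by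
  rw [← abs_lt]
  by_contra hc
  apply h
  simp only [Ev, mem_iUnion, mem_ofPred_eq]
  exact ⟨l, by simpa using hl, u, hu, v, hv, h1, h2, h3, z, not_lt.1 hc, ho⟩

theorem up (d1 : Det1) {ω : Env} {x : ℤ → ℝ} {y0 α B : ℝ} {m K : ℕ} (hx : IsBi ω x)
    (h : ω ∉ Ev y0 m K α) (hm : 1 ≤ m) (h0 : x 0 ≤ y0) (h1 : y0 ≤ x 1) (hy : |y0| ≤ B)
    (hα : 0 ≤ α) (h2 : B + 1 < x (2 * m)) (h3 : x (2 * m) ≤ K) :
    |x m - x (2 * m) / 2| ≤ (B + 1) / 2 + α * (x (2 * m) + 1 + B) / 2 := by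
  have ho := d1.bi_opt' ω x 0 m (2 * m) y0 hx (by omega) (by omega) h0 (by simpa using h1)
  obtain ⟨hy1, hy2⟩ := abs_le.1 hy
  set X := x (2 * m)
  have f1 := Int.floor_le X
  have f2 := Int.lt_floor_add_one X
  have c1 := Int.le_ceil X
  have c2 := Int.ceil_lt_add_one X
  have c3 : ((⌈X⌉ : ℤ) : ℝ) ≤ K := by
    have : ⌈X⌉ ≤ (K : ℤ) := Int.ceil_le.2 (by simpa using h3)
    exact_mod_cast this
  have hy0 : y0 ∈ pts y0 K := Finset.mem_insert_self _ _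
  obtain ⟨z1, a1, o1⟩ := d1.ord_down ω 0 m (2 * m) y0 X _ y0 (⌊X⌋ : ℤ) (by omega) (by omega) ho
    le_rfl f1 (by linarith)
  obtain ⟨z2, a2, o2⟩ := d1.ord_up ω 0 m (2 * m) y0 X _ y0 (⌈X⌉ : ℤ) (by omega) (by omega) ho
    le_rfl c1 (by linarith)
  have b1 := (of_not h (Or.inl rfl) hy0 (int_mem y0 (a := ⌊X⌋) (by linarith) (by linarith))
    (by linarith) (by linarith) (by linarith) (by simpa using o1)).1
  have b2 := (of_not h (Or.inl rfl) hy0 (int_mem y0 (a := ⌈X⌉) (by linarith) c3)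
    (by linarith) (by linarith) c3 (by simpa using o2)).2
  have e1 : α * ((⌊X⌋ : ℤ) - y0) ≤ α * (X + 1 + B) := mul_le_mul_of_nonneg_left (by linarith) hα
  have e2 : α * ((⌈X⌉ : ℤ) - y0) ≤ α * (X + 1 + B) := mul_le_mul_of_nonneg_left (by linarith) hα
  rw [abs_le]
  constructor <;> linarith

theorem down (d1 : Det1) {ω : Env} {x : ℤ → ℝ} {y0 α B : ℝ} {m K : ℕ} (hx : IsBi ω x)
    (h : ω ∉ Ev y0 m K α) (hm : 1 ≤ m) (hy : |x 0| ≤ B) (hα : 0 ≤ α) (hα' : α ≤ 1 / 2)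
    (h2 : B + 1 < x m) (h3 : 3 * (x m + 1) + 4 * B ≤ K) :
    |x (-(m : ℤ)) + x m| ≤ 2 * B + 2 + α * (4 * x m + 4 * B + 6) := by
  have ho := d1.bi_opt ω x (-(m : ℤ)) 0 m hx (by omega) (by omega)
  obtain ⟨hy1, hy2⟩ := abs_le.1 hy
  have hU : x (-(m : ℤ)) ≤ x 0 := hx.1 (by omega)
  set X := x m
  set U := x (-(m : ℤ))
  have f1 := Int.floor_le X
  have f2 := Int.lt_floor_add_one X
  have c1 := Int.le_ceil X
  have c2 := Int.ceil_lt_add_one X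
  have f3 := Int.floor_le U
  have f4 := Int.lt_floor_add_one U
  have c3 := Int.le_ceil U
  have c4 := Int.ceil_lt_add_one U
  have e1 : -(m : ℤ) + m = 0 := by ring
  have e2 : -(m : ℤ) + 2 * m = m := by ring
  have key : ∀ a : ℤ, U ≤ a → -(K : ℝ) ≤ a → (a : ℝ) < B + 1 →
      2 * x 0 < a + (⌈X⌉ : ℤ) + α * ((⌈X⌉ : ℤ) - a) := by
    intro a k1 k2 k3
    obtain ⟨z, a2, o2⟩ := d1.ord_up ω _ 0 m U X _ a (⌈X⌉ : ℤ) (by omega) (by omega) ho k1 c1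
      (by linarith)
    have := (of_not h (Or.inr rfl) (int_mem y0 k2 (by linarith))
      (int_mem y0 (a := ⌈X⌉) (by linarith) (by linarith)) k2 (by linarith) (by linarith)
      (by rw [e1, e2]; exact o2)).2
    linarith
  have hK : -(K : ℝ) ≤ U := by
    by_contra hc
    have k1 : ((-(K : ℤ) : ℤ) : ℝ) = -(K : ℝ) := by simp
    have := key (-(K : ℤ)) (by linarith) (by linarith) (by linarith)
    rw [k1] at this
    have k2 : α * ((⌈X⌉ : ℤ) - -(K : ℝ)) ≤ 1 / 2 * ((⌈X⌉ : ℤ) - -(K : ℝ)) :=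
      mul_le_mul_of_nonneg_right hα' (by linarith)
    linarith
  have k1 := key ⌈U⌉ c3 (by linarith) (by linarith)
  have k2 : α * ((⌈X⌉ : ℤ) - (⌈U⌉ : ℤ)) ≤ 1 / 2 * ((⌈X⌉ : ℤ) - (⌈U⌉ : ℤ)) :=
    mul_le_mul_of_nonneg_right hα' (by linarith)
  have k3 : α * ((⌈X⌉ : ℤ) - (⌈U⌉ : ℤ)) ≤ α * (4 * X + 4 * B + 6) :=
    mul_le_mul_of_nonneg_left (by linarith) hα
  have k4 : α * ((⌊X⌋ : ℤ) - (⌊U⌋ : ℤ)) ≤ α * (4 * X + 4 * B + 6) :=
    mul_le_mul_of_nonneg_left (by linarith) hα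
  have f5 : -(K : ℝ) ≤ (⌊U⌋ : ℤ) := by
    have : -(K : ℤ) ≤ ⌊U⌋ := Int.le_floor.2 (by simpa using hK)
    exact_mod_cast this
  obtain ⟨z, a1, o1⟩ := d1.ord_down ω _ 0 m U X _ (⌊U⌋ : ℤ) (⌊X⌋ : ℤ) (by omega) (by omega) ho
    f3 f1 (by linarith)
  have := (of_not h (Or.inr rfl) (int_mem y0 f5 (by linarith))
    (int_mem y0 (a := ⌊X⌋) (by linarith) (by linarith)) f5 (by linarith) (by linarith)
    (by rw [e1, e2]; exact o1)).1
  rw [abs_le]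
  constructor <;> linarith

/-- The cube root of two. -/
noncomputable def s3 : ℝ := (2 : ℝ) ^ (1 / 3 : ℝ)

theorem s3_cube : s3 ^ 3 = 2 := by
  rw [s3, ← Real.rpow_natCast, ← Real.rpow_mul (by norm_num)]
  norm_num

theorem s3_pos : 0 < s3 := Real.rpow_pos_of_pos (by norm_num) _

theorem s3_ge : 5 / 4 ≤ s3 := by
  refine le_of_not_gt fun h => ?_
  have := pow_lt_pow_left₀ h s3_pos.le (n := 3) (by norm_num)
  rw [s3_cube] at this
  norm_num at this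

theorem s3_pow (i : ℕ) : (s3 ^ i) ^ 3 = 2 ^ i := by
  rw [← pow_mul, mul_comm, pow_mul, s3_cube]

/-- The relative deviation at height `2 ^ i`. -/
noncomputable def al (i : ℕ) : ℝ := i / s3 ^ i

theorem al_nonneg (i : ℕ) : 0 ≤ al i := div_nonneg (Nat.cast_nonneg _) (pow_pos s3_pos _).le

theorem al_cube (i : ℕ) : al i ^ 3 * 2 ^ i = (i : ℝ) ^ 3 := by
  rw [al, div_pow, s3_pow]
  field_simp

theorem al_mul (i : ℕ) : al i * 2 ^ i = i * (2 : ℝ) ^ (2 * (i : ℝ) / 3) := by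
  have h : (2 : ℝ) ^ (2 * (i : ℝ) / 3) = (s3 ^ i) ^ 2 := by
    rw [← pow_mul, s3, ← Real.rpow_natCast, ← Real.rpow_mul (by norm_num)]
    congr 1
    push_cast
    ring
  have := pow_pos s3_pos i
  rw [h, al, ← s3_pow]
  field_simp

theorem one_le_al_mul {i : ℕ} (hi : 1 ≤ i) : 1 ≤ al i * 2 ^ i := by
  rw [al_mul]
  exact one_le_mul_of_one_le_of_one_le (by exact_mod_cast hi)
    (Real.one_le_rpow (by norm_num) (by positivity))

theorem al_succ {i : ℕ} (hi : 8 ≤ i) : al i ≤ 10 * (al i - al (i + 1)) := by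
  have h1 : (8 : ℝ) ≤ i := by exact_mod_cast hi
  have h2 := pow_pos s3_pos i
  have h3 := s3_ge
  have : al (i + 1) ≤ 9 / 10 * al i := by
    rw [al, al, pow_succ, ← mul_div_assoc, div_le_div_iff₀ (by positivity) h2]
    push_cast
    have : (i : ℝ) + 1 ≤ 9 / 10 * i * s3 := by nlinarith
    nlinarith
  linarith

theorem al_tends : Tendsto al atTop (𝓝 0) := by
  have h : 1 < s3 := by linarith [s3_ge]
  exact (tendsto_pow_const_div_const_pow_of_one_lt 1 h).congr fun i => by rw [pow_one, al]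

theorem lim {θ : ℕ → ℝ} {D : ℝ} (hD : 0 ≤ D) {n : ℕ} (hn : 8 ≤ n)
    (h : ∀ i ≥ n, |θ i - θ (i + 1)| ≤ D * al i) :
    ∃ τ, ∀ i ≥ n, |θ i - τ| ≤ 10 * D * al i := by
  have h1 : ∀ i ≥ n, ∀ k ≥ i, |θ i - θ k| ≤ 10 * D * (al i - al k) := by
    intro i hi k hk
    induction k, hk using Nat.le_induction with
    | base => simp
    | succ k hk ih =>
      have a1 := abs_sub_le (θ i) (θ k) (θ (k + 1))
      have a2 := h k (hi.trans hk)
      have a3 := mul_le_mul_of_nonneg_left (al_succ (hn.trans (hi.trans hk))) hD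
      linarith
  have h2 : ∀ i ≥ n, ∀ j ≥ n, θ j - 10 * D * al j ≤ θ i + 10 * D * al i := by
    intro i hi j hj
    have a1 := abs_le.1 (h1 i hi _ (le_max_left i j))
    have a2 := abs_le.1 (h1 j hj _ (le_max_right i j))
    have a3 := mul_nonneg hD (al_nonneg (max i j))
    linarith [a1.1, a2.2]
  have hb : BddAbove (range fun j : {j // n ≤ j} => θ j - 10 * D * al j) :=
    ⟨_, by rintro _ ⟨j, rfl⟩; exact h2 n le_rfl j j.2⟩
  have : Nonempty {j // n ≤ j} := ⟨⟨n, le_rfl⟩⟩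
  refine ⟨⨆ j : {j // n ≤ j}, (θ j - 10 * D * al j), fun i hi => ?_⟩
  have a1 := le_ciSup hb ⟨i, hi⟩
  have a2 := ciSup_le fun j : {j // n ≤ j} => h2 i hi j j.2
  rw [abs_le]
  constructor <;> linarith

theorem det (d1 : Det1) {ω : Env} {x : ℤ → ℝ} {y0 : ℝ} (hx : IsBi ω x) (h0 : x 0 ≤ y0)
    (h1 : y0 ≤ x 1) (hl : Linear x)
    (h : ∀ᶠ i in atTop, ω ∉ Ev y0 (2 ^ i) (2 ^ i * 2 ^ i) (al i)) :
    ∃ θ > (0 : ℝ), Straight x θ := by
  obtain ⟨c, hc, C, hl⟩ := hl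
  obtain ⟨B, b1, b2, b3, b4⟩ : ∃ B : ℝ, |x 0| ≤ B ∧ |y0| ≤ B ∧ C ≤ B ∧ 1 ≤ B :=
    ⟨max (max |x 0| |y0|) (max C 1), by simp, by simp, by simp, by simp⟩
  have t2 : Tendsto (fun i : ℕ => (2 : ℝ) ^ i) atTop atTop :=
    tendsto_pow_atTop_atTop_of_one_lt (by norm_num)
  obtain ⟨n, hn⟩ := eventually_atTop.1 (hl.and (h.and ((eventually_ge_atTop 8).and
    ((t2.eventually_ge_atTop (10 * B)).and (((t2.const_mul_atTop hc).eventually_gt_atTop
      (B + 1)).and (al_tends.eventually_le_const (by norm_num : (0 : ℝ) < 1 / 2)))))))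
  have hn8 : 8 ≤ n := (hn n le_rfl).2.2.1
  obtain ⟨τ, hτ⟩ := lim (θ := fun i => x ((2 ^ i : ℕ) : ℤ) / 2 ^ i) (D := 3 * B) (by linarith) hn8
    fun i hi => by
      obtain ⟨-, a1, a2, a3, -, a5⟩ := hn i hi
      obtain ⟨⟨a6, a7⟩, -, -, -, a8, -⟩ := hn (i + 1) (by omega)
      have e : ((2 ^ (i + 1) : ℕ) : ℤ) = 2 * ((2 ^ i : ℕ) : ℤ) := by push_cast; ring
      rw [e] at a6 a7 ⊢
      have hp : (1 : ℝ) ≤ 2 ^ i := one_le_pow₀ (by norm_num)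
      have a9 : x (2 * ((2 ^ i : ℕ) : ℤ)) ≤ 2 * B * 2 ^ i := by
        have := mul_le_mul_of_nonneg_right b3 (by positivity : (0 : ℝ) ≤ 2 ^ (i + 1))
        rw [pow_succ] at this a7
        linarith
      have u := up d1 hx a1 Nat.one_le_two_pow h0 h1 b2 (al_nonneg i) (by linarith)
        (by push_cast at a9 ⊢; nlinarith)
      have g1 := one_le_al_mul (i := i) (by omega)
      have g2 := al_nonneg i
      have g3 : al i * (x (2 * ((2 ^ i : ℕ) : ℤ)) + 1 + B) ≤ al i * (4 * B * 2 ^ i) :=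
        mul_le_mul_of_nonneg_left (by nlinarith) g2
      have g4 : x ((2 ^ i : ℕ) : ℤ) / 2 ^ i - x (2 * ((2 ^ i : ℕ) : ℤ)) / 2 ^ (i + 1) =
          (x ((2 ^ i : ℕ) : ℤ) - x (2 * ((2 ^ i : ℕ) : ℤ)) / 2) / 2 ^ i := by
        rw [pow_succ]; field_simp
      rw [g4, abs_div, abs_of_pos (by positivity : (0 : ℝ) < 2 ^ i),
        div_le_iff₀ (by positivity)]
      nlinarith
  refine ⟨τ, ?_, 48 * B, eventually_atTop.2 ⟨n, fun i hi => ?_⟩⟩
  · have t3 : Tendsto (fun i => 10 * (3 * B) * al i) atTop (𝓝 0) := by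
      simpa using al_tends.const_mul (10 * (3 * B))
    obtain ⟨i, i1, i2⟩ := ((t3.eventually_lt_const hc).and (eventually_ge_atTop n)).exists
    have a1 := (abs_le.1 (hτ i i2)).2
    have a2 : c ≤ x ((2 ^ i : ℕ) : ℤ) / 2 ^ i := by
      rw [le_div_iff₀ (by positivity)]
      exact (hn i i2).1.1
    linarith
  · obtain ⟨⟨a6, a7⟩, a1, a2, a3, a4, a5⟩ := hn i hi
    have hp : (1 : ℝ) ≤ 2 ^ i := one_le_pow₀ (by norm_num)
    have a9 : x ((2 ^ i : ℕ) : ℤ) ≤ B * 2 ^ i :=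
      a7.trans (mul_le_mul_of_nonneg_right b3 (by positivity))
    have u := down d1 hx a1 Nat.one_le_two_pow b1 (al_nonneg i) a5 (by linarith)
      (by push_cast at a9 ⊢; nlinarith)
    have g1 := one_le_al_mul (i := i) (by omega)
    have g2 := al_nonneg i
    have g3 : al i * (4 * x ((2 ^ i : ℕ) : ℤ) + 4 * B + 6) ≤ al i * (14 * B * 2 ^ i) :=
      mul_le_mul_of_nonneg_left (by nlinarith) g2
    have g4 : |x ((2 ^ i : ℕ) : ℤ) - τ * 2 ^ i| ≤ 30 * B * (al i * 2 ^ i) := by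
      have := hτ i hi
      have e : x ((2 ^ i : ℕ) : ℤ) / 2 ^ i - τ = (x ((2 ^ i : ℕ) : ℤ) - τ * 2 ^ i) / 2 ^ i := by
        field_simp
      rw [e, abs_div, abs_of_pos (by positivity : (0 : ℝ) < 2 ^ i),
        div_le_iff₀ (by positivity)] at this
      linarith
    have g5 : B ≤ B * (al i * 2 ^ i) := le_mul_of_one_le_right (by linarith) g1
    unfold LocAt
    rw [mul_assoc, ← al_mul, show ((2 ^ i : ℕ) : ℝ) = 2 ^ i by push_cast; rfl]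
    obtain ⟨g6, g7⟩ := abs_le.1 g4
    obtain ⟨g8, g9⟩ := abs_le.1 u
    rw [abs_le, abs_le]
    refine ⟨⟨?_, ?_⟩, ?_, ?_⟩ <;> linarith

theorem num {C : ℝ} (hC : 1 ≤ C) {i : ℕ} (hi : 8 * C ≤ i) :
    (1 + (((2 * (2 ^ i : ℕ) : ℤ) : ℝ) - ((-((2 ^ i : ℕ) : ℤ) : ℤ) : ℝ)) *
      ((((2 ^ i * 2 ^ i : ℕ) : ℤ) : ℝ) - ((-((2 ^ i * 2 ^ i : ℕ) : ℤ) : ℤ) : ℝ)) * 1) *
      (2 * ((2 * (2 ^ i * 2 ^ i : ℕ) + 2) * ((2 * (2 ^ i * 2 ^ i : ℕ) + 2) *
        (4 * Real.exp (-(al i ^ 3 * (2 ^ i : ℕ) / C)))))) ≤ 896 * (1 / 2) ^ i := by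
  push_cast
  rw [al_cube]
  have h1 : (1 : ℝ) ≤ i := by linarith
  have h2 : Real.exp (-((i : ℝ) ^ 3 / C)) ≤ 1 / ((2 : ℝ) ^ i) ^ 8 := by
    have a1 : (8 * i : ℕ) * (1 : ℝ) ≤ (i : ℝ) ^ 3 / C := by
      rw [le_div_iff₀ (by linarith)]
      push_cast
      nlinarith [mul_le_mul h1 hi (by linarith) (by linarith)]
    rw [Real.exp_neg, one_div]
    refine inv_anti₀ (by positivity) (le_trans ?_ (Real.exp_le_exp.2 a1))
    rw [Real.exp_nat_mul, ← pow_mul, mul_comm]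
    exact pow_le_pow_left₀ (by norm_num) (by linarith [Real.add_one_le_exp 1]) _
  rw [one_div_pow]
  have hp : (1 : ℝ) ≤ 2 ^ i := one_le_pow₀ (by norm_num)
  generalize (2 : ℝ) ^ i = m at *
  have a1 : 1 + (2 * m - -m) * (m * m - -(m * m)) * 1 ≤ 7 * m ^ 3 := by
    nlinarith [one_le_pow₀ (n := 3) hp]
  have a2 : 2 * (m * m) + 2 ≤ 4 * m ^ 2 := by nlinarith
  calc _ ≤ 7 * m ^ 3 * (2 * (4 * m ^ 2 * (4 * m ^ 2 * (4 * (1 / m ^ 8))))) := by gcongr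
    _ = 896 * (1 / m) := by field_simp; norm_num

end LocalA

open LocalA

universe u

theorem localS (d1 : Det1) (md : MidStmt) : LocalStmt.{u} := by
  intro Ω _ P μ W hW
  obtain ⟨C, hC, hm⟩ := md
  have key : ∀ (y0 : ℚ) (q : ℤ), ∀ᵐ ω ∂P, ∀ᶠ i : ℕ in atTop,
      ω ∉ {ω | 8 * C ≤ i ∧ al i ≤ 1 / 2 ∧ ∃ t ∈ Icc (q : ℝ) (q + 1),
        W t ω ∈ Ev y0 (2 ^ i) (2 ^ i * 2 ^ i) (al i)} := by
    intro y0 q
    refine ae_eventually_notMem (ne_top_of_le_ne_top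
      (summable_geometric_two.mul_left 896).tsum_ofReal_ne_top (ENNReal.tsum_le_tsum fun i => ?_))
    by_cases h : 8 * C ≤ i ∧ al i ≤ 1 / 2
    · refine (measure_mono fun ω hω => hω.2.2).trans
        ((hW.union _ _ _ _ _ q 1 (neg_le_iff_add_nonneg.2 (by positivity))
          (neg_le_iff_add_nonneg.2 (by positivity)) zero_le_one (ev_loc d1 _ _ _ _)).trans ?_)
      have h0 : 0 < al i := div_pos (by linarith [h.1]) (pow_pos s3_pos _)
      refine (mul_le_mul_right (ev_le (by positivity) fun l u v huv =>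
        hm μ l _ u v _ hW.bm Nat.one_le_two_pow huv h0 h.2) _).trans ?_
      rw [← ENNReal.ofReal_mul (by push_cast; ring_nf; positivity)]
      exact ENNReal.ofReal_le_ofReal (num hC h.1)
    · exact (measure_mono fun ω hω => (h ⟨hω.1, hω.2.1⟩).elim).trans
        (measure_empty.trans_le bot_le)
  filter_upwards [ae_all_iff.2 fun y0 => ae_all_iff.2 (key y0)] with ω hω t x hx h01 hl
  obtain ⟨y0, h0, h1⟩ := exists_rat_btwn h01
  refine det d1 hx h0.le h1.le hl ?_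
  filter_upwards [hω y0 ⌊t⌋, tendsto_natCast_atTop_atTop.eventually_ge_atTop (8 * C),
    al_tends.eventually_le_const (by norm_num : (0 : ℝ) < 1 / 2)] with i h2 h3 h4 h5
  exact h2 ⟨h3, h4, t, ⟨Int.floor_le t, (Int.lt_floor_add_one t).le⟩, h5⟩

end Pool.Agent.MP_3d8edd_pr.H69
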