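import Pool.Agent.MP_3d8edd_pr.H69.Basic

/-!
Row MID: transversal fluctuations at half height.
-/

open MeasureTheory ProbabilityTheory Set Filter
open scoped NNReal ENNReal Topology

namespace Pool.Agent.MP_3d8edd_pr.H69

namespace MidA

/-- Deviation to the right. -/
def DevR (l : ℤ) (m : ℕ) (x y α : ℝ) : Set Env :=
  {ω | ∃ z, (x + y) / 2 + α * (y - x) / 2 ≤ z ∧ IsOpt ω l (l + m) (l + 2 * m) x y z}

theorem goodL_shift {g : CP} {ω : Env} {m k : ℤ} {z0 y : ℝ} (h : GoodL (shift 0 g) ω m k z0 y) :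
    GoodL g ω m k z0 y := by
  obtain ⟨z, hz, c, h1, h2⟩ := h
  refine ⟨z, hz, c + g 0, fun z' hz' => ?_, ?_⟩
  · have := h1 z' hz'
    simp only [shift_apply, zero_add] at this
    linarith
  · simp only [shift_apply, zero_add] at h2
    linarith

theorem goodL_congr (d1 : Det1) {h : CP} {ω ω' : Env} {m k : ℤ} {z0 y : ℝ}
    (hω : ∀ j : ℤ, m < j → ω j = ω' j) (hg : GoodL h ω m k z0 y) : GoodL h ω' m k z0 y := by
  have e : ∀ z, T ω m k z y = T ω' m k z y := fun z =>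
    d1.agree ω ω' m k z y fun j hj _ u _ v _ => by rw [hω j hj]
  obtain ⟨z, hz, c, h1, h2⟩ := hg
  exact ⟨z, hz, c, fun z' hz' => e z' ▸ h1 z' hz', e z ▸ h2⟩

theorem num_right {u : ℝ} (h0 : 0 < u) (h1 : u ≤ 1 / 16) :
    1 / (1 - u ^ 2) - ((1 + 2 * u) / (1 + u)) ^ 2 ≤ -u := by
  have a1 : 0 < 1 - u := by linarith
  have a2 : 0 < 1 + u := by linarith
  have a3 : 0 < 1 - u ^ 2 := by nlinarith
  have e : 1 / (1 - u ^ 2) - ((1 + 2 * u) / (1 + u)) ^ 2 + u =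
      ((1 + u) - (1 + 2 * u) ^ 2 * (1 - u) + u * (1 - u) * (1 + u) ^ 2) /
        ((1 - u) * (1 + u) ^ 2) := by
    have : 1 - u ^ 2 = (1 - u) * (1 + u) := by ring
    rw [this]; field_simp
  have hn : (1 + u) - (1 + 2 * u) ^ 2 * (1 - u) + u * (1 - u) * (1 + u) ^ 2 ≤ 0 := by
    have b1 : u ^ 2 ≤ u / 16 := by nlinarith
    have b2 : u ^ 3 ≤ u / 16 := by nlinarith
    have b3 : 0 ≤ u ^ 4 := by positivity
    nlinarith
  have : 1 / (1 - u ^ 2) - ((1 + 2 * u) / (1 + u)) ^ 2 + u ≤ 0 := by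
    rw [e]; exact div_nonpos_of_nonpos_of_nonneg hn (by positivity)
  linarith

theorem num_left {u : ℝ} (h0 : 0 < u) (h1 : u ≤ 1 / 16) :
    ((1 + 2 * u) / (1 - u)) ^ 2 * (1 - 8 * u) - 1 ≤ -(2 * u) := by
  have a1 : 0 < 1 - u := by linarith
  have : ((1 + 2 * u) / (1 - u)) ^ 2 * (1 - 8 * u) ≤ 1 - 2 * u := by
    rw [div_pow, div_mul_eq_mul_div, div_le_iff₀ (by positivity)]
    have b3 : 0 ≤ u ^ 3 := by positivity
    have b2 : 0 ≤ u ^ 2 := by positivity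
    nlinarith
  linarith

theorem devR_le (d1 : Det1) (d2 : Det2) (b1 : Bm1) (st : Stat) (ex : Exit) (μ : Measure CP)
    (l : ℤ) (m : ℕ) (x y α : ℝ) (hμ : IsBM μ 0) (hm : 1 ≤ m) (hxy : x < y) (hα : 0 < α)
    (hα' : α ≤ 1 / 2) :
    PP μ (DevR l m x y α) ≤ ENNReal.ofReal (2 * Real.exp (-(α ^ 3 * m / 512))) := by
  have := hμ.prob
  obtain ⟨u, hu⟩ : ∃ u : ℝ, α = 8 * u := ⟨α / 8, by ring⟩
  have hu0 : 0 < u := by linarith
  have hu1 : u ≤ 1 / 16 := by linarith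
  have hm0 : (0 : ℝ) < m := by exact_mod_cast hm
  have hd : 0 < y - x := sub_pos.2 hxy
  obtain ⟨s, hs0, hs⟩ : ∃ s : ℝ, 0 < s ∧ s ^ 2 * (y - x) = 2 * m := by
    refine ⟨√(2 * m / (y - x)), Real.sqrt_pos.2 (by positivity), ?_⟩
    rw [Real.sq_sqrt (by positivity)]; field_simp
  obtain ⟨ν, hν⟩ : ∃ ν, IsBM ν (s * (1 + 2 * u)) :=
    ⟨_, by simpa using b1.add_lin μ 0 (s * (1 + 2 * u)) hμ⟩
  have := hν.prob
  have hρ : 0 < s * (1 + 2 * u) := by positivity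
  set z0 : ℝ := (x + y) / 2 + α * (y - x) / 2 with hz0
  have hz0y : z0 ≤ y := by rw [hz0]; nlinarith
  have hexp : α ^ 3 * m / 512 = u ^ 3 * m := by rw [hu]; ring
  -- the exit point on the bottom line
  have hR : (ν.prod (PP μ)) {p | ¬ GoodR p.1 p.2 l (l + (m + m : ℕ)) x y} ≤
      ENNReal.ofReal (Real.exp (-(α ^ 3 * m / 512))) := by
    have a2 : 0 < 1 + u := by linarith
    have hν' : IsBM ν (s * ((1 + 2 * u) / (1 + u)) * (1 + u)) := by
      rwa [mul_assoc, div_mul_cancel₀ _ a2.ne']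
    refine (ex.right μ ν _ u l (m + m) x y hμ hν' (by positivity) hu0 (by linarith) (by omega)
      hxy.le).trans (ENNReal.ofReal_le_ofReal (Real.exp_le_exp.2 ?_))
    have h1 := num_right hu0 hu1
    have e : u ^ 2 * (((m + m : ℕ) : ℝ) / (1 - u ^ 2) -
        (s * ((1 + 2 * u) / (1 + u))) ^ 2 * (y - x)) / 2 =
        u ^ 2 * m * (1 / (1 - u ^ 2) - ((1 + 2 * u) / (1 + u)) ^ 2) := by
      have : (s * ((1 + 2 * u) / (1 + u))) ^ 2 * (y - x) =
          ((1 + 2 * u) / (1 + u)) ^ 2 * (2 * m) := by rw [← hs]; ring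
      rw [this]; push_cast; ring
    rw [e, hexp]
    have := mul_le_mul_of_nonneg_left h1 (by positivity : 0 ≤ u ^ 2 * m)
    linarith
  -- the exit point on the middle line
  have hL : (ν.prod (PP μ)) {p | ¬ GoodL p.1 p.2 (l + m) (l + m + m) z0 y} ≤
      ENNReal.ofReal (Real.exp (-(α ^ 3 * m / 512))) := by
    have a2 : 0 < 1 - u := by linarith
    have hν' : IsBM ν (s * ((1 + 2 * u) / (1 - u)) * (1 - u)) := by
      rwa [mul_assoc, div_mul_cancel₀ _ a2.ne']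
    refine (ex.left μ ν _ u (l + m) m z0 y hμ hν' (by positivity) hu0 (by linarith) hm
      hz0y).trans (ENNReal.ofReal_le_ofReal (Real.exp_le_exp.2 ?_))
    have h1 := num_left hu0 hu1
    have e : u ^ 2 * ((s * ((1 + 2 * u) / (1 - u))) ^ 2 * (y - z0) - m) / 2 =
        u ^ 2 * m / 2 * (((1 + 2 * u) / (1 - u)) ^ 2 * (1 - 8 * u) - 1) := by
      have h2 : y - z0 = (y - x) * (1 - 8 * u) / 2 := by rw [hz0, hu]; ring
      have : (s * ((1 + 2 * u) / (1 - u))) ^ 2 * (y - z0) =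
          ((1 + 2 * u) / (1 - u)) ^ 2 * (2 * m) * (1 - 8 * u) / 2 := by rw [h2, ← hs]; ring
      rw [this]; ring
    rw [e, hexp]
    have := mul_le_mul_of_nonneg_left h1 (by positivity : 0 ≤ u ^ 2 * m / 2)
    linarith
  have hL' := (st.up μ ν _ l m {p | ¬ GoodL p.1 p.2 (l + m) (l + m + m) z0 y} hμ hν hρ
    (fun h ω ω' hω h1 h2 => h1 (goodL_congr d1 (fun j hj => (hω j hj).symm) h2))).trans hL
  rw [← prod_snd_preimage ν (PP μ), two_mul, ENNReal.ofReal_add (by positivity) (by positivity)]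
  refine le_trans (measure_mono_ae ?_) ((measure_union_le _ _).trans (add_le_add hR hL'))
  filter_upwards [st.bdd μ ν _ l (m + m) hμ hν hρ] with p hp
  rintro ⟨z, hz, hopt⟩
  by_contra hc
  change ¬ (_ ∨ _) at hc
  rw [not_or] at hc
  have g1 : GoodR p.1 p.2 l (l + (m + m : ℕ)) x y := not_not.1 hc.1
  have g2 : GoodL (shift 0 (GG p.1 p.2 l m)) p.2 (l + m) (l + m + m) z0 y := not_not.1 hc.2
  have e1 : l + (m : ℤ) + m = l + (m + m : ℕ) := by push_cast; ring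
  have e2 : l + 2 * (m : ℤ) = l + (m + m : ℕ) := by push_cast; ring
  rw [e1] at g2
  rw [e2] at hopt
  have := d2.mid p.1 p.2 l m m x y z0 z hm hm hp g1 (goodL_shift g2) hopt
  exact absurd hz (not_le.2 this)

theorem dev_subset (d1 : Det1) (l : ℤ) (m : ℕ) (x y α : ℝ) :
    Dev l m x y α ⊆ DevR l m x y α ∪ rotE ⁻¹' DevR (-(l + 2 * m)) m (-y) (-x) α := by
  rintro ω ⟨z, hz, h1, h2, h3⟩
  rcases le_abs.1 hz with h | h
  · exact Or.inl ⟨z, by linarith, h1, h2, h3⟩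
  · refine Or.inr ⟨-z, by linarith, by linarith, by linarith, ?_⟩
    have e1 : -(-(l + 2 * (m : ℤ)) + 2 * m) = l := by ring
    have e2 : -(-(l + 2 * (m : ℤ)) + m) = l + m := by ring
    simp only [d1.rotE, neg_neg, e1, e2]
    linarith

end MidA

theorem midS (d1 : Det1) (d2 : Det2) (b1 : Bm1) (e : EnvA) (st : Stat) (ex : Exit) : MidStmt := by
  refine ⟨512, by norm_num, fun μ l m x y α hμ hm hxy hα hα' => ?_⟩
  have h1 := MidA.devR_le d1 d2 b1 st ex μ l m x y α hμ hm hxy hα hα'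
  have h2 := (preimage_le (e.rotE μ hμ) _).trans
    (MidA.devR_le d1 d2 b1 st ex μ (-(l + 2 * m)) m (-y) (-x) α hμ hm (by linarith) hα hα')
  refine (measure_mono (MidA.dev_subset d1 l m x y α)).trans
    ((measure_union_le _ _).trans ((add_le_add h1 h2).trans (le_of_eq ?_)))
  rw [← ENNReal.ofReal_add (by positivity) (by positivity)]
  congr 1; ring

end Pool.Agent.MP_3d8edd_pr.H69
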