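import Pool.Agent.MP_3d8edd_pr.H69.Basic

/-!
Row CLOCK2: the passage time across a box moves little in a short time.
-/

open MeasureTheory ProbabilityTheory Set Filter
open scoped NNReal ENNReal Topology

namespace Pool.Agent.MP_3d8edd_pr.H69

universe u

namespace MoveA

/-- Exponential moment of the Poisson law. -/
theorem poisson_pow (s : ℝ≥0) (w : ℝ) (hw : 0 ≤ w) :
    ∫⁻ n : ℕ, ENNReal.ofReal ((1 + w) ^ n) ∂poissonMeasure s =
      ENNReal.ofReal (Real.exp (s * w)) := by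
  rw [lintegral_countable']
  have h : HasSum (fun n : ℕ => (1 + w) ^ n * (Real.exp (-s) * (s : ℝ) ^ n / (n.factorial : ℝ)))
      (Real.exp (s * w)) := by
    have h0 := (NormedSpace.expSeries_div_hasSum_exp ((s : ℝ) * (1 + w))).mul_left (Real.exp (-s))
    rw [← Real.exp_eq_exp_ℝ, ← Real.exp_add] at h0
    have e : -(s : ℝ) + s * (1 + w) = s * w := by ring
    rw [e] at h0
    have e2 : (fun n : ℕ => (1 + w) ^ n * (Real.exp (-s) * (s : ℝ) ^ n / (n.factorial : ℝ))) =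
        fun n : ℕ => Real.exp (-s) * (((s : ℝ) * (1 + w)) ^ n / (n.factorial : ℝ)) := by
      ext n; rw [mul_pow]; ring
    rw [e2]; exact h0
  rw [← h.tsum_eq, ENNReal.ofReal_tsum_of_nonneg (fun n => by positivity) h.summable]
  refine tsum_congr fun n => ?_
  rw [poissonMeasure_singleton, ENNReal.ofReal_mul (by positivity)]

/-- Two disjoint choices of versions give two independent configurations. -/
theorem pair_law (π : Measure CP) [IsProbabilityMeasure π] (f g : ℤ × ℤ → ℤ)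
    (h : ∀ c, f c ≠ g c) :
    (Measure.infinitePi fun _ : (ℤ × ℤ) × ℤ => π).map
      (fun y => ((fun c => y (c, f c) : Cfg), (fun c => y (c, g c) : Cfg))) =
      (QQ π).prod (QQ π) := by
  let e : Bool × (ℤ × ℤ) → (ℤ × ℤ) × ℤ := fun p => (p.2, if p.1 then g p.2 else f p.2)
  have he : Function.Injective e := by
    rintro ⟨b, c⟩ ⟨b', c'⟩ hp
    simp only [e, Prod.mk.injEq] at hp
    obtain ⟨rfl, h2⟩ := hp
    cases b <;> cases b' <;> simp_all [(h c).symm]
  have h1 := Measure.map_infinitePi_infinitePi_of_inj (P := fun _ : (ℤ × ℤ) × ℤ => π) he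
  have h2 := Measure.infinitePi_map_curry (fun (_ : Bool) (_ : ℤ × ℤ) => π)
  have h3 := Measure.infinitePi_map_eval_prod (P := fun _ : Bool => QQ π) (i := false) (j := true)
    (by decide)
  rw [← h3]
  unfold QQ
  rw [← h2, ← h1, Measure.map_map (by fun_prop) (by fun_prop),
    Measure.map_map (by fun_prop) (by fun_prop)]
  rfl

/-- A countable set of times. -/
def Ts (t0 s : ℝ) : Set ℝ := Icc t0 (t0 + s) ∩ (range (fun q : ℚ => (q : ℝ)) ∪ {t0 + s})

theorem countable_Ts (t0 s : ℝ) : (Ts t0 s).Countable :=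
  ((countable_range _).union (countable_singleton _)).mono inter_subset_right

theorem exists_Ts (Λ : Finset (ℤ × ℤ)) (n : ℤ × ℤ → ℝ → ℤ)
    (hrc : ∀ c t, ContinuousWithinAt (n c) (Ici t) t) {t0 s t : ℝ} (ht : t ∈ Icc t0 (t0 + s)) :
    ∃ t' ∈ Ts t0 s, ∀ c ∈ Λ, n c t' = n c t := by
  rcases ht.2.eq_or_lt with h | h
  · exact ⟨t, ⟨ht, Or.inr h⟩, fun _ _ => rfl⟩
  · have h1 : ∀ᶠ v in 𝓝[≥] t, ∀ c ∈ Λ, n c v = n c t := by
      rw [Filter.eventually_all_finset]
      intro c _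
      exact (hrc c t).eventually ((isOpen_discrete {n c t}).mem_nhds rfl)
    have h2 : ∀ᶠ v in 𝓝[≥] t, v < t0 + s := nhdsWithin_le_nhds (Iio_mem_nhds h)
    obtain ⟨b, hb, hsub⟩ := (mem_nhdsGE_iff_exists_Ico_subset' h).1 (h1.and h2)
    obtain ⟨q, hq1, hq2⟩ := exists_rat_btwn (show t < b from hb)
    have := hsub ⟨hq1.le, hq2⟩
    exact ⟨q, ⟨⟨ht.1.trans hq1.le, this.2.le⟩, Or.inl ⟨q, rfl⟩⟩, this.1⟩

/-- The versions in use at time `t`. -/
def vec (Λ : Finset (ℤ × ℤ)) (n : ℤ × ℤ → ℝ → ℤ) (t : ℝ) : Λ → ℤ := fun c => n c t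

/-- Extension by zero. -/
def ext {Λ : Finset (ℤ × ℤ)} (κ : Λ → ℤ) (c : ℤ × ℤ) : ℤ := if h : c ∈ Λ then κ ⟨c, h⟩ else 0

theorem ext_vec {Λ : Finset (ℤ × ℤ)} (n : ℤ × ℤ → ℝ → ℤ) (t : ℝ) {c : ℤ × ℤ} (hc : c ∈ Λ) :
    ext (vec Λ n t) c = n c t := by
  rw [ext, dif_pos hc]; rfl

/-- The clocks start from `x.1` and visit `x.2`. -/
def VV (Λ : Finset (ℤ × ℤ)) (t0 s : ℝ) (x : (Λ → ℤ) × (Λ → ℤ)) : Set (ℤ × ℤ → ℝ → ℤ) :=
  {n | vec Λ n t0 = x.1} ∩ ⋃ t ∈ Ts t0 s, {n | vec Λ n t = x.2}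

/-- The cells whose version has changed. -/
def RR (Λ : Finset (ℤ × ℤ)) (x : (Λ → ℤ) × (Λ → ℤ)) : Finset (ℤ × ℤ) :=
  Λ.filter fun c => ext x.2 c ≠ ext x.1 c

theorem measurableSet_VV (Λ : Finset (ℤ × ℤ)) (t0 s : ℝ) (x : (Λ → ℤ) × (Λ → ℤ)) :
    MeasurableSet (VV Λ t0 s x) := by
  have hm : ∀ t, Measurable fun n : ℤ × ℤ → ℝ → ℤ => vec Λ n t := fun t =>
    measurable_pi_lambda _ fun c => (measurable_pi_apply t).comp (measurable_pi_apply c.1)
  exact (hm t0 (measurableSet_singleton _)).inter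
    (MeasurableSet.biUnion (countable_Ts t0 s) fun t _ => hm t (measurableSet_singleton _))

theorem count_le (Λ : Finset (ℤ × ℤ)) (n : ℤ × ℤ → ℝ → ℤ) (hn : ∀ c, Monotone (n c))
    {t0 s : ℝ} (hs : 0 ≤ s) :
    (({x | n ∈ VV Λ t0 s x}.encard : ℕ∞) : ℝ≥0∞) ≤
      ENNReal.ofReal (1 + ∑ c ∈ Λ, ((n c (t0 + s) - n c t0).toNat : ℝ)) := by
  have hsum : ∀ t t', t ≤ t' → ∑ c : Λ, vec Λ n t c ≤ ∑ c : Λ, vec Λ n t' c := fun t t' h =>
    Finset.sum_le_sum fun c _ => hn c h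
  have hinj : ∀ t t', t ≤ t' → ∑ c : Λ, vec Λ n t c = ∑ c : Λ, vec Λ n t' c →
      vec Λ n t = vec Λ n t' := fun t t' h he => by
    funext c
    exact (Finset.sum_eq_sum_iff_of_le (s := (Finset.univ : Finset Λ)) (f := vec Λ n t)
      (g := vec Λ n t') fun c _ => hn c h).1 he c (Finset.mem_univ c)
  have h1 : {x | n ∈ VV Λ t0 s x}.encard ≤
      ((Finset.Icc (∑ c : Λ, vec Λ n t0 c) (∑ c : Λ, vec Λ n (t0 + s) c) : Finset ℤ) :
        Set ℤ).encard := by
    refine encard_le_encard_of_injOn (f := fun x => ∑ c : Λ, x.2 c) ?_ ?_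
    · rintro x ⟨-, hx⟩
      simp only [mem_iUnion, mem_ofPred_eq] at hx
      obtain ⟨t, ht, hx⟩ := hx
      simp only [Finset.coe_Icc, mem_Icc, ← hx]
      exact ⟨hsum _ _ ht.1.1, hsum _ _ ht.1.2⟩
    · rintro x ⟨hx0, hx⟩ y ⟨hy0, hy⟩ hxy
      simp only [mem_iUnion, mem_ofPred_eq] at hx hy hx0 hy0
      obtain ⟨t, -, hx⟩ := hx
      obtain ⟨t', -, hy⟩ := hy
      refine Prod.ext (hx0.symm.trans hy0) ?_
      simp only [← hx, ← hy] at hxy ⊢
      rcases le_total t t' with h | h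
      · exact hinj _ _ h hxy
      · exact (hinj _ _ h hxy.symm).symm
  rw [encard_coe_eq_coe_finsetCard, Int.card_Icc] at h1
  refine (ENat.toENNReal_le.2 h1).trans ?_
  rw [ENat.toENNReal_coe, ← ENNReal.ofReal_natCast]
  refine ENNReal.ofReal_le_ofReal (le_of_eq ?_)
  have h0 : ∀ c, 0 ≤ n c (t0 + s) - n c t0 := fun c => sub_nonneg.2 (hn c (by linarith))
  have e1 : ∀ c, ((n c (t0 + s) - n c t0).toNat : ℝ) = ((n c (t0 + s) - n c t0 : ℤ) : ℝ) :=
    fun c => by rw [← Int.cast_natCast, Int.toNat_of_nonneg (h0 c)]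
  have h2 := hsum t0 (t0 + s) (by linarith)
  rw [← Int.cast_natCast, Int.toNat_of_nonneg (by omega), ← Finset.sum_coe_sort Λ]
  simp only [e1, vec]
  push_cast
  rw [Finset.sum_sub_distrib]
  ring

theorem one_add_sum_le {ι : Type*} (S : Finset ι) (a : ι → ℝ) (ha : ∀ i ∈ S, 0 ≤ a i) :
    1 + ∑ i ∈ S, a i ≤ ∏ i ∈ S, (1 + a i) := by
  classical
  induction S using Finset.induction_on with
  | empty => simp
  | insert j S hj ih =>
    rw [Finset.sum_insert hj, Finset.prod_insert hj]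
    have h1 := ih fun i hi => ha i (Finset.mem_insert_of_mem hi)
    have h2 := ha j (Finset.mem_insert_self _ _)
    have h3 : 0 ≤ ∑ i ∈ S, a i := Finset.sum_nonneg fun i hi => ha i (Finset.mem_insert_of_mem hi)
    nlinarith

theorem exp_le_four {x : ℝ} (hx : x ≤ 5 / 4) : Real.exp x ≤ 4 := by
  have h1 : Real.exp x ≤ Real.exp 1 * Real.exp (1 / 4) := by
    rw [← Real.exp_add]; exact Real.exp_le_exp.2 (by linarith)
  have h2 := Real.exp_one_lt_d9
  have h3 : Real.exp (1 / 4) ≤ 1 / (1 - 1 / 4) :=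
    Real.exp_bound_div_one_sub_of_interval (by norm_num) (by norm_num)
  have h4 := Real.exp_pos (1 / 4)
  nlinarith

theorem exp_le_lin {x : ℝ} (h0 : 0 ≤ x) (hx : x ≤ 5 / 4) : Real.exp x ≤ 1 + 4 * x := by
  have h1 := Real.add_one_le_exp (-x)
  have h2 : Real.exp (-x) * Real.exp x = 1 := by rw [← Real.exp_add]; simp
  have h3 := exp_le_four hx
  have h4 := Real.exp_pos x
  nlinarith

/-- The pointwise bound by a product over the cells. -/
theorem point_le (Λ R : Finset (ℤ × ℤ)) (a : ℤ × ℤ → ℕ) (len : ℤ × ℤ → ℝ) (θ M : ℝ)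
    (hR : R ⊆ Λ) (hRa : ∀ c ∈ R, 1 ≤ a c) (hl : ∀ c, 0 ≤ len c ∧ len c ≤ 1) (h0 : 0 ≤ θ)
    (h1 : θ ≤ 5 / 4) (hM : 1 ≤ M) :
    (1 + ∑ c ∈ Λ, (a c : ℝ)) * Real.exp (θ * ∑ c ∈ R, len c) ≤
      M * ∏ c ∈ Λ, (1 + (4 * (θ * len c) + 4 / M)) ^ a c := by
  have hM0 : 0 < M := by linarith
  have e1 : 1 + ∑ c ∈ Λ, (a c : ℝ) ≤ M * ∏ c ∈ Λ, (1 + (a c : ℝ) / M) := by
    have := one_add_sum_le Λ (fun c => (a c : ℝ) / M) fun c _ => by positivity
    rw [← Finset.sum_div] at this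
    calc 1 + ∑ c ∈ Λ, (a c : ℝ) ≤ M * (1 + (∑ c ∈ Λ, (a c : ℝ)) / M) := by
          rw [mul_add, mul_div_cancel₀ _ hM0.ne']; linarith
      _ ≤ _ := by gcongr
  have e2 : Real.exp (θ * ∑ c ∈ R, len c) =
      ∏ c ∈ Λ, if c ∈ R then Real.exp (θ * len c) else 1 := by
    rw [Finset.prod_ite_mem, Finset.inter_eq_right.2 hR, Finset.mul_sum, Real.exp_sum]
  calc (1 + ∑ c ∈ Λ, (a c : ℝ)) * Real.exp (θ * ∑ c ∈ R, len c)
      ≤ (M * ∏ c ∈ Λ, (1 + (a c : ℝ) / M)) * Real.exp (θ * ∑ c ∈ R, len c) := by gcongr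
    _ = M * ∏ c ∈ Λ, ((1 + (a c : ℝ) / M) * if c ∈ R then Real.exp (θ * len c) else 1) := by
        rw [e2, Finset.prod_mul_distrib, mul_assoc]
    _ ≤ _ := by
        refine mul_le_mul_of_nonneg_left (Finset.prod_le_prod (fun c _ => ?_) fun c _ => ?_) hM0.le
        · split_ifs <;> positivity
        · have hx0 : 0 ≤ θ * len c := mul_nonneg h0 (hl c).1
          have hx1 : θ * len c ≤ 5 / 4 := by nlinarith [(hl c).1, (hl c).2]
          have hw : 0 ≤ 4 * (θ * len c) + 4 / M := by positivity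
          refine le_trans ?_ (one_add_mul_le_pow (by linarith) (a c))
          have ha0 : (0 : ℝ) ≤ a c := by positivity
          have hd : (a c : ℝ) / M = a c * (1 / M) := by ring
          have hd4 : 4 / M = 4 * (1 / M) := by ring
          have hi : 0 ≤ 1 / M := by positivity
          rw [hd, hd4]
          split_ifs with hc
          · have ha1 : (1 : ℝ) ≤ a c := by exact_mod_cast hRa c hc
            have b1 := exp_le_four hx1
            have b2 := exp_le_lin hx0 hx1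
            have b3 : (a c : ℝ) * (1 / M) * Real.exp (θ * len c) ≤ a c * (1 / M) * 4 := by gcongr
            nlinarith
          · have := mul_nonneg ha0 hi
            nlinarith [mul_nonneg ha0 hx0]

section
variable {Ω : Type u} [MeasurableSpace Ω] {P : Measure Ω} {π : Measure CP}
  {Y : (ℤ × ℤ) × ℤ → Ω → CP} {N : ℤ × ℤ → ℝ → Ω → ℤ}

theorem null_VV (hW : Work P π Y N) (Λ : Finset (ℤ × ℤ)) (t0 s : ℝ) (x : (Λ → ℤ) × (Λ → ℤ)) :
    NullMeasurableSet ((fun ω (c : ℤ × ℤ) t => N c t ω) ⁻¹' VV Λ t0 s x) P := by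
  have hm : ∀ t, AEMeasurable (fun ω => vec Λ (fun c t => N c t ω) t) P := fun t =>
    aemeasurable_pi_lambda _ fun c => hW.measN c.1 t
  unfold VV
  rw [preimage_inter, preimage_iUnion₂]
  exact ((hm t0).nullMeasurableSet_preimage (measurableSet_singleton _)).inter
    (NullMeasurableSet.biUnion (countable_Ts t0 s) fun t _ =>
      (hm t).nullMeasurableSet_preimage (measurableSet_singleton _))

/-- Decomposition along the pairs of version vectors. -/
theorem sum_bound (hW : Work P π Y N) (Λ : Finset (ℤ × ℤ)) (F : Cfg → ℝ) (ℓ t0 s : ℝ)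
    (hF : ∀ ξ ξ' : Cfg, (∀ c ∈ Λ, ξ c = ξ' c) → F ξ = F ξ') (φ : Finset (ℤ × ℤ) → ℝ≥0∞)
    (hφ : ∀ R ⊆ Λ, ((QQ π).prod (QQ π))
      {q | ℓ < |F q.1 - F fun c => if c ∈ R then q.2 c else q.1 c|} ≤ φ R) :
    P {ω | ∃ t ∈ Icc t0 (t0 + s),
        ℓ < |F (fun c => Y (c, N c t ω) ω) - F fun c => Y (c, N c t0 ω) ω|} ≤
      ∫⁻ ω, ∑' x : (Λ → ℤ) × (Λ → ℤ),
        ((fun ω (c : ℤ × ℤ) t => N c t ω) ⁻¹' VV Λ t0 s x).indicator
          (fun _ => φ (RR Λ x)) ω ∂P := by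
  have := hW.prob
  have := hW.piece.prob
  let G : (Λ → ℤ) × (Λ → ℤ) → ((ℤ × ℤ) × ℤ → CP) → Cfg × Cfg := fun x y =>
    ((fun c => y (c, ext x.1 c) : Cfg),
      (fun c => y (c, if c ∈ RR Λ x then ext x.2 c else ext x.1 c + 1) : Cfg))
  have hG : ∀ x, Measurable (G x) := fun x => by
    unfold G; fun_prop
  let E : (Λ → ℤ) × (Λ → ℤ) → Set (Cfg × Cfg) := fun x =>
    {q | ℓ < |F q.1 - F fun c => if c ∈ RR Λ x then q.2 c else q.1 c|}
  have hY : Measurable fun ω (a : (ℤ × ℤ) × ℤ) => Y a ω := measurable_pi_lambda _ hW.measY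
  have hsub : {ω | ∃ t ∈ Icc t0 (t0 + s),
        ℓ < |F (fun c => Y (c, N c t ω) ω) - F fun c => Y (c, N c t0 ω) ω|} ⊆
      ⋃ x, ((fun ω (a : (ℤ × ℤ) × ℤ) => Y a ω) ⁻¹'
          (G x ⁻¹' toMeasurable ((QQ π).prod (QQ π)) (E x)) ∩
        (fun ω (c : ℤ × ℤ) t => N c t ω) ⁻¹' VV Λ t0 s x) := by
    rintro ω ⟨t, ht, hω⟩
    obtain ⟨t', ht', he⟩ := exists_Ts Λ (fun c t => N c t ω) (fun c t => hW.rightCont c ω t) ht
    refine mem_iUnion.2 ⟨(vec Λ (fun c t => N c t ω) t0, vec Λ (fun c t => N c t ω) t'),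
      subset_toMeasurable _ _ ?_, rfl, mem_iUnion₂.2 ⟨t', ht', rfl⟩⟩
    simp only [E, G, mem_ofPred_eq]
    rw [abs_sub_comm] at hω
    refine lt_of_lt_of_eq hω ?_
    congr 2
    · exact hF _ _ fun c hc => by rw [ext_vec _ _ hc]
    · refine hF _ _ fun c hc => ?_
      split_ifs with hR
      · rw [ext_vec _ _ hc, he c hc]
      · simp only [RR, Finset.mem_filter, hc, true_and, not_not] at hR
        rw [← hR, ext_vec _ _ hc, he c hc]
  refine (measure_mono hsub).trans ((measure_iUnion_le _).trans ?_)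
  rw [lintegral_tsum fun x => aemeasurable_const.indicator₀ (null_VV hW Λ t0 s x)]
  refine ENNReal.tsum_le_tsum fun x => ?_
  rw [lintegral_indicator_const₀ (null_VV hW Λ t0 s x),
    hW.indepYN.measure_inter_preimage_eq_mul _ _ (hG x (measurableSet_toMeasurable _ _))
      (measurableSet_VV Λ t0 s x)]
  refine mul_le_mul_left ?_ _
  rw [← Measure.map_apply hY (hG x (measurableSet_toMeasurable _ _)), hW.lawY,
    ← Measure.map_apply (hG x) (measurableSet_toMeasurable _ _)]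
  have hp := pair_law π (fun c => ext x.1 c)
    (fun c => if c ∈ RR Λ x then ext x.2 c else ext x.1 c + 1) fun c => by
      split_ifs with hR
      · exact (Finset.mem_filter.1 hR).2.symm
      · omega
  rw [show Measure.map (G x) _ = _ from hp, measure_toMeasurable]
  exact hφ _ (Finset.filter_subset _ _)

/-- The moment of the product over the cells. -/
theorem prod_moment (hW : Work P π Y N) (Λ : Finset (ℤ × ℤ)) (w : ℤ × ℤ → ℝ) (hw : ∀ c, 0 ≤ w c)
    (t0 s : ℝ) (hs : 0 ≤ s) :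
    ∫⁻ ω, ∏ c ∈ Λ, ENNReal.ofReal ((1 + w c) ^ (N c (t0 + s) ω - N c t0 ω).toNat) ∂P =
      ENNReal.ofReal (Real.exp (s * ∑ c ∈ Λ, w c)) := by
  let X : ℤ × ℤ → Ω → ℝ≥0∞ := fun c ω =>
    ENNReal.ofReal ((1 + w c) ^ (N c (t0 + s) ω - N c t0 ω).toNat)
  have hlaw := fun c => hW.poisson c t0 (t0 + s) (by linarith)
  have hX : ∀ c, AEMeasurable (X c) P := fun c =>
    (measurable_from_top (f := fun z : ℤ => ENNReal.ofReal ((1 + w c) ^ z.toNat))).comp_aemeasurable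
      (hlaw c).aemeasurable
  have hind : iIndepFun X P :=
    hW.indepN.comp (fun c (n : ℝ → ℤ) => ENNReal.ofReal ((1 + w c) ^ (n (t0 + s) - n t0).toNat))
      fun c => (measurable_from_top
        (f := fun z : ℤ => ENNReal.ofReal ((1 + w c) ^ z.toNat))).comp (by fun_prop)
  have hind' : iIndepFun (fun c => (hX c).mk (X c)) P :=
    (iIndepFun_congr fun c => (hX c).ae_eq_mk).1 hind
  have e1 : ∫⁻ ω, ∏ c ∈ Λ, X c ω ∂P = ∫⁻ ω, ∏ c ∈ Λ, (hX c).mk (X c) ω ∂P := by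
    refine lintegral_congr_ae ?_
    filter_upwards [ae_all_iff.2 fun c => (hX c).ae_eq_mk] with ω hω
    exact Finset.prod_congr rfl fun c _ => hω c
  refine e1.trans ?_
  rw [lintegral_prod_eq_prod_lintegral_of_indepFun Λ _ hind' fun c => (hX c).measurable_mk,
    Finset.mul_sum, Real.exp_sum, ENNReal.ofReal_prod_of_nonneg fun c _ => (Real.exp_pos _).le]
  refine Finset.prod_congr rfl fun c _ => ?_
  rw [← lintegral_congr_ae (hX c).ae_eq_mk]
  have h2 := (hlaw c).lintegral_comp (f := fun z : ℤ => ENNReal.ofReal ((1 + w c) ^ z.toNat))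
    measurable_from_top.aemeasurable
  refine h2.trans ?_
  rw [lintegral_map measurable_from_top measurable_from_top]
  simp only [Int.toNat_natCast]
  rw [poisson_pow _ _ (hw c), add_sub_cancel_left, Real.coe_toNNReal _ hs]

/-- The bound for a local functional with a Gaussian rotation estimate. -/
theorem fixed (hW : Work P π Y N) (Λ : Finset (ℤ × ℤ)) (F : Cfg → ℝ) (ℓ t0 s θ D : ℝ)
    (hs : 0 ≤ s) (hs1 : s ≤ 1) (h0 : 0 ≤ θ) (h1 : θ ≤ 5 / 4) (hD : θ * (s * D) ≤ 5 / 4)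
    (hF : ∀ ξ ξ' : Cfg, (∀ c ∈ Λ, ξ c = ξ' c) → F ξ = F ξ') {ι : Type} (S : Finset ι)
    (p : ι → ℝ≥0∞) (len : ι → ℤ × ℤ → ℝ) (hp : ∑ γ ∈ S, p γ = 1)
    (hl : ∀ γ ∈ S, ∀ c, 0 ≤ len γ c ∧ len γ c ≤ 1) (hlD : ∀ γ ∈ S, ∑ c ∈ Λ, len γ c ≤ D)
    (A : ℝ≥0∞) (hA : A ≠ ∞)
    (hφ : ∀ R ⊆ Λ, ((QQ π).prod (QQ π))
      {q | ℓ < |F q.1 - F fun c => if c ∈ R then q.2 c else q.1 c|} ≤
        A * ∑ γ ∈ S, p γ * ENNReal.ofReal (Real.exp (θ * ∑ c ∈ R, len γ c))) :
    P {ω | ∃ t ∈ Icc t0 (t0 + s),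
        ℓ < |F (fun c => Y (c, N c t ω) ω) - F fun c => Y (c, N c t0 ω) ω|} ≤
      A * ENNReal.ofReal ((1 + Λ.card) * Real.exp 9) := by
  set M : ℝ := 1 + Λ.card with hMdef
  have hM : 1 ≤ M := by rw [hMdef]; have : (0 : ℝ) ≤ Λ.card := by positivity
                        linarith
  have hM0 : 0 < M := by linarith
  let w : ι → ℤ × ℤ → ℝ := fun γ c => 4 * (θ * len γ c) + 4 / M
  have hw : ∀ γ ∈ S, ∀ c, 0 ≤ w γ c := fun γ hγ c => by
    have := mul_nonneg h0 (hl γ hγ c).1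
    unfold w; positivity
  let H : ι → Ω → ℝ≥0∞ := fun γ ω =>
    ∏ c ∈ Λ, ENNReal.ofReal ((1 + w γ c) ^ (N c (t0 + s) ω - N c t0 ω).toNat)
  have hH : ∀ γ, AEMeasurable (H γ) P := fun γ =>
    Finset.aemeasurable_fun_prod Λ fun c _ => (measurable_from_top
      (f := fun z : ℤ => ENNReal.ofReal ((1 + w γ c) ^ z.toNat))).comp_aemeasurable
        (hW.poisson c t0 (t0 + s) (by linarith)).aemeasurable
  have hpt : ∀ γ ∈ S, p γ ≠ ∞ := fun γ hγ =>
    ne_top_of_le_ne_top ENNReal.one_ne_top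
      (hp ▸ Finset.single_le_sum (f := p) (fun _ _ => zero_le) hγ)
  refine (sum_bound hW Λ F ℓ t0 s hF _ hφ).trans ?_
  calc _ ≤ ∫⁻ ω, A * ∑ γ ∈ S, p γ * (ENNReal.ofReal M * H γ ω) ∂P := by
        refine lintegral_mono fun ω => ?_
        let Rs : Finset (ℤ × ℤ) := Λ.filter fun c => 1 ≤ (N c (t0 + s) ω - N c t0 ω).toNat
        let B : ℝ≥0∞ := A * ∑ γ ∈ S, p γ * ENNReal.ofReal (Real.exp (θ * ∑ c ∈ Rs, len γ c))
        have hc := count_le Λ (fun c t => N c t ω) (fun c => hW.mono c ω) (t0 := t0) hs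
        calc _ ≤ ∑' x : (Λ → ℤ) × (Λ → ℤ),
              {x | (fun c t => N c t ω) ∈ VV Λ t0 s x}.indicator (fun _ => B) x := by
              refine ENNReal.tsum_le_tsum fun x => ?_
              by_cases hx : (fun c t => N c t ω) ∈ VV Λ t0 s x
              · rw [indicator_of_mem (by exact hx), indicator_of_mem (by exact hx)]
                have hsub : RR Λ x ⊆ Rs := by
                  obtain ⟨hx0, hx1⟩ := hx
                  simp only [mem_iUnion, mem_ofPred_eq] at hx0 hx1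
                  obtain ⟨t, ht, hx1⟩ := hx1
                  intro c hc
                  obtain ⟨hcΛ, hne⟩ := Finset.mem_filter.1 hc
                  rw [← hx0, ← hx1, ext_vec _ _ hcΛ, ext_vec _ _ hcΛ] at hne
                  have a1 := hW.mono c ω ht.1.1
                  have a2 := hW.mono c ω ht.1.2
                  refine Finset.mem_filter.2 ⟨hcΛ, ?_⟩
                  simp only at a1 a2 hne
                  omega
                refine mul_le_mul_right (Finset.sum_le_sum fun γ hγ => mul_le_mul_right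
                  (ENNReal.ofReal_le_ofReal (Real.exp_le_exp.2 (mul_le_mul_of_nonneg_left
                    (Finset.sum_le_sum_of_subset_of_nonneg hsub fun c _ _ => (hl γ hγ c).1)
                      h0))) _) _
              · rw [indicator_of_notMem (by exact hx), indicator_of_notMem (by exact hx)]
          _ = _ * B := by rw [← tsum_subtype, ENNReal.tsum_set_const]
          _ ≤ ENNReal.ofReal (1 + ∑ c ∈ Λ, ((N c (t0 + s) ω - N c t0 ω).toNat : ℝ)) * B :=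
              mul_le_mul_left hc _
          _ ≤ _ := by
              rw [mul_left_comm, Finset.mul_sum]
              refine mul_le_mul_right (Finset.sum_le_sum fun γ hγ => ?_) _
              rw [mul_left_comm]
              refine mul_le_mul_right ?_ _
              rw [← ENNReal.ofReal_mul (by positivity)]
              unfold H
              rw [← ENNReal.ofReal_prod_of_nonneg fun c _ => by
                have := hw γ hγ c
                positivity, ← ENNReal.ofReal_mul hM0.le]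
              exact ENNReal.ofReal_le_ofReal (point_le Λ Rs _ (len γ) θ M
                (Finset.filter_subset _ _) (fun c hc => (Finset.mem_filter.1 hc).2) (hl γ hγ)
                h0 h1 hM)
    _ = A * ∑ γ ∈ S, p γ * (ENNReal.ofReal M * ∫⁻ ω, H γ ω ∂P) := by
        rw [lintegral_const_mul' _ _ hA, lintegral_finsetSum' _ fun γ _ =>
          ((hH γ).const_mul _).const_mul _]
        congr 1
        refine Finset.sum_congr rfl fun γ hγ => ?_
        rw [lintegral_const_mul' _ _ (hpt γ hγ), lintegral_const_mul' _ _ ENNReal.ofReal_ne_top]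
    _ ≤ A * ∑ γ ∈ S, p γ * ENNReal.ofReal (M * Real.exp 9) := by
        refine mul_le_mul_right (Finset.sum_le_sum fun γ hγ => mul_le_mul_right ?_ _) _
        rw [ENNReal.ofReal_mul hM0.le]
        refine mul_le_mul_right ?_ _
        rw [show ∫⁻ ω, H γ ω ∂P = _ from prod_moment hW Λ (w γ) (hw γ hγ) t0 s hs]
        refine ENNReal.ofReal_le_ofReal (Real.exp_le_exp.2 ?_)
        have e : ∑ c ∈ Λ, w γ c = 4 * (θ * ∑ c ∈ Λ, len γ c) + 4 * (Λ.card / M) := by
          unfold w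
          rw [Finset.sum_add_distrib, ← Finset.mul_sum, ← Finset.mul_sum, Finset.sum_const,
            nsmul_eq_mul]
          ring
        have b1 : (Λ.card : ℝ) / M ≤ 1 := (div_le_one hM0).2 (by rw [hMdef]; linarith)
        have b0 : 0 ≤ (Λ.card : ℝ) / M := by positivity
        have b2 : s * (θ * ∑ c ∈ Λ, len γ c) ≤ s * (θ * D) := by
          have := hlD γ hγ
          gcongr
        rw [e]
        nlinarith
    _ = _ := by rw [← Finset.sum_mul, hp, one_mul]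

end

theorem card_box {m k i0 i1 : ℤ} (hmk : m ≤ k) (hi : i0 ≤ i1) :
    ((box m k i0 i1).card : ℝ) = ((k : ℝ) - m) * ((i1 : ℝ) - i0) := by
  rw [box, Finset.card_product, Int.card_Ico, Int.card_Ioc, Nat.cast_mul, ← Int.cast_natCast,
    ← Int.cast_natCast (k - m).toNat, Int.toNat_of_nonneg (by omega),
    Int.toNat_of_nonneg (by omega)]
  push_cast; ring

end MoveA

open MoveA in
theorem moveS (_d1 : Det1) (ct : Cat) (dc : Disc) : MoveStmt.{u} := by
  intro Ω _ P π Y N hW m k i0 i1 t0 s r hmk hi hs hs1 hr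
  set v : ℝ := √(s * (i1 - i0)) with hv
  have hD : (0 : ℝ) ≤ (i1 : ℝ) - i0 := sub_nonneg.2 (by exact_mod_cast hi)
  have hv0 : 0 ≤ v := Real.sqrt_nonneg _
  have hv2 : v ^ 2 = s * (i1 - i0) := Real.sq_sqrt (mul_nonneg hs hD)
  let A : ℕ → Set Ω := fun n => {ω | ∃ t ∈ Icc t0 (t0 + s), r * (1 + v) <
    |Tn (envOf fun c => Y (c, N c t ω) ω) m k i0 i1 n -
      Tn (envOf fun c => Y (c, N c t0 ω) ω) m k i0 i1 n|}
  have hA : ∀ n, P (A n) ≤
      ENNReal.ofReal (10 ^ 6 * (1 + (k - m) * (i1 - i0)) ^ 2 * Real.exp (-r)) := by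
    intro n
    obtain ⟨ι, S, p, len, hp, hl, hlD, hb⟩ := dc.bound π m k i0 i1 n hW.piece hmk hi
    have hβ0 : 0 ≤ (1 + v)⁻¹ := by positivity
    have hβ1 : (1 + v)⁻¹ ≤ 1 := inv_le_one_of_one_le₀ (by linarith)
    have hβv : (1 + v)⁻¹ * v ≤ 1 := by
      rw [inv_mul_le_iff₀ (by linarith)]; linarith
    have h := fixed hW (box m k i0 i1) (fun ξ => Tn (envOf ξ) m k i0 i1 n) (r * (1 + v)) t0 s
      (5 / 4 * (1 + v)⁻¹ ^ 2) (i1 - i0) hs hs1 (by positivity) (by nlinarith)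
      (by
        rw [← hv2, mul_assoc, ← mul_pow]
        have := mul_nonneg hβ0 hv0
        nlinarith)
      (fun ξ ξ' h => dc.agree _ _ m k i0 i1 n (ct.agree ξ ξ' m k i0 i1 h)) S p len hp hl hlD
      (2 * ENNReal.ofReal (Real.exp (-((1 + v)⁻¹ * (r * (1 + v))))))
      (ENNReal.mul_ne_top ENNReal.ofNat_ne_top ENNReal.ofReal_ne_top)
      (fun R hR => hb R _ _ hR hβ0)
    refine h.trans ?_
    have e : (1 + v)⁻¹ * (r * (1 + v)) = r := by field_simp
    rw [e, card_box hmk.le hi, ← ENNReal.ofReal_ofNat 2, ← ENNReal.ofReal_mul (by norm_num),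
      ← ENNReal.ofReal_mul (by positivity)]
    refine ENNReal.ofReal_le_ofReal ?_
    have hL : (0 : ℝ) ≤ (k : ℝ) - m := sub_nonneg.2 (by exact_mod_cast hmk.le)
    have hM : (1 : ℝ) ≤ 1 + ((k : ℝ) - m) * ((i1 : ℝ) - i0) := by
      have := mul_nonneg hL hD
      linarith
    have h9 : Real.exp 9 ≤ 3 ^ 9 := by
      rw [show (9 : ℝ) = (9 : ℕ) * 1 by norm_num, Real.exp_nat_mul]
      have := Real.exp_one_lt_d9
      gcongr
      linarith
    have hr0 := Real.exp_pos (-r)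
    generalize 1 + ((k : ℝ) - m) * ((i1 : ℝ) - i0) = M at hM
    calc 2 * Real.exp (-r) * (M * Real.exp 9) ≤ 2 * Real.exp (-r) * (M ^ 2 * 3 ^ 9) := by
          gcongr
          nlinarith
      _ ≤ _ := by nlinarith [mul_pos hr0 (show 0 < M ^ 2 by positivity)]
  have hsub : {ω | ∃ t ∈ Icc t0 (t0 + s), r * (1 + v) <
      |T (envOf fun c => Y (c, N c t ω) ω) m k i0 i1 -
        T (envOf fun c => Y (c, N c t0 ω) ω) m k i0 i1|} ⊆ ⋃ n0 : ℕ, ⋂ n ≥ n0, A n := by
    rintro ω ⟨t, ht, hω⟩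
    have h := (((dc.tends (envOf fun c => Y (c, N c t ω) ω) m k i0 i1 hmk hi).sub
      (dc.tends (envOf fun c => Y (c, N c t0 ω) ω) m k i0 i1 hmk hi)).abs).eventually
        (lt_mem_nhds hω)
    obtain ⟨n0, hn0⟩ := eventually_atTop.1 h
    exact mem_iUnion.2 ⟨n0, mem_iInter₂.2 fun n hn => ⟨t, ht, hn0 n hn⟩⟩
  refine (measure_mono hsub).trans ?_
  have hmono : Monotone fun n0 : ℕ => ⋂ n ≥ n0, A n := fun a b hab =>
    biInter_subset_biInter_left fun n hn => hab.trans hn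
  rw [hmono.measure_iUnion]
  exact iSup_le fun n0 => (measure_mono (biInter_subset_of_mem (le_refl n0))).trans (hA n0)

end Pool.Agent.MP_3d8edd_pr.H69
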