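import Pool.Agent.MP_3d8edd_pr.H69.Basic

/-!
Row MP: the Gaussian rotation bound for a maximum of sums.
-/

open MeasureTheory ProbabilityTheory Set Filter
open scoped NNReal ENNReal Topology

namespace Pool.Agent.MP_3d8edd_pr.H69

namespace MpA

variable {I : Type} [Fintype I] [DecidableEq I]

/-- The law of one sample. -/
noncomputable abbrev gp (I : Type) [Fintype I] (h : ℝ≥0) : Measure (I → ℝ) :=
  Measure.pi fun _ : I => gaussianReal 0 h

/-- Rotation of the coordinates by the angles `w i`. -/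
noncomputable def rt (w : I → ℝ) (q : (I → ℝ) × (I → ℝ)) : (I → ℝ) × (I → ℝ) :=
  (fun i => Real.cos (w i) * q.1 i + Real.sin (w i) * q.2 i,
    fun i => -Real.sin (w i) * q.1 i + Real.cos (w i) * q.2 i)

omit [DecidableEq I] in
theorem rt_mp (h : ℝ≥0) (w : I → ℝ) :
    MeasurePreserving (rt w) ((gp I h).prod (gp I h)) ((gp I h).prod (gp I h)) := by
  have h1 := measurePreserving_arrowProdEquivProdArrow ℝ ℝ I (fun _ => gaussianReal 0 h)
    (fun _ => gaussianReal 0 h)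
  have h2 : ∀ i, MeasurePreserving (ContinuousLinearMap.rotation (E := ℝ) (w i))
      ((gaussianReal 0 h).prod (gaussianReal 0 h)) ((gaussianReal 0 h).prod (gaussianReal 0 h)) :=
    fun i => ⟨(ContinuousLinearMap.rotation (E := ℝ) (w i)).continuous.measurable,
      IsGaussian.map_rotation_eq_self (by simp) _⟩
  exact (h1.comp (measurePreserving_pi _ _ h2)).comp (h1.symm _)

/-- A measurable choice of a maximiser. -/
theorem exists_arg (Fam : Finset (Finset I)) (hne : Fam.Nonempty) :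
    ∃ G : (I → ℝ) → Finset I, (∀ x, G x ∈ Fam) ∧
      (∀ x, Fam.sup' hne (fun γ => ∑ i ∈ γ, x i) = ∑ i ∈ G x, x i) ∧
      ∀ s : Set (Finset I), MeasurableSet (G ⁻¹' s) := by
  classical
  have : Nonempty Fam := hne.to_subtype
  obtain ⟨e, he⟩ := exists_surjective_nat Fam
  have hp : ∀ x : I → ℝ, ∃ n, ∀ γ ∈ Fam, ∑ i ∈ γ, x i ≤ ∑ i ∈ (e n).1, x i := fun x => by
    obtain ⟨γ, hγ, hm⟩ := Fam.exists_max_image (fun γ => ∑ i ∈ γ, x i) hne
    obtain ⟨n, hn⟩ := he ⟨γ, hγ⟩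
    exact ⟨n, by rw [hn]; exact hm⟩
  have hm : Measurable fun x => Nat.find (hp x) := by
    refine measurable_find hp fun k => ?_
    have e1 : {x : I → ℝ | ∀ γ ∈ Fam, ∑ i ∈ γ, x i ≤ ∑ i ∈ (e k).1, x i} =
        ⋂ γ : Fam, {x : I → ℝ | ∑ i ∈ γ.1, x i ≤ ∑ i ∈ (e k).1, x i} := by
      ext x; simp
    rw [e1]
    exact MeasurableSet.iInter fun γ => measurableSet_le (by fun_prop) (by fun_prop)
  refine ⟨fun x => (e (Nat.find (hp x))).1, fun x => (e _).2, fun x => le_antisymm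
    (Finset.sup'_le _ _ (Nat.find_spec (hp x))) (Finset.le_sup' (fun γ => ∑ i ∈ γ, x i) (e _).2),
    fun s => ?_⟩
  exact hm (t := {n | (e n).1 ∈ s}) trivial

theorem mgf_sum (h : ℝ≥0) (S : Finset I) (t : ℝ) :
    ∫⁻ y, ENNReal.ofReal (Real.exp (t * ∑ i ∈ S, y i)) ∂gp I h =
      ENNReal.ofReal (Real.exp (t ^ 2 / 2 * (h * S.card))) := by
  have e1 : ∀ y : I → ℝ, Real.exp (t * ∑ i ∈ S, y i) =
      ∏ i, Real.exp ((if i ∈ S then t else 0) * y i) := fun y => by
    rw [← Real.exp_sum, Finset.mul_sum]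
    simp [ite_mul]
  simp_rw [e1]
  rw [← ofReal_integral_eq_lintegral_ofReal
    (Integrable.fintype_prod (f := fun i (y : ℝ) => Real.exp ((if i ∈ S then t else 0) * y))
      fun i => integrable_exp_mul_gaussianReal _)
    (Eventually.of_forall fun y => Finset.prod_nonneg fun i _ => (Real.exp_pos _).le),
    integral_fintype_prod_eq_prod (fun i (y : ℝ) => Real.exp ((if i ∈ S then t else 0) * y))]
  have e2 : ∀ s : ℝ, ∫ y, Real.exp (s * y) ∂gaussianReal 0 h = Real.exp (h * s ^ 2 / 2) :=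
    fun s => by
    have := congrFun (mgf_fun_id_gaussianReal (μ := 0) (v := h)) s
    rw [zero_mul, zero_add] at this
    exact this
  simp_rw [e2]
  rw [← Real.exp_sum]
  congr 2
  have e3 : ∀ i, (h : ℝ) * (if i ∈ S then t else 0) ^ 2 / 2 =
      if i ∈ S then h * t ^ 2 / 2 else 0 := fun i => by split_ifs <;> simp
  simp_rw [e3]
  rw [Finset.sum_ite_mem, Finset.univ_inter, Finset.sum_const, nsmul_eq_mul]
  ring

section
variable {G : (I → ℝ) → Finset I} (hG : ∀ s : Set (Finset I), MeasurableSet (G ⁻¹' s))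
include hG

theorem meas_U (R : Finset I) :
    Measurable fun q : (I → ℝ) × (I → ℝ) => ∑ i ∈ G q.1 ∩ R, q.2 i := by
  have e1 : ∀ q : (I → ℝ) × (I → ℝ), ∑ i ∈ G q.1 ∩ R, q.2 i =
      ∑ i, if i ∈ G q.1 ∩ R then q.2 i else 0 := fun q => by
    rw [Finset.sum_ite_mem, Finset.univ_inter]
  simp_rw [e1]
  refine Finset.measurable_sum _ fun i _ => Measurable.ite ?_ (by fun_prop) measurable_const
  exact measurable_fst (hG {γ | i ∈ γ ∩ R})

theorem mgf_U (h : ℝ≥0) {Fam : Finset (Finset I)} (hF : ∀ x, G x ∈ Fam) (R : Finset I) (t : ℝ) :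
    ∫⁻ q, ENNReal.ofReal (Real.exp (t * ∑ i ∈ G q.1 ∩ R, q.2 i)) ∂(gp I h).prod (gp I h) =
      ∑ γ ∈ Fam, gp I h (G ⁻¹' {γ}) *
        ENNReal.ofReal (Real.exp (t ^ 2 / 2 * (h * (γ ∩ R).card))) := by
  rw [lintegral_prod _ (((meas_U hG R).const_mul t).exp.ennreal_ofReal).aemeasurable]
  simp_rw [mgf_sum]
  have e1 : ∀ x, ENNReal.ofReal (Real.exp (t ^ 2 / 2 * (h * (G x ∩ R).card))) =
      ∑ γ ∈ Fam, (G ⁻¹' {γ}).indicator
        (fun _ => ENNReal.ofReal (Real.exp (t ^ 2 / 2 * (h * (γ ∩ R).card)))) x := fun x => by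
    rw [Finset.sum_eq_single_of_mem (G x) (hF x) fun γ _ hγ =>
      indicator_of_notMem (s := G ⁻¹' {γ}) (fun e => hγ (Eq.symm e)) _,
      indicator_of_mem (s := G ⁻¹' {G x}) rfl]
  simp_rw [e1]
  rw [lintegral_finsetSum _ fun γ _ => measurable_const.indicator (hG _)]
  refine Finset.sum_congr rfl fun γ _ => ?_
  rw [lintegral_indicator_const (hG _), mul_comm]

end

/-- The angle on `R`, zero elsewhere. -/
def ang (R : Finset I) (a : ℝ) (i : I) : ℝ := if i ∈ R then a else 0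

theorem step {Fam : Finset (Finset I)} {hne : Fam.Nonempty} {G : (I → ℝ) → Finset I}
    (hF : ∀ x, G x ∈ Fam) (hM : ∀ x, Fam.sup' hne (fun γ => ∑ i ∈ γ, x i) = ∑ i ∈ G x, x i)
    (R : Finset I) (b e : ℝ) (q : (I → ℝ) × (I → ℝ)) :
    Fam.sup' hne (fun γ => ∑ i ∈ γ, (rt (ang R (b + e)) q).1 i) -
      Fam.sup' hne (fun γ => ∑ i ∈ γ, (rt (ang R b) q).1 i) ≤
      e ^ 2 / 2 * ∑ i, (|q.1 i| + |q.2 i|) + Real.sin e *
        ∑ i ∈ G (rt (ang R (b + e)) q).1 ∩ R, (rt (ang R (b + e)) q).2 i := by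
  rw [hM]
  generalize hγ : G (rt (ang R (b + e)) q).1 = γ
  have h1 := Finset.le_sup' (fun γ => ∑ i ∈ γ, (rt (ang R b) q).1 i) (hγ ▸ hF _ : γ ∈ Fam)
  refine (sub_le_sub_left h1 _).trans ?_
  have h2 : ∑ i ∈ γ, (|q.1 i| + |q.2 i|) ≤ ∑ i, (|q.1 i| + |q.2 i|) :=
    Finset.sum_le_sum_of_subset_of_nonneg (Finset.subset_univ _) fun i _ _ => by positivity
  refine le_trans ?_ (add_le_add_left (mul_le_mul_of_nonneg_left h2 (by positivity)) _)
  rw [← Finset.sum_sub_distrib, ← Finset.sum_ite_mem, Finset.mul_sum, Finset.mul_sum,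
    ← Finset.sum_add_distrib]
  refine Finset.sum_le_sum fun i _ => ?_
  by_cases hi : i ∈ R
  · simp only [rt, ang, if_pos hi]
    have c1 : Real.cos b = Real.cos (b + e) * Real.cos e + Real.sin (b + e) * Real.sin e := by
      rw [← Real.cos_sub, add_sub_cancel_right]
    have c2 : Real.sin b = Real.sin (b + e) * Real.cos e - Real.cos (b + e) * Real.sin e := by
      rw [← Real.sin_sub, add_sub_cancel_right]
    have c3 : Real.cos (b + e) * q.1 i + Real.sin (b + e) * q.2 i ≤ |q.1 i| + |q.2 i| :=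
      add_le_add ((le_abs_self _).trans (by
          rw [abs_mul]; exact mul_le_of_le_one_left (abs_nonneg _) (Real.abs_cos_le_one _)))
        ((le_abs_self _).trans (by
          rw [abs_mul]; exact mul_le_of_le_one_left (abs_nonneg _) (Real.abs_sin_le_one _)))
    have c4 : 1 - Real.cos e ≤ e ^ 2 / 2 := by linarith [Real.one_sub_sq_div_two_le_cos (x := e)]
    have c5 := mul_le_mul_of_nonneg_left c3 (sub_nonneg.2 (Real.cos_le_one e))
    have c6 := mul_le_mul_of_nonneg_right c4 (by positivity : 0 ≤ |q.1 i| + |q.2 i|)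
    rw [c1, c2]
    linarith
  · simp only [rt, ang, if_neg hi, sub_self, mul_zero, add_zero]
    positivity

theorem one_side (h : ℝ≥0) {Fam : Finset (Finset I)} {hne : Fam.Nonempty}
    {G : (I → ℝ) → Finset I} (hG : ∀ s : Set (Finset I), MeasurableSet (G ⁻¹' s))
    (hF : ∀ x, G x ∈ Fam) (hM : ∀ x, Fam.sup' hne (fun γ => ∑ i ∈ γ, x i) = ∑ i ∈ G x, x i)
    (R : Finset I) {β : ℝ} (ℓ : ℝ) (hβ : 0 ≤ β) (a θ : ℝ) (hθ : θ ^ 2 ≤ 5 / 2) :
    (gp I h).prod (gp I h) {q | ℓ < Fam.sup' hne (fun γ => ∑ i ∈ γ, (rt (ang R (a + θ)) q).1 i) -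
      Fam.sup' hne (fun γ => ∑ i ∈ γ, (rt (ang R a) q).1 i)} ≤
      ENNReal.ofReal (Real.exp (-(β * ℓ))) * ∑ γ ∈ Fam, gp I h (G ⁻¹' {γ}) *
        ENNReal.ofReal (Real.exp (5 / 4 * β ^ 2 * (h * (γ ∩ R).card))) := by
  obtain ⟨F, hFd⟩ : ∃ F : ℝ → (I → ℝ) × (I → ℝ) → ℝ,
      ∀ b q, F b q = Fam.sup' hne (fun γ => ∑ i ∈ γ, (rt (ang R b) q).1 i) := ⟨_, fun _ _ => rfl⟩
  obtain ⟨M, hMd⟩ : ∃ M : (I → ℝ) × (I → ℝ) → ℝ, ∀ q, M q = ∑ i, (|q.1 i| + |q.2 i|) :=
    ⟨_, fun _ => rfl⟩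
  obtain ⟨U, hU⟩ : ∃ U : (I → ℝ) × (I → ℝ) → ℝ, U = fun q => ∑ i ∈ G q.1 ∩ R, q.2 i := ⟨_, rfl⟩
  have hM0 : ∀ q, 0 ≤ M q := fun q => by rw [hMd]; positivity
  have hst : ∀ b e q, F (b + e) q - F b q ≤
      e ^ 2 / 2 * M q + Real.sin e * U (rt (ang R (b + e)) q) := fun b e q => by
    rw [hFd, hFd, hMd, hU]
    exact step hF hM R b e q
  have hUm : Measurable U := hU ▸ meas_U hG R
  simp_rw [← hFd]
  have e1 : {q | ℓ < F (a + θ) q - F a q} =
      ⋃ K : ℕ, {q | ℓ + θ ^ 2 / 2 * M q * (1 / ((K : ℝ) + 1)) < F (a + θ) q - F a q} := by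
    ext q
    simp only [mem_ofPred_eq, mem_iUnion]
    constructor
    · intro hq
      have := ((tendsto_one_div_add_atTop_nhds_zero_nat (𝕜 := ℝ)).const_mul
        (θ ^ 2 / 2 * M q)).const_add ℓ
      rw [mul_zero, add_zero] at this
      exact (this.eventually (gt_mem_nhds hq)).exists
    · rintro ⟨K, hK⟩
      have := hM0 q
      exact lt_of_le_of_lt (le_add_of_nonneg_right (by positivity)) hK
  rw [e1, Monotone.measure_iUnion]
  swap
  · intro K L hKL q hq
    have := hM0 q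
    simp only [mem_ofPred_eq] at hq ⊢
    refine lt_of_le_of_lt ?_ hq
    gcongr
  refine iSup_le fun K => ?_
  obtain ⟨n, hn⟩ : ∃ n : ℝ, n = (K : ℝ) + 1 := ⟨_, rfl⟩
  have hn0 : 0 < n := by rw [hn]; positivity
  rw [← hn]
  obtain ⟨e, he⟩ : ∃ e : ℝ, e = θ / n := ⟨_, rfl⟩
  have he' : θ = n * e := by rw [he]; field_simp
  obtain ⟨t, ht⟩ : ∃ t : ℝ, t = β * n * Real.sin e := ⟨_, rfl⟩
  have hm : ∀ j : ℕ, Measurable fun q =>
      ENNReal.ofReal (Real.exp (t * U (rt (ang R (a + j * e + e)) q))) := fun j =>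
    ((hUm.comp (rt_mp h _).measurable).const_mul t).exp.ennreal_ofReal
  refine (meas_le_lintegral₀ (f := fun q => ENNReal.ofReal (Real.exp (-(β * ℓ))) *
    (ENNReal.ofReal n⁻¹ * ∑ j ∈ Finset.range (K + 1),
      ENNReal.ofReal (Real.exp (t * U (rt (ang R (a + j * e + e)) q)))))
    (((Finset.measurable_sum _ fun j _ => hm j).const_mul _).const_mul _).aemeasurable
    fun q hq => ?_).trans ?_
  · rw [← ENNReal.ofReal_sum_of_nonneg fun j _ => (Real.exp_pos _).le,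
      ← ENNReal.ofReal_mul (by positivity), ← ENNReal.ofReal_mul (by positivity),
      ENNReal.one_le_ofReal]
    have h1 := Finset.sum_range_sub (fun j : ℕ => F (a + j * e) q) (K + 1)
    have h2 := Finset.sum_le_sum fun j (_ : j ∈ Finset.range (K + 1)) => hst (a + j * e) e q
    have h3 : ∀ j : ℕ, a + ((j + 1 : ℕ) : ℝ) * e = a + j * e + e := fun j => by push_cast; ring
    have h4 : a + K * e + e = a + θ := by rw [he', hn]; ring
    simp only [h3, h4, Nat.cast_zero, zero_mul, add_zero] at h1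
    rw [h1, Finset.sum_add_distrib, Finset.sum_const, Finset.card_range, nsmul_eq_mul,
      Nat.cast_succ, ← hn, ← Finset.mul_sum] at h2
    have h5 : θ ^ 2 / 2 * M q * (1 / n) = n * (e ^ 2 / 2 * M q) := by rw [he']; field_simp
    have h6 : ℓ ≤ Real.sin e * ∑ j ∈ Finset.range (K + 1), U (rt (ang R (a + j * e + e)) q) := by
      have : ℓ + θ ^ 2 / 2 * M q * (1 / n) < F (a + θ) q - F a q := hq
      linarith
    have h7 := convexOn_exp.map_sum_le (t := Finset.range (K + 1)) (w := fun _ => n⁻¹)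
      (p := fun j : ℕ => t * U (rt (ang R (a + j * e + e)) q)) (fun _ _ => by positivity)
      (by
        rw [Finset.sum_const, Finset.card_range, nsmul_eq_mul, Nat.cast_succ, ← hn]
        exact mul_inv_cancel₀ hn0.ne')
      fun _ _ => mem_univ _
    simp only [smul_eq_mul, ← Finset.mul_sum] at h7
    refine le_trans ?_ (mul_le_mul_of_nonneg_left h7 (Real.exp_pos _).le)
    rw [← Real.exp_add]
    refine Real.one_le_exp ?_
    have h8 := mul_le_mul_of_nonneg_left h6 hβ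
    have h9 : ∀ s : ℝ, n⁻¹ * (t * s) = β * (Real.sin e * s) := fun s => by rw [ht]; field_simp
    rw [h9]
    linarith
  · rw [lintegral_const_mul _ ((Finset.measurable_sum _ fun j _ => hm j).const_mul _),
      lintegral_const_mul _ (Finset.measurable_sum _ fun j _ => hm j),
      lintegral_finsetSum _ fun j _ => hm j]
    have h1 : ∀ j : ℕ, ∫⁻ q, ENNReal.ofReal (Real.exp (t * U (rt (ang R (a + j * e + e)) q)))
        ∂(gp I h).prod (gp I h) = ∑ γ ∈ Fam, gp I h (G ⁻¹' {γ}) *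
        ENNReal.ofReal (Real.exp (t ^ 2 / 2 * (h * (γ ∩ R).card))) := fun j => by
      rw [← mgf_U hG h hF R t]
      exact ((rt_mp h _).lintegral_comp (f := fun q => ENNReal.ofReal (Real.exp (t * U q)))
        (hUm.const_mul t).exp.ennreal_ofReal).trans (by rw [hU])
    simp_rw [h1]
    rw [Finset.sum_const, Finset.card_range, nsmul_eq_mul, ← mul_assoc (ENNReal.ofReal n⁻¹),
      ← ENNReal.ofReal_natCast, Nat.cast_succ, ← hn, ← ENNReal.ofReal_mul (by positivity),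
      inv_mul_cancel₀ hn0.ne', ENNReal.ofReal_one, one_mul]
    have h2 : t ^ 2 / 2 ≤ 5 / 4 * β ^ 2 := by
      have h3 := mul_le_mul_of_nonneg_left (Real.sin_sq_le_sq (x := e)) (sq_nonneg (β * n))
      have h4 := mul_le_mul_of_nonneg_left hθ (sq_nonneg β)
      rw [he'] at h4
      rw [ht]
      nlinarith
    refine mul_le_mul_right (Finset.sum_le_sum fun γ _ => mul_le_mul_right
      (ENNReal.ofReal_le_ofReal (Real.exp_le_exp.2
        (mul_le_mul_of_nonneg_right h2 (mul_nonneg h.2 (Nat.cast_nonneg _))))) _) _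

end MpA

open MpA in
theorem mp : MpStmt := by
  intro I _ _ h Fam hne
  obtain ⟨G, hF, hM, hG⟩ := exists_arg Fam hne
  refine ⟨fun γ => gp I h (G ⁻¹' {γ}), ?_, fun R β ℓ hβ => ?_⟩
  · rw [sum_measure_preimage_singleton _ fun γ _ => hG _,
      eq_univ_of_forall (s := G ⁻¹' (Fam : Set (Finset I))) fun x => Finset.mem_coe.2 (hF x),
      measure_univ]
  have hπ : (Real.pi / 2) ^ 2 ≤ 5 / 2 := by nlinarith [Real.pi_lt_d2, Real.pi_pos]
  have h1 := one_side h hG hF hM R ℓ hβ 0 (Real.pi / 2) hπ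
  have h2 := one_side h hG hF hM R ℓ hβ (Real.pi / 2) (-(Real.pi / 2)) (by rwa [neg_sq])
  have e0 : ∀ q : (I → ℝ) × (I → ℝ), (rt (ang R 0) q).1 = q.1 := fun q => by
    ext i; simp [rt, ang]
  have e1 : ∀ (q : (I → ℝ) × (I → ℝ)) i, (rt (ang R (Real.pi / 2)) q).1 i =
      if i ∈ R then q.2 i else q.1 i := fun q i => by
    by_cases hi : i ∈ R <;> simp [rt, ang, hi]
  simp only [zero_add, add_neg_cancel, e0, e1] at h1 h2
  rw [mul_assoc, two_mul]
  refine le_trans (measure_mono fun q hq => ?_) ((measure_union_le _ _).trans (add_le_add h2 h1))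
  simp only [mem_ofPred_eq] at hq
  rcases lt_abs.1 hq with h3 | h3
  · exact Or.inl h3
  · exact Or.inr (by rwa [neg_sub] at h3)

end Pool.Agent.MP_3d8edd_pr.H69
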