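import Pool.Agent.MP_3d8edd_pr.H69.Basic

/-!
The multi-scale product bound.
-/

open MeasureTheory ProbabilityTheory Set Filter
open scoped NNReal ENNReal Topology

namespace Pool.Agent.MP_3d8edd_pr.H69

universe u

namespace MultiA

/-- The numerical setting of one step; `a` is the inverse of `κ`. -/
structure Num (a c1 c2 θ r p ν s : ℝ) (N M : ℕ) : Prop where
  a1 : 1 ≤ a
  θa : θ ≤ a
  aθ : 1 ≤ a * θ
  c1_ : 1 ≤ c1
  c2_ : 1 ≤ c2
  r2 : 2 ≤ r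
  ar : a ≤ r
  hp : (4 * c1 + c2 + 8 * a) * r ≤ p
  ν1 : 1 ≤ ν
  hN : (p * ν) ^ 3 = N
  hM : (M : ℝ) ≤ ν ^ 3
  hM' : 0 < M → ν ^ 3 = M ∧ p ≤ ν
  s0 : 0 ≤ s
  s1 : s ≤ 1
  sN : s * N ≤ ν ^ 2

noncomputable def KK (θ r p ν : ℝ) (N : ℕ) : ℤ := ⌈θ * N + r * (p * ν) ^ 2 + 1⌉

noncomputable def BB (r ν : ℝ) : ℤ := ⌈r * ν ^ 2⌉ + 2

noncomputable def RR (a c2 θ r ν : ℝ) : ℝ :=
  4 * (4 * a * r * ν) + 2 * (c2 * r ^ 2 * ν) + 8 * r + 4 / √θ

noncomputable def Ev (a c2 θ r p ν : ℝ) (N M : ℕ) : Set Env :=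
  StepEv θ (RR a c2 θ r ν) N M (r * (p * ν) ^ 2) (BB r ν) ⌊θ * (p * ν) ^ 2⌋

namespace Num
variable {a c1 c2 θ r p ν s : ℝ} {N M : ℕ} (h : Num a c1 c2 θ r p ν s N M)
include h

theorem θ0 : 0 < θ := by
  by_contra h0
  have := mul_nonpos_of_nonneg_of_nonpos (zero_le_one.trans h.a1) (not_lt.1 h0)
  linarith [h.aθ]

theorem p1 : 4 * c1 * r ≤ p ∧ c2 * r ≤ p ∧ 8 * a * r ≤ p := by
  have := h.hp
  have r0 : 0 ≤ r := by linarith [h.r2]
  have b1 := mul_nonneg (zero_le_one.trans h.c1_) r0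
  have b2 := mul_nonneg (zero_le_one.trans h.c2_) r0
  have b3 := mul_nonneg (zero_le_one.trans h.a1) r0
  refine ⟨?_, ?_, ?_⟩ <;> linarith

theorem p2 : 8 * r ≤ p := by
  have := h.p1.2.2
  have := mul_le_mul_of_nonneg_right h.a1 (show 0 ≤ r by linarith [h.r2])
  linarith

theorem p16 : 16 ≤ p := by linarith [h.p2, h.r2]

theorem θp : 8 * r ≤ θ * p := by
  have b1 := mul_le_mul_of_nonneg_left h.p1.2.2 h.θ0.le
  have b2 := mul_le_mul_of_nonneg_right h.aθ (show 0 ≤ r by linarith [h.r2])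
  linarith

theorem pν : p ≤ p * ν := le_mul_of_one_le_right (by linarith [h.p16]) h.ν1

theorem N2 : p * (p * ν) ^ 2 ≤ N := by
  rw [← h.hN, pow_succ' (p * ν) 2]
  exact mul_le_mul_of_nonneg_right h.pν (sq_nonneg _)

theorem sq1 : 1 ≤ (p * ν) ^ 2 := one_le_pow₀ (by linarith [h.pν, h.p16])

theorem M8 : 8 * (M : ℝ) ≤ N := by
  rw [← h.hN, mul_pow]
  have b1 : (2 : ℝ) ^ 3 ≤ p ^ 3 := pow_le_pow_left₀ zero_le_two (by linarith [h.p16]) 3
  have b2 := mul_le_mul_of_nonneg_right b1 (show 0 ≤ ν ^ 3 by have := h.ν1; positivity)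
  linarith [h.hM]

theorem N16 : (16 : ℝ) ≤ N := by
  have := h.N2
  have := mul_le_mul_of_nonneg_left h.sq1 (show 0 ≤ p by linarith [h.p16])
  linarith [h.p16]

theorem MN : M < N := by
  have b1 := h.M8
  have b2 := h.N16
  have b3 : (0 : ℝ) ≤ M := M.cast_nonneg
  exact_mod_cast (show (M : ℝ) < N by linarith)

theorem K_le : (KK θ r p ν N : ℝ) ≤ 3 * a * N := by
  have b1 := (Int.ceil_lt_add_one (θ * N + r * (p * ν) ^ 2 + 1)).le
  have b2 := mul_le_mul_of_nonneg_right h.θa (N.cast_nonneg (α := ℝ))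
  have b3 := mul_le_mul_of_nonneg_right h.a1 (N.cast_nonneg (α := ℝ))
  have b4 := mul_le_mul_of_nonneg_right (show r ≤ p by linarith [h.p2, h.r2]) (sq_nonneg (p * ν))
  unfold KK
  linarith [h.N2, h.N16]

theorem K_ge : θ * N + r * (p * ν) ^ 2 + 1 ≤ KK θ r p ν N := by
  have _ := h
  exact Int.le_ceil _

theorem ceil_le : ⌈θ * M⌉ ≤ KK θ r p ν N := by
  refine Int.ceil_mono ?_
  have b1 := mul_le_mul_of_nonneg_left (show (M : ℝ) ≤ N by exact_mod_cast h.MN.le) h.θ0.le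
  have b2 : 0 ≤ r * (p * ν) ^ 2 := mul_nonneg (by linarith [h.r2]) (sq_nonneg _)
  linarith

theorem ceil0 : 0 ≤ ⌈θ * M⌉ := Int.ceil_nonneg (mul_nonneg h.θ0.le M.cast_nonneg)

theorem rν : r ≤ r * ν ^ 2 := le_mul_of_one_le_right (by linarith [h.r2]) (one_le_pow₀ h.ν1)

theorem B_ge : r * ν ^ 2 + 2 ≤ BB r ν := by
  have _ := h
  unfold BB
  push_cast
  linarith [Int.le_ceil (r * ν ^ 2)]

theorem B_le : (BB r ν : ℝ) ≤ 4 * (r * ν ^ 2) := by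
  unfold BB
  push_cast
  linarith [Int.ceil_lt_add_one (r * ν ^ 2), h.rν, h.r2]

theorem B_w : BB r ν ≤ ⌊θ * (p * ν) ^ 2⌋ := by
  refine Int.le_floor.2 (h.B_le.trans ?_)
  have b1 : 4 * r ≤ θ * p * p := by
    have := mul_le_mul h.θp (show 1 ≤ p by linarith [h.p16]) zero_le_one
      (by linarith [h.θp, h.r2])
    linarith [h.r2]
  have := mul_le_mul_of_nonneg_right b1 (sq_nonneg ν)
  linarith

theorem room : ((⌈θ * M⌉ + ⌊θ * (p * ν) ^ 2⌋ : ℤ) : ℝ) ≤ θ * N - r * (p * ν) ^ 2 - 1 := by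
  push_cast
  have b1 := (Int.ceil_lt_add_one (θ * M)).le
  have b2 := Int.floor_le (θ * (p * ν) ^ 2)
  have b3 := mul_le_mul_of_nonneg_left h.M8 h.θ0.le
  have b4 := mul_le_mul_of_nonneg_left h.N2 h.θ0.le
  have b5 := mul_le_mul_of_nonneg_right h.θp (sq_nonneg (p * ν))
  have b6 := mul_le_mul_of_nonneg_right h.p16 (mul_nonneg h.θ0.le (sq_nonneg (p * ν)))
  have b7 := mul_le_mul h.r2 h.sq1 zero_le_one (by linarith [h.r2])
  linarith

theorem d_le {u v : ℤ} (hu : |u| ≤ KK θ r p ν N) (hv : |v| ≤ KK θ r p ν N) :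
    r * (1 + √(s * ((v : ℝ) - u))) ≤ 4 * a * r * ν := by
  have b1 : (v : ℝ) - u ≤ 6 * a * N := by
    have e : v - u ≤ 2 * KK θ r p ν N := by
      rw [abs_le] at hu hv
      omega
    have e' : (v : ℝ) - u ≤ 2 * KK θ r p ν N := by exact_mod_cast e
    linarith [h.K_le]
  have a0 : 0 ≤ a := zero_le_one.trans h.a1
  have n0 : 0 ≤ ν := zero_le_one.trans h.ν1
  have b2 : √(s * ((v : ℝ) - u)) ≤ 3 * a * ν := by
    refine Real.sqrt_le_iff.2 ⟨by positivity, ?_⟩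
    have e1 := mul_le_mul_of_nonneg_left b1 h.s0
    have e2 := mul_le_mul_of_nonneg_left h.sN a0
    have e3 := mul_le_mul_of_nonneg_right h.a1 (show 0 ≤ a * ν ^ 2 by positivity)
    have e4 : 0 ≤ a * ν ^ 2 := by positivity
    nlinarith
  have b3 : 1 ≤ a * ν := one_le_mul_of_one_le_of_one_le h.a1 h.ν1
  have b4 := mul_le_mul_of_nonneg_left (show 1 + √(s * ((v : ℝ) - u)) ≤ 4 * a * ν by linarith)
    (show 0 ≤ r by linarith [h.r2])
  linarith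

theorem R0 : 0 ≤ RR a c2 θ r ν := by
  have := h.a1
  have := h.c2_
  have := h.r2
  have := h.ν1
  unfold RR
  positivity

theorem R_le : RR a c2 θ r ν + r * √(BB r ν) ≤ (30 * a + 2 * c2) * (r ^ 2 * ν) := by
  have a1 := h.a1
  have r2 := h.r2
  have n1 := h.ν1
  have b1 : √(BB r ν) ≤ 2 * r * ν := by
    refine Real.sqrt_le_iff.2 ⟨by positivity, h.B_le.trans ?_⟩
    have := mul_le_mul_of_nonneg_right (show 1 ≤ r by linarith) (show 0 ≤ r * ν ^ 2 by positivity)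
    linarith
  have b2 : 4 / √θ ≤ 4 * a := by
    have t0 := Real.sqrt_pos.2 h.θ0
    rw [div_le_iff₀ t0]
    have e : 1 / a ≤ √θ := by
      refine Real.le_sqrt_of_sq_le ?_
      rw [div_pow, div_le_iff₀ (by positivity)]
      have := mul_le_mul a1 h.aθ zero_le_one (by linarith)
      linarith
    rw [div_le_iff₀ (by positivity)] at e
    linarith
  have b3 := mul_le_mul_of_nonneg_left b1 (show 0 ≤ r by linarith)
  have e1 : r * ν ≤ r ^ 2 * ν := by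
    have := mul_le_mul_of_nonneg_right (show 1 ≤ r by linarith) (show 0 ≤ r * ν by positivity)
    linarith
  have e2 : r ≤ r * ν := le_mul_of_one_le_right (by linarith) n1
  have e3 := mul_le_mul_of_nonneg_left e1 (show 0 ≤ a by linarith)
  have e4 := mul_le_mul_of_nonneg_right a1 (show 0 ≤ r ^ 2 * ν by positivity)
  have e5 := mul_le_mul_of_nonneg_left (show 1 ≤ r ^ 2 * ν by linarith) (show 0 ≤ a by linarith)
  unfold RR
  linarith

end Num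

/-- Something goes wrong for the pair `u`, `v`. -/
def Bad (a c2 θ r ν : ℝ) (N M : ℕ) (ω ω₀ : Env) (u v : ℤ) : Prop :=
  (∃ j ∈ ({-(M : ℤ), -(M : ℤ) + 1, (M : ℤ), (M : ℤ) + 1} : Finset ℤ),
      ∃ y ∈ Icc (u : ℝ) (u + 1), r < |ω j y - ω j u|) ∨
    (0 < M ∧ u ≤ v ∧ (v - u) / √θ + 2 * M * √θ + c2 * r ^ 2 * ν < T ω (-M) M u v) ∨
    (0 < M ∧ T ω (-M) M u (u + 2 * (⌈θ * M⌉ : ℤ)) <
      2 * (⌈θ * M⌉ : ℤ) / √θ + 2 * M * √θ - c2 * r ^ 2 * ν) ∨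
    (u ≤ v ∧ 4 * a * r * ν < |T ω (-N) (-M) u v - T ω₀ (-N) (-M) u v|) ∨
    (u ≤ v ∧ 4 * a * r * ν < |T ω M N u v - T ω₀ M N u v|)

theorem step_mem (sd : StepDStmt) {a c1 c2 θ r p ν s : ℝ} {N M : ℕ}
    (h : Num a c1 c2 θ r p ν s N M) {ω ω₀ : Env} {x : ℤ → ℝ} (hx : IsBi ω x)
    (h1 : LocAt x θ (r * (p * ν) ^ 2) N) (h2 : LocAt x θ (r * ν ^ 2) M)
    (hb : ∀ u v, |u| ≤ KK θ r p ν N → |v| ≤ KK θ r p ν N → ¬ Bad a c2 θ r ν N M ω ω₀ u v) :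
    ω₀ ∈ Ev a c2 θ r p ν N M := by
  simp only [Bad, not_or, not_exists, not_and, not_lt] at hb
  have c0 : 0 ≤ c2 * r ^ 2 * ν := by
    have := h.c2_
    have := h.ν1
    positivity
  refine sd ω ω₀ x θ _ _ r (c2 * r ^ 2 * ν) (4 * a * r * ν) N M _ _ (KK θ r p ν N) hx h.θ0 h.MN h1 h2
    c0 h.B_ge h.B_w h.room h.K_ge (fun j hj i hi y hy => ?_) (fun m0 u v hu hv huv => ?_)
    (fun m0 u hu => ?_) fun u v hu hv huv => ?_
  · exact (hb i i hi hi).1 j (by simpa using hj) y hy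
  · exact (hb u v hu hv).2.1 m0 huv
  · have := (hb u u hu hu).2.2.1 m0
    push_cast at this ⊢
    exact this
  · exact ⟨(hb u v hu hv).2.2.2.1 huv, (hb u v hu hv).2.2.2.2 huv⟩

variable {Ω : Type u} [MeasurableSpace Ω] {P : Measure Ω} {μ : Measure CP} {W : ℝ → Ω → Env}

theorem union_le (D : Dyn P μ W) {E : Set Env} {m k i0 i1 : ℤ} (t0 : ℝ) {s c L β : ℝ} (h1 : m ≤ k)
    (h2 : i0 ≤ i1) (s0 : 0 ≤ s) (s1 : s ≤ 1) (hl : Loc E m k i0 i1)
    (hE : PP μ E ≤ ENNReal.ofReal c) (c0 : 0 ≤ c) (hL : ((k : ℝ) - m) * (i1 - i0) ≤ L)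
    (hβ : (1 + L) * c ≤ β) :
    P {ω | ∃ t ∈ Icc t0 (t0 + s), W t ω ∈ E} ≤ ENNReal.ofReal β := by
  have b0 : 0 ≤ ((k : ℝ) - m) * (i1 - i0) :=
    mul_nonneg (sub_nonneg.2 (by exact_mod_cast h1)) (sub_nonneg.2 (by exact_mod_cast h2))
  refine (D.union E m k i0 i1 t0 s h1 h2 s0 hl).trans ((mul_le_mul_right hE _).trans ?_)
  rw [← ENNReal.ofReal_mul (by positivity)]
  refine ENNReal.ofReal_le_ofReal (le_trans (mul_le_mul_of_nonneg_right ?_ c0) hβ)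
  linarith [mul_le_of_le_one_right b0 s1]

theorem bad_le (d1 : Det1) (rf : Ref) (e : EnvA) (D : Dyn P μ W) {a c1 c2 θ r p ν s : ℝ} {N M : ℕ}
    (h : Num a c1 c2 θ r p ν s N M)
    (sl : 0 < M → ∀ u : ℝ,
      (∀ v, u ≤ v → PP μ {ω | (v - u) / √θ + 2 * M * √θ + c2 * r ^ 2 * ν < T ω (-M) M u v} ≤
        ENNReal.ofReal (c2 * Real.exp (-r))) ∧
      PP μ {ω | T ω (-M) M u (u + 2 * (⌈θ * M⌉ : ℤ)) <
        2 * (⌈θ * M⌉ : ℤ) / √θ + 2 * M * √θ - c2 * r ^ 2 * ν} ≤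
        ENNReal.ofReal (c2 * Real.exp (-r)))
    (t0 : ℝ) {u v : ℤ} (hu : |u| ≤ KK θ r p ν N) (hv : |v| ≤ KK θ r p ν N) :
    P {ω | ∃ t ∈ Icc t0 (t0 + s), Bad a c2 θ r ν N M (W t ω) (W t0 ω) u v} ≤
      8 * ENNReal.ofReal (10 ^ 8 * c2 * (3 * a * N) ^ 4 * Real.exp (-r)) := by
  obtain ⟨L, hL⟩ : ∃ L : ℝ, L = 3 * a * N := ⟨_, rfl⟩
  rw [← hL]
  obtain ⟨β, hβ⟩ : ∃ β : ℝ, β = 10 ^ 8 * c2 * L ^ 4 * Real.exp (-r) := ⟨_, rfl⟩
  rw [← hβ]
  have KL : (KK θ r p ν N : ℝ) ≤ L := hL ▸ h.K_le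
  have NL : (N : ℝ) ≤ L := by
    have := mul_le_mul_of_nonneg_right h.a1 (N.cast_nonneg (α := ℝ))
    have := N.cast_nonneg (α := ℝ)
    linarith
  have MN : (M : ℝ) ≤ N := by exact_mod_cast h.MN.le
  have M0 : (0 : ℝ) ≤ M := M.cast_nonneg
  have L1 : 1 ≤ L := by linarith [h.N16]
  have x0 := Real.exp_pos (-r)
  have c2' := h.c2_
  have vu : (v : ℝ) - u ≤ 2 * L := by
    have e : v - u ≤ 2 * KK θ r p ν N := by
      rw [abs_le] at hu hv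
      omega
    have e' : (v : ℝ) - u ≤ 2 * KK θ r p ν N := by exact_mod_cast e
    linarith
  have L2 : 1 ≤ L ^ 2 := one_le_pow₀ L1
  have L4 : L ^ 2 ≤ L ^ 4 := pow_le_pow_right₀ L1 (by norm_num)
  have g1 : (1 + 4 * L ^ 2) * (c2 * Real.exp (-r)) ≤ β := by
    have := mul_le_mul_of_nonneg_right (show 1 + 4 * L ^ 2 ≤ 10 ^ 8 * L ^ 4 by linarith)
      (show 0 ≤ c2 * Real.exp (-r) by positivity)
    linarith
  have o1 : ∀ j : ℤ, P {ω | ∃ t ∈ Icc t0 (t0 + s), W t ω ∈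
      {ω : Env | ∃ y ∈ Icc (u : ℝ) (u + 1), r < |ω j y - ω j u|}} ≤ ENNReal.ofReal β := by
    intro j
    refine union_le D (m := j - 1) (k := j) (i0 := u) (i1 := u + 1) t0 (c := 4 * Real.exp (-r))
      (L := 1) (by omega) (by omega) h.s0 h.s1 ?_ ?_ (by positivity) (by push_cast; linarith) ?_
    · rintro ω ω' ha ⟨y, hy, hr⟩
      refine ⟨y, hy, ?_⟩
      rwa [← ha j (by omega) le_rfl u ⟨le_rfl, by push_cast; linarith⟩ y (by push_cast; exact hy)]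
    · have b1 := preimage_le (e.eval μ j D.bm)
        {f : CP | ∃ x ∈ Icc (u : ℝ) (u + 1), r + |(0 : ℝ)| * 1 < |f x - f u|}
      have b2 := rf.osc μ 0 u 1 r D.bm one_pos (by linarith [h.r2])
      refine le_trans (le_of_eq ?_) (b1.trans (b2.trans (ENNReal.ofReal_le_ofReal ?_)))
      · congr 1
        ext ω
        simp
      · have : -r ^ 2 / (2 * 1) ≤ -r := by nlinarith [h.r2]
        gcongr
    · have := mul_le_mul_of_nonneg_right c2' x0.le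
      nlinarith
  have o2 : P {ω | ∃ t ∈ Icc t0 (t0 + s), 0 < M ∧ u ≤ v ∧
      (v - u) / √θ + 2 * M * √θ + c2 * r ^ 2 * ν < T (W t ω) (-M) M u v} ≤ ENNReal.ofReal β := by
    by_cases hc : 0 < M ∧ u ≤ v
    swap
    · refine le_trans (le_of_eq ?_) bot_le
      rw [bot_eq_zero, ← measure_empty (μ := P)]
      congr 1
      exact eq_empty_of_forall_notMem fun ω ⟨_, _, b1, b2, _⟩ => hc ⟨b1, b2⟩
    refine le_trans (measure_mono ?_)
      (union_le D (m := -M) (k := M) (i0 := u) (i1 := v) t0 (by omega) hc.2 h.s0 h.s1 ?_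
        ((sl hc.1 u).1 v (by exact_mod_cast hc.2)) (by positivity) ?_ g1)
    · rintro ω ⟨t, ht, _, _, b⟩
      exact ⟨t, ht, b⟩
    · intro ω ω' ha hω
      rwa [mem_ofPred_eq, ← d1.agree _ _ _ _ _ _ ha]
    · push_cast
      have : (u : ℝ) ≤ v := by exact_mod_cast hc.2
      nlinarith
  have o3 : P {ω | ∃ t ∈ Icc t0 (t0 + s), 0 < M ∧ T (W t ω) (-M) M u (u + 2 * (⌈θ * M⌉ : ℤ)) <
      2 * (⌈θ * M⌉ : ℤ) / √θ + 2 * M * √θ - c2 * r ^ 2 * ν} ≤ ENNReal.ofReal β := by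
    by_cases hc : 0 < M
    swap
    · refine le_trans (le_of_eq ?_) bot_le
      rw [bot_eq_zero, ← measure_empty (μ := P)]
      congr 1
      exact eq_empty_of_forall_notMem fun ω ⟨_, _, b1, _⟩ => hc b1
    have z0 := h.ceil0
    refine le_trans (measure_mono ?_)
      (union_le D (m := -M) (k := M) (i0 := u) (i1 := u + 2 * ⌈θ * M⌉) t0 (by omega) (by omega)
        h.s0 h.s1 ?_ (sl hc u).2 (by positivity) ?_ g1)
    · rintro ω ⟨t, ht, _, b⟩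
      exact ⟨t, ht, b⟩
    · intro ω ω' ha hω
      push_cast at ha
      rwa [mem_ofPred_eq, ← d1.agree _ _ _ _ _ _ ha]
    · push_cast
      have z1 : (0 : ℝ) ≤ (⌈θ * M⌉ : ℤ) := by exact_mod_cast z0
      have z2 : ((⌈θ * M⌉ : ℤ) : ℝ) ≤ KK θ r p ν N := by exact_mod_cast h.ceil_le
      nlinarith
  have o4 : ∀ m k : ℤ, m < k → (k : ℝ) - m ≤ L → P {ω | ∃ t ∈ Icc t0 (t0 + s), u ≤ v ∧
      4 * a * r * ν < |T (W t ω) m k u v - T (W t0 ω) m k u v|} ≤ ENNReal.ofReal β := by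
    intro m k hmk hkm
    by_cases hc : u ≤ v
    swap
    · refine le_trans (le_of_eq ?_) bot_le
      rw [bot_eq_zero, ← measure_empty (μ := P)]
      congr 1
      exact eq_empty_of_forall_notMem fun ω ⟨_, _, b1, _⟩ => hc b1
    refine le_trans (measure_mono ?_)
      ((D.move m k u v t0 s r hmk hc h.s0 h.s1 (by linarith [h.r2])).trans
        (ENNReal.ofReal_le_ofReal ?_))
    · rintro ω ⟨t, ht, _, b⟩
      exact ⟨t, ht, (h.d_le hu hv).trans_lt b⟩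
    have z1 : (0 : ℝ) ≤ (v : ℝ) - u := sub_nonneg.2 (by exact_mod_cast hc)
    have z2 : (0 : ℝ) ≤ (k : ℝ) - m := sub_nonneg.2 (by exact_mod_cast hmk.le)
    have z3 : 1 + ((k : ℝ) - m) * (v - u) ≤ 3 * L ^ 2 := by nlinarith
    have z4 := pow_le_pow_left₀ (by positivity) z3 2
    have z5 := mul_le_mul_of_nonneg_right c2' (show 0 ≤ L ^ 4 by positivity)
    rw [hβ]
    refine mul_le_mul_of_nonneg_right ?_ x0.le
    nlinarith
  have MN' := h.MN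
  have o5 := o4 (-N) (-M) (by omega) (by push_cast; linarith)
  have o6 := o4 M N (by omega) (by push_cast; linarith)
  have s7 := (measure_union_le (μ := P) _ _).trans (add_le_add (o1 (-M))
    ((measure_union_le _ _).trans (add_le_add (o1 (-M + 1))
    ((measure_union_le _ _).trans (add_le_add (o1 M)
    ((measure_union_le _ _).trans (add_le_add (o1 (M + 1))
    ((measure_union_le _ _).trans (add_le_add o2
    ((measure_union_le _ _).trans (add_le_add o3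
    ((measure_union_le _ _).trans (add_le_add o5 o6)))))))))))))
  refine le_trans (measure_mono ?_) (s7.trans_eq (by ring))
  rintro ω ⟨t, ht, ⟨j, hj, b⟩ | b | b | b | b⟩
  · simp only [Finset.mem_insert, Finset.mem_singleton] at hj
    rcases hj with rfl | rfl | rfl | rfl
    · exact .inl ⟨t, ht, b⟩
    · exact .inr (.inl ⟨t, ht, b⟩)
    · exact .inr (.inr (.inl ⟨t, ht, b⟩))
    · exact .inr (.inr (.inr (.inl ⟨t, ht, b⟩)))
  · exact .inr (.inr (.inr (.inr (.inl ⟨t, ht, b⟩))))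
  · exact .inr (.inr (.inr (.inr (.inr (.inl ⟨t, ht, b⟩)))))
  · exact .inr (.inr (.inr (.inr (.inr (.inr (.inl ⟨t, ht, b⟩))))))
  · exact .inr (.inr (.inr (.inr (.inr (.inr (.inr ⟨t, ht, b⟩))))))

/-- The bad event of one step. -/
def BadSet (W : ℝ → Ω → Env) (t0 s a c2 θ r p ν : ℝ) (N M : ℕ) : Set Ω :=
  {ω | ∃ u v, |u| ≤ KK θ r p ν N ∧ |v| ≤ KK θ r p ν N ∧
    ∃ t ∈ Icc t0 (t0 + s), Bad a c2 θ r ν N M (W t ω) (W t0 ω) u v}

theorem badSet_le {a c1 c2 θ r p ν s : ℝ} {N M : ℕ} (h : Num a c1 c2 θ r p ν s N M) (t0 : ℝ)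
    (hb : ∀ u v, |u| ≤ KK θ r p ν N → |v| ≤ KK θ r p ν N →
      P {ω | ∃ t ∈ Icc t0 (t0 + s), Bad a c2 θ r ν N M (W t ω) (W t0 ω) u v} ≤
        8 * ENNReal.ofReal (10 ^ 8 * c2 * (3 * a * N) ^ 4 * Real.exp (-r))) :
    P (BadSet W t0 s a c2 θ r p ν N M) ≤
      ENNReal.ofReal (10 ^ 10 * c2 * (3 * a * N) ^ 6 * Real.exp (-r)) := by
  have KL := h.K_le
  have K0 : 0 ≤ KK θ r p ν N := h.ceil0.trans h.ceil_le
  have L1 : 1 ≤ 3 * a * N := by
    have := mul_le_mul_of_nonneg_right h.a1 (N.cast_nonneg (α := ℝ))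
    linarith [h.N16]
  have c2' := h.c2_
  unfold BadSet
  generalize KK θ r p ν N = K at *
  generalize 3 * a * N = L at *
  have b1 := measure_biUnion_finset_le (μ := P) (Finset.Icc (-K) K ×ˢ Finset.Icc (-K) K)
    fun q => {ω | ∃ t ∈ Icc t0 (t0 + s), Bad a c2 θ r ν N M (W t ω) (W t0 ω) q.1 q.2}
  have b2 := Finset.sum_le_card_nsmul (Finset.Icc (-K) K ×ˢ Finset.Icc (-K) K)
    (fun q => P {ω | ∃ t ∈ Icc t0 (t0 + s), Bad a c2 θ r ν N M (W t ω) (W t0 ω) q.1 q.2}) _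
    fun q hq => hb q.1 q.2 (abs_le.2 (Finset.mem_Icc.1 (Finset.mem_product.1 hq).1))
      (abs_le.2 (Finset.mem_Icc.1 (Finset.mem_product.1 hq).2))
  refine le_trans (measure_mono ?_) (b1.trans (b2.trans ?_))
  · rintro ω ⟨u, v, hu, hv, b⟩
    exact mem_biUnion (x := (u, v)) (Finset.mem_coe.2 (Finset.mem_product.2
      ⟨Finset.mem_Icc.2 (abs_le.1 hu), Finset.mem_Icc.2 (abs_le.1 hv)⟩)) b
  · have e : ((Finset.Icc (-K) K).card : ℝ) ≤ 3 * L := by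
      have e1 : ((Finset.Icc (-K) K).card : ℤ) = 2 * K + 1 := by
        rw [Int.card_Icc_of_le _ _ (by omega)]
        ring
      have e2 : ((Finset.Icc (-K) K).card : ℝ) = 2 * K + 1 := by exact_mod_cast e1
      linarith
    rw [Finset.card_product, nsmul_eq_mul, ← ENNReal.ofReal_natCast, ← ENNReal.ofReal_ofNat 8,
      ← ENNReal.ofReal_mul (by norm_num), ← ENNReal.ofReal_mul (Nat.cast_nonneg _)]
    refine ENNReal.ofReal_le_ofReal ?_
    push_cast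
    have e3 := mul_le_mul e e (Nat.cast_nonneg _) (by linarith)
    refine (mul_le_mul_of_nonneg_right e3 (by positivity)).trans ?_
    have : 0 ≤ c2 * L ^ 6 * Real.exp (-r) := by positivity
    nlinarith

/-- The event depends on a bounded box. -/
def IsLoc (E : Set Env) : Prop := ∃ n : ℕ, Loc E (-n) n ((-n : ℤ) : ℝ) ((n : ℤ) : ℝ)

theorem isLoc_of {E : Set Env} {m k i0 i1 : ℤ} (h : Loc E m k i0 i1) : IsLoc E := by
  refine ⟨m.natAbs + k.natAbs + i0.natAbs + i1.natAbs, h.mono (by omega) (by omega) ?_ ?_⟩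
  · exact Int.cast_le.2 (by omega)
  · exact Int.cast_le.2 (by omega)

theorem IsLoc.inter {E F : Set Env} (h : IsLoc E) (h' : IsLoc F) : IsLoc (E ∩ F) := by
  obtain ⟨n, hn⟩ := h
  obtain ⟨n', hn'⟩ := h'
  refine ⟨n + n', fun ω ω' ha hω => ⟨?_, ?_⟩⟩
  · exact hn.mono (by omega) (by omega) (Int.cast_le.2 (by omega)) (Int.cast_le.2 (by omega))
      ω ω' ha hω.1
  · exact hn'.mono (by omega) (by omega) (Int.cast_le.2 (by omega)) (Int.cast_le.2 (by omega))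
      ω ω' ha hω.2

theorem isLoc_step (ss : StepS) {θ R A : ℝ} {N M : ℕ} (B w : ℤ) (h1 : 0 ≤ θ) (h2 : 0 ≤ A)
    (h3 : M ≤ N) : IsLoc (StepEv θ R N M A B w) := by
  refine isLoc_of (ss.loc θ R N M A B w (max ⌈θ * N + A + 1⌉ (⌈θ * M⌉ + |B| + |w|)) h1 h2 h3 ?_
    (le_max_right _ _))
  exact (Int.le_ceil _).trans (Int.cast_le.2 (le_max_left _ _))

theorem at_le (D : Dyn P μ W) {E : Set Env} (h : IsLoc E) (t0 : ℝ) :
    P {ω | W t0 ω ∈ E} ≤ PP μ E := by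
  obtain ⟨n, hn⟩ := h
  have := D.union E _ _ _ _ t0 0 (by omega) (by omega) le_rfl hn
  rw [mul_zero, add_zero (1 : ℝ), ENNReal.ofReal_one, one_mul] at this
  refine le_trans (measure_mono fun ω hω => ?_) this
  exact ⟨t0, ⟨le_rfl, by simp⟩, hω⟩

theorem prod_le (e : EnvA) (hμ : IsBM μ 0) (n : ℕ → ℕ) (E : ℕ → Set Env) (q : ℝ≥0∞) (k : ℕ)
    (hm : ∀ j, MeasurableSet (E j))
    (hd : ∀ j, Dep (E j) (Ioc (-(n j : ℤ)) (-(n (j + 1))) ∪ Ioc (n (j + 1) : ℤ) (n j)))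
    (h : ∀ j < k, n (j + 1) ≤ n j ∧ IsLoc (E j) ∧ PP μ (E j) ≤ q) :
    MeasurableSet {ω | ∀ j < k, ω ∈ E j} ∧ IsLoc {ω | ∀ j < k, ω ∈ E j} ∧
      Dep {ω | ∀ j < k, ω ∈ E j} (Ioc (-(n k : ℤ)) (n k))ᶜ ∧ PP μ {ω | ∀ j < k, ω ∈ E j} ≤ q ^ k := by
  have := hμ.prob
  induction k with
  | zero =>
    refine ⟨by simp, ⟨0, fun _ _ _ _ => by simp⟩, fun _ _ _ _ => by simp, ?_⟩
    rw [pow_zero]
    exact prob_le_one
  | succ k ih =>
    obtain ⟨i1, i2, i3, i4⟩ := ih fun j hj => h j (by omega)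
    obtain ⟨b1, b2, b3⟩ := h k (by omega)
    have eq : {ω | ∀ j < k + 1, ω ∈ E j} = E k ∩ {ω | ∀ j < k, ω ∈ E j} := by
      ext ω
      simp only [mem_ofPred_eq, mem_inter_iff, Nat.forall_lt_succ_right, and_comm]
    rw [eq]
    refine ⟨(hm k).inter i1, b2.inter i2, fun ω ω' ha hω => ⟨?_, ?_⟩, ?_⟩
    · refine hd k ω ω' (fun j hj => ha j ?_) hω.1
      simp only [mem_union, mem_Ioc, mem_compl_iff] at hj ⊢
      omega
    · refine i3 ω ω' (fun j hj => ha j ?_) hω.2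
      simp only [mem_Ioc, mem_compl_iff] at hj ⊢
      omega
    · rw [e.inter μ _ _ (Ioc (-(n k : ℤ)) (n k)) hμ (hm k) i1 ?_ i3, pow_succ']
      · exact mul_le_mul' b3 i4
      · refine fun ω ω' ha hω => hd k ω ω' (fun j hj => ha j ?_) hω
        simp only [mem_union, mem_Ioc] at hj ⊢
        omega

theorem nu_succ {ℓ k j : ℕ} (hj : j < k) : nu ℓ k j = 2 ^ ℓ * nu ℓ k (j + 1) := by
  unfold nu
  rw [← pow_add, show k - j = k - (j + 1) + 1 by omega, mul_add, mul_one, add_comm]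

theorem lev_eq {ℓ k j : ℕ} (hj : j < k) : nu ℓ k j ^ 3 = lev ℓ k j := by
  rw [lev, if_pos hj, nu, ← pow_mul, mul_comm _ 3]
  push_cast
  rfl

theorem nu_one (ℓ k j : ℕ) : 1 ≤ nu ℓ k j := one_le_pow₀ one_le_two

theorem nu_le (ℓ k j : ℕ) : nu ℓ k j ≤ 2 ^ (ℓ * k) :=
  pow_le_pow_right₀ one_le_two (Nat.mul_le_mul_left _ (Nat.sub_le _ _))

theorem num_of {κ c1 c2 θ : ℝ} {ℓ k j : ℕ} (k0 : 0 < κ) (k1 : κ ≤ 1) (hθ : θ ∈ Icc κ κ⁻¹)
    (h1 : 1 ≤ c1) (h2 : 1 ≤ c2) (l2 : 2 ≤ ℓ) (la : κ⁻¹ ≤ ℓ)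
    (lp : (4 * c1 + c2 + 8 * κ⁻¹) * (ℓ : ℝ) ^ 2 ≤ 2 ^ ℓ) (hj : j < k) :
    Num κ⁻¹ c1 c2 θ ((ℓ : ℝ) ^ 2) (2 ^ ℓ) (nu ℓ k (j + 1)) ((2 : ℝ) ^ (ℓ * (k + 2)))⁻¹
      (lev ℓ k j) (lev ℓ k (j + 1)) := by
  have l2' : (2 : ℝ) ≤ ℓ := by exact_mod_cast l2
  refine ⟨(one_le_inv₀ k0).2 k1, hθ.2, ?_, h1, h2, by nlinarith, by nlinarith, lp, nu_one _ _ _,
    by rw [← nu_succ hj, lev_eq hj], ?_, fun m0 => ?_, by positivity,
    inv_le_one_of_one_le₀ (one_le_pow₀ one_le_two), ?_⟩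
  · rw [← inv_mul_cancel₀ k0.ne']
    exact mul_le_mul_of_nonneg_left hθ.1 (by positivity)
  · by_cases hj' : j + 1 < k
    · exact (lev_eq hj').ge
    · rw [lev, if_neg hj', Nat.cast_zero]
      have := nu_one ℓ k (j + 1)
      positivity
  · have hj' : j + 1 < k := by
      by_contra hj'
      rw [lev, if_neg hj'] at m0
      exact lt_irrefl _ m0
    refine ⟨lev_eq hj', ?_⟩
    rw [nu_succ hj']
    exact le_mul_of_one_le_right (by positivity) (nu_one _ _ _)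
  · rw [← lev_eq hj, inv_mul_le_iff₀ (by positivity), nu, nu, ← pow_mul, ← pow_mul, ← pow_add]
    refine pow_le_pow_right₀ one_le_two ?_
    rw [mul_assoc, mul_assoc, ← mul_add]
    exact Nat.mul_le_mul_left _ (by omega)

theorem exp_le {ℓ n : ℕ} (h : n ≤ ℓ) : 2 ^ (ℓ * n) * Real.exp (-(ℓ : ℝ) ^ 2) ≤ 1 := by
  have b1 : (2 : ℝ) ^ (ℓ * n) ≤ Real.exp 1 ^ (ℓ * n) :=
    pow_le_pow_left₀ zero_le_two (by linarith [Real.add_one_le_exp 1]) _
  rw [← Real.exp_nat_mul, mul_one] at b1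
  refine (mul_le_mul_of_nonneg_right b1 (Real.exp_pos _).le).trans ?_
  rw [← Real.exp_add, Real.exp_le_one_iff]
  push_cast
  have : (n : ℝ) ≤ ℓ := by exact_mod_cast h
  nlinarith [ℓ.cast_nonneg (α := ℝ)]

end MultiA

open MultiA in
theorem multiS (d1 : Det1) (rf : Ref) (e : EnvA) (ss : StepS) (sd : StepDStmt) (sl : SlabStmt) :
    MultiStmt.{u} := by
  intro κ k k0 k1 hk
  obtain ⟨c1, h1, hs⟩ := ss.prob κ k0 k1
  obtain ⟨c2, h2, hl⟩ := sl κ k0 k1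
  have ev : ∀ᶠ ℓ : ℕ in atTop, 20 * k ≤ ℓ ∧ κ⁻¹ ≤ ℓ ∧
      (4 * c1 + c2 + 8 * κ⁻¹) * (ℓ : ℝ) ^ 2 ≤ 2 ^ ℓ := by
    have t1 := (tendsto_pow_const_div_const_pow_of_one_lt 2 (one_lt_two (α := ℝ))).const_mul
      (4 * c1 + c2 + 8 * κ⁻¹)
    rw [mul_zero] at t1
    filter_upwards [eventually_ge_atTop (20 * k),
      tendsto_natCast_atTop_atTop.eventually_ge_atTop κ⁻¹,
      t1.eventually (Iic_mem_nhds one_pos)] with ℓ b1 b2 b3
    refine ⟨b1, b2, ?_⟩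
    rwa [← mul_div_assoc, div_le_one (by positivity)] at b3
  obtain ⟨ℓ0, hℓ0⟩ := eventually_atTop.1 ev
  obtain ⟨G, hG⟩ : ∃ G : ℝ, G = (c1 * (30 * κ⁻¹ + 2 * c2)) ^ 2 + c1 := ⟨_, rfl⟩
  obtain ⟨H, hH⟩ : ∃ H : ℝ, H = 10 ^ 10 * c2 * (3 * κ⁻¹) ^ 6 := ⟨_, rfl⟩
  have G0 : 0 ≤ G := by rw [hG]; positivity
  have H0 : 0 ≤ H := by rw [hH]; positivity
  refine ⟨k * H + G ^ k, ℓ0, by positivity, fun Ω _ P μ W D ℓ hℓ θ hθ t0 => ?_⟩
  obtain ⟨b1, b2, b3⟩ := hℓ0 ℓ hℓ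
  have l1 : (1 : ℝ) ≤ ℓ := by exact_mod_cast (show 1 ≤ ℓ by omega)
  have hn := fun j hj => num_of (k := k) (j := j) k0 k1 hθ h1 h2 (by omega) b2 b3 hj
  have x0 := Real.exp_pos (-(ℓ : ℝ) ^ 2)
  -- the bad events
  have bad : ∀ j < k, P (BadSet W t0 ((2 : ℝ) ^ (ℓ * (k + 2)))⁻¹ κ⁻¹ c2 θ ((ℓ : ℝ) ^ 2) (2 ^ ℓ)
      (nu ℓ k (j + 1)) (lev ℓ k j) (lev ℓ k (j + 1))) ≤ ENNReal.ofReal (H / 2 ^ (2 * (ℓ * k))) := by
    intro j hj
    have h := hn j hj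
    refine (badSet_le h t0 fun u v hu hv => bad_le d1 rf e D h (fun m0 y => ?_) t0 hu hv).trans
      (ENNReal.ofReal_le_ofReal ?_)
    · exact hl μ θ _ _ _ y D.bm hθ (by linarith [h.ν1]) (h.hM' m0).1 (by linarith [h.r2])
        (h.p1.2.1.trans (h.hM' m0).2)
    · rw [le_div_iff₀ (by positivity), ← lev_eq hj, mul_pow]
      have e1 : (nu ℓ k j ^ 3) ^ 6 * 2 ^ (2 * (ℓ * k)) ≤ 2 ^ (ℓ * (20 * k)) := by
        have := nu_one ℓ k j
        have e2 : (nu ℓ k j ^ 3) ^ 6 ≤ ((2 ^ (ℓ * k)) ^ 3) ^ 6 := by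
          gcongr
          exact nu_le _ _ _
        refine (mul_le_mul_of_nonneg_right e2 (by positivity)).trans_eq ?_
        rw [← pow_mul, ← pow_mul, ← pow_add]
        congr 1
        ring
      have e3 := (mul_le_mul_of_nonneg_right e1 x0.le).trans (exp_le b1)
      have e4 := mul_le_mul_of_nonneg_left e3 H0
      rw [hH] at e4 ⊢
      linarith
  -- the good event
  have good := prod_le e D.bm (lev ℓ k) (fun j => Ev κ⁻¹ c2 θ ((ℓ : ℝ) ^ 2) (2 ^ ℓ) (nu ℓ k (j + 1))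
    (lev ℓ k j) (lev ℓ k (j + 1))) (ENNReal.ofReal (G * (ℓ : ℝ) ^ 20 / 2 ^ (2 * ℓ))) k
    (fun j => ss.meas _ _ _ _ _ _ _) (fun j => ss.dep _ _ _ _ _ _ _) fun j hj => by
      have h := hn j hj
      have n1 := h.ν1
      have p0 : (0 : ℝ) < 2 ^ ℓ := by positivity
      have r0 : (0 : ℝ) ≤ (ℓ : ℝ) ^ 2 := sq_nonneg _
      have M2 : 2 * lev ℓ k (j + 1) ≤ lev ℓ k j := by
        have := h.M8
        have := (lev ℓ k (j + 1)).cast_nonneg (α := ℝ)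
        exact_mod_cast (show 2 * (lev ℓ k (j + 1) : ℝ) ≤ lev ℓ k j by linarith)
      refine ⟨h.MN.le, isLoc_step ss _ _ h.θ0.le (by positivity) h.MN.le,
        (hs μ θ _ _ _ _ _ ((ℓ : ℝ) ^ 2) _ D.bm hθ M2 (by positivity) h.hN (by linarith [h.r2]) ?_
          (by positivity) le_rfl (by linarith [h.B_ge, h.rν, h.ar]) ?_ h.R0).trans
          (ENNReal.ofReal_le_ofReal ?_)⟩
      · have := mul_nonneg (zero_le_one.trans h1) r0
        linarith [h.p1.1, h.pν]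
      · have e1 := mul_le_mul_of_nonneg_left h.B_le (zero_le_one.trans h1)
        have e2 : 4 * c1 * (ℓ : ℝ) ^ 2 ≤ 2 ^ ℓ * 2 ^ ℓ :=
          h.p1.1.trans (le_mul_of_one_le_right p0.le (by linarith [h.p16]))
        have e3 := mul_le_mul_of_nonneg_right e2 (sq_nonneg (nu ℓ k (j + 1)))
        linarith
      · have e1 : c1 * (ℓ : ℝ) ^ 2 * (RR κ⁻¹ c2 θ ((ℓ : ℝ) ^ 2) (nu ℓ k (j + 1)) +
            (ℓ : ℝ) ^ 2 * √(BB ((ℓ : ℝ) ^ 2) (nu ℓ k (j + 1)))) / (2 ^ ℓ * nu ℓ k (j + 1)) ≤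
            c1 * (30 * κ⁻¹ + 2 * c2) * (ℓ : ℝ) ^ 6 / 2 ^ ℓ := by
          rw [div_le_div_iff₀ (by positivity) p0]
          have := mul_le_mul_of_nonneg_left h.R_le
            (show 0 ≤ c1 * (ℓ : ℝ) ^ 2 * 2 ^ ℓ by positivity)
          linarith
        have R0 := h.R0
        have e2 := pow_le_pow_left₀ (by positivity) e1 2
        have e3 : (2 ^ ℓ * nu ℓ k (j + 1)) ^ 2 * 2 ^ (2 * ℓ) ≤ 2 ^ (ℓ * (2 * k + 2)) := by
          rw [← nu_succ hj]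
          have := nu_one ℓ k j
          have e2 : nu ℓ k j ^ 2 ≤ (2 ^ (ℓ * k)) ^ 2 := by
            gcongr
            exact nu_le _ _ _
          refine (mul_le_mul_of_nonneg_right e2 (by positivity)).trans_eq ?_
          rw [← pow_mul, ← pow_add]
          congr 1
          ring
        have e4 := (mul_le_mul_of_nonneg_right e3 x0.le).trans (exp_le (by omega))
        have e5 : c1 * (2 ^ ℓ * nu ℓ k (j + 1)) ^ 2 * Real.exp (-(ℓ : ℝ) ^ 2) ≤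
            c1 * (ℓ : ℝ) ^ 20 / 2 ^ (2 * ℓ) := by
          rw [le_div_iff₀ (by positivity)]
          have := mul_le_mul_of_nonneg_left (e4.trans (one_le_pow₀ l1 (n := 20)))
            (zero_le_one.trans h1)
          linarith
        have e6 : (c1 * (30 * κ⁻¹ + 2 * c2) * (ℓ : ℝ) ^ 6 / 2 ^ ℓ) ^ 2 ≤
            (c1 * (30 * κ⁻¹ + 2 * c2)) ^ 2 * (ℓ : ℝ) ^ 20 / 2 ^ (2 * ℓ) := by
          rw [div_pow, mul_pow, ← pow_mul, ← pow_mul, mul_comm ℓ 2]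
          gcongr
          norm_num
        rw [hG, add_mul, add_div]
        exact add_le_add (e2.trans e6) e5
  have g2 := (at_le D good.2.1 t0).trans good.2.2.2
  have g3 := (measure_biUnion_finset_le (μ := P) (Finset.range k) _).trans
    (Finset.sum_le_card_nsmul _ _ _ fun j hj => bad j (Finset.mem_range.1 hj))
  refine le_trans (measure_mono ?_) ((measure_union_le _ _).trans ((add_le_add g3 g2).trans ?_))
  · rintro ω ⟨t, ht, x, hx, hloc⟩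
    by_contra hc
    rw [mem_union, not_or] at hc
    refine hc.2 fun j hj => step_mem sd (hn j hj) hx ?_ (hloc (j + 1) hj) fun u v hu hv hb => ?_
    · rw [← nu_succ hj]
      exact hloc j hj.le
    · exact hc.1 (mem_biUnion (Finset.mem_coe.2 (Finset.mem_range.2 hj)) ⟨u, v, hu, hv, t, ht, hb⟩)
  · rw [Finset.card_range, nsmul_eq_mul, ← ENNReal.ofReal_natCast,
      ← ENNReal.ofReal_mul (Nat.cast_nonneg _), ← ENNReal.ofReal_pow (by positivity),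
      ← ENNReal.ofReal_add (by positivity) (by positivity)]
    refine ENNReal.ofReal_le_ofReal ?_
    rw [div_pow, mul_pow, ← pow_mul, ← pow_mul, mul_assoc 2, add_mul, add_div, ← mul_div_assoc]
    refine add_le_add_left (div_le_div_of_nonneg_right ?_ (by positivity)) _
    exact le_mul_of_one_le_right (by positivity) (one_le_pow₀ l1)

end Pool.Agent.MP_3d8edd_pr.H69
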