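import Pool.Agent.MP_3d8edd_pr.H69.Basic

/-!
The two-sided Pitman theorem.
-/

open MeasureTheory ProbabilityTheory Set Filter
open scoped NNReal ENNReal Topology

namespace Pool.Agent.MP_3d8edd_pr.H69

namespace PitA

theorem rmax_shift {g : CP} (h : BddAbove (g '' Iic 0)) (c x : ℝ) :
    rmax (shift c g) x = rmax g (c + x) - g c := by
  rw [rmax_eq]
  refine IsLUB.csSup_eq ⟨?_, fun b hb => ?_⟩ ⟨_, x, le_refl x, rfl⟩
  · rintro _ ⟨z, hz, rfl⟩
    have := le_rmax h (add_le_add_right (mem_Iic.1 hz) c)
    simpa using this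
  · rw [sub_le_iff_le_add]
    refine rmax_le h fun z hz => ?_
    have := hb ⟨z - c, sub_le_iff_le_add'.2 hz, rfl⟩
    simpa [sub_le_iff_le_add] using this

theorem rmax_past (g : CP) {x : ℝ} (hx : x ≤ 0) : rmax (past g) x = rmax g x := by
  rw [rmax_eq, rmax_eq]
  congr 1
  exact image_congr fun z hz => by rw [past_apply, min_eq_left (hz.trans hx)]

theorem smax_fut (f : CP) (t : ℝ) : smax (fut f) t = smax f t := by
  unfold smax
  congr 1
  exact image_congr fun z hz => by rw [fut_apply, max_eq_left hz.1]

theorem pit_past {g : CP} (h : BddAbove (g '' Iic 0)) {c x y : ℝ} (hx : x ≤ c) (hy : y ≤ c) :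
    pit (past (shift c g)) (y - c) - pit (past (shift c g)) (x - c) = pit g y - pit g x := by
  have hx' := sub_nonpos.2 hx
  have hy' := sub_nonpos.2 hy
  simp only [pit_apply, rmax_past _ hx', rmax_past _ hy', rmax_shift h, past_apply,
    min_eq_left hx', min_eq_left hy', shift_apply, add_sub_cancel]
  ring

theorem rmax_split {g : CP} (h : BddAbove (g '' Iic 0)) {c c' : ℝ} (hc : c ≤ c') :
    rmax g c' - g c = max (rmax g c - g c) (smax (shift c g) (c' - c)) := by
  refine le_antisymm ?_ (max_le (sub_le_sub_right (rmax_mono h hc) _) ?_)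
  · rw [sub_le_iff_le_add]
    refine rmax_le h fun z hz => ?_
    rw [← sub_le_iff_le_add]
    rcases le_total z c with h1 | h1
    · exact le_max_of_le_left (sub_le_sub_right (le_rmax h h1) _)
    · refine le_max_of_le_right ?_
      have := le_smax (shift c g) (z := z - c) (t := c' - c) ⟨by linarith, by linarith⟩
      simpa using this
  · refine smax_le _ (by linarith) fun z hz => ?_
    exact sub_le_sub_right (le_rmax h (by linarith [hz.2])) _

/-- The maximum on the left half line is recovered from the right half of the transform. -/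
theorem recover {g : CP} (h : BddAbove (g '' Iic 0)) (h1 : ∃ y, 0 ≤ y ∧ rmax g 0 ≤ g y) :
    rmax (rot (fut (pit g))) 0 = rmax g 0 := by
  let S : Set ℝ := {y | 0 ≤ y ∧ rmax g 0 ≤ g y}
  have hS : IsClosed S :=
    (isClosed_le continuous_const continuous_id).inter (isClosed_le continuous_const g.continuous)
  have hb : BddBelow S := ⟨0, fun y hy => hy.1⟩
  have h2 : sInf S ∈ S := hS.csInf_mem h1 hb
  have h3 : ∀ z ≤ sInf S, g z ≤ rmax g 0 := by
    have : Iio (sInf S) ⊆ {z | g z ≤ rmax g 0} := fun z hz => by
      rcases le_total z 0 with h0 | h0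
      · exact le_rmax h h0
      · by_contra hc
        exact absurd (csInf_le hb ⟨h0, (not_le.1 hc).le⟩) (not_le.2 hz)
    have := closure_minimal this (isClosed_le g.continuous continuous_const)
    rw [closure_Iio] at this
    exact this
  have h4 : rmax g (sInf S) = rmax g 0 := le_antisymm (rmax_le h h3) (rmax_mono h h2.1)
  rw [rmax_eq]
  refine IsGreatest.csSup_eq ⟨⟨-sInf S, neg_nonpos.2 h2.1, ?_⟩, ?_⟩
  · simp only [rot_apply, fut_apply, neg_neg, max_eq_left h2.1, pit_apply, h4]
    linarith [h3 _ le_rfl, h2.2]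
  · rintro _ ⟨z, -, rfl⟩
    simp only [rot_apply, fut_apply, pit_apply]
    linarith [le_rmax h (le_refl (max (-z) 0)), rmax_mono h (le_max_right (-z) 0)]

variable {μ : Measure CP} {a : ℝ}

theorem mp_shift (b1 : Bm1) (h : IsBM μ a) (c : ℝ) : MeasurePreserving (shift c) μ μ :=
  ⟨measurable_shift c, b1.unique _ _ a (b1.shift μ a c h) h⟩

theorem step (b1 : Bm1) (s : SupStmt) (l : LocStmt) (h : IsBM μ a) (ha : 0 < a) {β : Type}
    [MeasurableSpace β] {ν : Measure β} [IsProbabilityMeasure ν] {A A' : CP → β}
    (hA' : Measurable A') {c c' : ℝ} (hc : c ≤ c') (hAA : ∀ᵐ g ∂μ, A' (past (shift c g)) = A g)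
    (hA : MeasurePreserving (fun g => (rmax g c - g c, A g)) μ ((expMeasure (2 * a)).prod ν)) :
    MeasurePreserving (fun g => (rmax g c' - g c', pit g c' - pit g c, A g)) μ
      ((expMeasure (2 * a)).prod
        ((gaussianReal (a * (c' - c)) (c' - c).toNNReal).prod ν)) := by
  have := h.prob
  have := isProbabilityMeasure_expMeasure (r := 2 * a) (by positivity)
  rcases hc.eq_or_lt with rfl | hc
  · have h1 : MeasurePreserving (fun b : β => ((0 : ℝ), b)) ν ((Measure.dirac 0).prod ν) :=
      ⟨by fun_prop, by rw [Measure.dirac_prod]⟩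
    simpa [Function.comp_def] using ((MeasurePreserving.id _).prod h1).comp hA
  have hb := (s μ a h ha).1
  have hAm : Measurable A := measurable_snd.comp hA.measurable
  have := Measure.isProbabilityMeasure_map (μ := μ) measurable_past.aemeasurable
  have := Measure.isProbabilityMeasure_map (μ := μ) measurable_fut.aemeasurable
  have p1 : MeasurePreserving (fun f => (past f, fut f)) μ ((μ.map past).prod (μ.map fut)) :=
    ⟨by fun_prop, b1.past_fut μ a h⟩
  have p2 : MeasurePreserving (fun f => (rmax f 0, A' f)) (μ.map past)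
      ((expMeasure (2 * a)).prod ν) := by
    refine ⟨by fun_prop, ?_⟩
    rw [← hA.map_eq]
    conv_lhs => rw [← (mp_shift b1 h c).map_eq]
    rw [Measure.map_map (by fun_prop) (by fun_prop), Measure.map_map (by fun_prop) (by fun_prop)]
    refine Measure.map_congr ?_
    filter_upwards [hb, hAA] with g h1 h2
    simp only [Function.comp_apply, h2, rmax_past _ le_rfl, rmax_shift h1, add_zero]
  have p3 : MeasurePreserving (fun p : ℝ × CP => (max p.1 (smax p.2 (c' - c)) - p.2 (c' - c),
      2 * (max p.1 (smax p.2 (c' - c)) - p.1) - p.2 (c' - c)))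
      ((expMeasure (2 * a)).prod (μ.map fut)) ((expMeasure (2 * a)).prod
        (gaussianReal (a * (c' - c)) (c' - c).toNNReal)) := by
    refine ⟨by fun_prop, ?_⟩
    have e : MeasurePreserving (Prod.map id fut) ((expMeasure (2 * a)).prod μ)
        ((expMeasure (2 * a)).prod (μ.map fut)) :=
      (MeasurePreserving.id _).prod ⟨measurable_fut, rfl⟩
    rw [← l μ a (c' - c) h ha (sub_pos.2 hc), ← e.map_eq,
      Measure.map_map (by fun_prop) (by fun_prop)]
    congr 1
    funext p
    simp [smax_fut, max_eq_left (sub_pos.2 hc).le]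
  have q := (measurePreserving_prodAssoc _ _ _).comp (Measure.measurePreserving_swap.comp
    (((MeasurePreserving.id ν).prod p3).comp ((measurePreserving_prodAssoc _ _ _).comp
      ((Measure.measurePreserving_swap.prod (MeasurePreserving.id _)).comp
        ((p2.prod (MeasurePreserving.id _)).comp (p1.comp (mp_shift b1 h c)))))))
  refine q.congr (by fun_prop) ?_
  filter_upwards [hb, hAA] with g h1 h2
  have e := rmax_split h1 hc.le
  simp only [Function.comp_apply, Prod.map_apply, Prod.swap_prod_mk, id_eq,
    MeasurableEquiv.prodAssoc, MeasurableEquiv.coe_mk, Equiv.prodAssoc_apply, h2,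
    rmax_past _ le_rfl, rmax_shift h1, add_zero, smax_fut, ← e, fut_apply,
    max_eq_left (sub_pos.2 hc).le, shift_apply, add_sub_cancel, pit_apply]
  refine Prod.ext ?_ (Prod.ext ?_ rfl)
  · simp only []
    ring
  · simp only []
    ring

theorem incr (b1 : Bm1) (s : SupStmt) (l : LocStmt) (h : IsBM μ a) (ha : 0 < a) (n : ℕ)
    (x : Fin (n + 1) → ℝ) (hx : Monotone x) :
    MeasurePreserving (fun g => (rmax g (x (Fin.last n)) - g (x (Fin.last n)),
      fun i : Fin n => pit g (x i.succ) - pit g (x i.castSucc))) μ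
      ((expMeasure (2 * a)).prod (Measure.pi fun i : Fin n =>
        gaussianReal (a * (x i.succ - x i.castSucc)) (x i.succ - x i.castSucc).toNNReal)) := by
  have := h.prob
  have := isProbabilityMeasure_expMeasure (r := 2 * a) (by positivity)
  have hb := (s μ a h ha).1
  induction n with
  | zero =>
    have p1 : MeasurePreserving (fun g : CP => rmax g 0) μ (expMeasure (2 * a)) :=
      ⟨by fun_prop, (s μ a h ha).2⟩
    have p2 : MeasurePreserving (fun q : ℝ => (q, (isEmptyElim : Fin 0 → ℝ))) (expMeasure (2 * a))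
        ((expMeasure (2 * a)).prod (Measure.dirac isEmptyElim)) :=
      ⟨by fun_prop, by rw [Measure.prod_dirac]⟩
    rw [Measure.pi_of_empty]
    refine (p2.comp (p1.comp (mp_shift b1 h (x (Fin.last 0))))).congr (by fun_prop) ?_
    filter_upwards [hb] with g h1
    refine Prod.ext ?_ (Subsingleton.elim _ _)
    simp only [Function.comp_apply, rmax_shift h1, add_zero]
  | succ n ih =>
    have h1 := ih (fun i => x i.castSucc) fun i j hij => hx (Fin.castSucc_le_castSucc_iff.2 hij)
    have hle : ∀ i : Fin (n + 1), x i.castSucc ≤ x (Fin.last n).castSucc := fun i =>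
      hx (Fin.castSucc_le_castSucc_iff.2 (Fin.le_last i))
    have h2 := step b1 s l h ha (c := x (Fin.last n).castSucc) (c' := x (Fin.last (n + 1)))
      (A' := fun f (i : Fin n) => pit f (x i.succ.castSucc - x (Fin.last n).castSucc) -
        pit f (x i.castSucc.castSucc - x (Fin.last n).castSucc)) (by fun_prop)
      (hx (Fin.le_last _)) (hb.mono fun g hg => funext fun i => pit_past hg (hle _) (hle _)) h1
    have h3 := (measurePreserving_piFinSuccAbove (fun i : Fin (n + 1) =>
      gaussianReal (a * (x i.succ - x i.castSucc)) (x i.succ - x i.castSucc).toNNReal)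
      (Fin.last n)).symm
    simp only [Fin.succAbove_last, Fin.succ_last, Fin.succ_castSucc] at h3
    refine (((MeasurePreserving.id _).prod h3).comp h2).congr (by fun_prop)
      (ae_of_all _ fun g => Prod.ext rfl ?_)
    refine (MeasurableEquiv.symm_apply_eq _).2 (Prod.ext rfl (funext fun i => ?_))
    simp [MeasurableEquiv.piFinSuccAbove, Fin.init]

end PitA

open PitA in
theorem pitS (b1 : Bm1) (b2 : Bm2) (rf : Ref) (s : SupStmt) (l : LocStmt) : PitStmt := by
  intro μ a h ha
  have := h.prob
  have := isProbabilityMeasure_expMeasure (r := 2 * a) (by positivity)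
  have := Measure.isProbabilityMeasure_map (μ := μ) measurable_pit.aemeasurable
  have := Measure.isProbabilityMeasure_map (μ := μ) measurable_past.aemeasurable
  have := Measure.isProbabilityMeasure_map (μ := μ) measurable_fut.aemeasurable
  have h1 : μ.map pit = μ := by
    refine b2.of_incr μ _ a h ?_ fun n x hx => ?_
    · rw [ae_map_iff measurable_pit.aemeasurable
        (measurableSet_eq_fun (measurable_ev 0) measurable_const)]
      filter_upwards [b1.zero μ a h] with g hg
      simp [pit_apply, hg]
    · rw [Measure.map_map (by fun_prop) measurable_pit]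
      exact (measurePreserving_snd.comp (incr b1 s l h ha n x hx)).map_eq
  refine ⟨h1, ?_⟩
  have hrec : ∀ᵐ g ∂μ, rmax (rot (fut (pit g))) 0 = rmax g 0 := by
    filter_upwards [(s μ a h ha).1, rf.lln μ a h] with g hb hl
    obtain ⟨C, hC⟩ := hl (a / 2) (by positivity)
    refine recover hb ⟨max 0 (2 * (rmax g 0 + C) / a), le_max_left _ _, ?_⟩
    have h2 := (abs_le.1 (hC (max 0 (2 * (rmax g 0 + C) / a)))).1
    rw [abs_of_nonneg (le_max_left _ _)] at h2
    have h3 := (div_le_iff₀ ha).1 (le_max_right 0 (2 * (rmax g 0 + C) / a))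
    linarith
  have p0 : MeasurePreserving pit μ μ := ⟨measurable_pit, h1⟩
  have p1 : MeasurePreserving (fun f => (past f, fut f)) μ ((μ.map past).prod (μ.map fut)) :=
    ⟨by fun_prop, b1.past_fut μ a h⟩
  have p2 : MeasurePreserving (fun f => rmax (rot f) 0) (μ.map fut) (expMeasure (2 * a)) := by
    refine ⟨by fun_prop, ?_⟩
    rw [← (s μ a h ha).2]
    conv_lhs => rw [← h1]
    rw [Measure.map_map (by fun_prop) (by fun_prop), Measure.map_map (by fun_prop) (by fun_prop)]
    exact Measure.map_congr hrec
  have q := Measure.measurePreserving_swap.comp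
    (((MeasurePreserving.id _).prod p2).comp (p1.comp p0))
  refine (q.congr (by fun_prop) ?_).map_eq
  filter_upwards [hrec] with g hg
  exact Prod.ext hg rfl

end Pool.Agent.MP_3d8edd_pr.H69
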