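import Pool.Agent.MP_3d8edd_pr.H69.Basic

/-!
Row RAY: almost surely no geodesic ends in a horizontal ray, at any time.
-/

open MeasureTheory ProbabilityTheory Set Filter
open scoped NNReal ENNReal Topology

namespace Pool.Agent.MP_3d8edd_pr.H69

universe u

namespace RayA

section Tools
variable {α : Type*} [MeasurableSpace α] {P : Measure α}

theorem union_le {A B : Set α} {a b : ℝ} (hA : P A ≤ ENNReal.ofReal a)
    (hB : P B ≤ ENNReal.ofReal b) (ha : 0 ≤ a) (hb : 0 ≤ b) :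
    P (A ∪ B) ≤ ENNReal.ofReal (a + b) := by
  rw [ENNReal.ofReal_add ha hb]
  exact (measure_union_le _ _).trans (add_le_add hA hB)

theorem biUnion_le {ι : Type*} (s : Finset ι) {A : ι → Set α} {a : ℝ}
    (h : ∀ i ∈ s, P (A i) ≤ ENNReal.ofReal a) :
    P (⋃ i ∈ s, A i) ≤ ENNReal.ofReal (s.card * a) := by
  refine (measure_biUnion_finset_le s A).trans ((Finset.sum_le_sum h).trans ?_)
  rw [Finset.sum_const, nsmul_eq_mul, ENNReal.ofReal_mul (Nat.cast_nonneg _),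
    ENNReal.ofReal_natCast]

end Tools

/-- The constant in the static estimate. -/
noncomputable def c0 : ℝ := (gaussianReal 0 1 (Iic 3)).toReal

theorem c0_nonneg : 0 ≤ c0 := ENNReal.toReal_nonneg

theorem c0_eq : gaussianReal 0 1 (Iic 3) = ENNReal.ofReal c0 := by
  rw [c0, ENNReal.ofReal_toReal (measure_ne_top _ _)]

theorem c0_lt : c0 < 1 := by
  have h1 : gaussianReal 0 1 (Ioi 3) ≠ 0 := by
    intro h
    have := gaussianReal_absolutelyContinuous' 0 (v := 1) one_ne_zero h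
    simp at this
  have h2 : gaussianReal 0 1 (Iic 3) + gaussianReal 0 1 (Ioi 3) = 1 := by
    rw [← compl_Iic]
    exact prob_add_prob_compl measurableSet_Iic
  have h3 : gaussianReal 0 1 (Iic 3) < 1 := by
    rw [← h2]
    exact ENNReal.lt_add_right (measure_ne_top _ _) h1
  rw [c0_eq] at h3
  exact ENNReal.ofReal_lt_one.1 h3

theorem gauss_le {v b : ℝ} (hv : 0 < v) (hb : b ≤ 3 * √v) :
    gaussianReal 0 v.toNNReal (Iic b) ≤ ENNReal.ofReal c0 := by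
  have h1 := gaussianReal_map_const_mul (μ := 0) (v := 1) (√v)
  have h2 : (NNReal.mk (√v ^ 2) (sq_nonneg _)) * 1 = v.toNNReal := by
    ext
    simp [Real.sq_sqrt hv.le, hv.le]
  rw [mul_zero, h2] at h1
  rw [← h1, Measure.map_apply (by fun_prop) measurableSet_Iic, ← c0_eq]
  refine measure_mono fun x hx => ?_
  have hs : 0 < √v := Real.sqrt_pos.2 hv
  have : √v * x ≤ b := hx
  show x ≤ 3
  nlinarith

/-- The static estimate for one Brownian motion. -/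
theorem static_bm (b2 : Bm2) (rf : Ref) {μ : Measure CP} (hμ : IsBM μ 0) (c ρ : ℝ) (K : ℕ)
    (D : ℕ → ℝ) (hρ : 2 ≤ ρ) (hD0 : ∀ i, 0 < D i) (hD : ∀ i, D (i + 1) = ρ * D i) :
    μ {f | ∀ i ≤ K, f (c + D i) - f c ≤ √(D i)} ≤
      ENNReal.ofReal (c0 ^ K + K * (4 * Real.exp (-(ρ / 2)))) := by
  have := hμ.prob
  have hsub : {f : CP | ∀ i ≤ K, f (c + D i) - f c ≤ √(D i)} ⊆
      {f : CP | ∀ i : Fin K, f (c + D i.succ) - f (c + D i.castSucc) ≤ 2 * √(D i.succ)} ∪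
        ⋃ i ∈ Finset.range K,
          {f : CP | ∃ x ∈ Icc c (c + D i), √(D (i + 1)) + |(0 : ℝ)| * D i < |f x - f c|} := by
    intro f hf
    by_contra hc
    rw [mem_union, not_or] at hc
    apply hc.1
    intro i
    have h1 := hf (i + 1) i.2
    have h2 : ¬ (√(D (i + 1)) + |(0 : ℝ)| * D i < |f (c + D i) - f c|) := fun h =>
      hc.2 (mem_biUnion (Finset.mem_coe.2 (Finset.mem_range.2 i.2))
        ⟨c + D i, ⟨by linarith [hD0 i], le_rfl⟩, h⟩)
    rw [abs_zero, zero_mul, add_zero, not_lt, abs_le] at h2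
    simp only [Fin.val_succ, Fin.val_castSucc]
    linarith [h2.1]
  refine (measure_mono hsub).trans (union_le ?_ ?_ (pow_nonneg c0_nonneg _) (by positivity))
  · have hm : Monotone fun i : Fin (K + 1) => c + D i := by
      have : Monotone D := monotone_nat_of_le_succ fun i => by
        rw [hD]; nlinarith [hD0 i]
      exact fun i j hij => add_le_add_right (this hij) c
    have h1 := b2.incr μ 0 K (fun i => c + D i) hμ hm
    have h2 : {f : CP | ∀ i : Fin K, f (c + D i.succ) - f (c + D i.castSucc) ≤ 2 * √(D i.succ)} =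
        (fun (f : CP) (i : Fin K) => f (c + D i.succ) - f (c + D i.castSucc)) ⁻¹'
          (univ.pi fun i : Fin K => Iic (2 * √(D i.succ))) := by
      ext f; simp only [mem_ofPred_eq, mem_preimage, mem_univ_pi, mem_Iic]
    rw [h2, ← Measure.map_apply (by fun_prop) (MeasurableSet.univ_pi fun _ => measurableSet_Iic),
      h1, Measure.pi_pi, ENNReal.ofReal_pow c0_nonneg]
    refine (Finset.prod_le_pow_card _ _ (ENNReal.ofReal c0) fun i _ => ?_).trans (by simp)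
    rw [zero_mul]
    have h3 : D i.succ = ρ * D i.castSucc := hD i
    have h4 := hD0 i.castSucc
    refine gauss_le (by rw [h3]; nlinarith) ?_
    rw [← Real.sqrt_sq (show (0 : ℝ) ≤ 2 by norm_num),
      ← Real.sqrt_sq (show (0 : ℝ) ≤ 3 by norm_num), ← Real.sqrt_mul (by norm_num),
      ← Real.sqrt_mul (by norm_num)]
    refine Real.sqrt_le_sqrt ?_
    rw [h3]; nlinarith
  · have := biUnion_le (P := μ) (Finset.range K)
      (A := fun i => {f : CP | ∃ x ∈ Icc c (c + D i),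
        √(D (i + 1)) + |(0 : ℝ)| * D i < |f x - f c|}) (a := 4 * Real.exp (-(ρ / 2)))
      fun i _ => by
        refine (rf.osc μ 0 c (D i) (√(D (i + 1))) hμ (hD0 i) (Real.sqrt_nonneg _)).trans ?_
        rw [Real.sq_sqrt (hD0 _).le, hD]
        have := (hD0 i).ne'
        refine le_of_eq ?_
        congr 3
        field_simp
    rwa [Finset.card_range] at this

/-- The static estimate for the difference of two lines. -/
theorem static_env (b2 : Bm2) (rf : Ref) (e : EnvA) {μ : Measure CP} (hμ : IsBM μ 0) (m : ℤ)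
    (c ρ : ℝ) (K : ℕ) (D : ℕ → ℝ) (hρ : 2 ≤ ρ) (hD0 : ∀ i, 0 < D i)
    (hD : ∀ i, D (i + 1) = ρ * D i) :
    PP μ {ω | ∀ i ≤ K, (ω m (c + D i) - ω m c) - (ω (m + 1) (c + D i) - ω (m + 1) c) ≤ √(D i)} ≤
      ENNReal.ofReal (c0 ^ K + K * (4 * Real.exp (-(ρ / 2)))) := by
  obtain ⟨μ', ν', h1, h2, h3⟩ := b2.pair μ μ 0 0 hμ hμ
  rw [sub_zero, zero_div] at h1
  have := h2.prob
  have := h1.prob
  have p1 := e.eval2 μ m (m + 1) hμ (by omega)
  have p2 : MeasurePreserving (fun p : CP × CP =>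
      ((√2)⁻¹ • (p.1 - p.2), (√2)⁻¹ • (p.1 + p.2))) (μ.prod μ) (μ'.prod ν') :=
    ⟨by fun_prop, h3⟩
  have p3 := (measurePreserving_fst.comp p2).comp p1
  refine le_trans (measure_mono ?_) ((preimage_le p3 _).trans
    (static_bm b2 rf h1 c ρ K D hρ hD0 hD))
  intro ω hω i hi
  have h4 := hω i hi
  show (√2)⁻¹ * (ω m (c + D i) - ω (m + 1) (c + D i)) - (√2)⁻¹ * (ω m c - ω (m + 1) c) ≤ _
  have h5 : (√2)⁻¹ ≤ 1 := inv_le_one_of_one_le₀ (Real.one_le_sqrt.2 (by norm_num))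
  have h6 : 0 ≤ (√2)⁻¹ := by positivity
  have h7 := Real.sqrt_nonneg (D i)
  nlinarith [mul_le_mul_of_nonneg_left h4 h6]

section Dynamic
variable {Ω : Type u} [MeasurableSpace Ω] {P : Measure Ω} {μ : Measure CP} {W : ℝ → Ω → Env}

theorem osc_dyn (rf : Ref) (e : EnvA) (h : Dyn P μ W) (j n : ℤ) (t0 s r : ℝ) (hs : 0 ≤ s)
    (hs1 : s ≤ 1) (hr : 0 ≤ r) :
    P {ω | ∃ t ∈ Icc t0 (t0 + s), ∃ x ∈ Icc (n : ℝ) (n + 1), r < |W t ω j x - W t ω j n|} ≤
      ENNReal.ofReal (8 * Real.exp (-(r ^ 2 / 2))) := by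
  have hl : Loc {ω : Env | ∃ x ∈ Icc (n : ℝ) (n + 1), r < |ω j x - ω j n|} (j - 1) j n
      ((n + 1 : ℤ) : ℝ) := by
    rintro ω ω' ha ⟨x, hx, h1⟩
    refine ⟨x, hx, ?_⟩
    rw [← ha j (by omega) le_rfl n ⟨le_rfl, by push_cast; linarith⟩ x (by push_cast; exact hx)]
    exact h1
  refine (h.union _ (j - 1) j n (n + 1) t0 s (by omega) (by omega) hs hl).trans ?_
  have h1 := rf.osc μ 0 n 1 r h.bm one_pos hr
  have h2 := (preimage_le (e.eval μ j h.bm) _).trans h1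
  simp only [abs_zero, add_zero, mul_one] at h2
  refine (mul_le_mul' le_rfl h2).trans ?_
  rw [← ENNReal.ofReal_mul (by push_cast; linarith)]
  refine ENNReal.ofReal_le_ofReal ?_
  rw [neg_div]
  push_cast
  nlinarith [Real.exp_pos (-(r ^ 2 / 2))]

theorem move_dyn (d1 : Det1) (h : Dyn P μ W) (j n : ℤ) (D : ℕ) (t0 s r : ℝ) (hs : 0 ≤ s)
    (hs1 : s ≤ 1) (hr : 0 ≤ r) :
    P {ω | ∃ t ∈ Icc t0 (t0 + s), r * (1 + √(s * D)) <
        |(W t ω j (n + D) - W t ω j n) - (W t0 ω j (n + D) - W t0 ω j n)|} ≤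
      ENNReal.ofReal (10 ^ 6 * (1 + D) ^ 2 * Real.exp (-r)) := by
  have h1 := h.move (j - 1) j n (n + D) t0 s r (by omega) (by omega) hs hs1 hr
  have h2 : ∀ ω : Env, T ω (j - 1) j n ((n + D : ℤ) : ℝ) = ω j (n + D) - ω j n := by
    intro ω
    have := d1.single ω (j - 1) n ((n + D : ℤ) : ℝ)
      (by push_cast; linarith [Nat.cast_nonneg (α := ℝ) D])
    rw [sub_add_cancel] at this
    rw [this]; push_cast; rfl
  simp only [h2] at h1
  push_cast at h1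
  simpa only [add_sub_cancel_left, sub_sub_cancel, one_mul] using h1

/-- The estimate on one short time interval. -/
theorem interval (d1 : Det1) (b2 : Bm2) (rf : Ref) (e : EnvA) (h : Dyn P μ W) (m n : ℤ)
    (t0 s r : ℝ) (K ρ : ℕ) (D : ℕ → ℕ) (hs : 0 ≤ s) (hs1 : s ≤ 1) (hr : 0 ≤ r)
    (hsr : 16 * r ^ 2 * s ≤ 1) (hρ : 2 ≤ ρ) (hD0 : ∀ i, 1 ≤ D i) (hD1 : ∀ i, 64 * r ^ 2 ≤ D i)
    (hD : ∀ i, D (i + 1) = ρ * D i) :
    P {ω | ∃ t ∈ Icc t0 (t0 + s), ∃ x ∈ Icc (n : ℝ) (n + 1), ∀ z, x ≤ z →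
        W t ω m z - W t ω (m + 1) z ≤ W t ω m x - W t ω (m + 1) x} ≤
      ENNReal.ofReal (16 * Real.exp (-(r ^ 2 / 2)) +
        (K + 1) * (2 * (10 ^ 6 * (1 + D K) ^ 2 * Real.exp (-r))) +
        (c0 ^ K + K * (4 * Real.exp (-((ρ : ℝ) / 2))))) := by
  have hmono : Monotone D := monotone_nat_of_le_succ fun i => by
    rw [hD]; nlinarith [hD0 i]
  let A : ℤ → Set Ω := fun j => {ω | ∃ t ∈ Icc t0 (t0 + s), ∃ x ∈ Icc (n : ℝ) (n + 1),
    r < |W t ω j x - W t ω j n|}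
  let B : ℤ → ℕ → Set Ω := fun j i => {ω | ∃ t ∈ Icc t0 (t0 + s), r * (1 + √(s * D i)) <
    |(W t ω j (n + D i) - W t ω j n) - (W t0 ω j (n + D i) - W t0 ω j n)|}
  let E : Set Env := {ω | ∀ i ≤ K,
    (ω m (n + D i) - ω m n) - (ω (m + 1) (n + D i) - ω (m + 1) n) ≤ √(D i)}
  have hA : P (A m ∪ A (m + 1)) ≤ ENNReal.ofReal (16 * Real.exp (-(r ^ 2 / 2))) := by
    have := union_le (osc_dyn rf e h m n t0 s r hs hs1 hr)
      (osc_dyn rf e h (m + 1) n t0 s r hs hs1 hr) (by positivity) (by positivity)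
    refine this.trans (le_of_eq ?_)
    congr 1; ring
  have hB : P (⋃ i ∈ Finset.range (K + 1), (B m i ∪ B (m + 1) i)) ≤
      ENNReal.ofReal ((K + 1) * (2 * (10 ^ 6 * (1 + D K) ^ 2 * Real.exp (-r)))) := by
    have := biUnion_le (P := P) (Finset.range (K + 1)) (A := fun i => B m i ∪ B (m + 1) i)
      (a := 2 * (10 ^ 6 * (1 + D K) ^ 2 * Real.exp (-r))) fun i hi => by
        refine (union_le (move_dyn d1 h m n (D i) t0 s r hs hs1 hr)
          (move_dyn d1 h (m + 1) n (D i) t0 s r hs hs1 hr) (by positivity)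
          (by positivity)).trans (ENNReal.ofReal_le_ofReal ?_)
        have h1 : (D i : ℝ) ≤ D K := by
          exact_mod_cast hmono (Nat.lt_succ_iff.1 (Finset.mem_range.1 hi))
        rw [← two_mul]
        gcongr
    rwa [Finset.card_range, Nat.cast_add, Nat.cast_one] at this
  have hE : P {ω | W t0 ω ∈ E} ≤
      ENNReal.ofReal (c0 ^ K + K * (4 * Real.exp (-((ρ : ℝ) / 2)))) := by
    have hl : Loc E (m - 1) (m + 1) n ((n + D K : ℤ) : ℝ) := by
      intro ω ω' ha h1 i hi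
      have h2 : (D i : ℝ) ≤ D K := by exact_mod_cast hmono hi
      have h3 : (0 : ℝ) ≤ D i := Nat.cast_nonneg _
      have h4 : (n : ℝ) ∈ Icc (n : ℝ) ((n + D K : ℤ) : ℝ) := ⟨le_rfl, by push_cast; linarith⟩
      have h5 : (n : ℝ) + D i ∈ Icc (n : ℝ) ((n + D K : ℤ) : ℝ) :=
        ⟨by linarith, by push_cast; linarith⟩
      rw [← ha m (by omega) (by omega) n h4 _ h5, ← ha (m + 1) (by omega) le_rfl n h4 _ h5]
      exact h1 i hi
    have h1 := h.union E (m - 1) (m + 1) n (n + D K) t0 0 (by omega) (by omega) le_rfl hl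
    rw [mul_zero, add_zero, add_zero, ENNReal.ofReal_one, one_mul] at h1
    refine le_trans (measure_mono ?_) (h1.trans (static_env b2 rf e h.bm m n ρ K
      (fun i => D i) (by exact_mod_cast hρ) (fun i => by exact_mod_cast hD0 i)
      fun i => by rw [hD]; push_cast; rfl))
    exact fun ω hω => ⟨t0, ⟨le_rfl, le_rfl⟩, hω⟩
  refine le_trans (measure_mono ?_) (union_le (union_le hA hB (by positivity) (by positivity)) hE
    (by positivity) (add_nonneg (pow_nonneg c0_nonneg _) (by positivity)))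
  rintro ω ⟨t, ht, x, hx, hz⟩
  by_contra hc
  simp only [mem_union, not_or] at hc
  obtain ⟨⟨⟨a1, a2⟩, a3⟩, a4⟩ := hc
  apply a4
  intro i hi
  have b1 : |W t ω m x - W t ω m n| ≤ r := not_lt.1 fun h => a1 ⟨t, ht, x, hx, h⟩
  have b2 : |W t ω (m + 1) x - W t ω (m + 1) n| ≤ r := not_lt.1 fun h => a2 ⟨t, ht, x, hx, h⟩
  have hi' : i ∈ ((Finset.range (K + 1) : Finset ℕ) : Set ℕ) :=
    Finset.mem_coe.2 (Finset.mem_range.2 (Nat.lt_succ_of_le hi))
  have b3 := not_lt.1 fun h => a3 (mem_biUnion hi' (Or.inl ⟨t, ht, h⟩))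
  have b4 := not_lt.1 fun h => a3 (mem_biUnion hi' (Or.inr ⟨t, ht, h⟩))
  have hD' : (1 : ℝ) ≤ D i := by exact_mod_cast hD0 i
  have b5 := hz (n + D i) (by linarith [hx.2])
  have c1 : 8 * r ≤ √(D i) := Real.le_sqrt_of_sq_le (by linarith [hD1 i])
  have c2 : 4 * (r * √(s * D i)) ≤ √(D i) := by
    refine Real.le_sqrt_of_sq_le ?_
    rw [mul_pow, mul_pow, Real.sq_sqrt (by positivity)]
    nlinarith
  rw [abs_le] at b1 b2 b3 b4
  linarith [b1.2, b2.1, b3.1, b4.2]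

theorem cover {q t : ℝ} {L : ℕ} (hL : 0 < L) (ht : t ∈ Icc q (q + 1)) :
    ∃ p ∈ Finset.range (L + 1), t ∈ Icc (q + p / L) (q + p / L + (L : ℝ)⁻¹) := by
  have hL' : (0 : ℝ) < L := by exact_mod_cast hL
  have h0 : 0 ≤ (t - q) * L := mul_nonneg (by linarith [ht.1]) hL'.le
  refine ⟨⌊(t - q) * L⌋₊, Finset.mem_range.2 (Nat.lt_succ_of_le (Nat.floor_le_of_le ?_)), ?_, ?_⟩
  · nlinarith [ht.2]
  · have := (div_le_iff₀ hL').2 (Nat.floor_le h0)
    linarith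
  · have h1 := (Nat.lt_floor_add_one ((t - q) * L)).le
    have h2 := (le_div_iff₀ hL').2 h1
    rw [add_div, one_div] at h2
    linarith

theorem numeric (k : ℕ) (hk : 3 ≤ k) (θ : ℝ) (h1 : c0 ≤ θ) (h2 : Real.exp (-(1 / 2)) ≤ θ) :
    ((16 * k ^ 6 + 1 : ℕ) : ℝ) * (16 * Real.exp (-(((k : ℝ) ^ 3) ^ 2 / 2)) +
        (k + 1) * (2 * (10 ^ 6 * (1 + (64 * k ^ 6 * k ^ k : ℕ)) ^ 2 * Real.exp (-(k : ℝ) ^ 3))) +
        (c0 ^ k + k * (4 * Real.exp (-((k : ℝ) / 2))))) ≤ 10 ^ 13 * (k ^ 19 * θ ^ k) := by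
  have hk' : (3 : ℝ) ≤ k := by exact_mod_cast hk
  have hk1 : (1 : ℝ) ≤ k := by linarith
  have hθ : 0 < θ := (Real.exp_pos _).trans_le h2
  have e1 : Real.exp (-((k : ℝ) / 2)) ≤ θ ^ k := by
    refine le_trans (le_of_eq ?_) (pow_le_pow_left₀ (Real.exp_pos _).le h2 k)
    rw [← Real.exp_nat_mul]; congr 1; ring
  have e2 : c0 ^ k ≤ θ ^ k := pow_le_pow_left₀ c0_nonneg h1 k
  have p6 : (k : ℝ) ≤ k ^ 6 := le_self_pow₀ hk1 (by norm_num)
  have e3 : Real.exp (-(((k : ℝ) ^ 3) ^ 2 / 2)) ≤ θ ^ k := by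
    refine le_trans (Real.exp_le_exp.2 ?_) e1
    have : ((k : ℝ) ^ 3) ^ 2 = k ^ 6 := by ring
    linarith
  have e4 : (k : ℝ) ^ k ≤ Real.exp (k ^ 2) := by
    have : (k : ℝ) ≤ Real.exp k := by linarith [Real.add_one_le_exp (k : ℝ)]
    refine (pow_le_pow_left₀ (by linarith) this k).trans (le_of_eq ?_)
    rw [← Real.exp_nat_mul]; congr 1; ring
  have e5 : (1 : ℝ) ≤ k ^ 6 * k ^ k := one_le_mul_of_one_le_of_one_le (one_le_pow₀ hk1)
    (one_le_pow₀ hk1)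
  have e6 : (1 + ((64 * k ^ 6 * k ^ k : ℕ) : ℝ)) ≤ 65 * (k ^ 6 * Real.exp (k ^ 2)) := by
    push_cast
    have : (k : ℝ) ^ 6 * k ^ k ≤ k ^ 6 * Real.exp (k ^ 2) := by gcongr
    linarith
  have e7 : Real.exp (k ^ 2) ^ 2 * Real.exp (-(k : ℝ) ^ 3) ≤ θ ^ k := by
    refine le_trans ?_ e1
    rw [← Real.exp_nat_mul, ← Real.exp_add]
    refine Real.exp_le_exp.2 ?_
    push_cast
    nlinarith [mul_nonneg (sub_nonneg.2 hk') (sq_nonneg (k : ℝ))]
  have e8 : (1 + ((64 * k ^ 6 * k ^ k : ℕ) : ℝ)) ^ 2 * Real.exp (-(k : ℝ) ^ 3) ≤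
      65 ^ 2 * (k ^ 12 * θ ^ k) := by
    calc _ ≤ (65 * (k ^ 6 * Real.exp (k ^ 2))) ^ 2 * Real.exp (-(k : ℝ) ^ 3) := by gcongr
      _ = 65 ^ 2 * (k ^ 12 * (Real.exp (k ^ 2) ^ 2 * Real.exp (-(k : ℝ) ^ 3))) := by ring
      _ ≤ _ := by gcongr
  have f1 : ((16 * k ^ 6 + 1 : ℕ) : ℝ) ≤ 17 * k ^ 6 := by
    push_cast
    linarith [one_le_pow₀ (n := 6) hk1]
  have t0 : 0 ≤ θ ^ k := by positivity
  have p13 : (k : ℝ) ≤ k ^ 13 := le_self_pow₀ hk1 (by norm_num)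
  have g1 : θ ^ k ≤ k ^ 13 * θ ^ k := le_mul_of_one_le_left t0 (one_le_pow₀ hk1)
  have g2 : k * θ ^ k ≤ k ^ 13 * θ ^ k := by gcongr
  have g3 : ((k : ℝ) + 1) * (2 * (10 ^ 6 * (1 + ((64 * k ^ 6 * k ^ k : ℕ) : ℝ)) ^ 2 *
      Real.exp (-(k : ℝ) ^ 3))) ≤ 4 * 10 ^ 6 * 65 ^ 2 * (k ^ 13 * θ ^ k) := by
    calc _ = (k + 1) * (2 * 10 ^ 6 * ((1 + ((64 * k ^ 6 * k ^ k : ℕ) : ℝ)) ^ 2 *
          Real.exp (-(k : ℝ) ^ 3))) := by ring
      _ ≤ (2 * k) * (2 * 10 ^ 6 * (65 ^ 2 * (k ^ 12 * θ ^ k))) := by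
          gcongr
          linarith
      _ = _ := by ring
  have g4 : k * (4 * Real.exp (-((k : ℝ) / 2))) ≤ 4 * (k * θ ^ k) := by
    calc _ = 4 * (k * Real.exp (-((k : ℝ) / 2))) := by ring
      _ ≤ _ := by gcongr
  calc _ ≤ (17 * k ^ 6) * (10 ^ 11 * (k ^ 13 * θ ^ k)) := by
        have : 0 ≤ c0 ^ k := pow_nonneg c0_nonneg _
        gcongr
        linarith
    _ = 17 * 10 ^ 11 * (k ^ 19 * θ ^ k) := by ring
    _ ≤ _ := by
        gcongr
        norm_num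

theorem null (d1 : Det1) (b2 : Bm2) (rf : Ref) (e : EnvA) (h : Dyn P μ W) (m n q : ℤ) :
    P {ω | ∃ t ∈ Icc (q : ℝ) (q + 1), ∃ x ∈ Icc (n : ℝ) (n + 1), ∀ z, x ≤ z →
        W t ω m z - W t ω (m + 1) z ≤ W t ω m x - W t ω (m + 1) x} = 0 := by
  set θ := max c0 (Real.exp (-(1 / 2))) with hθ
  have hθ0 : 0 ≤ θ := c0_nonneg.trans (le_max_left _ _)
  have hθ1 : θ < 1 := max_lt c0_lt (Real.exp_lt_one_iff.2 (by norm_num))
  have hlim : Tendsto (fun k : ℕ => ENNReal.ofReal (10 ^ 13 * ((k : ℝ) ^ 19 * θ ^ k))) atTop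
      (𝓝 0) := by
    have := ENNReal.tendsto_ofReal ((tendsto_pow_const_mul_const_pow_of_abs_lt_one 19
      (r := θ) (by rwa [abs_of_nonneg hθ0])).const_mul (10 ^ 13))
    simpa using this
  refine le_antisymm (ge_of_tendsto hlim (eventually_atTop.2 ⟨3, fun k hk => ?_⟩)) zero_le
  have hk' : (3 : ℝ) ≤ k := by exact_mod_cast hk
  have hL : 0 < 16 * k ^ 6 := by positivity
  have hL1 : (1 : ℝ) ≤ ((16 * k ^ 6 : ℕ) : ℝ) := by exact_mod_cast hL
  have key := biUnion_le (P := P) (Finset.range (16 * k ^ 6 + 1)) fun p _ =>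
    interval d1 b2 rf e h m n (q + (p : ℕ) / ((16 * k ^ 6 : ℕ) : ℝ)) ((16 * k ^ 6 : ℕ) : ℝ)⁻¹
      ((k : ℝ) ^ 3) k k (fun i => 64 * k ^ 6 * k ^ i) (by positivity)
      (inv_le_one_of_one_le₀ hL1) (by positivity)
      (by
        have : 16 * ((k : ℝ) ^ 3) ^ 2 = ((16 * k ^ 6 : ℕ) : ℝ) := by push_cast; ring
        rw [this, mul_inv_cancel₀ (by linarith)])
      (by omega) (fun i => Nat.succ_le_of_lt (by positivity))
      (fun i => by
        push_cast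
        have : (1 : ℝ) ≤ k ^ i := one_le_pow₀ (by linarith)
        have h2 : (0 : ℝ) ≤ k ^ 6 := by positivity
        nlinarith)
      (fun i => by ring)
  rw [Finset.card_range] at key
  refine le_trans (measure_mono ?_) (key.trans (ENNReal.ofReal_le_ofReal
    (numeric k hk θ (le_max_left _ _) (le_max_right _ _))))
  rintro ω ⟨t, ht, hx⟩
  obtain ⟨p, hp, hp'⟩ := cover hL ht
  exact mem_biUnion (Finset.mem_coe.2 hp) ⟨t, hp', hx⟩

theorem right (d1 : Det1) (b2 : Bm2) (rf : Ref) (e : EnvA) (h : Dyn P μ W) :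
    ∀ᵐ ω ∂P, ∀ (t : ℝ) (m : ℤ) (x : ℝ), ¬ ∀ z, x ≤ z →
      W t ω m z - W t ω (m + 1) z ≤ W t ω m x - W t ω (m + 1) x := by
  have h1 : ∀ᵐ ω ∂P, ∀ m n q : ℤ, ¬ ∃ t ∈ Icc (q : ℝ) (q + 1), ∃ x ∈ Icc (n : ℝ) (n + 1),
      ∀ z, x ≤ z → W t ω m z - W t ω (m + 1) z ≤ W t ω m x - W t ω (m + 1) x := by
    simp only [ae_all_iff]
    intro m n q
    exact measure_eq_zero_iff_ae_notMem.1 (null d1 b2 rf e h m n q)
  filter_upwards [h1] with ω hω t m x hz
  exact hω m ⌊x⌋ ⌊t⌋ ⟨t, ⟨Int.floor_le t, (Int.lt_floor_add_one t).le⟩, x,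
    ⟨Int.floor_le x, (Int.lt_floor_add_one x).le⟩, hz⟩

/-- The rotated dynamics. -/
theorem dyn_rot (d1 : Det1) (e : EnvA) (h : Dyn P μ W) : Dyn P μ fun t ω => rotE (W t ω) where
  bm := h.bm
  union := fun E m k i0 i1 t0 s h1 h2 h3 hl => by
    have hl' : Loc (rotE ⁻¹' E) (-k) (-m) ((-i1 : ℤ) : ℝ) ((-i0 : ℤ) : ℝ) := by
      intro ω ω' ha hω
      refine hl (rotE ω) (rotE ω') (fun j a b u hu v hv => ?_) hω
      have := ha (1 - j) (by omega) (by omega) (-v)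
        ⟨by push_cast; linarith [hv.2], by push_cast; linarith [hv.1]⟩ (-u)
        ⟨by push_cast; linarith [hu.2], by push_cast; linarith [hu.1]⟩
      simp only [rotE, rot_apply]
      linarith
    have h4 := h.union _ (-k) (-m) (-i1) (-i0) t0 s (by omega) (by omega) h3 hl'
    refine h4.trans (mul_le_mul' (le_of_eq ?_) (preimage_le (e.rotE μ h.bm) E))
    congr 1; push_cast; ring
  move := fun m k i0 i1 t0 s r h1 h2 h3 h4 h5 => by
    have h6 := h.move (-k) (-m) (-i1) (-i0) t0 s r (by omega) (by omega) h3 h4 h5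
    simp only [d1.rotE]
    push_cast at h6
    simpa only [neg_sub_neg] using h6

end Dynamic

end RayA

/-- Row RAY. -/
theorem rayS (d1 : Det1) (b2 : Bm2) (rf : Ref) (e : EnvA) : RayStmt.{u} := by
  intro Ω _ P μ W h
  filter_upwards [RayA.right d1 b2 rf e h, RayA.right d1 b2 rf e (RayA.dyn_rot d1 e h)]
    with ω h1 h2 t m x
  refine ⟨fun hz => h2 t (-m) (-x) fun z hz' => ?_, h1 t m x⟩
  have := hz (-z) (by linarith)
  have e1 : 1 - -m = m + 1 := by ring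
  have e2 : 1 - (-m + 1) = m := by ring
  simp only [rotE, rot_apply, e1, e2, neg_neg]
  linarith

end Pool.Agent.MP_3d8edd_pr.H69
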