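import Pool.Agent.MP_3d8edd_pr.H69.Basic

/-!
Reduction of the model to its working form: measurable continuous modifications of the paths.
-/

open MeasureTheory ProbabilityTheory Set Filter
open scoped NNReal ENNReal Topology

namespace Pool.Agent.MP_3d8edd_pr.H69

universe u

namespace ReduceA

variable {Ω : Type u} [MeasurableSpace Ω] {P : Measure Ω} {B : ℝ≥0 → Ω → ℝ}

theorem exists_path (hB : IsBrownianReal B P) :
    ∃ Y : Ω → CP, Measurable Y ∧ ∀ᵐ ω ∂P, ∀ s : ℝ, Y ω s = B s.toNNReal ω := by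
  classical
  let u : ℕ → ℝ≥0 := TopologicalSpace.denseSeq ℝ≥0
  have hu : DenseRange u := TopologicalSpace.denseRange_denseSeq _
  let g : ℕ → Ω → ℝ := fun n => (hB.aemeasurable (u n)).mk _
  have hg : ∀ n, Measurable (g n) := fun n => AEMeasurable.measurable_mk _
  have hae : ∀ᵐ ω ∂P, (Continuous fun x => B x ω) ∧ ∀ n, B (u n) ω = g n ω :=
    hB.cont.and (ae_all_iff.2 fun n => (hB.aemeasurable (u n)).ae_eq_mk)
  obtain ⟨Z, hZsub, hZm, hZ0⟩ := exists_measurable_superset_of_null (ae_iff.1 hae)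
  have hgood : ∀ ω, ω ∉ Z → (Continuous fun x => B x ω) ∧ ∀ n, B (u n) ω = g n ω := by
    intro ω hω
    by_contra h
    exact hω (hZsub h)
  let Y : Ω → CP := fun ω => if h : ω ∈ Z then 0 else
    ⟨fun s => B s.toNNReal ω, (hgood ω h).1.comp continuous_real_toNNReal⟩
  have h0 : ∀ ω ∈ Z, ∀ s, Y ω s = 0 := fun ω h s => by simp only [Y, dif_pos h]; rfl
  have h1 : ∀ ω, ω ∉ Z → ∀ s, Y ω s = B s.toNNReal ω := fun ω h s => by
    simp only [Y, dif_neg h]; rfl
  refine ⟨Y, measurable_of_ev fun x => ?_, ?_⟩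
  · obtain ⟨y, hy, hlim⟩ := mem_closure_iff_seq_limit.1 (hu x.toNNReal)
    choose k hk using hy
    refine measurable_of_tendsto_metrizable (f := fun n => Zᶜ.indicator (g (k n)))
      (fun n => (hg _).indicator hZm.compl) (tendsto_pi_nhds.2 fun ω => ?_)
    by_cases hω : ω ∈ Z
    · have hω' : ω ∉ Zᶜ := not_not.2 hω
      simp only [h0 ω hω, indicator_of_notMem hω']
      exact tendsto_const_nhds
    · have hω' : ω ∈ Zᶜ := hω
      simp only [h1 ω hω, indicator_of_mem hω', ← (hgood ω hω).2, hk]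
      exact ((hgood ω hω).1.tendsto _).comp hlim
  · filter_upwards [measure_eq_zero_iff_ae_notMem.1 hZ0] with ω hω using h1 ω hω

theorem isPiece (hB : IsBrownianReal B P) {Y : Ω → CP} (hY : Measurable Y)
    (h : ∀ᵐ ω ∂P, ∀ s : ℝ, Y ω s = B s.toNNReal ω) : IsPiece (P.map Y) := by
  have e : ∀ s : ℝ, B s.toNNReal =ᵐ[P] fun ω => Y ω s := fun s => h.mono fun ω hω => (hω s).symm
  have hG : IsGaussianProcess (fun (s : ℝ) ω => Y ω s) P :=
    (hB.isGaussianProcess.comp_right Real.toNNReal).congr e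
  refine ⟨⟨fun I => ⟨?_⟩⟩, fun x => ?_, fun x y => ?_⟩
  · rw [Measure.map_map ((Finset.measurable_restrict I).fun_comp measurable_coe) hY]
    exact (hG.hasGaussianLaw I).isGaussian_map
  · rw [integral_map hY.aemeasurable (measurable_ev x).aestronglyMeasurable,
      ← integral_congr_ae (e x)]
    exact hB.integral_eval _
  · rw [covariance_map_fun (measurable_ev x).aestronglyMeasurable
      (measurable_ev y).aestronglyMeasurable hY.aemeasurable]
    have e2 : cov[fun ω => Y ω x, fun ω => Y ω y; P] = cov[B x.toNNReal, B y.toNNReal; P] := by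
      unfold covariance
      rw [← integral_congr_ae (e x), ← integral_congr_ae (e y)]
      refine integral_congr_ae ?_
      filter_upwards [e x, e y] with ω a b
      rw [a, b]
    rw [e2, hB.covariance_eval, NNReal.coe_min, Real.coe_toNNReal', Real.coe_toNNReal']

end ReduceA

theorem reduceS (b1 : Bm1) : ReduceStmt.{u} := by
  intro Ω _ P X N h
  have := h.indepX.isProbabilityMeasure
  choose Y hY hae using fun a : (ℤ × ℤ) × ℤ => ReduceA.exists_path (h.brownian a.1 a.2)
  have hp : ∀ a, IsPiece (P.map (Y a)) := fun a =>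
    ReduceA.isPiece (h.brownian a.1 a.2) (hY a) (hae a)
  have hall : ∀ᵐ ω ∂P, ∀ a (s : ℝ), Y a ω s = X a.1 a.2 s.toNNReal ω := ae_all_iff.2 hae
  have hm : Measurable fun (f : ℝ≥0 → ℝ) (s : ℝ) => f s.toNNReal :=
    measurable_pi_lambda _ fun _ => measurable_pi_apply _
  have i1 : iIndepFun (fun a ω (s : ℝ) => Y a ω s) P :=
    (h.indepX.comp (fun _ f (s : ℝ) => f s.toNNReal) fun _ => hm).congr fun a =>
      (hae a).mono fun ω hω => funext fun s => (hω s).symm
  have i2 : iIndepFun Y P := by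
    rw [iIndepFun_iff_iIndep] at i1 ⊢
    simp only [pathMS, MeasurableSpace.comap_comp]
    exact i1
  have i0 := h.indepXN.comp (φ := fun g (a : (ℤ × ℤ) × ℤ) (s : ℝ) => g a s.toNNReal) (ψ := id)
    (measurable_pi_lambda _ fun a => hm.comp (measurable_pi_apply a)) measurable_id
  have i3 : IndepFun (fun ω a (s : ℝ) => Y a ω s) (fun ω (c : ℤ × ℤ) t => N c t ω) P :=
    i0.congr (hall.mono fun ω hω => funext fun a => funext fun s => (hω a s).symm)
      (EventuallyEq.refl _ _)
  refine ⟨P.map (Y 0), Y, ⟨this, hp 0, hY, ?_, fun c t => ?_, h.mono, h.rightCont, h.poisson,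
    h.indepN, ?_⟩, ?_⟩
  · rw [i2.map_fun_eq_infinitePi_map hY]
    congr 1
    exact funext fun a => b1.unique_piece _ _ (hp a) (hp 0)
  · rcases le_total 0 t with ht | ht
    · simpa [h.zero] using (h.poisson c 0 t ht).aemeasurable
    · refine (h.poisson c t 0 ht).aemeasurable.neg.congr (.of_forall fun ω => ?_)
      simp [h.zero]
  · rw [IndepFun_iff_Indep] at i3 ⊢
    refine indep_of_indep_of_le_left i3 (Measurable.comap_le ?_)
    have i4 := comap_measurable (m := MeasurableSpace.pi) fun ω a (s : ℝ) => Y a ω s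
    let _ : MeasurableSpace Ω := MeasurableSpace.pi.comap fun ω a (s : ℝ) => Y a ω s
    exact measurable_pi_lambda _ fun a => measurable_of_ev fun x =>
      (measurable_pi_apply x).comp ((measurable_pi_apply a).comp i4)
  · filter_upwards [hall, ae_all_iff.2 fun a : (ℤ × ℤ) × ℤ =>
      (h.brownian a.1 a.2).eval_zero_ae_eq_zero] with ω h1 h2
    exact ⟨fun c k => h2 (c, k), fun c k => h1 (c, k)⟩

end Pool.Agent.MP_3d8edd_pr.H69
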