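import Pool.Agent.MP_3d8edd_pr.H69.Basic

/-!
The reflection principle, the oscillation bound and the law of large numbers.
-/

open MeasureTheory ProbabilityTheory Set Filter
open scoped NNReal ENNReal Topology BoundedContinuousFunction

namespace Pool.Agent.MP_3d8edd_pr.H69

namespace RefA

theorem sym_pair (b1 : Bm1) {μ : Measure CP} (hμ : IsBM μ 0) {s t : ℝ} (hs : 0 ≤ s)
    (hst : s ≤ t) :
    μ.map (fun f : CP => (stop s f, f t - f s)) =
      μ.map (fun f : CP => (stop s f, -(f t - f s))) := by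
  have := hμ.prob
  have hm : Measurable fun f : CP => f t - f s := (measurable_ev t).sub (measurable_ev s)
  have hm' : Measurable fun f : CP => -(f t - f s) := hm.neg
  have hI : IndepFun (stop s) (fun f : CP => f t - f s) μ := by
    have h1 := (b1.markov μ 0 s hμ hs).comp measurable_id (measurable_ev (t - s))
    have e : ((fun f : CP => f (t - s)) ∘ fun f => fut (shift s f)) =
        fun f : CP => f t - f s := by
      funext f
      simp [max_eq_left (sub_nonneg.2 hst)]
    rw [e] at h1
    exact h1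
  have hJ : IndepFun (stop s) (fun f : CP => -(f t - f s)) μ :=
    hI.comp measurable_id measurable_neg
  rw [hI.map_prod_eq_prod_map_map (measurable_stop s).aemeasurable hm.aemeasurable,
    hJ.map_prod_eq_prod_map_map (measurable_stop s).aemeasurable hm'.aemeasurable]
  have e : μ.map (fun f : CP => -(f t - f s)) =
      (μ.map fun f : CP => f t - f s).map fun x => -x := (Measure.map_map measurable_neg hm).symm
  rw [e, b1.law_sub μ 0 s t hμ hst, gaussianReal_map_neg]
  simp

/-- The grid points. -/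
noncomputable def gr (t : ℝ) (n j : ℕ) : ℝ := j * (t / (n + 1))

/-- The first grid point above the level is the `j`-th one. -/
def Ev (t m : ℝ) (n j : ℕ) : Set CP := {f | m < f (gr t n j) ∧ ∀ i < j, f (gr t n i) ≤ m}

theorem gr_nonneg {t : ℝ} (ht : 0 < t) (n j : ℕ) : 0 ≤ gr t n j := by
  unfold gr; positivity

theorem gr_mono {t : ℝ} (ht : 0 < t) (n : ℕ) {i j : ℕ} (h : i ≤ j) : gr t n i ≤ gr t n j := by
  unfold gr; gcongr

theorem gr_le {t : ℝ} (ht : 0 < t) {n j : ℕ} (h : j ≤ n + 1) : gr t n j ≤ t := by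
  refine (gr_mono ht n h).trans (le_of_eq ?_)
  unfold gr; push_cast; field_simp

theorem meas_Ev (t m : ℝ) (n j : ℕ) : MeasurableSet (Ev t m n j) := by
  have e : Ev t m n j = {f : CP | m < f (gr t n j)} ∩
      ⋂ i : ℕ, ⋂ _ : i < j, {f : CP | f (gr t n i) ≤ m} := by
    ext f; simp [Ev]
  rw [e]
  exact (measurableSet_lt measurable_const (measurable_ev _)).inter
    (MeasurableSet.iInter fun i => MeasurableSet.iInter fun _ =>
      measurableSet_le (measurable_ev _) measurable_const)

theorem stop_Ev {t : ℝ} (ht : 0 < t) (m : ℝ) (n j : ℕ) (f : CP) :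
    stop (gr t n j) f ∈ Ev t m n j ↔ f ∈ Ev t m n j := by
  simp only [Ev, mem_ofPred_eq, stop_apply, min_self]
  refine and_congr_right fun _ => forall₂_congr fun i hi => ?_
  rw [min_eq_left (gr_mono ht n hi.le)]

theorem Ev_uniq {t m : ℝ} {n i j : ℕ} {f : CP} (hi : f ∈ Ev t m n i) (hj : f ∈ Ev t m n j) :
    i = j := by
  rcases lt_trichotomy i j with h | h | h
  · exact absurd hi.1 (not_lt.2 (hj.2 i h))
  · exact h
  · exact absurd hj.1 (not_lt.2 (hi.2 j h))

theorem step (b1 : Bm1) {μ : Measure CP} (hμ : IsBM μ 0) {t : ℝ} (ht : 0 < t) (m : ℝ) {n j : ℕ}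
    (hj : j ≤ n + 1) {φ : ℝ → ℝ} (hφ : Measurable φ) :
    ∫ f, (Ev t m n j).indicator (fun f : CP => φ (f t)) f ∂μ =
      ∫ f, (Ev t m n j).indicator (fun f : CP => φ (2 * f (gr t n j) - f t)) f ∂μ := by
  set s := gr t n j with hs
  have hΦ : Measurable ((Prod.fst ⁻¹' Ev t m n j).indicator
      fun p : CP × ℝ => φ (p.1 s + p.2)) :=
    (hφ.comp ((Measurable.ev measurable_fst s).add measurable_snd)).indicator
      (measurable_fst (meas_Ev t m n j))
  have hm : Measurable fun f : CP => f t - f s := (measurable_ev t).sub (measurable_ev s)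
  have hm' : Measurable fun f : CP => -(f t - f s) := hm.neg
  have h1 := integral_map (μ := μ) ((measurable_stop s).prodMk hm).aemeasurable
    hΦ.aestronglyMeasurable
  have h2 := integral_map (μ := μ) ((measurable_stop s).prodMk hm').aemeasurable
    hΦ.aestronglyMeasurable
  rw [sym_pair b1 hμ (gr_nonneg ht n j) (gr_le ht hj)] at h1
  have h3 := h1.symm.trans h2
  refine Eq.trans ?_ (h3.trans ?_)
  · refine integral_congr_ae (ae_of_all _ fun f => ?_)
    by_cases hf : f ∈ Ev t m n j
    · have hf' := (stop_Ev ht m n j f).2 hf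
      simp only []
      rw [indicator_of_mem hf, indicator_of_mem (by exact hf')]
      simp
    · have hf' := mt (stop_Ev ht m n j f).1 hf
      simp only []
      rw [indicator_of_notMem hf, indicator_of_notMem (by exact hf')]
  · refine integral_congr_ae (ae_of_all _ fun f => ?_)
    by_cases hf : f ∈ Ev t m n j
    · have hf' := (stop_Ev ht m n j f).2 hf
      simp only []
      rw [indicator_of_mem hf, indicator_of_mem (by exact hf')]
      simp only [stop_apply, min_self]
      congr 1; ring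
    · have hf' := mt (stop_Ev ht m n j f).1 hf
      simp only []
      rw [indicator_of_notMem hf, indicator_of_notMem (by exact hf')]

theorem sum_single {t m : ℝ} {n j : ℕ} {f : CP} (hj : j ≤ n + 1) (hf : f ∈ Ev t m n j)
    (G : ℕ → CP → ℝ) :
    ∑ i ∈ Finset.range (n + 2), (Ev t m n i).indicator (G i) f = G j f := by
  rw [Finset.sum_eq_single j, indicator_of_mem hf]
  · intro i _ hi
    exact indicator_of_notMem (fun h => hi (Ev_uniq h hf)) _
  · intro h
    exact absurd (Finset.mem_range.2 (by omega)) h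

theorem sum_bound (t m : ℝ) (n : ℕ) (f : CP) {G : ℕ → CP → ℝ} {C : ℝ} (hC : 0 ≤ C)
    (hG : ∀ i, ‖G i f‖ ≤ C) :
    ‖∑ i ∈ Finset.range (n + 2), (Ev t m n i).indicator (G i) f‖ ≤ C := by
  by_cases h : ∃ j ≤ n + 1, f ∈ Ev t m n j
  · obtain ⟨j, hj, hf⟩ := h
    rw [sum_single hj hf]; exact hG j
  · rw [Finset.sum_eq_zero, norm_zero]
    · exact hC
    · intro i hi
      exact indicator_of_notMem (fun h' => h ⟨i, by have := Finset.mem_range.1 hi; omega, h'⟩) _

theorem first_hit {t m δ : ℝ} (ht : 0 < t) (hm : 0 ≤ m) (hδ : 0 < δ) {f : CP} (h0 : f 0 = 0)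
    (hf : m < smax f t) :
    ∀ᶠ n in atTop, ∃ j ≤ n + 1, f ∈ Ev t m n j ∧ dist (f (gr t n j)) m < δ := by
  classical
  obtain ⟨x, hx, hmx⟩ : ∃ x ∈ Icc 0 t, m < f x := by
    by_contra h
    push Not at h
    exact absurd (smax_le f ht.le h) (not_le.2 hf)
  have hU := (isCompact_Icc (a := 0) (b := t)).uniformContinuousOn_of_continuous
    f.continuous.continuousOn
  obtain ⟨η, hη, hu⟩ := Metric.uniformContinuousOn_iff.1 hU (min δ (f x - m))
    (lt_min hδ (sub_pos.2 hmx))
  obtain ⟨N, hN⟩ := exists_nat_gt (t / η)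
  filter_upwards [eventually_ge_atTop N] with n hn
  have hn1 : (0 : ℝ) < n + 1 := by positivity
  have hw : 0 < t / (n + 1) := by positivity
  have hwη : t / (n + 1) < η := by
    rw [div_lt_iff₀ hη] at hN
    rw [div_lt_iff₀ hn1]
    have : (N : ℝ) ≤ n := by exact_mod_cast hn
    nlinarith
  have hex : ∃ j, j ≤ n + 1 ∧ m < f (gr t n j) := by
    have h1 : (⌊x / (t / (n + 1))⌋₊ : ℝ) ≤ x / (t / (n + 1)) :=
      Nat.floor_le (div_nonneg hx.1 hw.le)
    have h2 := Nat.lt_floor_add_one (x / (t / (n + 1)))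
    rw [le_div_iff₀ hw] at h1
    rw [div_lt_iff₀ hw] at h2
    have h3 : ⌊x / (t / (n + 1))⌋₊ ≤ n + 1 := by
      refine Nat.floor_le_of_le ?_
      rw [div_le_iff₀ hw]
      push_cast
      rw [mul_div_cancel₀ _ hn1.ne']
      exact hx.2
    refine ⟨_, h3, ?_⟩
    have h4 := hu (gr t n ⌊x / (t / (n + 1))⌋₊) ⟨gr_nonneg ht _ _, gr_le ht h3⟩ x hx (by
      rw [Real.dist_eq, abs_lt]; unfold gr; constructor <;> nlinarith)
    rw [Real.dist_eq, abs_lt] at h4
    linarith [h4.1, min_le_right δ (f x - m)]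
  obtain ⟨hj1, hj2⟩ := Nat.find_spec hex
  have hlt : ∀ i < Nat.find hex, f (gr t n i) ≤ m := fun i hi => by
    have := Nat.find_min hex hi
    by_contra h
    exact this ⟨by omega, not_le.1 h⟩
  refine ⟨_, hj1, ⟨hj2, hlt⟩, ?_⟩
  generalize Nat.find hex = j at hj1 hj2 hlt
  rcases j with _ | j
  · have : gr t n 0 = 0 := by simp [gr]
    rw [this, h0] at hj2
    exact absurd hj2 (not_lt.2 hm)
  · have h5 := hlt j (Nat.lt_succ_self j)
    have h4 := hu (gr t n (j + 1)) ⟨gr_nonneg ht _ _, gr_le ht hj1⟩ (gr t n j)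
      ⟨gr_nonneg ht _ _, gr_le ht (by omega)⟩ (by
        rw [Real.dist_eq, abs_lt]; unfold gr; push_cast; constructor <;> nlinarith)
    rw [Real.dist_eq, abs_lt] at h4 ⊢
    constructor <;> linarith [h4.2, min_le_left δ (f x - m)]

theorem lim {t m : ℝ} (ht : 0 < t) (hm : 0 ≤ m) {f : CP} (h0 : f 0 = 0) (g : ℝ → CP → ℝ)
    (hg : Continuous fun u => g u f) :
    Tendsto (fun n => ∑ i ∈ Finset.range (n + 2),
      (Ev t m n i).indicator (fun f' => g (f' (gr t n i)) f') f) atTop
      (𝓝 ({f : CP | m < smax f t}.indicator (g m) f)) := by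
  by_cases hf : m < smax f t
  · rw [indicator_of_mem (by exact hf)]
    refine Metric.tendsto_nhds.2 fun ε hε => ?_
    obtain ⟨δ, hδ, hd⟩ := Metric.continuousAt_iff.1 (hg.continuousAt (x := m)) ε hε
    filter_upwards [first_hit ht hm hδ h0 hf] with n ⟨j, hj, h1, h2⟩
    rw [sum_single hj h1]
    exact hd h2
  · rw [indicator_of_notMem (by exact hf)]
    refine tendsto_const_nhds.congr fun n => (Finset.sum_eq_zero fun i hi => ?_).symm
    refine indicator_of_notMem (fun h => hf (h.1.trans_le (le_smax f ⟨gr_nonneg ht _ _, ?_⟩))) _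
    exact gr_le ht (by have := Finset.mem_range.1 hi; omega)

theorem key (b1 : Bm1) {μ : Measure CP} (hμ : IsBM μ 0) {t m : ℝ} (ht : 0 < t) (hm : 0 ≤ m) :
    (μ.restrict {f : CP | m < smax f t}).map (fun f : CP => f t) =
      (μ.restrict {f : CP | m < smax f t}).map (fun f : CP => 2 * m - f t) := by
  have := hμ.prob
  have hA : MeasurableSet {f : CP | m < smax f t} :=
    measurableSet_lt measurable_const (measurable_smax t)
  have hr : Measurable fun f : CP => 2 * m - f t := measurable_const.sub (measurable_ev t)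
  refine ext_of_forall_integral_eq_of_IsFiniteMeasure fun φ => ?_
  have hφ : Measurable φ := φ.continuous.measurable
  rw [integral_map (measurable_ev t).aemeasurable hφ.aestronglyMeasurable,
    integral_map hr.aemeasurable hφ.aestronglyMeasurable, ← integral_indicator hA,
    ← integral_indicator hA]
  have m1 : ∀ n i, Measurable ((Ev t m n i).indicator fun f : CP => φ (f t)) := fun n i =>
    (hφ.comp (measurable_ev t)).indicator (meas_Ev t m n i)
  have m2 : ∀ n i, Measurable ((Ev t m n i).indicator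
      fun f : CP => φ (2 * f (gr t n i) - f t)) := fun n i =>
    (hφ.comp (((measurable_ev _).const_mul 2).sub (measurable_ev t))).indicator (meas_Ev t m n i)
  have l1 := tendsto_integral_of_dominated_convergence (μ := μ) (fun _ => ‖φ‖)
    (fun n => (Finset.measurable_sum (Finset.range (n + 2)) fun i _ => m1 n i).aestronglyMeasurable)
    (integrable_const _)
    (fun n => ae_of_all _ fun f => sum_bound t m n f (norm_nonneg φ)
      fun i => φ.norm_coe_le_norm _)
    ((b1.zero μ 0 hμ).mono fun f h0 => lim ht hm h0 (fun _ f => φ (f t)) continuous_const)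
  have l2 := tendsto_integral_of_dominated_convergence (μ := μ) (fun _ => ‖φ‖)
    (fun n => (Finset.measurable_sum (Finset.range (n + 2)) fun i _ => m2 n i).aestronglyMeasurable)
    (integrable_const _)
    (fun n => ae_of_all _ fun f => sum_bound t m n f (norm_nonneg φ)
      fun i => φ.norm_coe_le_norm _)
    ((b1.zero μ 0 hμ).mono fun f h0 => lim ht hm h0 (fun u f => φ (2 * u - f t)) (by fun_prop))
  refine tendsto_nhds_unique l1 (l2.congr fun n => ?_)
  have i1 : ∀ i, Integrable ((Ev t m n i).indicator fun f : CP => φ (f t)) μ := fun i =>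
    Integrable.of_bound (m1 n i).aestronglyMeasurable ‖φ‖ (ae_of_all _ fun f =>
      (norm_indicator_le_norm_self _ _).trans (φ.norm_coe_le_norm _))
  have i2 : ∀ i, Integrable ((Ev t m n i).indicator
      fun f : CP => φ (2 * f (gr t n i) - f t)) μ := fun i =>
    Integrable.of_bound (m2 n i).aestronglyMeasurable ‖φ‖ (ae_of_all _ fun f =>
      (norm_indicator_le_norm_self _ _).trans (φ.norm_coe_le_norm _))
  rw [integral_finsetSum _ fun i _ => i1 i, integral_finsetSum _ fun i _ => i2 i]
  refine Finset.sum_congr rfl fun i hi => ?_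
  exact (step b1 hμ ht m (by have := Finset.mem_range.1 hi; omega) hφ).symm

theorem law_ev (b1 : Bm1) {μ : Measure CP} (hμ : IsBM μ 0) {t : ℝ} (ht : 0 < t) :
    μ.map (fun f : CP => f t) = gaussianReal 0 t.toNNReal := by
  have h := b1.law_sub μ 0 0 t hμ ht.le
  rw [zero_mul, sub_zero] at h
  rw [← h]
  exact Measure.map_congr ((b1.zero μ 0 hμ).mono fun f h0 => by simp [h0])

theorem refl (b1 : Bm1) {μ : Measure CP} (hμ : IsBM μ 0) {t m : ℝ} (ht : 0 < t) (hm : 0 ≤ m) :
    (μ.restrict {f : CP | m < smax f t}).map (fun f : CP => f t) =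
      (gaussianReal 0 t.toNNReal).restrict (Ioi m) +
        ((gaussianReal 0 t.toNNReal).restrict (Ioi m)).map fun x => 2 * m - x := by
  have hr : Measurable fun x : ℝ => 2 * m - x := measurable_const.sub measurable_id
  have hk := key b1 hμ ht hm
  have hl := law_ev b1 hμ ht
  set ν := (μ.restrict {f : CP | m < smax f t}).map (fun f : CP => f t) with hν
  have hk' : ν.map (fun x => 2 * m - x) = ν := by
    rw [hν, Measure.map_map hr (measurable_ev t)]
    exact hk.symm
  have h1 : ν.restrict (Ioi m) = (gaussianReal 0 t.toNNReal).restrict (Ioi m) := by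
    rw [← hl, hν, Measure.restrict_map (measurable_ev t) measurableSet_Ioi,
      Measure.restrict_map (measurable_ev t) measurableSet_Ioi,
      Measure.restrict_restrict (measurable_ev t measurableSet_Ioi), inter_eq_left.2]
    intro f hf
    exact lt_of_lt_of_le hf (le_smax f ⟨ht.le, le_rfl⟩)
  have h2 : ν {m} = 0 := by
    have := nullSingletonClass_gaussianReal (μ := 0) (v := t.toNNReal)
      (by simpa using ht)
    have h3 : ν ≤ gaussianReal 0 t.toNNReal := by
      rw [← hl]; exact Measure.map_mono Measure.restrict_le_self (measurable_ev t)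
    exact le_antisymm ((h3 _).trans (measure_singleton m).le) bot_le
  have h3 : ν.restrict (Iic m) = (ν.restrict (Ioi m)).map fun x => 2 * m - x := by
    rw [← Measure.restrict_congr_set (Iio_ae_eq_Iic' h2)]
    conv_lhs => rw [← hk', Measure.restrict_map hr measurableSet_Iio]
    congr 2
    ext x
    simp only [mem_preimage, mem_Iio, mem_Ioi]
    constructor <;> intro h <;> linarith
  rw [← h1, ← h3, ← compl_Ioi, Measure.restrict_add_restrict_compl measurableSet_Ioi]

theorem gauss_tail {t m : ℝ} (ht : 0 < t) (hm : 0 ≤ m) :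
    gaussianReal 0 t.toNNReal (Ioi m) ≤ ENNReal.ofReal (Real.exp (-m ^ 2 / (2 * t))) := by
  have hs : HasSubgaussianMGF id t.toNNReal (gaussianReal 0 t.toNNReal) :=
    ⟨fun u => integrable_exp_mul_gaussianReal u, fun u => by simp [mgf_id_gaussianReal]⟩
  have h := hs.measure_ge_le hm
  rw [Real.coe_toNNReal _ ht.le] at h
  refine (measure_mono (t := {x | m ≤ id x}) fun x hx => (mem_Ioi.1 hx).le).trans ?_
  rw [← ofReal_measureReal]
  exact ENNReal.ofReal_le_ofReal h

theorem smax_tail (b1 : Bm1) {μ : Measure CP} (hμ : IsBM μ 0) {t m : ℝ} (ht : 0 < t)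
    (hm : 0 ≤ m) :
    μ {f : CP | m < smax f t} ≤ ENNReal.ofReal (2 * Real.exp (-m ^ 2 / (2 * t))) := by
  have hr : Measurable fun x : ℝ => 2 * m - x := measurable_const.sub measurable_id
  have h := congrArg (fun ν : Measure ℝ => ν univ) (refl b1 hμ ht hm)
  simp only [Measure.add_apply] at h
  rw [Measure.map_apply (measurable_ev t) MeasurableSet.univ,
    Measure.map_apply hr MeasurableSet.univ] at h
  simp only [preimage_univ, Measure.restrict_apply_univ] at h
  rw [h, two_mul, ENNReal.ofReal_add (Real.exp_pos _).le (Real.exp_pos _).le]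
  exact add_le_add (gauss_tail ht hm) (gauss_tail ht hm)

theorem osc (b1 : Bm1) {μ : Measure CP} {a : ℝ} (hμ : IsBM μ a) (c : ℝ) {t m : ℝ} (ht : 0 < t)
    (hm : 0 ≤ m) :
    μ {f : CP | ∃ x ∈ Icc c (c + t), m + |a| * t < |f x - f c|} ≤
      ENNReal.ofReal (4 * Real.exp (-m ^ 2 / (2 * t))) := by
  have mF : Measurable fun f : CP => f + lin (-a) := measurable_id.add measurable_const
  have mN : Measurable fun f : CP => -f := measurable_neg
  have h1 := b1.add_lin _ _ (-a) (b1.shift μ a c hμ)
  rw [add_neg_cancel] at h1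
  have h2 := b1.neg _ _ h1
  rw [neg_zero] at h2
  have hA : MeasurableSet {f : CP | m < smax f t} :=
    measurableSet_lt measurable_const (measurable_smax t)
  have k1 := smax_tail b1 h1 ht hm
  have k2 := smax_tail b1 h2 ht hm
  rw [Measure.map_apply mN hA, Measure.map_apply mF (mN hA),
    Measure.map_apply (measurable_shift c) (mF (mN hA))] at k2
  rw [Measure.map_apply mF hA, Measure.map_apply (measurable_shift c) (mF hA)] at k1
  refine le_trans (measure_mono ?_) ((measure_union_le _ _).trans ((add_le_add k1 k2).trans ?_))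
  · rintro f ⟨x, hx, hf⟩
    have hy : x - c ∈ Icc 0 t := ⟨by linarith [hx.1], by linarith [hx.2]⟩
    have hb : |a * (x - c)| ≤ |a| * t := by
      rw [abs_mul, abs_of_nonneg hy.1]
      exact mul_le_mul_of_nonneg_left hy.2 (abs_nonneg a)
    have hb' := abs_le.1 hb
    rcases lt_abs.1 hf with h | h
    · refine Or.inl (lt_of_lt_of_le ?_ (le_smax (shift c f + lin (-a)) hy))
      simp only [ContinuousMap.add_apply, shift_apply, lin_apply, add_sub_cancel]
      linarith [hb'.2]
    · refine Or.inr (lt_of_lt_of_le ?_ (le_smax (-(shift c f + lin (-a))) hy))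
      simp only [ContinuousMap.neg_apply, ContinuousMap.add_apply, shift_apply, lin_apply,
        add_sub_cancel]
      linarith [hb'.1]
  · rw [← ENNReal.ofReal_add (by positivity) (by positivity)]
    exact ENNReal.ofReal_le_ofReal (le_of_eq (by ring))

theorem lln0 (b1 : Bm1) {μ : Measure CP} (hμ : IsBM μ 0) {ε : ℝ} (hε : 0 < ε) :
    ∀ᵐ f ∂μ, ∃ C : ℝ, ∀ x, |f x| ≤ C + 2 * ε * |x| := by
  have hb : ∀ j : ℕ, μ {f : CP | ∃ x ∈ Icc (-((j : ℝ) + 1)) (-((j : ℝ) + 1) + 2 * (j + 1)),
      ε * (j + 1) + |(0 : ℝ)| * (2 * (j + 1)) < |f x - f (-((j : ℝ) + 1))|} ≤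
      ENNReal.ofReal (4 * Real.exp (-(ε ^ 2 / 4)) ^ (j + 1)) := fun j => by
    refine (osc b1 hμ _ (by positivity) (by positivity)).trans (le_of_eq ?_)
    rw [← Real.exp_nat_mul]
    congr 3
    push_cast
    field_simp
    ring
  have hq : Real.exp (-(ε ^ 2 / 4)) < 1 := Real.exp_lt_one_iff.2 (by
    have : 0 < ε ^ 2 / 4 := by positivity
    linarith)
  have hs : Summable fun j : ℕ => 4 * Real.exp (-(ε ^ 2 / 4)) ^ (j + 1) :=
    ((summable_nat_add_iff 1).2 (summable_geometric_of_lt_one (Real.exp_pos _).le hq)).mul_left 4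
  have hfin := ne_top_of_le_ne_top (hs.tsum_ofReal_ne_top) (ENNReal.tsum_le_tsum hb)
  filter_upwards [ae_eventually_notMem hfin] with f hf
  obtain ⟨J, hJ⟩ := eventually_atTop.1 hf
  refine ⟨|f 0| + 2 * ε * (J + 2), fun x => ?_⟩
  have h := hJ (J + ⌈|x|⌉₊) (Nat.le_add_right _ _)
  simp only [abs_zero, zero_mul, add_zero, not_exists, not_and, not_lt] at h
  have c1 := Nat.le_ceil |x|
  have c2 := Nat.ceil_lt_add_one (abs_nonneg x)
  have c3 : (0 : ℝ) ≤ J := Nat.cast_nonneg J
  have c4 := abs_le.1 (le_refl |x|)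
  have c5 := abs_nonneg x
  have h1 := h x (by push_cast; constructor <;> linarith [c4.1, c4.2])
  have h2 := h 0 (by push_cast; constructor <;> linarith)
  have h3 := abs_le.1 h1
  have h4 := abs_le.1 h2
  have h5 := abs_le.1 (le_refl |f 0|)
  have h6 : ε * (((J + ⌈|x|⌉₊ : ℕ) : ℝ) + 1) ≤ ε * (J + 2 + |x|) := by
    push_cast
    exact mul_le_mul_of_nonneg_left (by linarith) hε.le
  rw [abs_le]
  constructor <;> nlinarith [h3.1, h3.2, h4.1, h4.2, h5.1, h5.2]

theorem lln (b1 : Bm1) {μ : Measure CP} {a : ℝ} (hμ : IsBM μ a) :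
    ∀ᵐ f ∂μ, ∀ ε > (0 : ℝ), ∃ C : ℝ, ∀ x, |f x - a * x| ≤ C + ε * |x| := by
  have mF : Measurable fun f : CP => f + lin (-a) := measurable_id.add measurable_const
  have h1 := b1.add_lin _ _ (-a) hμ
  rw [add_neg_cancel] at h1
  have h2 := ae_all_iff.2 fun q : ℕ => lln0 b1 h1 (ε := 1 / ((q : ℝ) + 1) / 2) (by positivity)
  filter_upwards [ae_of_ae_map mF.aemeasurable h2] with f hf ε hε
  obtain ⟨q, hq⟩ := exists_nat_one_div_lt hε
  obtain ⟨C, hC⟩ := hf q
  refine ⟨C, fun x => ?_⟩
  have h3 := hC x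
  simp only [ContinuousMap.add_apply, lin_apply, neg_mul, ← sub_eq_add_neg] at h3
  have h4 := mul_le_mul_of_nonneg_right hq.le (abs_nonneg x)
  linarith

end RefA

theorem ref (b1 : Bm1) : Ref where
  refl _ _ _ hμ ht hm := RefA.refl b1 hμ ht hm
  osc _ _ c _ _ hμ ht hm := RefA.osc b1 hμ c ht hm
  lln _ _ hμ := RefA.lln b1 hμ

end Pool.Agent.MP_3d8edd_pr.H69
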