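import Pool.Agent.MP_3d8edd_pr.H69.Basic

/-!
Row SLAB: passage times across the inner slab.
-/

open MeasureTheory ProbabilityTheory Set Filter
open scoped NNReal ENNReal Topology

namespace Pool.Agent.MP_3d8edd_pr.H69

namespace SlabA

theorem exp_one_le : Real.exp 1 ≤ 3 := Real.exp_one_lt_d9.le.trans (by norm_num)

theorem gauss_tail (v : ℝ≥0) (hv : (v : ℝ) ≤ 2) (s : ℝ) :
    gaussianReal 0 v {x | x ≤ -s} ≤ ENNReal.ofReal (3 * Real.exp (-s)) := by
  have h := measure_le_le_exp_mul_mgf (μ := gaussianReal 0 v) (X := id) (t := -1) (-s)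
    (by norm_num) (integrable_exp_mul_gaussianReal (-1))
  rw [mgf_id_gaussianReal] at h
  rw [← ofReal_measureReal]
  refine ENNReal.ofReal_le_ofReal (h.trans ?_)
  have h1 : Real.exp (0 * -1 + (v : ℝ) * (-1) ^ 2 / 2) ≤ 3 :=
    (Real.exp_le_exp.2 (by linarith)).trans exp_one_le
  have h2 : Real.exp (- -1 * -s) = Real.exp (-s) := by congr 1; ring
  rw [h2, mul_comm]
  gcongr

theorem incr_tail (b1 : Bm1) (e : EnvA) {μ : Measure CP} (hμ : IsBM μ 0) (j : ℤ) {x y : ℝ}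
    (hxy : x ≤ y) (h2 : y - x ≤ 2) (s : ℝ) :
    PP μ {ω | ω j y - ω j x ≤ -s} ≤ ENNReal.ofReal (3 * Real.exp (-s)) := by
  have h1 : MeasurePreserving (fun f : CP => f y - f x) μ (gaussianReal 0 (y - x).toNNReal) :=
    ⟨(measurable_ev y).sub (measurable_ev x), by rw [b1.law_sub μ 0 x y hμ hxy, zero_mul]⟩
  refine (preimage_le (h1.comp (e.eval μ j hμ)) {z | z ≤ -s}).trans (gauss_tail _ ?_ s)
  rw [Real.coe_toNNReal _ (by linarith)]
  exact h2

theorem sqrt_bounds {κ θ : ℝ} (h0 : 0 < κ) (h1 : κ ≤ 1) (hθ : θ ∈ Icc κ κ⁻¹) :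
    κ ≤ √θ ∧ √θ ≤ κ⁻¹ := by
  have h2 : 1 ≤ κ⁻¹ := one_le_inv_iff₀.2 ⟨h0, h1⟩
  constructor
  · refine Real.le_sqrt_of_sq_le ?_
    nlinarith [hθ.1]
  · refine Real.sqrt_le_iff.2 ⟨by positivity, ?_⟩
    nlinarith [hθ.2]

end SlabA

open SlabA in
theorem slabS (d1 : Det1) (b1 : Bm1) (e : EnvA) (ex : Exit) (lf : LeftStmt) : SlabStmt := by
  intro κ h0 h1
  obtain ⟨L, hL, HL⟩ := lf
  have hκ : 1 ≤ κ⁻¹ := one_le_inv_iff₀.2 ⟨h0, h1⟩
  have hκL : 1 ≤ κ⁻¹ * L := by nlinarith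
  have hκL' : L ≤ κ⁻¹ * L := by nlinarith
  have hκL'' : κ⁻¹ ≤ κ⁻¹ * L := by nlinarith
  refine ⟨10 * (κ⁻¹ * L), by linarith, fun μ θ M ν r u hμ hθ hν hM hr hC => ?_⟩
  obtain ⟨s1, s2⟩ := sqrt_bounds h0 h1 hθ
  have hθ0 : 0 < θ := h0.trans_le hθ.1
  have hs0 : 0 < √θ := h0.trans_le s1
  have hss : √θ * √θ = θ := Real.mul_self_sqrt hθ0.le
  have hν2 : 10 ≤ ν := by
    have : 1 ≤ κ⁻¹ * L * r := one_le_mul_of_one_le_of_one_le hκL hr
    linarith
  have hM1 : 1 ≤ M := by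
    have : (1 : ℝ) ≤ M := by rw [← hM]; exact one_le_pow₀ (by linarith)
    exact_mod_cast this
  have hcast : (-(M : ℤ)) + ((2 * M : ℕ) : ℤ) = M := by push_cast; ring
  have hsc : ∀ (ω : Env) (a b : ℝ),
      T ω (-M) M a b = √θ * T (scaleE θ ω) (-M) M (a / θ) (b / θ) := fun ω a b => by
    rw [← d1.scaleE ω θ _ _ _ _ hθ0, mul_div_cancel₀ _ hθ0.ne', mul_div_cancel₀ _ hθ0.ne']
  have hex : 0 < Real.exp (-r) := Real.exp_pos _
  have hrν : 1 ≤ r * ν := one_le_mul_of_one_le_of_one_le hr (by linarith)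
  have hr2 : r * ν ≤ r ^ 2 * ν := by
    gcongr
    exact le_self_pow₀ hr two_ne_zero
  constructor
  · intro v huv
    have ht := ex.tail μ (-M) (2 * M) (u / θ) (v / θ) (1 / ν) (r * ν) hμ (by omega)
      (by gcongr) (by positivity) (by gcongr; linarith)
    rw [hcast] at ht
    refine le_trans (measure_mono ?_)
      ((preimage_le (e.scaleE μ θ hμ hθ0) _).trans (ht.trans (ENNReal.ofReal_le_ofReal ?_)))
    · intro ω hω
      simp only [mem_preimage, mem_ofPred_eq] at hω ⊢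
      rw [hsc] at hω
      refine le_of_mul_le_mul_left ?_ hs0
      refine le_trans ?_ hω.le
      have e1 : √θ * (v / θ - u / θ) = (v - u) / √θ := by
        rw [eq_div_iff hs0.ne']
        field_simp
        rw [Real.sq_sqrt hθ0.le]
      have e2 : √θ * (r * ν) ≤ 10 * (κ⁻¹ * L) * r ^ 2 * ν := by
        have : √θ ≤ 10 * (κ⁻¹ * L) := by linarith
        calc √θ * (r * ν) ≤ 10 * (κ⁻¹ * L) * (r ^ 2 * ν) := by gcongr
          _ = _ := by ring
      push_cast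
      rw [mul_add, mul_add, e1]
      linarith
    · have e1 : ((2 * M : ℕ) : ℝ) * (1 / ν) ^ 3 - 2 * (1 / ν) * (r * ν) = 2 - 2 * r := by
        push_cast
        rw [← hM]
        field_simp
      rw [e1]
      have e2 : Real.exp (2 - 2 * r) ≤ Real.exp 1 * Real.exp (-r) := by
        rw [← Real.exp_add]
        exact Real.exp_le_exp.2 (by linarith)
      refine e2.trans ?_
      gcongr
      linarith [exp_one_le]
  · have hc1 : θ * M ≤ ((⌈θ * M⌉ : ℤ) : ℝ) := Int.le_ceil _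
    have hc2 : ((⌈θ * M⌉ : ℤ) : ℝ) ≤ θ * M + 1 := (Int.ceil_lt_add_one _).le
    have hM0 : (0 : ℝ) ≤ M := Nat.cast_nonneg _
    have hl := HL μ (-M) (2 * M) (u / θ) (2 * ν) r hμ (by positivity)
      (by push_cast; rw [mul_pow, hM]; linarith) (by push_cast; rw [mul_pow, hM]; linarith) hr
      (by
        have : L * r ≤ κ⁻¹ * L * r := by gcongr
        have : 0 ≤ κ⁻¹ * L * r := by positivity
        linarith)
    rw [hcast] at hl
    have hg := incr_tail b1 e hμ M (x := u + 2 * (θ * M)) (y := u + 2 * ((⌈θ * M⌉ : ℤ) : ℝ))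
      (by linarith) (by linarith) r
    refine le_trans (measure_mono (t := (scaleE θ ⁻¹' {ω | T ω (-M) M (u / θ)
      (u / θ + ((2 * M : ℕ) : ℝ)) ≤ 2 * ((2 * M : ℕ) : ℝ) - L * r ^ 2 * (2 * ν)}) ∪
      {ω | ω M (u + 2 * ((⌈θ * M⌉ : ℤ) : ℝ)) - ω M (u + 2 * (θ * M)) ≤ -r}) ?_)
      ((measure_union_le _ _).trans ((add_le_add
        ((preimage_le (e.scaleE μ θ hμ hθ0) _).trans hl) hg).trans ?_))
    · intro ω hω
      by_contra hcon
      simp only [mem_union, mem_preimage, mem_ofPred_eq, not_or, not_le] at hω hcon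
      obtain ⟨c1, c2⟩ := hcon
      have a1 := d1.right ω (-M) M u (u + 2 * (θ * M)) (u + 2 * ((⌈θ * M⌉ : ℤ) : ℝ)) (by omega)
        (by have : 0 ≤ θ * M := by positivity
            linarith) (by linarith)
      have e1 : (u + 2 * (θ * M)) / θ = u / θ + ((2 * M : ℕ) : ℝ) := by
        push_cast
        field_simp
      rw [hsc ω u (u + 2 * (θ * M)), e1] at a1
      have a2 := mul_lt_mul_of_pos_left c1 hs0
      have a3 : 2 * ((⌈θ * M⌉ : ℤ) : ℝ) / √θ ≤ 2 * M * √θ + 2 * κ⁻¹ := by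
        rw [div_le_iff₀ hs0]
        have b1 : 1 ≤ κ⁻¹ * √θ := by
          rw [← div_eq_inv_mul, le_div_iff₀ h0]
          linarith
        have b2 : (2 * M * √θ + 2 * κ⁻¹) * √θ = 2 * (θ * M) + 2 * (κ⁻¹ * √θ) := by
          linear_combination (2 * M) * hss
        rw [b2]
        linarith
      have a4 : √θ * (L * r ^ 2 * (2 * ν)) ≤ 2 * (κ⁻¹ * L) * (r ^ 2 * ν) := by
        calc √θ * (L * r ^ 2 * (2 * ν)) ≤ κ⁻¹ * (L * r ^ 2 * (2 * ν)) := by gcongr
          _ = _ := by ring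
      have a5 : r ≤ κ⁻¹ * L * (r ^ 2 * ν) := by
        have : r ≤ r * ν := le_mul_of_one_le_right (by linarith) (by linarith)
        exact (this.trans hr2).trans (le_mul_of_one_le_left (by linarith) hκL)
      have a6 : κ⁻¹ ≤ κ⁻¹ * L * (r ^ 2 * ν) := by
        exact hκL''.trans (le_mul_of_one_le_right (by linarith) (by linarith))
      have a7 : 0 ≤ κ⁻¹ * L * (r ^ 2 * ν) := by positivity
      have a8 : √θ * (2 * ((2 * M : ℕ) : ℝ) - L * r ^ 2 * (2 * ν)) =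
          4 * M * √θ - √θ * (L * r ^ 2 * (2 * ν)) := by push_cast; ring
      rw [a8] at a2
      linarith
    · rw [← ENNReal.ofReal_add (by positivity) (by positivity)]
      refine ENNReal.ofReal_le_ofReal ?_
      rw [← add_mul]
      gcongr
      linarith

end Pool.Agent.MP_3d8edd_pr.H69
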