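import Pool.Agent.MP_3d8edd_pr.H69.Basic

/-!
The deterministic side of one step of the multi-scale argument.
-/

open Set

namespace Pool.Agent.MP_3d8edd_pr.H69

namespace StepDA

theorem key (d1 : Det1) {ω ω₀ : Env} {x : ℤ → ℝ} {θ o ρ d : ℝ} {N M : ℕ} {K e : ℤ}
    (hb : IsBi ω x) (hθ : 0 < θ) (hMN : M < N) (hρ : 0 ≤ ρ) (he : 0 ≤ e) (he0 : M = 0 → e = 0)
    (k1 : -(K : ℝ) ≤ x (-(M : ℤ))) (k2 : x M ≤ K)
    (ho : ∀ j ∈ ({-(M : ℤ), -(M : ℤ) + 1, (M : ℤ), (M : ℤ) + 1} : Set ℤ), ∀ i : ℤ, |i| ≤ K →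
      ∀ u ∈ Icc (i : ℝ) (i + 1), |ω j u - ω j i| ≤ o)
    (hu : 0 < M → ∀ u v : ℤ, |u| ≤ K → |v| ≤ K → u ≤ v →
      T ω (-M) M u v ≤ (v - u) / √θ + 2 * M * √θ + ρ)
    (hl : 0 < M → ∀ u : ℤ, |u| ≤ K →
      2 * e / √θ + 2 * M * √θ - ρ ≤ T ω (-M) M u ((u + 2 * e : ℤ) : ℝ))
    (hd : ∀ u v : ℤ, |u| ≤ K → |v| ≤ K → u ≤ v →
      |T ω (-N) (-M) u v - T ω₀ (-N) (-M) u v| ≤ d ∧ |T ω M N u v - T ω₀ M N u v| ≤ d)
    {a b u v : ℤ} (hv : v = u + 2 * e) (ka : -K ≤ a) (kb : b ≤ K) (au : a ≤ u) (vb : v ≤ b)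
    (ax : (a : ℝ) ≤ x (-(M : ℤ))) (xb : x M ≤ b) (xu : x (-(N : ℤ)) ≤ u) (vx : (v : ℝ) ≤ x N)
    (q1 : T ω (-N) (-M) a u + T ω (-N) (-M) (x (-(N : ℤ))) (x (-(M : ℤ))) ≤
      T ω (-N) (-M) a (x (-(M : ℤ))) + T ω (-N) (-M) (x (-(N : ℤ))) u)
    (q2 : T ω M N (x M) (x N) + T ω M N v b ≤ T ω M N (x M) b + T ω M N v (x N)) :
    T ω₀ (-N) (-M) a u + T ω₀ M N v b ≤
      T ω₀ (-N) (-M) a (⌈x (-(M : ℤ))⌉ : ℤ) + T ω₀ M N (⌊x M⌋ : ℤ) b +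
        ((⌊x M⌋ - e : ℤ) - (⌈x (-(M : ℤ))⌉ + e : ℤ)) / √θ + (4 * d + 2 * ρ + 8 * o + 4 / √θ) := by
  set xm := x (-(M : ℤ)) with hxm
  set xp := x M with hxp
  have hs : 0 < √θ := Real.sqrt_pos.2 hθ
  have l1 : -(N : ℤ) < -(M : ℤ) := by omega
  have l2 : -(M : ℤ) ≤ M := by omega
  have l3 : (M : ℤ) < N := by omega
  have mp : xm ≤ xp := hb.1 l2
  have uv : u ≤ v := by omega
  have f1 := Int.floor_le xm
  have f2 := Int.floor_le xp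
  have c1 := Int.le_ceil xm
  have c2 := Int.le_ceil xp
  have g1 := Int.ceil_le_floor_add_one xm
  have g2 := Int.ceil_le_floor_add_one xp
  have g1' : (⌈xm⌉ : ℝ) ≤ ⌊xm⌋ + 1 := by exact_mod_cast g1
  have g2' : (⌈xp⌉ : ℝ) ≤ ⌊xp⌋ + 1 := by exact_mod_cast g2
  have n1 : -K ≤ ⌊xm⌋ := Int.le_floor.2 (by push_cast; exact k1)
  have n2 : ⌈xp⌉ ≤ K := Int.ceil_le.2 k2
  have n3 : ⌊xm⌋ ≤ ⌊xp⌋ := Int.floor_mono mp
  have n4 : ⌈xm⌉ ≤ ⌈xp⌉ := Int.ceil_mono mp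
  have n5 := Int.floor_le_ceil xm
  have n6 := Int.floor_le_ceil xp
  have n7 : a ≤ ⌈xm⌉ := by exact_mod_cast ax.trans c1
  have n8 : ⌊xp⌋ ≤ b := by exact_mod_cast f2.trans xb
  have ab : ∀ {i : ℤ}, -K ≤ i → i ≤ K → |i| ≤ K := fun h h' => abs_le.2 ⟨h, h'⟩
  have km : |⌊xm⌋| ≤ K := ab n1 (by omega)
  have kp : |⌊xp⌋| ≤ K := ab (by omega) (by omega)
  have o1 := abs_le.1 (ho (-M) (by simp) _ km xm ⟨f1, by linarith⟩)
  have o2 := abs_le.1 (ho (-M) (by simp) _ km ⌈xm⌉ ⟨by linarith, g1'⟩)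
  have o3 := abs_le.1 (ho (-M + 1) (by simp) _ km xm ⟨f1, by linarith⟩)
  have o4 := abs_le.1 (ho M (by simp) _ kp xp ⟨f2, by linarith⟩)
  have o5 := abs_le.1 (ho M (by simp) _ kp ⌈xp⌉ ⟨by linarith, g2'⟩)
  have o6 := abs_le.1 (ho (M + 1) (by simp) _ kp xp ⟨f2, by linarith⟩)
  have r1 := d1.right ω (-N) (-M) a xm ⌈xm⌉ l1 ax c1
  have r2 := d1.left ω M N ⌊xp⌋ xp b l3 f2 xb
  have d₁ := abs_le.1 (hd a u (ab ka (by omega)) (ab (by omega) (by omega)) au).1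
  have d₂ := abs_le.1 (hd v b (ab (by omega) (by omega)) (ab (by omega) kb) vb).2
  have d₃ := abs_le.1 (hd a ⌈xm⌉ (ab ka (by omega)) (ab (by omega) (by omega)) n7).1
  have d₄ := abs_le.1 (hd ⌊xp⌋ b kp (ab (by omega) kb) n8).2
  have uv' : (u : ℝ) ≤ v := by exact_mod_cast uv
  have t1 := d1.concat ω (-N) (-M) M (x (-(N : ℤ))) u v ⟨l1.le, xu, fun h => absurd h l1.ne⟩
    ⟨l2, uv', fun h => by rw [hv, he0 (by omega)]; simp⟩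
  have t2 := d1.concat ω (-N) M N (x (-(N : ℤ))) v (x N)
    ⟨by omega, xu.trans uv', fun h => absurd h (by omega)⟩ ⟨l3.le, vx, fun h => absurd h l3.ne⟩
  have t3 : T ω (-N) N (x (-(N : ℤ))) (x N) = T ω (-N) (-M) (x (-(N : ℤ))) xm +
      (T ω (-M) M xm xp + T ω M N xp (x N)) := by
    rw [d1.bi_T ω x _ _ hb (by omega), d1.bi_T ω x _ _ hb l1.le, d1.bi_T ω x _ _ hb l2,
      d1.bi_T ω x _ _ hb l3.le, d1.split ω (-N) (-M) N x l1.le (by omega),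
      d1.split ω (-M) M N x l2 l3.le]
  have hin : T ω (-M) M xm xp - T ω (-M) M u v ≤
      ((⌊xp⌋ - e : ℤ) - (⌈xm⌉ + e : ℤ)) / √θ + 2 / √θ + 2 * ρ + 3 * o := by
    rw [← add_div]
    push_cast
    rcases Nat.eq_zero_or_pos M with h0 | h0
    · have e0 := he0 h0
      subst h0
      have e1 : xm = xp := by simp [hxm, hxp]
      have e2 : v = u := by omega
      have : 0 ≤ ((⌊xp⌋ : ℝ) - e - (⌈xm⌉ + e) + 2) / √θ :=
        div_nonneg (by rw [e0, e1]; push_cast; linarith) hs.le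
      rw [e1, e2] at *
      simp only [Nat.cast_zero, neg_zero, d1.self]
      linarith [o1.1, o1.2]
    · have l4 : -(M : ℤ) < M := by omega
      have s1 := d1.left ω (-M) M ⌊xm⌋ xm xp l4 f1 mp
      have s2 := d1.right ω (-M) M ⌊xm⌋ xp ⌈xp⌉ l4 (f1.trans mp) c2
      have s3 := hu h0 ⌊xm⌋ ⌈xp⌉ km (ab (by omega) n2) (by omega)
      have s4 := hl h0 u (ab (by omega) (by omega))
      rw [← hv] at s4
      have s5 : ((⌈xp⌉ : ℝ) - ⌊xm⌋) / √θ ≤ (⌊xp⌋ - e - (⌈xm⌉ + e) + 2) / √θ + 2 * e / √θ := by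
        rw [← add_div]
        exact div_le_div_of_nonneg_right (by linarith) hs.le
      linarith [o3.1, o4.2, o5.1]
  have h2 : 2 / √θ ≤ 4 / √θ := div_le_div_of_nonneg_right (by norm_num) hs.le
  linarith [o1.1, o1.2, o2.1, o6.1, d₁.1, d₂.1, d₃.2, d₄.2]

end StepDA

theorem stepD (d1 : Det1) : StepDStmt := by
  intro ω ω₀ x θ A A' o ρ d N M B w K hb hθ hMN hA hA' hρ hB hw hN hK ho hu hl hd
  have e1 := Int.le_ceil (θ * M)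
  have e2 := Int.ceil_lt_add_one (θ * M)
  have p1 : 0 ≤ θ * M := by positivity
  have p2 : 0 ≤ θ * N := by positivity
  have he : 0 ≤ ⌈θ * M⌉ := Int.ceil_nonneg p1
  have he0 : M = 0 → ⌈θ * M⌉ = 0 := fun h => by simp [h]
  obtain ⟨⟨a1, a2⟩, a3, a4⟩ := And.intro (abs_le.1 hA.1) (abs_le.1 hA.2)
  obtain ⟨⟨b1, b2⟩, b3, b4⟩ := And.intro (abs_le.1 hA'.1) (abs_le.1 hA'.2)
  have l1 : -(N : ℤ) < -(M : ℤ) := by omega
  have l3 : (M : ℤ) < N := by omega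
  have m1 : x (-(N : ℤ)) ≤ x (-(M : ℤ)) := hb.1 l1.le
  have m2 : x (-(M : ℤ)) ≤ x M := hb.1 (by omega)
  have m3 : x M ≤ x N := hb.1 l3.le
  have f1 := Int.floor_le (x M)
  have f2 := Int.lt_floor_add_one (x M)
  have c1 := Int.le_ceil (x (-(M : ℤ)))
  have c2 := Int.ceil_lt_add_one (x (-(M : ℤ)))
  have hz1 : ⌈x (-(M : ℤ))⌉ + ⌈θ * M⌉ ∈ Finset.Icc (-B) B := by
    rw [Finset.mem_Icc, ← Int.cast_le (R := ℝ), ← Int.cast_le (R := ℝ)]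
    push_cast
    constructor <;> linarith
  have hz2 : ⌊x M⌋ - ⌈θ * M⌉ ∈ Finset.Icc (-B) B := by
    rw [Finset.mem_Icc, ← Int.cast_le (R := ℝ), ← Int.cast_le (R := ℝ)]
    push_cast
    constructor <;> linarith
  have key := fun a b u v => StepDA.key d1 (ω₀ := ω₀) (K := K) (a := a) (b := b) (u := u) (v := v)
    hb hθ hMN hρ he he0 (by linarith) (by linarith) ho hu hl hd
  have i1 : -⌈θ * M⌉ + (⌈x (-(M : ℤ))⌉ + ⌈θ * M⌉) = ⌈x (-(M : ℤ))⌉ := by ring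
  have i2 : ⌈θ * M⌉ + (⌊x M⌋ - ⌈θ * M⌉) = ⌊x M⌋ := by ring
  push_cast at hN
  refine ⟨⟨_, hz1, _, hz2, fun y hy => ?_⟩, ⟨_, hz1, _, hz2, fun y hy => ?_⟩⟩
  · obtain ⟨y1, y2⟩ := Finset.mem_Icc.1 hy
    have y1' : (B : ℝ) ≤ y := by exact_mod_cast y1
    have y2' : (y : ℝ) ≤ w := by exact_mod_cast y2
    have g1 := Int.floor_le (-(θ * N) - A)
    have g2 := Int.lt_floor_add_one (-(θ * N) - A)
    have g3 := Int.floor_le (θ * N - A)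
    have g4 := Int.lt_floor_add_one (θ * N - A)
    have u1 : x (-(M : ℤ)) ≤ ((-⌈θ * M⌉ + y : ℤ) : ℝ) := by push_cast; linarith
    have v1 : x M ≤ ((⌈θ * M⌉ + y : ℤ) : ℝ) := by push_cast; linarith
    have v2 : ((⌈θ * M⌉ + y : ℤ) : ℝ) ≤ (⌊θ * N - A⌋ : ℤ) := by push_cast; linarith
    have := key ⌊-(θ * N) - A⌋ ⌊θ * N - A⌋ (-⌈θ * M⌉ + y) (⌈θ * M⌉ + y) (by ring)
      (Int.le_floor.2 (by push_cast; linarith)) (Int.cast_le (R := ℝ).1 (by linarith))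
      (Int.cast_le (R := ℝ).1 (by linarith)) (Int.cast_le.1 v2) (by linarith) (by linarith)
      (by linarith) (by linarith)
      (d1.quad ω _ _ _ _ _ _ l1 (by linarith) m1 u1) (d1.quad ω _ _ _ _ _ _ l3 v1 v2 (by linarith))
    rw [i1, i2]
    rw [sub_div] at this
    linarith
  · obtain ⟨y1, y2⟩ := Finset.mem_Icc.1 hy
    have y1' : (B : ℝ) ≤ y := by exact_mod_cast y1
    have y2' : (y : ℝ) ≤ w := by exact_mod_cast y2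
    have g1 := Int.le_ceil (-(θ * N) + A)
    have g2 := Int.ceil_lt_add_one (-(θ * N) + A)
    have g3 := Int.le_ceil (θ * N + A)
    have g4 := Int.ceil_lt_add_one (θ * N + A)
    have u1 : ((-⌈θ * M⌉ - y : ℤ) : ℝ) ≤ x (-(M : ℤ)) := by push_cast; linarith
    have u2 : ((⌈-(θ * N) + A⌉ : ℤ) : ℝ) ≤ ((-⌈θ * M⌉ - y : ℤ) : ℝ) := by push_cast; linarith
    have v1 : ((⌈θ * M⌉ - y : ℤ) : ℝ) ≤ x M := by push_cast; linarith
    have q1 := d1.quad ω _ _ (x (-(N : ℤ))) _ _ _ l1 (by linarith) u2 u1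
    have q2 := d1.quad ω _ _ _ _ _ (⌈θ * N + A⌉ : ℤ) l3 v1 m3 (by linarith)
    have := key ⌈-(θ * N) + A⌉ ⌈θ * N + A⌉ (-⌈θ * M⌉ - y) (⌈θ * M⌉ - y) (by ring)
      (Int.cast_le (R := ℝ).1 (by push_cast; linarith)) (Int.ceil_le.2 (by linarith))
      (Int.cast_le.1 u2) (Int.cast_le (R := ℝ).1 (by linarith)) (by linarith) (by linarith)
      (by linarith) (by linarith) (by linarith) (by linarith)
    rw [i1, i2]
    rw [sub_div] at this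
    linarith

end Pool.Agent.MP_3d8edd_pr.H69
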