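import Pool.Agent.MP_3d8edd_pr.H69.Basic

/-!
Row STEPS: the static side of a step (reduction of `StepEv` to `TwoEv`).
-/

open MeasureTheory ProbabilityTheory Set Filter
open scoped NNReal ENNReal Topology

namespace Pool.Agent.MP_3d8edd_pr.H69

namespace StepSA

theorem meas_clause (I J : Finset ℤ) (F : ℤ → Env → ℝ) (G : ℤ → ℤ → Env → ℝ)
    (hF : ∀ y, Measurable (F y)) (hG : ∀ a b, Measurable (G a b)) :
    MeasurableSet {ω | ∃ z₁ ∈ I, ∃ z₂ ∈ I, ∀ y ∈ J, F y ω ≤ G z₁ z₂ ω} := by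
  have e : {ω | ∃ z₁ ∈ I, ∃ z₂ ∈ I, ∀ y ∈ J, F y ω ≤ G z₁ z₂ ω} =
      ⋃ z₁ : ℤ, ⋃ _ : z₁ ∈ I, ⋃ z₂ : ℤ, ⋃ _ : z₂ ∈ I, ⋂ y : ℤ, ⋂ _ : y ∈ J,
        {ω | F y ω ≤ G z₁ z₂ ω} := by
    ext ω; simp
  rw [e]
  exact MeasurableSet.iUnion fun a => MeasurableSet.iUnion fun _ =>
    MeasurableSet.iUnion fun b => MeasurableSet.iUnion fun _ =>
      MeasurableSet.iInter fun y => MeasurableSet.iInter fun _ => measurableSet_le (hF y) (hG a b)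

theorem meas (d1 : Det1) (θ R : ℝ) (N M : ℕ) (A : ℝ) (B w : ℤ) :
    MeasurableSet (StepEv θ R N M A B w) := by
  refine MeasurableSet.inter (meas_clause _ _ _ _ (fun y => ?_) fun a b => ?_)
    (meas_clause _ _ _ _ (fun y => ?_) fun a b => ?_)
  · exact ((d1.meas _ _ _ _).sub_const _).add ((d1.meas _ _ _ _).add_const _)
  · exact (((d1.meas _ _ _ _).sub_const _).add ((d1.meas _ _ _ _).add_const _)).add_const _
  · exact ((d1.meas _ _ _ _).add_const _).add ((d1.meas _ _ _ _).sub_const _)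
  · exact (((d1.meas _ _ _ _).sub_const _).add ((d1.meas _ _ _ _).add_const _)).add_const _

theorem T_eq (d1 : Det1) {ω ω' : Env} {m k : ℤ} (h : ∀ j, m < j → j ≤ k → ω j = ω' j)
    (x y : ℝ) : T ω m k x y = T ω' m k x y :=
  d1.agree _ _ _ _ _ _ fun j a b _ _ _ _ => by rw [h j a b]

theorem dep (d1 : Det1) (θ R : ℝ) (N M : ℕ) (A : ℝ) (B w : ℤ) :
    Dep (StepEv θ R N M A B w) (Ioc (-(N : ℤ)) (-M) ∪ Ioc (M : ℤ) N) := by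
  intro ω ω' h hω
  have h1 : ∀ x y, T ω (-N) (-M) x y = T ω' (-N) (-M) x y :=
    T_eq d1 fun j a b => h j (Or.inl ⟨a, b⟩)
  have h2 : ∀ x y, T ω M N x y = T ω' M N x y :=
    T_eq d1 fun j a b => h j (Or.inr ⟨a, b⟩)
  simp only [StepEv, mem_ofPred_eq, h1, h2] at hω ⊢
  exact hω

theorem loc (d1 : Det1) (θ R : ℝ) (N M : ℕ) (A : ℝ) (B w K : ℤ) (hθ : 0 ≤ θ) (hA : 0 ≤ A)
    (hK : θ * N + A + 1 ≤ K) (hK' : ⌈θ * M⌉ + |B| + |w| ≤ K) :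
    Loc (StepEv θ R N M A B w) (-N) N (-K : ℤ) K := by
  intro ω ω' h hω
  have h1 : ∀ u v : ℤ, -K ≤ u → v ≤ K → T ω (-N) (-M) u v = T ω' (-N) (-M) u v :=
    fun u v a b => d1.agree _ _ _ _ _ _
      (h.mono le_rfl (by omega) (by exact_mod_cast a) (by exact_mod_cast b))
  have h2 : ∀ u v : ℤ, -K ≤ u → v ≤ K → T ω M N u v = T ω' M N u v :=
    fun u v a b => d1.agree _ _ _ _ _ _
      (h.mono (by omega) le_rfl (by exact_mod_cast a) (by exact_mod_cast b))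
  have he : 0 ≤ ⌈θ * M⌉ := Int.ceil_nonneg (by positivity)
  have hN : 0 ≤ θ * N := by positivity
  have b1 : -K ≤ ⌊-(θ * N) - A⌋ := Int.le_floor.2 (by push_cast; linarith)
  have b2 : ⌊θ * N - A⌋ ≤ K := Int.floor_le_iff.2 (by linarith)
  have b3 : -K ≤ ⌈-(θ * N) + A⌉ := Int.le_ceil_iff.2 (by push_cast; linarith)
  have b4 : ⌈θ * N + A⌉ ≤ K := Int.ceil_le.2 (by linarith)
  have c1 := le_abs_self B
  have c2 := neg_abs_le B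
  have c3 := le_abs_self w
  have c4 := abs_nonneg w
  have c5 := abs_nonneg B
  obtain ⟨⟨z₁, hz₁, z₂, hz₂, H⟩, ⟨u₁, hu₁, u₂, hu₂, H'⟩⟩ := hω
  refine ⟨⟨z₁, hz₁, z₂, hz₂, fun y hy => ?_⟩, ⟨u₁, hu₁, u₂, hu₂, fun y hy => ?_⟩⟩
  · have := H y hy
    rw [Finset.mem_Icc] at hz₁ hz₂ hy
    rwa [h1 _ _ b1 (by omega), h1 _ _ b1 (by omega), h2 _ _ (by omega) b2,
      h2 _ _ (by omega) b2] at this
  · have := H' y hy
    rw [Finset.mem_Icc] at hu₁ hu₂ hy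
    rwa [h1 _ _ b3 (by omega), h1 _ _ b3 (by omega), h2 _ _ (by omega) b4,
      h2 _ _ (by omega) b4] at this

/-- The first change of variables. -/
noncomputable def Φ (θ c : ℝ) (N : ℕ) (ω : Env) : Env := scaleE θ (shiftE (-c) (-N) ω)

theorem T_Φ (d1 : Det1) {θ : ℝ} (hθ : 0 < θ) (c : ℝ) {N M : ℕ} (h : M ≤ N) (ω : Env) (x y : ℝ) :
    T (Φ θ c N ω) 0 ((N - M : ℕ) : ℤ) ((x + c) / θ) (y / θ) =
      T ω (-N) (-M) x (-c + y) / √θ := by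
  have hs : 0 < √θ := Real.sqrt_pos.2 hθ
  have a := d1.scaleE (shiftE (-c) (-N) ω) θ 0 ((N - M : ℕ) : ℤ) ((x + c) / θ) (y / θ) hθ
  rw [d1.shiftE, mul_div_cancel₀ _ hθ.ne', mul_div_cancel₀ _ hθ.ne'] at a
  have e1 : (0 : ℤ) + -(N : ℤ) = -N := by ring
  have e2 : ((N - M : ℕ) : ℤ) + -(N : ℤ) = -M := by push_cast [h]; ring
  have e3 : -c + (x + c) = x := by ring
  rw [e1, e2, e3] at a
  rw [a, Φ]; field_simp

theorem T_Φrot (d1 : Det1) {θ : ℝ} (hθ : 0 < θ) (c : ℝ) {N M : ℕ} (h : M ≤ N) (ω : Env)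
    (x y : ℝ) :
    T (Φ θ c N (rotE ω)) 0 ((N - M : ℕ) : ℤ) ((-x + c) / θ) (y / θ) =
      T ω M N (c - y) x / √θ := by
  rw [T_Φ d1 hθ c h, d1.rotE, neg_neg, neg_neg, neg_neg]
  congr 2; ring

theorem subset (d1 : Det1) {θ : ℝ} (hθ : 0 < θ) (R : ℝ) {N M : ℕ} (h : M ≤ N) (A : ℝ)
    (B w : ℤ) (p : Env × Env)
    (hp : (fun j => if j ∈ Iic (-(M : ℤ)) then p.1 j else p.2 j) ∈ StepEv θ R N M A B w) :
    (Φ θ (⌈θ * M⌉ : ℤ) N p.1, Φ θ (⌈θ * M⌉ : ℤ) N (rotE p.2)) ∈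
      TwoEv (N - M) (((⌊-(θ * N) - A⌋ : ℤ) + (⌈θ * M⌉ : ℤ)) / θ)
        (((⌈-(θ * N) + A⌉ : ℤ) + (⌈θ * M⌉ : ℤ)) / θ)
        ((-(⌈θ * N + A⌉ : ℤ) + (⌈θ * M⌉ : ℤ)) / θ)
        ((-(⌊θ * N - A⌋ : ℤ) + (⌈θ * M⌉ : ℤ)) / θ) (B / θ) (R / √θ)
        ((fun y : ℤ => (y : ℝ) / θ) '' Icc B w) := by
  have hs : 0 < √θ := Real.sqrt_pos.2 hθ
  have hss : √θ * √θ = θ := Real.mul_self_sqrt hθ.le
  have h1 : ∀ x y, T (fun j => if j ∈ Iic (-(M : ℤ)) then p.1 j else p.2 j) (-N) (-M) x y =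
      T p.1 (-N) (-M) x y := T_eq d1 fun j _ b => if_pos b
  have h2 : ∀ x y, T (fun j => if j ∈ Iic (-(M : ℤ)) then p.1 j else p.2 j) M N x y =
      T p.2 M N x y := T_eq d1 fun j a _ => if_neg (by rw [mem_Iic]; omega)
  simp only [StepEv, mem_ofPred_eq, h1, h2] at hp
  have mem : ∀ z : ℤ, z ∈ Finset.Icc (-B) B → (z : ℝ) / θ ∈ Icc (-((B : ℝ) / θ)) (B / θ) ∧
      (-(z : ℝ)) / θ ∈ Icc (-((B : ℝ) / θ)) (B / θ) := by
    intro z hz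
    rw [Finset.mem_Icc] at hz
    have a : (-(B : ℝ)) ≤ z := by exact_mod_cast hz.1
    have b : (z : ℝ) ≤ B := by exact_mod_cast hz.2
    rw [← neg_div]
    exact ⟨⟨by gcongr, by gcongr⟩, ⟨by gcongr, by gcongr; linarith⟩⟩
  have dd : ∀ u : ℝ, u / θ = u / √θ / √θ := fun u => by rw [div_div, hss]
  obtain ⟨⟨z₁, hz₁, z₂, hz₂, H⟩, ⟨u₁, hu₁, u₂, hu₂, H'⟩⟩ := hp
  refine ⟨⟨_, (mem z₁ hz₁).1, _, (mem z₂ hz₂).2, ?_⟩, ⟨_, (mem u₁ hu₁).1, _, (mem u₂ hu₂).2, ?_⟩⟩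
  · rintro _ ⟨y, hy, rfl⟩
    have := div_le_div_of_nonneg_right (H y (Finset.mem_Icc.2 hy)) hs.le
    simp only [← neg_div]
    rw [T_Φrot d1 hθ _ h, T_Φrot d1 hθ _ h, T_Φ d1 hθ _ h, T_Φ d1 hθ _ h, sub_neg_eq_add,
      sub_neg_eq_add, dd y, dd z₁, dd (-z₂)]
    push_cast at this
    simp only [add_div, sub_div, neg_div] at this ⊢
    linarith
  · rintro _ ⟨y, hy, rfl⟩
    have := div_le_div_of_nonneg_right (H' y (Finset.mem_Icc.2 hy)) hs.le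
    simp only [← neg_div]
    rw [T_Φrot d1 hθ _ h, T_Φrot d1 hθ _ h, T_Φ d1 hθ _ h, T_Φ d1 hθ _ h, sub_neg_eq_add,
      ← sub_eq_add_neg, dd y, dd u₁, dd (-u₂)]
    push_cast at this
    simp only [add_div, sub_div, neg_div] at this ⊢
    linarith

theorem near {θ L q x : ℝ} (hθ : 0 < θ) (hL : θ⁻¹ ≤ L) (n : ℝ)
    (h : |x + θ * n| ≤ q) : |x / θ + n| ≤ L * q := by
  have e : x / θ + n = θ⁻¹ * (x + θ * n) := by field_simp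
  rw [e, abs_mul, abs_of_pos (inv_pos.2 hθ)]
  exact mul_le_mul hL h (abs_nonneg _) ((inv_pos.2 hθ).le.trans hL)

theorem dense {θ ν : ℝ} (hθ : 0 < θ) {B : ℤ} (hB : 1 ≤ B) (hBw : B ≤ ⌊θ * ν ^ 2⌋) (y : ℝ)
    (hy : y ∈ Icc 0 (ν ^ 2)) :
    ∃ y' ∈ (fun y : ℤ => (y : ℝ) / θ) '' Icc B ⌊θ * ν ^ 2⌋, |y' - y| ≤ 2 * ((B : ℝ) / θ) := by
  have h0 : 0 ≤ θ * y := mul_nonneg hθ.le hy.1
  have h1 : θ * y ≤ θ * ν ^ 2 := mul_le_mul_of_nonneg_left hy.2 hθ.le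
  have hB' : (1 : ℝ) ≤ B := by exact_mod_cast hB
  refine ⟨_, ⟨max B ⌊θ * y⌋, ⟨le_max_left _ _, max_le hBw (Int.floor_mono h1)⟩, rfl⟩, ?_⟩
  have e : ((max B ⌊θ * y⌋ : ℤ) : ℝ) / θ - y = (((max B ⌊θ * y⌋ : ℤ) : ℝ) - θ * y) / θ := by
    field_simp
  rw [e, abs_div, abs_of_pos hθ, ← mul_div_assoc]
  gcongr
  have f1 := Int.floor_le (θ * y)
  have f2 := Int.lt_floor_add_one (θ * y)
  rcases le_total B ⌊θ * y⌋ with h | h
  · rw [max_eq_right h, abs_le]; constructor <;> linarith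
  · have h' : ((⌊θ * y⌋ : ℤ) : ℝ) ≤ B := by exact_mod_cast h
    rw [max_eq_left h, abs_le]; constructor <;> linarith

theorem final {C L s r R b ν : ℝ} (hC : 1 ≤ C) (hL : 1 ≤ L) (hs : 0 < s) (hsL : s⁻¹ ≤ L)
    (hr : 1 ≤ r) (hR : 0 ≤ R) (hb : 0 ≤ b) (hν : 0 < ν) :
    (C * (4 * L * r) * (R / s + 4 * L * r * (b / s)) / ν) ^ 2 +
        C * ν ^ 2 * Real.exp (-(4 * L * r)) ≤
      (16 * L ^ 3 * C * r * (R + r * b) / ν) ^ 2 + 16 * L ^ 3 * C * ν ^ 2 * Real.exp (-r) := by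
  have hL3 : 1 ≤ L ^ 3 := one_le_pow₀ hL
  have h1 : R / s + 4 * L * r * (b / s) ≤ 4 * L ^ 2 * (R + r * b) := by
    have a1 : R / s ≤ L * R := by rw [div_eq_inv_mul]; gcongr
    have a2 : b / s ≤ L * b := by rw [div_eq_inv_mul]; gcongr
    have a3 : 4 * L * r * (b / s) ≤ 4 * L * r * (L * b) := by gcongr
    have a4 : L * R ≤ 4 * L ^ 2 * R := by gcongr; nlinarith
    nlinarith
  have h2 : C * (4 * L * r) * (R / s + 4 * L * r * (b / s)) ≤ 16 * L ^ 3 * C * r * (R + r * b) := by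
    calc _ ≤ C * (4 * L * r) * (4 * L ^ 2 * (R + r * b)) := by gcongr
      _ = _ := by ring
  have h3 : Real.exp (-(4 * L * r)) ≤ Real.exp (-r) := by
    apply Real.exp_le_exp.2; nlinarith
  have h4 : C ≤ 16 * L ^ 3 * C := by nlinarith
  gcongr

theorem prob (d1 : Det1) (e : EnvA) (tw : TwoStmt) (κ : ℝ) (hκ : 0 < κ) (hκ1 : κ ≤ 1) :
    ∃ C : ℝ, 1 ≤ C ∧ ∀ μ θ R (N M : ℕ) (A ν r : ℝ) (B : ℤ),
    IsBM μ 0 → θ ∈ Icc κ κ⁻¹ → 2 * M ≤ N → 0 < ν → ν ^ 3 = N → 1 ≤ r → C * r ≤ ν → 0 ≤ A →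
    A ≤ r * ν ^ 2 → κ⁻¹ ≤ B → C * B ≤ ν ^ 2 → 0 ≤ R →
    PP μ (StepEv θ R N M A B ⌊θ * ν ^ 2⌋) ≤
      ENNReal.ofReal ((C * r * (R + r * √B) / ν) ^ 2 + C * ν ^ 2 * Real.exp (-r)) := by
  obtain ⟨C, hC, H⟩ := tw
  have hL : 1 ≤ κ⁻¹ := (one_le_inv₀ hκ).2 hκ1
  set L := κ⁻¹ with hLdef
  have hL3 : L ≤ L ^ 3 := le_self_pow₀ hL (by norm_num)
  have hC' : 1 ≤ 16 * L ^ 3 * C := by nlinarith
  refine ⟨16 * L ^ 3 * C, hC', ?_⟩
  intro μ θ R N M A ν r B hμ hθ hMN hν hν3 hr hCr hA hAr hB hCB hR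
  have := hμ.prob
  have hθ0 : 0 < θ := hκ.trans_le hθ.1
  have hs : 0 < √θ := Real.sqrt_pos.2 hθ0
  have hθL : θ⁻¹ ≤ L := inv_anti₀ hκ hθ.1
  have hsL : (√θ)⁻¹ ≤ L := inv_anti₀ hκ (Real.le_sqrt_of_sq_le (by nlinarith [hθ.1]))
  have hMN' : M ≤ N := by omega
  have hB1 : (1 : ℝ) ≤ B := hL.trans hB
  have hν1 : 1 ≤ ν := by nlinarith
  have hν2 : 1 ≤ ν ^ 2 := one_le_pow₀ hν1
  have hq : 1 ≤ r * ν ^ 2 := by nlinarith
  have hBθ : (B : ℝ) / θ ≤ ν ^ 2 := by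
    calc (B : ℝ) / θ = θ⁻¹ * B := div_eq_inv_mul _ _
      _ ≤ L * B := by gcongr
      _ ≤ 16 * L ^ 3 * C * B := by gcongr; nlinarith
      _ ≤ _ := hCB
  have hn : ((N - M : ℕ) : ℝ) = N - M := by push_cast [hMN']; ring
  have hMN'' : 2 * (M : ℝ) ≤ N := by exact_mod_cast hMN
  have hM0 : (0 : ℝ) ≤ M := Nat.cast_nonneg _
  have c1 := Int.le_ceil (θ * M)
  have c2 := Int.ceil_lt_add_one (θ * M)
  have key : ∀ x : ℝ, |x + θ * (N - M)| ≤ A + 2 →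
      |x / θ + ((N - M : ℕ) : ℝ)| ≤ 4 * L * r * ν ^ 2 := by
    intro x hx
    rw [hn]
    refine (near hθ0 hθL _ hx).trans ?_
    calc L * (A + 2) ≤ L * (4 * (r * ν ^ 2)) := by gcongr; linarith
      _ = _ := by ring
  have hb := H μ (N - M) ν (4 * L * r) (B / θ) (R / √θ)
    (((⌊-(θ * N) - A⌋ : ℤ) + (⌈θ * M⌉ : ℤ)) / θ) (((⌈-(θ * N) + A⌉ : ℤ) + (⌈θ * M⌉ : ℤ)) / θ)
    ((-(⌈θ * N + A⌉ : ℤ) + (⌈θ * M⌉ : ℤ)) / θ) ((-(⌊θ * N - A⌋ : ℤ) + (⌈θ * M⌉ : ℤ)) / θ)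
    ((fun y : ℤ => (y : ℝ) / θ) '' Icc B ⌊θ * ν ^ 2⌋) hμ hν (by rw [hn, hν3]; linarith)
    (by rw [hn, hν3]; linarith) (by nlinarith)
    (by
      refine le_trans ?_ hCr
      calc C * (4 * L * r) = 4 * L * (C * r) := by ring
        _ ≤ 16 * L ^ 3 * (C * r) := by gcongr ?_ * _; linarith
        _ = _ := by ring)
    (by rw [one_le_div hθ0]; exact hθ.2.trans hB) hBθ (by positivity)
    (key _ (by
      have f1 := Int.floor_le (-(θ * N) - A)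
      have f2 := Int.lt_floor_add_one (-(θ * N) - A)
      rw [abs_le]; constructor <;> linarith))
    (key _ (by
      have f1 := Int.le_ceil (-(θ * N) + A)
      have f2 := Int.ceil_lt_add_one (-(θ * N) + A)
      rw [abs_le]; constructor <;> linarith))
    (key _ (by
      have f1 := Int.le_ceil (θ * N + A)
      have f2 := Int.ceil_lt_add_one (θ * N + A)
      rw [abs_le]; constructor <;> linarith))
    (key _ (by
      have f1 := Int.floor_le (θ * N - A)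
      have f2 := Int.lt_floor_add_one (θ * N - A)
      rw [abs_le]; constructor <;> linarith))
    (by
      rintro _ ⟨y, hy, rfl⟩
      have a : (B : ℝ) ≤ y := by exact_mod_cast hy.1
      have b : (y : ℝ) ≤ θ * ν ^ 2 := Int.le_floor.1 hy.2
      exact ⟨div_le_div_of_nonneg_right a hθ0.le, (div_le_iff₀ hθ0).2 (by linarith)⟩)
    (dense hθ0 (by exact_mod_cast hB1)
      (Int.le_floor.2 (by rw [div_le_iff₀ hθ0] at hBθ; linarith)))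
  have mΦ : MeasurePreserving (Φ θ (⌈θ * M⌉ : ℤ) N) (PP μ) (PP μ) :=
    (e.scaleE μ θ hμ hθ0).comp (e.shiftE μ _ _ hμ)
  have mP := mΦ.prod (mΦ.comp (e.rotE μ hμ))
  rw [← (e.glue μ (Iic (-(M : ℤ))) hμ).measure_preimage (meas d1 _ _ _ _ _ _ _).nullMeasurableSet]
  refine (measure_mono ?_).trans ((preimage_le mP _).trans (hb.trans ?_))
  · intro p hp
    exact subset d1 hθ0 R hMN' A B _ p hp
  · apply ENNReal.ofReal_le_ofReal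
    rw [Real.sqrt_div (by linarith)]
    exact final hC hL hs hsL hr hR (Real.sqrt_nonneg _) hν

end StepSA

theorem stepS (d1 : Det1) (e : EnvA) (tw : TwoStmt) : StepS where
  meas := StepSA.meas d1
  dep := StepSA.dep d1
  loc := fun θ R N M A B w K hθ hA _ hK hK' => StepSA.loc d1 θ R N M A B w K hθ hA hK hK'
  prob := StepSA.prob d1 e tw

end Pool.Agent.MP_3d8edd_pr.H69
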