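import Pool.Agent.MP_3d8edd_pr.H69.Basic

/-! Row STRUCT: a nontrivial bigeodesic has finite jump positions. -/

open Set

namespace Pool.Agent.MP_3d8edd_pr.H69

namespace StructA

theorem two_line {W : ℤ → ℝ → ℝ} {a b c : ℝ} {m : ℤ} {t : ℤ → ℝ}
    (h : IsGeodesic W (a, m) (b, m + 1) t) (hac : a ≤ c) (hcb : c ≤ b) :
    W m c - W (m + 1) c ≤ W m (t m) - W (m + 1) (t m) := by
  obtain ⟨⟨h1, h2, _⟩, h4⟩ := h
  let t' : ℤ → ℝ := fun j => if j < m then a else if j = m then c else b
  have e0 : t' (m - 1) = a := by simp [t']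
  have e1 : t' m = c := by simp [t']
  have e2 : t' (m + 1) = b := by
    have : ¬ (m + 1 < m) := by omega
    simp [t', this]
  have hp : IsPath (a, m) (b, m + 1) t' := by
    refine ⟨e0, e2, fun j hj hj' => ?_⟩
    have : j = m ∨ j = m + 1 := by simp only at hj hj'; omega
    rcases this with rfl | rfl
    · rw [e0, e1]; exact hac
    · rw [add_sub_cancel_right, e1, e2]; exact hcb
  have hI : Finset.Icc m (m + 1) = {m, m + 1} := by
    ext j; simp only [Finset.mem_Icc, Finset.mem_insert, Finset.mem_singleton]; omega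
  have hne : m ≠ m + 1 := by omega
  have := h4 t' hp
  simp only [pathWeight, hI, Finset.sum_pair hne, add_sub_cancel_right, e0, e1, e2] at this
  simp only at h1 h2
  rw [h1, h2] at this
  linarith

end StructA

open StructA

theorem structS : StructStmt := by
  rintro ω Γ ⟨τ, hmono, hΓ, ⟨p0, hp0⟩, hgeo⟩ ⟨hn1, hn2⟩ hray
  have hmem : ∀ p : ℝ × ℤ, p ∈ Γ ↔ τ (p.2 - 1) ≤ (p.1 : EReal) ∧ (p.1 : EReal) ≤ τ p.2 := by
    intro p; rw [hΓ]; rfl
  have h0 := (hmem p0).1 hp0
  have htop : ∀ j, τ j ≠ ⊤ := by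
    intro j hj
    obtain ⟨j0, hj0, hmin⟩ := Int.exists_least_of_bdd (P := fun j => τ j = ⊤)
      ⟨p0.2, fun z hz => by
        by_contra hc
        have h1 : τ z ≤ τ (p0.2 - 1) := hmono (by omega)
        rw [hz] at h1
        exact EReal.coe_ne_top _ (top_le_iff.1 (h1.trans h0.1))⟩ ⟨j, hj⟩
    have h1 : τ (j0 - 1) ≠ ⊤ := fun h => by have := hmin _ h; omega
    by_cases h2 : τ (j0 - 1) = ⊥
    · refine hn1 ⟨j0, fun p hp => ?_⟩
      obtain ⟨a1, a2⟩ := (hmem p).1 hp
      rcases lt_trichotomy p.2 j0 with h | h | h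
      · have h3 : τ p.2 ≤ τ (j0 - 1) := hmono (by omega)
        rw [h2] at h3
        exact absurd (le_bot_iff.1 (a2.trans h3)) (EReal.coe_ne_bot _)
      · exact h
      · have h3 : τ j0 ≤ τ (p.2 - 1) := hmono (by omega)
        rw [hj0] at h3
        exact absurd (top_le_iff.1 (h3.trans a1)) (EReal.coe_ne_top _)
    · have hx : ((τ (j0 - 1)).toReal : EReal) = τ (j0 - 1) := EReal.coe_toReal h1 h2
      set x := (τ (j0 - 1)).toReal
      refine (hray (j0 - 1) x).2 fun z hz => ?_
      have hp : (x, j0 - 1) ∈ Γ := (hmem _).2 ⟨by rw [hx]; exact hmono (by omega), hx.le⟩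
      have hq : (z, j0 - 1 + 1) ∈ Γ := (hmem _).2 ⟨by
        simp only [add_sub_cancel_right]
        rw [← hx]; exact EReal.coe_le_coe_iff.2 hz, by simp [hj0]⟩
      obtain ⟨t, ht, ht'⟩ := hgeo _ hp _ hq ⟨hz, by simp⟩
      have e : t (j0 - 1) = x := by
        have := ht' (j0 - 1) le_rfl (by simp)
        rw [← hx] at this
        exact EReal.coe_eq_coe_iff.1 this
      have := two_line ht hz le_rfl
      rwa [e] at this
  have hbot : ∀ j, τ j ≠ ⊥ := by
    intro j hj
    obtain ⟨j1, hj1, hmax⟩ := Int.exists_greatest_of_bdd (P := fun j => τ j = ⊥)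
      ⟨p0.2, fun z hz => by
        by_contra hc
        have h1 : τ p0.2 ≤ τ z := hmono (by omega)
        rw [hz] at h1
        exact EReal.coe_ne_bot _ (le_bot_iff.1 (h0.2.trans h1))⟩ ⟨j, hj⟩
    have h1 : τ (j1 + 1) ≠ ⊥ := fun h => by have := hmax _ h; omega
    have hx : ((τ (j1 + 1)).toReal : EReal) = τ (j1 + 1) := EReal.coe_toReal (htop _) h1
    set x := (τ (j1 + 1)).toReal
    refine (hray (j1 + 1) x).1 fun z hz => ?_
    have hp : (z, j1 + 1) ∈ Γ := (hmem _).2 ⟨by simp [hj1], by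
      rw [← hx]; exact EReal.coe_le_coe_iff.2 hz⟩
    have hq : (x, j1 + 1 + 1) ∈ Γ := (hmem _).2 ⟨by
      simp only [add_sub_cancel_right]; exact hx.ge, by
      rw [hx]; exact hmono (by simp)⟩
    obtain ⟨t, ht, ht'⟩ := hgeo _ hp _ hq ⟨hz, by simp⟩
    have e : t (j1 + 1) = x := by
      have := ht' (j1 + 1) le_rfl (by simp)
      rw [← hx] at this
      exact EReal.coe_eq_coe_iff.1 this
    have := two_line ht le_rfl hz
    rwa [e] at this
  let x : ℤ → ℝ := fun j => (τ j).toReal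
  have hx : ∀ j, (x j : EReal) = τ j := fun j => EReal.coe_toReal (htop j) (hbot j)
  have hxm : Monotone x := fun i j hij => by
    rw [← EReal.coe_le_coe_iff, hx, hx]; exact hmono hij
  have hin : ∀ j, (x j, j) ∈ Γ := fun j =>
    (hmem _).2 ⟨by rw [hx]; exact hmono (by simp), (hx j).le⟩
  refine ⟨x, ⟨hxm, fun m k hmk t ht => ?_⟩, ?_, hin⟩
  · rcases hmk.eq_or_lt with rfl | hlt
    · simp [wt]
    have hp : (x m, m + 1) ∈ Γ := (hmem _).2 ⟨by
      simp only [add_sub_cancel_right]; exact (hx m).ge, by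
      rw [hx]; exact hmono (by simp)⟩
    obtain ⟨s, ⟨⟨s1, s2, _⟩, s4⟩, s5⟩ := hgeo _ hp _ (hin k) ⟨hxm hmk, by simpa using hlt⟩
    simp only [add_sub_cancel_right] at s1 s2 s5
    have hs : ∀ j, m ≤ j → j ≤ k → s j = x j := by
      intro j a b
      rcases a.eq_or_lt with rfl | a
      · exact s1
      rcases b.eq_or_lt with rfl | b
      · exact s2
      have := s5 j (by omega) b
      rw [← hx] at this
      exact EReal.coe_eq_coe_iff.1 this
    have hI : Finset.Icc (m + 1) k = Finset.Ioc m k := by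
      ext j; simp only [Finset.mem_Icc, Finset.mem_Ioc]; omega
    have hpt : IsPath (x m, m + 1) (x k, k) t := by
      refine ⟨by simpa using ht.1, ht.2.1, fun j a b => ?_⟩
      simp only at a b
      exact ht.2.2 ⟨by omega, by omega⟩ ⟨by omega, b⟩ (by omega)
    have := s4 t hpt
    simp only [pathWeight, hI] at this
    refine this.trans (le_of_eq ?_)
    refine Finset.sum_congr rfl fun j hj => ?_
    rw [Finset.mem_Ioc] at hj
    rw [hs j hj.1.le hj.2, hs (j - 1) (by omega) (by omega)]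
  · by_contra hc
    push Not at hc
    have h1 : ∀ k, x (k + 1) = x k := fun k => le_antisymm (hc k) (hxm (by omega))
    have h2 : ∀ k, x k = x 0 := by
      intro k
      induction k using Int.induction_on with
      | zero => rfl
      | succ i ih => rw [h1, ih]
      | pred i ih =>
        rw [← h1 (-(i : ℤ) - 1), sub_add_cancel, ih]
    refine hn2 ⟨x 0, ?_⟩
    ext p
    rw [hmem, ← hx, ← hx, h2, h2 p.2, EReal.coe_le_coe_iff, EReal.coe_le_coe_iff]
    exact ⟨fun h => le_antisymm h.2 h.1, fun h => ⟨le_of_eq (Eq.symm h), le_of_eq h⟩⟩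

end Pool.Agent.MP_3d8edd_pr.H69
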