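import Pool.Agent.MP_3d8edd_pr.H69.Basic

/-!
The maximum of a Brownian motion with positive drift on the left half line is exponential.
-/

open MeasureTheory ProbabilityTheory Set Filter
open scoped NNReal ENNReal Topology

namespace Pool.Agent.MP_3d8edd_pr.H69

namespace SupA

theorem total (a t : ℝ) (ht : 0 ≤ t) :
    ∫⁻ x, ENNReal.ofReal (Real.exp (a * x - a ^ 2 * t / 2)) ∂gaussianReal 0 t.toNNReal = 1 := by
  have h1 : Integrable (fun x => Real.exp (a * x)) (gaussianReal 0 t.toNNReal) :=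
    integrable_exp_mul_gaussianReal a
  have h2 : ∀ x, Real.exp (a * x - a ^ 2 * t / 2) =
      Real.exp (a * x) * Real.exp (-(a ^ 2 * t / 2)) := fun x => by
    rw [← Real.exp_add]; rfl
  simp_rw [h2]
  rw [← ofReal_integral_eq_lintegral_ofReal (h1.mul_const _)
    (Eventually.of_forall fun x => by positivity), integral_mul_const]
  have h3 := congrFun (mgf_id_gaussianReal (μ := 0) (v := t.toNNReal)) a
  simp only [mgf, id] at h3
  rw [h3, ← Real.exp_add, Real.coe_toNNReal _ ht]
  have h4 : 0 * a + t * a ^ 2 / 2 + -(a ^ 2 * t / 2) = 0 := by ring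
  rw [h4, Real.exp_zero, ENNReal.ofReal_one]

/-- The probability that a motion with drift `-a` exceeds `m` on `[0, t]`. -/
theorem finite (rf : Ref) (c : CMStmt) {μ : Measure CP} (hμ : IsBM μ 0) (a : ℝ) {t m : ℝ}
    (ht : 0 < t) (hm : 0 ≤ m) :
    μ {f | m < smax (f + (-a) • clamp t) t} =
      ∫⁻ x in Ioi m, ENNReal.ofReal (Real.exp (-a * x - a ^ 2 * t / 2))
          ∂gaussianReal 0 t.toNNReal +
        ENNReal.ofReal (Real.exp (-(2 * a * m))) *
          ∫⁻ x in Ioi m, ENNReal.ofReal (Real.exp (a * x - a ^ 2 * t / 2))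
            ∂gaussianReal 0 t.toNNReal := by
  have hA : MeasurableSet {f : CP | m < smax f t} :=
    measurableSet_lt measurable_const (measurable_smax t)
  have hF : Measurable fun f : CP => f + (-a) • clamp t := by fun_prop
  have h1 : μ {f | m < smax (f + (-a) • clamp t) t} =
      (μ.map fun f : CP => f + (-a) • clamp t) {f : CP | m < smax f t} := by
    rw [Measure.map_apply hF hA]; rfl
  have hφ : Measurable fun x : ℝ => ENNReal.ofReal (Real.exp (-a * x - a ^ 2 * t / 2)) := by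
    fun_prop
  have h2 : ∫⁻ f in {f : CP | m < smax f t},
      ENNReal.ofReal (Real.exp (-a * (f t - 0 * t) - (-a) ^ 2 * t / 2)) ∂μ =
      ∫⁻ x, ENNReal.ofReal (Real.exp (-a * x - a ^ 2 * t / 2))
        ∂(μ.restrict {f : CP | m < smax f t}).map (fun f : CP => f t) := by
    rw [lintegral_map hφ (measurable_ev t)]
    simp only [zero_mul, sub_zero, neg_sq]
  rw [h1, c μ 0 (-a) t hμ ht.le, withDensity_apply _ hA, h2, rf.refl μ t m hμ ht hm,
    lintegral_add_measure, lintegral_map hφ (by fun_prop), ← lintegral_const_mul _ (by fun_prop)]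
  congr 1
  refine lintegral_congr fun x => ?_
  rw [← ENNReal.ofReal_mul (Real.exp_pos _).le, ← Real.exp_add]
  congr 2
  ring

theorem upper (rf : Ref) (c : CMStmt) {μ : Measure CP} (hμ : IsBM μ 0) {a t m : ℝ} (ha : 0 < a)
    (ht : 0 < t) (hm : 0 ≤ m) :
    μ {f | m < smax (f + (-a) • clamp t) t} ≤
      ENNReal.ofReal (Real.exp (-(a ^ 2 * t / 2))) + ENNReal.ofReal (Real.exp (-(2 * a * m))) := by
  rw [finite rf c hμ a ht hm]
  refine add_le_add ?_ ?_
  · calc _ ≤ ∫⁻ _x in Ioi m, ENNReal.ofReal (Real.exp (-(a ^ 2 * t / 2)))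
          ∂gaussianReal 0 t.toNNReal := by
          refine setLIntegral_mono measurable_const fun x hx => ?_
          refine ENNReal.ofReal_le_ofReal (Real.exp_le_exp.2 ?_)
          have : m < x := hx
          nlinarith
      _ ≤ _ := by
          rw [setLIntegral_const]
          exact mul_le_of_le_one_right' prob_le_one
  · refine mul_le_of_le_one_right' ?_
    rw [← total a t ht.le]
    exact setLIntegral_le_lintegral _ _

theorem lower (rf : Ref) (c : CMStmt) {μ : Measure CP} (hμ : IsBM μ 0) {a t m : ℝ} (ha : 0 < a)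
    (ht : 0 < t) (hm : 0 ≤ m) :
    ENNReal.ofReal (Real.exp (-(2 * a * m))) ≤
      μ {f | m < smax (f + (-a) • clamp t) t} + ENNReal.ofReal (Real.exp (-(a ^ 2 * t / 2))) := by
  rw [finite rf c hμ a ht hm]
  have h1 := lintegral_add_compl
    (fun x => ENNReal.ofReal (Real.exp (a * x - a ^ 2 * t / 2)))
    (μ := gaussianReal 0 t.toNNReal) (measurableSet_Ioi (a := m))
  rw [total a t ht.le] at h1
  have h2 : ∫⁻ x in (Ioi m)ᶜ, ENNReal.ofReal (Real.exp (a * x - a ^ 2 * t / 2))
      ∂gaussianReal 0 t.toNNReal ≤ ENNReal.ofReal (Real.exp (a * m - a ^ 2 * t / 2)) := by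
    calc _ ≤ ∫⁻ _x in (Ioi m)ᶜ, ENNReal.ofReal (Real.exp (a * m - a ^ 2 * t / 2))
          ∂gaussianReal 0 t.toNNReal := by
          refine setLIntegral_mono measurable_const fun x hx => ?_
          refine ENNReal.ofReal_le_ofReal (Real.exp_le_exp.2 ?_)
          have : x ≤ m := not_lt.1 hx
          nlinarith
      _ ≤ _ := by
          rw [setLIntegral_const]
          exact mul_le_of_le_one_right' prob_le_one
  have h3 : ENNReal.ofReal (Real.exp (-(2 * a * m))) *
      ENNReal.ofReal (Real.exp (a * m - a ^ 2 * t / 2)) ≤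
      ENNReal.ofReal (Real.exp (-(a ^ 2 * t / 2))) := by
    rw [← ENNReal.ofReal_mul (Real.exp_pos _).le, ← Real.exp_add]
    refine ENNReal.ofReal_le_ofReal (Real.exp_le_exp.2 ?_)
    nlinarith
  calc ENNReal.ofReal (Real.exp (-(2 * a * m)))
      = ENNReal.ofReal (Real.exp (-(2 * a * m))) * 1 := (mul_one _).symm
    _ ≤ _ := by
      rw [← h1, mul_add]
      exact add_le_add le_add_self ((mul_le_mul_right h2 _).trans h3)

theorem tail (b1 : Bm1) (rf : Ref) (c : CMStmt) {μ : Measure CP} {a : ℝ} (hμ : IsBM μ a)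
    (ha : 0 < a) {m : ℝ} (hm : 0 ≤ m) :
    MeasurableSet {g : CP | ∃ z ≤ (0 : ℝ), m < g z} ∧
      μ {g : CP | ∃ z ≤ (0 : ℝ), m < g z} = ENNReal.ofReal (Real.exp (-(2 * a * m))) := by
  have h1 := b1.add_lin _ _ a (b1.neg _ _ (b1.rot _ _ hμ))
  rw [neg_add_cancel, Measure.map_map (by fun_prop) (by fun_prop),
    Measure.map_map (by fun_prop) (by fun_prop)] at h1
  set F : CP → CP := ((fun f => f + lin a) ∘ fun f => -f) ∘ rot with hF
  have hFm : Measurable F := by rw [hF]; fun_prop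
  have hFa : ∀ (g : CP) (x : ℝ), F g x = g (-x) + a * x := fun g x => by simp [hF]
  set A : ℕ → Set CP := fun n => {g | ∃ z ∈ Icc (-((n : ℝ) + 1)) 0, m < g z} with hA
  have hB : ∀ n : ℕ, MeasurableSet
      {f : CP | m < smax (f + (-a) • clamp ((n : ℝ) + 1)) ((n : ℝ) + 1)} := fun n =>
    measurableSet_lt measurable_const ((measurable_smax _).comp (by fun_prop))
  have hAB : ∀ n : ℕ, A n =
      F ⁻¹' {f : CP | m < smax (f + (-a) • clamp ((n : ℝ) + 1)) ((n : ℝ) + 1)} := by
    intro n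
    have hn : (0 : ℝ) ≤ (n : ℝ) + 1 := by positivity
    ext g
    have hv : ∀ y ∈ Icc (0 : ℝ) ((n : ℝ) + 1),
        (F g + (-a) • clamp ((n : ℝ) + 1)) y = g (-y) := fun y hy => by
      simp only [ContinuousMap.add_apply, ContinuousMap.smul_apply, clamp_apply, hFa,
        min_eq_left hy.2, max_eq_right hy.1, smul_eq_mul]
      ring
    simp only [hA, mem_setOf_eq, mem_preimage]
    constructor
    · rintro ⟨z, hz, h⟩
      have hy : -z ∈ Icc (0 : ℝ) ((n : ℝ) + 1) := ⟨by linarith [hz.2], by linarith [hz.1]⟩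
      have h2 := le_smax (F g + (-a) • clamp ((n : ℝ) + 1)) hy
      rw [hv _ hy, neg_neg] at h2
      exact h.trans_le h2
    · intro h
      by_contra h2
      refine absurd h (not_lt.2 (smax_le _ hn fun y hy => ?_))
      rw [hv y hy]
      exact not_lt.1 fun h3 => h2 ⟨-y, ⟨by linarith [hy.2], by linarith [hy.1]⟩, h3⟩
  have hAm : ∀ n, μ (A n) = (μ.map F)
      {f : CP | m < smax (f + (-a) • clamp ((n : ℝ) + 1)) ((n : ℝ) + 1)} := fun n => by
    rw [Measure.map_apply hFm (hB n), hAB]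
  have hU : {g : CP | ∃ z ≤ (0 : ℝ), m < g z} = ⋃ n, A n := by
    ext g
    simp only [hA, mem_setOf_eq, mem_iUnion]
    constructor
    · rintro ⟨z, hz, h⟩
      obtain ⟨n, hn⟩ := exists_nat_ge (-z)
      exact ⟨n, z, ⟨by linarith, hz⟩, h⟩
    · rintro ⟨n, z, hz, h⟩
      exact ⟨z, hz.2, h⟩
  have hmono : Monotone A := fun n n' h g => by
    rintro ⟨z, hz, h2⟩
    have : (n : ℝ) ≤ n' := by exact_mod_cast h
    exact ⟨z, ⟨by linarith [hz.1], hz.2⟩, h2⟩
  have hT : Tendsto (fun n => μ (A n)) atTop (𝓝 (μ (⋃ n, A n))) :=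
    tendsto_measure_iUnion_atTop hmono
  have hε : Tendsto (fun n : ℕ => ENNReal.ofReal (Real.exp (-(a ^ 2 * ((n : ℝ) + 1) / 2))))
      atTop (𝓝 0) := by
    rw [← ENNReal.ofReal_zero]
    refine ENNReal.tendsto_ofReal (Real.tendsto_exp_neg_atTop_nhds_zero.comp ?_)
    exact (Tendsto.const_mul_atTop (by positivity)
      (tendsto_atTop_add_const_right _ 1 tendsto_natCast_atTop_atTop)).atTop_div_const two_pos
  rw [hU]
  refine ⟨MeasurableSet.iUnion fun n => hAB n ▸ hFm (hB n), le_antisymm ?_ ?_⟩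
  · have h2 := hε.add_const (ENNReal.ofReal (Real.exp (-(2 * a * m))))
    rw [zero_add] at h2
    refine le_of_tendsto_of_tendsto' hT h2 fun n => ?_
    rw [hAm]
    exact upper rf c h1 ha (by positivity) hm
  · have h2 := hT.add hε
    rw [add_zero] at h2
    refine ge_of_tendsto' h2 fun n => ?_
    rw [hAm]
    exact lower rf c h1 ha (by positivity) hm

end SupA

theorem supS (b1 : Bm1) (rf : Ref) (c : CMStmt) : SupStmt := by
  intro μ a hμ ha
  have := hμ.prob
  have hb : ∀ᵐ (g : CP) ∂μ, BddAbove (g '' Iic 0) := by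
    rw [ae_iff]
    have h1 : ∀ n : ℕ, μ {g : CP | ¬BddAbove (g '' Iic 0)} ≤
        ENNReal.ofReal (Real.exp (-(2 * a * n))) := fun n => by
      rw [← (SupA.tail b1 rf c hμ ha (Nat.cast_nonneg n)).2]
      refine measure_mono fun g hg => ?_
      by_contra h2
      refine hg ⟨n, ?_⟩
      rintro _ ⟨z, hz, rfl⟩
      exact not_lt.1 fun h3 => h2 ⟨z, hz, h3⟩
    have h2 : Tendsto (fun n : ℕ => ENNReal.ofReal (Real.exp (-(2 * a * n)))) atTop (𝓝 0) := by
      rw [← ENNReal.ofReal_zero]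
      exact ENNReal.tendsto_ofReal (Real.tendsto_exp_neg_atTop_nhds_zero.comp
        (Tendsto.const_mul_atTop (by positivity) tendsto_natCast_atTop_atTop))
    exact le_antisymm (ge_of_tendsto' h2 h1) bot_le
  refine ⟨hb, ?_⟩
  have hr : Measurable fun g : CP => rmax g 0 := by fun_prop
  have h2a : 0 < 2 * a := by positivity
  have := isProbabilityMeasure_expMeasure h2a
  refine Measure.ext_of_Iic _ _ fun x => ?_
  rw [Measure.map_apply hr measurableSet_Iic, ← ofReal_cdf, cdf_expMeasure_eq h2a]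
  split_ifs with hx
  · obtain ⟨h1, h2⟩ := SupA.tail b1 rf c hμ ha hx
    rw [ENNReal.ofReal_sub _ (Real.exp_pos _).le, ENNReal.ofReal_one, ← h2,
      ← prob_compl_eq_one_sub h1]
    refine measure_congr ?_
    filter_upwards [hb] with g hg
    refine propext ⟨fun h3 h4 => ?_, fun h3 => ?_⟩
    · obtain ⟨z, hz, h5⟩ := h4
      exact absurd ((le_rmax hg hz).trans h3) (not_le.2 h5)
    · exact rmax_le hg fun z hz => not_lt.1 fun h5 => h3 ⟨z, hz, h5⟩
  · rw [ENNReal.ofReal_zero, measure_eq_zero_iff_ae_notMem]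
    filter_upwards [hb, b1.zero μ a hμ] with g hg h0 h3
    have h4 := le_rmax hg (le_refl (0 : ℝ))
    have h5 : rmax g 0 ≤ x := h3
    exact hx (by linarith)

end Pool.Agent.MP_3d8edd_pr.H69
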