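import Pool.Agent.MP_3d8edd_pr.H69.Basic

/-!
The two-sided estimate.
-/

open MeasureTheory ProbabilityTheory Set Filter
open scoped NNReal ENNReal Topology

namespace Pool.Agent.MP_3d8edd_pr.H69

namespace TwoA

theorem union_le {α : Type} [MeasurableSpace α] {μ : Measure α} {A B : Set α} {x y : ℝ}
    (hA : μ A ≤ ENNReal.ofReal x) (hB : μ B ≤ ENNReal.ofReal y) (hx : 0 ≤ x)
    (hy : 0 ≤ y) : μ (A ∪ B) ≤ ENNReal.ofReal (x + y) :=
  (measure_union_le _ _).trans ((add_le_add hA hB).trans_eq (ENNReal.ofReal_add hx hy).symm)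

theorem ae_le {α : Type} [MeasurableSpace α] {μ : Measure α} {A B : Set α}
    (h : ∀ᵐ p ∂μ, p ∈ A → p ∈ B) : μ A ≤ μ B := measure_mono_ae h

theorem mp_comm {A B C D : Type} [MeasurableSpace A] [MeasurableSpace B] [MeasurableSpace C]
    [MeasurableSpace D] (a : Measure A) (b : Measure B) (c : Measure C) (d : Measure D)
    [SFinite a] [SFinite b] [SFinite c] [SFinite d] :
    MeasurePreserving (fun p : (A × B) × (C × D) => ((p.1.1, p.2.1), (p.1.2, p.2.2)))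
      ((a.prod b).prod (c.prod d)) ((a.prod c).prod (b.prod d)) :=
  ((measurePreserving_prodAssoc a c (b.prod d)).symm _).comp
    (((MeasurePreserving.id a).prod ((measurePreserving_prodAssoc c b d).comp
      ((Measure.measurePreserving_swap.prod (MeasurePreserving.id d)).comp
        ((measurePreserving_prodAssoc b c d).symm _)))).comp
      (measurePreserving_prodAssoc a b (c.prod d)))

theorem exp_Iic {γ R : ℝ} (hγ : 0 < γ) (hR : 0 ≤ R) :
    expMeasure γ (Iic R) ≤ ENNReal.ofReal (γ * R) := by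
  have := isProbabilityMeasure_expMeasure hγ
  rw [← ofReal_cdf, cdf_expMeasure_eq hγ, if_pos hR]
  exact ENNReal.ofReal_le_ofReal (by linarith [Real.add_one_le_exp (-(γ * R))])

theorem exp_Ioi {γ R : ℝ} (hγ : 0 < γ) (hR : 0 ≤ R) :
    expMeasure γ (Ioi R) ≤ ENNReal.ofReal (Real.exp (-(γ * R))) := by
  have := isProbabilityMeasure_expMeasure hγ
  rw [← compl_Iic, prob_compl_eq_one_sub measurableSet_Iic, ← ofReal_cdf, cdf_expMeasure_eq hγ,
    if_pos hR, ← ENNReal.ofReal_one, ← ENNReal.ofReal_sub _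
      (sub_nonneg.2 (Real.exp_le_one_iff.2 (neg_nonpos.2 (by positivity)))), sub_sub_cancel]

/-- Large oscillation around the slope `s` on `[c, c + t]`. -/
def Osc (s c t m : ℝ) : Set CP := {f | ∃ x ∈ Icc c (c + t), m < |f x - f c - s * (x - c)|}

theorem not_osc {s c t m x x' : ℝ} {f : CP} (h : f ∉ Osc s c t m) (hx : x ∈ Icc c (c + t))
    (hx' : x' ∈ Icc c (c + t)) : f x - f x' - s * (x - x') ≤ 2 * m := by
  have h1 := abs_le.1 (not_lt.1 fun h' => h ⟨x, hx, h'⟩)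
  have h2 := abs_le.1 (not_lt.1 fun h' => h ⟨x', hx', h'⟩)
  linarith [h1.2, h2.1]

theorem osc_le (b1 : Bm1) (rf : Ref) {ν : Measure CP} {α s t m r : ℝ} (c : ℝ) (hν : IsBM ν α)
    (ht : 0 < t) (hr : 1 ≤ r) (hm : 2 * r * √t + |α - s| * t ≤ m) :
    ν (Osc s c t m) ≤ ENNReal.ofReal (4 * Real.exp (-r)) := by
  have h := rf.osc _ _ c t (2 * r * √t) (b1.add_lin ν α (-s) hν) ht (by positivity)
  refine le_trans ?_ (((Measure.le_map_apply (by fun_prop) _).trans h).trans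
    (ENNReal.ofReal_le_ofReal ?_))
  · refine measure_mono ?_
    rintro f ⟨x, hx, h⟩
    refine ⟨x, hx, lt_of_le_of_lt hm (h.trans_eq (congrArg _ ?_))⟩
    simp only [ContinuousMap.add_apply, lin_apply]
    ring
  · have e : -(2 * r * √t) ^ 2 / (2 * t) = -(2 * r ^ 2) := by
      rw [mul_pow, Real.sq_sqrt ht.le]
      field_simp
    rw [e]
    gcongr
    nlinarith

theorem mp_qJ (bu : BurkeStmt) {ν₁ ν₂ : Measure CP} {a₁ a₂ : ℝ} (h₁ : IsBM ν₁ a₁)
    (h₂ : IsBM ν₂ a₂) (h : a₁ < a₂) :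
    MeasurePreserving (fun p : CP × CP => qJ p.1 p.2) (ν₂.prod ν₁) (expMeasure (a₂ - a₁)) := by
  have := h₂.prob
  have : IsProbabilityMeasure (ν₂.map past) := Measure.isProbabilityMeasure_map (by fun_prop)
  exact measurePreserving_fst.comp
    (⟨by fun_prop, (bu ν₂ ν₁ a₂ a₁ h₂ h₁ h).2.2⟩ : MeasurePreserving _ _ _)

theorem mp_qD (bu : BurkeStmt) {ν₁ ν₂ : Measure CP} {a₁ a₂ : ℝ} (h₁ : IsBM ν₁ a₁)
    (h₂ : IsBM ν₂ a₂) (h : a₁ < a₂) :
    MeasurePreserving (fun p : CP × CP => qD p.2 p.1) (ν₁.prod ν₂) ν₂ := by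
  have := h₁.prob
  have := h₂.prob
  have m1 : MeasurePreserving (fun p : CP × CP => (qD p.1 p.2, qR p.1 p.2)) (ν₂.prod ν₁)
      (ν₂.prod ν₁) := ⟨by fun_prop, (bu ν₂ ν₁ a₂ a₁ h₂ h₁ h).2.1⟩
  have m2 : MeasurePreserving (fun p : CP × CP => qD p.1 p.2) (ν₂.prod ν₁) ν₂ :=
    measurePreserving_fst.comp m1
  have m3 := m2.comp Measure.measurePreserving_swap
  simpa only [Function.comp_def, Prod.fst_swap, Prod.snd_swap] using m3

/-- The parameters. -/
structure Par (ν r B u : ℝ) : Prop where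
  hr : 1 ≤ r
  hC : 10 ^ 6 * r ≤ ν
  hB : 1 ≤ B
  hB' : B ≤ ν ^ 2
  hu : u * ν = 24 * r

variable {ν r B u : ℝ}

theorem Par.one (h : Par ν r B u) : 1 ≤ ν := by linarith [h.hr, h.hC]

theorem Par.pos (h : Par ν r B u) : 0 < u := by
  by_contra h'
  nlinarith [h.one, h.hu, h.hr]

theorem Par.le (h : Par ν r B u) : u ≤ 1 / 4 := by
  by_contra h'
  nlinarith [h.one, h.hu, h.hC, h.hr]

theorem Par.osc (h : Par ν r B u) (b1 : Bm1) (rf : Ref) {κ : Measure CP} {α : ℝ} (c : ℝ)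
    (hκ : IsBM κ α) (hα : |α - 1| ≤ 3 * u) :
    κ (Osc 1 c (3 * B) (220 * (r * √B))) ≤ ENNReal.ofReal (4 * Real.exp (-r)) := by
  have hB := h.hB
  have hr := h.hr
  have h0 := h.one
  refine osc_le b1 rf c hκ (by linarith) hr ?_
  have h1 : √(3 * B) ≤ 2 * √B := by
    rw [Real.sqrt_le_left (by positivity), mul_pow, Real.sq_sqrt (by linarith)]
    linarith
  have h2 : √B ≤ ν := Real.sqrt_le_iff.2 ⟨by linarith, h.hB'⟩
  have h3 : B = √B * √B := (Real.mul_self_sqrt (by linarith)).symm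
  have h4 : u * B ≤ 24 * (r * √B) := by
    calc u * B = u * √B * √B := by rw [mul_assoc, ← h3]
      _ ≤ u * ν * √B := by have := h.pos; gcongr
      _ = _ := by rw [h.hu]; ring
  have h5 : |α - 1| * (3 * B) ≤ 3 * u * (3 * B) := by gcongr
  have h6 : r * √(3 * B) ≤ r * (2 * √B) := by gcongr
  linarith

theorem Par.abs1 (h : Par ν r B u) : |(1 - u) * (1 - u) - 1| ≤ 3 * u := by
  rw [abs_le]
  constructor <;> nlinarith [h.pos, h.le]

theorem Par.abs2 (h : Par ν r B u) : |(1 + u) * (1 + u) - 1| ≤ 3 * u := by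
  rw [abs_le]
  constructor <;> nlinarith [h.pos, h.le]

theorem Par.lt (h : Par ν r B u) : (1 - u) * (1 - u) < (1 + u) * (1 + u) := by
  nlinarith [h.pos]

theorem Par.p1 (h : Par ν r B u) : 0 < (1 - u) * (1 - u) := by
  nlinarith [h.pos, h.le]

/-- The one-sided estimate. -/
theorem one_le (h : Par ν r B u) (b1 : Bm1) (rf : Ref) (bu : BurkeStmt) {ν₁ ν₂ : Measure CP}
    (h₁ : IsBM ν₁ ((1 - u) * (1 - u))) (h₂ : IsBM ν₂ ((1 + u) * (1 + u))) {Y : Set ℝ} {R : ℝ}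
    (hR : 0 ≤ R) (hY : Y ⊆ Icc B (ν ^ 2)) (hY' : ∀ y ∈ Icc 0 (ν ^ 2), ∃ y' ∈ Y, |y' - y| ≤ 2 * B) :
    (ν₂.prod ν₁) {p | ∀ y ∈ Y, p.1 (-y) - p.2 (-y) ≤ R} ≤
      ENNReal.ofReal (4 * u * (R + 880 * (r * √B)) + 25 * ν ^ 2 * Real.exp (-r)) := by
  have := h₁.prob
  have := h₂.prob
  have hr := h.hr
  have hB := h.hB
  have h0 := h.one
  have hu := h.pos
  have hν2 : 1 ≤ ν ^ 2 := one_le_pow₀ h0
  have eγ : (1 + u) * (1 + u) - (1 - u) * (1 - u) = 4 * u := by ring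
  have mJ := mp_qJ bu h₁ h₂ h.lt
  rw [eγ] at mJ
  have e1 := (preimage_le mJ (Iic (R + 880 * (r * √B)))).trans
    (exp_Iic (by positivity) (by positivity))
  have mS : MeasurePreserving (Prod.map (shift (-ν ^ 2)) (shift (-ν ^ 2))) (ν₂.prod ν₁)
      (ν₂.prod ν₁) :=
    MeasurePreserving.prod ⟨by fun_prop, b1.unique _ _ _ (b1.shift _ _ _ h₂) h₂⟩
      ⟨by fun_prop, b1.unique _ _ _ (b1.shift _ _ _ h₁) h₁⟩
  have e2 := ((preimage_le (mJ.comp mS) (Ioi (r * ν))).trans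
    (exp_Ioi (by positivity) (by positivity))).trans
    (ENNReal.ofReal_le_ofReal (Real.exp_le_exp.2 (neg_le_neg (show r ≤ 4 * u * (r * ν) by
      have : 4 * u * (r * ν) = 4 * r * (u * ν) := by ring
      rw [this, h.hu]
      nlinarith))))
  have hs : 2 * r * √(ν ^ 2) = 2 * r * ν := by rw [Real.sqrt_sq (by linarith)]
  have e3 := (preimage_le (measurePreserving_fst (μ := ν₂) (ν := ν₁)) _).trans
    (osc_le b1 rf (s := (1 + u) * (1 + u)) (m := 2 * r * ν) (t := ν ^ 2) (-ν ^ 2) h₂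
      (by positivity) hr (by simp [hs]))
  have e4 := (preimage_le (measurePreserving_snd (μ := ν₂) (ν := ν₁)) _).trans
    (osc_le b1 rf (s := (1 - u) * (1 - u)) (m := 2 * r * ν) (t := ν ^ 2) (-ν ^ 2) h₁
      (by positivity) hr (by simp [hs]))
  have e5 : (ν₂.prod ν₁) (⋃ i ∈ Finset.range (⌊ν ^ 2⌋₊ + 1),
      (Prod.fst ⁻¹' Osc 1 (-(i + 3 * B)) (3 * B) (220 * (r * √B)) ∪
        Prod.snd ⁻¹' Osc 1 (-(i + 3 * B)) (3 * B) (220 * (r * √B)))) ≤
      ENNReal.ofReal (16 * ν ^ 2 * Real.exp (-r)) := by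
    refine (measure_biUnion_finset_le _ _).trans ((Finset.sum_le_sum fun i _ => union_le
      ((preimage_le measurePreserving_fst _).trans (h.osc b1 rf _ h₂ h.abs2))
      ((preimage_le measurePreserving_snd _).trans (h.osc b1 rf _ h₁ h.abs1))
      (by positivity) (by positivity)).trans ?_)
    rw [Finset.sum_const, Finset.card_range, nsmul_eq_mul, ← ENNReal.ofReal_natCast,
      ← ENNReal.ofReal_mul (by positivity)]
    refine ENNReal.ofReal_le_ofReal ?_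
    have h1 : (⌊ν ^ 2⌋₊ : ℝ) ≤ ν ^ 2 := Nat.floor_le (by positivity)
    have h2 := Real.exp_pos (-r)
    push_cast
    nlinarith
  refine le_trans (ae_le ?_) ((union_le e1 (union_le e2 (union_le e3
    (union_le e4 e5 (by positivity) (by positivity)) (by positivity) (by positivity))
    (by positivity) (by positivity)) (by positivity) (by positivity)).trans
    (ENNReal.ofReal_le_ofReal ?_))
  swap
  · have h2 := Real.exp_pos (-r)
    nlinarith
  filter_upwards [(bu ν₂ ν₁ _ _ h₂ h₁ h.lt).1,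
    measurePreserving_fst.quasiMeasurePreserving.ae (b1.zero _ _ h₂),
    measurePreserving_snd.quasiMeasurePreserving.ae (b1.zero _ _ h₁)] with p hb z1 z2 hp
  by_contra hc
  simp only [mem_union, not_or, mem_iUnion, not_exists, mem_preimage] at hc
  obtain ⟨c1, c2, c3, c4, c5⟩ := hc
  refine c1 (rmax_le hb fun x hx => ?_)
  rw [ContinuousMap.sub_apply]
  rcases le_total x (-ν ^ 2) with hx' | hx'
  · have hb' : Bdd (shift (-ν ^ 2) p.1) (shift (-ν ^ 2) p.2) := by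
      refine ⟨rmax (p.1 - p.2) (-ν ^ 2) - (p.1 - p.2) (-ν ^ 2), ?_⟩
      rintro _ ⟨z, hz, rfl⟩
      have := le_rmax hb (z := -ν ^ 2 + z) (x := -ν ^ 2) (by linarith [mem_Iic.1 hz])
      simp only [ContinuousMap.sub_apply, shift_apply] at this ⊢
      linarith
    have a1 := (le_rmax hb' (z := x + ν ^ 2) (x := 0) (by linarith)).trans (not_lt.1 c2)
    have a2 := not_osc c3 (x := -ν ^ 2) (x' := 0) ⟨le_rfl, by linarith⟩ ⟨by linarith, by linarith⟩
    have a3 := not_osc c4 (x := 0) (x' := -ν ^ 2) ⟨by linarith, by linarith⟩ ⟨le_rfl, by linarith⟩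
    simp only [ContinuousMap.sub_apply, shift_apply, neg_add_cancel_comm_assoc] at a1
    have a4 : u * ν ^ 2 = 24 * (r * ν) := by rw [sq, ← mul_assoc, h.hu]; ring
    have a5 : 0 ≤ r * ν := by positivity
    have a6 : 0 ≤ r * √B := by positivity
    rw [z1] at a2
    rw [z2] at a3
    linarith
  · obtain ⟨y, hy, hd⟩ := hY' (-x) ⟨by linarith, by linarith⟩
    have hy' := hY hy
    rw [abs_le] at hd
    have m0 : 0 ≤ min y (-x) := le_min (by linarith [hy'.1]) (by linarith)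
    have m1 := Nat.floor_le m0
    have m2 := Nat.lt_floor_add_one (min y (-x))
    have m3 := min_le_left y (-x)
    have m4 := min_le_right y (-x)
    have m5 : y - 2 * B ≤ min y (-x) := le_min (by linarith) (by linarith [hd.2])
    have m6 : -x - 2 * B ≤ min y (-x) := le_min (by linarith [hd.1]) (by linarith)
    obtain ⟨o1, o2⟩ := c5 ⌊min y (-x)⌋₊ (Finset.mem_range.2 (Nat.lt_succ_of_le
      (Nat.floor_mono (m3.trans hy'.2))))
    have a1 := not_osc o1 (x := x) (x' := -y) ⟨by linarith, by linarith⟩ ⟨by linarith, by linarith⟩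
    have a2 := not_osc o2 (x := -y) (x' := x) ⟨by linarith, by linarith⟩ ⟨by linarith, by linarith⟩
    linarith [hp y hy]

/-- Comparison with the stationary process of small drift. -/
def NiceL (n : ℕ) (a w B D : ℝ) (p : CP × Env) : Prop :=
  (∀ x x', a ≤ x → x ≤ x' → x' ≤ w →
    GG p.1 p.2 0 n x' - GG p.1 p.2 0 n x ≤ T p.2 0 n a x' - T p.2 0 n a x) ∧
  shift 0 (GG p.1 p.2 0 n) ∉ Osc 1 (-B) (3 * B) D

/-- Comparison with the stationary process of large drift. -/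
def NiceR (n : ℕ) (a w B D : ℝ) (p : CP × Env) : Prop :=
  (∀ x x', -w ≤ x → x ≤ x' →
    T p.2 0 n a x' - T p.2 0 n a x ≤ GG p.1 p.2 0 n x' - GG p.1 p.2 0 n x) ∧
  shift 0 (GG p.1 p.2 0 n) ∉ Osc 1 (-B) (3 * B) D

theorem Par.src (h : Par ν r B u) {n : ℕ} {a : ℝ} (hn : ν ^ 3 ≤ 8 * n) (ha : |a + n| ≤ r * ν ^ 2) :
    1 ≤ n ∧ a ≤ -ν ^ 2 ∧ 3 * (r * ν ^ 2) ≤ u * n ∧ ν ^ 2 ≤ r * ν ^ 2 ∧
      ∀ E, E ≤ -(r * ν ^ 2) → Real.exp (u ^ 2 * E / 2) ≤ Real.exp (-r) := by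
  have hr := h.hr
  have h0 := h.one
  have hν2 : 1 ≤ ν ^ 2 := one_le_pow₀ h0
  have h1 : ν ^ 2 ≤ r * ν ^ 2 := le_mul_of_one_le_left (by positivity) hr
  have h2 : 10 ^ 6 * r * ν ^ 2 ≤ ν * ν ^ 2 := by have := h.hC; gcongr
  have h3 : u * ν ^ 3 ≤ u * (8 * n) := by have := h.pos; gcongr
  have h4 : u * ν ^ 3 = 24 * (r * ν ^ 2) := by
    rw [show u * ν ^ 3 = u * ν * ν ^ 2 by ring, h.hu]; ring
  refine ⟨?_, by nlinarith [(abs_le.1 ha).2], by linarith, h1, fun E hE => Real.exp_le_exp.2 ?_⟩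
  · have : (0 : ℝ) < n := by nlinarith
    exact_mod_cast this
  · have h5 : u ^ 2 * E ≤ u ^ 2 * -(r * ν ^ 2) := by gcongr
    have h6 : u ^ 2 * -(r * ν ^ 2) = -(r * (u * ν) ^ 2) := by ring
    rw [h6, h.hu] at h5
    have h7 : r * 2 ≤ r * (24 * r) ^ 2 := by gcongr; nlinarith
    linarith

theorem left_le (h : Par ν r B u) (d2 : Det2) (b1 : Bm1) (rf : Ref) (st : Stat) (ex : Exit)
    {μ κ : Measure CP} (hμ : IsBM μ 0) (hκ : IsBM κ ((1 - u) * (1 - u))) {n : ℕ} {a : ℝ}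
    (hn : ν ^ 3 ≤ 8 * n) (ha : |a + n| ≤ r * ν ^ 2) :
    (κ.prod (PP μ)) {p | ¬ NiceL n a (ν ^ 2) B (220 * (r * √B)) p} ≤
      ENNReal.ofReal (5 * Real.exp (-r)) := by
  obtain ⟨n1, a1, s1, s2, s3⟩ := h.src hn ha
  have hu := h.pos
  have hu' := h.le
  have h0 : 0 ≤ ν ^ 2 := by positivity
  have e1 := (ex.left μ κ (1 - u) u 0 n a (ν ^ 2) hμ hκ (by linarith) hu (by linarith) n1
    (by linarith)).trans (ENNReal.ofReal_le_ofReal (s3 _ (by
      have b1 : (1 - u) ^ 2 ≤ 1 - u := by nlinarith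
      have b2 : ν ^ 2 - a ≤ n + 2 * (r * ν ^ 2) := by linarith [(abs_le.1 ha).1]
      have b3 : (1 - u) ^ 2 * (ν ^ 2 - a) ≤ (1 - u) * (n + 2 * (r * ν ^ 2)) :=
        mul_le_mul b1 b2 (by linarith) (by linarith)
      have b4 : 0 ≤ u * (r * ν ^ 2) := mul_nonneg hu.le (by linarith)
      linarith)))
  have e2 := (preimage_le (⟨by fun_prop, st.law μ κ _ 0 n hμ hκ h.p1⟩ : MeasurePreserving _ _ _)
    _).trans (h.osc b1 rf (-B) hκ h.abs1)
  refine le_trans (ae_le ?_)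
    ((union_le e1 e2 (by positivity) (by positivity)).trans_eq (congrArg _ (by ring)))
  filter_upwards [st.bdd μ κ _ 0 n hμ hκ h.p1] with p hb hp
  by_contra hc
  simp only [mem_union, not_or, mem_preimage, mem_ofPred_eq, not_not] at hc
  refine hp ⟨fun x x' h1 h2 h3 => ?_, hc.2⟩
  simpa using d2.cmpL p.1 p.2 0 n a _ x x' n1 hb hc.1 h1 h2 h3

theorem right_le (h : Par ν r B u) (d2 : Det2) (b1 : Bm1) (rf : Ref) (st : Stat) (ex : Exit)
    {μ κ : Measure CP} (hμ : IsBM μ 0) (hκ : IsBM κ ((1 + u) * (1 + u))) {n : ℕ} {a : ℝ}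
    (hn : ν ^ 3 ≤ 8 * n) (ha : |a + n| ≤ r * ν ^ 2) :
    (κ.prod (PP μ)) {p | ¬ NiceR n a (ν ^ 2) B (220 * (r * √B)) p} ≤
      ENNReal.ofReal (5 * Real.exp (-r)) := by
  obtain ⟨n1, a1, s1, s2, s3⟩ := h.src hn ha
  have hu := h.pos
  have hu' := h.le
  have h0 : 0 ≤ ν ^ 2 := by positivity
  have e1 := (ex.right μ κ (1 + u) u 0 n a (-ν ^ 2) hμ hκ (by linarith) hu (by linarith) n1
    a1).trans (ENNReal.ofReal_le_ofReal (s3 _ (by
      have b0 : (0 : ℝ) ≤ n := Nat.cast_nonneg n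
      have b1 : 1 + 2 * u ≤ (1 + u) ^ 2 := by nlinarith
      have b2 : n - 2 * (r * ν ^ 2) ≤ -ν ^ 2 - a := by linarith [(abs_le.1 ha).2]
      have b3 : (1 + 2 * u) * (n - 2 * (r * ν ^ 2)) ≤ (1 + u) ^ 2 * (-ν ^ 2 - a) :=
        (mul_le_mul_of_nonneg_left b2 (by linarith)).trans
          (mul_le_mul_of_nonneg_right b1 (by linarith))
      have b4 : u * (r * ν ^ 2) ≤ 1 / 4 * (r * ν ^ 2) :=
        mul_le_mul_of_nonneg_right hu' (by linarith)
      have b5 : n / (1 - u ^ 2) ≤ n * (1 + u / 2) := by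
        rw [div_le_iff₀ (by nlinarith), mul_assoc]
        exact le_mul_of_one_le_right b0 (by nlinarith [mul_pos hu hu])
      linarith)))
  have e2 := (preimage_le (⟨by fun_prop, st.law μ κ _ 0 n hμ hκ (h.p1.trans h.lt)⟩ :
    MeasurePreserving _ _ _) _).trans (h.osc b1 rf (-B) hκ h.abs2)
  refine le_trans (ae_le ?_)
    ((union_le e1 e2 (by positivity) (by positivity)).trans_eq (congrArg _ (by ring)))
  filter_upwards [st.bdd μ κ _ 0 n hμ hκ (h.p1.trans h.lt)] with p hb hp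
  by_contra hc
  simp only [mem_union, not_or, mem_preimage, mem_ofPred_eq, not_not] at hc
  refine hp ⟨fun x x' h1 h2 => ?_, hc.2⟩
  simpa using d2.cmpR p.1 p.2 0 n a _ x x' n1 hb hc.1 h1 h2

/-- The two stationary profiles. -/
noncomputable def Phi (n : ℕ) (p : (CP × CP) × Env) : CP × CP :=
  (fut (shift 0 (GG p.1.1 p.2 0 n)), past (shift 0 (GG (qD p.1.2 p.1.1) p.2 0 n)))

/-- What is used about a source. -/
def Nice (n : ℕ) (a w B D : ℝ) (p : (CP × CP) × Env) : Prop :=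
  (∀ y ∈ Icc 0 w, (Phi n p).1 y ≤ T p.2 0 n a y - T p.2 0 n a 0) ∧
  (∀ y ∈ Icc 0 w, (Phi n p).2 (-y) ≤ T p.2 0 n a (-y) - T p.2 0 n a 0) ∧
  ∀ z ∈ Icc (-B) B, T p.2 0 n a z - z ≤ T p.2 0 n a 0 + 2 * D

theorem nice_le (h : Par ν r B u) (d2 : Det2) (b1 : Bm1) (rf : Ref) (bu : BurkeStmt) (st : Stat)
    (ex : Exit) {μ ν₁ ν₂ : Measure CP} (hμ : IsBM μ 0) (h₁ : IsBM ν₁ ((1 - u) * (1 - u)))
    (h₂ : IsBM ν₂ ((1 + u) * (1 + u))) {n : ℕ} {a : ℝ} (hn : ν ^ 3 ≤ 8 * n)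
    (ha : |a + n| ≤ r * ν ^ 2) :
    ((ν₁.prod ν₂).prod (PP μ)) {p | ¬ Nice n a (ν ^ 2) B (220 * (r * √B)) p} ≤
      ENNReal.ofReal (10 * Real.exp (-r)) := by
  have := hμ.prob
  have := h₁.prob
  have := h₂.prob
  have a1 := (h.src hn ha).2.1
  have hB := h.hB
  have hB' := h.hB'
  have e1 := (preimage_le ((measurePreserving_fst (μ := ν₁) (ν := ν₂)).prod
    (MeasurePreserving.id (PP μ))) _).trans (left_le h d2 b1 rf st ex hμ h₁ hn ha)
  have e2 := (preimage_le ((mp_qD bu h₁ h₂ h.lt).prod (MeasurePreserving.id (PP μ))) _).trans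
    (right_le h d2 b1 rf st ex hμ h₂ hn ha)
  refine le_trans (measure_mono fun p hp => ?_)
    ((union_le e1 e2 (by positivity) (by positivity)).trans_eq (congrArg _ (by ring)))
  by_contra hc
  simp only [mem_union, not_or, mem_preimage, mem_ofPred_eq, not_not, NiceL, NiceR, Prod.map_fst,
    Prod.map_snd, id] at hc
  obtain ⟨⟨l1, l2⟩, r1, r2⟩ := hc
  refine hp ⟨fun y hy => ?_, fun y hy => ?_, fun z hz => ?_⟩
  · simpa [Phi, max_eq_left hy.1] using l1 0 y (by linarith) hy.1 hy.2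
  · have := r1 (-y) 0 (by linarith [hy.2]) (by linarith [hy.1])
    simp only [Phi, past_apply, shift_apply, zero_add, min_eq_left (neg_nonpos.2 hy.1)]
    linarith
  · have hz' : z ∈ Icc (-B) (-B + 3 * B) := ⟨hz.1, by linarith [hz.2]⟩
    have h0 : (0 : ℝ) ∈ Icc (-B) (-B + 3 * B) := ⟨by linarith, by linarith⟩
    rcases le_total z 0 with hz0 | hz0
    · have := not_osc l2 hz' h0
      simp only [shift_apply, zero_add] at this
      linarith [l1 z 0 (by linarith [hz.1]) hz0 (by linarith)]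
    · have := not_osc r2 hz' h0
      simp only [shift_apply, zero_add] at this
      linarith [r1 0 z (by linarith) hz0]

theorem sq_le {σ : ℝ≥0∞} {p η : ℝ} (hp : 0 ≤ p) (hη : 0 ≤ η) (h1 : σ ≤ 1)
    (h : σ ≤ ENNReal.ofReal (p + η)) : σ * σ ≤ ENNReal.ofReal (p ^ 2 + 2 * η) := by
  lift σ to ℝ≥0 using (h1.trans_lt ENNReal.one_lt_top).ne
  rw [← ENNReal.ofReal_coe_nnreal, ENNReal.ofReal_le_ofReal_iff (by positivity)] at h
  have h2 : (σ : ℝ) ≤ 1 := by exact_mod_cast h1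
  have h3 := σ.coe_nonneg
  rw [← ENNReal.ofReal_coe_nnreal, ← ENNReal.ofReal_mul h3]
  refine ENNReal.ofReal_le_ofReal ?_
  rcases le_total (σ : ℝ) p with h4 | h4 <;> nlinarith

end TwoA

open TwoA in
theorem twoS (_d1 : Det1) (d2 : Det2) (b1 : Bm1) (rf : Ref) (_e : EnvA) (bu : BurkeStmt)
    (st : Stat) (jo : JointStmt) (ex : Exit) : TwoStmt := by
  refine ⟨10 ^ 6, by norm_num, ?_⟩
  intro μ n ν r B R a₁ b₁ a₂ b₂ Y hμ hν _ hn hr hC hB hB' hR ha₁ hb₁ ha₂ hb₂ hY hY'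
  obtain ⟨u, hu⟩ : ∃ u : ℝ, u = 24 * r / ν := ⟨_, rfl⟩
  have h : Par ν r B u := ⟨hr, hC, hB, hB', by rw [hu]; field_simp⟩
  obtain ⟨ν₁, h₁⟩ : ∃ κ, IsBM κ ((1 - u) * (1 - u)) :=
    ⟨_, zero_add ((1 - u) * (1 - u)) ▸ b1.add_lin μ 0 _ hμ⟩
  obtain ⟨ν₂, h₂⟩ : ∃ κ, IsBM κ ((1 + u) * (1 + u)) :=
    ⟨_, zero_add ((1 + u) * (1 + u)) ▸ b1.add_lin μ 0 _ hμ⟩
  have := hμ.prob
  have := h₁.prob
  have := h₂.prob
  have : IsProbabilityMeasure (ν₁.map fut) := Measure.isProbabilityMeasure_map (by fun_prop)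
  have : IsProbabilityMeasure (ν₂.map past) := Measure.isProbabilityMeasure_map (by fun_prop)
  have hu0 := h.pos
  obtain ⟨S, hS⟩ : ∃ S : Set (CP × CP),
      S = {q | sSup ((q.1 - rot q.2 : CP) '' Y) ≤ R + 880 * (r * √B)} := ⟨_, rfl⟩
  have hSm : MeasurableSet S := hS ▸ measurableSet_le
    ((measurable_sSup_image Y).comp (by fun_prop)) measurable_const
  have hmem : ∀ q, q ∈ S ↔ ∀ y ∈ Y, q.1 y + q.2 (-y) ≤ R + 880 * (r * √B) := fun q => by
    obtain ⟨y, hy, -⟩ := hY' 0 ⟨le_rfl, by positivity⟩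
    rw [hS, mem_ofPred_eq, csSup_le_iff ((isCompact_Icc.image (q.1 - rot q.2).continuous).bddAbove.mono
      (image_mono hY)) ⟨_, y, hy, rfl⟩]
    simp
  have mF : MeasurePreserving (Prod.map fut past) (ν₁.prod ν₂) ((ν₁.map fut).prod (ν₂.map past)) :=
    MeasurePreserving.prod ⟨by fun_prop, rfl⟩ ⟨by fun_prop, rfl⟩
  have mR : MeasurePreserving (fun q : CP × CP => (q.2, rot q.1)) (ν₁.prod ν₂) (ν₂.prod ν₁) :=
    Measure.measurePreserving_swap.comp (MeasurePreserving.prod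
      ⟨by fun_prop, b1.unique _ _ _ (b1.rot _ _ h₁) h₁⟩ (MeasurePreserving.id ν₂))
  have e0 : ((ν₁.map fut).prod (ν₂.map past)) S ≤ ENNReal.ofReal (4 * u *
      (R + 880 * (r * √B) + 880 * (r * √B)) + 25 * ν ^ 2 * Real.exp (-r)) := by
    rw [← mF.measure_preimage hSm.nullMeasurableSet]
    refine le_trans (measure_mono ?_) ((preimage_le mR _).trans
      (one_le h b1 rf bu h₁ h₂ (R := R + 880 * (r * √B)) (by positivity) hY hY'))
    intro q hq y hy
    have hy0 : 0 ≤ y := by linarith [(hY hy).1]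
    have := (hmem _).1 hq y hy
    simp only [Prod.map_fst, Prod.map_snd, fut_apply, past_apply, max_eq_left hy0,
      min_eq_left (neg_nonpos.2 hy0)] at this
    simp only [rot_apply, neg_neg]
    linarith
  have mP : MeasurePreserving (Phi n) ((ν₁.prod ν₂).prod (PP μ))
      ((ν₁.map fut).prod (ν₂.map past)) :=
    ⟨by unfold Phi; fun_prop, jo μ ν₁ ν₂ _ _ 0 n hμ h₁ h₂ h.p1 h.lt⟩
  have mX := (mp_comm _ _ _ _).comp (((MeasurePreserving.id _).prod
    Measure.measurePreserving_swap).comp ((mp_comm _ _ _ _).comp (mP.prod mP)))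
  have e1 := preimage_le mX (S ×ˢ S)
  rw [Measure.prod_prod] at e1
  have e2 := e1.trans (sq_le (by positivity) (by positivity) prob_le_one e0)
  have f1 := fun a ha => (preimage_le (measurePreserving_fst (ν := (ν₁.prod ν₂).prod (PP μ)))
    _).trans (nice_le h d2 b1 rf bu st ex hμ h₁ h₂ (a := a) hn ha)
  have f2 := fun a ha => (preimage_le (measurePreserving_snd (μ := (ν₁.prod ν₂).prod (PP μ)))
    _).trans (nice_le h d2 b1 rf bu st ex hμ h₁ h₂ (a := a) hn ha)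
  rw [← prod_snd_preimage ((ν₁.prod ν₂).prod (ν₁.prod ν₂))]
  refine le_trans (measure_mono fun p hp => ?_) (((preimage_le (mp_comm _ _ _ _) _).trans
    (union_le e2 (union_le (f1 _ ha₁) (union_le (f1 _ hb₁)
      (union_le (f2 _ ha₂) (f2 _ hb₂) (by positivity) (by positivity))
      (by positivity) (by positivity)) (by positivity) (by positivity))
      (by positivity) (by positivity))).trans (ENNReal.ofReal_le_ofReal ?_))
  · by_contra hc
    simp only [mem_union, not_or, mem_preimage, mem_ofPred_eq, not_not] at hc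
    obtain ⟨c0, ⟨c1, -, c1'⟩, ⟨-, c2, c2'⟩, ⟨c3, -, c3'⟩, -, c4, c4'⟩ := hc
    obtain ⟨⟨z₁, hz₁, z₂, hz₂, H⟩, z₃, hz₃, z₄, hz₄, H'⟩ := hp
    have hy : ∀ y ∈ Y, y ∈ Icc 0 (ν ^ 2) := fun y hy => ⟨by linarith [(hY hy).1], (hY hy).2⟩
    refine c0 ⟨(hmem _).2 fun y y1 => ?_, (hmem _).2 fun y y1 => ?_⟩
    · have := c1 y (hy y y1)
      have := c4 y (hy y y1)
      have := c1' z₁ hz₁
      have := c4' z₂ hz₂
      have := H y y1
      dsimp only [Function.comp, Prod.map, Prod.swap, id] at *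
      linarith
    · have := c3 y (hy y y1)
      have := c2 y (hy y y1)
      have := c2' z₃ hz₃
      have := c3' z₄ hz₄
      have := H' y y1
      dsimp only [Function.comp, Prod.map, Prod.swap, id] at *
      linarith
  · have g1 : 4 * u * (R + 880 * (r * √B) + 880 * (r * √B)) ≤ 10 ^ 6 * r * (R + r * √B) / ν := by
      have g0 : 0 ≤ r * √B := by positivity
      rw [le_div_iff₀ hν, show ∀ t, 4 * u * t * ν = 4 * (u * ν) * t from fun t => by ring, h.hu]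
      nlinarith [mul_nonneg (zero_le_one.trans hr) hR, mul_nonneg (zero_le_one.trans hr) g0]
    have g2 := pow_le_pow_left₀ (by positivity) g1 2
    have g3 : Real.exp (-r) ≤ ν ^ 2 * Real.exp (-r) :=
      le_mul_of_one_le_left (Real.exp_pos _).le (one_le_pow₀ h.one)
    have g4 := Real.exp_pos (-r)
    linarith

end Pool.Agent.MP_3d8edd_pr.H69
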