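import Pool.Agent.MP_3d8edd_pr.H69.Basic

/-!
The union over times costs a factor `1 + |Λ| s`.
-/

open MeasureTheory ProbabilityTheory Set Filter
open scoped NNReal ENNReal Topology

namespace Pool.Agent.MP_3d8edd_pr.H69

universe u

namespace UnionA

/-- Rational times in `[a, b]` and the two end points. -/
def DD (a b : ℝ) : Set ℝ := Icc a b ∩ ({a, b} ∪ range fun q : ℚ => (q : ℝ))

theorem DD_countable (a b : ℝ) : (DD a b).Countable :=
  ((toFinite _).countable.union (countable_range _)).mono inter_subset_right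

/-- The version vector `κ` is visited. -/
def V (Λ : Finset (ℤ × ℤ)) (a b : ℝ) (κ : Λ → ℤ) : Set (ℤ × ℤ → ℝ → ℤ) :=
  {n | ∃ t ∈ DD a b, ∀ c : Λ, n c t = κ c}

theorem V_eq (Λ : Finset (ℤ × ℤ)) (a b : ℝ) (κ : Λ → ℤ) :
    V Λ a b κ = ⋃ t ∈ DD a b, ⋂ c : Λ, {n | n c t = κ c} := by
  ext n
  simp only [V, mem_ofPred_eq, mem_iUnion, mem_iInter, exists_prop]

theorem measV (Λ : Finset (ℤ × ℤ)) (a b : ℝ) (κ : Λ → ℤ) : MeasurableSet (V Λ a b κ) := by
  rw [V_eq]
  refine MeasurableSet.biUnion (DD_countable a b) fun t _ => MeasurableSet.iInter fun c => ?_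
  exact (by fun_prop : Measurable fun n : ℤ × ℤ → ℝ → ℤ => n c t) (measurableSet_singleton (κ c))

theorem nullV {Ω : Type u} [MeasurableSpace Ω] {P : Measure Ω} {N : ℤ × ℤ → ℝ → Ω → ℤ}
    (h : ∀ c t, AEMeasurable (N c t) P) (Λ : Finset (ℤ × ℤ)) (a b : ℝ) (κ : Λ → ℤ) :
    NullMeasurableSet ((fun ω c t => N c t ω) ⁻¹' V Λ a b κ) P := by
  rw [V_eq, preimage_iUnion₂]
  refine NullMeasurableSet.biUnion (DD_countable a b) fun t _ => ?_
  rw [preimage_iInter]
  exact NullMeasurableSet.iInter fun c =>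
    (h c t).nullMeasurableSet_preimage (measurableSet_singleton (κ c))

/-- A real time can be replaced by a rational one. -/
theorem ratl (Λ : Finset (ℤ × ℤ)) {a b t : ℝ} (n : ℤ × ℤ → ℝ → ℤ)
    (h : ∀ c t, ContinuousWithinAt (n c) (Ici t) t) (ht : t ∈ Icc a b) :
    ∃ t' ∈ DD a b, ∀ c ∈ Λ, n c t' = n c t := by
  rcases ht.2.eq_or_lt with rfl | hb
  · exact ⟨t, ⟨ht, Or.inl (Or.inr rfl)⟩, fun _ _ => rfl⟩
  have h1 : ∀ᶠ v in 𝓝[≥] t, ∀ c ∈ Λ, n c v = n c t := by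
    refine (eventually_all_finset Λ).2 fun c _ => ?_
    have := h c t
    rwa [ContinuousWithinAt, nhds_discrete, tendsto_pure] at this
  obtain ⟨v, hv, h2⟩ := mem_nhdsGE_iff_exists_Ico_subset.1 h1
  obtain ⟨q, q1, q2⟩ := exists_rat_btwn (lt_min hv hb)
  exact ⟨q, ⟨⟨ht.1.trans q1.le, (q2.trans_le (min_le_right _ _)).le⟩, Or.inr ⟨q, rfl⟩⟩,
    h2 ⟨q1.le, q2.trans_le (min_le_left _ _)⟩⟩

/-- The number of visited version vectors. -/
theorem count (Λ : Finset (ℤ × ℤ)) {a b : ℝ} (hab : a ≤ b) (n : ℤ × ℤ → ℝ → ℤ)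
    (h : ∀ c, Monotone (n c)) : ∑' κ : Λ → ℤ, (V Λ a b κ).indicator 1 n ≤
      1 + ∑ c ∈ Λ, ENNReal.ofReal ((n c b - n c a : ℤ) : ℝ) := by
  classical
  rw [ENNReal.tsum_eq_iSup_sum]
  refine iSup_le fun F => ?_
  have h1 : ∑ κ ∈ F, (V Λ a b κ).indicator (1 : (ℤ × ℤ → ℝ → ℤ) → ℝ≥0∞) n =
      ((F.filter fun κ => n ∈ V Λ a b κ).card : ℕ) := by
    simp only [indicator_apply, Pi.one_apply, Finset.sum_boole]
  have h2 : (F.filter fun κ => n ∈ V Λ a b κ).card ≤
      (Finset.Icc (∑ c : Λ, n c a) (∑ c : Λ, n c b)).card := by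
    refine Finset.card_le_card_of_injOn (fun κ => ∑ c, κ c) ?_ ?_
    · intro κ hκ
      obtain ⟨t, ht, e⟩ := (Finset.mem_filter.1 hκ).2
      exact Finset.mem_coe.2 (Finset.mem_Icc.2
        ⟨Finset.sum_le_sum fun c _ => e c ▸ h c ht.1.1,
          Finset.sum_le_sum fun c _ => e c ▸ h c ht.1.2⟩)
    · intro κ hκ κ' hκ' e
      obtain ⟨t, -, e1⟩ := (Finset.mem_filter.1 hκ).2
      obtain ⟨t', -, e2⟩ := (Finset.mem_filter.1 hκ').2
      funext c
      rcases le_total t t' with h3 | h3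
      · exact (Finset.sum_eq_sum_iff_of_le fun c _ => e1 c ▸ e2 c ▸ h c h3).1 e c
          (Finset.mem_univ c)
      · exact ((Finset.sum_eq_sum_iff_of_le fun c _ => e1 c ▸ e2 c ▸ h c h3).1 e.symm c
          (Finset.mem_univ c)).symm
  have h0 : ∀ c ∈ Λ, (0 : ℝ) ≤ ((n c b - n c a : ℤ) : ℝ) := fun c _ => by
    exact_mod_cast sub_nonneg.2 (h c hab)
  rw [h1, ← ENNReal.ofReal_sum_of_nonneg h0, ← ENNReal.ofReal_one,
    ← ENNReal.ofReal_add zero_le_one (Finset.sum_nonneg h0), ← ENNReal.ofReal_natCast]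
  refine ENNReal.ofReal_le_ofReal ?_
  have h4 : ∑ c : Λ, n c a ≤ ∑ c : Λ, n c b := Finset.sum_le_sum fun c _ => h c hab
  rw [Int.card_Icc] at h2
  have h5 : (((F.filter fun κ => n ∈ V Λ a b κ).card : ℕ) : ℤ) ≤
      1 + ∑ c ∈ Λ, (n c b - n c a) := by
    rw [Finset.sum_sub_distrib, ← Finset.sum_coe_sort Λ fun c => n c b,
      ← Finset.sum_coe_sort Λ fun c => n c a]
    omega
  exact_mod_cast h5

/-- The mean of the Poisson law. -/
theorem mean (r : ℝ≥0) : ∫⁻ n : ℕ, (n : ℝ≥0∞) ∂poissonMeasure r = r := by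
  have h1 : ∑' n : ℕ, poissonMeasure r {n} = 1 := by
    rw [← measure_univ (μ := poissonMeasure r), ← lintegral_one, lintegral_countable']
    simp
  rw [lintegral_countable', tsum_eq_zero_add' ENNReal.summable, Nat.cast_zero, zero_mul, zero_add,
    ← mul_one (r : ℝ≥0∞), ← h1, ← ENNReal.tsum_mul_left]
  refine tsum_congr fun n => ?_
  rw [poissonMeasure_singleton, poissonMeasure_singleton, ← ENNReal.ofReal_natCast,
    ← ENNReal.ofReal_coe_nnreal, ← ENNReal.ofReal_mul (by positivity),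
    ← ENNReal.ofReal_mul (by positivity), Nat.factorial_succ]
  congr 1
  push_cast
  field_simp
  ring

theorem mean_inc {Ω : Type u} [MeasurableSpace Ω] {P : Measure Ω} {X : Ω → ℤ} {r : ℝ≥0}
    (h : HasLaw X ((poissonMeasure r).map fun n : ℕ => (n : ℤ)) P) :
    ∫⁻ ω, ENNReal.ofReal ((X ω : ℤ) : ℝ) ∂P = r := by
  rw [h.lintegral_comp (f := fun z : ℤ => ENNReal.ofReal (z : ℝ))
    (measurable_of_countable _).aemeasurable,
    lintegral_map (measurable_of_countable _) (measurable_of_countable _), ← mean r]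
  simp

variable {Ω : Type u} [MeasurableSpace Ω] {P : Measure Ω} {π : Measure CP}
  {Y : (ℤ × ℤ) × ℤ → Ω → CP} {N : ℤ × ℤ → ℝ → Ω → ℤ}

/-- The expected number of visited version vectors. -/
theorem sumV (w : Work P π Y N) (Λ : Finset (ℤ × ℤ)) (t0 s : ℝ) (hs : 0 ≤ s) :
    ∑' κ : Λ → ℤ, P ((fun ω c t => N c t ω) ⁻¹' V Λ t0 (t0 + s) κ) ≤
      ENNReal.ofReal (1 + Λ.card * s) := by
  have := w.prob
  have hab : t0 ≤ t0 + s := by linarith
  simp only [← fun κ => lintegral_indicator_one₀ (nullV w.measN Λ t0 (t0 + s) κ)]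
  rw [← lintegral_tsum (f := fun κ =>
    ((fun ω c t => N c t ω) ⁻¹' V Λ t0 (t0 + s) κ).indicator (1 : Ω → ℝ≥0∞))
    fun κ => aemeasurable_one.indicator₀ (nullV w.measN Λ t0 (t0 + s) κ)]
  refine (lintegral_mono fun ω => count Λ hab (fun c t => N c t ω) fun c => w.mono c ω).trans ?_
  have hm : ∀ c, AEMeasurable
      (fun ω => ENNReal.ofReal ((N c (t0 + s) ω - N c t0 ω : ℤ) : ℝ)) P := fun c =>
    (measurable_of_countable fun z : ℤ => ENNReal.ofReal (z : ℝ)).comp_aemeasurable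
      (w.poisson c t0 _ hab).aemeasurable
  rw [lintegral_add_left measurable_const, lintegral_finsetSum' _ fun c _ => hm c,
    Finset.sum_congr rfl fun c _ => mean_inc (w.poisson c t0 _ hab), lintegral_const,
    measure_univ, mul_one, Finset.sum_const, add_sub_cancel_left,
    ENNReal.ofReal_add zero_le_one (by positivity), ENNReal.ofReal_one,
    ENNReal.ofReal_mul (by positivity), ENNReal.ofReal_natCast, nsmul_eq_mul]
  rfl

/-- The law of the pieces with fixed versions. -/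
theorem lawK (w : Work P π Y N) (k : ℤ × ℤ → ℤ) :
    MeasurePreserving (fun ω c => Y (c, k c) ω) P (QQ π) := by
  have := w.piece.prob
  have h1 : Measurable fun ω a => Y a ω := measurable_pi_lambda _ w.measY
  have h2 : Measurable fun (y : (ℤ × ℤ) × ℤ → CP) c => y (c, k c) := by fun_prop
  refine ⟨h2.comp h1, ?_⟩
  have h3 := Measure.map_map (μ := P) h2 h1
  rw [w.lawY, Measure.map_infinitePi_infinitePi_of_inj (f := fun c => (c, k c))
    fun _ _ h => congrArg Prod.fst h] at h3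
  exact h3.symm

end UnionA

open UnionA in
theorem unionS : UnionStmt.{u} := by
  classical
  intro Ω _ P π Y N w E Λ t0 s hs hE
  obtain ⟨k, hk⟩ : ∃ k : (Λ → ℤ) → ℤ × ℤ → ℤ, ∀ κ (c : Λ), k κ c = κ c :=
    ⟨fun κ c => if h : c ∈ Λ then κ ⟨c, h⟩ else 0, fun κ c => dif_pos c.2⟩
  have h1 : {ω | ∃ t ∈ Icc t0 (t0 + s), (fun c => Y (c, N c t ω) ω) ∈ E} ⊆
      ⋃ κ : Λ → ℤ, (fun ω a => Y a ω) ⁻¹' ((fun y c => y (c, k κ c)) ⁻¹' toMeasurable (QQ π) E) ∩
        (fun ω c t => N c t ω) ⁻¹' V Λ t0 (t0 + s) κ := by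
    rintro ω ⟨t, ht, h⟩
    obtain ⟨t', ht', e⟩ := ratl Λ (fun c t => N c t ω) (fun c => w.rightCont c ω) ht
    refine mem_iUnion.2 ⟨fun c => N c t ω, subset_toMeasurable _ _ (hE _ _ (fun c hc => ?_) h),
      t', ht', fun c => e c c.2⟩
    exact congrArg (fun z => Y (c, z) ω) (hk (fun c => N c t ω) ⟨c, hc⟩).symm
  refine (measure_mono h1).trans ((measure_iUnion_le _).trans ?_)
  have h2 : ∀ κ : Λ → ℤ, P ((fun ω a => Y a ω) ⁻¹'
      ((fun y c => y (c, k κ c)) ⁻¹' toMeasurable (QQ π) E) ∩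
        (fun ω c t => N c t ω) ⁻¹' V Λ t0 (t0 + s) κ) =
      P ((fun ω c t => N c t ω) ⁻¹' V Λ t0 (t0 + s) κ) * QQ π E := by
    intro κ
    rw [w.indepYN.measure_inter_preimage_eq_mul _ _
      ((by fun_prop : Measurable fun (y : (ℤ × ℤ) × ℤ → CP) c => y (c, k κ c))
        (measurableSet_toMeasurable _ _)) (measV Λ _ _ κ), mul_comm,
      ← measure_toMeasurable E, ← (lawK w (k κ)).measure_preimage
        (measurableSet_toMeasurable _ _).nullMeasurableSet]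
    rfl
  rw [tsum_congr h2, ENNReal.tsum_mul_right]
  exact mul_le_mul_left (sumV w Λ t0 s hs) _

end Pool.Agent.MP_3d8edd_pr.H69
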