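import Pool.Agent.MP_3d8edd_pr.H69.Det1
import Pool.Agent.MP_3d8edd_pr.H69.Det2
import Pool.Agent.MP_3d8edd_pr.H69.Bm1
import Pool.Agent.MP_3d8edd_pr.H69.Bm2
import Pool.Agent.MP_3d8edd_pr.H69.Ref
import Pool.Agent.MP_3d8edd_pr.H69.CM
import Pool.Agent.MP_3d8edd_pr.H69.Sup
import Pool.Agent.MP_3d8edd_pr.H69.LocS
import Pool.Agent.MP_3d8edd_pr.H69.Pit
import Pool.Agent.MP_3d8edd_pr.H69.Burke
import Pool.Agent.MP_3d8edd_pr.H69.EnvA
import Pool.Agent.MP_3d8edd_pr.H69.Stat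
import Pool.Agent.MP_3d8edd_pr.H69.Joint
import Pool.Agent.MP_3d8edd_pr.H69.Exit
import Pool.Agent.MP_3d8edd_pr.H69.Left
import Pool.Agent.MP_3d8edd_pr.H69.Mid
import Pool.Agent.MP_3d8edd_pr.H69.Two
import Pool.Agent.MP_3d8edd_pr.H69.StepS
import Pool.Agent.MP_3d8edd_pr.H69.StepD
import Pool.Agent.MP_3d8edd_pr.H69.Slab
import Pool.Agent.MP_3d8edd_pr.H69.Cat
import Pool.Agent.MP_3d8edd_pr.H69.Reduce
import Pool.Agent.MP_3d8edd_pr.H69.Mp
import Pool.Agent.MP_3d8edd_pr.H69.Disc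
import Pool.Agent.MP_3d8edd_pr.H69.Union
import Pool.Agent.MP_3d8edd_pr.H69.Move
import Pool.Agent.MP_3d8edd_pr.H69.Ray
import Pool.Agent.MP_3d8edd_pr.H69.Struct
import Pool.Agent.MP_3d8edd_pr.H69.Local
import Pool.Agent.MP_3d8edd_pr.H69.Multi
import Pool.Agent.MP_3d8edd_pr.H69.Core2
import Pool.Agent.MP_3d8edd_pr.H69.Final

/-!
All the steps put together: the fixed direction.
-/

open MeasureTheory ProbabilityTheory
open scoped NNReal

namespace Pool.Agent.MP_3d8edd_pr.H69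

universe u

namespace AllA

theorem d2 : Det2 := det2 det1
theorem b2 : Bm2 := bm2 bm1
theorem rf : Ref := ref bm1
theorem c : CMStmt := cm bm1
theorem sp : SupStmt := supS bm1 rf c
theorem bu : BurkeStmt := burke b2 sp (pitS bm1 b2 rf sp (locS bm1 rf c))
theorem e : EnvA := envA bm1
theorem st : Stat := stat d2 bm1 e bu
theorem ej : EjsStmt := ejs bm1 c st
theorem ex : Exit := exitS det1 d2 bm1 e st ej
theorem md : MidStmt := midS det1 d2 bm1 e st ex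
theorem ct : Cat := catS bm1
theorem mv : MoveStmt.{u} := moveS det1 ct (disc det1 bm1 b2 ct mp)
theorem ry : RayStmt.{u} := rayS det1 b2 rf e
theorem lc : LocalStmt.{u} := localS det1 md
theorem mu : MultiStmt.{u} :=
  multiS det1 rf e (stepS det1 e (twoS det1 d2 bm1 rf e bu st (joint d2 bm1 e bu st) ex))
    (stepD det1) (slabS det1 bm1 e ex (leftS det1 d2 bm1 rf e st ej ex))

end AllA

open AllA

theorem all2 {Ω : Type u} [MeasurableSpace Ω] (P : Measure Ω) (X : ℤ × ℤ → ℤ → ℝ≥0 → Ω → ℝ)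
    (N : ℤ × ℤ → ℝ → Ω → ℤ) (h : IsModel P X N) (θ : ℝ) (hθ : 0 < θ) :
    ∀ᵐ ω ∂P, {t : ℝ | ∃ Γ, IsBigeodesic (envAt X N t ω) Γ ∧ IsNontrivial Γ ∧ IsDirected θ Γ} = ∅ :=
  final2 det1 e ct (reduceS bm1) unionS mv ry structS (core2 lc mu) P X N h θ hθ

end Pool.Agent.MP_3d8edd_pr.H69
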