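import Pool.Agent.MP_3d8edd_pr.H69.Spec

/-!
Basic facts: evaluation lemmas, measurability, the running maximum.
-/

open MeasureTheory ProbabilityTheory Set Filter
open scoped NNReal ENNReal Topology

namespace Pool.Agent.MP_3d8edd_pr.H69

@[simp] theorem cst_apply (c x : ℝ) : cst c x = c := rfl
@[simp] theorem lin_apply (a x : ℝ) : lin a x = a * x := rfl
@[simp] theorem clamp_apply (y z : ℝ) : clamp y z = max 0 (min z y) := rfl
@[simp] theorem shift_apply (c : ℝ) (f : CP) (x : ℝ) : shift c f x = f (c + x) - f c := rfl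
@[simp] theorem rot_apply (f : CP) (x : ℝ) : rot f x = -f (-x) := rfl
@[simp] theorem scale_apply (θ : ℝ) (f : CP) (x : ℝ) : scale θ f x = f (θ * x) / √θ := rfl
@[simp] theorem stop_apply (c : ℝ) (f : CP) (x : ℝ) : stop c f x = f (min x c) := rfl
@[simp] theorem past_apply (f : CP) (x : ℝ) : past f x = f (min x 0) := rfl
@[simp] theorem fut_apply (f : CP) (x : ℝ) : fut f x = f (max x 0) := rfl
theorem hab_apply (a b y : ℝ) (f : CP) (x : ℝ) :
    hab a b y f x = f x + a * x + (b - a) * max 0 (min x y) := rfl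
theorem cat_apply (g : ℤ → CP) (x : ℝ) :
    cat g x = ∑ᶠ i : ℤ, (g i (cl (x - i)) - g i (cl (-i))) := rfl
theorem qG_apply (f w : CP) (x : ℝ) : qG f w x = rmax (f - w) x + w x := rfl
theorem qD_apply (f w : CP) (x : ℝ) : qD f w x = rmax (f - w) x + w x - rmax (f - w) 0 := rfl
theorem qR_apply (f w : CP) (x : ℝ) : qR f w x = f x - rmax (f - w) x + rmax (f - w) 0 := by
  change f x + w x - qD f w x = _
  rw [qD_apply]; ring
theorem pit_apply (g : CP) (x : ℝ) : pit g x = 2 * (rmax g x - rmax g 0) - g x := rfl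
@[simp] theorem GG_zero (h : CP) (ω : Env) (m : ℤ) : GG h ω m 0 = h := rfl
theorem GG_succ (h : CP) (ω : Env) (m : ℤ) (n : ℕ) :
    GG h ω m (n + 1) = qG (GG h ω m n) (ω (m + n + 1)) := rfl

/-! ### The running maximum -/

theorem bddAbove_Iic {g : CP} (h : BddAbove (g '' Iic 0)) (x : ℝ) : BddAbove (g '' Iic x) := by
  have : g '' Iic x ⊆ g '' Iic 0 ∪ g '' Icc 0 x := by
    rintro _ ⟨z, hz, rfl⟩
    rcases le_total z 0 with h0 | h0
    · exact Or.inl ⟨z, h0, rfl⟩
    · exact Or.inr ⟨z, ⟨h0, hz⟩, rfl⟩
  exact (h.union ((isCompact_Icc.image g.continuous).bddAbove)).mono this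

theorem bddAbove_Iic_iff (g : CP) (x : ℝ) : BddAbove (g '' Iic x) ↔ BddAbove (g '' Iic 0) := by
  refine ⟨fun h => ?_, fun h => bddAbove_Iic h x⟩
  have : g '' Iic 0 ⊆ g '' Iic x ∪ g '' Icc x 0 := by
    rintro _ ⟨z, hz, rfl⟩
    rcases le_total z x with h0 | h0
    · exact Or.inl ⟨z, h0, rfl⟩
    · exact Or.inr ⟨z, ⟨h0, hz⟩, rfl⟩
  exact (h.union ((isCompact_Icc.image g.continuous).bddAbove)).mono this

theorem rmax_apply {g : CP} (h : BddAbove (g '' Iic 0)) (x : ℝ) :
    rmax g x = sSup (g '' Iic x) := by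
  rw [rmax, dif_pos h]; rfl

theorem rmax_of_not {g : CP} (h : ¬ BddAbove (g '' Iic 0)) : rmax g = 0 := by
  rw [rmax, dif_neg h]

/-- The formula also holds in the unbounded case. -/
theorem rmax_eq (g : CP) (x : ℝ) : rmax g x = sSup (g '' Iic x) := by
  by_cases h : BddAbove (g '' Iic 0)
  · exact rmax_apply h x
  · rw [rmax_of_not h, Real.sSup_of_not_bddAbove (by rwa [bddAbove_Iic_iff])]; rfl

theorem rmax_isLUB {g : CP} (h : BddAbove (g '' Iic 0)) (x : ℝ) :
    IsLUB (g '' Iic x) (rmax g x) := by
  rw [rmax_apply h]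
  exact isLUB_csSup ⟨_, x, le_refl x, rfl⟩ (bddAbove_Iic h x)

theorem le_rmax {g : CP} (h : BddAbove (g '' Iic 0)) {z x : ℝ} (hz : z ≤ x) : g z ≤ rmax g x :=
  (rmax_isLUB h x).1 ⟨z, hz, rfl⟩

theorem rmax_le {g : CP} (h : BddAbove (g '' Iic 0)) {x c : ℝ} (hc : ∀ z ≤ x, g z ≤ c) :
    rmax g x ≤ c :=
  (rmax_isLUB h x).2 (by rintro _ ⟨z, hz, rfl⟩; exact hc z hz)

theorem rmax_mono {g : CP} (h : BddAbove (g '' Iic 0)) : Monotone (rmax g) :=
  fun _ _ hxy => rmax_le h fun _ hz => le_rmax h (hz.trans hxy)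

theorem smax_isLUB (f : CP) {t : ℝ} (ht : 0 ≤ t) : IsLUB (f '' Icc 0 t) (smax f t) :=
  isLUB_csSup ⟨_, 0, ⟨le_rfl, ht⟩, rfl⟩ (isCompact_Icc.image f.continuous).bddAbove

theorem le_smax (f : CP) {t z : ℝ} (hz : z ∈ Icc 0 t) : f z ≤ smax f t :=
  (smax_isLUB f (hz.1.trans hz.2)).1 ⟨z, hz, rfl⟩

theorem smax_le (f : CP) {t c : ℝ} (ht : 0 ≤ t) (hc : ∀ z ∈ Icc 0 t, f z ≤ c) : smax f t ≤ c :=
  (smax_isLUB f ht).2 (by rintro _ ⟨z, hz, rfl⟩; exact hc z hz)

/-! ### Measurability -/

@[fun_prop] theorem measurable_coe : Measurable fun (f : CP) (x : ℝ) => f x :=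
  comap_measurable _

theorem measurable_ev (x : ℝ) : Measurable fun f : CP => f x :=
  (measurable_pi_apply x).comp measurable_coe

@[fun_prop] theorem Measurable.ev {α : Type*} [MeasurableSpace α] {F : α → CP} (hF : Measurable F)
    (x : ℝ) : Measurable fun a => F a x := (measurable_ev x).comp hF

theorem measurable_of_ev {α : Type*} [MeasurableSpace α] {F : α → CP}
    (h : ∀ x, Measurable fun a => F a x) : Measurable F :=
  measurable_comap_iff.2 (measurable_pi_lambda _ h)

instance : MeasurableAdd₂ CP :=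
  ⟨measurable_of_ev fun x => (Measurable.ev measurable_fst x).add (Measurable.ev measurable_snd x)⟩

instance : MeasurableSub₂ CP :=
  ⟨measurable_of_ev fun x => (Measurable.ev measurable_fst x).sub (Measurable.ev measurable_snd x)⟩

instance : MeasurableNeg CP := ⟨measurable_of_ev fun x => (measurable_ev x).neg⟩

instance : MeasurableSMul₂ ℝ CP :=
  ⟨measurable_of_ev fun x => measurable_fst.mul (Measurable.ev measurable_snd x)⟩

@[fun_prop] theorem measurable_cst : Measurable cst := measurable_of_ev fun _ => measurable_id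

@[fun_prop] theorem measurable_shift (c : ℝ) : Measurable (shift c) :=
  measurable_of_ev fun _ => (measurable_ev _).sub (measurable_ev _)

@[fun_prop] theorem measurable_rot : Measurable rot :=
  measurable_of_ev fun _ => (measurable_ev _).neg

@[fun_prop] theorem measurable_scale (θ : ℝ) : Measurable (scale θ) :=
  measurable_of_ev fun _ => (measurable_ev _).div_const _

@[fun_prop] theorem measurable_stop (c : ℝ) : Measurable (stop c) :=
  measurable_of_ev fun _ => measurable_ev _

@[fun_prop] theorem measurable_past : Measurable past := measurable_of_ev fun _ => measurable_ev _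

@[fun_prop] theorem measurable_fut : Measurable fut := measurable_of_ev fun _ => measurable_ev _

@[fun_prop] theorem measurable_hab (a b y : ℝ) : Measurable (hab a b y) := by
  unfold hab; fun_prop

/-- The supremum of a continuous function over a set is the supremum over a countable subset. -/
theorem measurable_sSup_image (s : Set ℝ) : Measurable fun f : CP => sSup (f '' s) := by
  obtain ⟨d, hds, hdc, hd⟩ :=
    (TopologicalSpace.IsSeparable.of_separableSpace s).exists_countable_dense_subset
  have e : ∀ f : CP, sSup (f '' s) = ⨆ z : d, f z := by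
    intro f
    rw [iSup, ← image_eq_range]
    have hub : upperBounds (f '' s) = upperBounds (f '' d) := by
      refine Subset.antisymm (upperBounds_mono_set (image_mono hds)) fun c hc => ?_
      rintro _ ⟨z, hz, rfl⟩
      have hcl : closure d ⊆ {z | f z ≤ c} :=
        closure_minimal (fun w hw => hc ⟨w, hw, rfl⟩) (isClosed_le f.continuous continuous_const)
      exact hcl (hd hz)
    by_cases hb : BddAbove (f '' s)
    · rcases s.eq_empty_or_nonempty with rfl | hne
      · rw [subset_empty_iff.1 hds]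
      · have hdne : d.Nonempty := by
          obtain ⟨z, hz⟩ := hne
          exact closure_nonempty_iff.1 ⟨z, hd hz⟩
        have h1 := isLUB_csSup (hne.image f) hb
        have h2 : IsLUB (f '' d) (sSup (f '' s)) := by
          unfold IsLUB at h1 ⊢; rwa [← hub]
        exact (h2.csSup_eq (hdne.image f)).symm
    · rw [Real.sSup_of_not_bddAbove hb, Real.sSup_of_not_bddAbove]
      unfold BddAbove at hb ⊢; rwa [← hub]
  simp_rw [e]
  have := hdc.to_subtype
  exact Measurable.iSup fun z => measurable_ev _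

@[fun_prop] theorem measurable_smax (t : ℝ) : Measurable fun f => smax f t :=
  measurable_sSup_image _

@[fun_prop] theorem measurable_rmax : Measurable rmax :=
  measurable_of_ev fun x => by simp_rw [rmax_eq]; exact measurable_sSup_image _

@[fun_prop] theorem measurable_pit : Measurable pit := by
  unfold pit; fun_prop

section
variable {α : Type*} [MeasurableSpace α] {F G : α → CP}

@[fun_prop] theorem Measurable.qG (hF : Measurable F) (hG : Measurable G) :
    Measurable fun a => H69.qG (F a) (G a) := by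
  unfold H69.qG; fun_prop

@[fun_prop] theorem Measurable.qJ (hF : Measurable F) (hG : Measurable G) :
    Measurable fun a => H69.qJ (F a) (G a) := by
  unfold H69.qJ; fun_prop

@[fun_prop] theorem Measurable.qD (hF : Measurable F) (hG : Measurable G) :
    Measurable fun a => H69.qD (F a) (G a) := by
  unfold H69.qD; fun_prop

@[fun_prop] theorem Measurable.qR (hF : Measurable F) (hG : Measurable G) :
    Measurable fun a => H69.qR (F a) (G a) := by
  unfold H69.qR; fun_prop

@[fun_prop] theorem Measurable.GG {E : α → Env} (hF : Measurable F) (hE : Measurable E) (m : ℤ)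
    (n : ℕ) : Measurable fun a => H69.GG (F a) (E a) m n := by
  induction n with
  | zero => exact hF
  | succ n ih => exact Measurable.qG ih ((measurable_pi_apply _).comp hE)

end

theorem measurableSet_bddAbove : MeasurableSet {g : CP | BddAbove (g '' Iic 0)} := by
  have e : {g : CP | BddAbove (g '' Iic 0)} =
      ⋃ n : ℕ, ⋂ q : ℚ, {g : CP | g (min (q : ℝ) 0) ≤ n} := by
    ext g
    simp only [mem_ofPred_eq, mem_iUnion, mem_iInter]
    constructor
    · rintro ⟨c, hc⟩
      obtain ⟨n, hn⟩ := exists_nat_ge c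
      exact ⟨n, fun q => (hc ⟨_, mem_Iic.2 (min_le_right _ _), rfl⟩).trans hn⟩
    · rintro ⟨n, hn⟩
      refine ⟨n, ?_⟩
      rintro _ ⟨z, hz, rfl⟩
      have hcl : IsClosed {z : ℝ | g (min z 0) ≤ n} :=
        isClosed_le (by fun_prop) continuous_const
      have := (Rat.denseRange_cast (𝕜 := ℝ)).induction_on (p := fun z => g (min z 0) ≤ n) z hcl hn
      rwa [min_eq_left hz] at this
  rw [e]
  exact MeasurableSet.iUnion fun n => MeasurableSet.iInter fun q =>
    measurableSet_le (measurable_ev _) measurable_const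

theorem measurableSet_Bdd : MeasurableSet {p : CP × CP | Bdd p.1 p.2} :=
  (measurable_fst.sub measurable_snd) measurableSet_bddAbove

theorem measurableSet_AllBdd (m : ℤ) (n : ℕ) :
    MeasurableSet {p : CP × Env | AllBdd p.1 p.2 m n} := by
  have e : {p : CP × Env | AllBdd p.1 p.2 m n} =
      ⋂ i : ℕ, ⋂ _ : i < n, (fun p : CP × Env => (GG p.1 p.2 m i, p.2 (m + i + 1))) ⁻¹'
        {p : CP × CP | Bdd p.1 p.2} := by
    ext p; simp [AllBdd]
  rw [e]
  exact MeasurableSet.iInter fun i => MeasurableSet.iInter fun _ =>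
    (by fun_prop : Measurable fun p : CP × Env => (GG p.1 p.2 m i, p.2 (m + i + 1)))
      measurableSet_Bdd

@[fun_prop] theorem measurable_shiftE (c : ℝ) (l : ℤ) : Measurable (shiftE c l) :=
  measurable_pi_lambda _ fun _ => (measurable_shift c).comp (measurable_pi_apply _)

@[fun_prop] theorem measurable_rotE : Measurable rotE :=
  measurable_pi_lambda _ fun _ => measurable_rot.comp (measurable_pi_apply _)

@[fun_prop] theorem measurable_scaleE (θ : ℝ) : Measurable (scaleE θ) :=
  measurable_pi_lambda _ fun _ => (measurable_scale θ).comp (measurable_pi_apply _)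

/-! ### Measures -/

theorem IsBM.prob {μ : Measure CP} {a : ℝ} (h : IsBM μ a) : IsProbabilityMeasure μ :=
  h.gauss.isProbabilityMeasure

theorem IsPiece.prob {π : Measure CP} (h : IsPiece π) : IsProbabilityMeasure π :=
  h.gauss.isProbabilityMeasure

instance (μ : Measure CP) [IsProbabilityMeasure μ] : IsProbabilityMeasure (PP μ) := by
  unfold PP; infer_instance

instance (π : Measure CP) [IsProbabilityMeasure π] : IsProbabilityMeasure (QQ π) := by
  unfold QQ; infer_instance

/-- Adding an independent coordinate does not change the (outer) measure of a set. -/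
theorem prod_snd_preimage {α β : Type*} [MeasurableSpace α] [MeasurableSpace β] (ν : Measure α)
    [IsProbabilityMeasure ν] (μ : Measure β) [SFinite μ] (E : Set β) :
    (ν.prod μ) {p | p.2 ∈ E} = μ E := by
  have : {p : α × β | p.2 ∈ E} = univ ×ˢ E := by ext p; simp
  rw [this, Measure.prod_prod, measure_univ, one_mul]

theorem prod_fst_preimage {α β : Type*} [MeasurableSpace α] [MeasurableSpace β] (ν : Measure α)
    (μ : Measure β) [IsProbabilityMeasure μ] (E : Set α) :
    (ν.prod μ) {p | p.1 ∈ E} = ν E := by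
  have : {p : α × β | p.1 ∈ E} = E ×ˢ univ := by ext p; simp
  rw [this, Measure.prod_prod, measure_univ, mul_one]

/-- Preimages of arbitrary sets under measure preserving maps. -/
theorem preimage_le {α β : Type*} [MeasurableSpace α] [MeasurableSpace β] {μ : Measure α}
    {ν : Measure β} {f : α → β} (hf : MeasurePreserving f μ ν) (E : Set β) :
    μ (f ⁻¹' E) ≤ ν E := by
  rw [← hf.map_eq]; exact Measure.le_map_apply hf.measurable.aemeasurable E

theorem Agree.mono {ω ω' : Env} {m k m' k' : ℤ} {x y x' y' : ℝ} (h : Agree ω ω' m k x y)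
    (h1 : m ≤ m') (h2 : k' ≤ k) (h3 : x ≤ x') (h4 : y' ≤ y) : Agree ω ω' m' k' x' y' :=
  fun j a b u hu v hv => h j (h1.trans_lt a) (b.trans h2) u ⟨h3.trans hu.1, hu.2.trans h4⟩ v
    ⟨h3.trans hv.1, hv.2.trans h4⟩

theorem Loc.mono {E : Set Env} {m k m' k' : ℤ} {x y x' y' : ℝ} (h : Loc E m' k' x' y')
    (h1 : m ≤ m') (h2 : k' ≤ k) (h3 : x ≤ x') (h4 : y' ≤ y) : Loc E m k x y :=
  fun ω ω' ha => h ω ω' (ha.mono h1 h2 h3 h4)

end Pool.Agent.MP_3d8edd_pr.H69
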