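import Mathlib

/-!
Dynamical Brownian last passage percolation: paths, geodesics, bigeodesics and the model.
-/

open MeasureTheory ProbabilityTheory Set Filter
open scoped NNReal Topology

namespace Pool.Agent.MP_3d8edd_pr.H69

/-- `t` describes an up-right path from `p = (x, m)` to `q = (y, k)`:
`x = t (m - 1) ≤ t m ≤ … ≤ t k = y`. The path occupies `[t (j - 1), t j] × {j}`. -/
def IsPath (p q : ℝ × ℤ) (t : ℤ → ℝ) : Prop :=
  t (p.2 - 1) = p.1 ∧ t q.2 = q.1 ∧ ∀ j, p.2 ≤ j → j ≤ q.2 → t (j - 1) ≤ t j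

/-- The weight of the path in the environment `W` (`W j` is the function on the line `j`). -/
noncomputable def pathWeight (W : ℤ → ℝ → ℝ) (p q : ℝ × ℤ) (t : ℤ → ℝ) : ℝ :=
  ∑ j ∈ Finset.Icc p.2 q.2, (W j (t j) - W j (t (j - 1)))

/-- A geodesic from `p` to `q`: a path of maximal weight. -/
def IsGeodesic (W : ℤ → ℝ → ℝ) (p q : ℝ × ℤ) (t : ℤ → ℝ) : Prop :=
  IsPath p q t ∧ ∀ t', IsPath p q t' → pathWeight W p q t' ≤ pathWeight W p q t

/-- `Γ` is a bigeodesic: a nonempty up-right path, unbounded in both directions, that occupies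
`[τ (j - 1), τ j] × {j}` for a monotone `τ` with values in `[-∞, ∞]` (infinite values describe
paths that begin or end with a horizontal ray), such that for all `p ≤ q` on `Γ` the part of `Γ`
from `p` to `q` is a geodesic. -/
def IsBigeodesic (W : ℤ → ℝ → ℝ) (Γ : Set (ℝ × ℤ)) : Prop :=
  ∃ τ : ℤ → EReal, Monotone τ ∧
    Γ = {p | τ (p.2 - 1) ≤ (p.1 : EReal) ∧ (p.1 : EReal) ≤ τ p.2} ∧ Γ.Nonempty ∧
    ∀ p ∈ Γ, ∀ q ∈ Γ, p ≤ q →
      ∃ t, IsGeodesic W p q t ∧ ∀ j, p.2 ≤ j → j < q.2 → (t j : EReal) = τ j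

/-- Not contained in a horizontal line and not equal to a vertical line. -/
def IsNontrivial (Γ : Set (ℝ × ℤ)) : Prop :=
  (¬ ∃ m : ℤ, ∀ p ∈ Γ, p.2 = m) ∧ ¬ ∃ x : ℝ, Γ = {p | p.1 = x}

/-- `x_r / y_r → θ` for every sequence `(x_r, y_r)` in `Γ` with `|y_r| → ∞`. -/
def IsDirected (θ : ℝ) (Γ : Set (ℝ × ℤ)) : Prop :=
  ∀ p : ℕ → ℝ × ℤ, (∀ r, p r ∈ Γ) → Tendsto (fun r => |(p r).2|) atTop atTop →
    Tendsto (fun r => (p r).1 / ((p r).2 : ℝ)) atTop (𝓝 θ)

/-- The function on the real line with value `0` at `0` whose increment on `[i, i + 1]` is the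
path `X i` (used on `[0, 1]`). -/
noncomputable def line (X : ℤ → ℝ≥0 → ℝ) (x : ℝ) : ℝ :=
  ∑ i ∈ Finset.Ico 0 ⌊x⌋, X i 1 - ∑ i ∈ Finset.Ico ⌊x⌋ 0, X i 1 + X ⌊x⌋ (Int.fract x).toNNReal

variable {Ω : Type*} [MeasurableSpace Ω]

/-- The dynamics. `X c k` is the `k`-th Brownian path of the cell `c = (i, n)`, and `N c` is the
counting process of the rate one clock of the cell `c` (a two-sided Poisson process). All paths
and all clocks are independent. -/
structure IsModel (P : Measure Ω) (X : ℤ × ℤ → ℤ → ℝ≥0 → Ω → ℝ) (N : ℤ × ℤ → ℝ → Ω → ℤ) :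
    Prop where
  brownian : ∀ c k, IsBrownianReal (X c k) P
  indepX : iIndepFun (fun (a : (ℤ × ℤ) × ℤ) ω s => X a.1 a.2 s ω) P
  zero : ∀ c ω, N c 0 ω = 0
  mono : ∀ c ω, Monotone fun t => N c t ω
  rightCont : ∀ c ω t, ContinuousWithinAt (fun u => N c u ω) (Ici t) t
  poisson : ∀ c s t, s ≤ t → HasLaw (fun ω => N c t ω - N c s ω)
    ((poissonMeasure (t - s).toNNReal).map fun n : ℕ => (n : ℤ)) P
  indepIncr : ∀ c, HasIndepIncrements (N c) P
  indepN : iIndepFun (fun (c : ℤ × ℤ) ω t => N c t ω) P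
  indepXN : IndepFun (fun ω (a : (ℤ × ℤ) × ℤ) s => X a.1 a.2 s ω)
    (fun ω (c : ℤ × ℤ) t => N c t ω) P

/-- The environment at time `t`: on the line `n` the increment on `[i, i + 1]` is the path of the
cell `(i, n)` selected by the number of rings of its clock. -/
noncomputable def envAt (X : ℤ × ℤ → ℤ → ℝ≥0 → Ω → ℝ) (N : ℤ × ℤ → ℝ → Ω → ℤ) (t : ℝ) (ω : Ω) :
    ℤ → ℝ → ℝ :=
  fun n => line fun i s => X (i, n) (N (i, n) t ω) s ω

end Pool.Agent.MP_3d8edd_pr.H69
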