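import Pool.Agent.MP_3d8edd_pr.H69.Basic

/-!
Deterministic facts about point to point passage times.
-/

open MeasureTheory Set Filter
open scoped Topology Pointwise

namespace Pool.Agent.MP_3d8edd_pr.H69

namespace Det1A

variable {ω ω' : Env} {m l k : ℤ} {x x' y y' z : ℝ} {s t : ℤ → ℝ}

theorem mem_Icc_of_adm (h : Adm m k x y t) {j : ℤ} (h1 : m ≤ j) (h2 : j ≤ k) : t j ∈ Icc x y := by
  obtain ⟨a, b, c⟩ := h
  have hm : m ∈ Icc m k := ⟨le_rfl, h1.trans h2⟩
  have hk : k ∈ Icc m k := ⟨h1.trans h2, le_rfl⟩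
  exact ⟨a ▸ c hm ⟨h1, h2⟩ h1, b ▸ c ⟨h1, h2⟩ hk h2⟩

theorem ok_of_adm (h : Adm m k x y t) (hmk : m ≤ k) : Ok m k x y := by
  refine ⟨hmk, ?_, fun e => ?_⟩
  · have := (mem_Icc_of_adm h le_rfl hmk).2
    rwa [h.1] at this
  · rw [← h.1, ← h.2.1, e]

theorem ok_of_lt (hmk : m < k) (hxy : x ≤ y) : Ok m k x y :=
  ⟨hmk.le, hxy, fun e => absurd e hmk.ne⟩

theorem adm_left (h : Adm m k x y t) (h2 : l ≤ k) : Adm m l x (t l) t :=
  ⟨h.1, rfl, h.2.2.mono (Icc_subset_Icc_right h2)⟩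

theorem adm_right (h : Adm m k x y t) (h1 : m ≤ l) : Adm l k (t l) y t :=
  ⟨rfl, h.2.1, h.2.2.mono (Icc_subset_Icc_left h1)⟩

theorem wt_congr (h : ∀ j, m ≤ j → j ≤ k → t j = s j) : wt ω m k t = wt ω m k s := by
  refine Finset.sum_congr rfl fun j hj => ?_
  rw [Finset.mem_Ioc] at hj
  rw [h j hj.1.le hj.2, h (j - 1) (by omega) (by omega)]

theorem continuous_wt (ω : Env) (m k : ℤ) : Continuous (wt ω m k) := by
  unfold wt
  fun_prop

theorem exists_greatest (ω : Env) (h : Ok m k x y) :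
    ∃ t, Adm m k x y t ∧ ∀ s, Adm m k x y s → wt ω m k s ≤ wt ω m k t := by
  obtain ⟨hmk, hxy, he⟩ := h
  have hcl : IsClosed {t : ℤ → ℝ | Adm m k x y t} := by
    have e : {t : ℤ → ℝ | Adm m k x y t} = {t | t m = x} ∩ ({t | t k = y} ∩
        ⋂ a ∈ Icc m k, ⋂ b ∈ Icc m k, ⋂ _ : a ≤ b, {t | t a ≤ t b}) := by
      ext t
      simp only [Adm, MonotoneOn, mem_inter_iff, mem_iInter, mem_ofPred_eq]
    rw [e]
    refine (isClosed_eq (continuous_apply m) continuous_const).inter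
      ((isClosed_eq (continuous_apply k) continuous_const).inter ?_)
    exact isClosed_biInter fun a _ => isClosed_biInter fun b _ => isClosed_iInter fun _ =>
      isClosed_le (continuous_apply a) (continuous_apply b)
  have hc : IsCompact ((Set.pi univ fun _ : ℤ => Icc x y) ∩ {t : ℤ → ℝ | Adm m k x y t}) :=
    (isCompact_univ_pi fun _ => isCompact_Icc).inter_right hcl
  have hne : ((Set.pi univ fun _ : ℤ => Icc x y) ∩ {t : ℤ → ℝ | Adm m k x y t}).Nonempty := by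
    refine ⟨fun j => if j ≤ m then x else y, fun j _ => ?_, ?_, ?_, ?_⟩
    · by_cases hj : j ≤ m
      · simp only [hj, if_true]; exact ⟨le_rfl, hxy⟩
      · simp only [hj, if_false]; exact ⟨hxy, le_rfl⟩
    · simp
    · by_cases hk : k ≤ m
      · simp only [hk, if_true]; exact he (le_antisymm hmk hk)
      · simp only [hk, if_false]
    · intro a _ b _ hab
      by_cases hb : b ≤ m
      · simp only [hb, hab.trans hb, if_true, le_refl]
      · by_cases ha : a ≤ m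
        · simp only [ha, hb, if_true, if_false, hxy]
        · simp only [ha, hb, if_false, le_refl]
  obtain ⟨t, ht, hmax⟩ := hc.exists_isMaxOn hne (continuous_wt ω m k).continuousOn
  refine ⟨t, ht.2, fun s hs => ?_⟩
  have e : ∀ j, m ≤ j → j ≤ k → s j = max x (min (s j) y) := fun j h1 h2 => by
    have := mem_Icc_of_adm hs h1 h2
    rw [min_eq_left this.2, max_eq_right this.1]
  rw [wt_congr (s := fun j => max x (min (s j) y)) e]
  refine hmax ⟨fun j _ => ⟨le_max_left _ _, max_le hxy (min_le_right _ _)⟩, ?_, ?_, ?_⟩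
  · exact (e m le_rfl hmk).symm.trans hs.1
  · exact (e k hmk le_rfl).symm.trans hs.2.1
  · intro a ha b hb hab
    exact max_le_max le_rfl (min_le_min (hs.2.2 ha hb hab) le_rfl)

theorem T_eq_of_greatest (ht : Adm m k x y t)
    (h : ∀ s, Adm m k x y s → wt ω m k s ≤ wt ω m k t) : T ω m k x y = wt ω m k t :=
  IsGreatest.csSup_eq ⟨⟨t, ht, rfl⟩, by rintro _ ⟨s, hs, rfl⟩; exact h s hs⟩

theorem exists_max (ω : Env) (h : Ok m k x y) :
    ∃ t, Adm m k x y t ∧ wt ω m k t = T ω m k x y := by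
  obtain ⟨t, ht, hmax⟩ := exists_greatest ω h
  exact ⟨t, ht, (T_eq_of_greatest ht hmax).symm⟩

theorem le_T (ω : Env) (hmk : m ≤ k) (ht : Adm m k x y t) : wt ω m k t ≤ T ω m k x y := by
  obtain ⟨s, hs, hmax⟩ := exists_greatest ω (ok_of_adm ht hmk)
  rw [T_eq_of_greatest hs hmax]
  exact hmax t ht

theorem split (ω : Env) (t : ℤ → ℝ) (h1 : m ≤ l) (h2 : l ≤ k) :
    wt ω m k t = wt ω m l t + wt ω l k t := by
  unfold wt
  rw [← Finset.sum_union (Finset.Ioc_disjoint_Ioc_of_le le_rfl), Finset.Ioc_union_Ioc_eq_Ioc h1 h2]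

theorem concat (ω : Env) (h1 : Ok m l x z) (h2 : Ok l k z y) :
    T ω m l x z + T ω l k z y ≤ T ω m k x y := by
  obtain ⟨t, ht, e1⟩ := exists_max ω h1
  obtain ⟨s, hs, e2⟩ := exists_max ω h2
  have a1 : ∀ j, j ≤ l → t j = (fun j => if j ≤ l then t j else s j) j := fun j hj => by
    simp only [hj, if_true]
  have a2 : ∀ j, l ≤ j → s j = (fun j => if j ≤ l then t j else s j) j := fun j hj => by
    by_cases h : j ≤ l
    · simp only [h, if_true]
      rw [le_antisymm h hj, ht.2.1, hs.1]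
    · simp only [h, if_false]
  rw [← e1, ← e2, wt_congr fun j _ hj => a1 j hj, wt_congr fun j hj _ => a2 j hj,
    ← split ω _ h1.1 h2.1]
  refine le_T ω (h1.1.trans h2.1) ⟨(a1 m h1.1).symm.trans ht.1, (a2 k h2.1).symm.trans hs.2.1, ?_⟩
  intro a ha b hb hab
  rcases le_total b l with hb' | hb'
  · rw [← a1 a (hab.trans hb'), ← a1 b hb']
    exact ht.2.2 ⟨ha.1, hab.trans hb'⟩ ⟨hb.1, hb'⟩ hab
  · rcases le_total a l with ha' | ha'
    · rw [← a1 a ha', ← a2 b hb']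
      exact (mem_Icc_of_adm ht ha.1 ha').2.trans (mem_Icc_of_adm hs hb' hb.2).1
    · rw [← a2 a ha', ← a2 b hb']
      exact hs.2.2 ⟨ha', ha.2⟩ ⟨hb', hb.2⟩ hab

theorem wt_self (ω : Env) (m : ℤ) (t : ℤ → ℝ) : wt ω m m t = 0 := by
  simp [wt]

theorem wt_single (ω : Env) (m : ℤ) (t : ℤ → ℝ) :
    wt ω m (m + 1) t = ω (m + 1) (t (m + 1)) - ω (m + 1) (t m) := by
  have e : Finset.Ioc m (m + 1) = {m + 1} := by
    ext j; simp only [Finset.mem_Ioc, Finset.mem_singleton]; omega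
  rw [wt, e, Finset.sum_singleton, add_sub_cancel_right]

theorem self (ω : Env) (m : ℤ) (x : ℝ) : T ω m m x x = 0 := by
  obtain ⟨t, -, e⟩ := exists_max ω (m := m) (k := m) (x := x) (y := x) ⟨le_rfl, le_rfl, fun _ => rfl⟩
  rw [← e, wt_self]

theorem single (ω : Env) (m : ℤ) (h : x ≤ y) :
    T ω m (m + 1) x y = ω (m + 1) y - ω (m + 1) x := by
  obtain ⟨t, ht, e⟩ := exists_max ω (ok_of_lt (lt_add_one m) h)
  rw [← e, wt_single, ht.1, ht.2.1]

theorem wt_min_max (ω : Env) (m k : ℤ) (t s : ℤ → ℝ) :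
    wt ω m k t + wt ω m k s =
      wt ω m k (fun j => min (t j) (s j)) + wt ω m k fun j => max (t j) (s j) := by
  unfold wt
  rw [← Finset.sum_add_distrib, ← Finset.sum_add_distrib]
  refine Finset.sum_congr rfl fun j _ => ?_
  have e : ∀ a b : ℝ, ω j (min a b) + ω j (max a b) = ω j a + ω j b := fun a b => by
    rcases le_total a b with h | h
    · rw [min_eq_left h, max_eq_right h]
    · rw [min_eq_right h, max_eq_left h, add_comm]
  linarith [e (t j) (s j), e (t (j - 1)) (s (j - 1))]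

theorem quad (ω : Env) (hmk : m < k) (h1 : x ≤ x') (h2 : x' ≤ y) (h3 : y ≤ y') :
    T ω m k x y' + T ω m k x' y ≤ T ω m k x y + T ω m k x' y' := by
  obtain ⟨t, ht, e1⟩ := exists_max ω (ok_of_lt hmk (h1.trans (h2.trans h3)))
  obtain ⟨s, hs, e2⟩ := exists_max ω (ok_of_lt hmk h2)
  rw [← e1, ← e2, wt_min_max]
  refine add_le_add (le_T ω hmk.le ⟨?_, ?_, ht.2.2.min hs.2.2⟩)
    (le_T ω hmk.le ⟨?_, ?_, ht.2.2.max hs.2.2⟩)
  · simp only [ht.1, hs.1, min_eq_left h1]
  · simp only [ht.2.1, hs.2.1, min_eq_right h3]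
  · simp only [ht.1, hs.1, max_eq_right h1]
  · simp only [ht.2.1, hs.2.1, max_eq_left h3]

theorem exists_split (ω : Env) (h : Ok m k x y) (h1 : m ≤ l) (h2 : l ≤ k) :
    ∃ z, Ok m l x z ∧ Ok l k z y ∧ T ω m k x y ≤ T ω m l x z + T ω l k z y := by
  obtain ⟨t, ht, e⟩ := exists_max ω h
  refine ⟨t l, ok_of_adm (adm_left ht h2) h1, ok_of_adm (adm_right ht h1) h2, ?_⟩
  rw [← e, split ω t h1 h2]
  exact add_le_add (le_T ω h1 (adm_left ht h2)) (le_T ω h2 (adm_right ht h1))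

theorem vquad (ω : Env) (hml : m < l) (hlk : l ≤ k) (h1 : x ≤ x') (h2 : x' ≤ y) :
    T ω m k x' y + T ω m l x y ≤ T ω m k x y + T ω m l x' y := by
  obtain ⟨z, a, b, c⟩ := exists_split ω (ok_of_lt (hml.trans_le hlk) h2) hml.le hlk
  have q := quad ω hml h1 a.2.1 b.2.1
  have r := concat ω (ok_of_lt hml (h1.trans a.2.1)) b
  linarith

theorem right (ω : Env) (hmk : m < k) (h1 : x ≤ y) (h2 : y ≤ y') :
    T ω m k x y + (ω k y' - ω k y) ≤ T ω m k x y' := by
  obtain ⟨n, rfl⟩ : ∃ n, k = n + 1 := ⟨k - 1, by ring⟩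
  obtain ⟨z, a, b, c⟩ := exists_split ω (ok_of_lt hmk h1) (l := n) (by omega) (by omega)
  have r := concat ω a (ok_of_lt (lt_add_one n) (b.2.1.trans h2))
  rw [single ω n b.2.1] at c
  rw [single ω n (b.2.1.trans h2)] at r
  linarith

theorem left (ω : Env) (hmk : m < k) (h1 : x ≤ x') (h2 : x' ≤ y) :
    (ω (m + 1) x' - ω (m + 1) x) + T ω m k x' y ≤ T ω m k x y := by
  obtain ⟨z, a, b, c⟩ := exists_split ω (ok_of_lt hmk h2) (l := m + 1) (by omega) (by omega)
  have r := concat ω (ok_of_lt (lt_add_one m) (h1.trans a.2.1)) b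
  rw [single ω m a.2.1] at c
  rw [single ω m (h1.trans a.2.1)] at r
  linarith

theorem crude (ω : Env) {K : ℝ} (h : Ok m k x y)
    (hK : ∀ j, m < j → j ≤ k → ∀ u ∈ Icc x y, ∀ v ∈ Icc x y, ω j v - ω j u ≤ K) :
    T ω m k x y ≤ (k - m : ℤ) * K := by
  obtain ⟨t, ht, e⟩ := exists_max ω h
  rw [← e]
  have hc : (((Finset.Ioc m k).card : ℕ) : ℝ) = ((k - m : ℤ) : ℝ) := by
    rw [← Int.card_Ioc_of_le m k h.1, Int.cast_natCast]
  rw [← hc, ← nsmul_eq_mul]
  refine Finset.sum_le_card_nsmul _ _ _ fun j hj => ?_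
  rw [Finset.mem_Ioc] at hj
  exact hK j hj.1 hj.2 _ (mem_Icc_of_adm ht (by omega) (by omega)) _
    (mem_Icc_of_adm ht hj.1.le hj.2)

theorem exists_opt (ω : Env) (hml : m < l) (hlk : l < k) (h : x ≤ y) :
    ∃ z, IsOpt ω m l k x y z := by
  obtain ⟨z, a, b, c⟩ := exists_split ω (ok_of_lt (hml.trans hlk) h) hml.le hlk.le
  exact ⟨z, a.2.1, b.2.1, c⟩

theorem ord_up (hml : m < l) (hlk : l < k) (h : IsOpt ω m l k x y z) (h1 : x ≤ x') (h2 : y ≤ y')
    (h3 : x' ≤ y') : ∃ z', z ≤ z' ∧ IsOpt ω m l k x' y' z' := by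
  obtain ⟨w, hw⟩ := exists_opt ω hml hlk h3
  rcases le_total z w with hz | hz
  · exact ⟨w, hz, hw⟩
  · refine ⟨z, le_rfl, hw.1.trans hz, h.2.1.trans h2, ?_⟩
    have q1 := quad ω hml h1 hw.1 hz
    have q2 := quad ω hlk hz h.2.1 h2
    have r := concat ω (ok_of_lt hml (h1.trans hw.1)) (ok_of_lt hlk (hz.trans h.2.1))
    linarith [h.2.2, hw.2.2]

theorem ord_down (hml : m < l) (hlk : l < k) (h : IsOpt ω m l k x y z) (h1 : x' ≤ x) (h2 : y' ≤ y)
    (h3 : x' ≤ y') : ∃ z', z' ≤ z ∧ IsOpt ω m l k x' y' z' := by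
  obtain ⟨w, hw⟩ := exists_opt ω hml hlk h3
  rcases le_total w z with hz | hz
  · exact ⟨w, hz, hw⟩
  · refine ⟨z, le_rfl, h1.trans h.1, hz.trans hw.2.1, ?_⟩
    have q1 := quad ω hml h1 h.1 hz
    have q2 := quad ω hlk hz hw.2.1 h2
    have r := concat ω (ok_of_lt hml (h.1.trans hz)) (ok_of_lt hlk (hw.2.1.trans h2))
    linarith [h.2.2, hw.2.2]

theorem bi_T (h : IsBi ω t) (hmk : m ≤ k) : T ω m k (t m) (t k) = wt ω m k t :=
  T_eq_of_greatest ⟨rfl, rfl, h.1.monotoneOn _⟩ (h.2 m k hmk)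

theorem bi_opt (h : IsBi ω t) (h1 : m ≤ l) (h2 : l ≤ k) : IsOpt ω m l k (t m) (t k) (t l) := by
  refine ⟨h.1 h1, h.1 h2, ?_⟩
  rw [bi_T h (h1.trans h2), bi_T h h1, bi_T h h2, split ω t h1 h2]

theorem bi_opt' (h : IsBi ω t) (h1 : m < l) (h2 : l ≤ k) (h3 : t m ≤ y) (h4 : y ≤ t (m + 1)) :
    IsOpt ω m l k y (t k) (t l) := by
  have h5 : m + 1 ≤ l := h1
  refine ⟨h4.trans (h.1 h5), h.1 h2, ?_⟩
  have a := left ω (h1.trans_le h2) h3 (h4.trans (h.1 (h5.trans h2)))
  have b := (bi_opt h h1.le h2).2.2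
  have c := (bi_opt h (lt_add_one m).le h5).2.2
  have d := concat ω (ok_of_lt (lt_add_one m) h4)
    (ok_of_adm (t := t) ⟨rfl, rfl, h.1.monotoneOn _⟩ h5)
  rw [single ω m (h3.trans h4)] at c
  rw [single ω m h4] at d
  linarith

theorem image_eq {α : Type*} {f g : α → ℝ} {A B : Set α} (Φ : α → α) (hΦ : Function.Surjective Φ)
    (hA : ∀ t, t ∈ A ↔ Φ t ∈ B) (hw : ∀ t, f t = g (Φ t)) : f '' A = g '' B := by
  ext r
  constructor
  · rintro ⟨t, ht, rfl⟩
    exact ⟨Φ t, (hA t).1 ht, (hw t).symm⟩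
  · rintro ⟨s, hs, rfl⟩
    obtain ⟨t, rfl⟩ := hΦ s
    exact ⟨t, (hA t).2 hs, hw t⟩

theorem wt_shiftE (ω : Env) (c : ℝ) (l m k : ℤ) (t : ℤ → ℝ) :
    wt (shiftE c l ω) m k t = wt ω (m + l) (k + l) fun j => c + t (j - l) := by
  unfold wt
  refine Finset.sum_nbij' (fun j => j + l) (fun j => j - l) ?_ ?_ ?_ ?_ ?_
  · intro j hj; simp only [Finset.mem_Ioc] at hj ⊢; omega
  · intro j hj; simp only [Finset.mem_Ioc] at hj ⊢; omega
  · intro j _; simp
  · intro j _; simp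
  · intro j _
    have e : j + l - 1 - l = j - 1 := by ring
    simp only [shiftE, shift_apply, add_sub_cancel_right, e]
    ring

theorem adm_shift (c : ℝ) (l : ℤ) :
    Adm m k x y t ↔ Adm (m + l) (k + l) (c + x) (c + y) fun j => c + t (j - l) := by
  simp only [Adm, add_sub_cancel_right, add_right_inj]
  refine and_congr_right fun _ => and_congr_right fun _ => ⟨fun h a ha b hb hab => ?_,
    fun h a ha b hb hab => ?_⟩
  · exact add_le_add le_rfl (h ⟨by linarith [ha.1], by linarith [ha.2]⟩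
      ⟨by linarith [hb.1], by linarith [hb.2]⟩ (by linarith))
  · have := @h (a + l) ⟨by linarith [ha.1], by linarith [ha.2]⟩ (b + l)
      ⟨by linarith [hb.1], by linarith [hb.2]⟩ (by linarith)
    simpa using this

theorem T_shiftE (ω : Env) (c : ℝ) (l m k : ℤ) (x y : ℝ) :
    T (shiftE c l ω) m k x y = T ω (m + l) (k + l) (c + x) (c + y) :=
  congrArg sSup (image_eq (fun t j => c + t (j - l))
    (fun s => ⟨fun j => s (j + l) - c, funext fun j => by simp⟩)
    (fun _ => adm_shift c l) (wt_shiftE ω c l m k))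

theorem wt_rotE (ω : Env) (m k : ℤ) (t : ℤ → ℝ) :
    wt (rotE ω) m k t = wt ω (-k) (-m) fun j => -t (-j) := by
  unfold wt
  refine Finset.sum_nbij' (fun j => 1 - j) (fun j => 1 - j) ?_ ?_ ?_ ?_ ?_
  · intro j hj; simp only [Finset.mem_Ioc] at hj ⊢; omega
  · intro j hj; simp only [Finset.mem_Ioc] at hj ⊢; omega
  · intro j _; simp
  · intro j _; simp
  · intro j _
    have e : -(1 - j) = j - 1 := by ring
    have e' : -(1 - j - 1) = j := by ring
    simp only [rotE, rot_apply, e, e']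
    ring

theorem adm_rot : Adm m k x y t ↔ Adm (-k) (-m) (-y) (-x) fun j => -t (-j) := by
  simp only [Adm, neg_neg, neg_inj]
  constructor
  · rintro ⟨a1, a2, h⟩
    refine ⟨a2, a1, fun a ha b hb hab => neg_le_neg ?_⟩
    exact h ⟨by linarith [hb.2], by linarith [hb.1]⟩ ⟨by linarith [ha.2], by linarith [ha.1]⟩
      (by linarith)
  · rintro ⟨a1, a2, h⟩
    refine ⟨a2, a1, fun a ha b hb hab => ?_⟩
    have := @h (-b) ⟨by linarith [hb.2], by linarith [hb.1]⟩ (-a)
      ⟨by linarith [ha.2], by linarith [ha.1]⟩ (by linarith)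
    simpa using this

theorem T_rotE (ω : Env) (m k : ℤ) (x y : ℝ) :
    T (rotE ω) m k x y = T ω (-k) (-m) (-y) (-x) :=
  congrArg sSup (image_eq (fun t j => -t (-j))
    (fun s => ⟨fun j => -s (-j), funext fun j => by simp⟩)
    (fun _ => adm_rot) (wt_rotE ω m k))

theorem T_scaleE (ω : Env) {θ : ℝ} (m k : ℤ) (x y : ℝ) (hθ : 0 < θ) :
    T ω m k (θ * x) (θ * y) = √θ * T (scaleE θ ω) m k x y := by
  have hs : 0 < √θ := Real.sqrt_pos.2 hθ
  have e : (fun t => √θ * wt (scaleE θ ω) m k t) '' {t | Adm m k x y t} =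
      wt ω m k '' {t | Adm m k (θ * x) (θ * y) t} := by
    refine image_eq (fun t j => θ * t j)
      (fun s => ⟨fun j => s j / θ, funext fun j => mul_div_cancel₀ _ hθ.ne'⟩) (fun t => ?_)
      fun t => ?_
    · simp only [mem_ofPred_eq, Adm, mul_right_inj' hθ.ne', MonotoneOn, mul_le_mul_iff_right₀ hθ]
    · unfold wt
      rw [Finset.mul_sum]
      refine Finset.sum_congr rfl fun j _ => ?_
      simp only [scaleE, scale_apply]
      field_simp
  unfold T
  rw [← e, ← smul_eq_mul, ← Real.sSup_smul_of_nonneg hs.le, ← image_smul, image_image]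
  rfl

theorem bi_shift (c : ℝ) (l : ℤ) (h : IsBi ω t) :
    IsBi (shiftE c l ω) fun j => t (j + l) - c := by
  refine ⟨fun a b hab => sub_le_sub_right (h.1 (by linarith)) c, fun m k hmk s hs => ?_⟩
  rw [wt_shiftE, wt_shiftE]
  have a := (adm_shift c l).1 hs
  simp only [add_sub_cancel, sub_add_cancel] at a ⊢
  exact h.2 _ _ (by linarith) _ a

theorem agree (h : Agree ω ω' m k x y) : T ω m k x y = T ω' m k x y := by
  refine congrArg sSup (image_congr fun t ht => Finset.sum_congr rfl fun j hj => ?_)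
  rw [Finset.mem_Ioc] at hj
  exact h j hj.1 hj.2 _ (mem_Icc_of_adm ht (by omega) (by omega)) _
    (mem_Icc_of_adm ht hj.1.le hj.2)

theorem measurable_sSup {α β : Type*} [MeasurableSpace α] [TopologicalSpace β]
    [TopologicalSpace.SeparableSpace β] [TopologicalSpace.PseudoMetrizableSpace β] (F : α → β → ℝ) (h1 : ∀ a, Continuous (F a))
    (h2 : ∀ b, Measurable fun a => F a b) (s : Set β) :
    Measurable fun a => sSup (F a '' s) := by
  obtain ⟨d, hds, hdc, hd⟩ :=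
    (TopologicalSpace.IsSeparable.of_separableSpace s).exists_countable_dense_subset
  have e : ∀ a, sSup (F a '' s) = ⨆ z : d, F a z := by
    intro a
    rw [iSup, ← image_eq_range]
    have hub : upperBounds (F a '' s) = upperBounds (F a '' d) := by
      refine Subset.antisymm (upperBounds_mono_set (image_mono hds)) fun c hc => ?_
      rintro _ ⟨z, hz, rfl⟩
      have hcl : closure d ⊆ {z | F a z ≤ c} :=
        closure_minimal (fun w hw => hc ⟨w, hw, rfl⟩) (isClosed_le (h1 a) continuous_const)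
      exact hcl (hd hz)
    by_cases hb : BddAbove (F a '' s)
    · rcases s.eq_empty_or_nonempty with rfl | hne
      · rw [subset_empty_iff.1 hds]
      · have hdne : d.Nonempty := by
          obtain ⟨z, hz⟩ := hne
          exact closure_nonempty_iff.1 ⟨z, hd hz⟩
        have h3 := isLUB_csSup (hne.image (F a)) hb
        have h4 : IsLUB (F a '' d) (sSup (F a '' s)) := by
          unfold IsLUB at h3 ⊢; rwa [← hub]
        exact (h4.csSup_eq (hdne.image (F a))).symm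
    · rw [Real.sSup_of_not_bddAbove hb, Real.sSup_of_not_bddAbove]
      unfold BddAbove at hb ⊢; rwa [← hub]
  simp_rw [e]
  have := hdc.to_subtype
  exact Measurable.iSup fun z => h2 _

theorem meas (m k : ℤ) (x y : ℝ) : Measurable fun ω => T ω m k x y := by
  refine measurable_sSup (fun ω => wt ω m k) (fun ω => continuous_wt ω m k) (fun t => ?_) _
  exact Finset.measurable_sum _ fun j _ =>
    (Measurable.ev (measurable_pi_apply j) _).sub (Measurable.ev (measurable_pi_apply j) _)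

end Det1A

theorem det1 : Det1 where
  le_T ω _ _ _ _ _ h ht := Det1A.le_T ω h ht
  exists_max ω _ _ _ _ h := Det1A.exists_max ω h
  split ω _ _ _ t h1 h2 := Det1A.split ω t h1 h2
  concat ω _ _ _ _ _ _ h1 h2 := Det1A.concat ω h1 h2
  self := Det1A.self
  single ω m _ _ h := Det1A.single ω m h
  quad ω _ _ _ _ _ _ h h1 h2 h3 := Det1A.quad ω h h1 h2 h3
  vquad ω _ _ _ _ _ _ h h' h1 h2 := Det1A.vquad ω h h' h1 h2
  right ω _ _ _ _ _ h h1 h2 := Det1A.right ω h h1 h2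
  left ω _ _ _ _ _ h h1 h2 := Det1A.left ω h h1 h2
  crude ω _ _ _ _ _ _ h hK := Det1A.crude ω h hK
  exists_opt ω _ _ _ _ _ h1 h2 h := Det1A.exists_opt ω h1 h2 h
  ord_up _ _ _ _ _ _ _ _ _ h1 h2 h a b c := Det1A.ord_up h1 h2 h a b c
  ord_down _ _ _ _ _ _ _ _ _ h1 h2 h a b c := Det1A.ord_down h1 h2 h a b c
  bi_T _ _ _ _ h h1 := Det1A.bi_T h h1
  bi_opt _ _ _ _ _ h h1 h2 := Det1A.bi_opt h h1 h2
  bi_opt' _ _ _ _ _ _ h h1 h2 h3 h4 := Det1A.bi_opt' h h1 h2 h3 h4
  shiftE := Det1A.T_shiftE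
  rotE := Det1A.T_rotE
  scaleE ω _ m k x y h := Det1A.T_scaleE ω m k x y h
  bi_shift _ c l _ h := Det1A.bi_shift c l h
  agree _ _ _ _ _ _ h := Det1A.agree h
  meas := Det1A.meas

end Pool.Agent.MP_3d8edd_pr.H69
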