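import Pool.Agent.MP_3d8edd_pr.H69.Basic

/-!
Dyadic discretisation of passage times.
-/

open MeasureTheory ProbabilityTheory Set Filter
open scoped NNReal ENNReal Topology

namespace Pool.Agent.MP_3d8edd_pr.H69

namespace DiscA

/-- Paths with jumps on the dyadic grid. -/
def Grid (m k i0 i1 : ℤ) (n : ℕ) : Set (ℤ → ℝ) :=
  {t | Adm m k i0 i1 t ∧ ∀ j ∈ Icc m k, ∃ z : ℤ, t j = z / 2 ^ n}

theorem round_mem {m k i0 i1 : ℤ} {t : ℤ → ℝ} (ht : Adm m k i0 i1 t) (n : ℕ) :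
    (fun j => (⌊2 ^ n * t j⌋ : ℝ) / 2 ^ n) ∈ Grid m k i0 i1 n := by
  have h2 : (0 : ℝ) < 2 ^ n := by positivity
  have hint : ∀ i : ℤ, (⌊(2 : ℝ) ^ n * (i : ℝ)⌋ : ℝ) / 2 ^ n = i := by
    intro i
    have : (2 : ℝ) ^ n * (i : ℝ) = ((2 ^ n * i : ℤ) : ℝ) := by push_cast; ring
    rw [this, Int.floor_intCast]
    push_cast
    field_simp
  refine ⟨⟨?_, ?_, ?_⟩, fun j _ => ⟨_, rfl⟩⟩
  · simp only [ht.1]; exact hint i0
  · simp only [ht.2.1]; exact hint i1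
  · intro a ha b hb hab
    refine div_le_div_of_nonneg_right ?_ h2.le
    exact_mod_cast Int.floor_mono (mul_le_mul_of_nonneg_left (ht.2.2 ha hb hab) h2.le)

theorem round_tendsto (x : ℝ) :
    Tendsto (fun n : ℕ => (⌊2 ^ n * x⌋ : ℝ) / 2 ^ n) atTop (𝓝 x) := by
  have h1 : Tendsto (fun n : ℕ => x - (1 / 2 : ℝ) ^ n) atTop (𝓝 (x - 0)) :=
    tendsto_const_nhds.sub (tendsto_pow_atTop_nhds_zero_of_lt_one (by norm_num) (by norm_num))
  rw [sub_zero] at h1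
  refine tendsto_of_tendsto_of_tendsto_of_le_of_le h1 tendsto_const_nhds (fun n => ?_) fun n => ?_
  · have h2 : (0 : ℝ) < 2 ^ n := by positivity
    have h3 := Int.sub_one_lt_floor ((2 : ℝ) ^ n * x)
    simp only
    rw [le_div_iff₀ h2, one_div, inv_pow, sub_mul, inv_mul_cancel₀ h2.ne']
    linarith
  · have h2 : (0 : ℝ) < 2 ^ n := by positivity
    have h3 := Int.floor_le ((2 : ℝ) ^ n * x)
    simp only
    rw [div_le_iff₀ h2]
    linarith

theorem grid_nonempty (d1 : Det1) {m k i0 i1 : ℤ} (hmk : m < k) (hi : i0 ≤ i1) (n : ℕ) :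
    (Grid m k i0 i1 n).Nonempty := by
  obtain ⟨t, ht, -⟩ := d1.exists_max (fun _ => 0) m k i0 i1
    ⟨hmk.le, by exact_mod_cast hi, fun h => absurd h hmk.ne⟩
  exact ⟨_, round_mem ht n⟩

theorem tends (d1 : Det1) (ω : Env) (m k i0 i1 : ℤ) (hmk : m < k) (hi : i0 ≤ i1) :
    Tendsto (Tn ω m k i0 i1) atTop (𝓝 (T ω m k i0 i1)) := by
  obtain ⟨t, ht, hT⟩ := d1.exists_max ω m k i0 i1
    ⟨hmk.le, by exact_mod_cast hi, fun h => absurd h hmk.ne⟩
  have hub : ∀ n, T ω m k i0 i1 ∈ upperBounds (wt ω m k '' Grid m k i0 i1 n) := by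
    rintro n _ ⟨s, hs, rfl⟩
    exact d1.le_T ω m k _ _ s hmk.le hs.1
  have h1 : Tendsto (fun n : ℕ => wt ω m k fun j => (⌊2 ^ n * t j⌋ : ℝ) / 2 ^ n) atTop
      (𝓝 (T ω m k i0 i1)) := by
    rw [← hT]
    unfold wt
    refine tendsto_finsetSum _ fun j _ => ?_
    exact (((ω j).continuous.tendsto _).comp (round_tendsto (t j))).sub
      (((ω j).continuous.tendsto _).comp (round_tendsto (t (j - 1))))
  refine tendsto_of_tendsto_of_tendsto_of_le_of_le h1 tendsto_const_nhds (fun n => ?_) fun n => ?_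
  · exact le_csSup ⟨_, hub n⟩ ⟨_, round_mem ht n, rfl⟩
  · exact csSup_le ((grid_nonempty d1 hmk hi n).image _) (hub n)

theorem adm_mem {m k : ℤ} {x y : ℝ} {t : ℤ → ℝ} (ht : Adm m k x y t) {j : ℤ} (h1 : m ≤ j)
    (h2 : j ≤ k) : t j ∈ Icc x y := by
  have hm : m ∈ Icc m k := ⟨le_rfl, h1.trans h2⟩
  have hk : k ∈ Icc m k := ⟨h1.trans h2, le_rfl⟩
  exact ⟨ht.1 ▸ ht.2.2 hm ⟨h1, h2⟩ h1, ht.2.1 ▸ ht.2.2 ⟨h1, h2⟩ hk h2⟩

theorem agree (ω ω' : Env) (m k i0 i1 : ℤ) (n : ℕ) (h : Agree ω ω' m k i0 i1) :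
    Tn ω m k i0 i1 n = Tn ω' m k i0 i1 n := by
  unfold Tn
  congr 1
  refine image_congr fun t ht => ?_
  unfold wt
  refine Finset.sum_congr rfl fun j hj => ?_
  rw [Finset.mem_Ioc] at hj
  exact h j hj.1 hj.2 _ (adm_mem ht.1 (by omega) (by omega)) _ (adm_mem ht.1 hj.1.le hj.2)

/-- The grid points. -/
noncomputable def gx (i0 : ℤ) (n z : ℕ) : ℝ := i0 + z / 2 ^ n

theorem gx_strictMono (i0 : ℤ) (n : ℕ) : StrictMono (gx i0 n) := by
  intro a b hab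
  unfold gx
  have h2 : (0 : ℝ) < 2 ^ n := by positivity
  have : (a : ℝ) / 2 ^ n < b / 2 ^ n := div_lt_div_of_pos_right (by exact_mod_cast hab) h2
  linarith

theorem gx_succ (i0 : ℤ) (n z : ℕ) : gx i0 n (z + 1) - gx i0 n z = (2 ^ n)⁻¹ := by
  unfold gx
  push_cast
  ring

/-- The number of grid intervals. -/
def gL (i0 i1 : ℤ) (n : ℕ) : ℕ := (2 ^ n * (i1 - i0)).toNat

/-- The edges. -/
abbrev Ed (m k i0 i1 : ℤ) (n : ℕ) : Type := ↥(Finset.Ioc m k) × Fin (gL i0 i1 n)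

theorem grid_pt {m k i0 i1 : ℤ} {n : ℕ} {t : ℤ → ℝ} (ht : t ∈ Grid m k i0 i1 n) {j : ℤ}
    (h1 : m ≤ j) (h2 : j ≤ k) : ∃ a : ℕ, a ≤ gL i0 i1 n ∧ t j = gx i0 n a := by
  obtain ⟨z, hz⟩ := ht.2 j ⟨h1, h2⟩
  obtain ⟨h3, h4⟩ := adm_mem ht.1 h1 h2
  have hp : (0 : ℝ) < 2 ^ n := by positivity
  rw [hz, le_div_iff₀ hp] at h3
  rw [hz, div_le_iff₀ hp] at h4
  have h5 : i0 * 2 ^ n ≤ z := by exact_mod_cast h3
  have h6 : z ≤ i1 * 2 ^ n := by exact_mod_cast h4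
  refine ⟨(z - i0 * 2 ^ n).toNat, Int.toNat_le_toNat (by linarith), ?_⟩
  have h7 : (((z - i0 * 2 ^ n).toNat : ℤ) : ℝ) = ((z - i0 * 2 ^ n : ℤ) : ℝ) := by
    rw [Int.toNat_of_nonneg (by linarith)]
  rw [Int.cast_natCast] at h7
  unfold gx
  rw [hz, h7]
  push_cast
  field_simp
  ring

open Classical in
/-- The edges used by a path. -/
noncomputable def edges (m k i0 i1 : ℤ) (n : ℕ) (t : ℤ → ℝ) : Finset (Ed m k i0 i1 n) :=
  Finset.univ.filter fun a => t (a.1 - 1) ≤ gx i0 n a.2 ∧ gx i0 n a.2 < t a.1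

theorem sum_edges {m k i0 i1 : ℤ} {n : ℕ} {t : ℤ → ℝ} (ht : t ∈ Grid m k i0 i1 n)
    (W : ℤ → ℝ → ℝ) :
    ∑ a ∈ edges m k i0 i1 n t, (W a.1 (gx i0 n (a.2 + 1)) - W a.1 (gx i0 n a.2)) =
      ∑ j ∈ Finset.Ioc m k, (W j (t j) - W j (t (j - 1))) := by
  classical
  unfold edges
  rw [Finset.sum_filter, Fintype.sum_prod_type, ← Finset.sum_coe_sort (Finset.Ioc m k)]
  refine Finset.sum_congr rfl fun j _ => ?_
  have hj := Finset.mem_Ioc.1 j.2
  obtain ⟨a, ha, hta⟩ := grid_pt ht (j := j - 1) (by omega) (by omega)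
  obtain ⟨b, hb, htb⟩ := grid_pt ht (j := j) hj.1.le hj.2
  have hs := gx_strictMono i0 n
  have hab : a ≤ b := by
    rw [← hs.le_iff_le, ← hta, ← htb]
    exact ht.1.2.2 ⟨by omega, by omega⟩ ⟨hj.1.le, hj.2⟩ (by omega)
  simp only [hta, htb, hs.le_iff_le, hs.lt_iff_lt]
  rw [Fin.sum_univ_eq_sum_range (fun z => if a ≤ z ∧ z < b then
    W j (gx i0 n (z + 1)) - W j (gx i0 n z) else 0), ← Finset.sum_filter,
    ← Finset.sum_Ico_sub (fun z => W j (gx i0 n z)) hab]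
  refine Finset.sum_congr ?_ fun _ _ => rfl
  ext z
  simp only [Finset.mem_filter, Finset.mem_range, Finset.mem_Ico]
  omega

theorem sum_tel (t : ℤ → ℝ) {m k : ℤ} (h : m ≤ k) :
    ∑ j ∈ Finset.Ioc m k, (t j - t (j - 1)) = t k - t m := by
  induction k, h using Int.le_induction with
  | base => simp
  | succ k hk ih =>
    have : Finset.Ioc m (k + 1) = insert (k + 1) (Finset.Ioc m k) := by
      ext j
      simp only [Finset.mem_insert, Finset.mem_Ioc]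
      omega
    rw [this, Finset.sum_insert (by simp), ih, add_sub_cancel_right]
    ring

theorem card_edges {m k i0 i1 : ℤ} {n : ℕ} {t : ℤ → ℝ} (ht : t ∈ Grid m k i0 i1 n)
    (hmk : m ≤ k) : ((edges m k i0 i1 n t).card : ℝ) / 2 ^ n = i1 - i0 := by
  have h := sum_edges ht fun _ x => x
  simp only [gx_succ, Finset.sum_const, nsmul_eq_mul] at h
  rw [sum_tel t hmk, ht.1.1, ht.1.2.1] at h
  rw [div_eq_mul_inv, h]

/-- The increments along the edges. -/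
noncomputable def inc (m k i0 i1 : ℤ) (n : ℕ) (ω : Env) (a : Ed m k i0 i1 n) : ℝ :=
  ω a.1 (gx i0 n (a.2 + 1)) - ω a.1 (gx i0 n a.2)

theorem measurable_inc (m k i0 i1 : ℤ) (n : ℕ) : Measurable (inc m k i0 i1 n) := by
  refine measurable_pi_lambda _ fun a => ?_
  unfold inc
  exact (Measurable.ev (measurable_pi_apply _) _).sub (Measurable.ev (measurable_pi_apply _) _)

theorem inc_law (b2 : Bm2) {μ : Measure CP} (hμ : IsBM μ 0) (m k i0 i1 : ℤ) (n : ℕ) :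
    (PP μ).map (inc m k i0 i1 n) =
      Measure.pi fun _ : Ed m k i0 i1 n => gaussianReal 0 (2 ^ n : ℝ≥0)⁻¹ := by
  classical
  have := hμ.prob
  symm
  refine Measure.pi_eq fun s hs => ?_
  set F : CP → Fin (gL i0 i1 n) → ℝ := fun f i =>
    f (gx i0 n (i.succ : Fin (gL i0 i1 n + 1))) - f (gx i0 n (i.castSucc : Fin (gL i0 i1 n + 1)))
    with hF
  have hFm : Measurable F :=
    measurable_pi_lambda _ fun i => (measurable_ev _).sub (measurable_ev _)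
  have hlaw : μ.map F = Measure.pi fun _ => gaussianReal 0 (2 ^ n : ℝ≥0)⁻¹ := by
    rw [hF, b2.incr μ 0 (gL i0 i1 n) (fun i => gx i0 n i) hμ
      (fun a b hab => (gx_strictMono i0 n).monotone hab)]
    congr 1
    funext i
    rw [zero_mul, Fin.val_succ, Fin.val_castSucc, gx_succ]
    congr 1
    apply NNReal.eq
    rw [Real.coe_toNNReal _ (by positivity)]
    simp
  set A : ℤ → Set CP := fun j =>
    if h : j ∈ Finset.Ioc m k then F ⁻¹' univ.pi fun z => s (⟨j, h⟩, z) else univ with hA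
  have hpre : inc m k i0 i1 n ⁻¹' univ.pi s = Set.pi (Finset.Ioc m k : Finset ℤ) A := by
    ext ω
    simp only [mem_preimage, Set.mem_pi, mem_univ, forall_true_left, Finset.mem_coe, hA]
    constructor
    · intro h j hj
      rw [dif_pos hj]
      intro z _
      exact h (⟨j, hj⟩, z)
    · rintro h ⟨j, z⟩
      have h1 := h j j.2
      rw [dif_pos j.2] at h1
      exact h1 z (mem_univ _)
  have hAm : ∀ j ∈ Finset.Ioc m k, MeasurableSet (A j) := by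
    intro j hj
    simp only [hA, dif_pos hj]
    exact hFm (MeasurableSet.univ_pi fun z => hs _)
  rw [Measure.map_apply (measurable_inc m k i0 i1 n) (MeasurableSet.univ_pi hs), hpre]
  unfold PP
  rw [Measure.infinitePi_pi _ hAm, Fintype.prod_prod_type,
    ← Finset.prod_coe_sort (Finset.Ioc m k)]
  refine Finset.prod_congr rfl fun j _ => ?_
  simp only [hA, dif_pos j.2]
  rw [← Measure.map_apply hFm (MeasurableSet.univ_pi fun z => hs _), hlaw, Measure.pi_pi]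

/-- The cell of an edge. -/
def cell (m k i0 i1 : ℤ) (n : ℕ) (a : Ed m k i0 i1 n) : ℤ × ℤ :=
  (i0 + ((a.2 : ℕ) / 2 ^ n : ℕ), a.1)

theorem inc_envOf (ct : Cat) (m k i0 i1 : ℤ) (n : ℕ) (ξ : Cfg) (a : Ed m k i0 i1 n) :
    inc m k i0 i1 n (envOf ξ) a =
      ξ (cell m k i0 i1 n a) ((((a.2 : ℕ) % 2 ^ n : ℕ) + 1) / 2 ^ n) -
        ξ (cell m k i0 i1 n a) (((a.2 : ℕ) % 2 ^ n : ℕ) / 2 ^ n) := by
  have hp : (0 : ℝ) < 2 ^ n := by positivity
  set z : ℕ := a.2.val with hz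
  have h1 : z % 2 ^ n + 1 ≤ 2 ^ n := Nat.mod_lt _ (by positivity)
  have h2 : ((z % 2 ^ n : ℕ) : ℝ) + 1 ≤ 2 ^ n := by exact_mod_cast h1
  have h3 : ((z % 2 ^ n : ℕ) : ℝ) + 2 ^ n * ((z / 2 ^ n : ℕ) : ℝ) = z := by
    exact_mod_cast Nat.mod_add_div z (2 ^ n)
  have h4 : (0 : ℝ) ≤ ((z % 2 ^ n : ℕ) : ℝ) := by positivity
  have e1 := ct.incr (fun i => ξ (i, a.1)) (i0 + (z / 2 ^ n : ℕ)) ((((z % 2 ^ n : ℕ) : ℝ) + 1) / 2 ^ n)
    (by positivity) (by rw [div_le_one hp]; exact h2)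
  have e2 := ct.incr (fun i => ξ (i, a.1)) (i0 + (z / 2 ^ n : ℕ)) (((z % 2 ^ n : ℕ) : ℝ) / 2 ^ n)
    (by positivity) (by rw [div_le_one hp]; linarith)
  have g1 : gx i0 n (z + 1) =
      ((i0 + (z / 2 ^ n : ℕ) : ℤ) : ℝ) + (((z % 2 ^ n : ℕ) : ℝ) + 1) / 2 ^ n := by
    unfold gx
    rw [Int.cast_add, Int.cast_natCast, Nat.cast_add, ← h3]
    field_simp
    ring
  have g2 : gx i0 n z = ((i0 + (z / 2 ^ n : ℕ) : ℤ) : ℝ) + ((z % 2 ^ n : ℕ) : ℝ) / 2 ^ n := by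
    unfold gx
    rw [Int.cast_add, Int.cast_natCast]
    nth_rewrite 1 [← h3]
    field_simp
    ring
  unfold inc envOf cell
  rw [← hz, g1, g2]
  linarith

theorem card_cell (m k i0 i1 : ℤ) (n : ℕ) (γ : Finset (Ed m k i0 i1 n)) (c : ℤ × ℤ) :
    (γ.filter fun a => cell m k i0 i1 n a = c).card ≤ 2 ^ n := by
  rw [← Finset.card_range (2 ^ n)]
  refine Finset.card_le_card_of_injOn (fun a => (a.2 : ℕ) % 2 ^ n) ?_ ?_
  · intro a _
    exact Finset.mem_coe.2 (Finset.mem_range.2 (Nat.mod_lt _ (by positivity)))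
  · intro a ha b hb hab
    have h1 := ((Finset.mem_filter.1 ha).2).trans ((Finset.mem_filter.1 hb).2).symm
    unfold cell at h1
    rw [Prod.mk.injEq, add_right_inj, Nat.cast_inj] at h1
    refine Prod.ext (Subtype.ext h1.2) (Fin.ext ?_)
    rw [← Nat.mod_add_div (a.2 : ℕ) (2 ^ n), ← Nat.mod_add_div (b.2 : ℕ) (2 ^ n), h1.1]
    simp only at hab
    rw [hab]

end DiscA

open DiscA in
theorem disc (d1 : Det1) (_b1 : Bm1) (b2 : Bm2) (ct : Cat) (mp : MpStmt) : Disc := by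
  classical
  refine ⟨tends d1, agree, fun π m k i0 i1 n hπ hmk hi => ?_⟩
  have := hπ.prob
  set Fam : Finset (Finset (Ed m k i0 i1 n)) :=
    Finset.univ.filter fun γ => ∃ t ∈ Grid m k i0 i1 n, edges m k i0 i1 n t = γ with hFam
  have hne : Fam.Nonempty := by
    obtain ⟨t, ht⟩ := grid_nonempty d1 hmk hi n
    exact ⟨_, Finset.mem_filter.2 ⟨Finset.mem_univ _, t, ht, rfl⟩⟩
  have hTn : ∀ ω, Tn ω m k i0 i1 n = Fam.sup' hne fun γ => ∑ a ∈ γ, inc m k i0 i1 n ω a := by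
    intro ω
    rw [Finset.sup'_eq_csSup_image]
    unfold Tn
    congr 1
    ext v
    constructor
    · rintro ⟨t, ht, rfl⟩
      exact ⟨_, Finset.mem_coe.2 (Finset.mem_filter.2 ⟨Finset.mem_univ _, t, ht, rfl⟩),
        sum_edges ht fun j x => ω j x⟩
    · rintro ⟨γ, hγ, rfl⟩
      obtain ⟨t, ht, rfl⟩ := (Finset.mem_filter.1 (Finset.mem_coe.1 hγ)).2
      exact ⟨t, ht, (sum_edges ht fun j x => ω j x).symm⟩
  obtain ⟨p, hp1, hp⟩ := mp (Ed m k i0 i1 n) (2 ^ n : ℝ≥0)⁻¹ Fam hne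
  obtain ⟨μ, hμ, hlaw⟩ := ct.law π hπ
  have h2 : (0 : ℝ) < 2 ^ n := by positivity
  refine ⟨_, Fam, p, fun γ c => ((γ.filter fun a => cell m k i0 i1 n a = c).card : ℝ) / 2 ^ n,
    hp1, fun γ _ c => ⟨by positivity, ?_⟩, fun γ hγ => ?_, fun R β ℓ _ hβ => ?_⟩
  · rw [div_le_one h2]
    exact_mod_cast card_cell m k i0 i1 n γ c
  · obtain ⟨t, ht, rfl⟩ := (Finset.mem_filter.1 hγ).2
    rw [← Finset.sum_div, ← card_edges ht hmk.le, ← Nat.cast_sum,
      Finset.sum_card_fiberwise_eq_card_filter]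
    refine div_le_div_of_nonneg_right ?_ h2.le
    exact_mod_cast Finset.card_filter_le _ _
  · have hm : Measurable fun ξ : Cfg => inc m k i0 i1 n (envOf ξ) :=
      (measurable_inc m k i0 i1 n).comp ct.meas
    have hmp : MeasurePreserving (fun ξ : Cfg => inc m k i0 i1 n (envOf ξ)) (QQ π)
        (Measure.pi fun _ : Ed m k i0 i1 n => gaussianReal 0 (2 ^ n : ℝ≥0)⁻¹) := by
      refine ⟨hm, ?_⟩
      rw [← inc_law b2 hμ, ← hlaw, Measure.map_map (measurable_inc m k i0 i1 n) ct.meas]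
      rfl
    have h3 := hp (Finset.univ.filter fun a => cell m k i0 i1 n a ∈ R) β ℓ hβ
    refine le_trans (le_trans (le_of_eq ?_) (preimage_le (hmp.prod hmp) _)) (h3.trans (le_of_eq ?_))
    · congr 1
      ext q
      simp only [mem_ofPred_eq, mem_preimage, hTn, Prod.map_fst, Prod.map_snd, Finset.mem_filter,
        Finset.mem_univ, true_and]
      have h4 : ∀ a, inc m k i0 i1 n (envOf fun c => if c ∈ R then q.2 c else q.1 c) a =
          if cell m k i0 i1 n a ∈ R then inc m k i0 i1 n (envOf q.2) a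
          else inc m k i0 i1 n (envOf q.1) a := by
        intro a
        simp only [inc_envOf ct]
        split_ifs <;> rfl
      simp only [h4]
    · congr 1
      refine Finset.sum_congr rfl fun γ _ => ?_
      congr 4
      rw [← Finset.sum_div, ← Nat.cast_sum, Finset.sum_card_fiberwise_eq_card_filter,
        Finset.inter_filter, Finset.inter_univ, div_eq_inv_mul]
      simp

end Pool.Agent.MP_3d8edd_pr.H69
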