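import Pool.Agent.MP_3d8edd_pr.H69.Defs

/-!
Working definitions and the statements of the steps.
-/

open MeasureTheory ProbabilityTheory Set Filter
open scoped NNReal ENNReal Topology

namespace Pool.Agent.MP_3d8edd_pr.H69

/-! ### Paths -/

/-- Continuous functions on the line. -/
abbrev CP : Type := C(ℝ, ℝ)

/-- The sigma algebra generated by the evaluations. -/
instance pathMS : MeasurableSpace CP :=
  MeasurableSpace.comap (fun (f : CP) (x : ℝ) => f x) inferInstance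

/-- One function for each horizontal line. -/
abbrev Env : Type := ℤ → CP

/-- The covariance of two-sided Brownian motion. -/
def kk (x y : ℝ) : ℝ := min x y - min x 0 - min y 0

/-- `μ` is the law of a two-sided Brownian motion with drift `a`. -/
structure IsBM (μ : Measure CP) (a : ℝ) : Prop where
  gauss : IsGaussianProcess (fun (x : ℝ) (f : CP) => f x) μ
  mean : ∀ x, ∫ f, f x ∂μ = a * x
  cov : ∀ x y, cov[fun f : CP => f x, fun f : CP => f y; μ] = kk x y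

/-- `π` is the law of a Brownian motion on `[0, ∞)`, extended by `0` to the left. -/
structure IsPiece (π : Measure CP) : Prop where
  gauss : IsGaussianProcess (fun (x : ℝ) (f : CP) => f x) π
  mean : ∀ x, ∫ f, f x ∂π = 0
  cov : ∀ x y, cov[fun f : CP => f x, fun f : CP => f y; π] = min (max x 0) (max y 0)

/-- The law of the static environment. -/
noncomputable def PP (μ : Measure CP) : Measure Env := Measure.infinitePi fun _ : ℤ => μ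

/-- The constant path. -/
def cst (c : ℝ) : CP := ContinuousMap.const ℝ c

/-- `x ↦ a x`. -/
def lin (a : ℝ) : CP := ⟨fun x => a * x, by fun_prop⟩

/-- `z ↦ z` cut off to `[0, y]`. -/
def clamp (y : ℝ) : CP := ⟨fun z => max 0 (min z y), by fun_prop⟩

/-- The increments seen from `c`. -/
def shift (c : ℝ) (f : CP) : CP := ⟨fun x => f (c + x) - f c, by fun_prop⟩

/-- Rotation of the graph by `π`. -/
def rot (f : CP) : CP := ⟨fun x => -f (-x), by fun_prop⟩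

/-- Brownian scaling. -/
noncomputable def scale (θ : ℝ) (f : CP) : CP := ⟨fun x => f (θ * x) / √θ, by fun_prop⟩

/-- The path stopped at `c`. -/
def stop (c : ℝ) (f : CP) : CP := ⟨fun x => f (min x c), by fun_prop⟩

/-- The left half. -/
def past (f : CP) : CP := ⟨fun x => f (min x 0), by fun_prop⟩

/-- The right half. -/
def fut (f : CP) : CP := ⟨fun x => f (max x 0), by fun_prop⟩

/-- The maximum on `[0, t]`. -/
noncomputable def smax (f : CP) (t : ℝ) : ℝ := sSup (f '' Icc 0 t)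

theorem continuous_runMax (g : CP) (h : BddAbove (g '' Iic 0)) :
    Continuous fun x => sSup (g '' Iic x) := by
  have hb : ∀ x, BddAbove (g '' Iic x) := fun x => by
    have : g '' Iic x ⊆ g '' Iic 0 ∪ g '' Icc 0 x := by
      rintro _ ⟨z, hz, rfl⟩
      rcases le_total z 0 with h0 | h0
      · exact Or.inl ⟨z, h0, rfl⟩
      · exact Or.inr ⟨z, ⟨h0, hz⟩, rfl⟩
    exact (h.union ((isCompact_Icc.image g.continuous).bddAbove)).mono this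
  have hne : ∀ x, (g '' Iic x).Nonempty := fun x => ⟨_, x, le_refl x, rfl⟩
  refine continuous_iff_continuousAt.2 fun x => Metric.continuousAt_iff.2 fun ε hε => ?_
  obtain ⟨δ, hδ, hd⟩ := Metric.continuousAt_iff.1 (g.continuous.continuousAt (x := x)) (ε / 3)
    (by positivity)
  have key : ∀ u v, dist u x < δ → dist v x < δ → u ≤ v →
      sSup (g '' Iic u) ≤ sSup (g '' Iic v) ∧ sSup (g '' Iic v) ≤ sSup (g '' Iic u) + 2 * (ε / 3) := by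
    intro u v hu hv huv
    refine ⟨csSup_le_csSup (hb v) (hne u) (image_mono (Iic_subset_Iic.2 huv)), ?_⟩
    refine csSup_le (hne v) ?_
    rintro _ ⟨z, hz, rfl⟩
    rcases le_total z u with h1 | h1
    · have := le_csSup (hb u) ⟨z, h1, rfl⟩
      linarith
    · have hz' : dist z x < δ := by
        rw [Real.dist_eq, abs_lt] at hu hv ⊢
        have : z ≤ v := hz
        constructor <;> linarith [hu.1, hv.2]
      have a1 := hd hz'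
      have a2 := hd hu
      rw [Real.dist_eq, abs_lt] at a1 a2
      have := le_csSup (hb u) ⟨u, le_refl u, rfl⟩
      linarith [a1.2, a2.1]
  refine ⟨δ, hδ, fun y hy => ?_⟩
  have hx : dist x x < δ := by simpa using hδ
  rw [Real.dist_eq, abs_lt]
  rcases le_total y x with h1 | h1
  · have := key y x hy hx h1
    constructor <;> linarith [this.1, this.2]
  · have := key x y hx hy h1
    constructor <;> linarith [this.1, this.2]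

open Classical in
/-- The running maximum from `-∞` (zero if it is infinite). -/
noncomputable def rmax (g : CP) : CP :=
  if h : BddAbove (g '' Iic 0) then ⟨fun x => sSup (g '' Iic x), continuous_runMax g h⟩ else 0

/-- The two-sided Pitman transform. -/
noncomputable def pit (g : CP) : CP := (2 : ℝ) • (rmax g - cst (rmax g 0)) - g

/-- `f - w` is bounded above on the left half line. -/
def Bdd (f w : CP) : Prop := BddAbove ((f - w : CP) '' Iic 0)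

/-- One step of last passage percolation: `x ↦ sup_{z ≤ x} (f z + w x - w z)`. -/
noncomputable def qG (f w : CP) : CP := rmax (f - w) + w

/-- The vertical increment at `0`. -/
noncomputable def qJ (f w : CP) : ℝ := rmax (f - w) 0

/-- The output line. -/
noncomputable def qD (f w : CP) : CP := qG f w - cst (qJ f w)

/-- The dual output line. -/
noncomputable def qR (f w : CP) : CP := f + w - qD f w

/-- Passage times to the line `m + n` from the boundary profile `h` on the line `m`. -/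
noncomputable def GG (h : CP) (ω : Env) (m : ℤ) : ℕ → CP
  | 0 => h
  | n + 1 => qG (GG h ω m n) (ω (m + n + 1))

/-- All suprema in `GG h ω m n` are finite. -/
def AllBdd (h : CP) (ω : Env) (m : ℤ) (n : ℕ) : Prop :=
  ∀ i < n, Bdd (GG h ω m i) (ω (m + i + 1))

/-- The boundary with drift `a` on the left of `0` and drift `b` on `[0, y]`. -/
noncomputable def hab (a b y : ℝ) (f : CP) : CP := f + lin a + (b - a) • clamp y

/-! ### Point to point passage times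

`t j` is the position of the jump from the line `j` to the line `j + 1`. -/

/-- Admissible jump positions for a path from `(x, m + 1)` to `(y, k)`. -/
def Adm (m k : ℤ) (x y : ℝ) (t : ℤ → ℝ) : Prop := t m = x ∧ t k = y ∧ MonotoneOn t (Icc m k)

/-- The weight collected on the lines `m + 1, …, k`. -/
noncomputable def wt (ω : Env) (m k : ℤ) (t : ℤ → ℝ) : ℝ :=
  ∑ j ∈ Finset.Ioc m k, (ω j (t j) - ω j (t (j - 1)))

/-- The passage time from `(x, m + 1)` to `(y, k)`. -/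
noncomputable def T (ω : Env) (m k : ℤ) (x y : ℝ) : ℝ := sSup (wt ω m k '' {t | Adm m k x y t})

/-- There is a path. -/
def Ok (m k : ℤ) (x y : ℝ) : Prop := m ≤ k ∧ x ≤ y ∧ (m = k → x = y)

/-- `z` is an optimal position for the jump from the line `l` to the line `l + 1`. -/
def IsOpt (ω : Env) (m l k : ℤ) (x y z : ℝ) : Prop :=
  x ≤ z ∧ z ≤ y ∧ T ω m k x y ≤ T ω m l x z + T ω l k z y

/-- A bigeodesic all of whose jump positions are finite. -/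
def IsBi (ω : Env) (x : ℤ → ℝ) : Prop :=
  Monotone x ∧ ∀ m k, m ≤ k → ∀ t, Adm m k (x m) (x k) t → wt ω m k t ≤ wt ω m k x

/-- Translation of the environment: the point `(c, l)` becomes the origin. -/
def shiftE (c : ℝ) (l : ℤ) (ω : Env) : Env := fun j => shift c (ω (j + l))

/-- Rotation of the environment by `π`. -/
def rotE (ω : Env) : Env := fun j => rot (ω (1 - j))

/-- Brownian scaling of the environment. -/
noncomputable def scaleE (θ : ℝ) (ω : Env) : Env := fun j => scale θ (ω j)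

/-- The two environments have the same increments on `[x, y]` on the lines `m + 1, …, k`. -/
def Agree (ω ω' : Env) (m k : ℤ) (x y : ℝ) : Prop :=
  ∀ j, m < j → j ≤ k → ∀ u ∈ Icc x y, ∀ v ∈ Icc x y, ω j v - ω j u = ω' j v - ω' j u

/-- The event depends only on the increments in a box. -/
def Loc (E : Set Env) (m k : ℤ) (x y : ℝ) : Prop :=
  ∀ ω ω', Agree ω ω' m k x y → ω ∈ E → ω' ∈ E

/-- The event depends only on the lines in `S`. -/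
def Dep (E : Set Env) (S : Set ℤ) : Prop := ∀ ω ω', (∀ j ∈ S, ω j = ω' j) → ω ∈ E → ω' ∈ E

/-- The exit point from the boundary `h` for the target `(y, k)` lies to the left of `z0`. -/
def GoodL (h : CP) (ω : Env) (m k : ℤ) (z0 y : ℝ) : Prop :=
  ∃ z ≤ z0, ∃ c, (∀ z' ∈ Icc z0 y, h z' + T ω m k z' y ≤ c) ∧ c < h z + T ω m k z y

/-- The exit point from the boundary `h` for the target `(y, k)` lies to the right of `z0`. -/
def GoodR (h : CP) (ω : Env) (m k : ℤ) (z0 y : ℝ) : Prop :=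
  ∃ z ∈ Icc z0 y, ∃ c, (∀ z' ≤ z0, h z' + T ω m k z' y ≤ c) ∧ c < h z + T ω m k z y

/-- Some geodesic from `(x, l + 1)` to `(y, l + 2 m)` jumps at half height far from the middle. -/
def Dev (l : ℤ) (m : ℕ) (x y α : ℝ) : Set Env :=
  {ω | ∃ z, α * (y - x) / 2 ≤ |z - (x + y) / 2| ∧ IsOpt ω l (l + m) (l + 2 * m) x y z}

/-- Some geodesic of horizontal length `D ^ (9/8)` jumps at half height before distance `D`. -/
def Crude (m : ℕ) (x D : ℝ) : Set Env :=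
  {ω | ∃ z ≤ x + D, IsOpt ω 0 m (2 * m) x (x + D ^ (9 / 8 : ℝ)) z}

/-! ### Deterministic facts -/

/-- Row DET1. -/
structure Det1 : Prop where
  le_T : ∀ ω m k x y t, m ≤ k → Adm m k x y t → wt ω m k t ≤ T ω m k x y
  exists_max : ∀ ω m k x y, Ok m k x y → ∃ t, Adm m k x y t ∧ wt ω m k t = T ω m k x y
  split : ∀ ω m l k t, m ≤ l → l ≤ k → wt ω m k t = wt ω m l t + wt ω l k t
  concat : ∀ ω m l k x z y, Ok m l x z → Ok l k z y → T ω m l x z + T ω l k z y ≤ T ω m k x y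
  self : ∀ ω m x, T ω m m x x = 0
  single : ∀ ω m x y, x ≤ y → T ω m (m + 1) x y = ω (m + 1) y - ω (m + 1) x
  quad : ∀ ω m k x x' y y', m < k → x ≤ x' → x' ≤ y → y ≤ y' →
    T ω m k x y' + T ω m k x' y ≤ T ω m k x y + T ω m k x' y'
  vquad : ∀ ω m l k x x' y, m < l → l ≤ k → x ≤ x' → x' ≤ y →
    T ω m k x' y + T ω m l x y ≤ T ω m k x y + T ω m l x' y
  right : ∀ ω m k x y y', m < k → x ≤ y → y ≤ y' →
    T ω m k x y + (ω k y' - ω k y) ≤ T ω m k x y'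
  left : ∀ ω m k x x' y, m < k → x ≤ x' → x' ≤ y →
    (ω (m + 1) x' - ω (m + 1) x) + T ω m k x' y ≤ T ω m k x y
  crude : ∀ ω m k x y K, m ≤ k → Ok m k x y →
    (∀ j, m < j → j ≤ k → ∀ u ∈ Icc x y, ∀ v ∈ Icc x y, ω j v - ω j u ≤ K) →
    T ω m k x y ≤ (k - m : ℤ) * K
  exists_opt : ∀ ω m l k x y, m < l → l < k → x ≤ y → ∃ z, IsOpt ω m l k x y z
  ord_up : ∀ ω m l k x y z x' y', m < l → l < k → IsOpt ω m l k x y z → x ≤ x' → y ≤ y' →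
    x' ≤ y' → ∃ z', z ≤ z' ∧ IsOpt ω m l k x' y' z'
  ord_down : ∀ ω m l k x y z x' y', m < l → l < k → IsOpt ω m l k x y z → x' ≤ x → y' ≤ y →
    x' ≤ y' → ∃ z', z' ≤ z ∧ IsOpt ω m l k x' y' z'
  bi_T : ∀ ω x m k, IsBi ω x → m ≤ k → T ω m k (x m) (x k) = wt ω m k x
  bi_opt : ∀ ω x m l k, IsBi ω x → m ≤ l → l ≤ k → IsOpt ω m l k (x m) (x k) (x l)
  bi_opt' : ∀ ω x m l k y, IsBi ω x → m < l → l ≤ k → x m ≤ y → y ≤ x (m + 1) →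
    IsOpt ω m l k y (x k) (x l)
  shiftE : ∀ ω c l m k x y, T (shiftE c l ω) m k x y = T ω (m + l) (k + l) (c + x) (c + y)
  rotE : ∀ ω m k x y, T (rotE ω) m k x y = T ω (-k) (-m) (-y) (-x)
  scaleE : ∀ ω θ m k x y, 0 < θ → T ω m k (θ * x) (θ * y) = √θ * T (scaleE θ ω) m k x y
  bi_shift : ∀ ω c l x, IsBi ω x → IsBi (H69.shiftE c l ω) fun j => x (j + l) - c
  agree : ∀ ω ω' m k x y, Agree ω ω' m k x y → T ω m k x y = T ω' m k x y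
  meas : ∀ m k x y, Measurable fun ω => T ω m k x y

/-- Row DET2. -/
structure Det2 : Prop where
  lub : ∀ h ω m (n : ℕ) y, 1 ≤ n → AllBdd h ω m n →
    IsLUB ((fun z => h z + T ω m (m + n) z y) '' Iic y) (GG h ω m n y)
  perturb : ∀ (h h' : CP) ω m n K, (∀ z, |h z - h' z| ≤ K) → AllBdd h ω m n → AllBdd h' ω m n
  add_cst : ∀ h ω m n c, AllBdd h ω m n → GG (h + cst c) ω m n = GG h ω m n + cst c
  comp : ∀ h ω m (n n' : ℕ), GG h ω m (n + n') = GG (GG h ω m n) ω (m + n) n'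
  shift : ∀ h ω m n c, AllBdd h ω m n → AllBdd (shift c h) (shiftE c 0 ω) m n ∧
    ∀ x, GG (H69.shift c h) (shiftE c 0 ω) m n x = GG h ω m n (c + x) - h c
  past : ∀ h ω m n, (AllBdd h ω m n ↔ AllBdd (past h) ω m n) ∧
    GG (H69.past h) ω m n 0 = GG h ω m n 0
  dep : ∀ h ω ω' m (n : ℕ), (∀ j, m < j → j ≤ m + n → ω j = ω' j) →
    GG h ω m n = GG h ω' m n
  cmpL : ∀ h ω m (n : ℕ) a w x x', 1 ≤ n → AllBdd h ω m n → GoodL h ω m (m + n) a w →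
    a ≤ x → x ≤ x' → x' ≤ w →
    GG h ω m n x' - GG h ω m n x ≤ T ω m (m + n) a x' - T ω m (m + n) a x
  cmpR : ∀ h ω m (n : ℕ) a w x x', 1 ≤ n → AllBdd h ω m n → GoodR h ω m (m + n) a w →
    w ≤ x → x ≤ x' →
    T ω m (m + n) a x' - T ω m (m + n) a x ≤ GG h ω m n x' - GG h ω m n x
  cmpV : ∀ h ω m (n n' : ℕ) a y, 1 ≤ n → AllBdd h ω m (n + n') →
    GoodR h ω m (m + (n + n' : ℕ)) a y →
    GG h ω m (n + n') y - GG h ω m n y ≤ T ω m (m + (n + n' : ℕ)) a y - T ω m (m + n) a y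
  mid : ∀ h ω m (n n' : ℕ) x y z0 z, 1 ≤ n → 1 ≤ n' → AllBdd h ω m (n + n') →
    GoodR h ω m (m + (n + n' : ℕ)) x y → GoodL (GG h ω m n) ω (m + n) (m + (n + n' : ℕ)) z0 y →
    IsOpt ω m (m + n) (m + (n + n' : ℕ)) x y z → z < z0
  swap : ∀ f₁ f₂ w : CP, Bdd f₂ f₁ → Bdd f₁ w → Bdd f₂ (qR f₁ w) → Bdd (qG f₂ f₁) w →
    Bdd (qG f₂ (qR f₁ w)) (qD f₁ w) →
    qG (qG f₂ f₁) w = qG (qG f₂ (qR f₁ w)) (qD f₁ w)

/-! ### Brownian motion -/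

/-- Row BM1. -/
structure Bm1 : Prop where
  ext_lin : ∀ (μ ν : Measure CP) [IsProbabilityMeasure μ] [IsProbabilityMeasure ν],
    (∀ (n : ℕ) (c x : Fin n → ℝ), μ.map (fun f => ∑ i, c i * f (x i)) =
      ν.map fun f => ∑ i, c i * f (x i)) → μ = ν
  unique : ∀ μ ν a, IsBM μ a → IsBM ν a → μ = ν
  unique_piece : ∀ μ ν, IsPiece μ → IsPiece ν → μ = ν
  zero : ∀ μ a, IsBM μ a → ∀ᵐ f ∂μ, f 0 = 0
  law_sub : ∀ μ a x y, IsBM μ a → x ≤ y →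
    μ.map (fun f => f y - f x) = gaussianReal (a * (y - x)) (y - x).toNNReal
  add_lin : ∀ μ a b, IsBM μ a → IsBM (μ.map fun f => f + lin b) (a + b)
  shift : ∀ μ a c, IsBM μ a → IsBM (μ.map (shift c)) a
  rot : ∀ μ a, IsBM μ a → IsBM (μ.map rot) a
  neg : ∀ μ a, IsBM μ a → IsBM (μ.map fun f => -f) (-a)
  scale : ∀ μ a θ, 0 < θ → IsBM μ a → IsBM (μ.map (scale θ)) (a * √θ)
  markov : ∀ μ a c, IsBM μ a → 0 ≤ c → IndepFun (stop c) (fun f => fut (H69.shift c f)) μ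
  past_fut : ∀ μ a, IsBM μ a → μ.map (fun f => (past f, fut f)) = (μ.map past).prod (μ.map fut)

/-- Row BM2. -/
structure Bm2 : Prop where
  incr : ∀ μ a (n : ℕ) (x : Fin (n + 1) → ℝ), IsBM μ a → Monotone x →
    μ.map (fun f (i : Fin n) => f (x i.succ) - f (x i.castSucc)) =
      Measure.pi fun i : Fin n => gaussianReal (a * (x i.succ - x i.castSucc))
        (x i.succ - x i.castSucc).toNNReal
  of_incr : ∀ (μ ν : Measure CP) [IsProbabilityMeasure ν] a, IsBM μ a → (∀ᵐ f ∂ν, f 0 = 0) →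
    (∀ (n : ℕ) (x : Fin (n + 1) → ℝ), Monotone x →
      ν.map (fun f (i : Fin n) => f (x i.succ) - f (x i.castSucc)) =
        Measure.pi fun i : Fin n => gaussianReal (a * (x i.succ - x i.castSucc))
          (x i.succ - x i.castSucc).toNNReal) → ν = μ
  pair : ∀ μ ν a b, IsBM μ a → IsBM ν b → ∃ μ' ν', IsBM μ' ((a - b) / √2) ∧
    IsBM ν' ((a + b) / √2) ∧
    (μ.prod ν).map (fun p => ((√2)⁻¹ • (p.1 - p.2), (√2)⁻¹ • (p.1 + p.2))) = μ'.prod ν'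

/-- Row REF: the reflection principle and its consequences. -/
structure Ref : Prop where
  refl : ∀ μ (t m : ℝ), IsBM μ 0 → 0 < t → 0 ≤ m →
    (μ.restrict {f : CP | m < smax f t}).map (fun f : CP => f t) =
      (gaussianReal 0 t.toNNReal).restrict (Ioi m) +
        ((gaussianReal 0 t.toNNReal).restrict (Ioi m)).map fun x => 2 * m - x
  osc : ∀ (μ : Measure CP) (a c t m : ℝ), IsBM μ a → 0 < t → 0 ≤ m →
    μ {f : CP | ∃ x ∈ Icc c (c + t), m + |a| * t < |f x - f c|} ≤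
      ENNReal.ofReal (4 * Real.exp (-m ^ 2 / (2 * t)))
  lln : ∀ μ a, IsBM μ a → ∀ᵐ f ∂μ, ∀ ε > (0 : ℝ), ∃ C : ℝ, ∀ x, |f x - a * x| ≤ C + ε * |x|

/-- Row CM: the Cameron-Martin formula for a drift on `[0, y]`. -/
def CMStmt : Prop := ∀ μ (a c y : ℝ), IsBM μ a → 0 ≤ y →
  μ.map (fun f => f + c • clamp y) =
    μ.withDensity fun f => ENNReal.ofReal (Real.exp (c * (f y - a * y) - c ^ 2 * y / 2))

/-- Row CM: the maximum on the left half line is exponential. -/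
def SupStmt : Prop := ∀ μ a, IsBM μ a → 0 < a →
  (∀ᵐ (g : CP) ∂μ, BddAbove (g '' Iic 0)) ∧ μ.map (fun g => rmax g 0) = expMeasure (2 * a)

/-- Row LOC: one step of the stationary reflected Brownian motion. -/
def LocStmt : Prop := ∀ μ (a t : ℝ), IsBM μ a → 0 < a → 0 < t →
  ((expMeasure (2 * a)).prod μ).map
      (fun p => (max p.1 (smax p.2 t) - p.2 t, 2 * (max p.1 (smax p.2 t) - p.1) - p.2 t)) =
    (expMeasure (2 * a)).prod (gaussianReal (a * t) t.toNNReal)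

/-- Row PIT: the two-sided Pitman theorem. -/
def PitStmt : Prop := ∀ μ a, IsBM μ a → 0 < a → μ.map pit = μ ∧
  μ.map (fun g => (rmax g 0, past (pit g))) = (expMeasure (2 * a)).prod (μ.map past)

/-- Row BURKE. -/
def BurkeStmt : Prop := ∀ μ ν a b, IsBM μ a → IsBM ν b → b < a →
  (∀ᵐ p ∂μ.prod ν, Bdd p.1 p.2) ∧
  (μ.prod ν).map (fun p => (qD p.1 p.2, qR p.1 p.2)) = μ.prod ν ∧
  (μ.prod ν).map (fun p => (qJ p.1 p.2, past (qD p.1 p.2))) =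
    (expMeasure (a - b)).prod (μ.map past)

/-- Row ENV: symmetries and independence of the static environment. -/
structure EnvA : Prop where
  shiftE : ∀ μ c l, IsBM μ 0 → MeasurePreserving (shiftE c l) (PP μ) (PP μ)
  rotE : ∀ μ, IsBM μ 0 → MeasurePreserving rotE (PP μ) (PP μ)
  scaleE : ∀ μ θ, IsBM μ 0 → 0 < θ → MeasurePreserving (scaleE θ) (PP μ) (PP μ)
  eval : ∀ μ j, IsBM μ 0 → MeasurePreserving (fun ω : Env => ω j) (PP μ) μ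
  eval2 : ∀ μ i j, IsBM μ 0 → i ≠ j →
    MeasurePreserving (fun ω : Env => (ω i, ω j)) (PP μ) (μ.prod μ)
  glue : ∀ μ (S : Set ℤ) [DecidablePred (· ∈ S)], IsBM μ 0 →
    MeasurePreserving (fun (p : Env × Env) j => if j ∈ S then p.1 j else p.2 j)
      ((PP μ).prod (PP μ)) (PP μ)
  update : ∀ μ (j : ℤ), IsBM μ 0 →
    MeasurePreserving (fun p : Env × CP => Function.update p.1 j p.2) ((PP μ).prod μ) (PP μ)
  inter : ∀ μ (A B : Set Env) (S : Set ℤ), IsBM μ 0 → MeasurableSet A → MeasurableSet B →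
    Dep A S → Dep B Sᶜ → PP μ (A ∩ B) = PP μ A * PP μ B

/-! ### Stationary last passage percolation -/

/-- Row STAT. -/
structure Stat : Prop where
  bdd : ∀ μ ν a m n, IsBM μ 0 → IsBM ν a → 0 < a → ∀ᵐ p ∂ν.prod (PP μ), AllBdd p.1 p.2 m n
  law : ∀ μ ν a m n, IsBM μ 0 → IsBM ν a → 0 < a →
    (ν.prod (PP μ)).map (fun p => shift 0 (GG p.1 p.2 m n)) = ν
  up : ∀ μ ν a (m : ℤ) (n : ℕ) (E : Set (CP × Env)), IsBM μ 0 → IsBM ν a → 0 < a →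
    (∀ h ω ω', (∀ j : ℤ, m + n < j → ω j = ω' j) → (h, ω) ∈ E → (h, ω') ∈ E) →
    (ν.prod (PP μ)) {p | (shift 0 (GG p.1 p.2 m n), p.2) ∈ E} ≤ (ν.prod (PP μ)) E
  mgf : ∀ μ ν a m n β y, IsBM μ 0 → IsBM ν a → 0 < a → β < a →
    ∫⁻ p, ENNReal.ofReal (Real.exp (β * (GG p.1 p.2 m n y - p.1 y))) ∂ν.prod (PP μ) =
      ENNReal.ofReal ((a / (a - β)) ^ n)

/-- Row JOINT: two stationary processes in the same environment. -/
def JointStmt : Prop := ∀ μ ν₁ ν₂ a₁ a₂ (m : ℤ) (n : ℕ), IsBM μ 0 → IsBM ν₁ a₁ → IsBM ν₂ a₂ →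
  0 < a₁ → a₁ < a₂ →
  ((ν₁.prod ν₂).prod (PP μ)).map (fun p => (fut (shift 0 (GG p.1.1 p.2 m n)),
      past (shift 0 (GG (qD p.1.2 p.1.1) p.2 m n)))) = (ν₁.map fut).prod (ν₂.map past)

/-- Row EXIT: the moment generating function identity. -/
def EjsStmt : Prop := ∀ μ a b y (m : ℤ) (n : ℕ), IsBM μ 0 → 0 < a → 0 < b → 0 ≤ y →
  ∫⁻ p, ENNReal.ofReal (Real.exp ((a - b) * GG (hab a b y p.1) p.2 m n y)) ∂μ.prod (PP μ) =
    ENNReal.ofReal ((a / b) ^ n * Real.exp ((a ^ 2 - b ^ 2) * y / 2))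

/-- Row EXIT: exit point bounds and the right tail. -/
structure Exit : Prop where
  left : ∀ μ ν b u (m : ℤ) (n : ℕ) z0 y, IsBM μ 0 → IsBM ν (b * (1 - u)) → 0 < b → 0 < u → u < 1 →
    1 ≤ n → z0 ≤ y → (ν.prod (PP μ)) {p | ¬ GoodL p.1 p.2 m (m + n) z0 y} ≤
      ENNReal.ofReal (Real.exp (u ^ 2 * (b ^ 2 * (y - z0) - n) / 2))
  right : ∀ μ ν a u (m : ℤ) (n : ℕ) z0 y, IsBM μ 0 → IsBM ν (a * (1 + u)) → 0 < a → 0 < u → u < 1 →
    1 ≤ n → z0 ≤ y → (ν.prod (PP μ)) {p | ¬ GoodR p.1 p.2 m (m + n) z0 y} ≤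
      ENNReal.ofReal (Real.exp (u ^ 2 * (n / (1 - u ^ 2) - a ^ 2 * (y - z0)) / 2))
  tail : ∀ μ (m : ℤ) (n : ℕ) (x y δ r : ℝ), IsBM μ 0 → 1 ≤ n → x ≤ y → 0 < δ → δ ≤ 1 / 2 →
    PP μ {ω | (y - x) + n + r ≤ T ω m (m + n) x y} ≤
      ENNReal.ofReal (Real.exp (n * δ ^ 3 - 2 * δ * r))

/-- Row LEFT: the left tail. -/
def LeftStmt : Prop := ∃ C : ℝ, 1 ≤ C ∧ ∀ μ (m : ℤ) (n : ℕ) (x ν r : ℝ), IsBM μ 0 → 0 < ν →
  n ≤ ν ^ 3 → ν ^ 3 ≤ 8 * n → 1 ≤ r → C * r ≤ ν →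
  PP μ {ω | T ω m (m + n) x (x + n) ≤ 2 * n - C * r ^ 2 * ν} ≤ ENNReal.ofReal (C * Real.exp (-r))

/-- Row MID: transversal fluctuations at half height. -/
def MidStmt : Prop := ∃ C : ℝ, 1 ≤ C ∧ ∀ μ (l : ℤ) (m : ℕ) (x y α : ℝ), IsBM μ 0 → 1 ≤ m →
  x < y → 0 < α → α ≤ 1 / 2 →
  PP μ (Dev l m x y α) ≤ ENNReal.ofReal (4 * Real.exp (-(α ^ 3 * m / C)))

/-- Row MID: very flat geodesics. -/
def CrudeStmt : Prop := ∃ (m0 : ℕ) (C : ℝ), 0 ≤ C ∧ ∀ μ (m : ℕ) (x D : ℝ), IsBM μ 0 → m0 ≤ m →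
  Real.exp ((m : ℝ) ^ (1 / 4 : ℝ)) ≤ D → PP μ (Crude m x D) ≤ ENNReal.ofReal (C / D ^ 5)

/-- The two-sided event in normal form: sources on the line `1`, targets on the line `n`. -/
def TwoEv (n : ℕ) (a₁ b₁ a₂ b₂ B R : ℝ) (Y : Set ℝ) : Set (Env × Env) :=
  {p | (∃ z₁ ∈ Icc (-B) B, ∃ z₂ ∈ Icc (-B) B, ∀ y ∈ Y,
      (T p.1 0 n a₁ y - y) + (T p.2 0 n b₂ (-y) + y) ≤
        (T p.1 0 n a₁ z₁ - z₁) + (T p.2 0 n b₂ z₂ - z₂) + R) ∧
    (∃ z₁ ∈ Icc (-B) B, ∃ z₂ ∈ Icc (-B) B, ∀ y ∈ Y,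
      (T p.1 0 n b₁ (-y) + y) + (T p.2 0 n a₂ y - y) ≤
        (T p.1 0 n b₁ z₁ - z₁) + (T p.2 0 n a₂ z₂ - z₂) + R)}

/-- Row TWO: the two-sided estimate. -/
def TwoStmt : Prop := ∃ C : ℝ, 1 ≤ C ∧ ∀ μ (n : ℕ) (ν r B R a₁ b₁ a₂ b₂ : ℝ) (Y : Set ℝ),
  IsBM μ 0 → 0 < ν → n ≤ ν ^ 3 → ν ^ 3 ≤ 8 * n → 1 ≤ r → C * r ≤ ν → 1 ≤ B → B ≤ ν ^ 2 → 0 ≤ R →
  |a₁ + n| ≤ r * ν ^ 2 → |b₁ + n| ≤ r * ν ^ 2 → |a₂ + n| ≤ r * ν ^ 2 → |b₂ + n| ≤ r * ν ^ 2 →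
  Y ⊆ Icc B (ν ^ 2) → (∀ y ∈ Icc 0 (ν ^ 2), ∃ y' ∈ Y, |y' - y| ≤ 2 * B) →
  ((PP μ).prod (PP μ)) (TwoEv n a₁ b₁ a₂ b₂ B R Y) ≤
    ENNReal.ofReal ((C * r * (R + r * √B) / ν) ^ 2 + C * ν ^ 2 * Real.exp (-r))

/-! ### One step of the multi-scale argument -/

/-- The path is close to the line of direction `θ` at the heights `N` and `-N`. -/
def LocAt (x : ℤ → ℝ) (θ A : ℝ) (N : ℕ) : Prop :=
  |x (N : ℤ) - θ * N| ≤ A ∧ |x (-(N : ℤ)) + θ * N| ≤ A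

/-- The window around `± θ M` is nearly optimal at scale `N`, on both sides. -/
def StepEv (θ R : ℝ) (N M : ℕ) (A : ℝ) (B w : ℤ) : Set Env :=
  {ω | (∃ z₁ ∈ Finset.Icc (-B) B, ∃ z₂ ∈ Finset.Icc (-B) B, ∀ y ∈ Finset.Icc B w,
      (T ω (-N) (-M) (⌊-(θ * N) - A⌋ : ℤ) ((-⌈θ * M⌉ + y : ℤ) : ℝ) - y / √θ) +
        (T ω M N ((⌈θ * M⌉ + y : ℤ) : ℝ) (⌊θ * N - A⌋ : ℤ) + y / √θ) ≤
      (T ω (-N) (-M) (⌊-(θ * N) - A⌋ : ℤ) ((-⌈θ * M⌉ + z₁ : ℤ) : ℝ) - z₁ / √θ) +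
        (T ω M N ((⌈θ * M⌉ + z₂ : ℤ) : ℝ) (⌊θ * N - A⌋ : ℤ) + z₂ / √θ) + R) ∧
    (∃ z₁ ∈ Finset.Icc (-B) B, ∃ z₂ ∈ Finset.Icc (-B) B, ∀ y ∈ Finset.Icc B w,
      (T ω (-N) (-M) (⌈-(θ * N) + A⌉ : ℤ) ((-⌈θ * M⌉ - y : ℤ) : ℝ) + y / √θ) +
        (T ω M N ((⌈θ * M⌉ - y : ℤ) : ℝ) (⌈θ * N + A⌉ : ℤ) - y / √θ) ≤
      (T ω (-N) (-M) (⌈-(θ * N) + A⌉ : ℤ) ((-⌈θ * M⌉ + z₁ : ℤ) : ℝ) - z₁ / √θ) +
        (T ω M N ((⌈θ * M⌉ + z₂ : ℤ) : ℝ) (⌈θ * N + A⌉ : ℤ) + z₂ / √θ) + R)}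

/-- Row STEPS: the static side of a step. -/
structure StepS : Prop where
  meas : ∀ θ R N M A B w, MeasurableSet (StepEv θ R N M A B w)
  dep : ∀ θ R (N M : ℕ) A B w, Dep (StepEv θ R N M A B w) (Ioc (-(N : ℤ)) (-M) ∪ Ioc (M : ℤ) N)
  loc : ∀ (θ R : ℝ) (N M : ℕ) (A : ℝ) (B w K : ℤ), 0 ≤ θ → 0 ≤ A → M ≤ N → θ * N + A + 1 ≤ K →
    ⌈θ * M⌉ + |B| + |w| ≤ K → Loc (StepEv θ R N M A B w) (-N) N (-K : ℤ) K
  prob : ∀ κ : ℝ, 0 < κ → κ ≤ 1 → ∃ C : ℝ, 1 ≤ C ∧ ∀ μ θ R (N M : ℕ) (A ν r : ℝ) (B : ℤ),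
    IsBM μ 0 → θ ∈ Icc κ κ⁻¹ → 2 * M ≤ N → 0 < ν → ν ^ 3 = N → 1 ≤ r → C * r ≤ ν → 0 ≤ A →
    A ≤ r * ν ^ 2 → κ⁻¹ ≤ B → C * B ≤ ν ^ 2 → 0 ≤ R →
    PP μ (StepEv θ R N M A B ⌊θ * ν ^ 2⌋) ≤
      ENNReal.ofReal ((C * r * (R + r * √B) / ν) ^ 2 + C * ν ^ 2 * Real.exp (-r))

/-- Row STEPD: the deterministic side of a step. -/
def StepDStmt : Prop := ∀ (ω ω₀ : Env) (x : ℤ → ℝ) (θ A A' o ρ d : ℝ) (N M : ℕ) (B w K : ℤ),
  IsBi ω x → 0 < θ → M < N → LocAt x θ A N → LocAt x θ A' M → 0 ≤ ρ → A' + 2 ≤ B → B ≤ w →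
  ((⌈θ * M⌉ + w : ℤ) : ℝ) ≤ θ * N - A - 1 → θ * N + A + 1 ≤ K →
  (∀ j ∈ ({-(M : ℤ), -(M : ℤ) + 1, (M : ℤ), (M : ℤ) + 1} : Set ℤ), ∀ i : ℤ, |i| ≤ K →
    ∀ u ∈ Icc (i : ℝ) (i + 1), |ω j u - ω j i| ≤ o) →
  (0 < M → ∀ u v : ℤ, |u| ≤ K → |v| ≤ K → u ≤ v →
    T ω (-M) M u v ≤ (v - u) / √θ + 2 * M * √θ + ρ) →
  (0 < M → ∀ u : ℤ, |u| ≤ K →
    2 * (⌈θ * M⌉ : ℤ) / √θ + 2 * M * √θ - ρ ≤ T ω (-M) M u ((u + 2 * ⌈θ * M⌉ : ℤ) : ℝ)) →
  (∀ u v : ℤ, |u| ≤ K → |v| ≤ K → u ≤ v →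
    |T ω (-N) (-M) u v - T ω₀ (-N) (-M) u v| ≤ d ∧ |T ω M N u v - T ω₀ M N u v| ≤ d) →
  ω₀ ∈ StepEv θ (4 * d + 2 * ρ + 8 * o + 4 / √θ) N M A B w

/-- Row SLAB: passage times across the inner slab. -/
def SlabStmt : Prop := ∀ κ : ℝ, 0 < κ → κ ≤ 1 → ∃ C : ℝ, 1 ≤ C ∧
  ∀ μ θ (M : ℕ) (ν r u : ℝ), IsBM μ 0 → θ ∈ Icc κ κ⁻¹ → 0 < ν → ν ^ 3 = M → 1 ≤ r → C * r ≤ ν →
    (∀ v, u ≤ v → PP μ {ω | (v - u) / √θ + 2 * M * √θ + C * r ^ 2 * ν < T ω (-M) M u v} ≤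
      ENNReal.ofReal (C * Real.exp (-r))) ∧
    PP μ {ω | T ω (-M) M u (u + 2 * (⌈θ * M⌉ : ℤ)) <
        2 * (⌈θ * M⌉ : ℤ) / √θ + 2 * M * √θ - C * r ^ 2 * ν} ≤ ENNReal.ofReal (C * Real.exp (-r))

/-! ### The dynamics -/

universe u

/-- All that is used about the dynamics. -/
structure Dyn {Ω : Type u} [MeasurableSpace Ω] (P : Measure Ω) (μ : Measure CP)
    (W : ℝ → Ω → Env) : Prop where
  bm : IsBM μ 0
  union : ∀ (E : Set Env) (m k i0 i1 : ℤ) (t0 s : ℝ), m ≤ k → i0 ≤ i1 → 0 ≤ s →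
    Loc E m k i0 i1 → P {ω | ∃ t ∈ Icc t0 (t0 + s), W t ω ∈ E} ≤
      ENNReal.ofReal (1 + (k - m) * (i1 - i0) * s) * PP μ E
  move : ∀ (m k i0 i1 : ℤ) (t0 s r : ℝ), m < k → i0 ≤ i1 → 0 ≤ s → s ≤ 1 → 0 ≤ r →
    P {ω | ∃ t ∈ Icc t0 (t0 + s), r * (1 + √(s * (i1 - i0))) <
        |T (W t ω) m k i0 i1 - T (W t0 ω) m k i0 i1|} ≤
      ENNReal.ofReal (10 ^ 6 * (1 + (k - m) * (i1 - i0)) ^ 2 * Real.exp (-r))

/-- One path for each cell. -/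
abbrev Cfg : Type := ℤ × ℤ → CP

/-- Cut off to `[0, 1]`. -/
def cl (v : ℝ) : ℝ := max 0 (min v 1)

theorem continuous_cat (g : ℤ → CP) :
    Continuous fun x : ℝ => ∑ᶠ i : ℤ, (g i (cl (x - i)) - g i (cl (-i))) := by
  refine continuous_finsum (fun i => ?_) ?_
  · unfold cl; fun_prop
  · intro x
    refine ⟨Ioo (x - 1) (x + 1), Ioo_mem_nhds (by linarith) (by linarith), ?_⟩
    refine (finite_Icc (-(⌈|x|⌉ + 2)) (⌈|x|⌉ + 2)).subset ?_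
    rintro i ⟨y, hy, hy1, hy2⟩
    have h1 := le_abs_self x
    have h2 := neg_abs_le x
    have h3 := Int.le_ceil |x|
    have h4 := abs_nonneg x
    by_contra hi
    apply hy
    have : cl (y - i) = cl (-i) := by
      rw [mem_Icc, not_and_or, not_le, not_le] at hi
      unfold cl
      rcases hi with hi | hi
      · have : (i : ℝ) < -((⌈|x|⌉ : ℝ) + 2) := by exact_mod_cast hi
        rw [min_eq_right (by linarith), min_eq_right (by linarith)]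
      · have : ((⌈|x|⌉ : ℝ) + 2) < i := by exact_mod_cast hi
        rw [max_eq_left (min_le_of_left_le (by linarith)),
          max_eq_left (min_le_of_left_le (by linarith))]
    simp only [this, sub_self]

/-- Concatenation of unit pieces. -/
noncomputable def cat (g : ℤ → CP) : CP :=
  ⟨fun x => ∑ᶠ i : ℤ, (g i (cl (x - i)) - g i (cl (-i))), continuous_cat g⟩

/-- The environment built from the pieces. -/
noncomputable def envOf (ξ : Cfg) : Env := fun n => cat fun i => ξ (i, n)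

/-- The law of the pieces. -/
noncomputable def QQ (π : Measure CP) : Measure Cfg := Measure.infinitePi fun _ : ℤ × ℤ => π

/-- The cells of a box. -/
noncomputable def box (m k i0 i1 : ℤ) : Finset (ℤ × ℤ) := Finset.Ico i0 i1 ×ˢ Finset.Ioc m k

/-- The passage time with jumps on the dyadic grid of mesh `2 ^ (-n)`. -/
noncomputable def Tn (ω : Env) (m k i0 i1 : ℤ) (n : ℕ) : ℝ :=
  sSup (wt ω m k '' {t | Adm m k i0 i1 t ∧ ∀ j ∈ Icc m k, ∃ z : ℤ, t j = z / 2 ^ n})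

/-- The working form of the model. -/
structure Work {Ω : Type u} [MeasurableSpace Ω] (P : Measure Ω) (π : Measure CP)
    (Y : (ℤ × ℤ) × ℤ → Ω → CP) (N : ℤ × ℤ → ℝ → Ω → ℤ) : Prop where
  prob : IsProbabilityMeasure P
  piece : IsPiece π
  measY : ∀ a, Measurable (Y a)
  lawY : P.map (fun ω a => Y a ω) = Measure.infinitePi fun _ : (ℤ × ℤ) × ℤ => π
  measN : ∀ c t, AEMeasurable (N c t) P
  mono : ∀ c ω, Monotone fun t => N c t ω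
  rightCont : ∀ c ω t, ContinuousWithinAt (fun v => N c v ω) (Ici t) t
  poisson : ∀ c s t, s ≤ t → HasLaw (fun ω => N c t ω - N c s ω)
    ((poissonMeasure (t - s).toNNReal).map fun n : ℕ => (n : ℤ)) P
  indepN : iIndepFun (fun (c : ℤ × ℤ) ω t => N c t ω) P
  indepYN : IndepFun (fun ω (a : (ℤ × ℤ) × ℤ) => Y a ω) (fun ω (c : ℤ × ℤ) t => N c t ω) P

/-- Row CAT. -/
structure Cat : Prop where
  incr : ∀ (g : ℤ → CP) (i : ℤ) (s : ℝ), 0 ≤ s → s ≤ 1 → cat g (i + s) - cat g i = g i s - g i 0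
  meas : Measurable envOf
  law : ∀ π, IsPiece π → ∃ μ, IsBM μ 0 ∧ (QQ π).map envOf = PP μ
  agree : ∀ (ξ ξ' : Cfg) (m k i0 i1 : ℤ), (∀ c ∈ box m k i0 i1, ξ c = ξ' c) →
    Agree (envOf ξ) (envOf ξ') m k i0 i1
  line : ∀ (X : ℤ → ℝ≥0 → ℝ) (g : ℤ → CP), (∀ i, X i 0 = 0) →
    (∀ i s, g i s = X i s.toNNReal) → ∀ x, line X x = cat g x

/-- Row REDUCE. -/
def ReduceStmt : Prop := ∀ (Ω : Type u) [MeasurableSpace Ω] (P : Measure Ω)
  (X : ℤ × ℤ → ℤ → ℝ≥0 → Ω → ℝ) (N : ℤ × ℤ → ℝ → Ω → ℤ), IsModel P X N →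
  ∃ π Y, Work P π Y N ∧ ∀ᵐ ω ∂P, (∀ c k, X c k 0 ω = 0) ∧
    ∀ c k (s : ℝ), Y (c, k) ω s = X c k s.toNNReal ω

/-- Row MP: Gaussian rotation bound for a maximum of sums under resampling on `R`. -/
def MpStmt : Prop := ∀ (I : Type) [Fintype I] [DecidableEq I] (h : ℝ≥0) (Fam : Finset (Finset I))
  (hne : Fam.Nonempty), ∃ p : Finset I → ℝ≥0∞, ∑ γ ∈ Fam, p γ = 1 ∧
    ∀ (R : Finset I) (β ℓ : ℝ), 0 ≤ β →
    ((Measure.pi fun _ : I => gaussianReal 0 h).prod (Measure.pi fun _ : I => gaussianReal 0 h))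
      {q | ℓ < |Fam.sup' hne (fun γ => ∑ i ∈ γ, q.1 i) -
        Fam.sup' hne (fun γ => ∑ i ∈ γ, if i ∈ R then q.2 i else q.1 i)|} ≤
      2 * ENNReal.ofReal (Real.exp (-(β * ℓ))) *
        ∑ γ ∈ Fam, p γ * ENNReal.ofReal (Real.exp (5 / 4 * β ^ 2 * (h * (γ ∩ R).card)))

/-- Row DISC. -/
structure Disc : Prop where
  tends : ∀ ω (m k i0 i1 : ℤ), m < k → i0 ≤ i1 →
    Tendsto (Tn ω m k i0 i1) atTop (𝓝 (T ω m k i0 i1))
  agree : ∀ ω ω' (m k i0 i1 : ℤ) n, Agree ω ω' m k i0 i1 → Tn ω m k i0 i1 n = Tn ω' m k i0 i1 n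
  bound : ∀ π (m k i0 i1 : ℤ) (n : ℕ), IsPiece π → m < k → i0 ≤ i1 →
    ∃ (ι : Type) (S : Finset ι) (p : ι → ℝ≥0∞) (len : ι → ℤ × ℤ → ℝ), ∑ γ ∈ S, p γ = 1 ∧
      (∀ γ ∈ S, ∀ c, 0 ≤ len γ c ∧ len γ c ≤ 1) ∧
      (∀ γ ∈ S, ∑ c ∈ box m k i0 i1, len γ c ≤ i1 - i0) ∧
      ∀ (R : Finset (ℤ × ℤ)) (β ℓ : ℝ), R ⊆ box m k i0 i1 → 0 ≤ β →
        ((QQ π).prod (QQ π)) {q | ℓ < |Tn (envOf q.1) m k i0 i1 n -
          Tn (envOf fun c => if c ∈ R then q.2 c else q.1 c) m k i0 i1 n|} ≤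
        2 * ENNReal.ofReal (Real.exp (-(β * ℓ))) *
          ∑ γ ∈ S, p γ * ENNReal.ofReal (Real.exp (5 / 4 * β ^ 2 * ∑ c ∈ R, len γ c))

/-- Row CLOCK1. -/
def UnionStmt : Prop := ∀ (Ω : Type u) [MeasurableSpace Ω] (P : Measure Ω) (π : Measure CP)
  (Y : (ℤ × ℤ) × ℤ → Ω → CP) (N : ℤ × ℤ → ℝ → Ω → ℤ), Work P π Y N →
  ∀ (E : Set Cfg) (Λ : Finset (ℤ × ℤ)) (t0 s : ℝ), 0 ≤ s →
    (∀ ξ ξ' : Cfg, (∀ c ∈ Λ, ξ c = ξ' c) → ξ ∈ E → ξ' ∈ E) →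
    P {ω | ∃ t ∈ Icc t0 (t0 + s), (fun c => Y (c, N c t ω) ω) ∈ E} ≤
      ENNReal.ofReal (1 + Λ.card * s) * QQ π E

/-- Row CLOCK2. -/
def MoveStmt : Prop := ∀ (Ω : Type u) [MeasurableSpace Ω] (P : Measure Ω) (π : Measure CP)
  (Y : (ℤ × ℤ) × ℤ → Ω → CP) (N : ℤ × ℤ → ℝ → Ω → ℤ), Work P π Y N →
  ∀ (m k i0 i1 : ℤ) (t0 s r : ℝ), m < k → i0 ≤ i1 → 0 ≤ s → s ≤ 1 → 0 ≤ r →
    P {ω | ∃ t ∈ Icc t0 (t0 + s), r * (1 + √(s * (i1 - i0))) <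
        |T (envOf fun c => Y (c, N c t ω) ω) m k i0 i1 -
          T (envOf fun c => Y (c, N c t0 ω) ω) m k i0 i1|} ≤
      ENNReal.ofReal (10 ^ 6 * (1 + (k - m) * (i1 - i0)) ^ 2 * Real.exp (-r))

/-! ### Assembly -/

/-- No geodesic ends in a horizontal ray. -/
def NoRay (ω : Env) : Prop := ∀ (m : ℤ) (x : ℝ),
  (¬ ∀ z ≤ x, ω m z - ω (m + 1) z ≤ ω m x - ω (m + 1) x) ∧
    ¬ ∀ z, x ≤ z → ω m z - ω (m + 1) z ≤ ω m x - ω (m + 1) x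

/-- Row RAY. -/
def RayStmt : Prop := ∀ (Ω : Type u) [MeasurableSpace Ω] (P : Measure Ω) (μ : Measure CP)
  (W : ℝ → Ω → Env), Dyn P μ W → ∀ᵐ ω ∂P, ∀ t, NoRay (W t ω)

/-- Row STRUCT. -/
def StructStmt : Prop := ∀ (ω : Env) (Γ : Set (ℝ × ℤ)), IsBigeodesic (fun n x => ω n x) Γ →
  IsNontrivial Γ → NoRay ω → ∃ x, IsBi ω x ∧ (∃ k, x k < x (k + 1)) ∧ ∀ j, (x j, j) ∈ Γ

/-- Linear growth along the powers of two. -/
def Linear (x : ℤ → ℝ) : Prop := ∃ c > (0 : ℝ), ∃ C : ℝ, ∀ᶠ i : ℕ in atTop,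
  c * 2 ^ i ≤ x ((2 ^ i : ℕ) : ℤ) ∧ x ((2 ^ i : ℕ) : ℤ) ≤ C * 2 ^ i

/-- The path has a direction, with the right order of deviations. -/
def Straight (x : ℤ → ℝ) (θ : ℝ) : Prop := ∃ C : ℝ, ∀ᶠ i : ℕ in atTop,
  LocAt x θ (C * i * 2 ^ (2 * (i : ℝ) / 3)) (2 ^ i)

/-- Row LOCAL. -/
def LocalStmt : Prop := ∀ (Ω : Type u) [MeasurableSpace Ω] (P : Measure Ω) (μ : Measure CP)
  (W : ℝ → Ω → Env), Dyn P μ W → ∀ᵐ ω ∂P, ∀ t x, IsBi (W t ω) x → x 0 < x 1 → Linear x →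
    ∃ θ > (0 : ℝ), Straight x θ

/-- Row GROWTH. -/
def GrowthStmt : Prop := ∀ (Ω : Type u) [MeasurableSpace Ω] (P : Measure Ω) (μ : Measure CP)
  (W : ℝ → Ω → Env), Dyn P μ W → ∀ᵐ ω ∂P, ∀ t x, IsBi (W t ω) x → x 0 < x 1 → Linear x

/-- The cube root of the `j`-th scale. -/
def nu (ℓ k j : ℕ) : ℝ := 2 ^ (ℓ * (k - j))

/-- The `j`-th scale. -/
def lev (ℓ k j : ℕ) : ℕ := if j < k then 2 ^ (3 * (ℓ * (k - j))) else 0

/-- There is a bigeodesic localised at all the scales. -/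
def Tube (ω : Env) (θ : ℝ) (ℓ k : ℕ) : Prop :=
  ∃ x, IsBi ω x ∧ ∀ j ≤ k, LocAt x θ ((ℓ : ℝ) ^ 2 * nu ℓ k j ^ 2) (lev ℓ k j)

/-- Row MULTI. -/
def MultiStmt : Prop := ∀ (κ : ℝ) (k : ℕ), 0 < κ → κ ≤ 1 → 1 ≤ k → ∃ (C : ℝ) (ℓ0 : ℕ), 0 ≤ C ∧
  ∀ (Ω : Type u) [MeasurableSpace Ω] (P : Measure Ω) (μ : Measure CP) (W : ℝ → Ω → Env),
    Dyn P μ W → ∀ ℓ ≥ ℓ0, ∀ θ ∈ Icc κ κ⁻¹, ∀ t0 : ℝ,
    P {ω | ∃ t ∈ Icc t0 (t0 + ((2 : ℝ) ^ (ℓ * (k + 2)))⁻¹), Tube (W t ω) θ ℓ k} ≤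
      ENNReal.ofReal (C * (ℓ : ℝ) ^ (20 * k) / 2 ^ (2 * (ℓ * k)))

/-- Row CORE2. -/
def Core2Stmt : Prop := ∀ (Ω : Type u) [MeasurableSpace Ω] (P : Measure Ω) (μ : Measure CP)
  (W : ℝ → Ω → Env), Dyn P μ W → ∀ θ > (0 : ℝ), ∀ᵐ ω ∂P, ∀ t x, IsBi (W t ω) x → x 0 < x 1 →
    |x 0| ≤ 1 → ¬ Tendsto (fun i : ℕ => x ((2 ^ i : ℕ) : ℤ) / 2 ^ i) atTop (𝓝 θ)

/-- Row CORE1. -/
def Core1Stmt : Prop := ∀ (Ω : Type u) [MeasurableSpace Ω] (P : Measure Ω) (μ : Measure CP)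
  (W : ℝ → Ω → Env), Dyn P μ W → ∀ᵐ ω ∂P,
    dimH {t | ∃ x, IsBi (W t ω) x ∧ x 0 < x 1 ∧ |x 0| ≤ 1} = 0

end Pool.Agent.MP_3d8edd_pr.H69
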