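import Pool.Agent.MP_3d8edd_pr.H69.Basic

/-!
Row STAT: stationary last passage percolation from Burke's theorem.
-/

open MeasureTheory ProbabilityTheory Set Filter
open scoped NNReal ENNReal Topology

namespace Pool.Agent.MP_3d8edd_pr.H69

namespace StatA

theorem of_comp {α β γ : Type*} [MeasurableSpace α] [MeasurableSpace β] [MeasurableSpace γ]
    {A : Measure α} {B : Measure β} {D : Measure γ} {U : α → β} {F : β → γ} {G : α → γ}
    (hU : MeasurePreserving U A B) (hF : Measurable F) (hG : MeasurePreserving G A D)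
    (h : ∀ a, F (U a) = G a) : MeasurePreserving F B D := by
  refine ⟨hF, ?_⟩
  rw [← hU.map_eq, Measure.map_map hF hU.measurable, ← hG.map_eq]
  congr 1
  exact funext h

theorem lint_exp {a β : ℝ} (ha : 0 < a) (hβ : β < a) :
    ∫⁻ x, ENNReal.ofReal (Real.exp (β * x)) ∂expMeasure a = ENNReal.ofReal (a / (a - β)) := by
  have hd : 0 < a - β := sub_pos.2 hβ
  have hm : Measurable (exponentialPDF a) := (measurable_exponentialPDFReal a).ennreal_ofReal
  have e : expMeasure a = volume.withDensity (exponentialPDF a) := rfl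
  rw [e, lintegral_withDensity_eq_lintegral_mul _ hm (by fun_prop)]
  have : (exponentialPDF a * fun x => ENNReal.ofReal (Real.exp (β * x))) =
      fun x => ENNReal.ofReal (a / (a - β)) * exponentialPDF (a - β) x := by
    funext x
    rw [Pi.mul_apply]
    rcases lt_or_ge x 0 with hx | hx
    · rw [exponentialPDF_of_neg hx, exponentialPDF_of_neg hx, zero_mul, mul_zero]
    · rw [exponentialPDF_of_nonneg hx, exponentialPDF_of_nonneg hx,
        ← ENNReal.ofReal_mul (by positivity), ← ENNReal.ofReal_mul (by positivity)]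
      congr 1
      have : Real.exp (-(a * x)) * Real.exp (β * x) = Real.exp (-((a - β) * x)) := by
        rw [← Real.exp_add]; congr 1; ring
      rw [mul_assoc, this]
      field_simp
  have hm' : Measurable (exponentialPDF (a - β)) :=
    (measurable_exponentialPDFReal (a - β)).ennreal_ofReal
  rw [this]
  refine (lintegral_const_mul _ hm').trans ?_
  rw [lintegral_exponentialPDF_eq_one hd, mul_one]

/-- `Det2.dep` for integer levels. -/
theorem dep (h : CP) (ω ω' : Env) (m : ℤ) (n : ℕ)
    (H : ∀ j : ℤ, m < j → j ≤ m + n → ω j = ω' j) : GG h ω m n = GG h ω' m n := by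
  induction n with
  | zero => rfl
  | succ n ih =>
    rw [GG_succ, GG_succ, ih fun j h1 h2 => H j h1 (by push_cast; omega),
      H _ (by omega) (by push_cast; omega)]

theorem bdd_shift {G w : CP} (h : Bdd (shift 0 G) w) : Bdd G w := by
  obtain ⟨c, hc⟩ := h
  refine ⟨c + G 0, ?_⟩
  rintro _ ⟨z, hz, rfl⟩
  have := hc ⟨z, hz, rfl⟩
  simp only [ContinuousMap.sub_apply, shift_apply, zero_add] at this ⊢
  linarith

theorem rmax_shift {G w : CP} (h : Bdd (shift 0 G) w) (x : ℝ) :
    rmax (shift 0 G - w) x = rmax (G - w) x - G 0 := by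
  have h' := bdd_shift h
  apply le_antisymm
  · refine rmax_le h fun z hz => ?_
    have := le_rmax h' hz
    simp only [ContinuousMap.sub_apply, shift_apply, zero_add] at this ⊢
    linarith
  · have : rmax (G - w) x ≤ rmax (shift 0 G - w) x + G 0 := by
      refine rmax_le h' fun z hz => ?_
      have := le_rmax h hz
      simp only [ContinuousMap.sub_apply, shift_apply, zero_add] at this ⊢
      linarith
    linarith

theorem shift_qG {G w : CP} (h : Bdd (shift 0 G) w) (hw : w 0 = 0) :
    shift 0 (qG G w) = qD (shift 0 G) w := by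
  ext x
  rw [shift_apply, qD_apply, qG_apply, qG_apply, rmax_shift h, rmax_shift h, zero_add, hw]
  ring

section
variable (d2 : Det2) (b1 : Bm1) (e : EnvA) (bu : BurkeStmt)
  {μ ν : Measure CP} {a : ℝ} (hμ : IsBM μ 0) (hν : IsBM ν a) (ha : 0 < a)

include b1 hν in
theorem shift_mp (c : ℝ) : MeasurePreserving (shift c) ν ν :=
  ⟨measurable_shift c, b1.unique _ _ a (b1.shift ν a c hν) hν⟩

include e hμ hν in
theorem upd (j : ℤ) : MeasurePreserving
    (fun q : (CP × Env) × CP => ((q.1.1, Function.update q.1.2 j q.2) : CP × Env))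
    ((ν.prod (PP μ)).prod μ) (ν.prod (PP μ)) := by
  have := hμ.prob
  have := hν.prob
  exact ((MeasurePreserving.id ν).prod (e.update μ j hμ)).comp
    (measurePreserving_prodAssoc ν (PP μ) μ)

include e hμ hν in
theorem upd' (j : ℤ) : MeasurePreserving
    (fun q : (CP × CP) × Env => ((q.1.1, Function.update q.2 j q.1.2) : CP × Env))
    ((ν.prod μ).prod (PP μ)) (ν.prod (PP μ)) := by
  have := hμ.prob
  have := hν.prob
  exact ((MeasurePreserving.id ν).prod ((e.update μ j hμ).comp
    Measure.measurePreserving_swap)).comp (measurePreserving_prodAssoc ν μ (PP μ))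

include bu hμ hν ha in
theorem qD_mp : MeasurePreserving (fun p : CP × CP => qD p.1 p.2) (ν.prod μ) ν := by
  have := hμ.prob
  have := hν.prob
  have h2 : MeasurePreserving (fun p : CP × CP => (qD p.1 p.2, qR p.1 p.2)) (ν.prod μ)
      (ν.prod μ) := ⟨by fun_prop, (bu ν μ a 0 hν hμ ha).2.1⟩
  exact measurePreserving_fst.comp h2

include b1 e bu hμ hν ha in
theorem bdd_law (m : ℤ) (n : ℕ) : (∀ᵐ p ∂ν.prod (PP μ), AllBdd p.1 p.2 m n) ∧
    MeasurePreserving (fun p : CP × Env => shift 0 (GG p.1 p.2 m n)) (ν.prod (PP μ)) ν := by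
  have := hμ.prob
  have := hν.prob
  induction n with
  | zero =>
    exact ⟨ae_of_all _ fun p i hi => absurd hi (Nat.not_lt_zero i),
      (shift_mp b1 hν 0).comp measurePreserving_fst⟩
  | succ n ih =>
    have hp : MeasurePreserving
        (fun p : CP × Env => ((shift 0 (GG p.1 p.2 m n), p.2 (m + n + 1)) : CP × CP))
        (ν.prod (PP μ)) (ν.prod μ) := by
      refine of_comp (upd e hμ hν (m + n + 1)) (by fun_prop)
        (ih.2.prod (MeasurePreserving.id μ)) fun q => ?_
      simp only [Function.update_self, Prod.map, id]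
      rw [dep q.1.1 _ q.1.2 m n fun j _ hj => Function.update_of_ne (by omega) _ _]
    have hb : ∀ᵐ p ∂ν.prod (PP μ), Bdd (shift 0 (GG p.1 p.2 m n)) (p.2 (m + n + 1)) :=
      hp.quasiMeasurePreserving.ae (bu ν μ a 0 hν hμ ha).1
    have hz : ∀ᵐ p ∂ν.prod (PP μ), p.2 (m + n + 1) 0 = 0 :=
      (measurePreserving_snd.comp hp).quasiMeasurePreserving.ae (b1.zero μ 0 hμ)
    refine ⟨?_, ?_⟩
    · filter_upwards [ih.1, hb] with p h1 h2 i hi
      rcases Nat.lt_succ_iff_lt_or_eq.1 hi with h | rfl
      · exact h1 i h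
      · exact bdd_shift h2
    · refine ((qD_mp bu hμ hν ha).comp hp).congr (by fun_prop) ?_
      filter_upwards [hb, hz] with p h1 h2
      rw [GG_succ, shift_qG h1 h2]
      rfl

include b1 e bu hμ hν ha in
theorem up (m : ℤ) (n : ℕ) (E : Set (CP × Env))
    (hE : ∀ h ω ω', (∀ j : ℤ, m + n < j → ω j = ω' j) → (h, ω) ∈ E → (h, ω') ∈ E) :
    (ν.prod (PP μ)) {p | (shift 0 (GG p.1 p.2 m n), p.2) ∈ E} ≤ (ν.prod (PP μ)) E := by
  classical
  have := hμ.prob
  have := hν.prob
  let g : Env × Env → Env := fun p j => if j ∈ Iic (m + n) then p.1 j else p.2 j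
  have hg : MeasurePreserving g ((PP μ).prod (PP μ)) (PP μ) := e.glue μ (Iic (m + n)) hμ
  have hU : MeasurePreserving (fun q : (CP × Env) × Env => ((q.1.1, g (q.1.2, q.2)) : CP × Env))
      ((ν.prod (PP μ)).prod (PP μ)) (ν.prod (PP μ)) :=
    ((MeasurePreserving.id ν).prod hg).comp (measurePreserving_prodAssoc ν (PP μ) (PP μ))
  have hX : MeasurePreserving (fun q : (CP × Env) × Env =>
      ((shift 0 (GG q.1.1 q.1.2 m n), g (q.2, q.1.2)) : CP × Env))
      ((ν.prod (PP μ)).prod (PP μ)) (ν.prod (PP μ)) := by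
    refine of_comp (hU.prod (MeasurePreserving.id (PP μ))) ?_
      (((bdd_law b1 e bu hμ hν ha m n).2.prod (hg.comp Measure.measurePreserving_swap)).comp
        (measurePreserving_prodAssoc (ν.prod (PP μ)) (PP μ) (PP μ))) fun q => ?_
    · exact Measurable.prodMk (by fun_prop) (hg.measurable.comp (by fun_prop))
    · obtain ⟨⟨⟨h, α⟩, β⟩, ω'⟩ := q
      refine Prod.ext ?_ ?_
      · change shift 0 (GG h (g (α, β)) m n) = shift 0 (GG h α m n)
        rw [dep h (g (α, β)) α m n fun j _ hj => if_pos (mem_Iic.2 hj)]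
      · change g (ω', g (α, β)) = g (ω', β)
        funext j
        by_cases hj : j ∈ Iic (m + n)
        · simp only [g, if_pos hj]
        · simp only [g, if_neg hj]
  rw [← prod_fst_preimage (ν.prod (PP μ)) (PP μ)]
  refine le_trans (measure_mono ?_) (preimage_le hX E)
  intro q hq
  refine hE _ q.1.2 _ (fun j hj => ?_) hq
  exact (if_neg (not_le.2 hj)).symm

include d2 b1 e bu hμ hν ha in
theorem mgf0 {β : ℝ} (hβ : β < a) (n : ℕ) : ∀ m : ℤ,
    ∫⁻ p, ENNReal.ofReal (Real.exp (β * GG p.1 p.2 m n 0)) ∂ν.prod (PP μ) =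
      ENNReal.ofReal ((a / (a - β)) ^ n) := by
  have := hμ.prob
  have := hν.prob
  have := isProbabilityMeasure_expMeasure ha
  induction n with
  | zero =>
    intro m
    have hz : ∀ᵐ p ∂ν.prod (PP μ), p.1 0 = 0 :=
      measurePreserving_fst.quasiMeasurePreserving.ae (b1.zero ν a hν)
    rw [lintegral_congr_ae (g := fun _ => 1)]
    · simp
    · filter_upwards [hz] with p hp
      simp [hp]
  | succ n ih =>
    intro m
    have hpast : MeasurePreserving past ν (ν.map past) := ⟨measurable_past, rfl⟩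
    have : IsProbabilityMeasure (ν.map past) :=
      Measure.isProbabilityMeasure_map measurable_past.aemeasurable
    have hJ : MeasurePreserving (fun p : CP × CP => (qJ p.1 p.2, past (qD p.1 p.2))) (ν.prod μ)
        ((expMeasure a).prod (ν.map past)) :=
      ⟨by fun_prop, by simpa using (bu ν μ a 0 hν hμ ha).2.2⟩
    have hJ' := (measurePreserving_prodAssoc (expMeasure a) (ν.map past) (PP μ)).comp
      (hJ.prod (MeasurePreserving.id (PP μ)))
    have hb : ∀ᵐ q ∂(ν.prod μ).prod (PP μ), AllBdd (qD q.1.1 q.1.2) q.2 (m + 1) n :=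
      ((qD_mp bu hμ hν ha).prod (MeasurePreserving.id (PP μ))).quasiMeasurePreserving.ae
        (bdd_law b1 e bu hμ hν ha (m + 1) n).1
    have hmeas : Measurable fun r : ℝ × CP × Env => ENNReal.ofReal (Real.exp (β * r.1)) *
        ENNReal.ofReal (Real.exp (β * GG r.2.1 r.2.2 (m + 1) n 0)) := by fun_prop
    rw [← (upd' e hμ hν (m + 1)).lintegral_comp (by fun_prop)]
    have h1 : ∫⁻ q, ENNReal.ofReal (Real.exp
          (β * GG q.1.1 (Function.update q.2 (m + 1) q.1.2) m (n + 1) 0))
          ∂(ν.prod μ).prod (PP μ) =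
        ∫⁻ r, ENNReal.ofReal (Real.exp (β * r.1)) *
          ENNReal.ofReal (Real.exp (β * GG r.2.1 r.2.2 (m + 1) n 0))
          ∂(expMeasure a).prod ((ν.map past).prod (PP μ)) := by
      rw [← hJ'.lintegral_comp hmeas]
      refine lintegral_congr_ae ?_
      filter_upwards [hb] with q hq
      obtain ⟨⟨h, w⟩, ω⟩ := q
      change _ = ENNReal.ofReal (Real.exp (β * qJ h w)) *
        ENNReal.ofReal (Real.exp (β * GG (past (qD h w)) ω (m + 1) n 0))
      rw [← ENNReal.ofReal_mul (Real.exp_pos _).le, ← Real.exp_add, (d2.past _ _ _ _).2]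
      congr 2
      have e1 : GG h (Function.update ω (m + 1) w) m 1 = qD h w + cst (qJ h w) := by
        rw [GG_succ, GG_zero]
        simp only [Nat.cast_zero, add_zero, Function.update_self, qD, sub_add_cancel]
      rw [add_comm n 1, d2.comp, e1, Nat.cast_one,
        dep _ _ ω (m + 1) n fun j hj _ => Function.update_of_ne (by omega) _ _,
        d2.add_cst _ _ _ _ _ hq]
      simp only [ContinuousMap.add_apply, cst_apply]
      ring
    refine h1.trans ?_
    rw [lintegral_prod_mul (f := fun x : ℝ => ENNReal.ofReal (Real.exp (β * x)))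
      (g := fun r : CP × Env => ENNReal.ofReal (Real.exp (β * GG r.1 r.2 (m + 1) n 0)))
      (by fun_prop) (Measurable.aemeasurable (by fun_prop)), lint_exp ha hβ,
      ← (hpast.prod (MeasurePreserving.id (PP μ))).lintegral_comp (by fun_prop)]
    have h2 : ∀ p : CP × Env, GG (Prod.map past id p).1 (Prod.map past id p).2 (m + 1) n 0 =
        GG p.1 p.2 (m + 1) n 0 := fun p => (d2.past _ _ _ _).2
    simp_rw [h2]
    rw [ih, ← ENNReal.ofReal_mul (div_nonneg ha.le (sub_pos.2 hβ).le), pow_succ']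

include d2 b1 e bu hμ hν ha in
theorem mgf {β : ℝ} (hβ : β < a) (n : ℕ) (m : ℤ) (y : ℝ) :
    ∫⁻ p, ENNReal.ofReal (Real.exp (β * (GG p.1 p.2 m n y - p.1 y))) ∂ν.prod (PP μ) =
      ENNReal.ofReal ((a / (a - β)) ^ n) := by
  have := hμ.prob
  have := hν.prob
  rw [← mgf0 d2 b1 e bu hμ hν ha hβ n m]
  refine Eq.trans ?_ (((shift_mp b1 hν y).prod (e.shiftE μ y 0 hμ)).lintegral_comp (by fun_prop))
  refine lintegral_congr_ae ?_
  filter_upwards [(bdd_law b1 e bu hμ hν ha m n).1] with p hp
  have := (d2.shift p.1 p.2 m n y hp).2 0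
  rw [add_zero] at this
  rw [← this]
  rfl

end

end StatA

/-- Row STAT. -/
theorem stat (d2 : Det2) (b1 : Bm1) (e : EnvA) (bu : BurkeStmt) : Stat where
  bdd := fun _ _ _ m n hμ hν ha => (StatA.bdd_law b1 e bu hμ hν ha m n).1
  law := fun _ _ _ m n hμ hν ha => (StatA.bdd_law b1 e bu hμ hν ha m n).2.map_eq
  up := fun _ _ _ m n E hμ hν ha hE => StatA.up b1 e bu hμ hν ha m n E hE
  mgf := fun _ _ _ m n _ y hμ hν ha hβ => StatA.mgf d2 b1 e bu hμ hν ha hβ n m y

end Pool.Agent.MP_3d8edd_pr.H69
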